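import Pool.Agent.Q97.UM.Stm10

set_option autoImplicit false

/-!
Project UM5 (helper97), part 2: isolated simple zeros on the critical line and the size of `ζ'` there, relative to EVERY Dirichlet
polynomial. Proved and available: `b_SAMP : S_SAMP`, `b_WIN : S_WIN`, `b_DET`, `b_PAIR`, `b_ERR`, `b_ED` (Q97/UM/Base3.lean), `b_EDB`
(Q97/UM/Base6.lean), `b_TAIL` (Q97/UM/Base2.lean). `L = log T`.
-/

namespace Pool.Agent.Q97.UM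

open Filter Topology MeasureTheory Complex
open scoped ComplexConjugate

noncomputable section

open Classical in
/-- ISOW: the counting inequality for isolated points, with weights. PROOF. Combine `TH803UC.count_ineq` (file TH803/UC/Count.lean) and
`TH803CL.cluster_ineq`, `TH803CL.iso_ineq` (files TH803/CL/Cl.lean, TH803/CL/Geo.lean), from the general inequality `TH803CL.trace_D` (file
TH803/CL/Tr.lean) for `K(z, w) = ω(z) ω(w) φ(z - w)`. `P = {z ∈ Z | 0 ≤ Im z}`, `c z = cw m z`, `S = {z ∈ P | a z, |Im z| < d, some other w ∈ P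
with a w, |Im w| < d, ‖z - w‖ < d}`, `π` on `S` from `TH803CL.pairing`, `π z = z` elsewhere. `D(z, w) = κ/W √(c z) √(c w)` if `a z`, `a w` and
`π z = π w`, `W` the weight of the cluster, `κ = 1` if `W = 1` and `κ = 2` otherwise; `D(z, z) = 2` if `¬ a z`, `far z`; `D = 0` otherwise.
(1) Single points with `a z`: contribution `(κ-2) c K(conj z, z) + (κ+2) c Re K(z,z) - κ²`; `κ = 2`: `4c Re ω² - 4 ≥ 2c - 4c‖1-ω‖(1+‖ω‖)` as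
`c ≥ 2`; `κ = 1 = c`: `2 Re ω² - 1`. (2) Clusters (`W ≥ 2`): all `K(conj z, w)`, `K(z, w)`, `K(conj z, conj w)` are within
`‖1-ω z‖ + M ‖1-ω w‖ + M² η` of `1` (all distances are `≤ 6d`), so the contribution is at least `4W - 4 - 16 M² ∑ c (‖1-ω‖ + η)`, and
`4W - 4 ≥ 2W`. (3) `¬ a z` as in `count_ineq`. Points with `W = 1` are simple, real and at distance `≥ d` from the other points with `a`. -/
def S_ISOW : Prop := ∀ (E : Type) (_ : NormedAddCommGroup E) (_ : InnerProductSpace ℂ E) (φ : ℂ → ℂ) (k : ℂ → E),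
  (∀ z w, inner ℂ (k z) (k w) = φ (w - conj z)) → (∀ z, φ (-z) = φ z) → φ 0 = 1 → ∀ (Z : Finset ℂ) (m : ℂ → ℕ),
  (∀ z ∈ Z, conj z ∈ Z) → (∀ z ∈ Z, 1 ≤ m z) → (∀ z ∈ Z, m (conj z) = m z) → ∀ ω : ℂ → ℂ, (∀ z, ω (conj z) = conj (ω z)) →
  ∀ a far : ℂ → Prop, (∀ z, a (conj z) ↔ a z) → (∀ z, far z → z.im ≠ 0) → ∀ d η M : ℝ, 0 < d → 0 ≤ η → 1 ≤ M →
  (∀ u : ℂ, ‖u‖ ≤ 6 * d → ‖φ u - 1‖ ≤ η) → (∀ z ∈ Z, a z → |z.im| < d → ‖ω z‖ ≤ M) →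
  2 * ∑ z ∈ Z.filter a, (m z : ℝ) -
      ((Z.filter (fun z => a z ∧ z.im = 0 ∧ m z = 1 ∧ ∀ w ∈ Z, a w → w ≠ z → d ≤ ‖z - w‖)).card : ℝ) ≤
    (∑ z ∈ Z, ∑ w ∈ Z, (m z : ℂ) * (m w : ℂ) * (ω z * ω w * φ (z - w)) ^ 2).re +
    ∑ z ∈ Z.filter (fun z => ¬ a z ∧ ¬ far z), 4 * (m z : ℝ) * (‖ω z‖ ^ 2 * (‖φ (z - conj z)‖ + 1)) +
    ∑ z ∈ Z.filter (fun z => ¬ a z ∧ far z), (m z : ℝ) * (8 * ‖ω z‖ ^ 2 + 4) +
    ∑ z ∈ Z.filter a, (m z : ℝ) * (8 * ‖1 - ω z‖ * (1 + ‖ω z‖) + 32 * M ^ 2 * (η + ‖1 - ω z‖))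

open Classical in
/-- number of simple critical zeros in the window which are at distance `≥ d/L` from all other zeros of the window -/
def Niw (d T r t : ℝ) : ℝ := (((ZT T).filter (fun s => s.re = 1 / 2 ∧ mz s = 1 ∧ |s.im - t| ≤ r ∧
  ∀ s' ∈ ZT T, |s'.im - t| ≤ r → s' ≠ s → d / Real.log T ≤ ‖s - s'‖)).card : ℝ)

/-- DETI: the inequality for each `t`. Job `J_DETI`. PROOF. As `J_DET` (theorem `Pool.Agent.Q61.UM.t_DET`, file Q61/UM/DET.lean) with S_ISOW instead of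
`count_ineq`: `φ(z) = kapG g (Λ z)`, `Λ = lam L`, is continuous at `0` with `φ 0 = 1` and `lam ≤ 1`, so there is `d > 0` (depending on `g, η`) with
`|φ(u) - 1| ≤ η/1000` for `|u| ≤ 6d/L`. For `a z` and `|Im z| < d/L`: `‖ω z‖ ≤ 1 + 2C ≤ 3C =: M`. The last sum of S_ISOW is bounded by
`5000 C⁴ ErrS + η C² Nw` as in `J_DET` (`‖1 - ω‖ ≤ 2C e^{δy}/(1+H-|x|)^K + (H²+y²)/L²`, `(H²+y²)/L² ≤ e^{δy}/H` for large `T`). -/
def S_DETI : Prop := ∀ (g R : ℝ → ℝ) (lam : ℝ), H295SI.Win g → H295SI.Conv R → H295SI.KSq g R → 0 < lam → lam ≤ 1 →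
  ∀ η : ℝ, 0 < η → ∃ d : ℝ, 0 < d ∧ d ≤ 1 / 8 ∧
  ∀ (δ H C : ℝ) (K : ℕ) (w : ℝ → ℝ), 0 < δ → δ ≤ 1 / 8 → 1 ≤ H → 1 ≤ C → 2 ≤ K → OmW δ H C K w →
  ∀ᶠ T : ℝ in atTop, ∀ t : ℝ, T + 2 * Real.log T ≤ t → t ≤ 2 * T - 2 * Real.log T →
    2 * Nw T (H / Real.log T) t - Niw d T (H / Real.log T) t ≤
      2 * (∫ α in (0 : ℝ)..1, R α * ‖Zt w T (lam * Real.log T * α) t‖ ^ 2) + 10000 * C ^ 4 * ErrS δ H K T t +
        η * C ^ 2 * Nw T (H / Real.log T) t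

def J_DETI : Prop := S_GRM → S_ISOW → S_DETI

/-- WINI: isolated zeros in windows. Job `J_WINI`. PROOF. As `t_WIN` (file Q97/UM/Wc.lean, helper files Wa, Wb), with S_DETI in place of
S_DET; the constant `10000 C⁴` does not depend on `H`, so for `H ≥ H₀` the error is `≤ ε/4 · H/π`; `η` is chosen last, `η C² ≤ ε/8`, and `∫ Nw |B|²` is
bounded by the third part of S_WIN. Measurability of `Niw` in `t`: finite sum of indicator functions of finite boolean combinations of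
closed intervals. -/
def S_WINI : Prop := ∀ ε : ℝ, 0 < ε → ∃ H₀ : ℝ, 1 ≤ H₀ ∧ ∀ H : ℝ, H₀ ≤ H → ∃ d θ : ℝ, 0 < d ∧ d ≤ 1 ∧ 0 < θ ∧ θ ≤ 1 / 40 ∧
  ∀ᶠ T : ℝ in atTop, ∀ N : ℕ, (N : ℝ) ≤ T ^ θ → ∀ b : ℕ → ℂ,
    (2 - H370.cMTinv - ε) * (H / Real.pi) * (T * N2 N b) ≤
      ∫ t in (T + 2 * Real.log T)..(2 * T - 2 * Real.log T), Niw d T (H / Real.log T) t * ‖dp N b t‖ ^ 2

def J_WINI : Prop := S_OMEX → S_QH → S_MV2 → S_PAIR → S_LIN → S_DETI → S_ED → S_ERR → S_MTW →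
  (∃ θ c C : ℝ, 0 < θ ∧ θ ≤ 1 / 4 ∧ 0 < c ∧ 0 ≤ C ∧ TailB θ c C) → S_WIN → S_WINI

open Classical in
/-- the isolated simple critical zeros with `T < γ ≤ 2T`: distance at least `d / log T` from every other nontrivial zero -/
def ZI (d T : ℝ) : Finset ℂ := (H370.Zf riemannZeta T (2 * T)).filter (fun s => s.re = 1 / 2 ∧ mz s = 1 ∧
  ∀ s' ∈ ZD T, s' ≠ s → d / Real.log T ≤ ‖s - s'‖)

/-- SAMPI: the theorem at the zeros. Job `J_SAMPI`. PROOF. `r = H/L`. A zero counted in `Niw` (with `d ≤ 1`) which is not in `ZI d T` has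
ordinate within `d/L ≤ 1/L` of `t + r` or `t - r`; the mean number of these (against `|B|²`) is at most `2 C₂ T N2` by EDB with `A = 0`,
`X = ± r`, which is `≤ ε (H/π) T N2` for large `H` (zeros outside `ZT T` are at distance `≥ log T` from the windows). Then pass from windows to zeros as
in `J_SAMP` (theorem `Pool.Agent.Q61.UM.t_SAMP`, files Q61/UM/SAMPa, SAMPb, SAMP). -/
def S_SAMPI : Prop := ∀ ε : ℝ, 0 < ε → ∃ d θ : ℝ, 0 < d ∧ d ≤ 1 ∧ 0 < θ ∧ θ ≤ 1 / 40 ∧ ∀ᶠ T : ℝ in atTop, ∀ N : ℕ,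
  (N : ℝ) ≤ T ^ θ → ∀ b : ℕ → ℂ, (2 - H370.cMTinv - ε) * (Real.log T / (2 * Real.pi)) * (T * N2 N b) ≤
    ∑ s ∈ ZI d T, ‖dp N b s.im‖ ^ 2

def J_SAMPI : Prop := S_DPM → S_MV2 → S_MVL → (∃ θ c C : ℝ, 0 < θ ∧ θ ≤ 1 / 4 ∧ 0 < c ∧ 0 ≤ C ∧ EDB θ c C) → S_WIN → S_WINI → S_SAMPI

/-- PMD: moments of short prime sums at the zeros. Job `J_PMD`. PROOF. As `J_PMM`, with the third part of S_SAMP (`ε = 1`) instead of the mean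
value theorem: `∑ m |F(γ)|² ≤ 2 L T N2(f)` for every Dirichlet polynomial `F` of length `≤ T^{2θ₁}`. -/
def S_PMD : Prop := ∃ θ₁ : ℝ, 0 < θ₁ ∧ θ₁ ≤ 1 / 40 ∧ ∀ (m : ℕ) (A δ δ' : ℝ), 0 ≤ A → 0 < δ' → δ' ≤ δ → m * δ ≤ θ₁ → ∃ C : ℝ, 0 ≤ C ∧
  ∀ᶠ T : ℝ in atTop, ∀ (N X : ℕ), (N : ℝ) ≤ T ^ θ₁ → T ^ δ' ≤ X → (X : ℝ) ≤ T ^ δ → ∀ b α : ℕ → ℂ,
    (∀ n, α n ≠ 0 → n.Prime ∧ n ≤ X) → (∀ n, ‖α n‖ ≤ A * (Real.log n / Real.log X)) →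
    ∑ s ∈ H370.Zf riemannZeta T (2 * T), (mz s : ℝ) * (‖dp X α s.im‖ ^ (2 * m) * ‖dp N b s.im‖ ^ 2) ≤ C * Real.log T * (T * N2 N b)

def J_PMD : Prop := S_DPM → S_PRM → S_SAMP → S_PMD

open Classical in
/-- THD: the derivative at the zeros. Job `J_THD`. PROOF. As `J_THP`, with DETD, DSC (for this `m`, so STM for `m + 1`), EUL and PMD. For `s ∈ ZI d T` the
sum over the other zeros in DETD is `≤ log⁺(1/d) · 4 SS`, since `‖s - s'‖ ≥ d/L`, and the terms vanish unless `‖s - s'‖ < 1/L`. Second part: all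
simple zeros on the line, only the upper bound of DETD is used. -/
def S_THD : Prop := ∀ m : ℕ, ∃ θ δ₀ : ℝ, 0 < θ ∧ 0 < δ₀ ∧ ∀ δ d : ℝ, 0 < δ → δ ≤ δ₀ → 0 < d → ∃ C : ℝ, 0 ≤ C ∧ ∀ᶠ T : ℝ in atTop,
  ∀ N : ℕ, (N : ℝ) ≤ T ^ θ → ∀ b : ℕ → ℂ,
    ∑ s ∈ ZI d T, |Real.log ‖deriv riemannZeta s‖ - Real.log (Real.log T) - EP ⌊T ^ δ⌋₊ s.im| ^ m * ‖dp N b s.im‖ ^ 2 ≤
      C * Real.log T * (T * N2 N b) ∧
    ∑ s ∈ (H370.Zf riemannZeta T (2 * T)).filter (fun s => s.re = 1 / 2 ∧ mz s = 1),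
      (max 0 (Real.log ‖deriv riemannZeta s‖ - Real.log (Real.log T) - EP ⌊T ^ δ⌋₊ s.im)) ^ m * ‖dp N b s.im‖ ^ 2 ≤
      C * Real.log T * (T * N2 N b)

def J_THD : Prop := S_KB → S_DETD → S_STM → S_DSC → S_EUL → S_PMD → S_SAMP →
  (∃ ψ₁ k₀ : ℝ → ℝ, Ker ψ₁ k₀) → (∃ θ c C : ℝ, 0 < θ ∧ θ ≤ 1 / 4 ∧ 0 < c ∧ 0 ≤ C ∧ TailB θ c C) → S_THD

end

end Pool.Agent.Q97.UM
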