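import Pool.Agent.Q97.UM.Stm6

set_option autoImplicit false

/-! Project UM2: measurability and integrability of the functions of `t`. -/

namespace Pool.Agent.Q97.UM

open Filter Topology MeasureTheory Complex
open scoped ComplexConjugate

/-- `g t * V t` is integrable on intervals for bounded measurable `g` and continuous `V` -/
lemma ii_mul {g V : ℝ → ℝ} {B : ℝ} (hg : Measurable g) (hb : ∀ t, |g t| ≤ B) (hV : Continuous V) (x y : ℝ) :
    IntervalIntegrable (fun t => g t * V t) volume x y := by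
  have h1 : IntervalIntegrable (fun t => V t) volume x y := hV.intervalIntegrable _ _
  have h2 : IntervalIntegrable (fun t => B * |V t|) volume x y := (hV.abs.intervalIntegrable _ _).const_mul B
  refine h2.mono_fun' ?_ ?_
  · exact (hg.mul hV.measurable).aestronglyMeasurable
  · refine Eventually.of_forall fun t => ?_
    change ‖g t * V t‖ ≤ B * |V t|
    rw [Real.norm_eq_abs, abs_mul]
    exact mul_le_mul_of_nonneg_right (hb t) (abs_nonneg _)

open Classical in
lemma sum_filter_meas {ι : Type*} (S : Finset ι) (P : ι → ℝ → Prop) (hP : ∀ i, MeasurableSet {t | P i t}) (c : ι → ℝ) :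
    Measurable (fun t : ℝ => ∑ i ∈ S.filter (fun i => P i t), c i) ∧
      ∀ t : ℝ, |∑ i ∈ S.filter (fun i => P i t), c i| ≤ ∑ i ∈ S, |c i| := by
  constructor
  · have e : (fun t : ℝ => ∑ i ∈ S.filter (fun i => P i t), c i) = fun t => ∑ i ∈ S, if P i t then c i else 0 := by
      funext t
      rw [Finset.sum_filter]
    rw [e]
    refine Finset.measurable_sum _ fun i _ => ?_
    exact Measurable.ite (hP i) measurable_const measurable_const
  · intro t
    refine (Finset.abs_sum_le_sum_abs _ _).trans ?_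
    exact Finset.sum_le_sum_of_subset_of_nonneg (Finset.filter_subset _ _) fun i _ _ => abs_nonneg _

lemma meas_near (s : ℂ) (r : ℝ) : MeasurableSet {t : ℝ | |s.im - t| ≤ r} := by
  have : IsClosed {t : ℝ | |s.im - t| ≤ r} := isClosed_le (by fun_prop) continuous_const
  exact this.measurableSet

lemma Nw_meas (T r : ℝ) : Measurable (Nw T r) ∧ ∃ B, ∀ t, |Nw T r t| ≤ B := by
  classical
  have h := sum_filter_meas (ZT T) (fun s t => |s.im - t| ≤ r) (fun s => meas_near s r) (fun s => (mz s : ℝ))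
  have e : Nw T r = fun t => ∑ i ∈ (ZT T).filter (fun s => |s.im - t| ≤ r), (mz i : ℝ) := by
    funext t
    unfold Nw
    congr
  rw [e]
  exact ⟨h.1, _, h.2⟩

lemma Nsw_meas (T r : ℝ) : Measurable (Nsw T r) ∧ ∃ B, ∀ t, |Nsw T r t| ≤ B := by
  classical
  have h := sum_filter_meas (ZT T) (fun s t => s.re = 1 / 2 ∧ mz s = 1 ∧ |s.im - t| ≤ r)
    (fun s => by
      by_cases h1 : s.re = 1 / 2 ∧ mz s = 1
      · have : {t : ℝ | s.re = 1 / 2 ∧ mz s = 1 ∧ |s.im - t| ≤ r} = {t : ℝ | |s.im - t| ≤ r} := by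
          ext t
          exact ⟨fun h => h.2.2, fun h => ⟨h1.1, h1.2, h⟩⟩
        rw [this]; exact meas_near s r
      · have : {t : ℝ | s.re = 1 / 2 ∧ mz s = 1 ∧ |s.im - t| ≤ r} = ∅ := by
          ext t
          exact ⟨fun h => absurd ⟨h.1, h.2.1⟩ h1, fun h => absurd h (Set.notMem_empty t)⟩
        rw [this]; exact MeasurableSet.empty) (fun _ => (1 : ℝ))
  have e : Nsw T r = fun t => ∑ i ∈ (ZT T).filter (fun s => s.re = 1 / 2 ∧ mz s = 1 ∧ |s.im - t| ≤ r), (1 : ℝ) := by
    funext t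
    unfold Nsw
    rw [Finset.sum_const, nsmul_eq_mul, mul_one]
  rw [e]
  refine ⟨?_, ∑ i ∈ ZT T, |(1 : ℝ)|, fun t => ?_⟩
  · convert h.1
  · convert h.2 t

lemma Ndw_meas (T r : ℝ) : Measurable (Ndw T r) ∧ ∃ B, ∀ t, |Ndw T r t| ≤ B := by
  classical
  have h := sum_filter_meas (ZT T) (fun s t => s.re ≤ 1 / 2 ∧ |s.im - t| ≤ r)
    (fun s => by
      by_cases h1 : s.re ≤ 1 / 2
      · have : {t : ℝ | s.re ≤ 1 / 2 ∧ |s.im - t| ≤ r} = {t : ℝ | |s.im - t| ≤ r} := by
          ext t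
          exact ⟨fun h => h.2, fun h => ⟨h1, h⟩⟩
        rw [this]; exact meas_near s r
      · have : {t : ℝ | s.re ≤ 1 / 2 ∧ |s.im - t| ≤ r} = ∅ := by
          ext t
          exact ⟨fun h => absurd h.1 h1, fun h => absurd h (Set.notMem_empty t)⟩
        rw [this]; exact MeasurableSet.empty) (fun _ => (1 : ℝ))
  have e : Ndw T r = fun t => ∑ i ∈ (ZT T).filter (fun s => s.re ≤ 1 / 2 ∧ |s.im - t| ≤ r), (1 : ℝ) := by
    funext t
    unfold Ndw
    rw [Finset.sum_const, nsmul_eq_mul, mul_one]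
  rw [e]
  refine ⟨?_, ∑ i ∈ ZT T, |(1 : ℝ)|, fun t => ?_⟩
  · convert h.1
  · convert h.2 t

lemma Psi_meas (δ H : ℝ) (K : ℕ) (L y a : ℝ) : Measurable (fun t : ℝ => Psi δ H K (L * (a - t)) y) := by
  unfold Psi
  refine Measurable.const_mul ?_ _
  refine Measurable.add (Measurable.add ?_ ?_) ?_
  · refine Measurable.div measurable_const ?_
    exact (by fun_prop : Continuous fun t : ℝ => (1 + |(|L * (a - t)| - H)|) ^ K).measurable
  · refine Measurable.ite ?_ measurable_const measurable_const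
    have h1 : MeasurableSet {t : ℝ | H < |L * (a - t)|} := (isOpen_lt continuous_const (by fun_prop)).measurableSet
    have h2 : MeasurableSet {t : ℝ | (1 + (|L * (a - t)| - H)) ^ K < Real.exp y} :=
      (isOpen_lt (by fun_prop) continuous_const).measurableSet
    exact h1.inter h2
  · refine Measurable.ite ?_ measurable_const measurable_const
    exact (isClosed_le (by fun_prop) continuous_const).measurableSet

lemma Psi_nonneg {δ H : ℝ} (hH : 1 ≤ H) (K : ℕ) (x y : ℝ) : 0 ≤ Psi δ H K x y := by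
  unfold Psi
  have h1 : (0 : ℝ) ≤ 1 / (1 + |(|x| - H)|) ^ K := by positivity
  have h2 : (0 : ℝ) ≤ if H < |x| ∧ (1 + (|x| - H)) ^ K < Real.exp y then 1 else 0 := by split_ifs <;> norm_num
  have h3 : (0 : ℝ) ≤ if |x| ≤ H then 1 / H else 0 := by split_ifs <;> positivity
  positivity

lemma Psi_le {δ H : ℝ} (hH : 1 ≤ H) (K : ℕ) (x y : ℝ) : Psi δ H K x y ≤ Real.exp (3 * δ * y) * 3 := by
  unfold Psi
  have h1 : 1 / (1 + |(|x| - H)|) ^ K ≤ 1 := by
    rw [div_le_one (by positivity)]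
    exact one_le_pow₀ (by linarith [abs_nonneg (|x| - H)])
  have h2 : (if H < |x| ∧ (1 + (|x| - H)) ^ K < Real.exp y then (1 : ℝ) else 0) ≤ 1 := by split_ifs <;> norm_num
  have h3 : (if |x| ≤ H then 1 / H else 0) ≤ 1 := by
    split_ifs
    · rw [div_le_one (by linarith)]; exact hH
    · norm_num
  have := Real.exp_pos (3 * δ * y)
  refine mul_le_mul_of_nonneg_left ?_ this.le
  linarith

lemma ErrS_meas {δ H : ℝ} (hH : 1 ≤ H) (K : ℕ) (T : ℝ) : Measurable (ErrS δ H K T) ∧ (∃ B, ∀ t, |ErrS δ H K T t| ≤ B) ∧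
    ∀ t, 0 ≤ ErrS δ H K T t := by
  refine ⟨?_, ⟨∑ s ∈ ZT T, (mz s : ℝ) * (Real.exp (3 * δ * (Real.log T * |s.re - 1 / 2|)) * 3), fun t => ?_⟩, fun t => ?_⟩
  · unfold ErrS
    refine Finset.measurable_sum _ fun s _ => ?_
    exact (Psi_meas δ H K _ _ _).const_mul _
  · unfold ErrS
    rw [abs_of_nonneg (Finset.sum_nonneg fun s _ => mul_nonneg (Nat.cast_nonneg _) (Psi_nonneg hH K _ _))]
    exact Finset.sum_le_sum fun s _ => mul_le_mul_of_nonneg_left (Psi_le hH K _ _) (Nat.cast_nonneg _)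
  · unfold ErrS
    exact Finset.sum_nonneg fun s _ => mul_nonneg (Nat.cast_nonneg _) (Psi_nonneg hH K _ _)

/-! ### continuity of `Zt` -/

lemma OmW.cont {δ H C : ℝ} {K : ℕ} {w : ℝ → ℝ} (h : OmW δ H C K w) : Continuous w := by
  obtain ⟨D, hD⟩ := h.lip
  have h1 : LipschitzWith (Real.toNNReal D) w := by
    refine LipschitzWith.of_dist_le_mul fun x y => ?_
    rw [Real.dist_eq, Real.dist_eq]
    refine (hD x y).trans ?_
    exact mul_le_mul_of_nonneg_right (Real.le_coe_toNNReal D) (abs_nonneg _)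
  exact h1.continuous

lemma OmW.om_eq {δ H C : ℝ} {K : ℕ} {w : ℝ → ℝ} (h : OmW δ H C K w) (hδ : 0 < δ) (z : ℂ) :
    om w z = ∫ v in (-δ)..δ, (w v : ℂ) * cexp (I * (v * z)) := by
  unfold om
  rw [intervalIntegral.integral_of_le (by linarith), ← integral_Icc_eq_integral_Ioc]
  rw [setIntegral_eq_integral_of_forall_compl_eq_zero]
  intro v hv
  have : δ ≤ |v| := by
    by_contra hc
    push Not at hc
    apply hv
    rw [Set.mem_Icc]
    have := abs_lt.1 hc
    exact ⟨this.1.le, this.2.le⟩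
  rw [h.supp v this]
  simp

lemma OmW.om_cont {δ H C : ℝ} {K : ℕ} {w : ℝ → ℝ} (h : OmW δ H C K w) (hδ : 0 < δ) : Continuous (om w) := by
  have hw := h.cont
  have e : om w = fun z => ∫ v in (-δ)..δ, (w v : ℂ) * cexp (I * (v * z)) := by
    funext z
    exact h.om_eq hδ z
  rw [e]
  refine intervalIntegral.continuous_parametric_intervalIntegral_of_continuous' ?_ _ _
  fun_prop

lemma Zt_cont {δ H C : ℝ} {K : ℕ} {w : ℝ → ℝ} (h : OmW δ H C K w) (hδ : 0 < δ) (T a : ℝ) :
    Continuous (fun p : ℝ × ℝ => Zt w T (a * p.1) p.2) := by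
  have ho := h.om_cont hδ
  unfold Zt
  refine continuous_finsetSum _ fun s _ => ?_
  refine continuous_const.mul ?_
  refine Continuous.mul (Continuous.mul ?_ ?_) ?_
  · fun_prop
  · refine Continuous.pow ?_ 2
    exact ho.comp (by fun_prop)
  · fun_prop

end Pool.Agent.Q97.UM
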