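import Pool.Agent.Q97.UM.Stm6

set_option autoImplicit false

/-!
Project UM3 (helper97): MONTGOMERY'S THEOREM RELATIVE TO EVERY DIRICHLET POLYNOMIAL, on the Riemann hypothesis.

THEOREM (RH). Let `f(x) = ∫_{-1}^1 R(α) cos(αx) dα = O(1/(1+x²))` with `R` even, Lipschitz, supported in `[-1, 1]`, and `0 < lam < 1`. For every
`ε > 0` there is `θ > 0` such that for large `T`, `N ≤ T^θ` and ALL `b_1, ..., b_N`: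
`| ∑_γ |B(γ)|² ∑_γ' f(lam L (γ - γ')) - κ (L/2π) T N2 | ≤ ε L T N2`, `κ = R(0)/lam + 2 lam ∫_0^1 α R(α) dα`, the value predicted by
the pair correlation conjecture (case `B = 1`: Montgomery). `L = log T`, `B = dp N b`.
-/

namespace Pool.Agent.Q97.UM

open Filter Topology MeasureTheory Complex
open scoped ComplexConjugate

noncomputable section

/-- the Riemann hypothesis, in the strip -/
def RHz : Prop := ∀ s : ℂ, riemannZeta s = 0 → 0 < s.re → s.re < 1 → s.re = 1 / 2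

/-- the test function with transform `R` -/
def fR (R : ℝ → ℝ) (x : ℝ) : ℝ := ∫ α in (-1 : ℝ)..1, R α * Real.cos (α * x)

/-- admissible `R` -/
structure Tst (R : ℝ → ℝ) (D M : ℝ) : Prop where
  lip : ∀ x y : ℝ, |R x - R y| ≤ D * |x - y|
  even : ∀ x : ℝ, R (-x) = R x
  supp : ∀ x : ℝ, 1 ≤ |x| → R x = 0
  dec : ∀ x : ℝ, |fR R x| ≤ M / (1 + x ^ 2)

/-- weight of a critical zero in the window at `t` -/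
def qr (w : ℝ → ℝ) (T t : ℝ) (s : ℂ) : ℝ :=
  ((om w ((Real.log T * (s.im - t) : ℝ) : ℂ)).re) ^ 2 * Real.exp (-(s.im - t) ^ 2 / 2)

/-- PSE: the weighted pair sum. PROOF. Under RH `H370.zz s = s.im` is real for `s ∈ ZT T`, and `om w x` is real for real `x` (`OmW.unit`), so
`Zt w T u t = ∑ m q e^{iuγ}`; expand `|Zt|²`; `∑∑ m m' q q' e^{iu(γ-γ')}` is real, equal to the sum with `cos`;
`2 ∫_0^1 R(α) cos(lam L α (γ-γ')) dα = fR R (lam L (γ - γ'))` by evenness. -/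
def S_PSE : Prop := RHz → ∀ (R : ℝ → ℝ) (D M : ℝ), Tst R D M → ∀ (δ H C : ℝ) (K : ℕ) (w : ℝ → ℝ), OmW δ H C K w → ∀ T lam t : ℝ, 1 ≤ T →
  2 * (∫ α in (0 : ℝ)..1, R α * ‖Zt w T (lam * Real.log T * α) t‖ ^ 2) =
    ∑ s ∈ ZT T, ∑ s' ∈ ZT T, (mz s : ℝ) * (mz s' : ℝ) * (qr w T t s * qr w T t s') * fR R (lam * Real.log T * (s.im - s'.im))

/-- the sum over the neighbours of a zero -/
def Sg (R : ℝ → ℝ) (lam T : ℝ) (s : ℂ) : ℝ := ∑ s' ∈ ZT T, (mz s' : ℝ) * fR R (lam * Real.log T * (s.im - s'.im))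

open Classical in
/-- the pair sum of a window -/
def DW (R : ℝ → ℝ) (lam H T t : ℝ) : ℝ := ∑ s ∈ (ZT T).filter (fun s => |s.im - t| ≤ H / Real.log T), (mz s : ℝ) * Sg R lam T s

/-- second moment of the zero counts against `|B|²` -/
def SDB (θ C : ℝ) : Prop := ∀ᶠ T : ℝ in atTop, ∀ N : ℕ, (N : ℝ) ≤ T ^ θ → ∀ (b : ℕ → ℂ) (X : ℝ), |X| ≤ T / 8 →
  ∫ t in T..(2 * T), (nz (t + X) (1 / Real.log T) : ℝ) ^ 2 * ‖dp N b t‖ ^ 2 ≤ C * T * N2 N b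

/-- ED2. PROOF as `J_ED` (theorem `Pool.Agent.Q222.UM.t_ED`, file Q222/UM/ED.lean): shift, dyadic cover, two windows; in one window
`∫ nz² |B|² ≤ ∑_{K ≥ 1} 2K ∫_{nz ≥ K} |B|² ≤ ∑ 2K C e^{-cK} T' N2`, the second part of `TailB`. -/
def S_ED2 : Prop := ∀ θ c C : ℝ, 0 < θ → θ ≤ 1 / 4 → 0 < c → 0 ≤ C → TailB θ c C → ∃ C₂ : ℝ, 0 ≤ C₂ ∧ SDB (θ / 2) C₂

def J_ED2 : Prop := S_MVL → S_DPM → S_ZF2 → S_ED2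

/-- BDY: replacing the smooth window by the sharp one costs `O(1 + log H)`. Job `J_BDY`. PROOF. `x = L(γ - t)`, `x' = L(γ' - t)`,
`0 ≤ q, q' ≤ 1`. `|q q' - 1_{|x| ≤ H}| ≤ (1 - q) + (1 - q')` for `|x| ≤ H`, `≤ q` for `|x| > H`. `1 - q ≤ 4C/(1+H-|x|)^K + (H/L)²` inside,
`q ≤ C²/(1+|x|-H)^{2K}` outside. Sum over unit cells `X, X' ∈ ℤ` with `|f| ≤ M/(1 + lam²(x-x')²) ≤ M'/(1+(X-X')²)`; for `|X|, |X'| ≤ √T`: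
`∫ n_X n_X' |B|² ≤ C₂ T N2` (Cauchy-Schwarz, SDB at the shifts `X/L`, `X'/L`; `n_X ≤ nz (t + X/L) (1/L)`); the sums over the cells are
`∑_X e(X) ∑_X' 1/(1+(X-X')²) = O(1)`, `∑_{|X'| ≤ H} e(X') = O(1)`, and `∑_{|X'| > H} ∑_{|X| ≤ H} 1/(1+(X-X')²) = O(1 + log H)`. Cells
beyond `√T`: crude, `n_X = O(L)` and `1/(1+(X-X')²)` or `q` is small (`K ≥ 16`). -/
def S_BDY : Prop := ∀ θ C₂ : ℝ, 0 < θ → θ ≤ 1 / 4 → 0 ≤ C₂ → SDB θ C₂ → ∀ (R : ℝ → ℝ) (D M lam δ C : ℝ) (K : ℕ), RHz → Tst R D M → 0 < lam →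
  lam ≤ 1 → 0 < δ → δ ≤ 1 / 8 → 1 ≤ C → 16 ≤ K → ∃ C₅ : ℝ, 0 ≤ C₅ ∧ ∀ H : ℝ, 1 ≤ H → ∀ w : ℝ → ℝ, OmW δ H C K w → ∀ᶠ T : ℝ in atTop,
    ∀ N : ℕ, (N : ℝ) ≤ T ^ θ → ∀ b : ℕ → ℂ,
    |∫ t in (T + 2 * Real.log T)..(2 * T - 2 * Real.log T), ((∑ s ∈ ZT T, ∑ s' ∈ ZT T, (mz s : ℝ) * (mz s' : ℝ) *
      (qr w T t s * qr w T t s') * fR R (lam * Real.log T * (s.im - s'.im))) - DW R lam H T t) * ‖dp N b t‖ ^ 2| ≤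
      C₅ * (1 + Real.log H) * T * N2 N b

def J_BDY : Prop := S_MVL → S_BDY

/-- the constant of the pair correlation conjecture -/
def kap (R : ℝ → ℝ) (lam : ℝ) : ℝ := R 0 / lam + 2 * lam * ∫ α in (0 : ℝ)..1, α * R α

/-- WPC: the pair sum in windows. Job `J_WPC` (assembly of S_PAIR, S_PSE, S_BDY, S_OMEX, S_QH; compare `Pool.Agent.Q97.UM.t_WIN` in
Pool/Agent/Q97/UM/Wc.lean). PROOF. `K = 16`; `δ` and `θ` small so that `C₁(√δ + √θ) ≤ ε/16`; `|π I2 - H| ≤ 4C⁴`, `C₅(1 + log H) ≤ εH/16`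
for large `H`. -/
def S_WPC : Prop := RHz → ∀ (R : ℝ → ℝ) (D M lam ε : ℝ), Tst R D M → 0 < lam → lam < 1 → 0 < ε → ∃ H₀ : ℝ, 1 ≤ H₀ ∧ ∀ H : ℝ, H₀ ≤ H →
  ∃ θ : ℝ, 0 < θ ∧ θ ≤ 1 / 40 ∧ ∀ᶠ T : ℝ in atTop, ∀ N : ℕ, (N : ℝ) ≤ T ^ θ → ∀ b : ℕ → ℂ,
    |(∫ t in (T + 2 * Real.log T)..(2 * T - 2 * Real.log T), DW R lam H T t * ‖dp N b t‖ ^ 2) -
      kap R lam * (H / Real.pi) * (T * N2 N b)| ≤ ε * (H / Real.pi) * (T * N2 N b)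

def J_WPC : Prop := S_OMEX → S_QH → S_PAIR → S_PSE → S_BDY → (∃ θ C₂ : ℝ, 0 < θ ∧ θ ≤ 1 / 4 ∧ 0 ≤ C₂ ∧ SDB θ C₂) → S_WPC

/-- SPC: the theorem. Job `J_SPC`. PROOF. `r = H/L`. `∫ DW |B|² dt = ∑_s m Sg(s) ∫_{|t-γ| ≤ r} |B(t)|² dt` up to the ends, and
`| ∫_{|t-γ| ≤ r} |B(t)|² dt - 2r |B(γ)|² | ≤ 4r ∫_{|v-γ| ≤ r} |B B'|`. `|Sg(s)| ≤ M ∑_{s'} m'/(1 + lam²L²(γ-γ')²)`, so
`∑_s m |Sg(s)| ∫_{|v-γ| ≤ r} |B B'| ≤ ∫ G |B B'| ≤ (∫ G |B|²)^{1/2} (∫ G |B'|²)^{1/2}` with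
`G(v) = ∑_{|γ-v| ≤ r} m |Sg(s)|`, and `∫ G |B|² ≤ C(H) T N2` by SDB (cells, Cauchy-Schwarz), the same for `B' = dp N b'`,
`b'_n = b_n log n`, `N2 N b' ≤ (θL)² N2 N b`. So the error is at most `4r · C(H) · θL · T N2`, small for `θ` small in terms of `H` and `ε`.
Divide by `2r`. Zeros and `t` near the ends: crude (`|Sg| ≤ C L`, `|B|² ≤ N N2`). -/
def S_SPC : Prop := RHz → ∀ (R : ℝ → ℝ) (D M lam ε : ℝ), Tst R D M → 0 < lam → lam < 1 → 0 < ε → ∃ θ : ℝ, 0 < θ ∧ θ ≤ 1 / 40 ∧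
  ∀ᶠ T : ℝ in atTop, ∀ N : ℕ, (N : ℝ) ≤ T ^ θ → ∀ b : ℕ → ℂ,
    |(∑ s ∈ ZT T, (mz s : ℝ) * ‖dp N b s.im‖ ^ 2 * Sg R lam T s) - kap R lam * (Real.log T / (2 * Real.pi)) * (T * N2 N b)| ≤
      ε * Real.log T * (T * N2 N b)

def J_SPC : Prop := S_DPM → S_MV2 → S_MVL → (∃ θ C₂ : ℝ, 0 < θ ∧ θ ≤ 1 / 4 ∧ 0 ≤ C₂ ∧ SDB θ C₂) → S_WPC → S_SPC

end

end Pool.Agent.Q97.UM
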