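import Mathlib

set_option autoImplicit false

/-!
Project UM (helper97): zeros on the critical line near the mass of every Dirichlet polynomial.

THEOREM U. There is `θ > 0` such that for every `ε > 0` there are `c, R₀, T₀` such that for `T ≥ T₀`, `R₀ ≤ R ≤ T` and EVERY
Dirichlet polynomial `B(t) = ∑_{n ≤ T^θ} b_n n^{-it}` the part of `∫_T^{2T} |B|²` over the `t` such that fewer than `c R` zeros of odd
order `1/2 + iu` satisfy `|u - t| ≤ R / log T` is at most `ε ∫_T^{2T} |B|²`.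

This file: definitions and the statements (as `def S_xxx : Prop`) of the independent lemmas.
-/

namespace Pool.Agent.Q97.UM

open Filter Topology MeasureTheory Complex

noncomputable section

/-- Dirichlet convolution of two sequences -/
def cv (a b : ℕ → ℂ) (n : ℕ) : ℂ := ∑ p ∈ n.divisorsAntidiagonal, a p.1 * b p.2

/-- the gcd form `∑ c_h conj(c_k) / lcm(h, k)` -/
def QF (M : ℕ) (c : ℕ → ℂ) : ℂ :=
  ∑ h ∈ Finset.Icc 1 M, ∑ k ∈ Finset.Icc 1 M, c h * (starRingEnd ℂ) (c k) * ((1 / (Nat.lcm h k : ℝ) : ℝ) : ℂ)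

/-- the mean square `∑ |b_n|² / n` -/
def N2 (N : ℕ) (b : ℕ → ℂ) : ℝ := ∑ n ∈ Finset.Icc 1 N, ‖b n‖ ^ 2 / n

/-- coefficients of `(1 - x)^{1/2}` -/
def ac : ℕ → ℝ
  | 0 => 1
  | (k + 1) => -(2 * (catalan k : ℝ) / 4 ^ (k + 1))

/-- coefficients of `ζ(s)^{-1/2}` -/
def al (n : ℕ) : ℝ := n.factorization.prod fun _ k => ac k

/-- the twisted coefficients -/
def tw (τ : ℝ) (n : ℕ) : ℂ := (al n : ℂ) * (n : ℂ) ^ (-(τ * I))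

/-- coefficients of `ζ(s) ζ(s + iτ₁)^{-1/2} ζ(s + iτ₂)^{-1/2}` -/
def ff (τ₁ τ₂ : ℝ) (n : ℕ) : ℂ := cv (fun _ => 1) (cv (tw τ₁) (tw τ₂)) n

/-- a window with a rapidly decaying Fourier transform -/
structure Gev (P q : ℝ → ℝ) (c C : ℝ) : Prop where
  cpos : 0 < c
  flat : ∀ u : ℝ, |u| ≤ 1 / 4 → P u = 1
  supp : ∀ u : ℝ, 1 ≤ |u| → P u = 0
  bd : ∀ u : ℝ, 0 ≤ P u ∧ P u ≤ 1
  cont : Continuous q
  dec : ∀ y : ℝ, |q y| ≤ C * Real.exp (-(c * |y| ^ (2 / 3 : ℝ)))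
  rep : ∀ u : ℝ, (P u : ℂ) = ∫ y : ℝ, (q y : ℂ) * cexp (I * (u * y : ℝ))

/-- coefficients of Selberg's mollifier -/
def et (P : ℝ → ℝ) (Y : ℕ) (n : ℕ) : ℂ := ((al n * P (Real.log n / Real.log Y) : ℝ) : ℂ)

/-! ### the independent lemmas -/

/-- GEV: existence of the window. PROOF. `A_a g (u) = (1/(2a)) ∫_{-a}^{a} g(u+s) ds` multiplies the Fourier transform by
`sin(ay)/(ay)`. Start with a trapezoid `g_0` (`1` on `|u| ≤ 1/2`, `0` for `|u| ≥ 3/4`, linear between; its Fourier transform is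
`O(1/(1+y²))`) and apply `A_{a_j}`, `a_j = c₀ j^{-3/2}` with `∑ a_j ≤ 1/4`. The functions `g_J` are Lipschitz with the same constant
`K`, so `|g_{J+1} - g_J| ≤ K a_J` is summable; `P = lim g_J`. Its Fourier transform is the limit of those of `g_J` (dominated
convergence, all supported in `[-1,1]`), and `|sin(a_j y)/(a_j y)| ≤ min(1, 1/(a_j |y|))` gives `e^{-c|y|^{2/3}}`
(number of `j` with `a_j |y| ≥ e`). Fourier inversion gives `rep`. -/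
def S_GEV : Prop := ∃ (P q : ℝ → ℝ) (c C : ℝ), Gev P q c C

/-- AL: the coefficients of `ζ^{-1/2}`. PROOF of the first part: `al` is multiplicative; at prime powers
`∑_{i+j=k} ac i * ac j = 1, -1, 0, 0, ...` by Segner's recursion for the Catalan numbers (`catalan_succ'`). Second and third:
`∑_{k ≤ K} ac k = centralBinom K / 4^K > 0` and `ac k < 0` for `k ≥ 1`, so `∑_{k ≤ K} |ac k| < 2`. -/
def S_AL : Prop := (∀ n : ℕ, 1 ≤ n → ∑ p ∈ n.divisorsAntidiagonal, al p.1 * al p.2 = (ArithmeticFunction.moebius n : ℝ)) ∧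
  (∀ K : ℕ, ∑ k ∈ Finset.range (K + 1), |ac k| ≤ 2) ∧ (∀ n : ℕ, |al n| ≤ 1)

/-- FB: `ff` is multiplicative and small at prime powers. PROOF of the last part: with `x = p^{-iτ₁}`, `y = p^{-iτ₂}`,
`ff(p^j) = ∑_{i+k ≤ j} ac i ac k x^i y^k` and `∑_{i+k ≤ j} ac i ac k = 0` for `j ≥ 1` (AL: partial sums of `1, -1, 0, ...`), so
`ff(p^j) = ∑ ac i ac k (x^i y^k - 1)`, `|x^i y^k - 1| ≤ min(2, j (|τ₁|+|τ₂|) log p)` and `∑ |ac i| |ac k| ≤ 4`. -/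
def S_FB : Prop := ∀ τ₁ τ₂ : ℝ, ff τ₁ τ₂ 1 = 1 ∧
  (∀ m n : ℕ, 1 ≤ m → 1 ≤ n → Nat.Coprime m n → ff τ₁ τ₂ (m * n) = ff τ₁ τ₂ m * ff τ₁ τ₂ n) ∧
  (∀ p j : ℕ, p.Prime → 1 ≤ j → ‖ff τ₁ τ₂ (p ^ j)‖ ≤ j * (8 * min 1 ((|τ₁| + |τ₂|) * Real.log p)))

/-- EXP: the gcd form is the mean over the integers without prime factors `≥ X` (weights `1/n`) of `|∑_{h | n} c_h|²`. PROOF: expand
the square; for `X`-smooth `h, k` the sum of `1/n` over the `X`-smooth multiples `n` of `lcm(h,k)` is `1/lcm(h,k)` times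
`∏_{p < X} (1 - 1/p)^{-1}` (Mathlib: `EulerProduct.summable_and_hasSum_smoothNumbers_prod_primesBelow_tsum` or the geometric version). -/
def S_EXP : Prop := ∀ (X M : ℕ) (c : ℕ → ℂ), (∀ n, c n ≠ 0 → 1 ≤ n ∧ n ≤ M ∧ n ∈ Nat.smoothNumbers X) →
  HasSum (fun n : Nat.smoothNumbers X => (∏ p ∈ X.primesBelow, (1 - 1 / (p : ℝ))) *
    (‖∑ h ∈ (n : ℕ).divisors, c h‖ ^ 2 / (n : ℕ))) (QF M c).re ∧ (QF M c).im = 0

/-- CORE: the weighted Cauchy-Schwarz inequality. PROOF. Put `G p = F p ^ 2 / ρ p`, `ρ(n) = ∏_{p^a || n} a² ρ p` (`a ≥ 1`),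
`g(n) = ∏_{p < X} (1 + v_p(n) G p) = ∑_{d | n} ∏_{p | d} G p`. Then `|f n|² / ρ(n) ≤ ∏_{p | n} G p`, so by Cauchy-Schwarz
`|∑_{h | n} b_h f(n/h)|² ≤ (∑_{h | n} |b_h|² ρ(n/h)) g(n)`; insert, write `n = h m`, use `g(hm) ≤ g(h) g(m)`, `g(h) ≤ g0`, and
bound `∑_{m smooth} ρ(m) g(m) / m` by the Euler product `∏_{p<X} (1 + ∑_{j≥1} j² ρ p (1 + j G p) p^{-j})`, where
`ρ p (1 + j G p) ≤ (1 + j) (ρ p + F p ^ 2)` and `∑_{j ≥ 1} j² (1 + j) p^{-j} ≤ 64 / p`. -/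
def S_CORE : Prop := ∀ (X N : ℕ) (f b : ℕ → ℂ) (F ρ : ℕ → ℝ) (g0 : ℝ), N < X → f 1 = 1 →
  (∀ m n : ℕ, 1 ≤ m → 1 ≤ n → Nat.Coprime m n → f (m * n) = f m * f n) →
  (∀ p ∈ X.primesBelow, 0 ≤ F p ∧ 0 < ρ p) →
  (∀ p ∈ X.primesBelow, ∀ j : ℕ, 1 ≤ j → ‖f (p ^ j)‖ ≤ j * F p) →
  (∀ h ∈ Finset.Icc 1 N, ∏ p ∈ X.primesBelow, (1 + (h.factorization p : ℝ) * (F p ^ 2 / ρ p)) ≤ g0) →
  (∀ n, b n ≠ 0 → 1 ≤ n ∧ n ≤ N) → ∀ S : Finset ℕ, (∀ n ∈ S, n ∈ Nat.smoothNumbers X) →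
  (∏ p ∈ X.primesBelow, (1 - 1 / (p : ℝ))) * ∑ n ∈ S, ‖cv b f n‖ ^ 2 / n ≤
    (∏ p ∈ X.primesBelow, ((1 - 1 / (p : ℝ)) * (1 + 64 * (ρ p + F p ^ 2) / p))) * g0 * N2 N b

/-- the bound for `ff` at primes, `a = (1 + y) / log X` -/
def Fp (X : ℕ) (y : ℝ) (p : ℕ) : ℝ := 8 * min 1 ((1 + y) / Real.log X * Real.log p)

/-- the weights at primes -/
def rp (X : ℕ) (y : ℝ) (p : ℕ) : ℝ := Real.sqrt (1 + y) *
  min ((1 + y) / Real.log X * Real.log p) (1 / ((1 + y) / Real.log X * Real.log p))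

/-- PR: sums over primes (Mertens). PROOF. `a = (1+y)/log X`. (2): `F²/ρ ≤ 64 a log p / √(1+y)` in both ranges, so the product is at
most `exp (64 a log h / √(1+y)) ≤ exp (64 √(1+y))`. (1): `∑ ρ_p/p ≤ C √(1+y)` (range `a log p ≤ 1`: `∑ log p / p ≤ log z + C`; range
`a log p > 1`: dyadic in `log p` with `∑_{z < p ≤ z²} 1/p ≤ C`), `∑ F_p²/p ≤ C + 64 ∑_{e^{1/a} < p < X} 1/p ≤ C + C log (1+y)`,
`∏ (1 - 1/p) ≤ exp (-∑ 1/p) ≤ C / log X`. -/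
def S_PR : Prop := ∃ C : ℝ, 1 ≤ C ∧ ∀ X : ℕ, 2 ≤ X → ∀ y : ℝ, 0 ≤ y →
  (∏ p ∈ X.primesBelow, ((1 - 1 / (p : ℝ)) * (1 + 64 * (rp X y p + Fp X y p ^ 2) / p)) ≤
    C / Real.log X * Real.exp (C * Real.sqrt (1 + y))) ∧
  (∀ h : ℕ, 1 ≤ h → h < X → ∏ p ∈ X.primesBelow, (1 + (h.factorization p : ℝ) * (Fp X y p ^ 2 / rp X y p)) ≤
    Real.exp (C * Real.sqrt (1 + y)))

/-- QL: the form with the factor `log (gcd² / (h k))`. PROOF. `QF M c = ∑_d φ(d) |z_d|²`, `z_d = ∑_{d | h} c_h / h` (from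
`gcd(h,k) = ∑_{d | h, d | k} φ(d)`). (a) `gcd log gcd = ∑_{d | gcd} g(d)`, `g = φ log + Λ * φ`, `0 ≤ g(d) ≤ 2 φ(d) log d`; (b)
`z_d(c log) = log d z_d + ∑_{k > 1} Λ(k) z_{dk}` (`log (h/d) = ∑_{k | h/d} Λ(k)`), and by Cauchy-Schwarz
`∑_d φ(d) |∑_k Λ(k) z_{dk}|² ≤ (∑_{k ≤ M} Λ(k)/φ(k)) ∑_m φ(m) |z_m|² ∑_{k | m} Λ(k)`, as `φ(d) φ(k) ≤ φ(dk)`; and
`∑_{k ≤ M} Λ(k)/φ(k) ≤ 2 ∑ Λ(k)/k ≤ C (1 + log M)`; (c) `|⟨c log, c⟩| ≤ ‖c log‖ ‖c‖` for the form. -/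
def S_QL : Prop := ∃ C : ℝ, 1 ≤ C ∧ ∀ (M : ℕ) (c : ℕ → ℂ), 1 ≤ M →
  0 ≤ (QF M c).re ∧ (QF M c).im = 0 ∧
  ‖∑ h ∈ Finset.Icc 1 M, ∑ k ∈ Finset.Icc 1 M, c h * (starRingEnd ℂ) (c k) *
    ((1 / (Nat.lcm h k : ℝ) * Real.log ((Nat.gcd h k : ℝ) ^ 2 / ((h : ℝ) * k)) : ℝ) : ℂ)‖ ≤
    C * (1 + Real.log M) * (QF M c).re

/-- TS: upper bound for the twisted second moment on `[T/2, 3T]`. PROOF. `Pool.Agent.H262R4.TM.f_TSM2 (1/4)` (see the starting results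
file `MP_4e5e8a_nt/TwistedMomentAsymptotic.lean` for its readable form) at `T'` in a grid of step `T/(4 log T)` between `T/4` and `4T`,
`k = ⌈(log T')²⌉`; the Gamma density `weight k T' t` is at least `c (log T) / T` for `|t - T'| ≤ T / (4 log T)` (Stirling or the
elementary inequality for `u e^{1-u}`); scale the coefficients by `lam` to have modulus at most `1`; the main term is
`Λ QF + (form of S_QL)` with `|Λ| ≤ 3 log T`; use S_QL as a hypothesis. -/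
def S_TS : Prop := ∃ (θ C : ℝ), 0 < θ ∧ θ ≤ 1 / 4 ∧ 1 ≤ C ∧ ∀ᶠ T : ℝ in atTop, ∀ M : ℕ, (M : ℝ) ≤ T ^ θ → ∀ (c : ℕ → ℂ) (lam : ℝ),
  (∀ n, ‖c n‖ ≤ lam) →
  ∫ t in (T / 2)..(3 * T), ‖riemannZeta (1 / 2 + t * I)‖ ^ 2 * ‖∑ n ∈ Finset.Icc 1 M, c n * (n : ℂ) ^ (-(1 / 2 + t * I))‖ ^ 2 ≤
    C * T * (Real.log T * (QF M c).re + T ^ (-θ) * lam ^ 2)

/-- SUM: the sum over the solutions of `n c₁ = n' c₂`. PROOF. `n = l c₂/g`, `n' = l c₁/g`, `g = gcd(c₁,c₂)`; the sum is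
`g / √(c₁c₂) ∑_l H(log l)/l` with `H(v) = H₁(v + log (c₂/g)) H₂(v + log (c₁/g))`, and
`|∑_l H(log l)/l - ∫ H| ≤ ∫ (|H| + |H'|) e^{-v} dv ≤ 3 e^{-(y₀ - log c₂)}`; substitute `s = v + log (c₁c₂/g)`. -/
def S_SUM : Prop := ∀ (c₁ c₂ Z : ℕ) (H₁ H₂ : ℝ → ℝ) (y₀ y₁ : ℝ), 1 ≤ c₁ → 1 ≤ c₂ →
  ContDiff ℝ 1 H₁ → ContDiff ℝ 1 H₂ → (∀ u, |H₁ u| ≤ 1) → (∀ u, |H₂ u| ≤ 1) → (∀ u, |deriv H₁ u| ≤ 1) → (∀ u, |deriv H₂ u| ≤ 1) →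
  (∀ u, H₁ u ≠ 0 → y₀ ≤ u ∧ u ≤ y₁) → (∀ u, H₂ u ≠ 0 → y₀ ≤ u ∧ u ≤ y₁) → Real.log c₁ + Real.log c₂ ≤ y₀ → Real.exp y₁ ≤ Z →
  |(∑ n ∈ Finset.Icc 1 Z, ∑ n' ∈ Finset.Icc 1 Z, if n * c₁ = n' * c₂ then
      1 / Real.sqrt ((n : ℝ) * n') * (H₁ (Real.log n) * H₂ (Real.log n')) else 0) -
    (Nat.gcd c₁ c₂ : ℝ) / Real.sqrt ((c₁ : ℝ) * c₂) * ∫ s : ℝ, H₁ (s - Real.log c₁) * H₂ (s - Real.log c₂)| ≤
    4 * Real.exp (-(y₀ - Real.log c₁ - Real.log c₂))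

/-- MV: Gaussian mean value of an exponential sum. PROOF: expand, `∫ e^{-iωt} e^{-((t-t₀)/V)²} dt = √π V e^{-iωt₀} e^{-(Vω)²/4}`. -/
def S_MV : Prop := ∀ (ι : Type) (J : Finset ι) (f : ι → ℂ) (ω : ι → ℝ) (Δ V t₀ : ℝ), 0 < Δ → 0 < V →
  (∀ i ∈ J, ∀ j ∈ J, ω i = ω j ∨ Δ ≤ |ω i - ω j|) →
  Integrable (fun t : ℝ => ‖∑ i ∈ J, f i * cexp (-(I * (ω i * t : ℝ)))‖ ^ 2 * Real.exp (-((t - t₀) / V) ^ 2)) ∧
  ∫ t : ℝ, ‖∑ i ∈ J, f i * cexp (-(I * (ω i * t : ℝ)))‖ ^ 2 * Real.exp (-((t - t₀) / V) ^ 2) ≤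
    Real.sqrt Real.pi * V * ((∑ i ∈ J, ∑ j ∈ J, (open Classical in if ω i = ω j then f i * (starRingEnd ℂ) (f j) else 0)).re +
      (∑ i ∈ J, ‖f i‖) ^ 2 * Real.exp (-(V * Δ) ^ 2 / 4))

/-- a phase function for zeta on the critical line: `ph t = e^{iϑ(t)}` -/
structure Phase (ph : ℝ → ℂ) (C T₀ : ℝ) : Prop where
  norm : ∀ t, ‖ph t‖ = 1
  cont : Continuous ph
  real : ∀ t : ℝ, (ph t * riemannZeta (1 / 2 + t * I)).im = 0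
  rot : ∀ T : ℝ, T₀ ≤ T → ∀ t y : ℝ, T ≤ t → t ≤ 2 * T → |y| ≤ T / 2 →
    ‖ph (t + y) - ph t * cexp (I * (y * (Real.log T / 2) : ℝ))‖ ≤ C * |y|

/-- PH: existence. PROOF: `ph t = Gammaℝ(1/2+it) / |Gammaℝ(1/2+it)|`; `Gammaℝ(s) ζ(s) = completedRiemannZeta s` is real on the critical
line (functional equation and conjugation); the derivative of `ph` is `i ϑ'(t) ph t` with
`ϑ'(t) = -½ log π + ½ Re ψ(1/4 + it/2) = ½ log t + O(1)` for `t ≥ 1` (digamma bounds are in `Pool/Agent/H370R2/Digamma.lean`). -/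
def S_PH : Prop := ∃ (ph : ℝ → ℂ) (C T₀ : ℝ), Phase ph C T₀

/-- SGN: without zeros of odd order in `[a, b]` there is no sign change. PROOF: near `u₀ ∈ [a,b]`, `ζ(1/2+iu) = (u-u₀)^{2m} g(u)`
with `g` continuous, `g(u₀) ≠ 0`; so `ph(u) g(u)` is real, continuous and nonzero near `u₀`: locally constant sign. Connectedness. -/
def S_SGN : Prop := ∀ ph : ℝ → ℂ, (∀ t, ‖ph t‖ = 1) → Continuous ph →
  (∀ t : ℝ, (ph t * riemannZeta (1 / 2 + t * I)).im = 0) → ∀ a b : ℝ, a ≤ b →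
  (∀ u ∈ Set.Icc a b, ¬ Odd (analyticOrderNatAt riemannZeta (1 / 2 + u * I))) →
  (∀ u ∈ Set.Icc a b, 0 ≤ (ph u * riemannZeta (1 / 2 + u * I)).re) ∨
    (∀ u ∈ Set.Icc a b, (ph u * riemannZeta (1 / 2 + u * I)).re ≤ 0)

end

end Pool.Agent.Q97.UM
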