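import Pool.Agent.Q97.UM.Stm

set_option autoImplicit false

/-! Project UM: Dirichlet convolution of sequences; Cauchy-Schwarz with a weight. -/

namespace Pool.Agent.Q97.UM

open Filter Topology MeasureTheory Complex

noncomputable section

/-- Cauchy-Schwarz with a weight -/
theorem cs_w {α : Type*} [MeasurableSpace α] {μ : Measure α} {w g : α → ℂ} (hw : Integrable w μ)
    (hwg : Integrable (fun z => ‖w z‖ * ‖g z‖) μ) (hwg2 : Integrable (fun z => ‖w z‖ * ‖g z‖ ^ 2) μ) :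
    ‖∫ z, w z * g z ∂μ‖ ^ 2 ≤ (∫ z, ‖w z‖ ∂μ) * ∫ z, ‖w z‖ * ‖g z‖ ^ 2 ∂μ := by
  have h1 : ‖∫ z, w z * g z ∂μ‖ ≤ ∫ z, ‖w z‖ * ‖g z‖ ∂μ := by
    refine (norm_integral_le_integral_norm _).trans (le_of_eq ?_)
    simp only [norm_mul]
  have h0 : 0 ≤ ∫ z, ‖w z‖ * ‖g z‖ ∂μ := integral_nonneg fun z => by positivity
  have h2 : ∀ t : ℝ, 0 ≤ (∫ z, ‖w z‖ ∂μ) * (t * t) + (-(2 * ∫ z, ‖w z‖ * ‖g z‖ ∂μ)) * t +
      ∫ z, ‖w z‖ * ‖g z‖ ^ 2 ∂μ := by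
    intro t
    have h3 : 0 ≤ ∫ z, ‖w z‖ * (‖g z‖ - t) ^ 2 ∂μ := integral_nonneg fun z => by positivity
    have h4 : ∫ z, ‖w z‖ * (‖g z‖ - t) ^ 2 ∂μ = (∫ z, ‖w z‖ ∂μ) * (t * t) +
        (-(2 * ∫ z, ‖w z‖ * ‖g z‖ ∂μ)) * t + ∫ z, ‖w z‖ * ‖g z‖ ^ 2 ∂μ := by
      have e : ∀ z, ‖w z‖ * (‖g z‖ - t) ^ 2 = ‖w z‖ * (t * t) + (-(2 * t)) * (‖w z‖ * ‖g z‖) + ‖w z‖ * ‖g z‖ ^ 2 := by
        intro z; ring
      simp only [e]
      have i1 : Integrable (fun z => ‖w z‖ * (t * t)) μ := hw.norm.mul_const _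
      have i2 : Integrable (fun z => (-(2 * t)) * (‖w z‖ * ‖g z‖)) μ := hwg.const_mul _
      have i12 : Integrable (fun z => ‖w z‖ * (t * t) + (-(2 * t)) * (‖w z‖ * ‖g z‖)) μ := i1.add i2
      rw [integral_add i12 hwg2, integral_add i1 i2, integral_mul_const, integral_const_mul]
      ring
    rw [← h4]; exact h3
  have h5 := discrim_le_zero h2
  unfold discrim at h5
  nlinarith [mul_self_le_mul_self (norm_nonneg _) h1]

/-! ### convolution -/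

/-- a sequence as an arithmetic function -/
def tA (a : ℕ → ℂ) : ArithmeticFunction ℂ := ⟨fun n => if n = 0 then 0 else a n, if_pos rfl⟩

theorem tA_apply (a : ℕ → ℂ) {n : ℕ} (hn : n ≠ 0) : tA a n = a n := if_neg hn

theorem cv_eq (a b : ℕ → ℂ) (n : ℕ) : cv a b n = (tA a * tA b) n := by
  rw [ArithmeticFunction.mul_apply]
  unfold cv
  refine Finset.sum_congr rfl fun p hp => ?_
  obtain ⟨h1, h2⟩ := Nat.mem_divisorsAntidiagonal.1 hp
  have h3 : p.1 ≠ 0 := fun h => h2 (by rw [← h1, h, zero_mul])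
  have h4 : p.2 ≠ 0 := fun h => h2 (by rw [← h1, h, mul_zero])
  rw [tA_apply _ h3, tA_apply _ h4]

theorem cv_zero (a b : ℕ → ℂ) : cv a b 0 = 0 := by simp [cv]

theorem tA_cv (a b : ℕ → ℂ) : tA (cv a b) = tA a * tA b := by
  ext n
  rcases eq_or_ne n 0 with h | h
  · subst h; simp
  · rw [tA_apply _ h, cv_eq]

theorem cv_comm (a b : ℕ → ℂ) : cv a b = cv b a := by
  funext n
  rw [cv_eq, cv_eq, mul_comm]

theorem cv_assoc (a b c : ℕ → ℂ) : cv (cv a b) c = cv a (cv b c) := by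
  funext n
  rw [cv_eq, cv_eq, tA_cv, tA_cv, mul_assoc]

theorem cv_left_comm (a b c : ℕ → ℂ) : cv a (cv b c) = cv b (cv a c) := by
  rw [← cv_assoc, cv_comm a b, cv_assoc]

theorem sum_divisors_cv (c : ℕ → ℂ) (n : ℕ) : ∑ h ∈ n.divisors, c h = cv (fun _ => 1) c n := by
  unfold cv
  simp only [one_mul]
  rw [Nat.sum_divisorsAntidiagonal (fun _ d => c d), ← Nat.sum_div_divisors]

/-- the support of a convolution -/
theorem cv_supp {a b : ℕ → ℂ} {n : ℕ} (h : cv a b n ≠ 0) : ∃ k l : ℕ, k * l = n ∧ n ≠ 0 ∧ a k ≠ 0 ∧ b l ≠ 0 := by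
  unfold cv at h
  obtain ⟨p, hp, hne⟩ := Finset.exists_ne_zero_of_sum_ne_zero h
  obtain ⟨h1, h2⟩ := Nat.mem_divisorsAntidiagonal.1 hp
  exact ⟨p.1, p.2, h1, h2, left_ne_zero_of_mul hne, right_ne_zero_of_mul hne⟩

end

end Pool.Agent.Q97.UM
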