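import Pool.Agent.Q97.UM.Stm12
import Mathlib.Probability.Distributions.Gaussian.Real

set_option autoImplicit false

/-!
Project UM11 (helper97): THE LAW OF `log |ζ'(ρ)|` AT THE SIMPLE CRITICAL ZEROS, UNCONDITIONALLY.

THEOREM. With `L = log T`, `y(γ) = (log|ζ'(1/2 + iγ)| - log log T) / √(½ log log T)` and `Φ` the standard normal law: for all `a < b` and `ε > 0`, for
large `T`, the number of simple zeros `1/2 + iγ`, `T < γ ≤ 2T`, with `a < y(γ) < b` is at least `((2 - cMTinv) Φ(a, b) - ε) (L/2π) T`, and the number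
of those with `y(γ) > a` is at most `(Φ(a, ∞) + ε) (L/2π) T`. (`2 - cMTinv = 0.6725...`; Hejhal 1989 has the full law on RH and a spacing hypothesis.)

Method: S_SAMPI for nonnegative SIGNED combinations `∑ a_i |B_i|²` (all steps are linear in `|B|²`, upper bounds of error terms are monotone), applied to
`p(Re P(t) / σ)²`, `p` a real polynomial, `P(t) = ∑_{p ≤ X} p^{-1/2-it}`; S_THD; the method of moments.
`b_SAMPI`, `b_SAMP`, `b_WIN`, `b_WINI`, `b_THD` are proved (Base3, Base7, Base8). Statements are `def S_xxx : Prop`, jobs `J_xxx`.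
-/

namespace Pool.Agent.Q97.UM

open Filter Topology MeasureTheory Complex ProbabilityTheory

noncomputable section

/-- a signed combination of the `|B_i|²` -/
def WT {J : ℕ} (N : ℕ) (a : Fin J → ℝ) (b : Fin J → ℕ → ℂ) (t : ℝ) : ℝ := ∑ i, a i * ‖dp N (b i) t‖ ^ 2

/-- its mean value -/
def MW {J : ℕ} (N : ℕ) (a : Fin J → ℝ) (b : Fin J → ℕ → ℂ) : ℝ := ∑ i, a i * N2 N (b i)

/-- its total size -/
def VW {J : ℕ} (N : ℕ) (a : Fin J → ℝ) (b : Fin J → ℕ → ℂ) : ℝ := ∑ i, |a i| * N2 N (b i)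

/-- WINW: isolated zeros in windows, relative to nonnegative signed combinations. Job `J_WINW`. PROOF. Copy `Pool.Agent.Q148.UM.t_WINI` (file
Q148/UM/WINI.lean): `core_iso` with `V = WT N a b` (continuous, `≥ 0`); the integrals against `WT` are `∑ a_i` times those against `‖dp N (b i) t‖²`
(`intervalIntegral.integral_finsetSum`), so by the third part of S_WIN `∫ Nw WT = (H/π) T MW ± (e/32)(H/π) T VW`, by S_PAIR the pair integral is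
`cR I2 T MW ± (...) T VW`, and the error term is `∫ ErrS WT ≤ ∑ |a_i| ∫ ErrS ‖dp N (b i) t‖² ≤ C₄ T VW`. Note `MW ≤ VW`, and `MW` may be negative by at most
`O(T^{-1/2}) VW` only formally: every inequality below is linear, use `|MW| ≤ VW`. -/
def S_WINW : Prop := ∀ ε : ℝ, 0 < ε → ∃ H₀ : ℝ, 1 ≤ H₀ ∧ ∀ H : ℝ, H₀ ≤ H → ∃ d θ : ℝ, 0 < d ∧ d ≤ 1 ∧ 0 < θ ∧ θ ≤ 1 / 40 ∧
  ∀ᶠ T : ℝ in atTop, ∀ N : ℕ, (N : ℝ) ≤ T ^ θ → ∀ (J : ℕ) (a : Fin J → ℝ) (b : Fin J → ℕ → ℂ), (∀ t : ℝ, 0 ≤ WT N a b t) →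
    (H / Real.pi) * (T * ((2 - H370.cMTinv) * MW N a b - ε * VW N a b)) ≤
      ∫ t in (T + 2 * Real.log T)..(2 * T - 2 * Real.log T), Niw d T (H / Real.log T) t * WT N a b t

def J_WINW : Prop := S_OMEX → S_QH → S_MV2 → S_PAIR → S_LIN → S_DETI → S_ED → S_ERR → S_MTW →
  (∃ θ c C : ℝ, 0 < θ ∧ θ ≤ 1 / 4 ∧ 0 < c ∧ 0 ≤ C ∧ TailB θ c C) → S_WIN → S_WINW

/-- SAMW: the same at the zeros. Job `J_SAMW`. PROOF. Copy `Pool.Agent.Q148.UM.t_SAMPI` (file Q148/UM/SAMPI.lean): `samp_cmp` is a two-sided bound for each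
`‖dp N (b i) ·‖²` (with `ω = wi d T`); multiply by `|a_i|` and sum. The pointwise inequality `Niw_le` is multiplied by `WT ≥ 0`, and the boundary terms are
`∫ cz WT ≤ ∑ |a_i| ∫ cz ‖dp N (b i) t‖²`. -/
def S_SAMW : Prop := ∀ ε : ℝ, 0 < ε → ∃ d θ : ℝ, 0 < d ∧ d ≤ 1 ∧ 0 < θ ∧ θ ≤ 1 / 40 ∧ ∀ᶠ T : ℝ in atTop, ∀ N : ℕ,
  (N : ℝ) ≤ T ^ θ → ∀ (J : ℕ) (a : Fin J → ℝ) (b : Fin J → ℕ → ℂ), (∀ t : ℝ, 0 ≤ WT N a b t) →
    Real.log T / (2 * Real.pi) * (T * ((2 - H370.cMTinv) * MW N a b - ε * VW N a b)) ≤ ∑ s ∈ ZI d T, WT N a b s.im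

def J_SAMW : Prop := S_DPM → S_MV2 → S_MVL → (∃ θ c C : ℝ, 0 < θ ∧ θ ≤ 1 / 4 ∧ 0 < c ∧ 0 ≤ C ∧ EDB θ c C) → S_WIN → S_WINW → S_SAMW

open Classical in
/-- coefficients of `∑_{p ≤ X} p^{-1/2-it} = dp X (pc X) t` -/
def pc (X n : ℕ) : ℂ := if n.Prime ∧ n ≤ X then 1 else 0

/-- coefficients of its `k`-th power -/
def pk (X : ℕ) : ℕ → ℕ → ℂ
  | 0 => fun n => if n = 1 then 1 else 0
  | (k + 1) => cv (pc X) (pk X k)

/-- PWK: the powers. PROOF. Induction with S_DPM. `pk X k n ≠ 0` implies that `n` is a product of `k` primes `≤ X`. `pk X k n = k! / ∏ e_i!` for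
`n = ∏ p_i^{e_i}` (the number of ordered factorisations), so `N2 = ∑_n c_n²/n = ∑_{(p_1, ..., p_k)} c(p_1 ⋯ p_k) / (p_1 ⋯ p_k)` (sum over ordered `k`-tuples, `c ≤ k!`
with equality for distinct primes), so `k! (S^k - k² (∑ 1/p²) S^{k-2}) ≤ N2 ≤ k! S^k`, `S = ∑_{p ≤ X} 1/p = log log X + O(1)`. (It may be easier to prove
`(cv (pc X) c)`-recursions: `N2 (pk X (k+1)) = ∑_n |∑_{p | n} c_{n/p}|²/n`, expand: diagonal `p = p'` gives `S N2(pk X k)`, off-diagonal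
`∑_{p ≠ p'} ...`; or to count tuples directly.) Different powers have disjoint supports. -/
def S_PWK : Prop := (∀ (k X : ℕ) (t : ℝ), dp (X ^ k) (pk X k) t = dp X (pc X) t ^ k) ∧
  (∀ k X n : ℕ, pk X k n ≠ 0 → 1 ≤ n ∧ n ≤ X ^ k ∧ n.primeFactorsList.length = k) ∧
  (∀ k : ℕ, Tendsto (fun X : ℕ => N2 (X ^ k) (pk X k) / Real.log (Real.log X) ^ k) atTop (𝓝 (k.factorial : ℝ)))

def J_PWK : Prop := S_DPM → S_PWK

/-- `Re P(t)` divided by its standard deviation -/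
def RN (X : ℕ) (t : ℝ) : ℝ := (dp X (pc X) t).re / Real.sqrt (Real.log (Real.log X) / 2)

/-- WID: polynomials in `RN` as signed combinations. Job `J_WID`. PROOF. `ℓ = log log X`, `σ = √(ℓ/2)`. `x^k = 2^{-k} σ^{-k} ∑_j (k choose j) Re (P^j conj P^{k-j})` for
`x = Re P/σ`, and `Re (u conj v) = (|u+v|² - |u-v|²)/4`; `P^j ± P^{k-j} = dp N (pk X j ± pk X (k-j))` (coefficients vanish beyond `X^j`). By disjoint supports
`N2 (pk X j ± pk X l) = N2 (pk X j) + N2 (pk X l)` for `j ≠ l`, and `4 N2 (pk X j)` or `0` for `j = l`. So `MW = ∑_k q_k 2^{-k} σ^{-k} (k choose k/2) N2 (pk X (k/2))`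
(`k` even) `→ ∑ q_k (k-1)!! = ∫ q dγ` by S_PWK (`2^{-2j} (2j choose j) j! 2^j = (2j)!/(2^j j!) = (2j-1)!!`; scale `u = P^j/σ^j`), and
`VW ≤ ∑_k |q_k| 2^{-k} ∑_j (k choose j) (N2(pk X j)/σ^{2j} + N2(pk X (k-j))/σ^{2(k-j)})` is bounded. Moments of the Gaussian: Mathlib or integration by parts. -/
def S_WID : Prop := ∀ q : Polynomial ℝ, ∃ C : ℝ, 0 ≤ C ∧ ∀ ε : ℝ, 0 < ε → ∀ᶠ X : ℕ in atTop, ∀ N : ℕ, X ^ q.natDegree ≤ N →
  ∃ (J : ℕ) (a : Fin J → ℝ) (b : Fin J → ℕ → ℂ), (∀ t : ℝ, WT N a b t = q.eval (RN X t)) ∧ VW N a b ≤ C ∧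
    |MW N a b - ∫ x, q.eval x ∂(gaussianReal 0 1)| ≤ ε

def J_WID : Prop := S_PWK → S_WID

/-- LAWA: moments of `RN` over all the zeros. Job `J_LAWA`. PROOF. The third part of S_SAMP (with `ε' = ε/(8C)`) for each `b i` of S_WID, multiplied by `a i` and summed; `δ₁ = θ/(deg q + 1)`,
`N = X^{deg q} ≤ T^θ`, `X = ⌊T^δ⌋ → ∞`. -/
def S_LAWA : Prop := ∀ (q : Polynomial ℝ) (ε : ℝ), 0 < ε → ∃ δ₁ : ℝ, 0 < δ₁ ∧ ∀ δ : ℝ, 0 < δ → δ ≤ δ₁ → ∀ᶠ T : ℝ in atTop,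
  |(∑ s ∈ H370.Zf riemannZeta T (2 * T), (mz s : ℝ) * q.eval (RN ⌊T ^ δ⌋₊ s.im)) -
    (∫ x, q.eval x ∂(gaussianReal 0 1)) * (Real.log T / (2 * Real.pi) * T)| ≤ ε * (Real.log T / (2 * Real.pi) * T)

def J_LAWA : Prop := S_SAMP → S_WID → S_LAWA

/-- LAWP: squares of polynomials over the isolated zeros, from below. Job `J_LAWP`. PROOF. S_SAMW for the combination of S_WID for `q = p²`. -/
def S_LAWP : Prop := ∀ (p : Polynomial ℝ) (ε : ℝ), 0 < ε → ∃ d δ₁ : ℝ, 0 < d ∧ d ≤ 1 ∧ 0 < δ₁ ∧ ∀ δ : ℝ, 0 < δ → δ ≤ δ₁ → ∀ᶠ T : ℝ in atTop,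
  ((2 - H370.cMTinv) * (∫ x, p.eval x ^ 2 ∂(gaussianReal 0 1)) - ε) * (Real.log T / (2 * Real.pi) * T) ≤
    ∑ s ∈ ZI d T, p.eval (RN ⌊T ^ δ⌋₊ s.im) ^ 2

def J_LAWP : Prop := S_SAMW → S_WID → S_LAWP

open Classical in
/-- CLZ: `log|ζ'|` against the prime sum. Job `J_CLZ`. PROOF. S_THD with `m = 2`, `N = 1`, `b = 1` (`dp 1 1 t = 1`, `N2 = 1`), and for `X = ⌊T^δ⌋`:
`EP X t - Re P(t) = Re ∑_{p ≤ X} (-log(1 - z_p) - z_p)`, `z_p = p^{-1/2-it}`, `= ½ Re ∑ z_p² + O(∑ |z_p|³) = ½ Re dp (X²) c t + O(1)`, `c_n = 1/√n` if `n = p²`, `p ≤ X`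
(`z_p² = n^{-1/2-it}`, so `c_n = 1`: check), i.e. `N2(c) = ∑ 1/p² ≤ 1`; the third part of S_SAMP (`ε = 1`, `X² ≤ T^θ`) gives `∑_s m |dp (X²) c γ|² ≤ 2 L T`, and
`∑_s m ≤ 2 L T` (the same with `b = 1`). -/
def S_CLZ : Prop := ∃ δ₂ : ℝ, 0 < δ₂ ∧ ∀ δ d : ℝ, 0 < δ → δ ≤ δ₂ → 0 < d → ∃ C : ℝ, 0 ≤ C ∧ ∀ᶠ T : ℝ in atTop,
  ∑ s ∈ ZI d T, (Real.log ‖deriv riemannZeta s‖ - Real.log (Real.log T) - (dp ⌊T ^ δ⌋₊ (pc ⌊T ^ δ⌋₊) s.im).re) ^ 2 ≤ C * (Real.log T * T) ∧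
  ∑ s ∈ (H370.Zf riemannZeta T (2 * T)).filter (fun s => s.re = 1 / 2 ∧ mz s = 1),
    (max 0 (Real.log ‖deriv riemannZeta s‖ - Real.log (Real.log T) - (dp ⌊T ^ δ⌋₊ (pc ⌊T ^ δ⌋₊) s.im).re)) ^ 2 ≤ C * (Real.log T * T)

def J_CLZ : Prop := S_THD → S_SAMP → S_CLZ

/-- ABS: from squares of polynomials to intervals. Pure analysis. PROOF. `γ = gaussianReal 0 1`. (1) For every real `g` of the form
`g(x) = ∫ h(u) cos(ux) du + ∫ k(u) sin(ux) du` with `h, k` integrable (e.g. `g` smooth of compact support; or a finite combination of functions of the form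
`∫ h(u) cos(u(x - x₀)) du`, such as `e^{-A(x-x₀)²}` or Fejer-type bumps) and `η > 0` there are a polynomial `p`, `m` and `c ≥ 0` with `|g(x) - p(x)| ≤ η + c |x|^m` for all real `x`
and `c² ∫ x^{2m} dγ ≤ η²`: cut the integrals at `|u| ≤ U` and take Taylor polynomials of degree `< m`: the remainder is `≤ (U|x|)^m/m!`, and
`∫ x^{2m} dγ = (2m-1)!! ≤ 2^m m!`, so `c² ∫ x^{2m} dγ ≤ C² (2U²)^m / m! → 0`. (2) Choose continuous `0 ≤ g ≤ 1` with `g = 0` outside `(a, b)` and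
`∫ g² dγ ≥ γ(a, b) - ε/4`. Then `ν(a,b) ≥ ∫ g² dν ≥ (√(∫ p² dν) - √(∫ (g-p)² dν))²` (or `∫ g² dν ≥ (1-τ) ∫ p² dν - τ^{-1} ∫ (g-p)² dν`), and
`∫ (g-p)² dν ≤ ∫ (g-p)² dμ ≤ 2η² μ(ℝ) + 2c² ∫ x^{2m} dμ ≤ 8 η²` if the moments of `μ` of order `≤ 2m` are close to those of `γ`; the same for `γ` in place of `ν`. -/
def S_ABS : Prop := ∀ a b ε : ℝ, a < b → 0 < ε → ∃ (K : ℕ) (p : Polynomial ℝ) (ε' : ℝ), 0 < ε' ∧ 2 * p.natDegree ≤ K ∧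
  ∀ κ : ℝ, 0 ≤ κ → κ ≤ 1 → ∀ (μ ν : Measure ℝ), IsFiniteMeasure μ → ν ≤ μ →
    (∀ k : ℕ, k ≤ K → Integrable (fun x : ℝ => x ^ k) μ ∧ |(∫ x, x ^ k ∂μ) - ∫ x, x ^ k ∂(gaussianReal 0 1)| ≤ ε') →
    κ * (∫ x, p.eval x ^ 2 ∂(gaussianReal 0 1)) - ε' ≤ ∫ x, p.eval x ^ 2 ∂ν →
    κ * (gaussianReal 0 1).real (Set.Ioo a b) - ε ≤ ν.real (Set.Ioo a b)

/-- ABU: the method of moments for half-lines. PROOF. As S_ABS: choose continuous `g`, `0 ≤ g ≤ 1`, `g = 1` on `(-∞, a]` minus a neighbourhood of `-∞` ... precisely: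
`μ(a, ∞) = μ(ℝ) - μ(-∞, a]` and `μ(-∞, a] ≥ ∫ g dμ` with `g` supported in `[-R, a]`, `∫ g dγ ≥ γ(-∞, a] - ε/4`; `|∫ g dμ - ∫ p dμ| ≤ η μ(ℝ) + c ∫ |x|^m dμ`,
the same for `γ`, and `∫ p dμ` is close to `∫ p dγ`. -/
def S_ABU : Prop := ∀ a ε : ℝ, 0 < ε → ∃ (K : ℕ) (ε' : ℝ), 0 < ε' ∧ ∀ μ : Measure ℝ, IsFiniteMeasure μ →
    (∀ k : ℕ, k ≤ K → Integrable (fun x : ℝ => x ^ k) μ ∧ |(∫ x, x ^ k ∂μ) - ∫ x, x ^ k ∂(gaussianReal 0 1)| ≤ ε') →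
    μ.real (Set.Ioi a) ≤ (gaussianReal 0 1).real (Set.Ioi a) + ε

/-- the normalised logarithm of the derivative -/
def yn (T : ℝ) (s : ℂ) : ℝ := (Real.log ‖deriv riemannZeta s‖ - Real.log (Real.log T)) / Real.sqrt (Real.log (Real.log T) / 2)

open Classical in
/-- LAW: the theorem. Job `J_LAW`. PROOF. Let `A = (L/2π) T`. First part: small `η` with `γ(a+η, b-η) ≥ γ(a,b) - ε/4` (continuity of the Gaussian law), S_ABS for `(a+η, b-η)`, `ε/4`: this gives `K, p, ε'`.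
`d, δ₁` from S_LAWP (`p, ε'`), `δ` smaller than all the `δ₁` of S_LAWA for `q = X^k`, `k ≤ K`, and than `δ₂` of S_CLZ. `μ = A^{-1} ∑_{s ∈ Zf} m(s) δ_{RN(γ)}`,
`ν = A^{-1} ∑_{s ∈ ZI d T} δ_{RN(γ)} ≤ μ` (finite sums of Dirac measures; `m ≥ 1`). So at least `((2 - cMTinv) γ(a,b) - ε/2) A` of the `s ∈ ZI d T` have `a + η < RN(γ) < b - η`. By S_CLZ and Chebyshev all but
`C L T / ((η/4)² (log log T)/2) = o(A)` of the `s ∈ ZI d T` have `|yn T s - Re P(γ)/σ_T| ≤ η/4`, `σ_T = √(½ log log T)`, and `Re P(γ)/σ_T = RN(γ) σ_X/σ_T` with `σ_X/σ_T → 1` (`log log ⌊T^δ⌋ = log log T + O(1)`), so the difference from `RN(γ)` is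
`≤ η/4` when `|RN(γ)| ≤ |a| + |b| + 1`. Second part: S_ABU for `a - η` and the positive part in S_CLZ (for `d = 1`); `Re P/σ_T > a - η/2` implies `RN > a - η` or `|RN|` is huge... use `σ_X ≤ σ_T`, `σ_X/σ_T → 1`: the
event `Re P/σ_T > a - η/2` is contained in `RN > a - η` for large `T` (`RN = (σ_T/σ_X) Re P/σ_T`, `(σ_T/σ_X)(a - η/2) > a - η`). -/
def S_LAW : Prop := (∀ a b ε : ℝ, a < b → 0 < ε → ∀ᶠ T : ℝ in atTop,
  ((2 - H370.cMTinv) * (gaussianReal 0 1).real (Set.Ioo a b) - ε) * (Real.log T / (2 * Real.pi) * T) ≤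
    (((H370.Zf riemannZeta T (2 * T)).filter (fun s => s.re = 1 / 2 ∧ mz s = 1 ∧ a < yn T s ∧ yn T s < b)).card : ℝ)) ∧
  (∀ a ε : ℝ, 0 < ε → ∀ᶠ T : ℝ in atTop,
    (((H370.Zf riemannZeta T (2 * T)).filter (fun s => s.re = 1 / 2 ∧ mz s = 1 ∧ a < yn T s)).card : ℝ) ≤
      ((gaussianReal 0 1).real (Set.Ioi a) + ε) * (Real.log T / (2 * Real.pi) * T))

def J_LAW : Prop := S_LAWA → S_LAWP → S_CLZ → S_ABS → S_ABU → S_LAW

end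

end Pool.Agent.Q97.UM
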