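import Pool.Agent.Q97.UM.Stm5
import Pool.Agent.H345R2.A2.EFb
import Pool.Agent.TH803.UC.Count
import Pool.Agent.H143R2.TraceG

set_option autoImplicit false

/-!
Project UM2 (helper97): THE MONTGOMERY-TAYLOR PROPORTION RELATIVE TO EVERY DIRICHLET POLYNOMIAL.

THEOREM. For every `ε > 0` there is `θ > 0` such that for large `T`, all `N ≤ T^θ` and ALL complex `b_1, ..., b_N`, with
`B(t) = ∑ b_n n^{-1/2-it}`: the sum of `|B(γ)|²` over the simple zeros `1/2 + iγ`, `T ≤ γ ≤ 2T`, is at least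
`(2 - cMTinv - ε) (log T / 2π) ∫_T^{2T} |B|²`, `2 - cMTinv = 0.6725...`, and the sum over all zeros is `(1 + O(ε))` times that quantity.

Method: windows of length `H / log T`, Fourier side compactly supported (`OmW`), times a Gaussian of scale 1; the trace inequality
`TH803UC.count_ineq` for each `t`; the local pair sum is integrated against `|B|²`: primes `> T^θ` are orthogonal to `B`, primes
`≤ T^θ` cost `O(√θ)`; zeros off the line are controlled by `TailB` (project UM). Throughout `L = log T`.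
Statements are `def S_xxx : Prop`, with complete proofs in the comments. Zeros: `s = 1/2 + iz`, `z = H370.zz s`.
-/

namespace Pool.Agent.Q97.UM

open Filter Topology MeasureTheory Complex
open scoped ComplexConjugate

noncomputable section

/-- the zeros with `T + 1 < γ ≤ 2T - 1` (a finite set) -/
def ZT (T : ℝ) : Finset ℂ := H370.Zf riemannZeta (T + 1) (2 * T - 1)

/-- multiplicity; `H370.mult riemannZeta s = mz s` by `rfl` -/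
def mz (s : ℂ) : ℕ := analyticOrderNatAt riemannZeta s

/-- Fourier transform of `w`, at complex points -/
def om (w : ℝ → ℝ) (z : ℂ) : ℂ := ∫ v : ℝ, (w v : ℂ) * cexp (I * (v * z))

/-- `om w` is close to the indicator function of `[-H, H]` -/
structure OmW (δ H C : ℝ) (K : ℕ) (w : ℝ → ℝ) : Prop where
  lip : ∃ D : ℝ, ∀ x y : ℝ, |w x - w y| ≤ D * |x - y|
  even : ∀ v : ℝ, w (-v) = w v
  supp : ∀ v : ℝ, δ ≤ |v| → w v = 0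
  unit : ∀ x : ℝ, (om w x).im = 0 ∧ 0 ≤ (om w x).re ∧ (om w x).re ≤ 1
  near : ∀ z : ℂ, |z.re| ≤ H → ‖om w z - 1‖ ≤ C * Real.exp (δ * |z.im|) / (1 + (H - |z.re|)) ^ K
  far : ∀ z : ℂ, H ≤ |z.re| → ‖om w z‖ ≤ C * Real.exp (δ * |z.im|) / (1 + (|z.re| - H)) ^ K

/-- OMEX. PROOF. `m = K + 2`, `a = δ / (2m)`, `k(z) = c₀ (sin(az)/(az))^{2m}`, `c₀` such that `∫_ℝ k = 1`. `sin(az)/(az) =
(1/2a) ∫_{-a}^a e^{ivz} dv`, so `k(z) = ∫ β(v) e^{ivz} dv` with `β` an iterated convolution of boxes: even, Lipschitz, supported in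
`[-δ, δ]`. Put `w(v) = β(v) ∫_{-H}^H cos(vX) dX`; then `om w z = ∫_{-H}^H k(z - X) dX`. `k ≥ 0` on `ℝ` gives `unit`.
`|sin(az)/(az)| ≤ e^{a|y|} min(1, 1/(a|x|))` for `z = x + iy`, so `|k(z)| ≤ C₁ e^{δ|y|} / (1 + |x|)^{2m}`; this gives `far` by integration.
`∫_ℝ k(x + iy) dx = 1` for all `y` (Fourier inversion for `v ↦ β(v) e^{-vy}` at `0`, or Cauchy), so `1 - om w z = ∫_{|X| > H} k(z - X) dX`
gives `near`. `C` depends only on `K, δ`. -/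
def S_OMEX : Prop := ∀ (K : ℕ) (δ : ℝ), 0 < δ → δ ≤ 1 → ∃ C : ℝ, 1 ≤ C ∧ ∀ H : ℝ, 1 ≤ H → ∃ w : ℝ → ℝ, OmW δ H C K w

/-- self-convolution of `w`: the Fourier side of `om w ^ 2` -/
def qh (w : ℝ → ℝ) (v : ℝ) : ℝ := ∫ s : ℝ, w s * w (v - s)

/-- its square integral, `= (1/2π) ∫ |om w|⁴` -/
def I2 (w : ℝ → ℝ) : ℝ := ∫ v : ℝ, qh w v ^ 2

/-- QH. PROOF. Fubini for compactly supported continuous functions; Plancherel: `qh w 0 = ∫ w² = (1/2π) ∫ |om w x|² dx` and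
`I2 w = (1/2π) ∫ |om w x|⁴ dx`; by `OmW`, `∫_{|x|>H} |om|² ≤ 2 C²`, and on `|x| ≤ H`: `|om|⁴ ≥ 1 - 4|1 - om|`,
`∫_{|x| ≤ H} |1 - om| ≤ 2 C ∫_0^∞ (1+x)^{-2} dx = 2C`. -/
def S_QH : Prop := ∀ (δ H C : ℝ) (K : ℕ) (w : ℝ → ℝ), 0 < δ → δ ≤ 1 → 1 ≤ H → 1 ≤ C → 2 ≤ K → OmW δ H C K w →
  (∃ D : ℝ, ∀ x y : ℝ, |qh w x - qh w y| ≤ D * |x - y|) ∧ (∀ v : ℝ, qh w (-v) = qh w v) ∧ (∀ v : ℝ, 2 * δ ≤ |v| → qh w v = 0) ∧
  (∀ z : ℂ, om w z ^ 2 = ∫ v : ℝ, (qh w v : ℂ) * cexp (I * (v * z))) ∧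
  |Real.pi * qh w 0 - H| ≤ 4 * C ^ 2 ∧ |Real.pi * I2 w - H| ≤ 4 * C ^ 4

/-- `qh w (x/L)` smoothed by a Gaussian of scale 1 -/
def QL (w : ℝ → ℝ) (L x : ℝ) : ℝ := L / Real.sqrt (2 * Real.pi) * ∫ v : ℝ, qh w v * Real.exp (-(x - v * L) ^ 2 / 2)

/-- QLF. PROOF. `QL w L x = ∫ qh w ((x - y)/L) g(y) dy` with `g` the standard Gaussian density. `(3)`: `|qh w| ≤ D`, Gaussian tail.
`(4)`: `|QL w L x - qh w (x/L)| ≤ D/L`, both are `≤ D`, and outside `|x| ≤ 2δL` use (3). Only `qh w` even, Lipschitz and supported in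
`[-2δ, 2δ]` is used (first three statements of S_QH). -/
def S_QLF : Prop := ∀ (δ : ℝ) (w : ℝ → ℝ), 0 < δ → δ ≤ 1 → (∃ D : ℝ, ∀ x y : ℝ, |qh w x - qh w y| ≤ D * |x - y|) →
  (∀ v : ℝ, qh w (-v) = qh w v) → (∀ v : ℝ, 2 * δ ≤ |v| → qh w v = 0) →
  ∃ D : ℝ, 1 ≤ D ∧ ∀ L : ℝ, 1 ≤ L → Continuous (QL w L) ∧ (∀ x : ℝ, QL w L (-x) = QL w L x) ∧ (∀ x : ℝ, |QL w L x| ≤ D) ∧
    (∀ x y : ℝ, |QL w L x - QL w L y| ≤ D / L * |x - y|) ∧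
    (∀ x : ℝ, 2 * δ * L ≤ |x| → |QL w L x| ≤ D * Real.exp (-(|x| - 2 * δ * L) ^ 2 / 2)) ∧
    Integrable (fun x => QL w L x ^ 2) ∧ |(∫ x : ℝ, QL w L x ^ 2) - L * I2 w| ≤ D ∧ |QL w L 0 - qh w 0| ≤ D / L

/-- EFF: two-sided explicit formula. PROOF. For `u ≥ 0`: `H370.A2.ef_known` (file H345R2/A2/EFa.lean) with `a = lamC` (see
`H345R2/A2/EFb.lean`, lines 112-130, and `H370.good_zeta`; the height lemma is `H370.good_height`) has the zeros in `(U1, U2]`, error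
`C e^{-u}`; the zeros in `(U1, T+1]` and `(2T-1, U2]` are `O(L)` many, at distance `≥ L` from `t`, each contributes at most
`2 e^{u/2 - L²/2}`. And `|PP lamC (-u) t| ≤ ∑ Λ(n) n^{-1/2} e^{-(u + log n)²/2} ≤ C e^{-u²/2}`. For `u < 0`: the zero set is
invariant under `s → 1 - conj s` with multiplicities, so `AA(u) = conj (AA(-u))`. -/
def S_EFF : Prop := ∃ C T₀ : ℝ, 0 < C ∧ 10 ≤ T₀ ∧ ∀ T : ℝ, T₀ ≤ T → ∀ u t : ℝ, |u| ≤ Real.log T → T + 2 * Real.log T ≤ t →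
  t ≤ 2 * T - 2 * Real.log T → ‖H370.AA riemannZeta (T + 1) (2 * T - 1) u t - ((1 / Real.sqrt (2 * Real.pi) : ℝ) : ℂ) *
    ((Real.log T : ℂ) * cexp (I * u * t) * ((Real.exp (-u ^ 2 / 2) : ℝ) : ℂ) - H370.PP H370.A2.lamC u t -
      conj (H370.PP H370.A2.lamC (-u) t))‖ ≤ C * Real.exp (-|u|)

/-- the weighted sum over the zeros near `t`, with frequency `u` -/
def Zt (w : ℝ → ℝ) (T u t : ℝ) : ℂ := ∑ s ∈ ZT T, (mz s : ℂ) *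
  (cexp (I * u * H370.zz s) * om w (Real.log T * (H370.zz s - t)) ^ 2 * cexp (-(H370.zz s - t) ^ 2 / 2))

/-- the prime sum -/
def PL (w : ℝ → ℝ) (L u t : ℝ) : ℂ := ∑' n : ℕ, (ArithmeticFunction.vonMangoldt n : ℂ) * (n : ℂ) ^ (-(1 / 2 + t * I)) *
  ((QL w L (Real.log n - u) / L : ℝ) : ℂ)

/-- EFL: local explicit formula. Job `J_EFL`. PROOF. `om w (L(z-t))² = ∫ qh(v) e^{ivL(z-t)} dv` (S_QH), so
`Zt w T u t = ∫ qh(v) e^{-ivLt} AA(u + vL, t) dv` (`H370.AA_eq`; `hh u t s = e^{iuz} e^{-(z-t)²/2}`), `|u + vL| ≤ L` for `|v| ≤ 2δ`. Insert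
S_EFF: the main term is `e^{iut} (L/√2π) ∫ qh(v) e^{-(u+vL)²/2} dv = e^{iut} QL(u)`, the others are `-e^{iut} PL(u)` and
`-e^{iut} conj (PL(-u))` (`H370.PP`, exchange the sum over `n` and the integral), and the error is `∫ |qh(v)| C e^{-|u+vL|} dv ≤ D/L`. -/
def S_EFL : Prop := ∀ (δ H C : ℝ) (K : ℕ) (w : ℝ → ℝ), 0 < δ → δ ≤ 1 / 8 → 1 ≤ H → 1 ≤ C → 2 ≤ K →
  OmW δ H C K w → ∃ D : ℝ, 0 ≤ D ∧ ∀ᶠ T : ℝ in atTop, ∀ u t : ℝ, 0 ≤ u → u ≤ (1 - 2 * δ) * Real.log T →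
    T + 2 * Real.log T ≤ t → t ≤ 2 * T - 2 * Real.log T →
    ‖cexp (-(I * u * t)) * Zt w T u t - ((QL w (Real.log T) u : ℂ) - PL w (Real.log T) u t - conj (PL w (Real.log T) (-u) t))‖ ≤
      D / Real.log T

def J_EFL : Prop := S_EFF → S_QH → S_QLF → S_EFL

/-- MV2: the mean value theorem for Dirichlet polynomials with a crude error. PROOF: expand; `|∫_a^b (m/n)^{-it} dt| ≤ 2/|log (m/n)|
≤ 2M/|m-n|`, `|c_m c_n|/√(mn) ≤ ½(|c_m|²/m + |c_n|²/n)`, `∑_{n ≠ m, n ≤ M} 1/|m-n| ≤ 2(1 + log M)`. -/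
def S_MV2 : Prop := ∃ C₀ : ℝ, 1 ≤ C₀ ∧ ∀ (a b : ℝ), a ≤ b → ∀ (M : ℕ) (c : ℕ → ℂ), 1 ≤ M →
  |(∫ t in a..b, ‖dp M c t‖ ^ 2) - (b - a) * N2 M c| ≤ C₀ * M * (1 + Real.log M) * N2 M c

/-- primes in `(N, M]` -/
def bigP (N M : ℕ) : Finset ℕ := (Finset.Icc 1 M).filter fun p => p.Prime ∧ N < p

/-- primes `≤ min N M` -/
def smallP (N M : ℕ) : Finset ℕ := (Finset.Icc 1 M).filter fun p => p.Prime ∧ p ≤ N

/-- CONV: mean square of `α * b`, `α` supported on prime powers, `b` on `[1, N]`. PROOF. Split `cv α b = x + y + z`, primes `> N`, primes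
`≤ N`, proper prime powers. `x`: if `pm = p'm'` with `m, m' ≤ N < p, p'` then `p = p'`, so at most one term for each `k` and
`∑ |x_k|²/k = (∑_{bigP} |α_p|²/p) N2`. `y`: `|y_k|² ≤ (∑_{p | k} log p) ∑_{pm=k} (|α_p|²/log p)|b_m|²`, only `k ≤ N²` occur, so
`∑ |y_k|²/k ≤ 2 log N (∑_{smallP} (log p) β_p²/p) N2`. `z`: `|z_k|² ≤ (∑_{p^j | k, j ≥ 2} p^{-j/4}) ∑ p^{j/4} |α|² |b|²`, the first factor is at
most `2 log (2NM)`, and `∑_{p, j ≥ 2} (log p)² p^{-3j/4} < ∞`. Then `| |x+y+z|² - |x|² | ≤ η |x|² + (2/η)|y+z|²` (`η ≤ 1`). -/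
def S_CONV : Prop := ∃ C₀ : ℝ, 1 ≤ C₀ ∧ ∀ (N M : ℕ) (b α : ℕ → ℂ) (β : ℕ → ℝ) (β₁ η : ℝ), 1 ≤ N → 1 ≤ M → 0 < η → η ≤ 1 →
  (∀ n, 0 ≤ β n ∧ β n ≤ β₁) → (∀ n, ‖α n‖ ≤ ArithmeticFunction.vonMangoldt n * β n) → (∀ n, M < n → α n = 0) →
  (∀ n, N < n → b n = 0) →
  |N2 (N * M) (cv α b) - (∑ p ∈ bigP N M, ‖α p‖ ^ 2 / p) * N2 N b| ≤
    (η * ∑ p ∈ bigP N M, ‖α p‖ ^ 2 / p + C₀ / η * (Real.log (2 * N) * (∑ p ∈ smallP N M, Real.log p * β p ^ 2 / p) +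
      Real.log (2 * N * M) * β₁ ^ 2)) * N2 N b

/-- MER: Mertens' theorem with a weight. PROOF. Abel summation (Mathlib `sum_mul_eq_sub_integral_mul`, or by hand for Lipschitz `g`) and
`∑_{p ≤ x} (log p)/p = log x + O(1)` (in the libraries, e.g. the files behind `S_PR`). The variation of `g` is at most `D (x₁ - x₀)`. -/
def S_MER : Prop := ∃ C₀ : ℝ, 1 ≤ C₀ ∧ ∀ (g : ℝ → ℝ) (D B₁ x₀ x₁ : ℝ) (M : ℕ), 0 ≤ D → 0 ≤ B₁ → x₀ ≤ x₁ → 1 ≤ M →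
  (∀ x y : ℝ, |g x - g y| ≤ D * |x - y|) → (∀ x, |g x| ≤ B₁) → (∀ x, x < x₀ ∨ x₁ < x → g x = 0) →
  |(∑ p ∈ (Finset.Icc 1 M).filter Nat.Prime, Real.log p / p * g (Real.log p)) - ∫ x in (0 : ℝ)..Real.log M, g x| ≤
    C₀ * (B₁ + D * (x₁ - x₀))

/-- PU: mean square of the prime sum against `|B|²`. Job `J_PU`. PROOF. Put `M = ⌊exp(u⁺ + 2δL + 3√L)⌋` (so `N M ≤ T^{1-δ}`,
`u⁺ = max u 0`); the tail `n > M` of `PL` is at most `T^{-1}` (S_QLF (3): `∑_{log n ≥ X + 3√L} Λ(n) n^{-1/2} e^{-(log n - X)²/2} ≤ T^{-1}` for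
`X = u⁺ + 2δL ≤ L`). The product with `dp N b` is `dp (N M) (cv α b)` (S_DPM), `α_n = Λ(n) QL(log n - u)/L` for `n ≤ M`; S_MV2;
S_CONV with `β_n = |QL(log n - u)|/L`, `β₁ = D/L`, `η = √θ`. By S_MER (for `g(x) = x QL(x-u)²/L²` and `g(x) = QL(x-u)²/L²`, cut off
outside `|x - u| ≤ 2δL + 3√L`, errors `O(1/L)`): `∑_{p ≤ M} (log p)² QL²/(L² p) = L^{-2} ∫_0^∞ x QL(x-u)² dx + o(1)`, the part
`p ≤ N` is at most `θ I2 + o(1)`, and `L^{-2} ∫_0^∞ x QL(x-u)² dx = u⁺ I2 / L + O(δ I2) + o(1)` by (4), (3) and evenness in S_QLF; finally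
`log (2N) ∑ (log p) QL²/(L² p) ≤ 2θ I2 + o(1)`. Everything is uniform in `u` because `QL` is only shifted. `b` is arbitrary. -/
def S_PU : Prop := ∃ C₀ : ℝ, 1 ≤ C₀ ∧
  ∀ (δ H C : ℝ) (K : ℕ) (w : ℝ → ℝ) (θ ε : ℝ), 0 < δ → δ ≤ 1 / 16 → 1 ≤ H → 1 ≤ C → 2 ≤ K → OmW δ H C K w → 0 < θ → θ ≤ 1 / 40 → 0 < ε →
  ∀ᶠ T : ℝ in atTop, ∀ N : ℕ, (N : ℝ) ≤ T ^ θ → ∀ (b : ℕ → ℂ) (u x y : ℝ), -Real.log T ≤ u → u ≤ (1 - 4 * δ - 2 * θ) * Real.log T →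
    T / 2 ≤ x → x ≤ y → y ≤ 4 * T →
    |(∫ t in x..y, ‖PL w (Real.log T) u t‖ ^ 2 * ‖dp N b t‖ ^ 2) - (y - x) * (max u 0 / Real.log T) * I2 w * N2 N b| ≤
      (C₀ * (δ + Real.sqrt θ) * I2 w + ε) * T * N2 N b

def J_PU : Prop := S_QH → S_QLF → S_DPM → S_MV2 → S_CONV → S_MER → S_PU

/-- ZU: mean square of the local zero sum against `|B|²`. Job `J_ZU`. PROOF. S_EFL: `|Zt| = |QL(u) - PL(u) - conj PL(-u) + O(D/L)|`. For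
`u ≥ 3δL` the terms `QL(u)` and `PL(-u)` are at most `D e^{-(δL)²/2}` times an absolute constant, so
`| |Zt|² - |PL(u)|² | ≤ (1/L) |PL(u)|² + O(1/L)`; S_PU. For `u < 3δL`: `| |Zt|² - QL(u)² | ≤ η QL(u)² + (8/η)(|PL(u)|² + |PL(-u)|² + D²/L²)`,
S_PU twice, and `∫ |B|² = (T - 4L) N2 + O(T^{1/2} N2)` (S_MV2, after replacing `b` by its restriction to `[1, N]`). -/
def S_ZU : Prop := ∃ C₀ : ℝ, 1 ≤ C₀ ∧ ∀ (δ H C : ℝ) (K : ℕ) (w : ℝ → ℝ) (θ ε η : ℝ), 0 < δ → δ ≤ 1 / 16 → 1 ≤ H → 1 ≤ C → 2 ≤ K →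
  OmW δ H C K w → 0 < θ → θ ≤ 1 / 40 → 0 < ε → 0 < η → η ≤ 1 → ∀ᶠ T : ℝ in atTop, ∀ N : ℕ, (N : ℝ) ≤ T ^ θ → ∀ (b : ℕ → ℂ) (u : ℝ),
    0 ≤ u → u ≤ (1 - 4 * δ - 2 * θ) * Real.log T →
    |(∫ t in (T + 2 * Real.log T)..(2 * T - 2 * Real.log T), ‖Zt w T u t‖ ^ 2 * ‖dp N b t‖ ^ 2) -
        (QL w (Real.log T) u ^ 2 + u / Real.log T * I2 w) * T * N2 N b| ≤
      ((if 3 * δ * Real.log T ≤ u then C₀ * (δ + Real.sqrt θ) * I2 w else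
        η * QL w (Real.log T) u ^ 2 + C₀ / η * (δ + Real.sqrt θ) * I2 w) + ε) * T * N2 N b

def J_ZU : Prop := S_QH → S_QLF → S_MV2 → S_EFL → S_PU → S_ZU

/-- PAIR: the pair correlation function against `|B|²`. Job `J_PAIR`. PROOF. Exchange the integrals (continuity), insert S_ZU with
`η = √δ` for each `u = lam L α`. `2 ∫_0^1 R(α) QL(lam L α)² dα = (2/(lam L)) ∫_0^{lam L} R(x/(lam L)) QL(x)² dx`: by (3) and (4) of S_QLF this is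
`R(0) I2 / lam + O(D δ I2 / lam²) + o(1)`; `2 ∫_0^1 R(α) lam α dα · I2`; errors: `2 ∫ |R| C₀ (δ + √θ) I2`, and on `α < 3δ/lam`:
`√δ · O(I2)` and `(C₀/√δ)(δ + √θ) I2 · O(δ)`. -/
def S_PAIR : Prop := ∀ (R : ℝ → ℝ) (D lam : ℝ), (∀ x y : ℝ, |R x - R y| ≤ D * |x - y|) → 0 < lam → lam < 1 → ∃ C₁ : ℝ, 1 ≤ C₁ ∧
  ∀ (δ H C : ℝ) (K : ℕ) (w : ℝ → ℝ) (θ ε : ℝ), 0 < δ → δ ≤ 1 / 16 → 3 * δ ≤ lam → lam + 4 * δ + 2 * θ ≤ 1 → 1 ≤ H → 1 ≤ C → 2 ≤ K →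
  OmW δ H C K w → 0 < θ → θ ≤ 1 / 40 → 0 < ε → ∀ᶠ T : ℝ in atTop, ∀ N : ℕ, (N : ℝ) ≤ T ^ θ → ∀ b : ℕ → ℂ,
    |(2 * ∫ α in (0 : ℝ)..1, R α * ∫ t in (T + 2 * Real.log T)..(2 * T - 2 * Real.log T),
        ‖Zt w T (lam * Real.log T * α) t‖ ^ 2 * ‖dp N b t‖ ^ 2) -
        (R 0 / lam + 2 * lam * ∫ α in (0 : ℝ)..1, α * R α) * I2 w * T * N2 N b| ≤
      (C₁ * (Real.sqrt δ + Real.sqrt θ) * I2 w + ε) * T * N2 N b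

def J_PAIR : Prop := S_QH → S_QLF → S_ZU → S_PAIR

/-- LIN: the mean count against `|B|²`. Job `J_LIN`. PROOF: S_EFL at `u = 0`, `|∫ PL |B|²|² ≤ ∫ |PL|² |B|² ∫ |B|²`, S_PU (`u = 0`), S_MV2,
`|QL(0) - qh(0)| ≤ D/L`. -/
def S_LIN : Prop := ∃ C₀ : ℝ, 1 ≤ C₀ ∧ ∀ (δ H C : ℝ) (K : ℕ) (w : ℝ → ℝ) (θ ε : ℝ), 0 < δ → δ ≤ 1 / 16 → 1 ≤ H → 1 ≤ C → 2 ≤ K →
  OmW δ H C K w → 0 < θ → θ ≤ 1 / 40 → 0 < ε → ∀ᶠ T : ℝ in atTop, ∀ N : ℕ, (N : ℝ) ≤ T ^ θ → ∀ b : ℕ → ℂ,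
    |∫ t in (T + 2 * Real.log T)..(2 * T - 2 * Real.log T), ((Zt w T 0 t).re - qh w 0) * ‖dp N b t‖ ^ 2| ≤
      (C₀ * Real.sqrt ((δ + Real.sqrt θ) * I2 w) + ε) * T * N2 N b

def J_LIN : Prop := S_QH → S_QLF → S_MV2 → S_EFL → S_PU → S_LIN

/-! ### the trace inequality in windows -/

/-- GRM: Gram representation. PROOF: `E = L²([-1/2, 1/2])`, `k z = (x ↦ √(g x) e^{iΛzx})`; compare `H143TG.gramG_exists`
(file H143R2/TraceG.lean), which has an additional Gaussian. -/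
def S_GRM : Prop := ∀ g : ℝ → ℝ, H295SI.Win g → ∀ Λ : ℝ, ∃ (E : Type) (_ : NormedAddCommGroup E) (_ : InnerProductSpace ℂ E)
  (k : ℂ → E), ∀ z w : ℂ, inner ℂ (k z) (k w) = H295SI.kapG g (Λ * (w - conj z))

/-- weight of a zero at scaled position `(x, y)` in the error term -/
def Psi (δ H : ℝ) (K : ℕ) (x y : ℝ) : ℝ := Real.exp (3 * δ * y) * (1 / (1 + |(|x| - H)|) ^ K +
  (if H < |x| ∧ (1 + (|x| - H)) ^ K < Real.exp y then 1 else 0) + (if |x| ≤ H then 1 / H else 0))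

/-- the error term -/
def ErrS (δ H : ℝ) (K : ℕ) (T t : ℝ) : ℝ := ∑ s ∈ ZT T, (mz s : ℝ) *
  Psi δ H K (Real.log T * (s.im - t)) (Real.log T * |s.re - 1 / 2|)

open Classical in
/-- number of zeros with `|γ - t| ≤ r`, with multiplicity -/
def Nw (T r t : ℝ) : ℝ := ∑ s ∈ (ZT T).filter (fun s => |s.im - t| ≤ r), (mz s : ℝ)

open Classical in
/-- number of simple zeros on the critical line with `|γ - t| ≤ r` -/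
def Nsw (T r t : ℝ) : ℝ := (((ZT T).filter (fun s => s.re = 1 / 2 ∧ mz s = 1 ∧ |s.im - t| ≤ r)).card : ℝ)

open Classical in
/-- number of distinct zeros with `β ≤ 1/2`, `|γ - t| ≤ r` -/
def Ndw (T r t : ℝ) : ℝ := (((ZT T).filter (fun s => s.re ≤ 1 / 2 ∧ |s.im - t| ≤ r)).card : ℝ)

/-- DET: the inequality for each `t`. Job `J_DET`. PROOF. `TH803UC.count_ineq` and `TH803UC.count_le` (file TH803/UC/Count.lean; see the use in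
TH803/UC/Core.lean) for `Z = (ZT T).image zz`, `φ(z) = kapG g (Λ z)`, `Λ = lam L`, `k` from S_GRM, `ω(z) = om w (L(z-t)) e^{-(z-t)²/4}`,
`a z ↔ L|Re z - t| ≤ H`, `far z ↔ (1 + (|x| - H))^K < e^y` (outside `a`), where `x = L(Re z - t)`, `y = L|Im z|` (`far → y > 0`).
`KSq` and `ω(conj z) = conj ω(z)` give `∑∑ m m (ωωφ)² = ∫_{-1}^1 R(α) |Zt w T (Λα) t|² dα = 2 ∫_0^1`. With `ω² = ω(z)²`: for `a z`,
`|1 - ω²| ≤ |1 - om²| + |om|² |1 - e^{-(z-t)²/2}| ≤ 3C² e^{2δy}/(1+H-|x|)^K + 4C² e^{2δy}(H² + y²)/L²`, and `(H²+y²)/L² ≤ e^{δy}/H` for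
large `T`; outside `a`: `|ω|² ≤ 2C² e^{2δy}/(1+|x|-H)^{2K}`, `|φ(z - conj z)| ≤ e^{y}` (`lam ≤ 1`, `∫ g = 1`). With `N = Nw`,
`x₁ = Nsw`, `y₁ = #rest`, `x₁ + 2y₁ ≤ N`, `x₁ + y₁ = Ndw`: `4N - 2x₁ - x₁ - 4y₁ ≤ Q + error` gives both inequalities. -/
def S_DET : Prop := ∀ (g R : ℝ → ℝ) (lam : ℝ), H295SI.Win g → H295SI.Conv R → H295SI.KSq g R → 0 < lam → lam ≤ 1 →
  ∀ (δ H C : ℝ) (K : ℕ) (w : ℝ → ℝ), 0 < δ → δ ≤ 1 / 8 → 1 ≤ H → 1 ≤ C → 2 ≤ K → OmW δ H C K w →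
  ∀ᶠ T : ℝ in atTop, ∀ t : ℝ, T + 2 * Real.log T ≤ t → t ≤ 2 * T - 2 * Real.log T →
    2 * Nw T (H / Real.log T) t - Nsw T (H / Real.log T) t ≤
      2 * (∫ α in (0 : ℝ)..1, R α * ‖Zt w T (lam * Real.log T * α) t‖ ^ 2) + 100 * C ^ 2 * ErrS δ H K T t ∧
    3 * Nw T (H / Real.log T) t - 2 * Ndw T (H / Real.log T) t ≤
      2 * (∫ α in (0 : ℝ)..1, R α * ‖Zt w T (lam * Real.log T * α) t‖ ^ 2) + 100 * C ^ 2 * ErrS δ H K T t ∧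
    |Nw T (H / Real.log T) t - (Zt w T 0 t).re| ≤ 100 * C ^ 2 * ErrS δ H K T t

def J_DET : Prop := S_GRM → S_DET

/-! ### the zeros off the line -/

/-- number (with multiplicity) of the zeros with `|γ - t| ≤ r` and `|β - 1/2| ≥ α` -/
def cz (t r α : ℝ) : ℝ := ∑ᶠ ρ ∈ {ρ : ℂ | ρ ∈ Zw t r ∧ α ≤ |ρ.re - 1 / 2|}, (analyticOrderNatAt riemannZeta ρ : ℝ)

/-- universal density bound -/
def EDB (θ c C : ℝ) : Prop := ∀ᶠ T : ℝ in atTop, ∀ N : ℕ, (N : ℝ) ≤ T ^ θ → ∀ (b : ℕ → ℂ) (X A : ℝ), |X| ≤ T / 8 → 0 ≤ A →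
  ∫ t in T..(2 * T), cz (t + X) (1 / Real.log T) (A / Real.log T) * ‖dp N b t‖ ^ 2 ≤ C * Real.exp (-(c * A)) * T * N2 N b

/-- ED. PROOF. Shift the variable (S_DPM: `dp N b (s - X)` is again a Dirichlet polynomial with the same `N2`); `t + X ∈ [T/2, 4T]` is covered by
`[T', 2T']`, `T' ∈ {T/2, T, 2T}`; the window of radius `1/log T` is covered by two windows of radius `1/log T'` (as in `Q210/UM/Wnd.lean`, the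
proof of S_WND), `A/log T = A'/log T'` with `A' ≥ A/2`, `log T' ≥ ½ log T`, `N ≤ T^{θ/2} ≤ T'^θ`. For one window: `cz ≤ nz` and `cz = 0`
unless some `ρ` has `|β - 1/2| ≥ A'/log T'`, so `∫ cz |B|² ≤ ∑_{K ≥ 1} ∫_{nz ≥ K, ∃ρ} |B|² ≤ ∑_K C min(e^{-cK}, e^{-cA'}) T' N2 ≤
C'(1 + A') e^{-cA'} T N2 ≤ C₂ e^{-cA/4} T N2`. -/
def S_ED : Prop := ∀ θ c C : ℝ, 0 < θ → θ ≤ 1 / 4 → 0 < c → 0 ≤ C → TailB θ c C → ∃ C₂ : ℝ, 0 ≤ C₂ ∧ EDB (θ / 2) (c / 4) C₂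

def J_ED : Prop := S_MVL → S_DPM → S_ZF2 → S_ED

/-- ERR: the mean of the error term against `|B|²`, with a constant independent of `H`. Job `J_ERR`. PROOF. Cut the plane of `(x, y)`,
`x = L(γ - t)`, `y = L|β - 1/2|`, into boxes `|x - X₀| ≤ 1`, `j ≤ y < j + 1`, `X₀ ∈ ℤ`, `j ∈ ℕ`. For `|X₀| ≤ √T` the box contributes at most
`sup Psi · ∫ cz(t + X₀/L; 1/L; j/L)|B|² ≤ sup Psi · C₂ e^{-cj} T N2` with
`sup Psi ≤ e^{3δ(j+1)} (2^K/(1 + ||X₀| - H|)^2 + [||X₀| - H| ≤ 1 + e^{(j+1)/K}] + [|X₀| ≤ H + 1]/H)`; the sum over `X₀` is at most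
`C_K e^{3δj + j/K}`, and `∑_j e^{(3δ + 1/K - c) j} < ∞` for `K ≥ 8/c + 16`, `δ ≤ c/100`. For `|x| > √T`: the second and third part of `Psi` vanish
(`y ≤ L/2`), the first is at most `e^{3δL/2} (T^{1/2}/2)^{-K}`, times the number `O(T²)` of zeros and `∫|B|² ≤ 2 T N2`. -/
def S_ERR : Prop := ∀ θ c C₂ : ℝ, 0 < θ → θ ≤ 1 / 4 → 0 < c → c ≤ 1 → 0 ≤ C₂ → EDB θ c C₂ → ∃ K₀ : ℕ, ∀ K : ℕ, K₀ ≤ K →
  ∀ δ : ℝ, 0 < δ → δ ≤ c / 100 → ∃ C₄ : ℝ, 0 ≤ C₄ ∧ ∀ H : ℝ, 1 ≤ H → ∀ᶠ T : ℝ in atTop, ∀ N : ℕ, (N : ℝ) ≤ T ^ θ → ∀ b : ℕ → ℂ,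
    ∫ t in (T + 2 * Real.log T)..(2 * T - 2 * Real.log T), ErrS δ H K T t * ‖dp N b t‖ ^ 2 ≤ C₄ * T * N2 N b

def J_ERR : Prop := S_MVL → S_ERR

/-! ### conclusion -/

/-- MTW: the Montgomery-Taylor window. PROOF: `H295SI.gS`, `H295SI.RS` with parameter `s = √2 lam`: theorems `winS` (H255R2/SI/T01), `convS`
(H793R2/SI/ConvS), `kSqS` (H218R2/SI3), `constS` (H228R2/SIConst): `cR (RS (√2 lam)) lam = cc lam`, and `cc` is continuous at `1` with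
`cc 1 = cMTinv`. -/
def S_MTW : Prop := ∀ ε : ℝ, 0 < ε → ∃ (lam : ℝ) (g R : ℝ → ℝ), 0 < lam ∧ lam < 1 ∧ H295SI.Win g ∧ H295SI.Conv R ∧ H295SI.KSq g R ∧
  H295SI.cR R lam ≤ H370.cMTinv + ε

/-- WIN: the theorem in windows (assembly by helper97) -/
def S_WIN : Prop := ∀ ε : ℝ, 0 < ε → ∃ H₀ : ℝ, 1 ≤ H₀ ∧ ∀ H : ℝ, H₀ ≤ H → ∃ θ : ℝ, 0 < θ ∧ θ ≤ 1 / 40 ∧ ∀ᶠ T : ℝ in atTop,
  ∀ N : ℕ, (N : ℝ) ≤ T ^ θ → ∀ b : ℕ → ℂ,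
    (2 - H370.cMTinv - ε) * (H / Real.pi) * (T * N2 N b) ≤
      ∫ t in (T + 2 * Real.log T)..(2 * T - 2 * Real.log T), Nsw T (H / Real.log T) t * ‖dp N b t‖ ^ 2 ∧
    ((3 - H370.cMTinv) / 2 - ε) * (H / Real.pi) * (T * N2 N b) ≤
      ∫ t in (T + 2 * Real.log T)..(2 * T - 2 * Real.log T), Ndw T (H / Real.log T) t * ‖dp N b t‖ ^ 2 ∧
    |(∫ t in (T + 2 * Real.log T)..(2 * T - 2 * Real.log T), Nw T (H / Real.log T) t * ‖dp N b t‖ ^ 2) -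
      (H / Real.pi) * (T * N2 N b)| ≤ ε * (H / Real.pi) * (T * N2 N b)

open Classical in
/-- SAMP: the theorem at the zeros. Job `J_SAMP`. PROOF. `r = H/L`, `H = H₀(ε/8)`, then `θ` small in terms of `H, ε`. For a zero `s` with ordinate
`γ` and `|t - γ| ≤ r`: `| |B(t)|² - |B(γ)|² | ≤ 2 ∫_{|v - γ| ≤ r} |B B'|`, `B' = dp N b'` up to a constant of absolute value 1 with
`b'_n = b_n log n`, `N2 N b' ≤ (θL)² N2 N b`. So `∑_γ m ∫_{|t-γ| ≤ r} | |B(t)|² - |B(γ)|² | dt ≤ 4r ∫ Nw |B B'| ≤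
4r (∫ Nw |B|²)^{1/2} (∫ Nw |B'|²)^{1/2} ≤ 4r · (2H/π) · θL · T N2` by the third part of S_WIN for `b` and `b'`. The zeros with ordinates within
`4 log T` of `T` or `2T` contribute `O(L² T^θ N2)` (`|B|² ≤ N N2`, `O(L)` zeros in unit intervals: `H370.NN_crude` or similar), and the same for
`t` near the ends. Divide `∑_γ ∫_{|t - γ| ≤ r} |B(t)|² dt = ∫ Nw |B|²` (and the same for `Nsw`, `Ndw`) by `2r`. -/
def S_SAMP : Prop := ∀ ε : ℝ, 0 < ε → ∃ θ : ℝ, 0 < θ ∧ θ ≤ 1 / 40 ∧ ∀ᶠ T : ℝ in atTop, ∀ N : ℕ, (N : ℝ) ≤ T ^ θ → ∀ b : ℕ → ℂ,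
    (2 - H370.cMTinv - ε) * (Real.log T / (2 * Real.pi)) * (T * N2 N b) ≤
      ∑ s ∈ (H370.Zf riemannZeta T (2 * T)).filter (fun s => s.re = 1 / 2 ∧ mz s = 1), ‖dp N b s.im‖ ^ 2 ∧
    ((3 - H370.cMTinv) / 2 - ε) * (Real.log T / (2 * Real.pi)) * (T * N2 N b) ≤
      ∑ s ∈ (H370.Zf riemannZeta T (2 * T)).filter (fun s => s.re ≤ 1 / 2), ‖dp N b s.im‖ ^ 2 ∧
    |(∑ s ∈ H370.Zf riemannZeta T (2 * T), (mz s : ℝ) * ‖dp N b s.im‖ ^ 2) - Real.log T / (2 * Real.pi) * (T * N2 N b)| ≤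
      ε * Real.log T * (T * N2 N b)

def J_SAMP : Prop := S_DPM → S_MV2 → S_WIN → S_SAMP

end

end Pool.Agent.Q97.UM
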