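import Pool.Agent.Q97.UM.Stm19

set_option autoImplicit false

/-!
Project UM15 (helper97): THE FIELD `log|ζ|` SEEN FROM THE ZEROS, AT ALL MESOSCOPIC DISTANCES.

THEOREM (unconditional). `V(t)`: mean of `log|ζ(1/2+iu)|` over `|u - t| ≤ 1/log T`, divided by `√(½ log log T)`. Let `0 < s_i < 1`, `a_i ≠ 0` real, `h_i = a_i (log T)^{-s_i}`.
For all real `u_0, ..., u_n` the values `u_0 V(γ) + ∑ u_i V(γ + h_i)`, `γ` the ordinates of all zeros in `(T, 2T]`, have asymptotically the normal law with variance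
`u_0² + 2 ∑ u_0 u_i s_i + ∑_{i,j} u_i u_j min(s_i, s_j)` (with `1` in place of `min(s_i, s_i)` for `i = j`); and the isolated simple critical zeros have at least 0.6725 of this law.
Proof: S_SAMP and S_SAMW for polynomials in `Re ∑_{p ≤ X} α_p p^{-1/2-it}` with bounded coefficients `α_p = u_0 + ∑ u_i p^{-i h_i}` (PWKA, WIDA: as PWK, WID), the local means
at shifted points (CLS: as CLA), the covariances (COV), the method of moments.
-/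

namespace Pool.Agent.Q97.UM

open Filter Topology MeasureTheory Complex ProbabilityTheory

noncomputable section

open Classical in
/-- coefficients of `∑_{p ≤ X} α_p p^{-1/2-it}` -/
def pca (α : ℕ → ℂ) (X n : ℕ) : ℂ := if n.Prime ∧ n ≤ X then α n else 0

/-- coefficients of its `k`-th power -/
def pka (α : ℕ → ℂ) (X : ℕ) : ℕ → ℕ → ℂ
  | 0 => fun n => if n = 1 then 1 else 0
  | (k + 1) => cv (pca α X) (pka α X k)

/-- PWKA: powers of prime sums with bounded coefficients. Job `J_PWKA`. PROOF. As S_PWK (file Q190/UM/PWK.lean, theorem `t_PWK`), with the coefficients `α_p`: the first two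
parts are the same induction. Third part: `S = N2 X (pca α X) = ∑_{p ≤ X} |α_p|²/p`, `pka α X k n = (k! / ∏ e_i!) ∏ α_{p_i}^{e_i}` for `n = ∏ p_i^{e_i}`, so with
`c(n) = k!/∏ e_i!` `N2 = ∑_n |pka n|²/n = ∑_{(p_1, ..., p_k)} c(p_1 ⋯ p_k) ∏ |α_{p_j}|²/p_j` (ordered tuples); `c = k!` for distinct primes, `1 ≤ c ≤ k!` always, and the tuples with two
equal primes contribute at most `k! k² (∑_p |α_p|⁴/p²) S^{k-2} ≤ C (1 + A)^{2k} (log log X + C)^{k-2}`. (For `k = 0, 1` the difference is `0`.) -/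
def S_PWKA : Prop := (∀ (α : ℕ → ℂ) (k X : ℕ) (t : ℝ), dp (X ^ k) (pka α X k) t = dp X (pca α X) t ^ k) ∧
  (∀ (α : ℕ → ℂ) (k X n : ℕ), pka α X k n ≠ 0 → 1 ≤ n ∧ n ≤ X ^ k ∧ n.primeFactorsList.length = k) ∧
  (∀ (k : ℕ) (A : ℝ), 0 ≤ A → ∃ C : ℝ, 0 ≤ C ∧ ∀ᶠ X : ℕ in atTop, ∀ α : ℕ → ℂ, (∀ n, ‖α n‖ ≤ A) →
    |N2 (X ^ k) (pka α X k) - (k.factorial : ℝ) * N2 X (pca α X) ^ k| ≤ C * Real.log (Real.log X) ^ (k - 1))

def J_PWKA : Prop := S_DPM → S_PWKA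

/-- `Re ∑_{p ≤ X} α_p p^{-1/2-it}` divided by the standard deviation of the case `α = 1` -/
def RNa (α : ℕ → ℂ) (X : ℕ) (t : ℝ) : ℝ := (dp X (pca α X) t).re / Real.sqrt (Real.log (Real.log X) / 2)

/-- its variance -/
def va (α : ℕ → ℂ) (X : ℕ) : ℝ := N2 X (pca α X) / Real.log (Real.log X)

/-- WIDA: polynomials in `RNa` as signed combinations. Job `J_WIDA`. PROOF. As S_WID (theorem `Pool.Agent.Q96.UM.t_WID`, file Q96/UM/WID.lean) with `P = dp X (pca α X)`: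
`x^k = 2^{-k} σ^{-k} ∑_j (k choose j) Re (P^j conj P^{k-j})` for `x = Re P/σ`, `σ² = ½ log log X`, `Re (u conj v) = (|u+v|² - |u-v|²)/4`, `P^j ± P^{k-j} = dp N (pka j ± pka (k-j))`; powers with
different exponents have disjoint supports. So `MW = ∑_k q_k 2^{-k} σ^{-k} (k choose k/2) N2 (pka (k/2))` (`k` even), and by S_PWKA
`σ^{-2j} N2 (pka j) = 2^j j! (va)^j + O(1/log log X)`, so `MW = ∑ q_k (k-1)!! (va)^{k/2} + o(1) = ∫ q(√va x) dγ(x) + o(1)`, uniformly in `α` (`0 ≤ va ≤ A² + 1` for large `X`). -/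
def S_WIDA : Prop := ∀ (q : Polynomial ℝ) (A : ℝ), 0 ≤ A → ∃ C : ℝ, 0 ≤ C ∧ ∀ ε : ℝ, 0 < ε → ∀ᶠ X : ℕ in atTop, ∀ N : ℕ, X ^ q.natDegree ≤ N →
  ∀ α : ℕ → ℂ, (∀ n, ‖α n‖ ≤ A) →
  ∃ (J : ℕ) (a : Fin J → ℝ) (b : Fin J → ℕ → ℂ), (∀ t : ℝ, WT N a b t = q.eval (RNa α X t)) ∧ VW N a b ≤ C ∧
    |MW N a b - ∫ x, q.eval (Real.sqrt (va α X) * x) ∂(gaussianReal 0 1)| ≤ ε

def J_WIDA : Prop := S_PWKA → S_WIDA

/-- CLS: the local mean at a shifted point against the prime sum, mean square over all the zeros. Job `J_CLS`. PROOF. As S_CLA (theorem `Pool.Agent.Q151.UM.t_CLA`, files Q151/UM/CLAa,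
CLAb, CLA) with `γ + h` in place of `γ` and without the weight `SS(γ)`: the pointwise part (`point`, `avg_re`, `EP_lin`, ...) is used at `γ + h`; `dp M e (γ + h) = dp M e' γ` with `e'_n = e_n n^{-ih}`,
`N2 e' = N2 e` (S_DPM or directly), and the third part of S_SAMP (`ε = 1`) bounds `∑ m |dp (X²) e' γ|²` and `∑ m`; and
`∑_γ m (L/2) ∫_{|t - γ - h| ≤ 1/L} D(t)² dt ≤ 8 L ∫ SS(t - h) D(t)² dt` over `[T/2, 4T]` (`|h| ≤ 1`), `≤ 8 L (∫ SS²)^{1/2} (∫ D⁴)^{1/2}` by S_STM (`m = 2`) and S_THP (`m = 4`), both with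
`N = 1`, `b = 1`, on dyadic pieces. -/
def S_CLS : Prop := ∃ δ₂ : ℝ, 0 < δ₂ ∧ ∀ δ : ℝ, 0 < δ → δ ≤ δ₂ → ∃ C : ℝ, 0 ≤ C ∧ ∀ᶠ T : ℝ in atTop, ∀ h : ℝ, |h| ≤ 1 →
  ∑ s ∈ H370.Zf riemannZeta T (2 * T), (mz s : ℝ) *
    (LM T (s.im + h) - (dp ⌊T ^ δ⌋₊ (pc ⌊T ^ δ⌋₊) (s.im + h)).re) ^ 2 ≤ C * (Real.log T * T)

def J_CLS : Prop := S_THP → S_STM → S_DSC → S_DPM → S_SAMP →
  (∃ θ c C : ℝ, 0 < θ ∧ θ ≤ 1 / 4 ∧ 0 < c ∧ 0 ≤ C ∧ TailB θ c C) → S_CLS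

open Classical in
/-- COV: the covariances. Job `COV`: prove `S_COV` (elementary: Mertens' estimates `∑_{p ≤ x} (log p)/p = log x + O(1)`, `∑_{p ≤ x} 1/p = log log x + O(1)`, which are in the libraries,
for instance behind S_MER, S_PRM, S_PWK). PROOF. `H = |h T|`, `X = ⌊T^δ⌋`, `Y = e^{1/H}` (`H → 0`, `H log X → ∞`, so `Y < X` for large `T`). (1) `|cos(H log p) - 1| ≤ H log p` for `p ≤ Y`:
`∑_{p ≤ Y} cos(H log p)/p = log log Y + O(1) + O(H log Y) = log (1/H) + O(1) = s log log T + O(1)` (`log (1/H) = s log log T - log (c + o(1))`). (2) `Y < p ≤ X`: Abel summation with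
`A(u) = ∑_{p ≤ u} (log p)/p = log u + R(u)`, `|R| ≤ C`, `f(u) = cos(H log u)/log u`: `∑ = ∫ f(u)/u du + [R f] - ∫ R f'`; with `v = log u` the first integral is
`∫_{1/H}^{log X} cos(Hv)/v dv = O(1)` (integrate by parts), `[R f] = O(H)`, `∫ |f'| ≤ ∫_{1/H}^{log X} (H/v + 1/v²) dv ≤ H log (H log X) + H`, and `H log log T → 0` since `s > 0`. (3) Divide by
`log log T`. -/
def S_COV : Prop := ∀ (s c : ℝ) (h : ℝ → ℝ), 0 < s → s < 1 → 0 < c → Tendsto (fun T : ℝ => |h T| * Real.log T ^ s) atTop (𝓝 c) →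
  ∀ δ : ℝ, 0 < δ → Tendsto (fun T : ℝ => (∑ p ∈ (Finset.Icc 1 ⌊T ^ δ⌋₊).filter Nat.Prime, Real.cos (h T * Real.log p) / p) /
    Real.log (Real.log T)) atTop (𝓝 s)

end

end Pool.Agent.Q97.UM
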