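import Pool.Agent.Q97.UM.Stm14
import Pool.Agent.Q97.UM.Stm21

set_option autoImplicit false

/-!
Project UM16 (helper97): GAPS AND ISOLATED ZEROS AT EVERY LEVEL OF LARGE DEVIATIONS (unconditional).

THEOREM. `S = log log T`, `W(γ)`: mean of `log|ζ(1/2+it)|` over `|t - γ| ≤ 1/log T`. For every real `k` there are `A, C` such that for large `T` at least
`T (log T)^{1-k²} e^{-C √S}` zeros with `T < γ ≤ 2T` and `|W(γ) - k S| ≤ A √S` have another zero within `(1 - η) 2π/log T` (small gaps); the same for large gaps; and the same for isolated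
simple critical zeros with `|log|ζ'(ρ)| - (k+1) S| ≤ A √S`, whose neighbourhoods carry at least `T (log T)^{k²} e^{-C √S}` of the `2k`-th moment of zeta.
Method: `b_UG2`, `b_SAMPI`, `b_THD` relative to the coherent state `F = TEx_K(k P)`, `P = ∑_{p ≤ X} p^{-1/2-it}`: under `|F|²` `P` is `k S + O(√S)` in mean square.
-/

namespace Pool.Agent.Q97.UM

open Filter Topology MeasureTheory Complex

noncomputable section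

open Classical in
/-- the indicator function of the squares of the primes `≤ X` -/
def cq (X n : ℕ) : ℂ := if ∃ p : ℕ, p.Prime ∧ p ≤ X ∧ n = p ^ 2 then 1 else 0

/-- COH: coherent states. Job `J_COH`. PROOF. `S = log log T`. `k = 0`: `X = N = 1`, `e` the indicator function of `1`. `k ≠ 0`: `K = ⌈20 (k² + 1) (S + 1)⌉ · 20` (any `K ≥ 20 (|k|+1)² S` with
`K = O(S)`), `X = ⌊T^{θ/K}⌋`, `N = X^K`, `e = ∑_{r ≤ K} (k^r/r!) pk X r`, so `dp N e t = TEx K (k P(t))` (first part of S_PWK: `dp (X^r) (pk X r) = P^r`; the coefficients vanish beyond `X^r`), and the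
pointwise bound is S_TEX (`‖kP‖ ≤ K/10`, `‖e^{kP}‖ = e^{k Re P}`). `Σ = ∑_{p ≤ X} 1/p = S - log K + O(1)`. The supports of the `pk X r` are disjoint, so `N2 N e = ∑_{r ≤ K} w_r`,
`w_r = k^{2r} N2 (pk X r)/r!² ≤ (k²Σ)^r/r!` (`N2 (pk X r) ≤ r! Σ^r`: `pk X r n ≤ r!`, and `∑_n pk n /n = Σ^r`; in the proof of S_PWK). Lower bound: squarefree `n` only (`pk X r n = r!`):
`N2 N e ≥ ∏_{p ≤ X} (1 + k²/p) - ∑_{r > K} (k²Σ)^r/r! ≥ c e^{k²Σ}` (`log(1+x) ≥ x - x²/2`, `∑ 1/p² < 1`; the tail is `≤ e^{-K} e^{e k² Σ}`, small against `e^{k²Σ}`).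
First inequality: `k²Σ ≥ k² S - C log S`. `pc X * pk X r = pk X (r+1)`, so `pc X * e - a e = ∑_{r ≤ K} (r/k - a) (k^r/r!) pk X r + (k^K/K!) pk X (K+1)`, `a = k S`, and
`N2 ≤ ∑_r (r/k - a)² (k²Σ)^r/r! + small = e^{k²Σ} (Σ + (kΣ - a)²) + small ≤ C S e^{k²Σ}` (`(kΣ - kS)² ≤ C (log S)² ≤ C S`). For `X' ≥ X`: `pc X' - pc X` is supported on the primes
`q ∈ (X, X']`; each `n` is divisible by at most one such `q` with `e (n/q) ≠ 0`, so `N2 ((pc X' - pc X) * e) ≤ ∑_{X < q ≤ T} 1/q N2 e ≤ (S + C) N2 e`; `N2 (f + g) ≤ 2 N2 f + 2 N2 g`.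
Squares: `(cq X' * e)(n) = ∑_{p² | n} e(n/p²)`; expand the square: `p = q` gives `∑ 1/p² N2 e`, and `p ≠ q`: `m = q² l`, `m' = p² l`,
`∑_{p ≠ q} ∑_l e(q² l) e(p² l)/(p² q² l)`, and `|e(q² l)| ≤ k² |e(l)|` for `q ≤ X` (`e(n) = k^{Ω(n)}/∏ v_p(n)!` for `Ω(n) ≤ K`), `e(q² l) = 0` for `q > X`: total `≤ C k⁴ N2 e`. -/
def S_COH : Prop := ∀ k θ : ℝ, 0 < θ → θ ≤ 1 → ∃ C : ℝ, 0 ≤ C ∧ ∀ᶠ T : ℝ in atTop, ∃ (X N : ℕ) (e : ℕ → ℂ), 1 ≤ X ∧ (X : ℝ) ≤ T ^ θ ∧ (N : ℝ) ≤ T ^ θ ∧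
  (∀ n, e n ≠ 0 → 1 ≤ n ∧ n ≤ N) ∧
  Real.exp (k ^ 2 * Real.log (Real.log T) - C * Real.log (Real.log (Real.log T))) ≤ N2 N e ∧
  (∀ t : ℝ, ‖dp X (pc X) t‖ ≤ 2 * (|k| + 1) * Real.log (Real.log T) → ‖dp N e t‖ ≤ 2 * Real.exp (k * (dp X (pc X) t).re)) ∧
  ∀ X' : ℕ, X ≤ X' → (X' : ℝ) ≤ T →
    N2 (X' * N) (fun n => cv (pc X') e n - ((k * Real.log (Real.log T) : ℝ) : ℂ) * e n) ≤ C * Real.log (Real.log T) * N2 N e ∧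
    N2 (X' ^ 2 * N) (cv (cq X') e) ≤ C * N2 N e

def J_COH : Prop := S_DPM → S_TEX → S_COH

/-- CLW: the local mean of `log|ζ|` at a shifted point against the Euler product, mean square over all the zeros, RELATIVE TO EVERY DIRICHLET POLYNOMIAL. Job `J_CLW`. PROOF. As S_CLS / S_CLA
(theorem `Pool.Agent.Q151.UM.t_CLA`, files Q151/UM/CLAa, CLAb, CLA). `X = ⌊T^δ⌋`, `D(u) = log|ζ(1/2+iu)| - EP X u`. `LM T (γ+h) - EP X (γ+h) = (L/2) ∫_{|u-γ-h| ≤ 1/L} D + R`,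
`R = (L/2) ∫ EP X - EP X (γ+h)`: `EP X u = Re ∑_p ∑_j p^{-j(1/2+iu)}/j`; the terms `j ≥ 3` are `O(1)`; `j = 2`: the average multiplies `p^{-1-2iu}` by `S(2 log p/L)`, `|S(x) - 1| ≤ |x|`,
`∑_{p ≤ X} (log p)/(p L) = O(1)`; `j = 1`: `Re dp X α (γ)`, `α_p = (S(log p/L) - 1) p^{-ih}`, `|α_p| ≤ (log p)/L ≤ C (log p)/log X`: S_PRM (convolution with `b`) and the third part of S_SAMP bound
`∑ m |dp X α γ|² |dp N b γ|² = ∑ m |dp (X N) (cv α b) γ|²` by `C L T N2 N b` (or use S_PMD with `m = 1`). The main term: `((L/2) ∫ D)² ≤ (L/2) ∫ D²`, and for `|v - γ| ≤ 1/L`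
`|B(γ)|² ≤ (L/2) ∫_{|v-γ| ≤ 1/L} |B|² + 2 ∫_{|v-γ| ≤ 1/L} |B B'|` (as in the proof of S_DSC, file with `t_DSC`), `∑_{|γ-v| ≤ 1/L} m ≤ 4 SS(v)`, so with `u = v + h + w/L`, `|w| ≤ 2`,
`∑_γ m |B(γ)|² (L/2) ∫_{|u-γ-h| ≤ 1/L} D(u)² du ≤ C L ∫_{|w| ≤ 2} ∫ SS(v) D(v+h+w/L)² (|B(v)|² + |B'(v)|²/L²) dv dw ≤ C L ∫_w (∫ SS² (|B|² + |B'|²/L²))^{1/2} (∫ D(v+h+w/L)⁴ (|B|² + |B'|²/L²))^{1/2}`;
S_STM (`m = 2`) and S_THP (`m = 4`) after the substitution `u = v + h + w/L` (`dp N b (u - x) = dp N b_x u`, `b_x n = b n · n^{ix}`, same `N2`; S_DPM), `B' = dp N b'`, `b'_n = b_n log n`,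
`N2 b' ≤ L² N2 b`. All `v` are in `[T/2, 4T]` minus a bit: `|h| ≤ 1`; use S_THP at `T/2`, `T`, `2T` if necessary (its range is `[T/2, 4T]`, the zeros are in `(T, 2T]`, so it is not). -/
def S_CLW : Prop := ∃ θ δ₂ : ℝ, 0 < θ ∧ 0 < δ₂ ∧ ∀ δ : ℝ, 0 < δ → δ ≤ δ₂ → ∃ C : ℝ, 0 ≤ C ∧ ∀ᶠ T : ℝ in atTop, ∀ N : ℕ, (N : ℝ) ≤ T ^ θ → ∀ (b : ℕ → ℂ) (h : ℝ),
  |h| ≤ 1 → ∑ s ∈ H370.Zf riemannZeta T (2 * T), (mz s : ℝ) * ((LM T (s.im + h) - EP ⌊T ^ δ⌋₊ (s.im + h)) ^ 2 * ‖dp N b s.im‖ ^ 2) ≤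
    C * Real.log T * (T * N2 N b)

def J_CLW : Prop := S_THP → S_STM → S_DPM → S_MVL → S_PMD → S_SAMP →
  (∃ θ c C : ℝ, 0 < θ ∧ θ ≤ 1 / 4 ∧ 0 < c ∧ 0 ≤ C ∧ TailB θ c C) → S_CLW

end

end Pool.Agent.Q97.UM
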