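import Pool.Agent.Q97.UM.Stm3

set_option autoImplicit false

/-!
Project UM (helper97), part 4: off the critical line; zero counts (statements as `def S_xxx : Prop`, proofs in the comments).
Throughout `L = log T`, `Y = ⌊T ^ θ⌋₊`, and `f = fm Pw Y` is the mollified zeta function `ζ(s) η(s)²`.
-/

namespace Pool.Agent.Q97.UM

open Filter Topology MeasureTheory Complex
open scoped ContDiff

noncomputable section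

/-- a window with a rapidly decaying complex Fourier transform -/
structure Win (P : ℝ → ℝ) (q : ℝ → ℂ) (c C : ℝ) : Prop where
  cpos : 0 < c
  supp : ∀ u : ℝ, 1 ≤ |u| → P u = 0
  cont : Continuous q
  dec : ∀ y : ℝ, ‖q y‖ ≤ C * Real.exp (-(c * |y| ^ (2 / 3 : ℝ)))
  rep : ∀ u : ℝ, (P u : ℂ) = ∫ y : ℝ, q y * cexp (I * (u * y : ℝ))

/-- tilted window -/
def til (P : ℝ → ℝ) (κ : ℝ) (u : ℝ) : ℝ := P u * Real.exp (κ * u)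

/-- GEV2: the window of `S_GEV` can be tilted. PROOF: same construction as `S_GEV` (theorem `Pool.Agent.Q210.UM.gev`); the Fourier
transform of `P(u) e^{κu}` at `y` is `q(y + iκ)` with `q` the entire extension, i.e. the product of the transform of the trapezoid
(bounded by `2 e^{3|κ|/4}`) and the factors `sin(a_j z)/(a_j z)`, `z = y + iκ`, each of modulus at most
`e^{a_j |κ|} min(1, 1/(a_j |y|))`; `∑ a_j ≤ 1/4`. -/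
def S_GEV2 : Prop := ∃ (P q : ℝ → ℝ) (c C : ℝ), Gev P q c C ∧ ∀ κ : ℝ, ∃ qκ : ℝ → ℂ, Win (til P κ) qκ c (C * Real.exp |κ|)

/-- MOLL2 (helper97 does this one) -/
def S_MOLL2 : Prop := ∀ c : ℝ, 0 < c → ∃ D : ℝ, 1 ≤ D ∧ ∀ (P : ℝ → ℝ) (q : ℝ → ℂ) (C : ℝ), Win P q c C → Moll P (D * C ^ 4)

/-- the bound of R2K, for fixed parameters -/
def R2K (Pw : ℝ → ℝ) (θ C : ℝ) : Prop := ∀ᶠ T : ℝ in atTop, ∀ N : ℕ, (N : ℝ) ≤ T ^ θ → ∀ b : ℕ → ℂ, ∀ κ y : ℝ,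
  (|y| ≤ T / 8 →
    ∫ t in (T / 4)..(4 * T), ‖dp N b t‖ ^ 2 * (‖zt (t + y)‖ * ‖eta (til Pw κ) ⌊T ^ θ⌋₊ (t + y)‖ ^ 2) ^ 2 ≤
      C * Real.exp (4 * |κ|) * T * N2 N b) ∧
  ∫ t in (T / 4)..(4 * T), ‖dp N b t‖ ^ 2 * (‖zt (t + y)‖ * ‖eta (til Pw κ) ⌊T ^ θ⌋₊ (t + y)‖ ^ 2) ^ 2 ≤
    C * Real.exp (4 * |κ|) * T * (1 + |y|) ^ 6 * N2 N b

/-- R2K: S_R2 for all tilts, on `[T/4, 4T]`. PROOF: as `S_R2` (theorem `Pool.Agent.Q84.UM.t_R2`), now with `|e_n| ≤ e^{|κ|}` and S_TS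
at `T/4, T/2, T, 2T` for `|y| ≤ T/8` (`t + y` is in `[T/8, 6T]`), trivial bounds for `|y| > T/8`; reduce to `b` supported in `[1, N]`. -/
def S_R2K : Prop := ∀ (Pw q : ℝ → ℝ) (c₀ C₀ D : ℝ), Gev Pw q c₀ C₀ → 0 ≤ D → (∀ κ : ℝ, Moll (til Pw κ) (D * Real.exp (4 * |κ|))) →
  S_TS → S_AL → S_DPM → S_MVL → ∃ θ C : ℝ, 0 < θ ∧ θ ≤ 1 / 40 ∧ 0 ≤ C ∧ R2K Pw θ C

/-- Dirichlet polynomials at complex points; `dq M c (1/2 + t * I) = dp M c t` by `rfl` -/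
def dq (M : ℕ) (c : ℕ → ℂ) (s : ℂ) : ℂ := ∑ n ∈ Finset.Icc 1 M, c n * (n : ℂ) ^ (-s)

/-- the mollified zeta function -/
def fm (Pw : ℝ → ℝ) (Y : ℕ) (s : ℂ) : ℂ := riemannZeta s * dq Y (et Pw Y) s ^ 2

/-- TL: convexity of mean squares between the lines `1/2` and `3`, on dyadic ranges. PROOF: `V = T / log T`, `t_j = T + jV`,
`0 ≤ j ≤ log T + 1`; Gabriel's convexity theorem `Q97.RB.LI_logconv` (file Pool/Agent/Q97/RB/Gab.lean, `β = 2`) for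
`F(s) exp(((s - 1/2 - i t_j)/V)²)` (if one of the two means vanishes then `F = 0`), Hölder in `j`;
`∑_j exp(-2((t-t_j)/V)²) ≤ C`, and outside `[T/2, 3T]` the weight is at most `exp(-(log T)²/4) exp(-((t-t_j)/V)²)`. -/
def S_TL : Prop := ∃ C : ℝ, 1 ≤ C ∧ ∀ T : ℝ, C ≤ T → ∀ (F : ℂ → ℂ) (A : ℝ), Differentiable ℂ F → 0 ≤ A →
  (∀ s : ℂ, 1 / 2 ≤ s.re → s.re ≤ 3 → ‖F s‖ ≤ A * (1 + |s.im|) ^ 4) → ∀ σ : ℝ, 1 / 2 ≤ σ → σ ≤ 3 →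
  ∫ t in T..(2 * T), ‖F (σ + t * I)‖ ^ 2 ≤
    C * ((∫ t in (T / 2)..(3 * T), ‖F (1 / 2 + t * I)‖ ^ 2) + A ^ 2 * Real.exp (-(Real.log T) ^ 2 / C)) ^ (1 - (σ - 1 / 2) / (5 / 2)) *
      ((∫ t in (T / 2)..(3 * T), ‖F (3 + t * I)‖ ^ 2) + A ^ 2 * Real.exp (-(Real.log T) ^ 2 / C)) ^ ((σ - 1 / 2) / (5 / 2))

/-- CVB: `f - 1` is small in mean square to the right of the line. PROOF. `(s-1)ζ(s)` is entire. For `σ₁ = σ` apply S_TL to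
`F(s) = (s + iy - 1)(f(s + iy) - 1) · ∑ b_n n^{-(s - σ₁ + 1/2)}`; on the line `1/2` the coefficients are `b_n n^{σ₁ - 1/2}`, so by R2K
(`κ = 0`, `til Pw 0 = Pw`) the mean square is `≤ C T² · T · N^{2(σ₁ - 1/2)} N2 N b`, also for the term `-1`; on the line `3`:
`f(s) - 1 = ∑_{n > Y^{1/4}} (1*e*e)(n) n^{-s}` by Gev.flat and S_AL (`(1*al*al)(n) = [n = 1]`), `|(1*e*e)(n)| ≤ d_3(n) ≤ n`, so
`|f(3 + iu) - 1| ≤ 4 Y^{-1/4}` (crude: `∑_{n > x} n^{-2} ≤ 2/x`), and `∫ |∑ b_n n^{-(3-σ₁)} n^{-1/2-it}|² ≤ 6 T N2 N b`; the trivial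
bound for `F` in the strip has `A ≤ T^{10} √(N2 N b)` (for `(s-1)ζ(s)` see `Q97.MM.zeta_bd`, `Pool/Agent/H306R2/ZetaGrowth.lean`). With
`λ = (2/5)(σ₁ - 1/2)` the result is `C T · N^{2(σ₁ - 1/2)} · (Y^{-1/2})^λ ≤ C T · T^{(θ/40 - θ/5)(σ₁ - 1/2)}` (`Y ≥ T^θ / 2`). -/
def S_CVB : Prop := ∀ (Pw q : ℝ → ℝ) (c₀ C₀ θ C : ℝ), Gev Pw q c₀ C₀ → 0 < θ → θ ≤ 1 / 40 → 0 ≤ C → R2K Pw θ C → S_AL → S_DPM →
  S_MVL → S_TL → ∃ c₁ C₁ : ℝ, 0 < c₁ ∧ 0 ≤ C₁ ∧ ∀ᶠ T : ℝ in atTop, ∀ N : ℕ, (N : ℝ) ≤ T ^ (θ / 80) → ∀ b : ℕ → ℂ,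
    ∀ σ y : ℝ, 1 / 2 ≤ σ → σ ≤ 3 → |y| ≤ T / 8 →
    ∫ t in T..(2 * T), ‖dp N b t‖ ^ 2 * ‖fm Pw ⌊T ^ θ⌋₊ (σ + (t + y : ℝ) * I) - 1‖ ^ 2 ≤
      C₁ * T * Real.exp (-(c₁ * (σ - 1 / 2) * Real.log T)) * N2 N b

/-- FE: the functional equation near the line. PROOF: `ζ(1-s) = χ(1-s) ζ(s)` with `|χ|` from Stirling, or from
`|Γℝ(1 - s)| / |Γℝ(s)|` and convexity; see `Pool/Agent/H345R2/Chi.lean`. -/
def S_FE : Prop := ∃ C : ℝ, 1 ≤ C ∧ ∀ a t : ℝ, 0 ≤ a → a ≤ 1 / 4 → C ≤ t →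
  ‖riemannZeta (((1 / 2 - a : ℝ) : ℂ) + t * I)‖ ≤ C * t ^ a * ‖riemannZeta (((1 / 2 + a : ℝ) : ℂ) + t * I)‖

/-- MS: mean square of `f` on both sides of the line. PROOF. Right side `σ ≥ 1/2`: from CVB and the mean of `1`. Left side
`σ = 1/2 - a`, `0 ≤ a ≤ 1/4`: `|ζ(1/2 - a + iu)| ≤ C u^a |ζ(1/2 + a + iu)|` (S_FE) and
`dq Y (et Pw Y) (1/2 - a + iu) = dq Y (et (til Pw κ) Y) (1/2 + a + iu)` with `κ = 2 a log Y`; then S_TL for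
`F(s) = (s + iy - 1) ζ(s + iy) (dq Y (et (til Pw κ) Y) (s + iy))² ∑ b_n n^{-(s - σ₁ + 1/2)}` at `σ₁ = 1/2 + a`: on the line `1/2` use R2K,
on the line `3` the bounds `|ζ| ≤ 2`, `|dq| ≤ 2 e^{|κ|}`; total `≤ C T · T^{2a} · e^{4κ} · N^{2a} ≤ C T · T^{4a}` as `e^{κ} ≤ Y^{2a}`. -/
def S_MS : Prop := ∀ (Pw q : ℝ → ℝ) (c₀ C₀ θ C : ℝ), Gev Pw q c₀ C₀ → 0 < θ → θ ≤ 1 / 40 → 0 ≤ C → R2K Pw θ C → S_AL → S_DPM →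
  S_MVL → S_TL → S_CVB → S_FE → ∃ C₁ : ℝ, 0 ≤ C₁ ∧ ∀ᶠ T : ℝ in atTop, ∀ N : ℕ, (N : ℝ) ≤ T ^ (θ / 80) → ∀ b : ℕ → ℂ,
    ∀ σ y : ℝ, 1 / 4 ≤ σ → σ ≤ 3 → |y| ≤ T / 8 →
    ∫ t in T..(2 * T), ‖dp N b t‖ ^ 2 * ‖fm Pw ⌊T ^ θ⌋₊ (σ + (t + y : ℝ) * I)‖ ^ 2 ≤
      C₁ * T * Real.exp (4 * |σ - 1 / 2| * Real.log T) * N2 N b

/-- the nontrivial zeros in a window of heights -/
def Zw (t r : ℝ) : Set ℂ := {ρ : ℂ | riemannZeta ρ = 0 ∧ 0 < ρ.re ∧ ρ.re < 1 ∧ |ρ.im - t| ≤ r}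

/-- their number with multiplicity -/
def nz (t r : ℝ) : ℕ := ∑ᶠ ρ ∈ Zw t r, analyticOrderNatAt riemannZeta ρ

/-- ZF2: finiteness and measurability. PROOF as `S_ZF` (theorem `Pool.Agent.Q178.UM.ZF.t_ZF`): countably many zeros; each
set is a countable union of finite intersections of closed sets `{t | |ρ.im - t| ≤ r}`. -/
def S_ZF2 : Prop := (∀ t r : ℝ, (Zw t r).Finite) ∧ (∀ (r : ℝ) (k : ℕ), MeasurableSet {t : ℝ | k ≤ nz t r}) ∧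
  ∀ r α : ℝ, MeasurableSet {t : ℝ | ∃ ρ ∈ Zw t r, α ≤ |ρ.re - 1 / 2|}

/-- mean square bounds to the right of the line, for an abstract function `f` and weight `V` -/
def RB (f : ℂ → ℂ) (V : ℝ → ℝ) (T c D : ℝ) : Prop := ∀ σ y : ℝ, 1 / 2 ≤ σ → σ ≤ 3 → |y| ≤ T / 8 →
  ∫ t in T..(2 * T), V t * ‖f (σ + (t + y : ℝ) * I) - 1‖ ^ 2 ≤ D * Real.exp (-(c * (σ - 1 / 2) * Real.log T))

/-- SUP: by subharmonicity `f` is near `1` on boxes to the right of the line, outside a set of small `V`-mass. PROOF. For `s` with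
`1/2 + A/L ≤ Re s ≤ 5/4`, `|Im s - t| ≤ 1/L` and `r = min (A/(2L)) (1/16)` one has
`|f(s) - 1|² ≤ (1/(π r²)) ∫∫_{|s'-s| ≤ r} |f(s') - 1|²`, at most `(1/(π r²)) ∫_{1/2 + A/(2L)}^{3/2} ∫_{|y| ≤ 1/L + r} |f(σ + i(t+y)) - 1|² dy dσ`;
integrate against `V` (Chebyshev), use RB: `≤ (4/(π r²)) · 2(1/L + r) · ∫_{A/(2L)}^∞ D e^{-c x L} dx ≤ C D e^{-c A/2}` (as `1/L ≤ A/L ≤ 2r`
if `r = A/(2L)`, and for `r = 1/16` use `A ≥ L/8`, `L ≥ 1`: polynomial factors in `L` against half of the exponential, `c` may shrink). The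
set is `{t | ∃ s ...}`, open in `[T, 2T]` up to a countable union, or bound the outer statement as below. -/
def S_SUP : Prop := ∀ c : ℝ, 0 < c → ∃ c' C' : ℝ, 0 < c' ∧ 0 ≤ C' ∧ ∀ (T D : ℝ) (f : ℂ → ℂ) (V : ℝ → ℝ), 16 ≤ T → 0 ≤ D →
  DifferentiableOn ℂ f {s : ℂ | s ≠ 1} → Continuous V → (∀ t, 0 ≤ V t) → RB f V T c D → ∀ A : ℝ, 1 ≤ A → ∃ E : Set ℝ, MeasurableSet E ∧
    (∫ t in {t : ℝ | T ≤ t ∧ t ≤ 2 * T ∧ t ∈ E}, V t ≤ C' * D * Real.exp (-(c' * A))) ∧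
    ∀ t : ℝ, T ≤ t → t ≤ 2 * T → t ∉ E → ∀ s : ℂ, 1 / 2 + A / Real.log T ≤ s.re → s.re ≤ 5 / 4 → |s.im - t| ≤ 1 / Real.log T →
      ‖f s - 1‖ ≤ 1 / 2

/-- JEN: Jensen's bound. PROOF: Jensen's formula (Mathlib: `MeromorphicOn.circleAverage_log_norm`, or the libraries) for `f` on the
disc with centre `s₀` and radius `2r`; zeros of `ζ` in `S` are zeros of `f = ζ g` of at least the same order; each contributes at least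
`log 2`; `∫ log |f| ≤ ½ ∫ log (1 + |f|²) ≤ ½ log (mean of 1 + |f|²)` by concavity, and `|f(s₀)| ≥ 1/2`. -/
def S_JEN : Prop := ∀ (g : ℂ → ℂ) (s₀ : ℂ) (r : ℝ), Differentiable ℂ g → 0 < r → 2 * r < |s₀.im| →
  1 / 2 ≤ ‖riemannZeta s₀ * g s₀‖ → ∀ S : Set ℂ, (∀ ρ ∈ S, riemannZeta ρ = 0 ∧ ‖ρ - s₀‖ ≤ r) → S.Finite →
  (∑ᶠ ρ ∈ S, (analyticOrderNatAt riemannZeta ρ : ℝ)) * Real.log 2 ≤ Real.log 2 +
    1 / 2 * Real.log (1 + 1 / (2 * Real.pi) * ∫ φ in (0 : ℝ)..(2 * Real.pi),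
      ‖riemannZeta (s₀ + 2 * r * cexp (φ * I)) * g (s₀ + 2 * r * cexp (φ * I))‖ ^ 2)

/-- TAIL: exponential tails for the number and the position of the zeros near the mass of `V = |B|²`. PROOF. Let `f = fm Pw Y`,
`V = ‖dp N b t‖²`, `D = C₁ T N2`, from CVB and SUP. (1): outside `E_A`, `f` has no zero in the box, so by the symmetry `ρ → 1 - conj ρ`
no zero of `ζ` with `|γ - t| ≤ 1/L` has `|β - 1/2| ≥ A/L`. (2): outside `E_A` (`A ≥ 1`, `14 A ≤ L/4`) all zeros with `|γ - t| ≤ 1/L` are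
within `3A/L` of `s₀ = 1/2 + A/L + it`, `|f(s₀)| ≥ 1/2`, so by JEN (`g = η²`, `r = 3A/L`) their number `n` satisfies
`n log 2 ≤ log 2 + ½ log (1 + M(t))`, `M` the mean of `|f|²` over the circle of radius `6A/L`; by S_MS the `V`-mean of `1 + M` is
`≤ C e^{28 A}`, so the `V`-mass of `n ≥ K` is at most `4 e^{-2 (K-1) log 2 ...}` (Chebyshev) `+ C e^{-c'A}`: take `A = K/100` (and the trivial bound
`C` for small `K`; for `K > L` use that `nz t (1/L) ≤ C L`, or monotonicity in `K` with smaller constants). -/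
def S_TAIL : Prop := ∀ (Pw q : ℝ → ℝ) (c₀ C₀ θ C : ℝ), Gev Pw q c₀ C₀ → 0 < θ → θ ≤ 1 / 40 → 0 ≤ C → R2K Pw θ C → S_AL → S_DPM →
  S_MVL → S_TL → S_CVB → S_FE → S_MS → S_ZF2 → S_SUP → S_JEN → ∃ c₁ C₁ : ℝ, 0 < c₁ ∧ 0 ≤ C₁ ∧ ∀ᶠ T : ℝ in atTop, ∀ N : ℕ,
    (N : ℝ) ≤ T ^ (θ / 80) → ∀ b : ℕ → ℂ,
    (∀ A : ℝ, 0 ≤ A → ∫ t in {t : ℝ | T ≤ t ∧ t ≤ 2 * T ∧ ∃ ρ ∈ Zw t (1 / Real.log T), A / Real.log T ≤ |ρ.re - 1 / 2|},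
      ‖dp N b t‖ ^ 2 ≤ C₁ * Real.exp (-(c₁ * A)) * T * N2 N b) ∧
    (∀ K : ℕ, ∫ t in {t : ℝ | T ≤ t ∧ t ≤ 2 * T ∧ K ≤ nz t (1 / Real.log T)}, ‖dp N b t‖ ^ 2 ≤
      C₁ * Real.exp (-(c₁ * K)) * T * N2 N b)

end

end Pool.Agent.Q97.UM
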