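import Pool.Agent.Q97.UM.Stm18

set_option autoImplicit false

/-!
Project UM14 (helper97): DISTINCT ZEROS IN EVERY GAUSSIAN ENVIRONMENT.

THEOREM. Let `V(γ)` be the mean of `log|ζ(1/2+it)|` over `|t - γ| ≤ 1/log T`, divided by `√(½ log log T)`. For every interval `J` and `ε > 0`, for large `T`, the number of
distinct zeros with `β ≤ 1/2`, `T < γ ≤ 2T`, `V(γ) ∈ J` is at least `((3 - cMTinv)/2 Φ(J) - ε) (L/2π) T`.
Lemmas: the second part of S_WIN and of S_SAMP for nonnegative signed combinations `WT` (the analogues of S_WINW and S_SAMW, which treat isolated zeros).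
-/

namespace Pool.Agent.Q97.UM

open Filter Topology MeasureTheory Complex

noncomputable section

/-- WIND: distinct zeros in windows, relative to nonnegative signed combinations. Job `J_WIND`. PROOF. As `Pool.Agent.Q190.UM.t_WINW` (file Q190/UM/WINW.lean), with the second
inequality of S_DET (`3 Nw - 2 Ndw ≤ Q + 100 C² ErrS`) in place of S_DETI, exactly as in `t_WIN` (file Q97/UM/Wc.lean, helper files Wa, Wb): multiply by `WT ≥ 0`, integrate; the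
integrals against `WT` are `∑ a_i` times those against `‖dp N (b i) t‖²`; the third part of S_WIN for `∫ Nw WT`, S_PAIR for the pair integral, S_ERR for the error term
(`∫ ErrS WT ≤ ∑ |a_i| ∫ ErrS ‖dp N (b i) t‖² ≤ C₄ T VW`), `|MW| ≤ VW`. -/
def S_WIND : Prop := ∀ ε : ℝ, 0 < ε → ∃ H₀ : ℝ, 1 ≤ H₀ ∧ ∀ H : ℝ, H₀ ≤ H → ∃ θ : ℝ, 0 < θ ∧ θ ≤ 1 / 40 ∧
  ∀ᶠ T : ℝ in atTop, ∀ N : ℕ, (N : ℝ) ≤ T ^ θ → ∀ (J : ℕ) (a : Fin J → ℝ) (b : Fin J → ℕ → ℂ), (∀ t : ℝ, 0 ≤ WT N a b t) →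
    (H / Real.pi) * (T * ((3 - H370.cMTinv) / 2 * MW N a b - ε * VW N a b)) ≤
      ∫ t in (T + 2 * Real.log T)..(2 * T - 2 * Real.log T), Ndw T (H / Real.log T) t * WT N a b t

def J_WIND : Prop := S_OMEX → S_QH → S_MV2 → S_PAIR → S_LIN → S_DET → S_ED → S_ERR → S_MTW →
  (∃ θ c C : ℝ, 0 < θ ∧ θ ≤ 1 / 4 ∧ 0 < c ∧ 0 ≤ C ∧ TailB θ c C) → S_WIN → S_WIND

open Classical in
/-- SAMD: the same at the zeros. Job `J_SAMD`. PROOF. As `Pool.Agent.Q190.UM.t_SAMW` (file Q190/UM/SAMW.lean) with the weight `1` for the zeros with `β ≤ 1/2`: `samp_cmp` is a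
two-sided bound for each `‖dp N (b i) ·‖²`; multiply by `|a_i|` and sum. There is no boundary term of isolated zeros here: `Ndw` counts all the zeros with `β ≤ 1/2` of the window. -/
def S_SAMD : Prop := ∀ ε : ℝ, 0 < ε → ∃ θ : ℝ, 0 < θ ∧ θ ≤ 1 / 40 ∧ ∀ᶠ T : ℝ in atTop, ∀ N : ℕ,
  (N : ℝ) ≤ T ^ θ → ∀ (J : ℕ) (a : Fin J → ℝ) (b : Fin J → ℕ → ℂ), (∀ t : ℝ, 0 ≤ WT N a b t) →
    Real.log T / (2 * Real.pi) * (T * ((3 - H370.cMTinv) / 2 * MW N a b - ε * VW N a b)) ≤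
      ∑ s ∈ (H370.Zf riemannZeta T (2 * T)).filter (fun s => s.re ≤ 1 / 2), WT N a b s.im

def J_SAMD : Prop := S_DPM → S_MV2 → S_WIN → S_WIND → S_SAMD

end

end Pool.Agent.Q97.UM
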