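import Pool.Agent.Q97.UM.Wb
import Pool.Agent.H370R2.Kern

set_option autoImplicit false

/-! Project UM2: the theorem in windows. -/

namespace Pool.Agent.Q97.UM

open Filter Topology MeasureTheory Complex
open scoped ComplexConjugate

lemma N2_nonneg (N : ℕ) (b : ℕ → ℂ) : 0 ≤ N2 N b := by
  unfold N2
  exact Finset.sum_nonneg fun n _ => by positivity

lemma EDB_mono {θ c c' C : ℝ} (hC : 0 ≤ C) (hc : c' ≤ c) (h : EDB θ c C) : EDB θ c' C := by
  unfold EDB at h ⊢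
  filter_upwards [h, eventually_ge_atTop (0 : ℝ)] with T hT hT0 N hN b X A hX hA
  refine (hT N hN b X A hX hA).trans ?_
  have h2 := N2_nonneg N b
  have h3 : Real.exp (-(c * A)) ≤ Real.exp (-(c' * A)) := by
    apply Real.exp_le_exp.2
    nlinarith
  gcongr

/-- total mass on the slightly shortened interval -/
lemma mass_short (hMV : S_MV2) : ∀ ε : ℝ, 0 < ε → ∀ᶠ T : ℝ in atTop, ∀ N : ℕ, (N : ℝ) ≤ T ^ (1 / 40 : ℝ) → ∀ b : ℕ → ℂ,
    |(∫ t in (T + 2 * Real.log T)..(2 * T - 2 * Real.log T), ‖dp N b t‖ ^ 2) - T * N2 N b| ≤ ε * (T * N2 N b) := by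
  obtain ⟨C₀, hC₀, hMV⟩ := hMV
  intro ε hε
  have h1 : Tendsto (fun T : ℝ => (4 * Real.log T + C₀ * T ^ (1 / 40 : ℝ) * (1 + Real.log (T ^ (1 / 40 : ℝ)))) / T) atTop (𝓝 0) := by
    have e1 : Tendsto (fun T : ℝ => Real.log T / T) atTop (𝓝 0) := by
      simpa using Real.isLittleO_log_id_atTop.tendsto_div_nhds_zero
    have e2 : Tendsto (fun T : ℝ => Real.log T / T ^ (39 / 40 : ℝ)) atTop (𝓝 0) :=
      (isLittleO_log_rpow_atTop (by norm_num : (0 : ℝ) < 39 / 40)).tendsto_div_nhds_zero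
    have e3 : Tendsto (fun T : ℝ => 1 / T ^ (39 / 40 : ℝ)) atTop (𝓝 0) := by
      refine (tendsto_rpow_atTop (by norm_num : (0 : ℝ) < 39 / 40)).inv_tendsto_atTop.congr fun T => ?_
      rw [one_div]
      rfl
    have e4 : Tendsto (fun T : ℝ => 4 * (Real.log T / T) + (C₀ * (1 / T ^ (39 / 40 : ℝ)) +
        C₀ / 40 * (Real.log T / T ^ (39 / 40 : ℝ)))) atTop (𝓝 (4 * 0 + (C₀ * 0 + C₀ / 40 * 0))) :=
      (e1.const_mul _).add ((e3.const_mul _).add (e2.const_mul _))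
    simp only [mul_zero, add_zero] at e4
    refine e4.congr' ?_
    filter_upwards [eventually_gt_atTop (0 : ℝ)] with T hT
    have h3 : T ^ (1 / 40 : ℝ) = T / T ^ (39 / 40 : ℝ) := by
      rw [eq_div_iff (by positivity), ← Real.rpow_add hT]
      norm_num
    rw [Real.log_rpow hT, h3]
    have : T ^ (39 / 40 : ℝ) ≠ 0 := by positivity
    field_simp
  filter_upwards [h1.eventually (ge_mem_nhds hε), eventually_ge_atTop (16 : ℝ)] with T hT hT16 N hN b
  have hT0 : 0 < T := by linarith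
  have hN2 := N2_nonneg N b
  have hL0 : 0 ≤ Real.log T := Real.log_nonneg (by linarith)
  have hL4 : 4 * Real.log T ≤ T := by
    have h5 := Real.log_le_sub_one_of_pos (show (0 : ℝ) < T / 16 by positivity)
    rw [Real.log_div (by positivity) (by norm_num)] at h5
    have h6 : Real.log 16 ≤ 3 := by
      have : Real.log 16 = 4 * Real.log 2 := by
        rw [show (16 : ℝ) = 2 ^ 4 by norm_num, Real.log_pow]; norm_num
      rw [this]; have := Real.log_two_lt_d9; linarith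
    linarith
  rcases Nat.eq_zero_or_pos N with h0 | h0
  · subst h0
    simp [dp, N2]
  · have hm := hMV (T + 2 * Real.log T) (2 * T - 2 * Real.log T) (by linarith) N b h0
    have hN1 : (1 : ℝ) ≤ N := by exact_mod_cast h0
    have h4 : C₀ * N * (1 + Real.log N) ≤ C₀ * T ^ (1 / 40 : ℝ) * (1 + Real.log (T ^ (1 / 40 : ℝ))) := by
      have h5 : Real.log N ≤ Real.log (T ^ (1 / 40 : ℝ)) := Real.log_le_log (by linarith) hN
      have h6 : 0 ≤ Real.log N := Real.log_nonneg hN1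
      gcongr
    have h7 : 4 * Real.log T + C₀ * T ^ (1 / 40 : ℝ) * (1 + Real.log (T ^ (1 / 40 : ℝ))) ≤ ε * T := by
      rwa [div_le_iff₀ hT0] at hT
    rw [abs_le] at hm ⊢
    have h8 : (4 * Real.log T + C₀ * N * (1 + Real.log N)) * N2 N b ≤ ε * T * N2 N b := by
      apply mul_le_mul_of_nonneg_right _ hN2
      linarith
    have h9 : 0 ≤ C₀ * N * (1 + Real.log N) * N2 N b := by
      have h6 : 0 ≤ Real.log N := Real.log_nonneg hN1
      positivity
    have h10 : 0 ≤ Real.log T * N2 N b := mul_nonneg hL0 hN2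
    constructor
    · nlinarith [hm.1]
    · nlinarith [hm.2]

theorem t_WIN (hOM : S_OMEX) (hQH : S_QH) (hMV : S_MV2) (hPA : S_PAIR) (hLI : S_LIN) (hDE : S_DET) (hED : S_ED) (hER : S_ERR)
    (hMT : S_MTW) (hTA : ∃ θ c C : ℝ, 0 < θ ∧ θ ≤ 1 / 4 ∧ 0 < c ∧ 0 ≤ C ∧ TailB θ c C) : S_WIN := by
  intro ε₀ hε₀
  obtain ⟨e, he⟩ : ∃ e, e = min ε₀ 1 := ⟨_, rfl⟩
  have he0 : 0 < e := by rw [he]; positivity
  have he1 : e ≤ 1 := by rw [he]; exact min_le_right _ _
  have hee : e ≤ ε₀ := by rw [he]; exact min_le_left _ _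
  obtain ⟨lam, g, R, hl0, hl1, hg, hR, hK, hcR⟩ := hMT (e / 16) (by positivity)
  obtain ⟨D, hD0, hD⟩ := hR.lip
  obtain ⟨C₁, hC₁, hPA⟩ := hPA R D lam hD hl0 hl1
  obtain ⟨C₀, hC₀, hLI⟩ := hLI
  obtain ⟨ϑ, c₀, C', hϑ0, hϑ1, hc₀, hC', hTB⟩ := hTA
  obtain ⟨C₂, hC₂, hEDB⟩ := hED ϑ c₀ C' hϑ0 hϑ1 hc₀ hC' hTB
  obtain ⟨c, hc⟩ : ∃ c, c = min (c₀ / 4) 1 := ⟨_, rfl⟩
  have hc0 : 0 < c := by rw [hc]; positivity
  have hEDB' : EDB (ϑ / 2) c C₂ := EDB_mono hC₂ (by rw [hc]; exact min_le_left _ _) hEDB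
  obtain ⟨K₀, hER⟩ := hER (ϑ / 2) c C₂ (by positivity) (by linarith) hc0 (by rw [hc]; exact min_le_right _ _) hC₂ hEDB'
  obtain ⟨K, hKd⟩ : ∃ K, K = max K₀ 2 := ⟨_, rfl⟩
  have hK2 : 2 ≤ K := by rw [hKd]; exact le_max_right _ _
  have hKK : K₀ ≤ K := by rw [hKd]; exact le_max_left _ _
  obtain ⟨η, hη⟩ : ∃ η, η = e / (64 * C₁) := ⟨_, rfl⟩
  have hη0 : 0 < η := by rw [hη]; positivity
  have hηC : C₁ * η ≤ e / 64 := by
    rw [hη]
    have : C₁ * (e / (64 * C₁)) = e / 64 := by field_simp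
    rw [this]
  obtain ⟨δ, hδ⟩ : ∃ δ, δ = min (min (c / 100) (1 / 16)) (min (min (lam / 3) ((1 - lam) / 8)) (η ^ 2)) := ⟨_, rfl⟩
  have hδ0 : 0 < δ := by
    rw [hδ]
    have : 0 < 1 - lam := by linarith
    positivity
  have hδ1 : δ ≤ c / 100 := by rw [hδ]; exact (min_le_left _ _).trans (min_le_left _ _)
  have hδ2 : δ ≤ 1 / 16 := by rw [hδ]; exact (min_le_left _ _).trans (min_le_right _ _)
  have hδ3 : δ ≤ lam / 3 := by
    rw [hδ]; exact (min_le_right _ _).trans ((min_le_left _ _).trans (min_le_left _ _))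
  have hδ4 : δ ≤ (1 - lam) / 8 := by
    rw [hδ]; exact (min_le_right _ _).trans ((min_le_left _ _).trans (min_le_right _ _))
  have hδ5 : δ ≤ η ^ 2 := by rw [hδ]; exact (min_le_right _ _).trans (min_le_right _ _)
  obtain ⟨C₄, hC₄, hER⟩ := hER K hKK δ hδ0 hδ1
  obtain ⟨Cw, hCw, hOM⟩ := hOM K δ hδ0 (by linarith)
  have hpi := Real.pi_pos
  -- the threshold for `h = H / π`
  obtain ⟨h₀, hh₀⟩ : ∃ h₀ : ℝ, h₀ = 32 / e * (4 * Cw ^ 2 + 100 * Cw ^ 2 * C₄ + 8 * Cw ^ 4) + 2 * (32 * C₀ / e) ^ 2 := ⟨_, rfl⟩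
  have hh00 : 0 ≤ h₀ := by rw [hh₀]; positivity
  refine ⟨1 + Real.pi * h₀ + 4 * Cw ^ 4, by nlinarith [pow_pos (by linarith : 0 < Cw) 4], fun H hH => ?_⟩
  have hCw4 : 0 < Cw ^ 4 := by positivity
  have hH1 : 1 ≤ H := by nlinarith [mul_nonneg hpi.le hh00]
  obtain ⟨w, hw⟩ := hOM H hH1
  obtain ⟨-, -, -, -, hq0, hI2⟩ := hQH δ H Cw K w hδ0 (by linarith) hH1 hCw hK2 hw
  obtain ⟨h, hh⟩ : ∃ h, h = H / Real.pi := ⟨_, rfl⟩
  have hhH : H = h * Real.pi := by rw [hh]; field_simp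
  have hhh : h₀ ≤ h := by
    rw [hh, le_div_iff₀ hpi]
    nlinarith
  have hh0 : 0 < h := by rw [hh]; positivity
  have hq0' : |qh w 0 - h| ≤ 4 * Cw ^ 2 / 3 := by
    have e1 : Real.pi * qh w 0 - H = Real.pi * (qh w 0 - h) := by rw [hhH]; ring
    rw [e1, abs_mul, abs_of_pos hpi] at hq0
    have := Real.pi_gt_three
    have h2 := abs_nonneg (qh w 0 - h)
    nlinarith
  have hI2' : |I2 w - h| ≤ 4 * Cw ^ 4 / 3 := by
    have e1 : Real.pi * I2 w - H = Real.pi * (I2 w - h) := by rw [hhH]; ring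
    rw [e1, abs_mul, abs_of_pos hpi] at hI2
    have := Real.pi_gt_three
    have h2 := abs_nonneg (I2 w - h)
    nlinarith
  -- consequences of `h₀ ≤ h`
  have f1 : 4 * Cw ^ 2 ≤ e / 32 * h := by
    have : 32 / e * (4 * Cw ^ 2) ≤ h := by
      refine le_trans ?_ hhh
      rw [hh₀]
      have h1 : 0 ≤ 32 / e * (100 * Cw ^ 2 * C₄ + 8 * Cw ^ 4) + 2 * (32 * C₀ / e) ^ 2 := by positivity
      linarith
    have h2 := mul_le_mul_of_nonneg_left this (by positivity : 0 ≤ e / 32)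
    have h3 : e / 32 * (32 / e * (4 * Cw ^ 2)) = 4 * Cw ^ 2 := by field_simp
    linarith
  have f2 : 100 * Cw ^ 2 * C₄ ≤ e / 32 * h := by
    have : 32 / e * (100 * Cw ^ 2 * C₄) ≤ h := by
      refine le_trans ?_ hhh
      rw [hh₀]
      have h1 : 0 ≤ 32 / e * (4 * Cw ^ 2 + 8 * Cw ^ 4) + 2 * (32 * C₀ / e) ^ 2 := by positivity
      linarith
    have h2 := mul_le_mul_of_nonneg_left this (by positivity : 0 ≤ e / 32)
    have h3 : e / 32 * (32 / e * (100 * Cw ^ 2 * C₄)) = 100 * Cw ^ 2 * C₄ := by field_simp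
    linarith
  have f3 : 8 * Cw ^ 4 ≤ e / 32 * h := by
    have : 32 / e * (8 * Cw ^ 4) ≤ h := by
      refine le_trans ?_ hhh
      rw [hh₀]
      have h1 : 0 ≤ 32 / e * (4 * Cw ^ 2 + 100 * Cw ^ 2 * C₄) + 2 * (32 * C₀ / e) ^ 2 := by positivity
      linarith
    have h2 := mul_le_mul_of_nonneg_left this (by positivity : 0 ≤ e / 32)
    have h3 : e / 32 * (32 / e * (8 * Cw ^ 4)) = 8 * Cw ^ 4 := by field_simp
    linarith
  have f4 : C₀ * Real.sqrt (2 * h) ≤ e / 32 * h := by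
    have h1 : 2 * (32 * C₀ / e) ^ 2 ≤ h := by
      refine le_trans ?_ hhh
      rw [hh₀]
      have h1 : 0 ≤ 32 / e * (4 * Cw ^ 2 + 100 * Cw ^ 2 * C₄ + 8 * Cw ^ 4) := by positivity
      linarith
    have h2 : Real.sqrt (2 * h) ≤ e / (32 * C₀) * h := by
      rw [Real.sqrt_le_left (by positivity)]
      have h3 : (e / (32 * C₀) * h) ^ 2 = h * ((e / (32 * C₀)) ^ 2 * h) := by ring
      rw [h3]
      have h4 : 2 ≤ (e / (32 * C₀)) ^ 2 * h := by
        have h5 := mul_le_mul_of_nonneg_left h1 (by positivity : 0 ≤ (e / (32 * C₀)) ^ 2)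
        have h6 : (e / (32 * C₀)) ^ 2 * (2 * (32 * C₀ / e) ^ 2) = 2 := by field_simp
        linarith
      nlinarith
    have h7 := mul_le_mul_of_nonneg_left h2 (by linarith : 0 ≤ C₀)
    have h8 : C₀ * (e / (32 * C₀) * h) = e / 32 * h := by field_simp
    linarith
  have hI2up : I2 w ≤ 2 * h := by
    have := (abs_le.1 hI2').2
    nlinarith
  have hI20 : 0 ≤ I2 w := by
    have := (abs_le.1 hI2').1
    nlinarith
  obtain ⟨θ, hθ⟩ : ∃ θ, θ = min (min (ϑ / 2) (1 / 40)) (min ((1 - lam) / 4) (η ^ 2)) := ⟨_, rfl⟩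
  have hθ0 : 0 < θ := by
    rw [hθ]
    have : 0 < 1 - lam := by linarith
    positivity
  have hθ1 : θ ≤ ϑ / 2 := by rw [hθ]; exact (min_le_left _ _).trans (min_le_left _ _)
  have hθ2 : θ ≤ 1 / 40 := by rw [hθ]; exact (min_le_left _ _).trans (min_le_right _ _)
  have hθ3 : θ ≤ (1 - lam) / 4 := by rw [hθ]; exact (min_le_right _ _).trans (min_le_left _ _)
  have hθ4 : θ ≤ η ^ 2 := by rw [hθ]; exact (min_le_right _ _).trans (min_le_right _ _)
  refine ⟨θ, hθ0, hθ2, ?_⟩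
  have hsδ : Real.sqrt δ ≤ η := by
    rw [Real.sqrt_le_left hη0.le]; exact hδ5
  have hsθ : Real.sqrt θ ≤ η := by
    rw [Real.sqrt_le_left hη0.le]; exact hθ4
  have hη1 : η ≤ 1 / 64 := by
    rw [hη, div_le_div_iff₀ (by positivity) (by norm_num)]
    nlinarith
  have ePA := hPA δ H Cw K w θ (e / 32 * h) hδ0 hδ2 (by linarith) (by linarith) hH1 hCw hK2 hw hθ0 hθ2 (by positivity)
  have eLI := hLI δ H Cw K w θ (e / 32 * h) hδ0 hδ2 hH1 hCw hK2 hw hθ0 hθ2 (by positivity)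
  have eDE := hDE g R lam hg hR hK hl0 hl1.le δ H Cw K w hδ0 (by linarith) hH1 hCw hK2 hw
  have eER := hER H hH1
  have eMA := mass_short hMV (e / 64) (by positivity)
  filter_upwards [ePA, eLI, eDE, eER, eMA, eventually_ge_atTop (16 : ℝ)] with T ePA eLI eDE eER eMA hT16 N hN b
  have hT0 : 0 < T := by linarith
  have hT1 : 1 ≤ T := by linarith
  have hNϑ : (N : ℝ) ≤ T ^ (ϑ / 2) := hN.trans (Real.rpow_le_rpow_of_exponent_le hT1 hθ1)
  have hN40 : (N : ℝ) ≤ T ^ (1 / 40 : ℝ) := hN.trans (Real.rpow_le_rpow_of_exponent_le hT1 hθ2)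
  replace ePA := ePA N hN b
  replace eLI := eLI N hN b
  replace eER := eER N hNϑ b
  replace eMA := eMA N hN40 b
  have hL0 : 0 ≤ Real.log T := Real.log_nonneg hT1
  have hL4 : 4 * Real.log T ≤ T := by
    have h5 := Real.log_le_sub_one_of_pos (show (0 : ℝ) < T / 16 by positivity)
    rw [Real.log_div (by positivity) (by norm_num)] at h5
    have h6 : Real.log 16 ≤ 3 := by
      have : Real.log 16 = 4 * Real.log 2 := by
        rw [show (16 : ℝ) = 2 ^ 4 by norm_num, Real.log_pow]; norm_num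
      rw [this]; have := Real.log_two_lt_d9; linarith
    linarith
  have hxy : T + 2 * Real.log T ≤ 2 * T - 2 * Real.log T := by linarith
  have hdpc : Continuous (dp N b) := by
    unfold dp
    refine continuous_finsetSum _ fun n hn => ?_
    refine continuous_const.mul ?_
    have hn0 : (n : ℂ) ≠ 0 := by
      have := (Finset.mem_Icc.1 hn).1
      exact_mod_cast (by omega : n ≠ 0)
    exact Continuous.const_cpow (by fun_prop) (Or.inl hn0)
  have hVc : Continuous (fun t : ℝ => ‖dp N b t‖ ^ 2) := (hdpc.norm).pow 2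
  have hRc : Continuous R := by
    have h1 : LipschitzWith (Real.toNNReal D) R := by
      refine LipschitzWith.of_dist_le_mul fun x y => ?_
      rw [Real.dist_eq, Real.dist_eq]
      refine (hD x y).trans ?_
      exact mul_le_mul_of_nonneg_right (Real.le_coe_toNNReal D) (abs_nonneg _)
    exact h1.continuous
  obtain ⟨g1, g2, g3⟩ := core_int hw hδ0 hH1 hRc hVc (fun t => by positivity) hxy eDE
  set A := ∫ t in (T + 2 * Real.log T)..(2 * T - 2 * Real.log T), Nw T (H / Real.log T) t * ‖dp N b t‖ ^ 2 with hA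
  set S := ∫ t in (T + 2 * Real.log T)..(2 * T - 2 * Real.log T), Nsw T (H / Real.log T) t * ‖dp N b t‖ ^ 2 with hS
  set Dd := ∫ t in (T + 2 * Real.log T)..(2 * T - 2 * Real.log T), Ndw T (H / Real.log T) t * ‖dp N b t‖ ^ 2 with hDd
  set E := ∫ t in (T + 2 * Real.log T)..(2 * T - 2 * Real.log T), ErrS δ H K T t * ‖dp N b t‖ ^ 2 with hE
  set M := ∫ t in (T + 2 * Real.log T)..(2 * T - 2 * Real.log T), ‖dp N b t‖ ^ 2 with hM
  set P := 2 * ∫ α in (0 : ℝ)..1, R α * ∫ t in (T + 2 * Real.log T)..(2 * T - 2 * Real.log T),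
        ‖Zt w T (lam * Real.log T * α) t‖ ^ 2 * ‖dp N b t‖ ^ 2 with hP
  set Zz := ∫ t in (T + 2 * Real.log T)..(2 * T - 2 * Real.log T), (Zt w T 0 t).re * ‖dp N b t‖ ^ 2 with hZz
  obtain ⟨W, hW⟩ : ∃ W, W = T * N2 N b := ⟨_, rfl⟩
  have hW0 : 0 ≤ W := by rw [hW]; exact mul_nonneg hT0.le (N2_nonneg N b)
  have hZl : ∫ t in (T + 2 * Real.log T)..(2 * T - 2 * Real.log T), ((Zt w T 0 t).re - qh w 0) * ‖dp N b t‖ ^ 2 =
      Zz - qh w 0 * M := by
    have hZ0 : Continuous (fun t : ℝ => Zt w T 0 t) := by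
      have h1 := (Zt_cont hw hδ0 T 0).comp (continuous_const.prodMk continuous_id : Continuous fun t : ℝ => ((0 : ℝ), t))
      have e : (fun t : ℝ => Zt w T 0 t) = (fun p : ℝ × ℝ => Zt w T (0 * p.1) p.2) ∘ (fun t : ℝ => ((0 : ℝ), t)) := by
        funext t
        simp
      rw [e]
      exact h1
    rw [hZz, hM, ← intervalIntegral.integral_const_mul, ← intervalIntegral.integral_sub]
    · refine intervalIntegral.integral_congr fun t _ => ?_
      ring
    · exact ((Complex.continuous_re.comp hZ0).mul hVc).intervalIntegrable _ _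
    · exact (continuous_const.mul hVc).intervalIntegrable _ _
  rw [hZl] at eLI
  have eER' : 100 * Cw ^ 2 * E ≤ e / 32 * h * W := by
    have h1 : 100 * Cw ^ 2 * E ≤ 100 * Cw ^ 2 * (C₄ * T * N2 N b) := mul_le_mul_of_nonneg_left eER (by positivity)
    have h2 : 100 * Cw ^ 2 * (C₄ * T * N2 N b) = 100 * Cw ^ 2 * C₄ * W := by rw [hW]; ring
    rw [h2] at h1
    exact h1.trans (mul_le_mul_of_nonneg_right f2 hW0)
  have eLI' : |Zz - qh w 0 * M| ≤ 2 * (e / 32) * h * W := by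
    refine eLI.trans ?_
    have h1 : Real.sqrt ((δ + Real.sqrt θ) * I2 w) ≤ Real.sqrt (2 * h) := by
      apply Real.sqrt_le_sqrt
      have : δ + Real.sqrt θ ≤ 1 := by linarith
      have h3 : 0 ≤ Real.sqrt θ := Real.sqrt_nonneg _
      nlinarith
    have h2 : C₀ * Real.sqrt ((δ + Real.sqrt θ) * I2 w) ≤ e / 32 * h :=
      (mul_le_mul_of_nonneg_left h1 (by linarith)).trans f4
    have h3 : (C₀ * Real.sqrt ((δ + Real.sqrt θ) * I2 w) + e / 32 * h) * T * N2 N b =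
        (C₀ * Real.sqrt ((δ + Real.sqrt θ) * I2 w) + e / 32 * h) * W := by rw [hW]; ring
    rw [h3]
    apply mul_le_mul_of_nonneg_right _ hW0
    linarith
  have eMA' : |M - W| ≤ e / 64 * W := by rw [hW]; exact eMA
  have hqb : |qh w 0| ≤ 2 * h := by
    have h1 := abs_le.1 hq0'
    rw [abs_le]
    have h2 : e / 32 * h ≤ h / 32 := by nlinarith
    constructor <;> linarith [h1.1, h1.2]
  have hqM : |qh w 0 * M - h * W| ≤ 2 * (e / 32) * h * W := by
    have e1 : qh w 0 * M - h * W = qh w 0 * (M - W) + (qh w 0 - h) * W := by ring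
    rw [e1]
    refine (abs_add_le _ _).trans ?_
    rw [abs_mul, abs_mul, abs_of_nonneg hW0]
    have h1 : |qh w 0| * |M - W| ≤ 2 * h * (e / 64 * W) :=
      mul_le_mul hqb eMA' (abs_nonneg _) (by positivity)
    have h2 : |qh w 0 - h| * W ≤ (e / 32 * h) * W := by
      apply mul_le_mul_of_nonneg_right _ hW0
      refine hq0'.trans ?_
      have : 0 ≤ Cw ^ 2 := by positivity
      linarith
    nlinarith
  have hAW : |A - h * W| ≤ 5 * (e / 32) * h * W := by
    have h1 := abs_le.1 (g3.trans eER')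
    have h2 := abs_le.1 eLI'
    have h3 := abs_le.1 hqM
    rw [abs_le]
    constructor <;> linarith [h1.1, h1.2, h2.1, h2.2, h3.1, h3.2]
  have hPW : P ≤ (H370.cMTinv + 6 * (e / 32)) * h * W := by
    have h1 := (abs_le.1 ePA).2
    have e1 : (R 0 / lam + 2 * lam * ∫ α in (0 : ℝ)..1, α * R α) * I2 w * T * N2 N b = H295SI.cR R lam * I2 w * W := by
      rw [hW]; unfold H295SI.cR; ring
    have e2 : (C₁ * (Real.sqrt δ + Real.sqrt θ) * I2 w + e / 32 * h) * T * N2 N b =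
        (C₁ * (Real.sqrt δ + Real.sqrt θ) * I2 w + e / 32 * h) * W := by rw [hW]; ring
    rw [e1, e2] at h1
    have h2 : C₁ * (Real.sqrt δ + Real.sqrt θ) * I2 w ≤ 2 * (e / 32) * h := by
      have h3 : C₁ * (Real.sqrt δ + Real.sqrt θ) ≤ e / 32 := by
        have : C₁ * (Real.sqrt δ + Real.sqrt θ) ≤ C₁ * (2 * η) :=
          mul_le_mul_of_nonneg_left (by linarith) (by linarith)
        linarith
      calc C₁ * (Real.sqrt δ + Real.sqrt θ) * I2 w ≤ e / 32 * (2 * h) :=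
            mul_le_mul h3 hI2up hI20 (by positivity)
        _ = _ := by ring
    have hcMT : H370.cMTinv < 3 / 2 := H370.cMTinv_lt
    have h4 : H295SI.cR R lam * I2 w ≤ (H370.cMTinv + e / 16) * h + e / 32 * h := by
      have h5 : H295SI.cR R lam * I2 w ≤ (H370.cMTinv + e / 16) * I2 w := mul_le_mul_of_nonneg_right hcR hI20
      have h6 : I2 w ≤ h + 4 * Cw ^ 4 / 3 := by linarith [(abs_le.1 hI2').2]
      have h7 : 0 ≤ H370.cMTinv + e / 16 := by
        by_contra hneg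
        push Not at hneg
        -- then `cR` would be negative although it is nonnegative
        have h8 : 0 ≤ H295SI.cR R lam := by
          unfold H295SI.cR
          have h9 : 0 ≤ ∫ α in (0 : ℝ)..1, α * R α :=
            intervalIntegral.integral_nonneg (by norm_num) fun α hα => mul_nonneg hα.1 (hR.nonneg α)
          have h10 := hR.nonneg 0
          positivity
        linarith
      have h8 : (H370.cMTinv + e / 16) * I2 w ≤ (H370.cMTinv + e / 16) * (h + 4 * Cw ^ 4 / 3) :=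
        mul_le_mul_of_nonneg_left h6 h7
      have h9 : (H370.cMTinv + e / 16) * (4 * Cw ^ 4 / 3) ≤ e / 32 * h := by
        have h10 : (H370.cMTinv + e / 16) * (4 * Cw ^ 4 / 3) ≤ 2 * (4 * Cw ^ 4 / 3) :=
          mul_le_mul_of_nonneg_right (by linarith) (by positivity)
        linarith
      linarith
    have h5 : P ≤ (H295SI.cR R lam * I2 w + (C₁ * (Real.sqrt δ + Real.sqrt θ) * I2 w + e / 32 * h)) * W := by
      linarith
    refine h5.trans ?_
    apply mul_le_mul_of_nonneg_right _ hW0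
    linarith
  have hkey : 0 ≤ e * h * W := by positivity
  have hkey2 : e * h * W ≤ ε₀ * h * W := by gcongr
  have hAl := abs_le.1 hAW
  rw [← hh, ← hW]
  refine ⟨?_, ?_, ?_⟩
  · linarith [hAl.1, hAl.2]
  · linarith [hAl.1, hAl.2]
  · rw [abs_le]
    constructor <;> linarith [hAl.1, hAl.2]

end Pool.Agent.Q97.UM
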