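import Pool.Agent.Q97.UM.Jm
import Pool.Agent.TH223.AP.A4

set_option autoImplicit false

/-! Project UM: the mean square of the distance of `M(e^v) e^{-v/2}` and of its increments to trigonometric polynomials. -/

namespace Pool.Agent.Q97.UM.Ap

open Filter Topology MeasureTheory Complex
open Pool.Agent.TH223.AP
open Pool.Agent.H295R2 (JJ JW ww ee)
open Pool.Agent.W120.WM (ZC NT)

noncomputable section

/-- the mean of a product of two exponentials -/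
lemma cross (l m : ℝ) : Tendsto (fun V : ℝ => (∫ v in (0:ℝ)..V, ex l v * (starRingEnd ℂ) (ex m v)) / (V : ℂ)) atTop
    (𝓝 (if l = m then 1 else 0)) := by
  have h : ∀ v : ℝ, ex l v * (starRingEnd ℂ) (ex m v) = ex (l - m) v := by
    intro v
    unfold ex
    rw [← Complex.exp_conj, ← Complex.exp_add]
    congr 1
    simp only [map_mul, Complex.conj_I, Complex.conj_ofReal]
    push_cast
    ring
  simp only [h]
  have h1 := mean_ex (l - m)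
  by_cases hlm : l = m
  · simpa [hlm] using h1
  · have : l - m ≠ 0 := sub_ne_zero.2 hlm
    simpa [hlm, this] using h1

/-- the mean square of a trigonometric polynomial -/
theorem trig_lim (K : Finset ℝ) (a : ℝ → ℂ) : Tendsto (mn fun v => ‖trig K a v‖ ^ 2) atTop (𝓝 (∑ l ∈ K, ‖a l‖ ^ 2)) := by
  classical
  have e1 : ∀ V : ℝ, ((mn (fun v => ‖trig K a v‖ ^ 2) V : ℝ) : ℂ) =
      ∑ l ∈ K, ∑ m ∈ K, a l * (starRingEnd ℂ) (a m) * ((∫ v in (0:ℝ)..V, ex l v * (starRingEnd ℂ) (ex m v)) / (V : ℂ)) := by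
    intro V
    unfold mn
    push_cast
    rw [← intervalIntegral.integral_ofReal]
    have e2 : ∀ v : ℝ, (((‖trig K a v‖ ^ 2 : ℝ)) : ℂ) =
        ∑ l ∈ K, ∑ m ∈ K, a l * (starRingEnd ℂ) (a m) * (ex l v * (starRingEnd ℂ) (ex m v)) := by
      intro v
      rw [← Complex.normSq_eq_norm_sq, ← Complex.mul_conj]
      unfold trig
      rw [map_sum, Finset.sum_mul_sum]
      refine Finset.sum_congr rfl fun l _ => Finset.sum_congr rfl fun m _ => ?_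
      unfold ex
      rw [map_mul]
      ring
    simp only [e2]
    rw [intervalIntegral.integral_finsetSum]
    · rw [Finset.sum_div]
      refine Finset.sum_congr rfl fun l _ => ?_
      rw [intervalIntegral.integral_finsetSum]
      · rw [Finset.sum_div]
        refine Finset.sum_congr rfl fun m _ => ?_
        rw [intervalIntegral.integral_const_mul, mul_div_assoc]
      · intro m _
        apply Continuous.intervalIntegrable
        have h1 := ex_cont l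
        have h2 := ex_cont m
        fun_prop
    · intro l _
      apply Continuous.intervalIntegrable
      have h1 := ex_cont l
      refine continuous_finsetSum _ fun m _ => ?_
      have h2 := ex_cont m
      fun_prop
  have h1 : Tendsto (fun V : ℝ => ((mn (fun v => ‖trig K a v‖ ^ 2) V : ℝ) : ℂ)) atTop
      (𝓝 (∑ l ∈ K, ∑ m ∈ K, a l * (starRingEnd ℂ) (a m) * (if l = m then 1 else 0))) := by
    simp only [e1]
    exact tendsto_finsetSum _ fun l _ => tendsto_finsetSum _ fun m _ => (cross l m).const_mul _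
  have e3 : (∑ l ∈ K, ∑ m ∈ K, a l * (starRingEnd ℂ) (a m) * (if l = m then (1:ℂ) else 0)) = ((∑ l ∈ K, ‖a l‖ ^ 2 : ℝ) : ℂ) := by
    push_cast
    refine Finset.sum_congr rfl fun l hl => ?_
    simp only [mul_ite, mul_one, mul_zero, Finset.sum_ite_eq, hl, if_true]
    rw [Complex.mul_conj, Complex.normSq_eq_norm_sq]
    push_cast
    ring
  rw [e3] at h1
  have h2 := (Complex.continuous_re.tendsto _).comp h1
  simp only [Function.comp_def, Complex.ofReal_re] at h2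
  exact h2

/-- a finite sum over zeros on the critical line is a trigonometric polynomial -/
lemma sum_trig' (Z : Finset ℂ) (hZ : ∀ ρ ∈ Z, ρ.re = 1 / 2) (w : ℂ → ℂ) (v : ℝ) :
    ∑ ρ ∈ Z, w ρ * ee ρ v = trig (Z.image Complex.im) (fun l => w (⟨1 / 2, l⟩ : ℂ)) v := by
  classical
  have heq : ∀ ρ ∈ Z, (⟨1 / 2, ρ.im⟩ : ℂ) = ρ := fun ρ hρ => by
    apply Complex.ext
    · simp [hZ ρ hρ]
    · rfl
  unfold trig
  rw [Finset.sum_image]
  · refine Finset.sum_congr rfl fun ρ hρ => ?_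
    show w ρ * ee ρ v = w (⟨1 / 2, ρ.im⟩ : ℂ) * _
    rw [heq ρ hρ]
    congr 1
    unfold ee
    congr 1
    have : ρ - 1 / 2 = I * ρ.im := by
      apply Complex.ext
      · simp [hZ ρ hρ]
      · simp
    rw [this]
  · intro ρ hρ ρ' hρ' h
    rw [← heq ρ hρ, ← heq ρ' hρ', h]

/-- functions approximated by sums over zeros are far from every trigonometric polynomial with other frequencies -/
theorem low_gen {F : ℝ → ℂ} (hF : ∀ V : ℝ, 0 ≤ V → ∀ (K : Finset ℝ) (a : ℝ → ℂ), IntervalIntegrable (fun v => ‖F v - trig K a v‖ ^ 2) volume 0 V)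
    (c : ℂ → ℂ) (Z' : Finset ℂ) (hZ' : ∀ ρ ∈ Z', ρ.re = 1 / 2)
    (hap : ∀ ε : ℝ, 0 < ε → ∃ Z : Finset ℂ, Z' ⊆ Z ∧ (∀ ρ ∈ Z, ρ.re = 1 / 2) ∧ ∀ᶠ V : ℝ in atTop, mn (fun v => ‖F v - ∑ ρ ∈ Z, c ρ * ee ρ v‖ ^ 2) V ≤ ε)
    (K : Finset ℝ) (a : ℝ → ℂ) (hK : ∀ ρ ∈ Z', ρ.im ∉ K) (ε : ℝ) (hε : 0 < ε) :
    ∀ᶠ V : ℝ in atTop, ∑ ρ ∈ Z', ‖c ρ‖ ^ 2 - ε ≤ mn (fun v => ‖F v - trig K a v‖ ^ 2) V := by
  classical
  obtain ⟨S, hS⟩ : ∃ S : ℝ, S = ∑ ρ ∈ Z', ‖c ρ‖ ^ 2 := ⟨_, rfl⟩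
  have hS0 : 0 ≤ S := by rw [hS]; exact Finset.sum_nonneg fun _ _ => by positivity
  obtain ⟨η, hη⟩ : ∃ η : ℝ, η = ε / (2 * (S + 1)) := ⟨_, rfl⟩
  have hη0 : 0 < η := by rw [hη]; positivity
  have hηS : η * S ≤ ε / 2 := by
    rw [hη, div_mul_eq_mul_div, div_le_iff₀ (by positivity)]
    nlinarith
  obtain ⟨Z, hZZ, hZre, hZ⟩ := hap (η * ε / 4) (by positivity)
  -- the difference of the two trigonometric polynomials
  set K₁ : Finset ℝ := Z.image Complex.im with hK₁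
  set b : ℝ → ℂ := fun l => (if l ∈ K₁ then c (⟨1 / 2, l⟩ : ℂ) else 0) - (if l ∈ K then a l else 0) with hb
  have hdiff : ∀ v : ℝ, (∑ ρ ∈ Z, c ρ * ee ρ v) - trig K a v = trig (K₁ ∪ K) b v := by
    intro v
    rw [sum_trig' Z hZre c v]
    unfold trig
    simp only [hb, sub_mul, Finset.sum_sub_distrib, ite_mul, zero_mul]
    congr 1
    · rw [← Finset.sum_filter]
      refine Finset.sum_congr ?_ fun _ _ => rfl
      ext l
      simp only [Finset.mem_filter, Finset.mem_union]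
      tauto
    · rw [← Finset.sum_filter]
      refine Finset.sum_congr ?_ fun _ _ => rfl
      ext l
      simp only [Finset.mem_filter, Finset.mem_union]
      tauto
  have hlow : S ≤ ∑ l ∈ K₁ ∪ K, ‖b l‖ ^ 2 := by
    have heq : ∀ ρ ∈ Z', (⟨1 / 2, ρ.im⟩ : ℂ) = ρ := fun ρ hρ => by
      apply Complex.ext
      · simp [hZ' ρ hρ]
      · rfl
    have h1 : ∑ ρ ∈ Z', ‖c ρ‖ ^ 2 = ∑ l ∈ Z'.image Complex.im, ‖b l‖ ^ 2 := by
      rw [Finset.sum_image]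
      · refine Finset.sum_congr rfl fun ρ hρ => ?_
        have h2 : ρ.im ∈ K₁ := Finset.mem_image_of_mem _ (hZZ hρ)
        simp only [hb, h2, hK ρ hρ, if_true, if_false, sub_zero, heq ρ hρ]
      · intro ρ hρ ρ' hρ' h
        rw [← heq ρ hρ, ← heq ρ' hρ', h]
    rw [hS, h1]
    refine Finset.sum_le_sum_of_subset_of_nonneg ?_ (fun _ _ _ => by positivity)
    intro l hl
    rw [Finset.mem_union]
    left
    rw [Finset.mem_image] at hl
    obtain ⟨ρ, hρ, rfl⟩ := hl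
    exact Finset.mem_image_of_mem _ (hZZ hρ)
  have hT := trig_lim (K₁ ∪ K) b
  have hT2 : ∀ᶠ V : ℝ in atTop, S - ε / 4 ≤ mn (fun v => ‖trig (K₁ ∪ K) b v‖ ^ 2) V :=
    hT.eventually_const_le (by linarith)
  filter_upwards [hZ, hT2, eventually_gt_atTop 0] with V h1 h2 hV
  have hi1 : IntervalIntegrable (fun v => ‖F v - trig K a v‖ ^ 2) volume 0 V := hF V hV.le K a
  have hi2 : IntervalIntegrable (fun v => ‖F v - ∑ ρ ∈ Z, c ρ * ee ρ v‖ ^ 2) volume 0 V := by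
    have := hF V hV.le K₁ (fun l => c (⟨1 / 2, l⟩ : ℂ))
    refine this.congr ?_
    intro v _
    show ‖F v - trig K₁ (fun l => c (⟨1 / 2, l⟩ : ℂ)) v‖ ^ 2 = ‖F v - ∑ ρ ∈ Z, c ρ * ee ρ v‖ ^ 2
    rw [sum_trig' Z hZre c v]
  have hi3 : IntervalIntegrable (fun v => ‖trig (K₁ ∪ K) b v‖ ^ 2) volume 0 V := by
    apply Continuous.intervalIntegrable
    have := trig_cont (K₁ ∪ K) b
    fun_prop
  have h3 : mn (fun v => ‖trig (K₁ ∪ K) b v‖ ^ 2) V ≤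
      mn (fun v => (1 + η) * ‖F v - trig K a v‖ ^ 2 + (1 + 1 / η) * ‖F v - ∑ ρ ∈ Z, c ρ * ee ρ v‖ ^ 2) V := by
    refine mn_mono hV hi3 ((hi1.const_mul _).add (hi2.const_mul _)) fun v _ => ?_
    set x := ‖F v - trig K a v‖ with hx
    set y := ‖F v - ∑ ρ ∈ Z, c ρ * ee ρ v‖ with hy
    have h4 : ‖trig (K₁ ∪ K) b v‖ ≤ x + y := by
      rw [← hdiff v]
      have : (∑ ρ ∈ Z, c ρ * ee ρ v) - trig K a v = (F v - trig K a v) - (F v - ∑ ρ ∈ Z, c ρ * ee ρ v) := by ring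
      rw [this]
      exact norm_sub_le _ _
    have h5 : ‖trig (K₁ ∪ K) b v‖ ^ 2 ≤ (x + y) ^ 2 := pow_le_pow_left₀ (norm_nonneg _) h4 2
    have h6 : 0 ≤ (η * x - y) ^ 2 / η := by positivity
    have h7 : (η * x - y) ^ 2 / η = η * x ^ 2 - 2 * x * y + 1 / η * y ^ 2 := by
      field_simp
      ring
    rw [h7] at h6
    nlinarith
  rw [mn_add (hi1.const_mul _) (hi2.const_mul _), mn_const_mul, mn_const_mul] at h3
  set X := mn (fun v => ‖F v - trig K a v‖ ^ 2) V with hX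
  set Y := mn (fun v => ‖F v - ∑ ρ ∈ Z, c ρ * ee ρ v‖ ^ 2) V with hY
  rw [← hS]
  have h8 : (1 + 1 / η) * Y ≤ (1 + 1 / η) * (η * ε / 4) := mul_le_mul_of_nonneg_left h1 (by positivity)
  have h9 : (1 + 1 / η) * (η * ε / 4) = (1 + η) * (ε / 4) := by
    field_simp
    ring
  have h10 : (1 + η) * (S - ε) ≤ (1 + η) * X := by
    have : (1 + η) * (S - ε) = S + η * S - ε - η * ε := by ring
    nlinarith
  exact le_of_mul_le_mul_left h10 (by linarith)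

/-- `∑ 1 / |ρ ζ'(ρ)|²` over a dyadic block of simple critical zeros -/
theorem block : ∃ c T₀ : ℝ, 0 < c ∧ 1 ≤ T₀ ∧ ∀ T : ℝ, T₀ ≤ T → ∃ Z : Finset ℂ,
    (∀ ρ ∈ Z, ρ ∈ NT ∧ ρ.re = 1 / 2 ∧ T < ρ.im ∧ ρ.im ≤ 2 * T ∧ deriv riemannZeta ρ ≠ 0) ∧ c / T ≤ ∑ ρ ∈ Z, ‖ww ρ‖ ^ 2 := by
  obtain ⟨d, hd, hd1, h⟩ := J_low
  obtain ⟨c, hc, h1⟩ := h 1 le_rfl
  obtain ⟨T₀, hT₀⟩ := eventually_atTop.1 (h1.and (eventually_ge_atTop (16 : ℝ)))
  refine ⟨c / 5, max T₀ 16, by positivity, le_trans (by norm_num) (le_max_right _ _), ?_⟩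
  intro T hT
  obtain ⟨h2, h3⟩ := hT₀ T ((le_max_left _ _).trans hT)
  have h4 := h2 (-1) (by norm_num)
  have hmem : ∀ ρ ∈ ZI d T, ρ ∈ NT ∧ ρ.re = 1 / 2 ∧ T < ρ.im ∧ ρ.im ≤ 2 * T ∧ deriv riemannZeta ρ ≠ 0 := by
    intro ρ hρ
    rw [mem_ZI_iff h3 hd1] at hρ
    obtain ⟨a1, a2, a3, a4, a5, _⟩ := hρ
    exact ⟨⟨a4, by rw [a1]; norm_num, by rw [a1]; norm_num⟩, a1, a2, a3, a5⟩
  refine ⟨ZI d T, hmem, ?_⟩
  have h5 : c * T ≤ ∑ s ∈ ZI d T, ‖deriv riemannZeta s‖ ^ (2 * (-1) : ℝ) := by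
    have : c * T * Real.log T ^ (((-1 : ℝ) + 1) ^ 2) = c * T := by norm_num
    rw [this] at h4
    exact h4
  have h6 : ∀ ρ ∈ ZI d T, ‖deriv riemannZeta ρ‖ ^ (2 * (-1) : ℝ) ≤ 5 * T ^ 2 * ‖ww ρ‖ ^ 2 := by
    intro ρ hρ
    obtain ⟨_, a1, a2, a3, a5⟩ := hmem ρ hρ
    have hd0 : 0 < ‖deriv riemannZeta ρ‖ := norm_pos_iff.2 a5
    have e1 : ‖deriv riemannZeta ρ‖ ^ (2 * (-1) : ℝ) = 1 / ‖deriv riemannZeta ρ‖ ^ 2 := by
      rw [show (2 * (-1) : ℝ) = -((2 : ℕ) : ℝ) by norm_num, Real.rpow_neg hd0.le, Real.rpow_natCast, one_div]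
    rw [e1, ww_sq, norm_mul, mul_pow]
    have hρ2 : ‖ρ‖ ^ 2 ≤ 5 * T ^ 2 := by
      rw [← Complex.normSq_eq_norm_sq, Complex.normSq_apply, a1]
      nlinarith
    have hρ0 : 0 < ‖ρ‖ ^ 2 := by
      rw [← Complex.normSq_eq_norm_sq, Complex.normSq_apply, a1]
      nlinarith
    rw [div_le_iff₀ (by positivity)]
    have : 5 * T ^ 2 * (1 / (‖ρ‖ ^ 2 * ‖deriv riemannZeta ρ‖ ^ 2)) * ‖deriv riemannZeta ρ‖ ^ 2 = 5 * T ^ 2 / ‖ρ‖ ^ 2 := by
      field_simp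
    rw [this, le_div_iff₀ hρ0]
    linarith
  have h7 : c * T ≤ 5 * T ^ 2 * ∑ ρ ∈ ZI d T, ‖ww ρ‖ ^ 2 := by
    rw [Finset.mul_sum]
    exact h5.trans (Finset.sum_le_sum h6)
  have hT0 : 0 < T := by linarith
  rw [div_le_iff₀ hT0]
  have h8 : c ≤ 5 * T * ∑ ρ ∈ ZI d T, ‖ww ρ‖ ^ 2 := by
    have : c * T ≤ (5 * T * ∑ ρ ∈ ZI d T, ‖ww ρ‖ ^ 2) * T := by linarith
    exact le_of_mul_le_mul_right this hT0
  linarith

/-- integrability -/
lemma ft_int (V : ℝ) (hV : 0 ≤ V) (K : Finset ℝ) (a : ℝ → ℂ) :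
    IntervalIntegrable (fun v => ‖((ft v : ℝ) : ℂ) - trig K a v‖ ^ 2) volume 0 V := by
  have := ft_LB.normsq (trig_cont K a)
  exact this.ii hV

/-- approximation by sums over large finite sets of zeros -/
lemma ft_ap (hZ : ZC) (Z' : Finset ℂ) (hZ' : ∀ ρ ∈ Z', ρ ∈ NT) (ε : ℝ) (hε : 0 < ε) :
    ∃ Z : Finset ℂ, Z' ⊆ Z ∧ (∀ ρ ∈ Z, ρ.re = 1 / 2) ∧ ∀ᶠ V : ℝ in atTop, mn (fun v => ‖((ft v : ℝ) : ℂ) - ∑ ρ ∈ Z, ww ρ * ee ρ v‖ ^ 2) V ≤ ε := by
  classical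
  have h1 : ∃ u : Finset NT, (∀ ρ : NT, (ρ : ℂ) ∈ Z' → ρ ∈ u) ∧ Pool.Agent.TH223.AP.SS - ∑ ρ ∈ u, 1 / ‖(ρ : ℂ) * deriv riemannZeta ρ‖ ^ 2 < ε := by
    have h2 := hZ.2.hasSum
    have h3 := (Metric.tendsto_nhds.1 h2 ε hε).and (eventually_ge_atTop (Z'.subtype (· ∈ NT)))
    obtain ⟨u, hu, hu2⟩ := h3.exists
    refine ⟨u, ?_, ?_⟩
    · intro ρ hρ
      exact hu2 (Finset.mem_subtype.2 hρ)
    · rw [Real.dist_eq, abs_lt] at hu
      have h4 := hu.1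
      unfold Pool.Agent.TH223.AP.SS
      linarith
  obtain ⟨u, hu0, hu⟩ := h1
  obtain ⟨Z, hZdef⟩ : ∃ Z : Finset ℂ, Z = u.map (Function.Embedding.subtype _) := ⟨_, rfl⟩
  have hZN : ∀ ρ ∈ Z, ρ ∈ NT := by
    intro ρ hρ
    rw [hZdef, Finset.mem_map] at hρ
    obtain ⟨ρ', -, rfl⟩ := hρ
    exact ρ'.2
  have hsum : ∑ ρ ∈ Z, 1 / ‖ρ * deriv riemannZeta ρ‖ ^ 2 = ∑ ρ ∈ u, 1 / ‖(ρ : ℂ) * deriv riemannZeta ρ‖ ^ 2 := by
    rw [hZdef, Finset.sum_map]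
    rfl
  have h2 := dist_lim' hZ Z hZN
  rw [hsum] at h2
  refine ⟨Z, ?_, fun ρ hρ => (hZ.1 ρ (hZN ρ hρ)).1, ?_⟩
  · intro ρ hρ
    rw [hZdef, Finset.mem_map]
    exact ⟨⟨ρ, hZ' ρ hρ⟩, hu0 _ hρ, rfl⟩
  · filter_upwards [h2.eventually (gt_mem_nhds hu)] with V hV
    exact hV.le

/-- without the condition on the zeros the mean square is infinite -/
lemma ft_inf (hZ : ¬ ZC) (C : ℝ) : ∀ᶠ V : ℝ in atTop, C ≤ mn (fun v => ft v ^ 2) V := by
  by_contra h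
  rw [not_eventually] at h
  exact hZ (ZC_of_freq (C := C) (h.mono fun V hV => (not_le.1 hV).le))

/-- MAIN LOWER BOUND A: the distance of `M(e^v) e^{-v/2}` to the trigonometric polynomials of degree `T` -/
theorem approx : ∃ c : ℝ, 0 < c ∧ ∀ T : ℝ, 1 ≤ T → ∀ (K : Finset ℝ) (a : ℝ → ℂ), (∀ l ∈ K, |l| ≤ T) →
    ∀ᶠ V : ℝ in atTop, c / T ≤ mn (fun v => ‖((ft v : ℝ) : ℂ) - trig K a v‖ ^ 2) V := by
  obtain ⟨c, T₀, hc, hT₀, h⟩ := block
  refine ⟨c / (4 * T₀), by positivity, ?_⟩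
  intro T hT K a hK
  by_cases hZ : ZC
  · set T₁ : ℝ := max T T₀ with hT₁
    have hT₁0 : 0 < T₁ := lt_of_lt_of_le (by linarith) (le_max_left T T₀)
    obtain ⟨Z', hZ', hs⟩ := h T₁ (le_max_right _ _)
    have h1 := low_gen (F := fun v => ((ft v : ℝ) : ℂ)) (fun V hV K a => ft_int V hV K a) ww Z' (fun ρ hρ => (hZ' ρ hρ).2.1)
      (fun ε hε => ft_ap hZ Z' (fun ρ hρ => (hZ' ρ hρ).1) ε hε) K a (fun ρ hρ hin => by
        have h2 := hK _ hin
        have h3 := (hZ' ρ hρ).2.2.1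
        have h4 : T ≤ T₁ := le_max_left _ _
        rw [abs_le] at h2
        linarith) (c / T₁ / 4) (by positivity)
    filter_upwards [h1] with V h2
    refine le_trans ?_ h2
    have h5 : 0 < c / T₁ := by positivity
    have h3 : T₁ ≤ T * T₀ := by
      apply max_le
      · nlinarith
      · nlinarith
    have h4 : c / (4 * T₀) / T ≤ c / T₁ / 4 := by
      rw [div_div, div_div]
      apply div_le_div_of_nonneg_left hc.le (by positivity)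
      nlinarith
    linarith
  · -- the mean square is infinite
    set A : ℝ := ∑ l ∈ K, ‖a l‖ with hA
    have hA0 : 0 ≤ A := Finset.sum_nonneg fun _ _ => norm_nonneg _
    filter_upwards [ft_inf hZ (2 * (c / (4 * T₀) / T + A ^ 2)), eventually_gt_atTop 0] with V h1 hV
    have hi1 := ft_int V hV.le K a
    have hi2 : IntervalIntegrable (fun v => ft v ^ 2) volume 0 V := ft_LB.sq.ii hV.le
    have h2 : mn (fun v => ft v ^ 2) V ≤ mn (fun v => 2 * ‖((ft v : ℝ) : ℂ) - trig K a v‖ ^ 2 + 2 * A ^ 2) V := by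
      refine mn_mono hV hi2 ((hi1.const_mul 2).add intervalIntegrable_const) fun v _ => ?_
      have h3 : |ft v| ≤ ‖((ft v : ℝ) : ℂ) - trig K a v‖ + A := by
        have h4 : ‖((ft v : ℝ) : ℂ)‖ = |ft v| := by rw [Complex.norm_real, Real.norm_eq_abs]
        rw [← h4]
        have h5 : ((ft v : ℝ) : ℂ) = (((ft v : ℝ) : ℂ) - trig K a v) + trig K a v := by ring
        calc ‖((ft v : ℝ) : ℂ)‖ ≤ ‖((ft v : ℝ) : ℂ) - trig K a v‖ + ‖trig K a v‖ := by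
              conv_lhs => rw [h5]
              exact norm_add_le _ _
          _ ≤ _ := by linarith [trig_bound K a v]
      have h6 : ft v ^ 2 ≤ (‖((ft v : ℝ) : ℂ) - trig K a v‖ + A) ^ 2 := by
        rw [← sq_abs (ft v)]
        exact pow_le_pow_left₀ (abs_nonneg _) h3 2
      nlinarith [sq_nonneg (‖((ft v : ℝ) : ℂ) - trig K a v‖ - A)]
    rw [mn_add (hi1.const_mul 2) intervalIntegrable_const, mn_const_mul, mn_const _ hV] at h2
    linarith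

end

end Pool.Agent.Q97.UM.Ap
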