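import Pool.Agent.Q97.UM.Ap

set_option autoImplicit false

/-! Project UM: the increments of `M(e^v) e^{-v/2}`. -/

namespace Pool.Agent.Q97.UM.Ap

open Filter Topology MeasureTheory Complex
open Pool.Agent.TH223.AP
open Pool.Agent.H295R2 (JJ JW ww ee)
open Pool.Agent.W120.WM (ZC NT)

noncomputable section

/-- `e^{-v/2} (M(e^{v+δ}) - M(e^v))` -/
def gd (δ v : ℝ) : ℝ := Real.exp (δ / 2) * ft (v + δ) - ft v

lemma sh_LB {δ : ℝ} (hδ : 0 < δ) : LB (fun v => ft (v + δ)) := by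
  refine ⟨ft_LB.meas.comp (measurable_id.add_const δ), fun V => ?_⟩
  obtain ⟨B, hB⟩ := ft_LB.bdd (V + δ)
  exact ⟨B, fun v hv => hB (v + δ) ⟨by linarith [hv.1], by linarith [hv.2]⟩⟩

lemma gd_LB {δ : ℝ} (hδ : 0 < δ) : LB (gd δ) := ((sh_LB hδ).const_mul _).sub ft_LB

lemma gd_int {δ : ℝ} (hδ : 0 < δ) (V : ℝ) (hV : 0 ≤ V) (K : Finset ℝ) (a : ℝ → ℂ) :
    IntervalIntegrable (fun v => ‖((gd δ v : ℝ) : ℂ) - trig K a v‖ ^ 2) volume 0 V :=
  ((gd_LB hδ).normsq (trig_cont K a)).ii hV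

/-- the multiplier of the increments -/
def md (δ : ℝ) (ρ : ℂ) : ℂ := ww ρ * (cexp (δ * ρ) - 1)

lemma ee_shift (ρ : ℂ) (v δ : ℝ) : ee ρ (v + δ) = ee ρ v * cexp ((ρ - 1 / 2) * δ) := by
  unfold ee
  rw [← Complex.exp_add]
  congr 1
  push_cast
  ring

lemma gd_ap (hZ : ZC) {δ : ℝ} (hδ : 0 < δ) (Z' : Finset ℂ) (hZ' : ∀ ρ ∈ Z', ρ ∈ NT) (ε : ℝ) (hε : 0 < ε) :
    ∃ Z : Finset ℂ, Z' ⊆ Z ∧ (∀ ρ ∈ Z, ρ.re = 1 / 2) ∧
      ∀ᶠ V : ℝ in atTop, mn (fun v => ‖((gd δ v : ℝ) : ℂ) - ∑ ρ ∈ Z, md δ ρ * ee ρ v‖ ^ 2) V ≤ ε := by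
  classical
  set E : ℝ := Real.exp δ with hE
  have hE0 : 0 < E := Real.exp_pos _
  obtain ⟨Z, hZZ, hre, hZ1⟩ := ft_ap hZ Z' hZ' (ε / (4 * E + 2)) (by positivity)
  refine ⟨Z, hZZ, hre, ?_⟩
  have hZ2 : ∀ᶠ V : ℝ in atTop, mn (fun v => ‖((ft v : ℝ) : ℂ) - ∑ ρ ∈ Z, ww ρ * ee ρ v‖ ^ 2) (V + δ) ≤ ε / (4 * E + 2) :=
    (tendsto_atTop_add_const_right atTop δ tendsto_id).eventually hZ1
  set D : ℝ → ℝ := fun v => ‖((ft v : ℝ) : ℂ) - ∑ ρ ∈ Z, ww ρ * ee ρ v‖ ^ 2 with hD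
  have hDLB : LB D := by
    have h1 := ft_LB.normsq (trig_cont (Z.image Complex.im) (fun l => ww (⟨1 / 2, l⟩ : ℂ)))
    have : D = fun v => ‖((ft v : ℝ) : ℂ) - trig (Z.image Complex.im) (fun l => ww (⟨1 / 2, l⟩ : ℂ)) v‖ ^ 2 := by
      funext v
      rw [hD]
      simp only
      rw [sum_trig' Z hre ww v]
    rw [this]
    exact h1
  have hD0 : ∀ v, 0 ≤ D v := fun v => by positivity
  have hDsh : LB (fun v => D (v + δ)) := by
    refine ⟨hDLB.meas.comp (measurable_id.add_const δ), fun V => ?_⟩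
    obtain ⟨B, hB⟩ := hDLB.bdd (V + δ)
    exact ⟨B, fun v hv => hB (v + δ) ⟨by linarith [hv.1], by linarith [hv.2]⟩⟩
  filter_upwards [hZ1, hZ2, eventually_gt_atTop δ] with V h1 h2 hV
  have hV0 : 0 < V := by linarith
  have hi1 : IntervalIntegrable D volume 0 V := hDLB.ii hV0.le
  have hi2 : IntervalIntegrable (fun v => D (v + δ)) volume 0 V := hDsh.ii hV0.le
  have hi3 : IntervalIntegrable (fun v => ‖((gd δ v : ℝ) : ℂ) - ∑ ρ ∈ Z, md δ ρ * ee ρ v‖ ^ 2) volume 0 V := by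
    have := gd_int hδ V hV0.le (Z.image Complex.im) (fun l => md δ (⟨1 / 2, l⟩ : ℂ))
    refine this.congr ?_
    intro v _
    show ‖((gd δ v : ℝ) : ℂ) - trig (Z.image Complex.im) (fun l => md δ (⟨1 / 2, l⟩ : ℂ)) v‖ ^ 2 =
      ‖((gd δ v : ℝ) : ℂ) - ∑ ρ ∈ Z, md δ ρ * ee ρ v‖ ^ 2
    rw [sum_trig' Z hre (md δ) v]
  -- the pointwise inequality
  have hpt : ∀ v, ‖((gd δ v : ℝ) : ℂ) - ∑ ρ ∈ Z, md δ ρ * ee ρ v‖ ^ 2 ≤ 2 * E * D (v + δ) + 2 * D v := by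
    intro v
    have e1 : ((gd δ v : ℝ) : ℂ) - ∑ ρ ∈ Z, md δ ρ * ee ρ v =
        (Real.exp (δ / 2) : ℝ) * (((ft (v + δ) : ℝ) : ℂ) - ∑ ρ ∈ Z, ww ρ * ee ρ (v + δ)) - (((ft v : ℝ) : ℂ) - ∑ ρ ∈ Z, ww ρ * ee ρ v) := by
      have e2 : ∑ ρ ∈ Z, md δ ρ * ee ρ v = (Real.exp (δ / 2) : ℝ) * (∑ ρ ∈ Z, ww ρ * ee ρ (v + δ)) - ∑ ρ ∈ Z, ww ρ * ee ρ v := by
        rw [Finset.mul_sum, ← Finset.sum_sub_distrib]
        refine Finset.sum_congr rfl fun ρ hρ => ?_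
        rw [ee_shift]
        have e3 : cexp (δ * ρ) = (Real.exp (δ / 2) : ℝ) * cexp ((ρ - 1 / 2) * δ) := by
          rw [Complex.ofReal_exp, ← Complex.exp_add]
          congr 1
          push_cast
          ring
        unfold md
        rw [e3]
        ring
      rw [e2]
      unfold gd
      push_cast
      ring
    rw [e1]
    have h3 : ‖(Real.exp (δ / 2) : ℝ) * (((ft (v + δ) : ℝ) : ℂ) - ∑ ρ ∈ Z, ww ρ * ee ρ (v + δ)) - (((ft v : ℝ) : ℂ) - ∑ ρ ∈ Z, ww ρ * ee ρ v)‖ ≤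
        Real.exp (δ / 2) * ‖((ft (v + δ) : ℝ) : ℂ) - ∑ ρ ∈ Z, ww ρ * ee ρ (v + δ)‖ + ‖((ft v : ℝ) : ℂ) - ∑ ρ ∈ Z, ww ρ * ee ρ v‖ := by
      refine (norm_sub_le _ _).trans ?_
      rw [norm_mul, Complex.norm_real, Real.norm_eq_abs, abs_of_pos (Real.exp_pos _)]
    have h4 := pow_le_pow_left₀ (norm_nonneg _) h3 2
    refine h4.trans ?_
    have hEE : E = Real.exp (δ / 2) ^ 2 := by
      rw [hE, ← Real.exp_nat_mul]
      congr 1
      push_cast
      ring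
    rw [hD]
    simp only
    rw [hEE]
    nlinarith [sq_nonneg (Real.exp (δ / 2) * ‖((ft (v + δ) : ℝ) : ℂ) - ∑ ρ ∈ Z, ww ρ * ee ρ (v + δ)‖ - ‖((ft v : ℝ) : ℂ) - ∑ ρ ∈ Z, ww ρ * ee ρ v‖)]
  have h5 : mn (fun v => ‖((gd δ v : ℝ) : ℂ) - ∑ ρ ∈ Z, md δ ρ * ee ρ v‖ ^ 2) V ≤ mn (fun v => 2 * E * D (v + δ) + 2 * D v) V :=
    mn_mono hV0 hi3 ((hi2.const_mul _).add (hi1.const_mul _)) fun v _ => hpt v
  rw [mn_add (hi2.const_mul _) (hi1.const_mul _), mn_const_mul, mn_const_mul] at h5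
  have h6 : mn (fun v => D (v + δ)) V ≤ 2 * mn D (V + δ) := by
    unfold mn
    have e1 : (∫ v in (0:ℝ)..V, D (v + δ)) = ∫ v in δ..(V + δ), D v := by
      rw [intervalIntegral.integral_comp_add_right D δ, zero_add]
    have e2 : (∫ v in δ..(V + δ), D v) ≤ ∫ v in (0:ℝ)..(V + δ), D v := by
      have h7 : IntervalIntegrable D volume 0 δ := hDLB.ii hδ.le
      have h8 : IntervalIntegrable D volume 0 (V + δ) := hDLB.ii (by linarith)
      have h9 : IntervalIntegrable D volume δ (V + δ) := h7.symm.trans h8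
      rw [← intervalIntegral.integral_add_adjacent_intervals h7 h9]
      have : 0 ≤ ∫ v in (0:ℝ)..δ, D v := intervalIntegral.integral_nonneg hδ.le fun v _ => hD0 v
      linarith
    have e3 : 0 ≤ ∫ v in (0:ℝ)..(V + δ), D v := intervalIntegral.integral_nonneg (by linarith) fun v _ => hD0 v
    rw [e1, div_le_iff₀ hV0]
    refine e2.trans ?_
    have e4 : 2 * ((∫ v in (0:ℝ)..(V + δ), D v) / (V + δ)) * V = (∫ v in (0:ℝ)..(V + δ), D v) * (2 * V / (V + δ)) := by ring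
    rw [e4]
    have e5 : 1 ≤ 2 * V / (V + δ) := by
      rw [le_div_iff₀ (by linarith)]
      linarith
    nlinarith
  have h7 : 2 * E * mn (fun v => D (v + δ)) V ≤ 2 * E * (2 * (ε / (4 * E + 2))) :=
    mul_le_mul_of_nonneg_left (h6.trans (by linarith [h2])) (by positivity)
  have h8 : 2 * E * (2 * (ε / (4 * E + 2))) + 2 * (ε / (4 * E + 2)) = ε := by
    field_simp
    ring
  have h9 : mn D V ≤ ε / (4 * E + 2) := h1
  linarith

/-- without the condition on the zeros the mean square of the increments is infinite -/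
lemma gd_inf (hZ : ¬ ZC) {δ : ℝ} (hδ : 0 < δ) (C : ℝ) : ∀ᶠ V : ℝ in atTop, C ≤ mn (fun v => gd δ v ^ 2) V := by
  set η : ℝ := Real.exp (δ / 2) - 1 with hη
  have hη0 : 0 < η := by
    have := Real.add_one_lt_exp (x := δ / 2) (by positivity)
    linarith
  set r : ℝ := Real.exp (-(δ / 2)) with hr
  have hr0 : 0 < r := Real.exp_pos _
  have hr1 : r < 1 := by
    rw [hr]
    calc Real.exp (-(δ / 2)) < Real.exp 0 := Real.exp_lt_exp.2 (by linarith)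
      _ = 1 := Real.exp_zero
  set C₁ : ℝ := Real.exp (-δ) * (1 + 1 / η) with hC₁
  have hC₁0 : 0 < C₁ := by positivity
  set F : ℝ := ∫ v in (0:ℝ)..δ, ft v ^ 2 with hF
  have hF0 : 0 ≤ F := intervalIntegral.integral_nonneg hδ.le fun v _ => by positivity
  filter_upwards [ft_inf hZ ((C₁ * |C| + F) / (1 - r)), eventually_gt_atTop 1] with V h1 hV
  have hV0 : 0 < V := by linarith
  have hi1 : IntervalIntegrable (fun v => ft v ^ 2) volume 0 V := ft_LB.sq.ii hV0.le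
  have hi2 : IntervalIntegrable (fun v => gd δ v ^ 2) volume 0 V := (gd_LB hδ).sq.ii hV0.le
  have hi3 : IntervalIntegrable (fun v => ft (v + δ) ^ 2) volume 0 V := (sh_LB hδ).sq.ii hV0.le
  have hpt : ∀ v, ft (v + δ) ^ 2 ≤ C₁ * gd δ v ^ 2 + r * ft v ^ 2 := by
    intro v
    have e1 : ft (v + δ) = r * (gd δ v + ft v) := by
      unfold gd
      have : r * Real.exp (δ / 2) = 1 := by
        rw [hr, ← Real.exp_add]
        simp
      linear_combination (-(ft (v + δ))) * this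
    have e2 : r ^ 2 = Real.exp (-δ) := by
      rw [hr, ← Real.exp_nat_mul]
      congr 1
      push_cast
      ring
    have e3 : r = Real.exp (-δ) * (1 + η) := by
      rw [hη, hr]
      have : (1 : ℝ) + (Real.exp (δ / 2) - 1) = Real.exp (δ / 2) := by ring
      rw [this, ← Real.exp_add]
      congr 1
      ring
    have e4 : (gd δ v + ft v) ^ 2 ≤ (1 + 1 / η) * gd δ v ^ 2 + (1 + η) * ft v ^ 2 := by
      have h2 : 0 ≤ (gd δ v - η * ft v) ^ 2 / η := by positivity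
      have h3 : (gd δ v - η * ft v) ^ 2 / η = 1 / η * gd δ v ^ 2 - 2 * gd δ v * ft v + η * ft v ^ 2 := by
        field_simp
        ring
      rw [h3] at h2
      nlinarith
    calc ft (v + δ) ^ 2 = r ^ 2 * (gd δ v + ft v) ^ 2 := by rw [e1]; ring
      _ = Real.exp (-δ) * (gd δ v + ft v) ^ 2 := by rw [e2]
      _ ≤ Real.exp (-δ) * ((1 + 1 / η) * gd δ v ^ 2 + (1 + η) * ft v ^ 2) := mul_le_mul_of_nonneg_left e4 (Real.exp_pos _).le
      _ = C₁ * gd δ v ^ 2 + (Real.exp (-δ) * (1 + η)) * ft v ^ 2 := by rw [hC₁]; ring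
      _ = C₁ * gd δ v ^ 2 + r * ft v ^ 2 := by rw [← e3]
  have h2 : mn (fun v => ft (v + δ) ^ 2) V ≤ C₁ * mn (fun v => gd δ v ^ 2) V + r * mn (fun v => ft v ^ 2) V := by
    have := mn_mono hV0 hi3 ((hi2.const_mul C₁).add (hi1.const_mul r)) fun v _ => hpt v
    rwa [mn_add (hi2.const_mul C₁) (hi1.const_mul r), mn_const_mul, mn_const_mul] at this
  have h3 : mn (fun v => ft v ^ 2) V - F ≤ mn (fun v => ft (v + δ) ^ 2) V := by
    have e1 : (∫ v in (0:ℝ)..V, ft (v + δ) ^ 2) = ∫ v in δ..(V + δ), ft v ^ 2 := by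
      rw [intervalIntegral.integral_comp_add_right (fun v => ft v ^ 2) δ, zero_add]
    have h7 : IntervalIntegrable (fun v => ft v ^ 2) volume 0 δ := ft_LB.sq.ii hδ.le
    have h8 : IntervalIntegrable (fun v => ft v ^ 2) volume 0 (V + δ) := ft_LB.sq.ii (by linarith)
    have h9 : IntervalIntegrable (fun v => ft v ^ 2) volume δ (V + δ) := h7.symm.trans h8
    have h10 : IntervalIntegrable (fun v => ft v ^ 2) volume V (V + δ) := hi1.symm.trans h8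
    have e2 := intervalIntegral.integral_add_adjacent_intervals h7 h9
    have e3 := intervalIntegral.integral_add_adjacent_intervals hi1 h10
    have e4 : 0 ≤ ∫ v in V..(V + δ), ft v ^ 2 := intervalIntegral.integral_nonneg (by linarith) fun v _ => by positivity
    have e5 : (∫ v in (0:ℝ)..V, ft v ^ 2) - F ≤ ∫ v in (0:ℝ)..V, ft (v + δ) ^ 2 := by
      rw [e1, hF]
      linarith
    unfold mn
    have e6 : ((∫ v in (0:ℝ)..V, ft v ^ 2) - F) / V ≤ (∫ v in (0:ℝ)..V, ft (v + δ) ^ 2) / V := div_le_div_of_nonneg_right e5 hV0.le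
    rw [sub_div] at e6
    have e7 : F / V ≤ F := div_le_self hF0 hV.le
    linarith
  have h4 : (1 - r) * mn (fun v => ft v ^ 2) V ≤ F + C₁ * mn (fun v => gd δ v ^ 2) V := by linarith
  have h5 : C₁ * |C| + F ≤ (1 - r) * mn (fun v => ft v ^ 2) V := by
    rw [div_le_iff₀ (by linarith)] at h1
    linarith
  have h6 : C₁ * |C| ≤ C₁ * mn (fun v => gd δ v ^ 2) V := by linarith
  have h7 : |C| ≤ mn (fun v => gd δ v ^ 2) V := le_of_mul_le_mul_left h6 hC₁0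
  exact (le_abs_self C).trans h7

/-- the multiplier is not small -/
lemma md_low {δ : ℝ} (_hδ : 0 < δ) (ρ : ℂ) (hρ : ρ.re = 1 / 2) : δ / 2 ≤ ‖cexp (δ * ρ) - 1‖ := by
  have h1 : ‖cexp (δ * ρ)‖ = Real.exp (δ / 2) := by
    rw [Complex.norm_exp]
    congr 1
    simp [hρ]
    ring
  have h2 : ‖cexp (δ * ρ)‖ - ‖(1 : ℂ)‖ ≤ ‖cexp (δ * ρ) - 1‖ := norm_sub_norm_le _ _
  rw [h1, norm_one] at h2
  have := Real.add_one_le_exp (δ / 2)
  linarith

lemma md_low2 {δ : ℝ} (hδ : 0 < δ) (ρ : ℂ) (hρ : ρ.re = 1 / 2) (h1 : 1 / (2 * δ) < ρ.im) (h2 : ρ.im ≤ 2 * (1 / (2 * δ))) :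
    1 / 4 ≤ ‖cexp (δ * ρ) - 1‖ := by
  have h3 : |(cexp (δ * ρ) - 1).im| ≤ ‖cexp (δ * ρ) - 1‖ := Complex.abs_im_le_norm _
  have h4 : (cexp (δ * ρ) - 1).im = Real.exp (δ / 2) * Real.sin (δ * ρ.im) := by
    rw [Complex.sub_im, Complex.exp_im]
    simp [hρ]
    left
    ring_nf
  have h5 : 1 / 2 < δ * ρ.im := by
    rw [div_lt_iff₀ (by positivity)] at h1
    linarith
  have h6 : δ * ρ.im ≤ 1 := by
    have : 2 * (1 / (2 * δ)) = 1 / δ := by field_simp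
    rw [this, le_div_iff₀ hδ] at h2
    linarith
  have h7 : 1 / 4 ≤ Real.sin (δ * ρ.im) := by
    have h8 := Real.mul_le_sin (x := δ * ρ.im) (by linarith) (by have := Real.pi_gt_three; linarith)
    have h9 : 1 / 2 ≤ 2 / Real.pi := by
      rw [le_div_iff₀ Real.pi_pos]
      have := Real.pi_lt_four
      linarith
    nlinarith
  have h8 : 1 ≤ Real.exp (δ / 2) := Real.one_le_exp (by positivity)
  rw [h4, abs_of_nonneg (by nlinarith)] at h3
  nlinarith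

/-- MAIN LOWER BOUND B: the increments of `M` -/
theorem incr : ∃ c : ℝ, 0 < c ∧ ∀ δ : ℝ, 0 < δ → δ ≤ 1 → ∀ (K : Finset ℝ) (a : ℝ → ℂ), (∀ l ∈ K, |l| ≤ 1 / (2 * δ)) →
    ∀ᶠ V : ℝ in atTop, c * δ ≤ mn (fun v => ‖((gd δ v : ℝ) : ℂ) - trig K a v‖ ^ 2) V := by
  obtain ⟨c, T₀, hc, hT₀, h⟩ := block
  refine ⟨c / (64 * T₀ ^ 3), by positivity, ?_⟩
  intro δ hδ hδ1 K a hK
  by_cases hZ : ZC
  · set T₁ : ℝ := max (1 / (2 * δ)) T₀ with hT₁
    have hT₁0 : 0 < T₁ := lt_of_lt_of_le (by linarith) (le_max_right (1 / (2 * δ)) T₀)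
    obtain ⟨Z', hZ', hs⟩ := h T₁ (le_max_right _ _)
    have hmult : ∀ ρ ∈ Z', 1 / (4 * T₀) ≤ ‖cexp (δ * ρ) - 1‖ := by
      intro ρ hρ
      obtain ⟨_, a1, a2, a3, _⟩ := hZ' ρ hρ
      rcases le_total (1 / (2 * δ)) T₀ with hle | hle
      · have h1 := md_low hδ ρ a1
        have h2 : 1 / (2 * T₀) ≤ δ := by
          rw [div_le_iff₀ (by positivity)] at hle ⊢
          linarith
        have h3 : 1 / (4 * T₀) = 1 / (2 * T₀) / 2 := by field_simp; norm_num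
        rw [h3]
        linarith
      · have hT : T₁ = 1 / (2 * δ) := max_eq_left hle
        rw [hT] at a2 a3
        have h1 := md_low2 hδ ρ a1 a2 a3
        refine le_trans ?_ h1
        apply div_le_div_of_nonneg_left (by norm_num) (by norm_num)
        linarith
    have hsum : c / (16 * T₀ ^ 2) / T₁ ≤ ∑ ρ ∈ Z', ‖md δ ρ‖ ^ 2 := by
      have h1 : ∀ ρ ∈ Z', 1 / (16 * T₀ ^ 2) * ‖ww ρ‖ ^ 2 ≤ ‖md δ ρ‖ ^ 2 := by
        intro ρ hρ
        unfold md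
        rw [norm_mul, mul_pow, mul_comm]
        apply mul_le_mul_of_nonneg_left _ (by positivity)
        have h2 := pow_le_pow_left₀ (by positivity) (hmult ρ hρ) 2
        refine le_trans (le_of_eq ?_) h2
        field_simp
        norm_num
      calc c / (16 * T₀ ^ 2) / T₁ = 1 / (16 * T₀ ^ 2) * (c / T₁) := by ring
        _ ≤ 1 / (16 * T₀ ^ 2) * ∑ ρ ∈ Z', ‖ww ρ‖ ^ 2 := mul_le_mul_of_nonneg_left hs (by positivity)
        _ ≤ _ := by rw [Finset.mul_sum]; exact Finset.sum_le_sum h1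
    have h1 := low_gen (F := fun v => ((gd δ v : ℝ) : ℂ)) (fun V hV K a => gd_int hδ V hV K a) (md δ) Z' (fun ρ hρ => (hZ' ρ hρ).2.1)
      (fun ε hε => gd_ap hZ hδ Z' (fun ρ hρ => (hZ' ρ hρ).1) ε hε) K a (fun ρ hρ hin => by
        have h2 := hK _ hin
        have h3 := (hZ' ρ hρ).2.2.1
        have h4 : 1 / (2 * δ) ≤ T₁ := le_max_left _ _
        rw [abs_le] at h2
        linarith) (c / (16 * T₀ ^ 2) / T₁ / 4) (by positivity)
    filter_upwards [h1] with V h2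
    refine le_trans ?_ h2
    have h6 : 0 < c / (16 * T₀ ^ 2) / T₁ := by positivity
    have h3 : T₁ ≤ T₀ / δ := by
      apply max_le
      · rw [div_le_div_iff₀ (by positivity) hδ]
        nlinarith
      · rw [le_div_iff₀ hδ]
        nlinarith
    have h4 : c / (64 * T₀ ^ 3) * δ ≤ c / (16 * T₀ ^ 2) / T₁ / 4 := by
      have h5 : δ / T₀ ≤ 1 / T₁ := by
        rw [div_le_div_iff₀ (by positivity) hT₁0]
        rw [le_div_iff₀ hδ] at h3
        linarith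
      calc c / (64 * T₀ ^ 3) * δ = c / (64 * T₀ ^ 2) * (δ / T₀) := by field_simp
        _ ≤ c / (64 * T₀ ^ 2) * (1 / T₁) := mul_le_mul_of_nonneg_left h5 (by positivity)
        _ = c / (16 * T₀ ^ 2) / T₁ / 4 := by field_simp; norm_num
    linarith
  · set A : ℝ := ∑ l ∈ K, ‖a l‖ with hA
    have hA0 : 0 ≤ A := Finset.sum_nonneg fun _ _ => norm_nonneg _
    filter_upwards [gd_inf hZ hδ (2 * (c / (64 * T₀ ^ 3) * δ + A ^ 2)), eventually_gt_atTop 0] with V h1 hV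
    have hi1 := gd_int hδ V hV.le K a
    have hi2 : IntervalIntegrable (fun v => gd δ v ^ 2) volume 0 V := (gd_LB hδ).sq.ii hV.le
    have h2 : mn (fun v => gd δ v ^ 2) V ≤ mn (fun v => 2 * ‖((gd δ v : ℝ) : ℂ) - trig K a v‖ ^ 2 + 2 * A ^ 2) V := by
      refine mn_mono hV hi2 ((hi1.const_mul 2).add intervalIntegrable_const) fun v _ => ?_
      have h3 : |gd δ v| ≤ ‖((gd δ v : ℝ) : ℂ) - trig K a v‖ + A := by
        have h4 : ‖((gd δ v : ℝ) : ℂ)‖ = |gd δ v| := by rw [Complex.norm_real, Real.norm_eq_abs]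
        rw [← h4]
        have h5 : ((gd δ v : ℝ) : ℂ) = (((gd δ v : ℝ) : ℂ) - trig K a v) + trig K a v := by ring
        calc ‖((gd δ v : ℝ) : ℂ)‖ ≤ ‖((gd δ v : ℝ) : ℂ) - trig K a v‖ + ‖trig K a v‖ := by
              conv_lhs => rw [h5]
              exact norm_add_le _ _
          _ ≤ _ := by linarith [trig_bound K a v]
      have h6 : gd δ v ^ 2 ≤ (‖((gd δ v : ℝ) : ℂ) - trig K a v‖ + A) ^ 2 := by
        rw [← sq_abs (gd δ v)]
        exact pow_le_pow_left₀ (abs_nonneg _) h3 2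
      nlinarith [sq_nonneg (‖((gd δ v : ℝ) : ℂ) - trig K a v‖ - A)]
    rw [mn_add (hi1.const_mul 2) intervalIntegrable_const, mn_const_mul, mn_const _ hV] at h2
    linarith

end

end Pool.Agent.Q97.UM.Ap
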