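import Mathlib

set_option autoImplicit false

/-! Project UM: asymptotic facts. -/

namespace Pool.Agent.Q97.UM

open Filter Topology

theorem fl_ev {θ : ℝ} (hθ : 0 < θ) : ∀ᶠ T : ℝ in atTop, 1 < T ∧ 2 ≤ ⌊T ^ θ⌋₊ ∧ θ / 2 * Real.log T ≤ Real.log (⌊T ^ θ⌋₊ : ℝ) ∧
    Real.log (⌊T ^ θ⌋₊ : ℝ) ≤ θ * Real.log T ∧ (⌊T ^ θ⌋₊ : ℝ) ≤ T ^ θ := by
  have h1 : ∀ᶠ T : ℝ in atTop, (4 : ℝ) ≤ T ^ θ := (tendsto_rpow_atTop hθ).eventually_ge_atTop 4
  filter_upwards [h1, eventually_gt_atTop (1 : ℝ)] with T h4 hT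
  have hT0 : 0 < T := by linarith
  have hx0 : 0 < T ^ θ := by linarith
  have hfl : T ^ θ - 1 < (⌊T ^ θ⌋₊ : ℝ) := Nat.sub_one_lt_floor _
  have hfu : (⌊T ^ θ⌋₊ : ℝ) ≤ T ^ θ := Nat.floor_le hx0.le
  have h2 : 2 ≤ ⌊T ^ θ⌋₊ := by
    rw [Nat.le_floor_iff hx0.le]; push_cast; linarith
  have hf0 : (0 : ℝ) < (⌊T ^ θ⌋₊ : ℝ) := by exact_mod_cast (by omega : 0 < ⌊T ^ θ⌋₊)
  refine ⟨hT, h2, ?_, ?_, hfu⟩
  · have e : Real.log (Real.sqrt (T ^ θ)) = θ / 2 * Real.log T := by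
      rw [Real.log_sqrt hx0.le, Real.log_rpow hT0]; ring
    rw [← e]
    refine Real.log_le_log (Real.sqrt_pos.2 hx0) ?_
    refine le_trans ?_ hfl.le
    have h5 : 2 ≤ Real.sqrt (T ^ θ) := by
      rw [show (2 : ℝ) = Real.sqrt 4 by rw [show (4 : ℝ) = 2 ^ 2 by norm_num, Real.sqrt_sq (by norm_num)]]
      exact Real.sqrt_le_sqrt h4
    nlinarith [Real.sq_sqrt hx0.le]
  · rw [← Real.log_rpow hT0]
    exact Real.log_le_log hf0 hfu

theorem log_ev (K : ℝ) : ∀ᶠ T : ℝ in atTop, K ≤ Real.log T := Real.tendsto_log_atTop.eventually_ge_atTop K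

theorem pow_ev {a : ℝ} (ha : 0 < a) {ε : ℝ} (hε : 0 < ε) : ∀ᶠ T : ℝ in atTop, Real.exp (-(a * Real.log T)) ≤ ε := by
  filter_upwards [log_ev (-Real.log ε / a)] with T hT
  rw [← Real.exp_log hε]
  apply Real.exp_le_exp.2
  rw [div_le_iff₀ ha] at hT
  nlinarith

theorem sqrt_ev (n : ℕ) {ε : ℝ} (hε : 0 < ε) : ∀ᶠ T : ℝ in atTop, T ^ n * Real.exp (-Real.sqrt T / 4) ≤ ε := by
  have h1 : Tendsto (fun T : ℝ => Real.sqrt T / 4) atTop atTop := by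
    apply Tendsto.atTop_div_const (by norm_num)
    exact Real.tendsto_sqrt_atTop
  have h2 := (Real.tendsto_pow_mul_exp_neg_atTop_nhds_zero (2 * n)).comp h1
  have h3 : Tendsto (fun T : ℝ => 4 ^ (2 * n) * ((Real.sqrt T / 4) ^ (2 * n) * Real.exp (-(Real.sqrt T / 4)))) atTop (𝓝 0) := by
    have := h2.const_mul ((4 : ℝ) ^ (2 * n))
    simpa using this
  filter_upwards [h3.eventually_le_const hε, eventually_gt_atTop (0 : ℝ)] with T hT hT0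
  refine le_trans (le_of_eq ?_) hT
  have e1 : T ^ n = (Real.sqrt T) ^ (2 * n) := by
    rw [pow_mul, Real.sq_sqrt hT0.le]
  rw [e1, neg_div, div_pow]
  field_simp

theorem floor_ev {a : ℝ} (ha : a < 1) : ∀ᶠ T : ℝ in atTop, Real.exp (a * Real.log T) ≤ (⌊T⌋₊ : ℝ) := by
  have h1 := pow_ev (show 0 < 1 - a by linarith) (show (0 : ℝ) < 1 / 2 by norm_num)
  filter_upwards [h1, eventually_ge_atTop (2 : ℝ)] with T h hT
  have hT0 : 0 < T := by linarith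
  have hfl : T - 1 < (⌊T⌋₊ : ℝ) := Nat.sub_one_lt_floor _
  have e : Real.exp (a * Real.log T) = T * Real.exp (-((1 - a) * Real.log T)) := by
    nth_rw 2 [← Real.exp_log hT0]
    rw [← Real.exp_add]
    congr 1
    ring
  rw [e]
  nlinarith

end Pool.Agent.Q97.UM
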