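import Pool.Agent.Q97.UM.Fd
import Pool.Agent.Q151.UM.CORE
import Pool.Agent.Q153.UM.EXP
import Pool.Agent.Q175.UM.R4
import Pool.Agent.Q175.UM.X0
import Pool.Agent.Q178.UM.CNT
import Pool.Agent.Q178.UM.PH
import Pool.Agent.Q178.UM.PR
import Pool.Agent.Q178.UM.QL
import Pool.Agent.Q178.UM.ZF
import Pool.Agent.Q195.UM.KER
import Pool.Agent.Q195.UM.MV
import Pool.Agent.Q208.UM.AL
import Pool.Agent.Q208.UM.FB
import Pool.Agent.Q208.UM.SGN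
import Pool.Agent.Q208.UM.SUM
import Pool.Agent.Q210.UM.Gev
import Pool.Agent.Q210.UM.Ts
import Pool.Agent.Q211.UM.FIL
import Pool.Agent.Q84.UM.R2

set_option autoImplicit false

/-! Project UM: the base theorems. -/

namespace Pool.Agent.Q97.UM

theorem b_FB : S_FB := Pool.Agent.Q208.UM.t_FB
theorem b_TS : S_TS := Pool.Agent.Q210.UM.ts Pool.Agent.Q178.UM.QL.t_QL

theorem b_E2 : S_E2 :=
  t_E2 Pool.Agent.Q210.UM.gev Pool.Agent.Q208.UM.t_AL b_FB Pool.Agent.Q153.UM.t_EXP Pool.Agent.Q151.UM.core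
    Pool.Agent.Q178.UM.PR.t_PR b_TS Pool.Agent.Q208.UM.t_SUM Pool.Agent.Q195.UM.t_MV Pool.Agent.Q178.UM.PH.t_PH
    Pool.Agent.Q208.UM.t_SGN Pool.Agent.Q211.UM.t_FIL Pool.Agent.Q195.UM.t_KER Pool.Agent.Q84.UM.t_DPM
    Pool.Agent.Q84.UM.t_MVL Pool.Agent.Q178.UM.ZF.t_ZF Pool.Agent.Q84.UM.t_R2 Pool.Agent.Q175.UM.t_R4
    Pool.Agent.Q175.UM.t_X0

theorem b_C : S_C :=
  Pool.Agent.Q178.UM.CNT.t_CNT Pool.Agent.Q84.UM.t_MVL Pool.Agent.Q178.UM.ZF.t_ZF Pool.Agent.Q84.UM.t_DPM (E_of_E2 b_E2)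

end Pool.Agent.Q97.UM
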