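import Pool.Agent.Q97.UM.Stm14

set_option autoImplicit false

/-!
Project UM8 (helper97), part 2: the exact order of `∑ |ζ'(ρ)|^{2λ}`, `0 < λ < 1`, over the critical zeros, relative to EVERY Dirichlet polynomial.
`L = log T`. Statements are `def S_xxx : Prop`, with complete proofs in the comments; `J_xxx` is the statement of a job.
-/

namespace Pool.Agent.Q97.UM

open Filter Topology MeasureTheory Complex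
open scoped ContDiff

noncomputable section

/-- BLZ: zeta is a smooth Dirichlet polynomial of length `T^{5/4}`. PROOF. `ψ` any smooth step function. `Ψ(w) = ∫_0^∞ ψ(log x / L) x^{w-1} dx = -(1/w) ∫ ψ'(u) e^{Luw} du` for `Re w > 0`; so `Ψ` is meromorphic with a
simple pole at `0` of residue `1` (`∫ ψ' = -1`) and `|w Ψ(w)| ≤ C_m e^{(5/4) L Re w}/(1 + L|w|)^m` for `Re w ≥ 0`, `≤ C_m e^{(9/8) L Re w}/(1 + L|w|)^m` for `Re w ≤ 0` (`m` integrations by parts). Mellin inversion: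
`∑_k ψ(log k / L) k^{-s} = (1/2πi) ∫_{(2)} ζ(s + w) Ψ(w) dw`. Move the line to `Re w = -A`, `A = 40`: the pole `w = 0` gives `ζ(s)`; the pole `w = 1 - s` gives `Ψ(1 - s)`, tiny since `|1 - s| ≥ T/4`; on the line `Re w = -A`,
`|ζ(s + w)| ≤ C (T + |Im w|)^{A + 1}` (polynomial growth, functional equation; see the files behind `Q97.MM.zeta_bd`, H306R2/ZetaGrowth.lean, H345R2/Chi.lean), so this part is at most
`C T^{A + 1} T^{-9A/8} = C T^{-4}`. (Alternative: Euler-Maclaurin or Poisson summation for the sum over `k > T^{9/8}` of `(1 - ψ) k^{-s}`.) -/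
def S_BLZ : Prop := ∃ (ψ : ℝ → ℝ) (C : ℝ), ContDiff ℝ ∞ ψ ∧ (∀ u, u ≤ 9 / 8 → ψ u = 1) ∧ (∀ u, 5 / 4 ≤ u → ψ u = 0) ∧ (∀ u, 0 ≤ ψ u ∧ ψ u ≤ 1) ∧
  0 ≤ C ∧ ∀ᶠ T : ℝ in atTop, ∀ s : ℂ, |s.re - 1 / 2| ≤ 1 / 4 → T / 4 ≤ s.im → s.im ≤ 4 * T →
    ‖riemannZeta s - ∑ k ∈ Finset.Icc 1 ⌊T ^ (2 : ℝ)⌋₊, ((ψ (Real.log k / Real.log T) : ℝ) : ℂ) * (k : ℂ) ^ (-s)‖ ≤ C / T ^ 3

open Classical in
/-- number of zeros (with multiplicity) within `2/L` of `t` -/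
def n2 (T t : ℝ) : ℝ := ∑ s ∈ (ZD T).filter (fun s => |s.im - t| ≤ 2 / Real.log T), (mz s : ℝ)

open Classical in
/-- BLS: the second moment of `ζ'` at the critical zeros, weighted by `1/n2`, against the continuous one. Job `J_BLS`. PROOF. `ζ̃(s)` = the sum in BLZ, `g = ζ̃(1/2 + it) dp M c t` is a finite sum of
exponentials with frequencies `log (k n) ≤ (5/4 + 1/16) L`. Let `φ` be smooth with compact support, `φ = 1` on `[-1/8, 3/2]`, `K(y) = L k(Ly)`, `k` the inverse Fourier transform, such that `K ⋆ g = g`; `|K'(y)| ≤ C L²/(1 + L|y|)^{20}`,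
`∫ |K'| ≤ C L`, so `|g'(t)|² ≤ C L³ ∫ |g(v)|² (1 + L|v - t|)^{-20} dv` for all `t`. At a critical zero `ρ = 1/2 + iγ`: `d/dt (ζ(1/2+it) dp M c t) = i ζ'(ρ) dp M c γ` at `t = γ`, because `ζ(ρ) = 0`; and `|ζ - ζ̃| ≤ C/T³` near the line, so
the derivatives differ by `≤ C/T³` as well (Cauchy); `|dp M c|² ≤ M N2`. Sum over the zeros with the weights `1/n2`: for every `v` one has
`∑_γ n2(γ)^{-1} (1 + L|v - γ|)^{-20} ≤ C`, since in a cell of length `1/L` all `n2(γ)` are at least the number of zeros of the cell. The part of the integral outside `[T/2, 3T]` is at most `T^{-2} N2` (`|g| ≤ T^2 √N2`). -/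
def S_BLS : Prop := ∃ C : ℝ, 0 ≤ C ∧ ∀ᶠ T : ℝ in atTop, ∀ (M : ℕ) (c : ℕ → ℂ), (M : ℝ) ≤ T ^ (1 / 16 : ℝ) → (∀ n, c n ≠ 0 → 1 ≤ n ∧ n ≤ M) →
  ∑ s ∈ (H370.Zf riemannZeta T (2 * T)).filter (fun s => s.re = 1 / 2), (n2 T s.im)⁻¹ * (‖deriv riemannZeta s‖ ^ 2 * ‖dp M c s.im‖ ^ 2) ≤
    C * Real.log T ^ 3 * ((∫ t in (T / 2)..(3 * T), ‖zt t‖ ^ 2 * ‖dp M c t‖ ^ 2) + N2 M c)

def J_BLS : Prop := S_BLZ → S_BLS

/-- TSC: TSB without shift, on `[T/2, 3T]`. Job `J_TSC`; same proof as `J_TSB`. -/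
def S_TSC : Prop := ∃ θ₀ : ℝ, 0 < θ₀ ∧ θ₀ ≤ 1 / 8 ∧ ∀ δ : ℝ, 0 < δ → δ ≤ 1 → ∃ C : ℝ, 0 ≤ C ∧ ∀ᶠ T : ℝ in atTop,
  ∀ (M : ℕ) (c : ℕ → ℂ), (M : ℝ) ≤ T ^ θ₀ → (∀ n, c n ≠ 0 → 1 ≤ n ∧ n ≤ M ∧ n ∈ Nat.smoothNumbers (⌊T ^ δ⌋₊ + 1)) → ∀ S : ℝ,
    MB (fun t => ‖cexp (∑ l ∈ Finset.range (JB (δ * Real.log T)), zf (δ * Real.log T) (fun _ => 1) (fun _ => 1) l t)‖ ^ 2 * ‖dp M c t‖ ^ 2) S →
    ∫ t in (T / 2)..(3 * T), ‖zt t‖ ^ 2 * ‖dp M c t‖ ^ 2 ≤ C * T * (S + T ^ (-θ₀) * N2 M c)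

def J_TSC : Prop := S_TS → S_EXP → S_DPM → S_MVL → S_TSC

open Classical in
/-- UBD: upper bound for the moments of `ζ'` at the critical zeros, `0 < λ < 1`, relative to every Dirichlet polynomial. Job `J_UBD`. PROOF. `D = δL`, `m = 1`, `k = lam`, all coefficients `1` (`lc k a = lam`, difference `lam - 1`).
At a critical zero `s`, `n = n2 T γ ≥ 1`, apply PT2 with `ζ = n^{-1/(2(1-lam))} ‖ζ'(s)‖/L`, `z l = zf D 1 1 l γ`; multiplied by `n^{lam/(1-lam)}`: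
`(‖ζ'‖/L)^{2 lam} ≤ C (n^{lam/(1-lam)} ∑_q |Ef(q) pw(q)|² + n^{-1} (‖ζ'‖/L)² ∑_q |Ef'(q) pw(q)|²)`, `q` from `0` to `JB D` (`Ef'` with the coefficient `lam - 1`; the exponent of the second part is `lam/(1-lam) - 1/(1-lam) = -1`).
Times `|B(γ)|²`, summed over the critical zeros: first part: `Ef(q) pw(q) B = dp M c` (COF), `n ≤ 9 SS δ' T γ`, S_DSC with an integer `m' ≥ lam/(1-lam)` (`SSB` from S_STM and TailB): `≤ C L T N2 M c ≤ C L T · 2 C e^{-2q} W`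
(TOR, second, and S_MVL at large `V`), `W = 2 N2 (M9 N) (cv e b)`. Second part: S_BLS and S_TSC with `S = C e^{-2q} W` (TOR, first), `N2 M c ≤ 2 exp(C√D) W` (TOR, third): `≤ L^{-2} C L³ T (C e^{-2q} W + T^{-θ₀/2} W)`. The sum over `q` is
`≤ C L T W`. `δ₀`, `θ` small: all lengths `≤ T^{min(θ₀, θ₁, 1/16)}` as in `J_UBM`. -/
def S_UBD : Prop := ∀ lam : ℝ, 0 < lam → lam < 1 → ∃ κ₀ : ℝ, 4 ≤ κ₀ ∧ ∀ κ : ℝ, κ₀ ≤ κ → ∃ δ₀ : ℝ, 0 < δ₀ ∧ ∀ δ : ℝ, 0 < δ → δ ≤ δ₀ →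
  ∃ θ C : ℝ, 0 < θ ∧ 0 ≤ C ∧ ∀ᶠ T : ℝ in atTop, ∀ N : ℕ, (N : ℝ) ≤ T ^ θ → ∀ b : ℕ → ℂ, (∀ n, b n ≠ 0 → 1 ≤ n ∧ n ≤ N) →
    ∑ s ∈ (H370.Zf riemannZeta T (2 * T)).filter (fun s => s.re = 1 / 2), ‖deriv riemannZeta s‖ ^ (2 * lam) * ‖dp N b s.im‖ ^ 2 ≤
      C * T * Real.log T ^ (1 + 2 * lam) * N2 (M9 (δ * Real.log T) κ * N)
        (cv (ebk (δ * Real.log T) κ (fun _ => (lam : ℂ)) (fun _ => (lam : ℂ)) 0 (JB (δ * Real.log T))) b)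

def J_UBD : Prop := S_PT2 → S_TOR → S_COF → S_TSC → S_BLS → S_STM → S_DSC → S_DPM → S_MVL →
  (∃ θ c C : ℝ, 0 < θ ∧ θ ≤ 1 / 4 ∧ 0 < c ∧ 0 ≤ C ∧ TailB θ c C) → S_UBD

/-- LBDK: the lower bound over the isolated simple critical zeros for every polynomial with the properties `EKd`. Job `J_LBDK`. PROOF: the proof of `J_LBD` (theorem `Pool.Agent.Q98.UM.t_LBD`, file Q98/UM/LBD.lean), where the
polynomial is now given. -/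
def S_LBDK : Prop := ∃ d : ℝ, 0 < d ∧ ∀ A κ : ℝ, 1 ≤ A → 1 ≤ κ → ∃ δ₀ : ℝ, 0 < δ₀ ∧ ∀ δ : ℝ, 0 < δ → δ ≤ δ₀ → ∀ C c : ℝ, 0 ≤ C → 0 < c →
  ∃ θ c' : ℝ, 0 < θ ∧ 0 < c' ∧ ∀ᶠ T : ℝ in atTop, ∀ lam : ℝ, |lam| ≤ A → ∀ (M : ℕ) (e : ℕ → ℂ) (J M₀ : ℕ) (q : ℕ → ℕ → ℂ) (w : ℕ → ℝ),
    EKd δ κ C c T (fun _ => (lam : ℂ)) (fun _ => (lam : ℂ)) M e J M₀ q w →
    ∀ N : ℕ, (N : ℝ) ≤ T ^ θ → ∀ b : ℕ → ℂ, (∀ m, b m ≠ 0 → 1 ≤ m ∧ m ≤ N) →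
      c' * T * Real.log T ^ (1 + 2 * lam) * N2 (M * N) (cv e b) ≤
        ∑ s ∈ ZI d T, ‖deriv riemannZeta s‖ ^ (2 * lam) * ‖dp N b s.im‖ ^ 2

def J_LBDK : Prop := S_SAMPI → S_SAMP → S_THD → S_DPM → S_LBDK

end

end Pool.Agent.Q97.UM
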