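import Pool.Agent.Q97.UM.Base8
import Pool.Agent.Q97.UM.Stm15
import Pool.Agent.Q65.UM.TEX
import Pool.Agent.Q195.UM.PT1
import Pool.Agent.Q65.UM.PT2
import Pool.Agent.Q65.UM.COF
import Pool.Agent.Q210.UM8.PMT
import Pool.Agent.Q86.UM.XM
import Pool.Agent.Q86.UM.JL
import Pool.Agent.Q176.UM.STR
import Pool.Agent.Q176.UM.TOR
import Pool.Agent.Q150.UM.TSB
import Pool.Agent.Q184.UM.UBM
import Pool.Agent.Q299.UM.EN2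
import Pool.Agent.Q210.UM8.EK9
import Pool.Agent.Q210.UM8.LBK
import Pool.Agent.Q92.UM.BLZ
import Pool.Agent.Q210.UM8.BLS
import Pool.Agent.Q210.UM8.TSC
import Pool.Agent.Q148.UM.UBD
import Pool.Agent.Q210.UM8.LBDK

set_option autoImplicit false

/-! Project UM8: the exact order of small moments relative to every Dirichlet polynomial. -/

namespace Pool.Agent.Q97.UM

open Filter

theorem b_TEX : S_TEX := Pool.Agent.Q65.UM.t_TEX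
theorem b_PT1 : S_PT1 := Pool.Agent.Q195.UM.t_PT1 b_TEX
theorem b_PT2 : S_PT2 := Pool.Agent.Q65.UM.t_PT2 b_TEX
theorem b_COF : S_COF := Pool.Agent.Q65.UM.t_COF Pool.Agent.Q84.UM.t_DPM
theorem b_PMT : S_PMT := Pool.Agent.Q210.UM8.t_PMT Pool.Agent.Q198.UM.t_BM Pool.Agent.Q14.UM.t_QM Pool.Agent.Q84.UM.t_DPM Pool.Agent.Q84.UM.t_MVL
theorem b_XM : S_XM := Pool.Agent.Q86.UM.t_XM b_PMT Pool.Agent.Q84.UM.t_MVL
theorem b_JL : S_JL := Pool.Agent.Q86.UM.t_JL b_TEX b_COF b_PMT Pool.Agent.Q84.UM.t_MVL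
theorem b_STR : S_STR := Pool.Agent.Q176.UM.t_STR b_COF b_PMT b_XM b_JL Pool.Agent.Q84.UM.t_MVL
theorem b_TOR : S_TOR := Pool.Agent.Q176.UM.t_TOR b_TEX b_PT1 b_COF b_PMT b_XM b_JL b_STR Pool.Agent.Q84.UM.t_DPM Pool.Agent.Q84.UM.t_MVL
theorem b_TSB : S_TSB := Pool.Agent.Q150.UM.t_TSB b_TS Pool.Agent.Q153.UM.t_EXP Pool.Agent.Q84.UM.t_DPM Pool.Agent.Q84.UM.t_MVL
theorem b_UBM : S_UBM := Pool.Agent.Q184.UM.t_UBM b_PT2 b_TOR b_COF b_TSB Pool.Agent.Q84.UM.t_DPM Pool.Agent.Q84.UM.t_MVL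
theorem b_EN2 : S_EN2 := Pool.Agent.Q299.UM.t_EN2 Pool.Agent.Q198.UM.t_BM b_COF
theorem b_EK9 : S_EK9 := Pool.Agent.Q210.UM8.t_EK9 Pool.Agent.Q14.UM.t_TE Pool.Agent.Q198.UM.t_BM Pool.Agent.Q14.UM.t_QM b_EN2 b_COF
  Pool.Agent.Q84.UM.t_DPM
theorem b_LBK : S_LBK := Pool.Agent.Q210.UM8.t_LBK b_THP Pool.Agent.Q84.UM.t_DPM Pool.Agent.Q84.UM.t_MVL
theorem b_BLS : S_BLS := Pool.Agent.Q210.UM8.t_BLS Pool.Agent.Q92.UM.t_BLZ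
theorem b_TSC : S_TSC := Pool.Agent.Q210.UM8.t_TSC b_TS Pool.Agent.Q153.UM.t_EXP Pool.Agent.Q84.UM.t_DPM Pool.Agent.Q84.UM.t_MVL
theorem b_UBD : S_UBD := Pool.Agent.Q148.UM.t_UBD b_PT2 b_TOR b_COF b_TSC b_BLS b_STM b_DSC Pool.Agent.Q84.UM.t_DPM Pool.Agent.Q84.UM.t_MVL b_TAIL
theorem b_LBDK : S_LBDK := Pool.Agent.Q210.UM8.t_LBDK b_SAMPI b_SAMP b_THD Pool.Agent.Q84.UM.t_DPM

end Pool.Agent.Q97.UM
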