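import Pool.Agent.Q97.UM.Base10
import Pool.Agent.Q149.UM.MZ
import Pool.Agent.Q177.UM.TLT
import Pool.Agent.Q184.UM.JLD

set_option autoImplicit false

/-! Project UM9: joint large deviations of zeta on the critical line. -/

namespace Pool.Agent.Q97.UM

theorem b_TLT : S_TLT := Pool.Agent.Q177.UM.t_TLT Pool.Agent.Q198.UM.t_BM b_COF
theorem b_JLD : S_JLD := Pool.Agent.Q184.UM.J.t_JLD b_TLT b_EK9 b_THP Pool.Agent.Q149.UM.t_MZ Pool.Agent.Q84.UM.t_DPM Pool.Agent.Q84.UM.t_MVL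

end Pool.Agent.Q97.UM
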