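import Pool.Agent.Q97.UM.Law2

set_option autoImplicit false

/-! Project UM11: the theorem LAW. -/

namespace Pool.Agent.Q97.UM

open Filter Topology MeasureTheory Complex ProbabilityTheory

noncomputable section

/-- Chebyshev for finite sums -/
theorem cheb (F : Finset ℂ) (D : ℂ → ℝ) (c M : ℝ) (hc : 0 < c) (hM : ∑ s ∈ F, D s ^ 2 ≤ M) [DecidablePred fun s => c < |D s|] :
    ((F.filter (fun s => c < |D s|)).card : ℝ) ≤ M / c ^ 2 := by
  rw [le_div_iff₀ (by positivity)]
  refine le_trans ?_ hM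
  calc ((F.filter (fun s => c < |D s|)).card : ℝ) * c ^ 2 = ∑ s ∈ F.filter (fun s => c < |D s|), c ^ 2 := by
        rw [Finset.sum_const, nsmul_eq_mul]
    _ ≤ ∑ s ∈ F.filter (fun s => c < |D s|), D s ^ 2 := by
        refine Finset.sum_le_sum fun s hs => ?_
        rw [Finset.mem_filter] at hs
        rw [← sq_abs (D s)]
        have := hs.2
        gcongr
    _ ≤ ∑ s ∈ F, D s ^ 2 := Finset.sum_le_sum_of_subset_of_nonneg (Finset.filter_subset _ _) fun s _ _ => by positivity

/-- simultaneous choice of `δ` for finitely many moments -/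
theorem moments (hA : S_LAWA) (K : ℕ) (ε' : ℝ) (hε : 0 < ε') : ∃ δ₁ : ℝ, 0 < δ₁ ∧ ∀ δ : ℝ, 0 < δ → δ ≤ δ₁ → ∀ᶠ T : ℝ in atTop,
    ∀ k : ℕ, k ≤ K → |(∑ s ∈ H370.Zf riemannZeta T (2 * T), (mz s : ℝ) * RN ⌊T ^ δ⌋₊ s.im ^ k) -
      (∫ x, x ^ k ∂(gaussianReal 0 1)) * (Real.log T / (2 * Real.pi) * T)| ≤ ε' * (Real.log T / (2 * Real.pi) * T) := by
  induction K with
  | zero =>
    obtain ⟨δ₁, h1, h2⟩ := hA (Polynomial.X ^ 0) ε' hε
    refine ⟨δ₁, h1, fun δ hδ hδ1 => ?_⟩
    filter_upwards [h2 δ hδ hδ1] with T h k hk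
    have : k = 0 := by omega
    subst this
    simpa using h
  | succ K ih =>
    obtain ⟨δ₁, h1, h2⟩ := hA (Polynomial.X ^ (K + 1)) ε' hε
    obtain ⟨δ₂, h3, h4⟩ := ih
    refine ⟨min δ₁ δ₂, by positivity, fun δ hδ hδ1 => ?_⟩
    filter_upwards [h2 δ hδ (hδ1.trans (min_le_left _ _)), h4 δ hδ (hδ1.trans (min_le_right _ _))] with T h h' k hk
    rcases Nat.lt_or_ge K k with h5 | h5
    · have : k = K + 1 := by omega
      subst this
      simpa using h
    · exact h' k h5

/-- the measure of the normalised prime sum over all zeros has nearly Gaussian moments -/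
theorem pm_moments {T A ε' : ℝ} {K : ℕ} (hA : 0 < A) (x : ℂ → ℝ)
    (h : ∀ k : ℕ, k ≤ K → |(∑ s ∈ H370.Zf riemannZeta T (2 * T), (mz s : ℝ) * x s ^ k) -
      (∫ x, x ^ k ∂(gaussianReal 0 1)) * A| ≤ ε' * A) :
    ∀ k : ℕ, k ≤ K → Integrable (fun y : ℝ => y ^ k) (pm (H370.Zf riemannZeta T (2 * T)) (fun s => (mz s : ℝ) / A) x) ∧
      |(∫ y, y ^ k ∂(pm (H370.Zf riemannZeta T (2 * T)) (fun s => (mz s : ℝ) / A) x)) - ∫ x, x ^ k ∂(gaussianReal 0 1)| ≤ ε' := by
  intro k hk
  refine ⟨pm_int _ _ _ _, ?_⟩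
  rw [pm_integral _ _ _ (fun s _ => by positivity)]
  have h1 := h k hk
  have e1 : (∑ s ∈ H370.Zf riemannZeta T (2 * T), (mz s : ℝ) / A * x s ^ k) - ∫ x, x ^ k ∂(gaussianReal 0 1) =
      ((∑ s ∈ H370.Zf riemannZeta T (2 * T), (mz s : ℝ) * x s ^ k) - (∫ x, x ^ k ∂(gaussianReal 0 1)) * A) / A := by
    rw [sub_div, mul_div_cancel_right₀ _ hA.ne', Finset.sum_div]
    congr 1
    exact Finset.sum_congr rfl fun s _ => by ring
  rw [e1, abs_div, abs_of_pos hA, div_le_iff₀ hA]
  exact h1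

theorem mz_ge {T : ℝ} (hT : 1 ≤ T) : ∀ s ∈ H370.Zf riemannZeta T (2 * T), (1 : ℝ) ≤ mz s := by
  intro s hs
  have hF := H370.good_zeta
  rw [H370.mem_Zf hF (by linarith)] at hs
  have := H370.Loc.mult_pos' hF (show 0 < s.im by linarith [hs.2.2.1]) hs.2.2.2.2
  exact_mod_cast this

open Classical in
/-- the lower bound, for zeros isolated at the scale `d / log T` -/
theorem law_iso (hA : S_LAWA) (hP : S_LAWP) (hC : S_CLZ) (hAB : S_ABS) (a b ε : ℝ) (hab : a < b) (hε : 0 < ε) :
    ∃ d : ℝ, 0 < d ∧ d ≤ 1 ∧ ∀ᶠ T : ℝ in atTop,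
    ((2 - H370.cMTinv) * (gaussianReal 0 1).real (Set.Ioo a b) - ε) * (Real.log T / (2 * Real.pi) * T) ≤
    (((ZI d T).filter (fun s => a < yn T s ∧ yn T s < b)).card : ℝ) := by
  have hc2 := H370.cMTinv_lt
  have hc1 := H370.cMTinv_gt_one
  obtain ⟨η, hη⟩ : ∃ η, η = min (ε / 16) ((b - a) / 4) := ⟨_, rfl⟩
  have hη0 : 0 < η := by
    rw [hη]
    have : 0 < b - a := by linarith
    positivity
  have hη1 : η ≤ ε / 16 := by rw [hη]; exact min_le_left _ _
  have hη2 : η ≤ (b - a) / 4 := by rw [hη]; exact min_le_right _ _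
  obtain ⟨K, p, ε', hε', hK, hABS⟩ := hAB (a + η) (b - η) (ε / 4) (by linarith) (by positivity)
  obtain ⟨d, δ₁, hd0, hd1, hδ₁, hP⟩ := hP p ε' hε'
  obtain ⟨δ₂, hδ₂, hM⟩ := moments hA K ε' hε'
  obtain ⟨δ₃, hδ₃, hC⟩ := hC
  obtain ⟨δ, hδ⟩ : ∃ δ, δ = min (min δ₁ δ₂) (min δ₃ 1) := ⟨_, rfl⟩
  have hδ0 : 0 < δ := by rw [hδ]; positivity
  have hδa : δ ≤ δ₁ := by rw [hδ]; exact (min_le_left _ _).trans (min_le_left _ _)
  have hδb : δ ≤ δ₂ := by rw [hδ]; exact (min_le_left _ _).trans (min_le_right _ _)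
  have hδc : δ ≤ δ₃ := by rw [hδ]; exact (min_le_right _ _).trans (min_le_left _ _)
  have hδ1 : δ ≤ 1 := by rw [hδ]; exact (min_le_right _ _).trans (min_le_right _ _)
  obtain ⟨C, hC0, hC⟩ := hC δ d hδ0 hδc hd0
  refine ⟨d, hd0, hd1, ?_⟩
  obtain ⟨R, hR⟩ : ∃ R, R = 1 + |a| + |b| := ⟨_, rfl⟩
  have hR0 : 0 < R := by rw [hR]; positivity
  obtain ⟨r, hr⟩ : ∃ r, r = 1 - min (η / (4 * R)) (1 / 2) := ⟨_, rfl⟩
  have hr0 : 0 < r := by
    rw [hr]
    have := min_le_right (η / (4 * R)) (1 / 2 : ℝ)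
    linarith
  have hr1 : r < 1 := by
    rw [hr]
    have : 0 < min (η / (4 * R)) (1 / 2 : ℝ) := by positivity
    linarith
  have hrR : (1 - r) * R ≤ η / 4 := by
    rw [hr]
    have h1 := min_le_left (η / (4 * R)) (1 / 2 : ℝ)
    calc (1 - (1 - min (η / (4 * R)) (1 / 2))) * R = min (η / (4 * R)) (1 / 2) * R := by ring
      _ ≤ η / (4 * R) * R := by gcongr
      _ = η / 4 := by field_simp
  have hll : Tendsto (fun T : ℝ => Real.log (Real.log T)) atTop atTop :=
    Real.tendsto_log_atTop.comp Real.tendsto_log_atTop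
  filter_upwards [hP δ hδ0 hδa, hM δ hδ0 hδb, hC, ratio_one δ hδ0 hδ1 r hr0 hr1, eventually_ge_atTop (3 : ℝ),
    hll.eventually_ge_atTop (C * 64 * Real.pi / (ε * η ^ 2))] with T hP hM hC ⟨hs1, hs2, hs3, hs4⟩ hT hLL
  set X := ⌊T ^ δ⌋₊ with hX
  set L := Real.log T with hL
  have hL0 : 0 < L := Real.log_pos (by linarith)
  have hT0 : 0 < T := by linarith
  have hpi := Real.pi_pos
  set A := L / (2 * Real.pi) * T with hAd
  have hA0 : 0 < A := by positivity
  set sT := Real.sqrt (Real.log L / 2) with hsT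
  set sX := Real.sqrt (Real.log (Real.log X) / 2) with hsX
  have hLLpos : 0 < Real.log L := by
    have := Real.sqrt_pos.1 hs1
    linarith
  have hsT2 : sT ^ 2 = Real.log L / 2 := Real.sq_sqrt (by linarith)
  -- the two measures
  have hmz := mz_ge (T := T) (by linarith)
  have hsub : ZI d T ⊆ H370.Zf riemannZeta T (2 * T) := by
    unfold ZI
    exact Finset.filter_subset _ _
  have hmom := pm_moments hA0 (fun s => RN X s.im) hM
  have hle : pm (ZI d T) (fun _ => 1 / A) (fun s => RN X s.im) ≤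
      pm (H370.Zf riemannZeta T (2 * T)) (fun s => (mz s : ℝ) / A) (fun s => RN X s.im) := by
    refine pm_le hsub _ _ _ fun s hs => ?_
    have := hmz s (hsub hs)
    gcongr
  have h1 := hABS (2 - H370.cMTinv) (by linarith) (by linarith) _ _ inferInstance hle hmom (by
    rw [pm_integral _ _ _ (fun s _ => by positivity), ← Finset.mul_sum, one_div, inv_mul_eq_div, le_div_iff₀ hA0]
    exact hP)
  rw [pm_real _ _ _ (fun s _ => by positivity) _ measurableSet_Ioo, Finset.sum_const, nsmul_eq_mul] at h1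
  set G1 := (ZI d T).filter (fun s => RN X s.im ∈ Set.Ioo (a + η) (b - η)) with hG1
  have h2 : ((2 - H370.cMTinv) * (gaussianReal 0 1).real (Set.Ioo (a + η) (b - η)) - ε / 4) * A ≤ (G1.card : ℝ) := by
    have := mul_le_mul_of_nonneg_right h1 hA0.le
    rw [mul_assoc, one_div, inv_mul_cancel₀ hA0.ne', mul_one] at this
    refine this.trans (le_of_eq ?_)
    rw [hG1]
    congr!
  -- the exceptional zeros
  set D : ℂ → ℝ := fun s => Real.log ‖deriv riemannZeta s‖ - Real.log L - (dp X (pc X) s.im).re with hD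
  have h3 := cheb (ZI d T) D (η / 2 * sT) (C * (L * T)) (by positivity) hC.1
  set G2 := (ZI d T).filter (fun s => η / 2 * sT < |D s|) with hG2
  have h4 : (G2.card : ℝ) ≤ ε / 4 * A := by
    refine h3.trans ?_
    rw [div_le_iff₀ (by positivity), mul_pow, hsT2]
    rw [div_le_iff₀ (by positivity)] at hLL
    have e1 : ε / 4 * A * ((η / 2) ^ 2 * (Real.log L / 2)) = (L * T) / (64 * Real.pi) * (Real.log L * (ε * η ^ 2)) := by
      rw [hAd]; field_simp; ring
    rw [e1]
    have e2 : C * (L * T) = (L * T) / (64 * Real.pi) * (C * 64 * Real.pi) := by field_simp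
    rw [e2]
    gcongr
  -- the good zeros
  have h5 : G1 ⊆ ((ZI d T).filter (fun s => a < yn T s ∧ yn T s < b)) ∪ G2 := by
    intro s hs
    rw [hG1, Finset.mem_filter] at hs
    obtain ⟨hs5, hs6⟩ := hs
    by_cases h6 : η / 2 * sT < |D s|
    · refine Finset.mem_union_right _ ?_
      rw [hG2, Finset.mem_filter]
      exact ⟨hs5, h6⟩
    · refine Finset.mem_union_left _ ?_
      push Not at h6
      rw [Finset.mem_filter]
      refine ⟨hs5, ?_⟩
      set P := (dp X (pc X) s.im).re with hPd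
      have e1 : RN X s.im = P / sX := rfl
      have e2 : yn T s = RN X s.im * (sX / sT) + D s / sT := by
        rw [e1]
        show (Real.log ‖deriv riemannZeta s‖ - Real.log L) / sT = _
        have : D s = Real.log ‖deriv riemannZeta s‖ - Real.log L - P := rfl
        rw [this]
        field_simp
        ring
      have e3 : |D s / sT| ≤ η / 2 := by
        rw [abs_div, abs_of_pos hs1, div_le_iff₀ hs1]
        exact h6
      have e4 : sX / sT ≤ 1 := by rw [div_le_one hs1]; exact hs3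
      have e5 : r ≤ sX / sT := by rw [le_div_iff₀ hs1]; exact hs4
      have e6 : |RN X s.im| ≤ R := by
        rw [hR, abs_le]
        have g1 := hs6.1
        have g2 := hs6.2
        have g3 := neg_abs_le a
        have g4 := le_abs_self b
        have g5 := abs_nonneg a
        have g6 := abs_nonneg b
        constructor <;> linarith
      have e7 : |RN X s.im * (sX / sT) - RN X s.im| ≤ η / 4 := by
        have : RN X s.im * (sX / sT) - RN X s.im = RN X s.im * (sX / sT - 1) := by ring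
        rw [this, abs_mul]
        have g1 : |sX / sT - 1| ≤ 1 - r := by
          rw [abs_le]; constructor <;> linarith
        calc |RN X s.im| * |sX / sT - 1| ≤ R * (1 - r) := mul_le_mul e6 g1 (abs_nonneg _) hR0.le
          _ = (1 - r) * R := by ring
          _ ≤ η / 4 := hrR
      have e8 : |yn T s - RN X s.im| ≤ 3 * η / 4 := by
        have : yn T s - RN X s.im = (RN X s.im * (sX / sT) - RN X s.im) + D s / sT := by rw [e2]; ring
        rw [this]
        refine (abs_add_le _ _).trans ?_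
        linarith
      rw [abs_le] at e8
      have g1 := hs6.1
      have g2 := hs6.2
      constructor <;> linarith [e8.1, e8.2]
  have h6 : (G1.card : ℝ) ≤ ((((ZI d T).filter (fun s => a < yn T s ∧ yn T s < b)).card : ℕ) : ℝ) + (G2.card : ℝ) := by
    exact_mod_cast (Finset.card_le_card h5).trans (Finset.card_union_le _ _)
  have h7 := gam_Ioo a b η hη0.le
  set g0 := (gaussianReal 0 1).real (Set.Ioo a b) with hg0
  set g1 := (gaussianReal 0 1).real (Set.Ioo (a + η) (b - η)) with hg1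
  have h8 : (2 - H370.cMTinv) * g0 ≤ (2 - H370.cMTinv) * g1 + ε / 8 := by
    have : (2 - H370.cMTinv) * g0 ≤ (2 - H370.cMTinv) * (g1 + 2 * η) := by gcongr; linarith
    nlinarith
  have h9 : ((2 - H370.cMTinv) * g0 - ε) * A ≤ ((2 - H370.cMTinv) * g1 - ε / 4) * A - ε / 4 * A := by
    have : ((2 - H370.cMTinv) * g1 - ε / 4) * A - ε / 4 * A = ((2 - H370.cMTinv) * g1 - ε / 2) * A := by ring
    rw [this]
    apply mul_le_mul_of_nonneg_right _ hA0.le
    linarith
  linarith

open Classical in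
theorem law_low (hA : S_LAWA) (hP : S_LAWP) (hC : S_CLZ) (hAB : S_ABS) (a b ε : ℝ) (hab : a < b) (hε : 0 < ε) :
    ∀ᶠ T : ℝ in atTop,
    ((2 - H370.cMTinv) * (gaussianReal 0 1).real (Set.Ioo a b) - ε) * (Real.log T / (2 * Real.pi) * T) ≤
    (((H370.Zf riemannZeta T (2 * T)).filter (fun s => s.re = 1 / 2 ∧ mz s = 1 ∧ a < yn T s ∧ yn T s < b)).card : ℝ) := by
  obtain ⟨d, _, _, h⟩ := law_iso hA hP hC hAB a b ε hab hε
  filter_upwards [h] with T h
  refine h.trans ?_
  have : (ZI d T).filter (fun s => a < yn T s ∧ yn T s < b) ⊆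
      (H370.Zf riemannZeta T (2 * T)).filter (fun s => s.re = 1 / 2 ∧ mz s = 1 ∧ a < yn T s ∧ yn T s < b) := by
    intro s hs
    rw [Finset.mem_filter] at hs
    have hs7 := hs.1
    unfold ZI at hs7
    rw [Finset.mem_filter] at hs7
    rw [Finset.mem_filter]
    exact ⟨hs7.1, hs7.2.1, hs7.2.2.1, hs.2⟩
  exact_mod_cast Finset.card_le_card this

open Classical in
theorem law_up (hA : S_LAWA) (hC : S_CLZ) (hAB : S_ABU) (a ε : ℝ) (hε : 0 < ε) :
    ∀ᶠ T : ℝ in atTop,
    (((H370.Zf riemannZeta T (2 * T)).filter (fun s => s.re = 1 / 2 ∧ mz s = 1 ∧ a < yn T s)).card : ℝ) ≤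
      ((gaussianReal 0 1).real (Set.Ioi a) + ε) * (Real.log T / (2 * Real.pi) * T) := by
  obtain ⟨η, hη⟩ : ∃ η, η = ε / 4 := ⟨_, rfl⟩
  have hη0 : 0 < η := by rw [hη]; positivity
  obtain ⟨K, ε', hε', hABU⟩ := hAB (a - η) (ε / 4) (by positivity)
  obtain ⟨δ₂, hδ₂, hM⟩ := moments hA K ε' hε'
  obtain ⟨δ₃, hδ₃, hC⟩ := hC
  obtain ⟨δ, hδ⟩ : ∃ δ, δ = min δ₂ (min δ₃ 1) := ⟨_, rfl⟩
  have hδ0 : 0 < δ := by rw [hδ]; positivity
  have hδb : δ ≤ δ₂ := by rw [hδ]; exact min_le_left _ _
  have hδc : δ ≤ δ₃ := by rw [hδ]; exact (min_le_right _ _).trans (min_le_left _ _)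
  have hδ1 : δ ≤ 1 := by rw [hδ]; exact (min_le_right _ _).trans (min_le_right _ _)
  obtain ⟨C, hC0, hC⟩ := hC δ 1 hδ0 hδc one_pos
  obtain ⟨R, hR⟩ : ∃ R, R = 1 + |a| + η := ⟨_, rfl⟩
  have hR0 : 0 < R := by rw [hR]; positivity
  obtain ⟨r, hr⟩ : ∃ r, r = 1 - min (η / (4 * R)) (1 / 2) := ⟨_, rfl⟩
  have hr0 : 0 < r := by
    rw [hr]
    have := min_le_right (η / (4 * R)) (1 / 2 : ℝ)
    linarith
  have hr1 : r < 1 := by
    rw [hr]
    have : 0 < min (η / (4 * R)) (1 / 2 : ℝ) := by positivity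
    linarith
  have hrR : (1 - r) * R ≤ η / 4 := by
    rw [hr]
    have h1 := min_le_left (η / (4 * R)) (1 / 2 : ℝ)
    calc (1 - (1 - min (η / (4 * R)) (1 / 2))) * R = min (η / (4 * R)) (1 / 2) * R := by ring
      _ ≤ η / (4 * R) * R := by gcongr
      _ = η / 4 := by field_simp
  have hll : Tendsto (fun T : ℝ => Real.log (Real.log T)) atTop atTop :=
    Real.tendsto_log_atTop.comp Real.tendsto_log_atTop
  filter_upwards [hM δ hδ0 hδb, hC, ratio_one δ hδ0 hδ1 r hr0 hr1, eventually_ge_atTop (3 : ℝ),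
    hll.eventually_ge_atTop (C * 64 * Real.pi / (ε * η ^ 2))] with T hM hC ⟨hs1, hs2, hs3, hs4⟩ hT hLL
  set X := ⌊T ^ δ⌋₊ with hX
  set L := Real.log T with hL
  have hL0 : 0 < L := Real.log_pos (by linarith)
  have hT0 : 0 < T := by linarith
  have hpi := Real.pi_pos
  set A := L / (2 * Real.pi) * T with hAd
  have hA0 : 0 < A := by positivity
  set sT := Real.sqrt (Real.log L / 2) with hsT
  set sX := Real.sqrt (Real.log (Real.log X) / 2) with hsX
  have hLLpos : 0 < Real.log L := by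
    have := Real.sqrt_pos.1 hs1
    linarith
  have hsT2 : sT ^ 2 = Real.log L / 2 := Real.sq_sqrt (by linarith)
  have hmz := mz_ge (T := T) (by linarith)
  have hmom := pm_moments hA0 (fun s => RN X s.im) hM
  have h1 := hABU _ inferInstance hmom
  rw [pm_real _ _ _ (fun s _ => by positivity) _ measurableSet_Ioi] at h1
  set F := H370.Zf riemannZeta T (2 * T) with hF
  set G1 := F.filter (fun s => s.re = 1 / 2 ∧ mz s = 1 ∧ RN X s.im ∈ Set.Ioi (a - η)) with hG1
  have h2 : (G1.card : ℝ) ≤ ((gaussianReal 0 1).real (Set.Ioi (a - η)) + ε / 4) * A := by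
    have e1 : (G1.card : ℝ) / A ≤ ∑ s ∈ F.filter (fun s => RN X s.im ∈ Set.Ioi (a - η)), (mz s : ℝ) / A := by
      calc (G1.card : ℝ) / A = ∑ s ∈ G1, 1 / A := by rw [Finset.sum_const, nsmul_eq_mul]; ring
        _ ≤ ∑ s ∈ G1, (mz s : ℝ) / A := by
            refine Finset.sum_le_sum fun s hs => ?_
            rw [hG1, Finset.mem_filter] at hs
            have := hmz s hs.1
            gcongr
        _ ≤ _ := by
            refine Finset.sum_le_sum_of_subset_of_nonneg ?_ fun s _ _ => by positivity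
            intro s hs
            rw [hG1, Finset.mem_filter] at hs
            rw [Finset.mem_filter]
            exact ⟨hs.1, hs.2.2.2⟩
    have e2 := e1.trans h1
    rwa [div_le_iff₀ hA0] at e2
  -- the exceptional zeros
  set D : ℂ → ℝ := fun s => max 0 (Real.log ‖deriv riemannZeta s‖ - Real.log L - (dp X (pc X) s.im).re) with hD
  set F1 := F.filter (fun s => s.re = 1 / 2 ∧ mz s = 1) with hF1
  have h3 := cheb F1 D (η / 2 * sT) (C * (L * T)) (by positivity) hC.2
  set G2 := F1.filter (fun s => η / 2 * sT < |D s|) with hG2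
  have h4 : (G2.card : ℝ) ≤ ε / 4 * A := by
    refine h3.trans ?_
    rw [div_le_iff₀ (by positivity), mul_pow, hsT2]
    rw [div_le_iff₀ (by positivity)] at hLL
    have e1 : ε / 4 * A * ((η / 2) ^ 2 * (Real.log L / 2)) = (L * T) / (64 * Real.pi) * (Real.log L * (ε * η ^ 2)) := by
      rw [hAd]; field_simp; ring
    rw [e1]
    have e2 : C * (L * T) = (L * T) / (64 * Real.pi) * (C * 64 * Real.pi) := by field_simp
    rw [e2]
    gcongr
  have h5 : F.filter (fun s => s.re = 1 / 2 ∧ mz s = 1 ∧ a < yn T s) ⊆ G1 ∪ G2 := by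
    intro s hs
    rw [Finset.mem_filter] at hs
    obtain ⟨hs5, hs6, hs7, hs8⟩ := hs
    by_cases h6 : η / 2 * sT < |D s|
    · refine Finset.mem_union_right _ ?_
      rw [hG2, Finset.mem_filter, hF1, Finset.mem_filter]
      exact ⟨⟨hs5, hs6, hs7⟩, h6⟩
    · refine Finset.mem_union_left _ ?_
      push Not at h6
      rw [hG1, Finset.mem_filter]
      refine ⟨hs5, hs6, hs7, ?_⟩
      rw [Set.mem_Ioi]
      set P := (dp X (pc X) s.im).re with hPd
      have e1 : RN X s.im = P / sX := rfl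
      have e2 : yn T s ≤ RN X s.im * (sX / sT) + D s / sT := by
        rw [e1]
        show (Real.log ‖deriv riemannZeta s‖ - Real.log L) / sT ≤ _
        have g1 : Real.log ‖deriv riemannZeta s‖ - Real.log L - P ≤ D s := le_max_right _ _
        have g2 : P / sX * (sX / sT) = P / sT := by field_simp
        rw [g2, ← add_div]
        gcongr
        linarith
      have e3 : D s / sT ≤ η / 2 := by
        rw [div_le_iff₀ hs1]
        exact (le_abs_self _).trans h6
      have e4 : sX / sT ≤ 1 := by rw [div_le_one hs1]; exact hs3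
      have e5 : r ≤ sX / sT := by rw [le_div_iff₀ hs1]; exact hs4
      by_contra hcon
      push Not at hcon
      -- `RN ≤ a - η`
      have e6 : RN X s.im * (sX / sT) ≤ a - η + η / 4 := by
        have g1 : RN X s.im * (sX / sT) ≤ (a - η) * (sX / sT) := by
          apply mul_le_mul_of_nonneg_right hcon (by positivity)
        have g2 : (a - η) * (sX / sT) - (a - η) ≤ η / 4 := by
          have : (a - η) * (sX / sT) - (a - η) = (a - η) * (sX / sT - 1) := by ring
          rw [this]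
          have g3 : |(a - η) * (sX / sT - 1)| ≤ R * (1 - r) := by
            rw [abs_mul]
            apply mul_le_mul _ _ (abs_nonneg _) hR0.le
            · rw [hR]
              have := abs_sub a η
              rw [abs_of_pos hη0] at this
              linarith
            · rw [abs_le]; constructor <;> linarith
          have g4 := (le_abs_self _).trans g3
          linarith
        linarith
      linarith
  have h6 : (((F.filter (fun s => s.re = 1 / 2 ∧ mz s = 1 ∧ a < yn T s)).card : ℕ) : ℝ) ≤ (G1.card : ℝ) + (G2.card : ℝ) := by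
    exact_mod_cast (Finset.card_le_card h5).trans (Finset.card_union_le _ _)
  have h7 := gam_Ioi a η hη0.le
  set g0 := (gaussianReal 0 1).real (Set.Ioi a) with hg0
  set g1 := (gaussianReal 0 1).real (Set.Ioi (a - η)) with hg1
  have h9 : (g1 + ε / 4) * A + ε / 4 * A ≤ (g0 + ε) * A := by
    have : (g1 + ε / 4) * A + ε / 4 * A = (g1 + ε / 2) * A := by ring
    rw [this]
    apply mul_le_mul_of_nonneg_right _ hA0.le
    rw [hη] at h7
    linarith
  linarith

theorem t_LAW : J_LAW := by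
  intro hA hP hC hAB hABU
  exact ⟨fun a b ε hab hε => law_low hA hP hC hAB a b ε hab hε, fun a ε hε => law_up hA hC hABU a ε hε⟩

end

end Pool.Agent.Q97.UM
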