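import Pool.Agent.Q97.UM.Base8
import Pool.Agent.Q97.UM.Law3
import Pool.Agent.Q190.UM.WINW
import Pool.Agent.Q190.UM.SAMW
import Pool.Agent.Q190.UM.PWK
import Pool.Agent.Q96.UM.CLZ
import Pool.Agent.Q96.UM.WID
import Pool.Agent.Q224.UM.ABU

set_option autoImplicit false

/-! Project UM11: base theorems. -/

namespace Pool.Agent.Q97.UM

open Filter

theorem b_WINW : S_WINW := Pool.Agent.Q190.UM.t_WINW Pool.Agent.Q247.UM.t_OMEX Pool.Agent.Q176.UM.t_QH Pool.Agent.Q222.UM.t_MV2 b_PAIR b_LIN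
  b_DETI b_ED b_ERR Pool.Agent.Q222.UM.t_MTW b_TAIL b_WIN

theorem b_SAMW : S_SAMW := Pool.Agent.Q190.UM.t_SAMW Pool.Agent.Q84.UM.t_DPM Pool.Agent.Q222.UM.t_MV2 Pool.Agent.Q84.UM.t_MVL b_EDB b_WIN b_WINW

theorem b_PWK : S_PWK := Pool.Agent.Q190.UM.t_PWK Pool.Agent.Q84.UM.t_DPM

theorem b_WID : S_WID := Pool.Agent.Q96.UM.t_WID b_PWK

theorem b_LAWA : S_LAWA := t_LAWA b_SAMP b_WID

theorem b_LAWP : S_LAWP := t_LAWP b_SAMW b_WID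

theorem b_CLZ : S_CLZ := Pool.Agent.Q96.UM.t_CLZ b_THD b_SAMP

end Pool.Agent.Q97.UM
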