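import Pool.Agent.Q97.UM.Stm18

set_option autoImplicit false

/-!
Project UM12 (helper97): THE LOCAL SIZE OF ZETA AT THE ZEROS, AND PAIR CORRELATION.

THEOREM. Let `V(γ)` be the mean of `log|ζ(1/2+it)|` over `|t - γ| ≤ 1/log T`, divided by `√(½ log log T)`. (1) Unconditionally the values `V(γ)`, `γ` the
ordinates of all zeros in `(T, 2T]` (with multiplicity), have asymptotically the standard normal law. (2) RH: the pair correlation in Montgomery's range does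
not depend on `V(γ)`: for every interval `J`, `∑_{γ, γ', V(γ) ∈ J} f(λ (γ-γ') log T) ~ Φ(J) K(f, λ) N(T)`.
Proofs: LAWA and its analogue for the pair sums (S_SPC and S_WID), the method of moments (ABU), and S_CLA.
-/

namespace Pool.Agent.Q97.UM

open Filter Topology MeasureTheory Complex

noncomputable section

/-- the mean of `log|ζ(1/2+iu)|` over `|u - t| ≤ 1/log T` -/
def LM (T t : ℝ) : ℝ := Real.log T / 2 * ∫ u in (t - 1 / Real.log T)..(t + 1 / Real.log T), Real.log ‖zt u‖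

/-- CLA: the local mean against the prime sum, at all the zeros. Job `J_CLA`. PROOF. `L = log T`, `X = ⌊T^δ⌋`, `W = [γ - 1/L, γ + 1/L]`,
`D(t) = log|ζ(1/2+it)| - EP X t`, `P = dp X (pc X)`.
(a) As in CLZ (file Q96/UM/CLZ.lean): `EP X t = Re P(t) + ½ Re dp (X²) (c2 X) t + O(1)`, `c2 X` the indicator function of the squares of the primes `≤ X`.
(b) `(L/2) ∫_W n^{-1/2-it} dt = n^{-1/2-iγ} S(log n / L)`, `S(x) = sin x / x`, `|1 - S(x)| ≤ x²`, `|S(x)| ≤ 1`. So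
`LM - Re P(γ) = (L/2) ∫_W D + O(1) + Re dp (X²) e γ`, `e_n = (S(log n/L) - 1) pc X n + ½ S(log n/L) c2 X n`, and
`N2 (X²) e ≤ 2 ∑_{p ≤ X} (log p/L)⁴/p + ∑ 1/p² ≤ C` (`∑_{p ≤ X} (log p)/p ≤ C log X`, Mertens, in the libraries behind `Q178.UM.PR`, or from S_PRM's proof).
(c) `∑ m SS(γ) |dp (X²) e γ|² ≤ C L T N2` by S_DSC (`m = 1`, applied to `SSB` from S_STM with `m = 2`), also with `e = 1` (for the `O(1)`).
(d) `((L/2) ∫_W |D|)² ≤ (L/2) ∫_W D²` (length of `W` is `2/L`). For `|t - γ| ≤ 1/L`: `SS(γ) ≤ 4 SS(t)` (all factors `1 + L|γ' - t|` change at most by the factor 2), and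
`∑_{|γ-t| ≤ 1/L} m ≤ 4 SS(t)`. So `∑_s m SS(γ) (L/2) ∫_W D² ≤ 8 L ∫_{T/2}^{4T} SS(t)² D(t)² dt ≤ 8 L (∫ SS⁴)^{1/2} (∫ D⁴)^{1/2} ≤ C L T` by S_STM (`m = 4`) and
S_THP (`m = 4`), both with `N = 1`, `b = 1`. `η` is chosen with `16 η · 5 ≤ c`, `c` the constant of `TailB`; `δ₂ ≤ δ₀` of S_THP and `2δ₂` less than the exponents.
All integrands are interval integrable: `SS` is continuous, `|D|^4` by S_THP. -/
def S_CLA : Prop := ∃ δ₂ η : ℝ, 0 < δ₂ ∧ 0 < η ∧ ∀ δ : ℝ, 0 < δ → δ ≤ δ₂ → ∃ C : ℝ, 0 ≤ C ∧ ∀ᶠ T : ℝ in atTop,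
  ∑ s ∈ H370.Zf riemannZeta T (2 * T), (mz s : ℝ) *
    (SS η T s.im * (LM T s.im - (dp ⌊T ^ δ⌋₊ (pc ⌊T ^ δ⌋₊) s.im).re) ^ 2) ≤ C * (Real.log T * T)

def J_CLA : Prop := S_THP → S_STM → S_DSC → S_SAMP →
  (∃ θ c C : ℝ, 0 < θ ∧ θ ≤ 1 / 4 ∧ 0 < c ∧ 0 ≤ C ∧ TailB θ c C) → S_CLA

end

end Pool.Agent.Q97.UM
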