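import Pool.Agent.Q97.UM.Base13
import Pool.Agent.Q97.UM.Stm19
import Pool.Agent.Q151.UM.CLA

set_option autoImplicit false

/-! Project UM12: base theorem. -/

namespace Pool.Agent.Q97.UM

theorem b_CLA : S_CLA := Pool.Agent.Q151.UM.t_CLA b_THP b_STM b_DSC b_SAMP b_TAIL

end Pool.Agent.Q97.UM
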