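import Pool.Agent.Q97.UM.Base14
import Pool.Agent.Q97.UM.Stm20
import Pool.Agent.Q285.UM.WIND
import Pool.Agent.Q285.UM.SAMD

set_option autoImplicit false

/-! Project UM14: base theorems. -/

namespace Pool.Agent.Q97.UM

theorem b_WIND : S_WIND := Pool.Agent.Q285.UM.t_WIND Pool.Agent.Q247.UM.t_OMEX Pool.Agent.Q176.UM.t_QH Pool.Agent.Q222.UM.t_MV2 b_PAIR b_LIN
  b_DET b_ED b_ERR Pool.Agent.Q222.UM.t_MTW b_TAIL b_WIN

theorem b_SAMD : S_SAMD := Pool.Agent.Q285.UM.t_SAMD Pool.Agent.Q84.UM.t_DPM Pool.Agent.Q222.UM.t_MV2 b_WIN b_WIND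

end Pool.Agent.Q97.UM
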