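import Pool.Agent.Q97.UM.Base10
import Pool.Agent.Q97.UM.Stm22
import Pool.Agent.Q26.UM.CLW
import Pool.Agent.Q38.UM.COH

set_option autoImplicit false

/-! Project UM16: base theorems. -/

namespace Pool.Agent.Q97.UM

theorem b_COH : S_COH := Pool.Agent.Q38.UM.t_COH Pool.Agent.Q84.UM.t_DPM b_TEX

theorem b_CLW : S_CLW := Pool.Agent.Q26.UM.t_CLW b_THP b_STM Pool.Agent.Q84.UM.t_DPM Pool.Agent.Q84.UM.t_MVL b_PMD b_SAMP b_TAIL

end Pool.Agent.Q97.UM
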