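import Pool.Agent.Q97.UM.Base15
import Pool.Agent.Q97.UM.Stm21
import Pool.Agent.Q38.UM.PWKA
import Pool.Agent.Q285.UM.WIDA
import Pool.Agent.Q154.UM.CLS
import Pool.Agent.Q149.UM.MZ

set_option autoImplicit false

/-! Project UM15: base theorems. -/

namespace Pool.Agent.Q97.UM

theorem b_PWKA : S_PWKA := Pool.Agent.Q38.UM.t_PWKA Pool.Agent.Q84.UM.t_DPM

theorem b_WIDA : S_WIDA := Pool.Agent.Q285.UM.t_WIDA b_PWKA

theorem b_CLS : S_CLS := Pool.Agent.Q154.UM.t_CLS b_THP b_STM b_DSC Pool.Agent.Q84.UM.t_DPM b_SAMP b_TAIL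

theorem b_MZ : S_MZ := Pool.Agent.Q149.UM.t_MZ

end Pool.Agent.Q97.UM
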