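import Pool.Agent.Q97.UM.R1c

set_option autoImplicit false

/-! Project UM: universal mollification for general windows, constant. -/

namespace Pool.Agent.Q97.UM.W

open Filter Topology MeasureTheory Complex
open Pool.Agent.Q97.UM

noncomputable section

theorem et_supp {P : ℝ → ℝ} {q : ℝ → ℂ} {c C : ℝ} (hG : Win P q c C) {Y l : ℕ} (hY : 2 ≤ Y) (hl : 1 ≤ l) (h : et P Y l ≠ 0) : l < Y := by
  by_contra hlt
  push Not at hlt
  apply h
  unfold et
  have h1 : 0 < Real.log Y := Real.log_pos (by exact_mod_cast hY)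
  have h2 : P (Real.log l / Real.log Y) = 0 := by
    apply hG.supp
    rw [abs_of_nonneg (div_nonneg (Real.log_nonneg (by exact_mod_cast hl)) h1.le), one_le_div h1]
    exact Real.log_le_log (by positivity) (by exact_mod_cast hlt)
  rw [h2, mul_zero, Complex.ofReal_zero]

/-- the support of the mollified sequence -/
theorem mol_supp {P : ℝ → ℝ} {q : ℝ → ℂ} {c C : ℝ} (hG : Win P q c C) {Y N : ℕ} (hY : 2 ≤ Y) (hN : N ≤ Y) {b : ℕ → ℂ}
    (hb : ∀ n, b n ≠ 0 → 1 ≤ n ∧ n ≤ N) {n : ℕ} (h : cv b (cv (et P Y) (et P Y)) n ≠ 0) :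
    1 ≤ n ∧ n ≤ N * Y ^ 2 ∧ n ∈ Nat.smoothNumbers (Y + 1) := by
  obtain ⟨k, l, hkl, hn, hk, hl⟩ := cv_supp h
  obtain ⟨l1, l2, hl12, hl0, hl1, hl2⟩ := cv_supp hl
  obtain ⟨k1, k2⟩ := hb k hk
  have a1 : 1 ≤ l1 := Nat.pos_of_ne_zero fun h => hl0 (by rw [← hl12, h, zero_mul])
  have a2 : 1 ≤ l2 := Nat.pos_of_ne_zero fun h => hl0 (by rw [← hl12, h, mul_zero])
  have b1 := et_supp hG hY a1 hl1
  have b2 := et_supp hG hY a2 hl2
  refine ⟨Nat.pos_of_ne_zero hn, ?_, ?_⟩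
  · rw [← hkl, ← hl12, pow_two]
    exact Nat.mul_le_mul k2 (Nat.mul_le_mul b1.le b2.le)
  · rw [← hkl, ← hl12]
    exact Nat.mul_mem_smoothNumbers (smooth_of_lt (by omega) (by omega))
      (Nat.mul_mem_smoothNumbers (smooth_of_lt (by omega) (by omega)) (smooth_of_lt (by omega) (by omega)))

/-- UNIVERSAL MOLLIFICATION -/
theorem t_MOLL2 (hFB : S_FB) (hEX : S_EXP) (hCO : S_CORE) (hPR : S_PR) : S_MOLL2 := by
  intro c₀ hc₀
  obtain ⟨C, hC, h1⟩ := hPR
  set J1 : ℝ := ∫ y : ℝ, Real.exp (-(c₀ * |y| ^ (2 / 3 : ℝ))) with hJ1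
  set J2 : ℝ := ∫ y : ℝ, Real.exp (-(c₀ * |y| ^ (2 / 3 : ℝ))) * Real.exp (2 * C * Real.sqrt (1 + 2 * |y|)) with hJ2
  have hint : ∀ a : ℝ, 0 ≤ a → Integrable fun y : ℝ => Real.exp (-(c₀ * |y| ^ (2 / 3 : ℝ))) * Real.exp (a * Real.sqrt (1 + 2 * |y|)) := by
    intro a ha
    obtain ⟨K, hK, hb⟩ := exp_bd hc₀ a ha
    refine (integrable_inv_one_add_sq.const_mul K).mono' ?_ ?_
    · have h23 : (0 : ℝ) ≤ 2 / 3 := by norm_num
      have hcr : Continuous fun y : ℝ => |y| ^ (2 / 3 : ℝ) := continuous_abs.rpow_const fun _ => Or.inr h23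
      exact (by fun_prop : Continuous _).aestronglyMeasurable
    · refine Filter.Eventually.of_forall fun y => ?_
      rw [Real.norm_of_nonneg (by positivity)]
      exact hb y
  have hint0 : Integrable fun y : ℝ => Real.exp (-(c₀ * |y| ^ (2 / 3 : ℝ))) := by
    have := hint 0 le_rfl
    simpa only [zero_mul, Real.exp_zero, mul_one] using this
  refine ⟨max 1 (J1 ^ 2 * (C * J2 ^ 2)), le_max_left _ _, fun P q C₀ hG Y N b hY hN hb => ?_⟩
  have hC₀ : 0 ≤ C₀ := by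
    have := (norm_nonneg _).trans (hG.dec 0)
    exact nonneg_of_mul_nonneg_left this (Real.exp_pos _)
  set I1 : ℝ := ∫ y : ℝ, ‖q y‖ with hI1
  set I2 : ℝ := ∫ y : ℝ, ‖q y‖ * Real.exp (2 * C * Real.sqrt (1 + 2 * |y|)) with hI2
  have hI1' : 0 ≤ I1 := integral_nonneg fun y => norm_nonneg _
  have hI2' : 0 ≤ I2 := integral_nonneg fun y => by positivity
  have hI1le : I1 ≤ C₀ * J1 := by
    rw [hI1, hJ1, ← integral_const_mul]
    exact integral_mono (q_int0 hG).norm (hint0.const_mul _) hG.dec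
  have hI2le : I2 ≤ C₀ * J2 := by
    rw [hI2, hJ2, ← integral_const_mul]
    refine integral_mono (q_int hG (2 * C) (by linarith)) ((hint (2 * C) (by linarith)).const_mul _) fun y => ?_
    calc ‖q y‖ * Real.exp (2 * C * Real.sqrt (1 + 2 * |y|)) ≤
          (C₀ * Real.exp (-(c₀ * |y| ^ (2 / 3 : ℝ)))) * Real.exp (2 * C * Real.sqrt (1 + 2 * |y|)) :=
          mul_le_mul_of_nonneg_right (hG.dec y) (Real.exp_pos _).le
      _ = _ := by ring
  have hlY : 0 < Real.log Y := Real.log_pos (by exact_mod_cast hY)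
  have hN2 : 0 ≤ N2 N b := Finset.sum_nonneg fun n _ => by positivity
  obtain ⟨hs, -⟩ := hEX (Y + 1) (N * Y ^ 2) (cv b (cv (et P Y) (et P Y))) (fun n hn => mol_supp hG hY hN hb hn)
  set K : ℝ := ∏ p ∈ (Y + 1).primesBelow, (1 - 1 / (p : ℝ)) with hK
  have hK0 : 0 ≤ K := Finset.prod_nonneg fun p hp => by
    have := (Nat.prime_of_mem_primesBelow hp).one_lt
    have : (1 : ℝ) / p ≤ 1 := by rw [div_le_one (by positivity)]; exact_mod_cast this.le
    linarith
  have hmax : I1 ^ 2 * (C * I2 ^ 2) / Real.log Y * N2 N b ≤ max 1 (J1 ^ 2 * (C * J2 ^ 2)) * C₀ ^ 4 / Real.log Y * N2 N b := by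
    refine mul_le_mul_of_nonneg_right (div_le_div_of_nonneg_right ?_ hlY.le) hN2
    have e1 : I1 ^ 2 ≤ (C₀ * J1) ^ 2 := pow_le_pow_left₀ hI1' hI1le 2
    have e2 : I2 ^ 2 ≤ (C₀ * J2) ^ 2 := pow_le_pow_left₀ hI2' hI2le 2
    calc I1 ^ 2 * (C * I2 ^ 2) ≤ (C₀ * J1) ^ 2 * (C * (C₀ * J2) ^ 2) := by
          refine mul_le_mul e1 (mul_le_mul_of_nonneg_left e2 (by linarith)) (by positivity) (by positivity)
      _ = (J1 ^ 2 * (C * J2 ^ 2)) * C₀ ^ 4 := by ring
      _ ≤ _ := mul_le_mul_of_nonneg_right (le_max_right _ _) (by positivity)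
  refine le_trans ?_ hmax
  refine hasSum_le_of_sum_le hs fun s => ?_
  -- the finite sums
  have hq : Integrable (fun y : ℝ => ‖q y‖) := (q_int0 hG).norm
  have hqe := q_int hG (2 * C) (by linarith)
  have w1 : Integrable (fun z : ℝ × ℝ => q z.1 * q z.2) (volume.prod volume) :=
    (q_int0 hG).mul_prod (q_int0 hG)
  have w2 : ∫ z : ℝ × ℝ, ‖q z.1 * q z.2‖ ∂(volume.prod volume) = I1 ^ 2 := by
    rw [pow_two, hI1, ← integral_prod_mul (fun y : ℝ => ‖q y‖) (fun y : ℝ => ‖q y‖)]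
    refine integral_congr_ae (Filter.Eventually.of_forall fun z => ?_)
    simp only [norm_mul]
  have w3 : Integrable (fun z : ℝ × ℝ => (‖q z.1‖ * Real.exp (2 * C * Real.sqrt (1 + 2 * |z.1|))) *
      (‖q z.2‖ * Real.exp (2 * C * Real.sqrt (1 + 2 * |z.2|)))) (volume.prod volume) := hqe.mul_prod hqe
  have w4 : ∫ z : ℝ × ℝ, (‖q z.1‖ * Real.exp (2 * C * Real.sqrt (1 + 2 * |z.1|))) *
      (‖q z.2‖ * Real.exp (2 * C * Real.sqrt (1 + 2 * |z.2|))) ∂(volume.prod volume) = I2 ^ 2 := by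
    rw [pow_two, hI2]
    exact integral_prod_mul (fun y : ℝ => ‖q y‖ * Real.exp (2 * C * Real.sqrt (1 + 2 * |y|)))
      (fun y : ℝ => ‖q y‖ * Real.exp (2 * C * Real.sqrt (1 + 2 * |y|)))
  -- continuity of the integrand in z
  have htw : ∀ l : ℕ, 1 ≤ l → Continuous fun y : ℝ => tw (-(y / Real.log Y)) l := by
    intro l hl
    have : (fun y : ℝ => tw (-(y / Real.log Y)) l) = fun y : ℝ => (al l : ℂ) *
        cexp (-(I * (-(y / Real.log Y) * Real.log l : ℝ))) := by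
      funext y; exact tw_eq l hl _
    rw [this]
    fun_prop
  have hcont : ∀ n : ℕ, Continuous fun z : ℝ × ℝ => cv b (ff (-(z.1 / Real.log Y)) (-(z.2 / Real.log Y))) n := by
    intro n
    have hpos : ∀ m : ℕ, ∀ p ∈ m.divisorsAntidiagonal, 1 ≤ p.1 ∧ 1 ≤ p.2 := by
      intro m p hp
      obtain ⟨h1, h2⟩ := Nat.mem_divisorsAntidiagonal.1 hp
      exact ⟨Nat.pos_of_ne_zero fun h => h2 (by rw [← h1, h, zero_mul]),
        Nat.pos_of_ne_zero fun h => h2 (by rw [← h1, h, mul_zero])⟩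
    have k1 : ∀ m : ℕ, Continuous fun z : ℝ × ℝ => cv (tw (-(z.1 / Real.log Y))) (tw (-(z.2 / Real.log Y))) m := by
      intro m
      unfold cv
      refine continuous_finsetSum _ fun p hp => ?_
      exact ((htw p.1 (hpos m p hp).1).comp continuous_fst).mul ((htw p.2 (hpos m p hp).2).comp continuous_snd)
    have k2 : ∀ m : ℕ, Continuous fun z : ℝ × ℝ => ff (-(z.1 / Real.log Y)) (-(z.2 / Real.log Y)) m := by
      intro m
      unfold ff
      conv => enter [1, z]; unfold cv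
      exact continuous_finsetSum _ fun p _ => continuous_const.mul (k1 p.2)
    conv => enter [1, z]; unfold cv
    exact continuous_finsetSum _ fun p _ => continuous_const.mul (k2 p.2)
  -- integrability of the squares: bounded by the finite-sum bound
  have hbd : ∀ (S : Finset ℕ), (∀ n ∈ S, n ∈ Nat.smoothNumbers (Y + 1)) → ∀ z : ℝ × ℝ,
      ‖q z.1 * q z.2‖ * (K * ∑ n ∈ S, ‖cv b (ff (-(z.1 / Real.log Y)) (-(z.2 / Real.log Y))) n‖ ^ 2 / n) ≤
      (C / Real.log Y * N2 N b) * ((‖q z.1‖ * Real.exp (2 * C * Real.sqrt (1 + 2 * |z.1|))) *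
      (‖q z.2‖ * Real.exp (2 * C * Real.sqrt (1 + 2 * |z.2|)))) := by
    intro S hS z
    have := core_bd hFB hCO hC h1 Y N hY hN b hb S hS z.1 z.2
    calc _ ≤ ‖q z.1 * q z.2‖ * (C / Real.log Y * N2 N b *
          (Real.exp (2 * C * Real.sqrt (1 + 2 * |z.1|)) * Real.exp (2 * C * Real.sqrt (1 + 2 * |z.2|)))) :=
          mul_le_mul_of_nonneg_left this (norm_nonneg _)
      _ = _ := by
          simp only [norm_mul]
          ring
  have hKp : 0 < K := Finset.prod_pos fun p hp => by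
    have := (Nat.prime_of_mem_primesBelow hp).one_lt
    have : (1 : ℝ) / p < 1 := by rw [div_lt_one (by positivity)]; exact_mod_cast this
    linarith
  have hsq : ∀ n : ℕ, n ∈ Nat.smoothNumbers (Y + 1) → Integrable (fun z : ℝ × ℝ => ‖q z.1 * q z.2‖ *
      ‖cv b (ff (-(z.1 / Real.log Y)) (-(z.2 / Real.log Y))) n‖ ^ 2) (volume.prod volume) := by
    intro n hn
    have hn0 : 0 < n := Nat.pos_of_ne_zero (Nat.ne_zero_of_mem_smoothNumbers hn)
    refine (w3.const_mul ((n : ℝ) / K * (C / Real.log Y * N2 N b))).mono' ?_ ?_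
    · have := hG.cont
      have h2 := hcont n
      exact (by fun_prop : Continuous _).aestronglyMeasurable
    · refine Filter.Eventually.of_forall fun z => ?_
      have h3 := hbd {n} (by simpa using hn) z
      rw [Finset.sum_singleton] at h3
      rw [Real.norm_of_nonneg (by positivity)]
      have hn1 : (0 : ℝ) < n := by exact_mod_cast hn0
      calc ‖q z.1 * q z.2‖ * ‖cv b (ff (-(z.1 / Real.log Y)) (-(z.2 / Real.log Y))) n‖ ^ 2
          = (n : ℝ) / K * (‖q z.1 * q z.2‖ * (K * (‖cv b (ff (-(z.1 / Real.log Y)) (-(z.2 / Real.log Y))) n‖ ^ 2 / n))) := by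
            field_simp
        _ ≤ (n : ℝ) / K * ((C / Real.log Y * N2 N b) * ((‖q z.1‖ * Real.exp (2 * C * Real.sqrt (1 + 2 * |z.1|))) *
              (‖q z.2‖ * Real.exp (2 * C * Real.sqrt (1 + 2 * |z.2|))))) := mul_le_mul_of_nonneg_left h3 (by positivity)
        _ = _ := by ring
  have hpt : ∀ n : ℕ, n ∈ Nat.smoothNumbers (Y + 1) → ‖∑ h ∈ n.divisors, cv b (cv (et P Y) (et P Y)) h‖ ^ 2 ≤
      I1 ^ 2 * ∫ z : ℝ × ℝ, ‖q z.1 * q z.2‖ *
      ‖cv b (ff (-(z.1 / Real.log Y)) (-(z.2 / Real.log Y))) n‖ ^ 2 ∂(volume.prod volume) := by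
    intro n hn
    obtain ⟨j1, j2⟩ := div_int hG Y n b
    rw [j2, ← w2]
    refine cs_w w1 ?_ (hsq n hn)
    have := j1.norm
    simpa only [norm_mul] using this
  -- assemble
  set S : Finset ℕ := s.image (fun n : Nat.smoothNumbers (Y + 1) => (n : ℕ)) with hS
  have hSs : ∀ n ∈ S, n ∈ Nat.smoothNumbers (Y + 1) := by
    intro n hn
    obtain ⟨m, _, hm⟩ := Finset.mem_image.1 hn
    rw [← hm]; exact m.2
  have hsum : ∀ F : ℕ → ℝ, ∑ n ∈ s, F (n : ℕ) = ∑ n ∈ S, F n := by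
    intro F
    rw [hS, Finset.sum_image (fun a _ b _ h => Subtype.ext h)]
  rw [hsum fun n => K * (‖∑ h ∈ n.divisors, cv b (cv (et P Y) (et P Y)) h‖ ^ 2 / n)]
  calc ∑ n ∈ S, K * (‖∑ h ∈ n.divisors, cv b (cv (et P Y) (et P Y)) h‖ ^ 2 / n)
      ≤ ∑ n ∈ S, K * ((I1 ^ 2 * ∫ z : ℝ × ℝ, ‖q z.1 * q z.2‖ *
        ‖cv b (ff (-(z.1 / Real.log Y)) (-(z.2 / Real.log Y))) n‖ ^ 2 ∂(volume.prod volume)) / n) := by
        refine Finset.sum_le_sum fun n hn => ?_
        exact mul_le_mul_of_nonneg_left (div_le_div_of_nonneg_right (hpt n (hSs n hn)) (Nat.cast_nonneg _)) hK0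
    _ = I1 ^ 2 * ∑ n ∈ S, ∫ z : ℝ × ℝ, (K / n) * (‖q z.1 * q z.2‖ *
        ‖cv b (ff (-(z.1 / Real.log Y)) (-(z.2 / Real.log Y))) n‖ ^ 2) ∂(volume.prod volume) := by
        rw [Finset.mul_sum]
        refine Finset.sum_congr rfl fun n _ => ?_
        rw [integral_const_mul]
        ring
    _ = I1 ^ 2 * ∫ z : ℝ × ℝ, ∑ n ∈ S, (K / n) * (‖q z.1 * q z.2‖ *
        ‖cv b (ff (-(z.1 / Real.log Y)) (-(z.2 / Real.log Y))) n‖ ^ 2) ∂(volume.prod volume) := by
        rw [integral_finsetSum _ fun n hn => ((hsq n (hSs n hn)).const_mul _)]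
    _ ≤ I1 ^ 2 * ∫ z : ℝ × ℝ, (C / Real.log Y * N2 N b) * ((‖q z.1‖ * Real.exp (2 * C * Real.sqrt (1 + 2 * |z.1|))) *
      (‖q z.2‖ * Real.exp (2 * C * Real.sqrt (1 + 2 * |z.2|)))) ∂(volume.prod volume) := by
        refine mul_le_mul_of_nonneg_left ?_ (by positivity)
        refine integral_mono (integrable_finsetSum _ fun n hn => ((hsq n (hSs n hn)).const_mul _)) (w3.const_mul _) fun z => ?_
        refine le_trans (le_of_eq ?_) (hbd S hSs z)
        simp only [Finset.mul_sum]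
        refine Finset.sum_congr rfl fun n _ => ?_
        ring
    _ = I1 ^ 2 * (C * I2 ^ 2) / Real.log Y * N2 N b := by
        rw [integral_const_mul, w4]
        ring

end

end Pool.Agent.Q97.UM.W
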