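import Pool.Agent.Q97.UM.Stm4

set_option autoImplicit false

/-! Project UM (helper97), part 5: windows of any length. -/

namespace Pool.Agent.Q97.UM

open Filter Topology MeasureTheory Complex

noncomputable section

/-- the conclusion of S_TAIL for given constants -/
def TailB (θ c C : ℝ) : Prop := ∀ᶠ T : ℝ in atTop, ∀ N : ℕ, (N : ℝ) ≤ T ^ θ → ∀ b : ℕ → ℂ,
    (∀ A : ℝ, 0 ≤ A → ∫ t in {t : ℝ | T ≤ t ∧ t ≤ 2 * T ∧ ∃ ρ ∈ Zw t (1 / Real.log T), A / Real.log T ≤ |ρ.re - 1 / 2|},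
      ‖dp N b t‖ ^ 2 ≤ C * Real.exp (-(c * A)) * T * N2 N b) ∧
    (∀ K : ℕ, ∫ t in {t : ℝ | T ≤ t ∧ t ≤ 2 * T ∧ K ≤ nz t (1 / Real.log T)}, ‖dp N b t‖ ^ 2 ≤
      C * Real.exp (-(c * K)) * T * N2 N b)

/-- WND: from windows of length `1 / log T` to windows of length `R / log T`. PROOF. Cover `[t - R/L, t + R/L]` by at most `4R + 2`
windows `[t + x_j - r, t + x_j + r]`, `r = 1 / log (4T)`, `|x_j| ≤ R / L ≤ T / 2` (large `T`); `t + x_j ∈ [T/2, 4T]`, which is covered by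
`[T', 2T']` with `T' ∈ {T/2, T, 2T}`, and `r ≤ 1 / log T'`, `log T' ≥ ½ log T`; `N ≤ T^{θ/2} ≤ T'^θ`. Shift the polynomial:
`dp N b (s - x_j) = dp N b_j s`, `N2 N b_j = N2 N b` (S_DPM). (1): union bound, `A / log T = A' / log T'` with `A' ≥ A/2`. (2):
`nz t (R/L) ≤ ∑_j nz (t + x_j) r` and `∫ nz s r |dp|² = ∑_{K ≥ 1} ∫_{K ≤ nz s r} |dp|² ≤ ∑_K C e^{-cK} ...` (`nz` is bounded on bounded sets). -/
def S_WND : Prop := ∀ θ c C : ℝ, 0 < θ → θ ≤ 1 / 4 → 0 < c → 0 ≤ C → TailB θ c C → S_MVL → S_DPM → S_ZF2 →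
  ∃ C₂ : ℝ, 0 ≤ C₂ ∧ ∀ᶠ T : ℝ in atTop, ∀ R : ℝ, 1 ≤ R → R ≤ T → ∀ N : ℕ, (N : ℝ) ≤ T ^ (θ / 2) → ∀ b : ℕ → ℂ,
    (∀ A : ℝ, 0 ≤ A → ∫ t in {t : ℝ | T ≤ t ∧ t ≤ 2 * T ∧ ∃ ρ ∈ Zw t (R / Real.log T), A / Real.log T ≤ |ρ.re - 1 / 2|},
      ‖dp N b t‖ ^ 2 ≤ C₂ * R * Real.exp (-(c / 2 * A)) * T * N2 N b) ∧
    (∫ t in T..(2 * T), (nz t (R / Real.log T) : ℝ) * ‖dp N b t‖ ^ 2 ≤ C₂ * R * T * N2 N b)

end

end Pool.Agent.Q97.UM
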