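import Pool.Agent.Q97.UM.Base
import Pool.Agent.Q97.UM.R1d
import Pool.Agent.Q97.UM.Stm5
import Pool.Agent.Q16.UM.Tail
import Pool.Agent.Q16.UM.CvMs
import Pool.Agent.Q175.UM.Gev2
import Pool.Agent.Q175.UM.R2K
import Pool.Agent.Q277.UM.Fe
import Pool.Agent.Q277.UM.Sup
import Pool.Agent.Q277.UM.Tl
import Pool.Agent.Q178.UM.JEN
import Pool.Agent.Q178.UM.ZF2
import Pool.Agent.Q210.UM.Wnd

set_option autoImplicit false

/-! Project UM: the universal density theorem and the tails of the zero counts. -/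

namespace Pool.Agent.Q97.UM

theorem b_MOLL2 : S_MOLL2 :=
  Pool.Agent.Q97.UM.W.t_MOLL2 b_FB Pool.Agent.Q153.UM.t_EXP Pool.Agent.Q151.UM.core Pool.Agent.Q178.UM.PR.t_PR

/-- universal density theorem and exponential tails, windows of length `1 / log T` -/
theorem b_TAIL : ∃ θ c C : ℝ, 0 < θ ∧ θ ≤ 1 / 4 ∧ 0 < c ∧ 0 ≤ C ∧ TailB θ c C := by
  obtain ⟨P, q, c₀, C₀, hG, hW⟩ := Pool.Agent.Q175.UM.t_GEV2
  obtain ⟨D, hD, hM⟩ := b_MOLL2 c₀ hG.cpos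
  have hMo : ∀ κ : ℝ, Moll (til P κ) (D * C₀ ^ 4 * Real.exp (4 * |κ|)) := by
    intro κ
    obtain ⟨qκ, hq⟩ := hW κ
    have h := hM _ _ _ hq
    have e : D * (C₀ * Real.exp |κ|) ^ 4 = D * C₀ ^ 4 * Real.exp (4 * |κ|) := by
      rw [mul_pow, ← Real.exp_nat_mul]
      push_cast
      ring
    rw [e] at h
    exact h
  obtain ⟨θ, C, hθ, hθ1, hC, hR⟩ := Pool.Agent.Q175.UM.t_R2K P q c₀ C₀ (D * C₀ ^ 4) hG (by positivity) hMo b_TS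
    Pool.Agent.Q208.UM.t_AL Pool.Agent.Q84.UM.t_DPM Pool.Agent.Q84.UM.t_MVL
  obtain ⟨c₁, C₁, hc₁, hC₁, hT⟩ := Pool.Agent.Q16.UM.tail P q c₀ C₀ θ C hG hθ hθ1 hC hR Pool.Agent.Q208.UM.t_AL
    Pool.Agent.Q84.UM.t_DPM Pool.Agent.Q84.UM.t_MVL Pool.Agent.Q277.UM.TL.t_TL Pool.Agent.Q16.UM.cvb
    Pool.Agent.Q277.UM.t_FE Pool.Agent.Q16.UM.ms Pool.Agent.Q178.UM.ZF2.t_ZF2 Pool.Agent.Q277.UM.Sup.t_SUP
    Pool.Agent.Q178.UM.JEN.t_JEN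
  exact ⟨θ / 80, c₁, C₁, by positivity, by linarith, hc₁, hC₁, hT⟩

end Pool.Agent.Q97.UM
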