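import Pool.Agent.Q97.UM.Base2
import Pool.Agent.Q97.UM.Wc
import Pool.Agent.Q247.UM.OMEX
import Pool.Agent.Q247.UM.QLF
import Pool.Agent.Q247.UM.CONV
import Pool.Agent.Q176.UM.QH
import Pool.Agent.Q176.UM.PAIR
import Pool.Agent.Q178.UM.Eff
import Pool.Agent.Q222.UM.MV2
import Pool.Agent.Q222.UM.MER
import Pool.Agent.Q222.UM.GRM
import Pool.Agent.Q222.UM.MTW
import Pool.Agent.Q222.UM.ED
import Pool.Agent.Q222.UM.ERR
import Pool.Agent.Q150.UM.ZU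
import Pool.Agent.Q150.UM.LIN
import Pool.Agent.Q150.UM.PU
import Pool.Agent.Q61.UM.DET
import Pool.Agent.Q61.UM.EFL
import Pool.Agent.Q61.UM.SAMP

set_option autoImplicit false

/-! Project UM2: the Montgomery-Taylor proportion relative to every Dirichlet polynomial. -/

namespace Pool.Agent.Q97.UM

theorem b_EFL : S_EFL := Pool.Agent.Q61.UM.t_EFL Pool.Agent.Q178.UMEff.t_EFF Pool.Agent.Q176.UM.t_QH Pool.Agent.Q247.UM.t_QLF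

theorem b_PU : S_PU := Pool.Agent.Q150.UM.t_PU Pool.Agent.Q176.UM.t_QH Pool.Agent.Q247.UM.t_QLF Pool.Agent.Q84.UM.t_DPM
  Pool.Agent.Q222.UM.t_MV2 Pool.Agent.Q247.UM.t_CONV Pool.Agent.Q222.UM.t_MER

theorem b_ZU : S_ZU := Pool.Agent.Q150.UM.t_ZU Pool.Agent.Q176.UM.t_QH Pool.Agent.Q247.UM.t_QLF Pool.Agent.Q222.UM.t_MV2 b_EFL b_PU

theorem b_PAIR : S_PAIR := Pool.Agent.Q176.UM.t_PAIR Pool.Agent.Q176.UM.t_QH Pool.Agent.Q247.UM.t_QLF b_ZU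

theorem b_LIN : S_LIN := Pool.Agent.Q150.UM.t_LIN Pool.Agent.Q176.UM.t_QH Pool.Agent.Q247.UM.t_QLF Pool.Agent.Q222.UM.t_MV2 b_EFL b_PU

theorem b_DET : S_DET := Pool.Agent.Q61.UM.t_DET Pool.Agent.Q222.UM.t_GRM

theorem b_ED : S_ED := Pool.Agent.Q222.UM.t_ED Pool.Agent.Q84.UM.t_MVL Pool.Agent.Q84.UM.t_DPM Pool.Agent.Q178.UM.ZF2.t_ZF2

theorem b_ERR : S_ERR := Pool.Agent.Q222.UM.t_ERR Pool.Agent.Q84.UM.t_MVL

/-- the theorem in windows -/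
theorem b_WIN : S_WIN := t_WIN Pool.Agent.Q247.UM.t_OMEX Pool.Agent.Q176.UM.t_QH Pool.Agent.Q222.UM.t_MV2 b_PAIR b_LIN b_DET b_ED b_ERR
  Pool.Agent.Q222.UM.t_MTW b_TAIL

/-- the theorem at the zeros -/
theorem b_SAMP : S_SAMP := Pool.Agent.Q61.UM.t_SAMP Pool.Agent.Q84.UM.t_DPM Pool.Agent.Q222.UM.t_MV2 b_WIN

end Pool.Agent.Q97.UM
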