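import Pool.Agent.Q97.UM.Base3
import Pool.Agent.Q153.UM.PSE
import Pool.Agent.Q153.UM.ED2
import Pool.Agent.Q16.UM.Bdy2
import Pool.Agent.Q16.UM.Wpc
import Pool.Agent.Q16.UM.Spc

set_option autoImplicit false

/-! Project UM3: Montgomery's theorem relative to every Dirichlet polynomial. -/

namespace Pool.Agent.Q97.UM

theorem b_SDB : ∃ θ C₂ : ℝ, 0 < θ ∧ θ ≤ 1 / 4 ∧ 0 ≤ C₂ ∧ SDB θ C₂ := by
  obtain ⟨θ, c, C, hθ, hθ1, hc, hC, h⟩ := b_TAIL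
  obtain ⟨C₂, hC₂, h2⟩ := Pool.Agent.Q153.UM.t_ED2 Pool.Agent.Q84.UM.t_MVL Pool.Agent.Q84.UM.t_DPM Pool.Agent.Q178.UM.ZF2.t_ZF2
    θ c C hθ hθ1 hc hC h
  exact ⟨θ / 2, C₂, by positivity, by linarith, hC₂, h2⟩

theorem b_WPC : S_WPC := Pool.Agent.Q16.UM3.t_WPC Pool.Agent.Q247.UM.t_OMEX Pool.Agent.Q176.UM.t_QH b_PAIR Pool.Agent.Q153.UM.t_PSE
  (Pool.Agent.Q16.UM3.t_BDY Pool.Agent.Q84.UM.t_MVL) b_SDB

/-- on the Riemann hypothesis, Montgomery's theorem relative to every Dirichlet polynomial -/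
theorem b_SPC : S_SPC := Pool.Agent.Q16.UM3.t_SPC Pool.Agent.Q84.UM.t_DPM Pool.Agent.Q222.UM.t_MV2 Pool.Agent.Q84.UM.t_MVL b_SDB b_WPC

end Pool.Agent.Q97.UM
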