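import Pool.Agent.Q97.UM.Base3
import Pool.Agent.W354.ZP.Num

set_option autoImplicit false

/-! Project UM2: preparation of the hand-ins. -/

namespace Pool.Agent.Q97.UM

open Filter Topology MeasureTheory Complex

/-- the mean value with a small relative error -/
theorem mv_rel (η : ℝ) (hη : 0 < η) : ∀ᶠ T : ℝ in atTop, ∀ N : ℕ, (N : ℝ) ≤ T ^ (1 / 40 : ℝ) → ∀ b : ℕ → ℂ,
    |(∫ t in T..(2 * T), ‖dp N b t‖ ^ 2) - T * N2 N b| ≤ η * (T * N2 N b) := by
  obtain ⟨C₀, hC₀, h⟩ := Pool.Agent.Q222.UM.t_MV2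
  have hlim : Tendsto (fun T : ℝ => Real.log T ^ (1 : ℝ) / T ^ (1 / 40 : ℝ)) atTop (𝓝 0) :=
    (isLittleO_log_rpow_rpow_atTop (s := 1 / 40) 1 (by norm_num)).tendsto_div_nhds_zero
  have hlim2 : Tendsto (fun T : ℝ => T ^ (-(19 / 20) : ℝ)) atTop (𝓝 0) := tendsto_rpow_neg_atTop (by norm_num)
  filter_upwards [eventually_ge_atTop 3, hlim.eventually_le_const (show (0:ℝ) < 1 by norm_num),
    hlim2.eventually_le_const (show (0:ℝ) < η / (2 * C₀) by positivity)] with T hT h1 h2 N hN b
  rcases Nat.eq_zero_or_pos N with hN0 | hN0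
  · subst hN0
    simp [dp, N2]
  have hT0 : 0 < T := by linarith
  have hl1 : 1 ≤ Real.log T := by
    rw [Real.le_log_iff_exp_le hT0]
    have := Real.exp_one_lt_d9
    linarith
  have hTp : 0 < T ^ (1 / 40 : ℝ) := Real.rpow_pos_of_pos hT0 _
  have hlT : Real.log T ≤ T ^ (1 / 40 : ℝ) := by
    rw [Real.rpow_one, div_le_one hTp] at h1
    exact h1
  have hN1 : (1:ℝ) ≤ N := by exact_mod_cast hN0
  have hNT : (N : ℝ) ≤ T := hN.trans (by
    calc T ^ (1 / 40 : ℝ) ≤ T ^ (1 : ℝ) := Real.rpow_le_rpow_of_exponent_le (by linarith) (by norm_num)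
      _ = T := Real.rpow_one T)
  have hlN : Real.log N ≤ Real.log T := Real.log_le_log (by linarith) hNT
  have hlN0 : 0 ≤ Real.log N := Real.log_nonneg hN1
  have hN2 : 0 ≤ N2 N b := by unfold N2; positivity
  have key : C₀ * N * (1 + Real.log N) ≤ η * T := by
    have e1 : (N : ℝ) * (1 + Real.log N) ≤ T ^ (1 / 40 : ℝ) * (2 * T ^ (1 / 40 : ℝ)) := by
      apply mul_le_mul hN _ (by positivity) hTp.le
      linarith
    have e2 : T ^ (1 / 40 : ℝ) * (2 * T ^ (1 / 40 : ℝ)) = 2 * (T * T ^ (-(19 / 20) : ℝ)) := by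
      have : T ^ (1 / 40 : ℝ) * T ^ (1 / 40 : ℝ) = T * T ^ (-(19 / 20) : ℝ) := by
        rw [← Real.rpow_add hT0]
        nth_rewrite 2 [← Real.rpow_one T]
        rw [← Real.rpow_add hT0]
        norm_num
      linear_combination 2 * this
    have e3 : C₀ * (2 * (T * T ^ (-(19 / 20) : ℝ))) ≤ η * T := by
      have : T * T ^ (-(19 / 20) : ℝ) ≤ T * (η / (2 * C₀)) := mul_le_mul_of_nonneg_left h2 hT0.le
      calc C₀ * (2 * (T * T ^ (-(19 / 20) : ℝ))) ≤ C₀ * (2 * (T * (η / (2 * C₀)))) := by gcongr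
        _ = η * T := by field_simp
    calc C₀ * N * (1 + Real.log N) = C₀ * (N * (1 + Real.log N)) := by ring
      _ ≤ C₀ * (T ^ (1 / 40 : ℝ) * (2 * T ^ (1 / 40 : ℝ))) := by gcongr
      _ = C₀ * (2 * (T * T ^ (-(19 / 20) : ℝ))) := by rw [e2]
      _ ≤ η * T := e3
  have := h T (2 * T) (by linarith) N b hN0
  rw [show 2 * T - T = T by ring] at this
  calc _ ≤ C₀ * N * (1 + Real.log N) * N2 N b := this
    _ ≤ η * T * N2 N b := by gcongr
    _ = η * (T * N2 N b) := by ring

theorem cMT_strict : H370.cMTinv ≤ 1.3274995 := by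
  obtain ⟨h1, h2⟩ := Pool.Agent.W354.ZP.exp_num10
  rw [abs_le] at h1 h2
  have hd : 0 < Real.sqrt 2 * Real.sin (1 / Real.sqrt 2) := by
    have h3 := h2.1
    have h4 : (0:ℝ) < (1 - 1 / 12 + 1 / 480 - 1 / 40320 + 1 / 5806080) - 15 / 10 ^ 9 := by norm_num
    linarith
  unfold H370.cMTinv
  rw [Real.cot_eq_cos_div_sin, div_div, mul_comm (Real.sin _) (Real.sqrt 2)]
  have : Real.cos (1 / Real.sqrt 2) / (Real.sqrt 2 * Real.sin (1 / Real.sqrt 2)) ≤ 0.8274995 := by
    rw [div_le_iff₀ hd]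
    nlinarith [h1.1, h1.2, h2.1, h2.2]
  linarith

/-- simple zeros: multiplicity one means nonvanishing derivative -/
theorem mz_one {s : ℂ} (h0 : riemannZeta s = 0) (h1 : s ≠ 1) : mz s = 1 ↔ deriv riemannZeta s ≠ 0 := by
  have han : AnalyticAt ℂ riemannZeta s := by
    apply DifferentiableOn.analyticAt (s := {z : ℂ | z ≠ 1})
    · intro z hz
      exact (differentiableAt_riemannZeta hz).differentiableWithinAt
    · exact isOpen_ne.mem_nhds h1
  have hne : analyticOrderAt riemannZeta s ≠ ⊤ := by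
    intro htop
    have hev := analyticOrderAt_eq_top.mp htop
    have hfr : AnalyticOnNhd ℂ riemannZeta {z : ℂ | z ≠ 1} := by
      apply DifferentiableOn.analyticOnNhd _ isOpen_ne
      intro z hz
      exact (differentiableAt_riemannZeta hz).differentiableWithinAt
    have hpc : IsPreconnected {z : ℂ | z ≠ 1} := by
      have : IsConnected ({1}ᶜ : Set ℂ) := isConnected_compl_singleton_of_one_lt_rank (by simp) 1
      exact this.isPreconnected
    have := hfr.eqOn_zero_of_preconnected_of_eventuallyEq_zero hpc h1 hev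
    have h2 : riemannZeta 2 = 0 := this (by norm_num)
    exact riemannZeta_ne_zero_of_one_lt_re (by norm_num) h2
  have hd : deriv riemannZeta s ≠ 0 ↔ analyticOrderAt riemannZeta s = 1 := by
    constructor
    · intro h
      have h3 := han.analyticOrderAt_sub_eq_one_of_deriv_ne_zero h
      simpa [h0] using h3
    · intro h hder
      have h5 : (2 : ℕ∞) ≤ analyticOrderAt riemannZeta s := by
        rw [show (2 : ℕ∞) = ((2 : ℕ) : ℕ∞) from rfl, natCast_le_analyticOrderAt_iff_iteratedDeriv_eq_zero han]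
        intro i hi
        interval_cases i
        · simpa using h0
        · simpa using hder
      rw [h] at h5
      exact absurd h5 (by norm_num)
  rw [hd]
  unfold mz analyticOrderNatAt
  constructor
  · intro h
    rw [← ENat.natCast_toNat hne, h]; rfl
  · intro h
    rw [h]; rfl

end Pool.Agent.Q97.UM
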