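import Pool.Agent.Q97.UM.Base3
import Pool.Agent.Q97.UM.Rh
import Pool.Agent.Q204.UM.SUPC
import Pool.Agent.Q150.UM.KRO

set_option autoImplicit false

/-! Project UM2: extreme values and Kronecker's theorem at the simple critical zeros. -/

namespace Pool.Agent.Q97.UM

theorem b_SUPC : S_SUPC := Pool.Agent.Q204.UM.t_SUPC b_SAMP Pool.Agent.Q84.UM.t_DPM

theorem b_KRO : S_KRO := Pool.Agent.Q150.UM.t_KRO b_SUPC

/-- the members of `ZS` -/
theorem mem_ZS {T : ℝ} (hT : 1 ≤ T) {s : ℂ} (hs : s ∈ ZS T) :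
    T < s.im ∧ s.im ≤ 2 * T ∧ riemannZeta (1 / 2 + s.im * Complex.I) = 0 ∧ deriv riemannZeta (1 / 2 + s.im * Complex.I) ≠ 0 := by
  unfold ZS at hs
  rw [Finset.mem_filter, H370.mem_Zf H370.good_zeta hT] at hs
  obtain ⟨⟨_, _, h3, h4, h5⟩, h6, h7⟩ := hs
  have e : (1 / 2 + s.im * Complex.I : ℂ) = s := by
    apply Complex.ext
    · simp [h6]
    · simp
  have hs1 : s ≠ 1 := by
    intro h8
    rw [h8] at h6
    norm_num at h6
  refine ⟨h3, h4, ?_, ?_⟩
  · rw [e]; exact h5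
  · rw [e]; exact (mz_one h5 hs1).1 h7

end Pool.Agent.Q97.UM
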