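import Pool.Agent.Q97.UM.Base3
import Pool.Agent.Q97.UM.Rh
import Pool.Agent.Q16.UM.DENS
import Pool.Agent.Q16.UM.CLU

set_option autoImplicit false

/-! Project UM2: density theorem and clusters at the zeros. -/

namespace Pool.Agent.Q97.UM

open Filter

theorem b_EDB : ∃ θ c C : ℝ, 0 < θ ∧ θ ≤ 1 / 4 ∧ 0 < c ∧ 0 ≤ C ∧ EDB θ c C := by
  obtain ⟨θ, c, C, hθ, hθ1, hc, hC, h⟩ := b_TAIL
  obtain ⟨C₂, hC₂, h2⟩ := b_ED θ c C hθ hθ1 hc hC h
  exact ⟨θ / 2, c / 4, C₂, by positivity, by linarith, by positivity, hC₂, h2⟩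

theorem b_DENS : S_DENS := Pool.Agent.Q16.UM9.t_DENS Pool.Agent.Q84.UM.t_DPM b_EDB

theorem b_CLU : S_CLU := Pool.Agent.Q16.UM9.t_CLU Pool.Agent.Q84.UM.t_DPM Pool.Agent.Q84.UM.t_MVL Pool.Agent.Q178.UM.ZF2.t_ZF2 b_TAIL

/-- comparison of the two normalisations -/
theorem TN2_le : ∀ᶠ T : ℝ in atTop, ∀ N : ℕ, (N : ℝ) ≤ T ^ (1 / 40 : ℝ) → ∀ b : ℕ → ℂ,
    Real.log T * (T * N2 N b) ≤ 16 * (Real.log T / (2 * Real.pi) * ∫ t in T..(2 * T), ‖dp N b t‖ ^ 2) := by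
  filter_upwards [mv_rel (1 / 2) (by norm_num), eventually_ge_atTop 3] with T h hT N hN b
  have h1 := h N hN b
  rw [abs_le] at h1
  have hpi := Real.pi_pos
  have hpi4 := Real.pi_le_four
  have hL : 0 < Real.log T := Real.log_pos (by linarith)
  set J := ∫ t in T..(2 * T), ‖dp N b t‖ ^ 2
  have h2 : T * N2 N b ≤ 2 * J := by linarith [h1.1]
  have hJ : 0 ≤ J := by
    have : 0 ≤ T * N2 N b := by unfold N2; positivity
    linarith
  calc Real.log T * (T * N2 N b) ≤ Real.log T * (2 * J) := by gcongr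
    _ = (4 * Real.pi) * (Real.log T / (2 * Real.pi) * J) := by field_simp; ring
    _ ≤ 16 * (Real.log T / (2 * Real.pi) * J) := by
      apply mul_le_mul_of_nonneg_right _ (by positivity)
      linarith

end Pool.Agent.Q97.UM
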