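import Pool.Agent.Q97.UM.Stm11

set_option autoImplicit false

/-!
Project UM5 (helper97), part 3: truncated exponentials in blocks; lower bounds for products of shifted values of zeta of arbitrary real
orders and for the moments of `ζ'` over the isolated simple critical zeros (all real orders); extreme values of `ζ'` there. `L = log T`.
-/

namespace Pool.Agent.Q97.UM

open Filter Topology MeasureTheory Complex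

noncomputable section

/-! ### truncated exponentials -/

/-- TE: the truncated exponential. PROOF. `‖z‖ ≤ R/10`: `|E - e^z| ≤ ∑_{r > R} |z|^r/r! ≤ ∑_{r > R} (e/10)^r`, times `e^{R/10}`, is `≤ e^{-R}`. Otherwise
`log |E| ≤ ‖z‖`, `-Re z ≤ ‖z‖` and `2 ‖z‖ ≤ 2 ‖z‖ (10 ‖z‖/R)^5`. -/
def S_TE : Prop := ∀ (R : ℕ) (z : ℂ), 1 ≤ R → (∑ r ∈ Finset.range (R + 1), z ^ r / (r.factorial : ℂ)) ≠ 0 →
  Real.log ‖∑ r ∈ Finset.range (R + 1), z ^ r / (r.factorial : ℂ)‖ ≤ z.re + Real.exp (-(R : ℝ)) + 2 * (10 / (R : ℝ)) ^ 5 * ‖z‖ ^ 6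

/-- convolution powers -/
def cvp (q : ℕ → ℂ) : ℕ → (ℕ → ℂ)
  | 0 => fun n => if n = 1 then 1 else 0
  | (r + 1) => cv q (cvp q r)

/-- coefficients of the truncated exponential -/
def te (q : ℕ → ℂ) (R : ℕ) (n : ℕ) : ℂ := ∑ r ∈ Finset.range (R + 1), cvp q r n / (r.factorial : ℂ)

/-- block boundaries `exp(δ L e^{-j})`; here `D = δ L` -/
def XB (D : ℝ) (j : ℕ) : ℝ := Real.exp (D * Real.exp (-(j : ℝ)))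

/-- primes of block `j` -/
def PB (D : ℝ) (j : ℕ) : Finset ℕ := (Finset.Icc 1 ⌊XB D j⌋₊).filter (fun p => p.Prime ∧ XB D (j + 1) < p)

open Classical in
/-- coefficients of block `j`: `a p` at the primes and `a2 p / 2` at their squares -/
def qb (D : ℝ) (a a2 : ℕ → ℂ) (j n : ℕ) : ℂ :=
  (if n ∈ PB D j then a n else 0) + (if Nat.sqrt n ∈ PB D j ∧ n = Nat.sqrt n ^ 2 then a2 (Nat.sqrt n) / 2 else 0)

/-- degree of the truncation in block `j` -/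
def RB' (κ : ℝ) (j : ℕ) : ℕ := ⌈κ * Real.exp (3 / 4 * (j : ℝ))⌉₊

/-- coefficients of the product of the truncated exponentials of the blocks `0, ..., J - 1` -/
def eb (D κ : ℝ) (a a2 : ℕ → ℂ) : ℕ → (ℕ → ℂ)
  | 0 => fun n => if n = 1 then 1 else 0
  | (j + 1) => cv (te (qb D a a2 j) (RB' κ j)) (eb D κ a a2 j)

/-- number of blocks: `XB D (JB D) < 2` -/
def JB (D : ℝ) : ℕ := ⌈Real.log (2 * D)⌉₊

/-- BM: Mertens in the blocks. PROOF. `∑_{y < p ≤ y^e} 1/p ≤ 1 + C/log y` (Mertens; in the libraries behind `Q178.UM.PR`), `≤ C` for `y ≤ 2`. -/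
def S_BM : Prop := ∃ C : ℝ, 1 ≤ C ∧ ∀ (D : ℝ) (j : ℕ), 1 ≤ D → ∑ p ∈ PB D j, (1 : ℝ) / p ≤ C

/-- QM: convolution with one block, for ALL sequences. PROOF. `ν = max_{k ≤ K M} #{p ∈ PB D j : p | k} ≤ log(K M)/log XB D (j+1) =
log(K M) e^{j+1}/D`, since the primes of the block are `> XB D (j+1)`. `|(q * f)_k|² ≤ 2 ν ∑_{p | k} |a p|² |f(k/p)|² + 2 ν ∑_{p² | k} ¼ |a2 p|² |f(k/p²)|²`; sum over `k`
with weight `1/k`: `≤ 2 ν A² (∑_{PB} 1/p + ∑ 1/p²) N2 M f`. -/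
def S_QM : Prop := S_BM → ∃ C : ℝ, 1 ≤ C ∧ ∀ (D A : ℝ) (j K M : ℕ) (a a2 f : ℕ → ℂ), 1 ≤ D → 0 ≤ A → 1 ≤ M →
  ⌊XB D j⌋₊ ^ 2 ≤ K →
  (∀ n, ‖a n‖ ≤ A) → (∀ n, ‖a2 n‖ ≤ A) → (∀ n, M < n → f n = 0) →
    N2 (K * M) (cv (qb D a a2 j) f) ≤ C * A ^ 2 * (Real.exp (j : ℝ) * Real.log (K * M) / D) * N2 M f

/-- EL: lower bound for the mean square of the product. PROOF. Keep only squarefree `n = ∏ n_j`, `n_j` composed of primes of block `j`, `Ω(n_j) ≤ R_j`: there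
`eb n = ∏_{p | n} a p` (only the prime parts contribute and `r!` cancels). So `N2 ≥ ∏_j (∏_{p ∈ PB j} (1 + x_p) - tail_j)`, `x_p = |a p|²/p`,
`tail_j ≤ e^{-R_j} ∏ (1 + e x_p) ≤ e^{-R_j} exp(e ∑ x_p)`, `∏ (1 + x_p) ≥ exp(∑ x_p - ∑ x_p²)`, `∑_{PB j} x_p ≤ A² C` (BM). For `κ ≥ 8 A² C + 2A⁴ + 4` the
quotient `tail_j/main_j ≤ e^{-κ e^{3j/4}/2}`, so `∏ (1 - tail_j/main_j) ≥ 1/4`; `∑ x_p² ≤ 2A⁴`. All primes `≤ XB D 0 = e^D` are in the blocks, because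
`XB D (JB D) < 2`. `N` is any number `≥` the largest `n` in the support. -/
def S_EL : Prop := S_BM → ∀ A : ℝ, 1 ≤ A → ∃ κ₀ c : ℝ, 1 ≤ κ₀ ∧ 0 < c ∧ ∀ (κ D : ℝ) (a a2 : ℕ → ℂ) (N : ℕ), κ₀ ≤ κ → 1 ≤ D →
  (∀ n, ‖a n‖ ≤ A) → (∀ n, N < n → eb D κ a a2 (JB D) n = 0) →
    c * Real.exp (∑ p ∈ (Finset.Icc 1 ⌊Real.exp D⌋₊).filter Nat.Prime, ‖a p‖ ^ 2 / p) ≤ N2 N (eb D κ a a2 (JB D))

/-- the prime sum with squares -/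
def PA (X : ℕ) (a a2 : ℕ → ℂ) (t : ℝ) : ℂ := ∑ p ∈ (Finset.Icc 1 X).filter Nat.Prime,
  (a p * (p : ℂ) ^ (-(1 / 2 + t * I)) + a2 p / 2 * (p : ℂ) ^ (-(1 + 2 * t * I)))

/-- data of the approximation `E` of `exp(PA)` -/
structure EKd (δ κ C c T : ℝ) (a a2 : ℕ → ℂ) (N : ℕ) (e : ℕ → ℂ) (J M₀ : ℕ) (q : ℕ → ℕ → ℂ) (w : ℕ → ℝ) : Prop where
  len : (N : ℝ) ≤ T ^ (20 * κ * δ)
  supp : ∀ n, e n ≠ 0 → 1 ≤ n ∧ n ≤ N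
  low : c * Real.exp (∑ p ∈ (Finset.Icc 1 ⌊T ^ δ⌋₊).filter Nat.Prime, ‖a p‖ ^ 2 / p) ≤ N2 N e
  wn : ∀ j, 0 ≤ w j
  qs : ∀ j n, q j n ≠ 0 → 1 ≤ n ∧ n ≤ M₀
  M0 : (M₀ : ℝ) ≤ T ^ (2 * δ)
  up : ∀ t : ℝ, dp N e t ≠ 0 → Real.log ‖dp N e t‖ ≤ (PA ⌊T ^ δ⌋₊ a a2 t).re + C + ∑ j ∈ Finset.range J, w j * ‖dp M₀ (q j) t‖ ^ 6
  mean : ∀ (M : ℕ) (f : ℕ → ℂ), 1 ≤ M → (M : ℝ) ≤ T ^ ((1 + 20 * κ) * δ) → (∀ n, M < n → f n = 0) →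
    ∑ j ∈ Finset.range J, w j * N2 (M₀ ^ 3 * M) (cv (q j) (cv (q j) (cv (q j) f))) ≤ C * N2 M f

/-- EK: existence. Job `J_EK`. PROOF. `D = δ L`, `e = eb D κ a a2 J`, `J = JB D`, `q j = qb D a a2 j`, `M₀ = ⌊T^{2δ}⌋`, `R_j = RB' κ j`, `w j = 2 (10/R_j)^5`.
`dp` of `te q R` is the truncated exponential of `dp q` (S_DPM), `dp` of `eb` is the product; `PA` is the sum of the `dp (q j)` (all primes `≤ e^D = T^δ` are in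
the blocks `j < J`). Length: `∏ (XB_j²)^{R_j} = exp(2D ∑ R_j e^{-j})`, `∑ (κ e^{3j/4} + 1) e^{-j} ≤ 7κ`. `up`: S_TE in each block, `∑ e^{-R_j} ≤ C`.
`mean`: three times S_QM with `log(K M) ≤ ((1 + 20κ) + 6) D` (take `K = M₀`, or `⌈XB_j²⌉`), so `N2 ≤ (C A² κ e^j)³ N2 M f`, and `w_j ≤ C κ^{-5} e^{-15j/4}`. -/
def S_EK : Prop := ∀ A : ℝ, 1 ≤ A → ∃ κ : ℝ, 1 ≤ κ ∧ ∀ δ : ℝ, 0 < δ → ∃ C c : ℝ, 0 ≤ C ∧ 0 < c ∧ ∀ᶠ T : ℝ in atTop, ∀ a a2 : ℕ → ℂ,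
  (∀ n, ‖a n‖ ≤ A) → (∀ n, ‖a2 n‖ ≤ A) → ∃ (N : ℕ) (e : ℕ → ℂ) (J M₀ : ℕ) (q : ℕ → ℕ → ℂ) (w : ℕ → ℝ),
    EKd δ κ C c T a a2 N e J M₀ q w

def J_EK : Prop := S_TE → S_BM → S_QM → S_EL → S_DPM → S_EK

/-! ### lower bounds -/

/-- coefficients of `∏ ζ(s + iα_j)^{k_j}` at the primes -/
def ap {n : ℕ} (k α : Fin n → ℝ) (p : ℕ) : ℂ := ∑ j, (k j : ℂ) * (p : ℂ) ^ (-(α j * I))

/-- LBM: products of shifted values, all real orders, relative to every Dirichlet polynomial. Job `J_LBM`. PROOF. `a p = ap k α p`, `a2 p = ap k (2α) p`, bounded by `A`;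
`κ` from S_EK, `δ` small: `(1 + 20κ) δ ≤ 1/40`, `δ ≤` the bounds `θ, δ₀` of S_THP for `m = 1`, also `20κδ` plus `θ` below `θ_THP`; `θ = δ`. Let `F = dp M e · dp N b =
dp (M N) (cv e b)`. If `F = 0` nothing to prove. Jensen's inequality for the probability measure `|F|² dt / ∫_T^{2T} |F|²`:
`∫ ∏ |ζ_j|^{2k_j} |B|² ≥ ∫|F|² · exp( (∫|F|²)^{-1} ∫ |F|² (2 ∑ k_j log|ζ_j| - 2 log|E|) )` (the set `E = 0` or `ζ_j = 0` is finite). S_THP (`m = 1`) for the polynomial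
`F(s - α_j)` (S_DPM), `s ∈ [T/2, 5T/2]`: `∫ |F|² |log|ζ(1/2+i(t+α_j))| - EP(t+α_j)| ≤ C T N2`; `|∑ k_j EP(t+α_j) - Re PA(t)| ≤ C A` (cubes and higher powers of primes);
`∫ |F|² (log|E| - Re PA) ≤ C T N2` by `EKd.up`, `EKd.mean` and S_MVL (`dp M₀ q ^3 · F = dp (M₀³ M N) (cv q (cv q (cv q f)))`). And `∫|F|² ≥ T/2 N2`.
Use ENNReal integrals on the left (for negative orders the integral may be infinite). -/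
def S_LBM : Prop := ∀ A : ℝ, 1 ≤ A → ∃ δ θ c : ℝ, 0 < δ ∧ δ ≤ 1 / 40 ∧ 0 < θ ∧ 0 < c ∧ ∀ᶠ T : ℝ in atTop, ∀ (n : ℕ) (k α : Fin n → ℝ),
  ∑ j, |k j| ≤ A → (∀ j, |α j| ≤ T / 2) → ∃ (M : ℕ) (e : ℕ → ℂ), (M : ℝ) ≤ T ^ (1 / 8 : ℝ) ∧ (∀ m, e m ≠ 0 → 1 ≤ m ∧ m ≤ M) ∧
    c * Real.exp (∑ p ∈ (Finset.Icc 1 ⌊T ^ δ⌋₊).filter Nat.Prime, ‖ap k α p‖ ^ 2 / p) ≤ N2 M e ∧
    ∀ N : ℕ, (N : ℝ) ≤ T ^ θ → ∀ b : ℕ → ℂ, (∀ m, b m ≠ 0 → 1 ≤ m ∧ m ≤ N) →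
      ENNReal.ofReal (c * T * N2 (M * N) (cv e b)) ≤
        ∫⁻ t in Set.Icc T (2 * T), ENNReal.ofReal ((∏ j, ‖zt (t + α j)‖ ^ (2 * k j)) * ‖dp N b t‖ ^ 2)

def J_LBM : Prop := S_THP → S_EK → S_DPM → S_MVL → S_LBM

/-- MZ: Mertens and zeta on the line `1 + 1/log T`. PROOF. `log|ζ(1 + 1/L + iu)| = ∑_p cos(u log p) p^{-1-1/L} + O(1)`;
`∑_{p ≤ T^δ} (p^{-1} - p^{-1-1/L}) ≤ (1/L) ∑ (log p)/p = O(1)`, `∑_{p > T^δ} p^{-1-1/L} = O(1)` by Mertens and Abel summation (dyadic in `log p`). -/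
def S_MZ : Prop := ∀ δ : ℝ, 0 < δ → δ ≤ 1 → ∃ C : ℝ, ∀ᶠ T : ℝ in atTop, ∀ u : ℝ,
  |(∑ p ∈ (Finset.Icc 1 ⌊T ^ δ⌋₊).filter Nat.Prime, Real.cos (u * Real.log p) / p) -
    Real.log ‖riemannZeta (1 + 1 / Real.log T + u * I)‖| ≤ C

/-- LBD: moments of `ζ'` over the isolated simple critical zeros, all real orders, relative to every Dirichlet polynomial. Job `J_LBD`. PROOF. As LBM, with sums over `ZI d T`: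
`a = a2 = lam`; `d` from S_SAMPI with `ε = 1/10` (`2 - cMTinv ≥ 0.6`), `F = dp (M N) (cv e b)`, `∑_{ZI} |F|² ≥ (1/20) L T N2`; S_THD (`m = 1`) for `F`;
`∑_{ZI} |F|² (log|E| - Re PA)⁺ ≤ C L T N2` by `EKd.up`, `EKd.mean` and the third part of S_SAMP. Jensen for finite sums. All lengths must be `≤ T^{θ'}`, `θ'` the smallest of
the constants of S_SAMPI, S_SAMP, S_THD: choose `δ` small in terms of `κ` and `θ'`. -/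
def S_LBD : Prop := ∃ d : ℝ, 0 < d ∧ ∀ A : ℝ, 1 ≤ A → ∃ δ θ c : ℝ, 0 < δ ∧ δ ≤ 1 / 40 ∧ 0 < θ ∧ 0 < c ∧ ∀ᶠ T : ℝ in atTop, ∀ lam : ℝ,
  |lam| ≤ A → ∃ (M : ℕ) (e : ℕ → ℂ), (M : ℝ) ≤ T ^ (1 / 8 : ℝ) ∧ (∀ m, e m ≠ 0 → 1 ≤ m ∧ m ≤ M) ∧
    c * Real.log T ^ (lam ^ 2) ≤ N2 M e ∧ ∀ N : ℕ, (N : ℝ) ≤ T ^ θ → ∀ b : ℕ → ℂ, (∀ m, b m ≠ 0 → 1 ≤ m ∧ m ≤ N) →
      c * T * Real.log T ^ (1 + 2 * lam) * N2 (M * N) (cv e b) ≤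
        ∑ s ∈ ZI d T, ‖deriv riemannZeta s‖ ^ (2 * lam) * ‖dp N b s.im‖ ^ 2

def J_LBD : Prop := S_SAMPI → S_SAMP → S_THD → S_EK → S_MZ → S_DPM → S_LBD

/-! ### extreme values -/

/-- coefficients of `∑_{p ≤ X} p^{-s}` -/
def prc (X n : ℕ) : ℂ := if n.Prime ∧ n ≤ X then 1 else 0

open Classical in
/-- RES: the resonator. PROOF. `𝒫` = primes in `(L², L⁴]`, `S₁ = ∑_𝒫 1/p ∈ [1/2, 1]` (Mertens), `K = ⌊θ L / (4 log L)⌋`, `μ² = K/10`, `r = te (σ μ 1_𝒫) K`, so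
`r(n) = (σμ)^{Ω(n)} / ∏ v_p(n)!` for `n` composed of primes of `𝒫` with `Ω(n) ≤ K`, `N = ⌊L⁴⌋^K ≤ T^θ`; `a = μ S₁`. For `Ω(n) ≤ K`:
`(1_𝒫 * r)(n) = ∑_{p | n} r(n/p) = σ Ω(n) r(n)/μ`; for `Ω(n) = K + 1` the same with `r(n)` replaced by its formula. So
`N2((1_𝒫 - σ a) * r) ≤ ∑_{Ω ≤ K+1} r(n)²/n (Ω/μ - a)²`, and with `x_p = μ²/p ≤ 1/L`: `∑_n r(n)²/n z^{Ω(n)} = ∏ I(z x_p)`, `I(x) = ∑ x^k/k!²`; compare with the Poisson law of mean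
`μ² S₁`: the mean of `(Ω - μ² S₁)²` is at most `2 μ² S₁ + C`. (Direct: `∑_n w(n) Ω = ∑_p x_p I'(x_p)/I(x_p) W`, `I'(x)/I(x) = 1 + O(x)`,
`∑ w (Ω - E Ω)² = ∑_p Var`, `Var ≤ 2 x_p`.) Truncation at `K ≥ 10 μ² S₁`: the part `Ω > K` of the full sum is at most `e^{-K} ∏ I(e x_p) ≤ e^{-K/2}` times the whole.
The primes outside `𝒫`: `n = p m`, `p ∉ 𝒫`, unique, disjoint from the support above: `∑_{p ≤ X} 1/p · N2 r ≤ (log log X + C) N2 r`. -/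
def S_RES : Prop := ∀ θ : ℝ, 0 < θ → θ ≤ 1 → ∃ c C : ℝ, 0 < c ∧ 0 ≤ C ∧ ∀ᶠ T : ℝ in atTop, ∀ σ : ℝ, σ = 1 ∨ σ = -1 →
  ∃ (N : ℕ) (r : ℕ → ℂ) (a : ℝ), (N : ℝ) ≤ T ^ θ ∧ (∀ n, r n ≠ 0 → 1 ≤ n ∧ n ≤ N) ∧ 1 ≤ N2 N r ∧
    c * Real.sqrt (Real.log T / Real.log (Real.log T)) ≤ a ∧
    ∀ X : ℕ, Real.log T ^ 4 ≤ X → (X : ℝ) ≤ T →
      N2 (X * N) (fun n => cv (prc X) r n - σ * a * r n) ≤ C * Real.log (Real.log T) * N2 N r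

/-- EXT: extreme values of the derivative at isolated simple critical zeros. Job `J_EXT`. PROOF. `d` from S_SAMPI (`ε = 1/10`), `R = dp N r` of S_RES with `θ` small (`≤ ε/2` and the
lengths `X N` admissible), `X = ⌊T^δ⌋`. `∑_{ZI} |R|² ≥ (1/20) L T N2`. By S_THD (`m = 1`) and S_SAMP (third part for `dp (X N) (prc * r - σ a r)`), the part of `∑_{ZI} |R|²` where
`|log|ζ'| - log L - EP| > K` or `|dp X prc - σ a| > K √(log L)` is at most `(C/K + C/K²) L T N2`; and `|EP - Re dp X prc| ≤ log L + C`. So for large fixed `K` the zeros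
with `|log|ζ'(s)| - σ a| ≤ 4 log L` have `∑ |R|² ≥ (1/40) L T N2`; `|R|² ≤ N · N2` (S_DPM), so there are at least `T/N ≥ T^{1-ε}` of them. -/
def S_EXT : Prop := ∃ d : ℝ, 0 < d ∧ ∀ ε : ℝ, 0 < ε → ∃ c : ℝ, 0 < c ∧ ∀ᶠ T : ℝ in atTop,
  T ^ (1 - ε) ≤ (((ZI d T).filter (fun s => Real.exp (c * Real.sqrt (Real.log T / Real.log (Real.log T))) ≤
    ‖deriv riemannZeta s‖)).card : ℝ) ∧
  T ^ (1 - ε) ≤ (((ZI d T).filter (fun s => ‖deriv riemannZeta s‖ ≤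
    Real.exp (-(c * Real.sqrt (Real.log T / Real.log (Real.log T)))))).card : ℝ)

def J_EXT : Prop := S_SAMPI → S_SAMP → S_THD → S_RES → S_DPM → S_EXT

end

end Pool.Agent.Q97.UM
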