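import Pool.Agent.Q97.UM.Base6
import Pool.Agent.Q97.UM.Stm12
import Pool.Agent.Q177.UM.KB
import Pool.Agent.Q177.UM.DETP
import Pool.Agent.Q121.UM.LIT
import Pool.Agent.Q121.UM.KLG
import Pool.Agent.Q257.UM.VAV
import Pool.Agent.Q257.UM.STM
import Pool.Agent.Q257.UM.SNG
import Pool.Agent.Q257.UM.DSC
import Pool.Agent.Q149.UM.LOC
import Pool.Agent.Q149.UM.EUL
import Pool.Agent.Q149.UM.MZ
import Pool.Agent.Q65.UM.DETD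
import Pool.Agent.Q65.UM.PMD
import Pool.Agent.Q198.UM.PRM
import Pool.Agent.Q198.UM.BM
import Pool.Agent.Q251.UM.PMM
import Pool.Agent.Q247.UM.THP
import Pool.Agent.Q247.UM.THD
import Pool.Agent.Q275.UM.ISOW
import Pool.Agent.Q148.UM.DETI
import Pool.Agent.Q148.UM.WINI
import Pool.Agent.Q148.UM.SAMPI
import Pool.Agent.Q14.UM.EK
import Pool.Agent.Q98.UM.LBM
import Pool.Agent.Q98.UM.LBD
import Pool.Agent.Q98.UM.EXT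
import Pool.Agent.Q241.UM.RES

set_option autoImplicit false

/-! Project UM5: base theorems. -/

namespace Pool.Agent.Q97.UM

open Filter

theorem b_KER : ∃ ψ₁ k₀ : ℝ → ℝ, Ker ψ₁ k₀ := by
  obtain ⟨ψ₁, k₀, C, h1, h2, h3, h4, h5, h6, h7, h8⟩ := Pool.Agent.Q195.UM.t_KER
  exact ⟨ψ₁, k₀, h1, h2, h3, h4, h6, h7, h8⟩

theorem b_VAV : S_VAV := Pool.Agent.Q257.UM.VA.t_VAV Pool.Agent.Q177.UM.t_KB Pool.Agent.Q121.UM.t_LIT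

theorem b_KLG : S_KLG := Pool.Agent.Q121.UM.t_KLG Pool.Agent.Q177.UM.t_KB

theorem b_STM : S_STM := Pool.Agent.Q257.UM.ST.t_STM Pool.Agent.Q84.UM.t_DPM Pool.Agent.Q84.UM.t_MVL Pool.Agent.Q178.UM.ZF2.t_ZF2

theorem b_SNG : S_SNG := Pool.Agent.Q257.UM.t_SNG Pool.Agent.Q84.UM.t_DPM Pool.Agent.Q84.UM.t_MVL

theorem b_DSC : S_DSC := Pool.Agent.Q257.UM.t_DSC Pool.Agent.Q84.UM.t_DPM Pool.Agent.Q84.UM.t_MVL

theorem b_EUL : S_EUL := Pool.Agent.Q149.UM.t_EUL Pool.Agent.Q177.UM.t_KB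

theorem b_PMM : S_PMM := Pool.Agent.Q251.UM.t_PMM Pool.Agent.Q84.UM.t_DPM Pool.Agent.Q84.UM.t_MVL Pool.Agent.Q198.UM.t_PRM

theorem b_PMD : S_PMD := Pool.Agent.Q65.UM.t_PMD Pool.Agent.Q84.UM.t_DPM Pool.Agent.Q198.UM.t_PRM b_SAMP

theorem b_DETI : S_DETI := Pool.Agent.Q148.UM.t_DETI Pool.Agent.Q222.UM.t_GRM Pool.Agent.Q275.UM.t_ISOW

theorem b_WINI : S_WINI := Pool.Agent.Q148.UM.t_WINI Pool.Agent.Q247.UM.t_OMEX Pool.Agent.Q176.UM.t_QH Pool.Agent.Q222.UM.t_MV2 b_PAIR b_LIN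
  b_DETI b_ED b_ERR Pool.Agent.Q222.UM.t_MTW b_TAIL b_WIN

/-- the isolated simple critical zeros relative to every Dirichlet polynomial -/
theorem b_SAMPI : S_SAMPI := Pool.Agent.Q148.UM.t_SAMPI Pool.Agent.Q84.UM.t_DPM Pool.Agent.Q222.UM.t_MV2 Pool.Agent.Q84.UM.t_MVL b_EDB b_WIN b_WINI

theorem b_EK : S_EK := Pool.Agent.Q14.UM.t_EK Pool.Agent.Q14.UM.t_TE Pool.Agent.Q198.UM.t_BM Pool.Agent.Q14.UM.t_QM Pool.Agent.Q14.UM.t_EL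
  Pool.Agent.Q84.UM.t_DPM

end Pool.Agent.Q97.UM
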