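import Pool.Agent.Q97.UM.Base7
import Pool.Agent.Q149.UM.DETQ

set_option autoImplicit false

/-! Project UM5: Theorem P and its companions. -/

namespace Pool.Agent.Q97.UM

open Filter

theorem b_DETQ : S_DETQ := Pool.Agent.Q149.UM.t_DETQ Pool.Agent.Q177.UM.t_KB b_VAV Pool.Agent.Q149.UM.t_LOC b_KLG

theorem b_DETP : S_DETP := Pool.Agent.Q177.UM.t_DETP Pool.Agent.Q177.UM.t_KB b_KLG b_DETQ

theorem b_DETD : S_DETD := Pool.Agent.Q65.UM.t_DETD Pool.Agent.Q177.UM.t_KB b_KLG b_DETQ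

/-- Theorem P -/
theorem b_THP : S_THP := Pool.Agent.Q247.UM.t_THP Pool.Agent.Q177.UM.t_KB b_DETP b_STM b_SNG b_EUL b_PMM Pool.Agent.Q84.UM.t_MVL b_KER b_TAIL

/-- the derivative at the zeros -/
theorem b_THD : S_THD := Pool.Agent.Q247.UM.t_THD Pool.Agent.Q177.UM.t_KB b_DETD b_STM b_DSC b_EUL b_PMD b_SAMP b_KER b_TAIL

theorem b_LBM : S_LBM := Pool.Agent.Q98.UM.t_LBM b_THP b_EK Pool.Agent.Q84.UM.t_DPM Pool.Agent.Q84.UM.t_MVL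

theorem b_LBD : S_LBD := Pool.Agent.Q98.UM.t_LBD b_SAMPI b_SAMP b_THD b_EK Pool.Agent.Q149.UM.t_MZ Pool.Agent.Q84.UM.t_DPM

theorem b_EXT : S_EXT := Pool.Agent.Q98.UM.t_EXT b_SAMPI b_SAMP b_THD Pool.Agent.Q241.UM.t_RES Pool.Agent.Q84.UM.t_DPM

end Pool.Agent.Q97.UM
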