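import Pool.Agent.Q97.UM.Stm7
import Pool.Agent.Q97.UM.Stm11

set_option autoImplicit false

/-!
Project UM6 (helper97). UNCONDITIONAL: small gaps and large gaps between the zeros relative to EVERY Dirichlet polynomial (the theorem of
Selberg and Fujii for every weight `|B|²`). On RH: what the Alternative Hypothesis would say relative to every Dirichlet polynomial.
Available: `b_ZU : S_ZU`, `b_SAMP : S_SAMP`, `b_C : S_C`, `b_SPC : S_SPC` and more (Pool/Agent/Q97/UM/Base*.lean). `L = log T`.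
-/

namespace Pool.Agent.Q97.UM

open Filter Topology MeasureTheory Complex

noncomputable section

/-! ### gaps -/

/-- LAT: an almost periodic sequence has no Fourier mass at frequencies which are not integers. PROOF. `g(x) = e^{iαx} (om w x)² =
∫ qh w (v) e^{i(α+v)x} dv` (third and fourth part of S_QH), so `g` is Lipschitz, `|g(x)| ≤ C'/(1+|x|)^4` (OmW.near, OmW.far for real `x`, `K ≥ 2`), and
its Fourier transform is supported in `[α - 2δ, α + 2δ]` (as a frequency of `e^{ivx}`), which contains no integer: by Poisson summation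
(Mathlib: `Real.tsum_eq_tsum_fourierIntegral_of_rpow_decay` and relatives, for the continuous compactly supported function `v ↦ qh w v` or for
`g`) `∑_{j ∈ ℤ} g(y + 2πj) = 0` for all `y`. If `ηA ≥ 1` the claim is trivial, because `n ≤ A + 1` and `g` is bounded. Otherwise take `y = x 0`:
`|x j - y - 2πj| ≤ 2πη j ≤ 2πηA`, so the sum differs from `∑_{0 ≤ j < n} g(y + 2πj)` by at most `C η A²`, and the terms of the full sum with `j < 0` or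
`j ≥ n` have `|y + 2πj| ≥ A - 20`: at most `C / A²`. -/
def S_LAT : Prop := ∀ (δ H C : ℝ) (K : ℕ) (w : ℝ → ℝ) (α : ℝ), 0 < δ → δ ≤ 1 / 16 → 1 ≤ H → 1 ≤ C → 2 ≤ K → OmW δ H C K w →
  2 * δ < α → α + 2 * δ < 1 → ∃ C₁ : ℝ, 0 ≤ C₁ ∧ ∀ (A η : ℝ) (n : ℕ) (x : ℕ → ℝ), 100 ≤ A → 0 < η → η ≤ 1 / 2 → 1 ≤ n →
    (∀ j < n, |x j| ≤ A) → (∀ j, j + 1 < n → |x (j + 1) - x j - 2 * Real.pi| ≤ 2 * Real.pi * η) → x 0 ≤ -A + 4 * Real.pi →
    A - 4 * Real.pi ≤ x (n - 1) →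
    ‖∑ j ∈ Finset.range n, cexp (I * (α * x j : ℝ)) * om w (x j : ℝ) ^ 2‖ ≤ C₁ * (η * A ^ 2 + 1 / A ^ 2)

def J_LAT : Prop := S_QH → S_LAT

/-- good zeros: simple, no other ordinate closer than `1 - η` times the average spacing, and the next and the previous ordinate at distance at most
`1 + η` times the average spacing. A zero off the line is not good, since `1 - conj s` has the same ordinate. -/
def Gd (η T : ℝ) (s : ℂ) : Prop := mz s = 1 ∧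
  (∀ s' ∈ ZD T, s' ≠ s → (1 - η) * (2 * Real.pi / Real.log T) ≤ |s'.im - s.im|) ∧
  (∃ s' ∈ ZD T, s.im < s'.im ∧ s'.im ≤ s.im + (1 + η) * (2 * Real.pi / Real.log T)) ∧
  (∃ s' ∈ ZD T, s'.im < s.im ∧ s.im - (1 + η) * (2 * Real.pi / Real.log T) ≤ s'.im)

/-- UGP: where all zeros are good the local zero sum is small. Job `J_UGP`. PROOF. `x = L(γ - t)`, `y = L|β - 1/2| ≤ L/2`. Terms of `Zt` with `|x| > A`:
`|e^{iu zz}| ≤ e^{αy}`, `|om w (L(zz - t))|² ≤ C² e^{2δy}/(1 + |x| - H)^{2K} ≤ C' e^{2δy}/(1+|x|)^4`, `|e^{-(zz-t)²/2}| ≤ e^{y²/(2L²)} ≤ 2`, and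
`(1+|x|)^{-4} ≤ A^{-2} (1+|x|)^{-2}`: total `≤ (C₁/A²) SS`. Terms with `|x| ≤ A`: all these zeros are good, so simple and on the line, `zz = γ`; the term is
`e^{iut} e^{iαx} (om w x)² (1 + O(A²/L²))`. If there is no such zero nothing remains. Otherwise list them in increasing order, `x_0 < ... < x_{n-1}`: consecutive
differences are in `[2π(1-η), 2π(1+η)]` (the next zero of a good zero of the window which is still in the window is the next of the list), and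
`x_0 - 2π(1+η) < -A` because the previous zero of `x_0` is not in the window, the same at the right end. S_LAT. (`t` is at distance `≥ 2L` from `T`, `2T`,
so the zeros of `ZD T` with `|x| ≤ A` are those of `ZT T`.) -/
def S_UGP : Prop := ∀ (δ H C : ℝ) (K : ℕ) (w : ℝ → ℝ) (α : ℝ), 0 < δ → δ ≤ 1 / 16 → 1 ≤ H → 1 ≤ C → 2 ≤ K → OmW δ H C K w →
  2 * δ < α → α + 2 * δ < 1 → ∃ C₁ : ℝ, 0 ≤ C₁ ∧ ∀ A η : ℝ, 100 ≤ A → 2 * H ≤ A → 0 < η → η ≤ 1 / 2 → ∀ᶠ T : ℝ in atTop, ∀ t : ℝ,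
    T + 2 * Real.log T ≤ t → t ≤ 2 * T - 2 * Real.log T → (∀ s ∈ ZD T, |s.im - t| ≤ A / Real.log T → Gd η T s) →
    ‖Zt w T (α * Real.log T) t‖ ≤ C₁ * (η * A ^ 2 + 1 / A ^ 2) + C₁ / A ^ 2 * SS ((α + 2 * δ) / 2) T t

def J_UGP : Prop := S_LAT → S_UGP

open Classical in
/-- UGB: bad zeros carry a positive proportion of the mass of every Dirichlet polynomial. Job `J_UGB`. PROOF. `TailB θ₀ c₀ C`. Put `α = min (c₀/100) (1/8)`,
then `δ < α/4` and `θ` with `C₀(δ + √θ) ≤ α/8` (`C₀` of S_ZU), `K = 2`, `C` from S_OMEX, `H = 8 C⁴`, so `I2 ≥ H/(2π) > 0` by the last part of S_QH. By S_ZU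
at `u = αL`: `∫ ‖Zt‖² |B|² ≥ (α/2) I2 T N2` for large `T` (integrals over `[T + 2L, 2T - 2L]`). Let `E` be the set of `t` with a zero `s ∈ ZD T`,
`|s.im - t| ≤ A/L`, not good. Outside `E`: `‖Zt‖² ≤ 2 C₁² (ηA² + A^{-2})² + 2 C₁² A^{-4} SS²` (UGP); S_STM (`m = 2`), S_MVL: total `≤ (α/8) I2 T N2` for `A`
large, then `η` small. On `E`: always `‖Zt‖ ≤ C₂ SS` (as in UGP, all terms), so
`∫_E ‖Zt‖² |B|² ≤ C₂² (∫ SS⁴ |B|²)^{1/2} (∫_E |B|²)^{1/2}` (S_STM, `m = 4`, `16 δ' · 5 ≤ c₀` for `δ' = (α + 2δ)/2`), and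
`∫_E |B|² ≤ ∑_{bad} ∫_{|t-γ| ≤ A/L} |B|² ≤ (2A/L) ∑_{bad} |B(γ)|² + (4A/L) ∫ Nw(A/L) |B B'|`, `B' = dp N b'`, `b'_n = b_n log n`, `N2 N b' ≤ (θL)² N2 N b`,
`∫ Nw |B B'| ≤ (∫ Nw |B|²)^{1/2} (∫ Nw |B'|²)^{1/2} ≤ C(A) θ L T N2` (for instance `Nw(A/L) ≤ (1+A)² SS`, S_STM with `m = 1`): small for `θ` small in terms of `A`
(as in `J_SAMP`, theorem `Pool.Agent.Q61.UM.t_SAMP`). So the sum over the bad zeros is at least `c L T N2`. (A bad zero near `t ∈ [T + 2L, 2T - 2L]` has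
`T < γ ≤ 2T`.) -/
def S_UGB : Prop := ∃ θ c η : ℝ, 0 < θ ∧ 0 < c ∧ 0 < η ∧ η ≤ 1 / 2 ∧ ∀ᶠ T : ℝ in atTop, ∀ N : ℕ, (N : ℝ) ≤ T ^ θ → ∀ b : ℕ → ℂ,
  c * Real.log T * (T * N2 N b) ≤ ∑ s ∈ (H370.Zf riemannZeta T (2 * T)).filter (fun s => ¬ Gd η T s), (mz s : ℝ) * ‖dp N b s.im‖ ^ 2

def J_UGB : Prop := S_UGP → S_OMEX → S_QH → S_ZU → S_STM → S_DPM → S_MV2 → S_MVL →
  (∃ θ c C : ℝ, 0 < θ ∧ θ ≤ 1 / 4 ∧ 0 < c ∧ 0 ≤ C ∧ TailB θ c C) → S_UGB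

open Classical in
/-- UG2: small and large gaps. Job `J_UG2`. PROOF. For the distinct ordinates `γ < γ⁺` of zeros let `g(γ) = (γ⁺ - γ) L/2π`, `M(γ)` = number of zeros (with
multiplicity) of ordinate `γ`. (a) `|B(γ)|²` and `|B(γ⁺)|²` differ by at most `2 ∫_γ^{γ⁺} |B B'|`, in total `≤ 2 ∫ |B B'| ≤ C θ L T N2`. (b) For every `ε` there is
`A` such that the `t` in gaps with `g ≥ A` have `∫ |B|² ≤ ε T N2`: one of `[t, t + πA/L]`, `[t - πA/L, t]` has no zero, so S_C applies at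
`t ± πA/(2L)` (`Zo` empty; shift the polynomial, S_DPM). (c) For `g ≤ A`: `|(γ⁺ - γ)|B(γ)|² - ∫_γ^{γ⁺} |B|²| ≤ (2πA/L) 2 ∫_γ^{γ⁺} |B B'|`, in total
`≤ C A θ T N2`; so for `θ` small in terms of `A, ε`: `∑_{g ≤ A} g |B(γ)|² = (L/2π) T N2 + O(ε L T N2)`; and `∑_{g > A} |B(γ)|² ≤ ε L T N2`
(`(2π A/L) |B(γ)|² ≤ 2 ∫_γ^{γ + 2πA/L} |B|² + ...`). With `∑ M |B(γ)|² = (L/2π) T N2 + O(ε L T N2)` (S_SAMP, third part):
`∑_{g ≤ A} (g - 1)⁺ |B|² = ∑ (1 - g)⁺ |B|² + ∑ (M - 1) |B|² + O(ε L T N2)`. (d) By S_UGB and (a), the zeros with `M ≥ 2` or `g < 1 - η₀` or `g > 1 + η₀` carry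
at least `(c₀/4) L T N2` (a zero which is not good has `M ≥ 2`, or one of its two neighbouring gaps is `< 1 - η₀` or `> 1 + η₀`). So one, hence by (c) both sides of the
identity are at least `c₁ L T N2`, `c₁ = c₁(c₀, η₀)`, after `ε` is chosen small in terms of `c₁`. As `(1 - g)⁺ ≤ η + [g ≤ 1 - η]`, `(g - 1)⁺ ≤ η + A [g ≥ 1 + η]` for
`g ≤ A`, and `∑ (M-1) |B|² ≤ ∑_{M ≥ 2} M |B|²`, both claims follow for `η = c₁/4`. -/
def S_UG2 : Prop := ∃ θ c η : ℝ, 0 < θ ∧ 0 < c ∧ 0 < η ∧ η ≤ 1 / 2 ∧ ∀ᶠ T : ℝ in atTop, ∀ N : ℕ, (N : ℝ) ≤ T ^ θ → ∀ b : ℕ → ℂ,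
  c * Real.log T * (T * N2 N b) ≤ ∑ s ∈ (H370.Zf riemannZeta T (2 * T)).filter (fun s => 2 ≤ mz s ∨
    ∃ s' ∈ ZD T, s' ≠ s ∧ |s'.im - s.im| ≤ (1 - η) * (2 * Real.pi / Real.log T)), (mz s : ℝ) * ‖dp N b s.im‖ ^ 2 ∧
  c * Real.log T * (T * N2 N b) ≤ ∑ s ∈ (H370.Zf riemannZeta T (2 * T)).filter (fun s =>
    ∀ s' ∈ ZD T, ¬ (s.im < s'.im ∧ s'.im < s.im + (1 + η) * (2 * Real.pi / Real.log T))), ‖dp N b s.im‖ ^ 2

def J_UG2 : Prop := S_UGB → S_C → S_SAMP → S_DPM → S_MVL → S_MV2 → S_UG2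

/-! ### the Alternative Hypothesis -/

/-- the Alternative Hypothesis (with RH), in terms of the zeros: large zeros are simple, and distances of zeros at bounded normalised distance are near
positive half-integers -/
def AHz : Prop := ∀ ε A : ℝ, 0 < ε → 0 < A → ∀ᶠ T : ℝ in atTop, ∀ s ∈ H370.Zf riemannZeta T (2 * T), mz s = 1 ∧
  ∀ s' ∈ H370.Zf riemannZeta T (2 * T), s' ≠ s → |s'.im - s.im| * Real.log T / (2 * Real.pi) ≤ A →
    ∃ k : ℕ, 1 ≤ k ∧ |(|s'.im - s.im| * Real.log T / (2 * Real.pi)) - k / 2| ≤ ε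

open Classical in
/-- weighted number of pairs at normalised distance `k/2` -/
def PK (T : ℝ) (N : ℕ) (b : ℕ → ℂ) (k : ℕ) : ℝ := ∑ s ∈ H370.Zf riemannZeta T (2 * T), (mz s : ℝ) * ‖dp N b s.im‖ ^ 2 *
  ∑ s' ∈ (H370.Zf riemannZeta T (2 * T)).filter (fun s' => |(|s'.im - s.im| * Real.log T / (2 * Real.pi)) - k / 2| ≤ 1 / 8), (mz s' : ℝ)

/-- AHR: on RH and the Alternative Hypothesis the pair statistics are forced relative to every Dirichlet polynomial. Job `J_AHR`. PROOF. Fix `j ≥ 1` and apply S_SPC with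
`R(α) = cos(πjα) - (-1)^j` on `[-1, 1]`, `0` elsewhere (Lipschitz, even) and `lam < 1` near `1`. `f = fR R` is explicit: `f(x) = 2 (-1)^j π²j² sin x / (x (x² - π²j²))` for
`x ≠ 0, ±πj`, `f(0) = -2 (-1)^j`, `f(±πj) = 1`, `f(πk) = 0` for integers `k ≠ 0, ±j`; so `|f(x)| ≤ C/(1+|x|)^3`, `f` is Lipschitz, and for `|x - πk| ≤ r ≤ 1`, `k ≠ 0, ±j`:
`|f(x)| ≤ C r/(1+|k|)^3`. `kap R 1 = 1 - (-1)^j + 2((-1)^j - 1)/(π²j²) - (-1)^j`, `kap R lam → kap R 1`. On AHz (`ε' , A'`) the neighbours `s' ≠ s` of `s ∈ ZT T` at normalised distance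
`≤ A'` have `L|γ-γ'| = πk + O(2πε')`, `k ≥ 1`, so `lam L|γ-γ'| - πk = O(ε' + (1-lam)k)`, and
`|Sg(s) - f(0) - #{s' : k = j}| ≤ C (1 - lam + ε') ∑_{s'} m'/(1+|x'|)² + C/A' ∑_{s'} m'/(1+|x'|)² ≤ C (1 - lam + ε' + 1/A') SS δ T γ` (`x' = L(γ'-γ)`). Multiply by
`m |B(γ)|²`, sum; `SS ≤ 2 SS²` at a zero, and use the last hypothesis and the third part of S_SAMP: `PK j = (kap R lam - f(0) + O(ε)) (L/2π) T N2` up to the zeros near the ends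
`T, 2T` (`ZT T` against `Zf T (2T)`; crude bounds, `|B|² ≤ N N2`, `O(L)` zeros in unit intervals), and `kap R 1 - f(0) = 1 - 2(1 - (-1)^j)/(π²j²)`. The order of choices: `lam`, `A'`, `ε'`,
then `θ` (from S_SPC), then `T` large. The windows `|... - k/2| ≤ 1/8` of PK contain only the pairs near `k/2`. -/
def S_AHR : Prop := RHz → AHz → ∀ (ε : ℝ) (K : ℕ), 0 < ε → ∃ θ : ℝ, 0 < θ ∧ ∀ᶠ T : ℝ in atTop, ∀ N : ℕ, (N : ℝ) ≤ T ^ θ → ∀ b : ℕ → ℂ,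
  ∀ k : ℕ, 1 ≤ k → k ≤ K → |PK T N b k - (1 - 2 * (1 - (-1) ^ k) / (Real.pi ^ 2 * k ^ 2)) * (Real.log T / (2 * Real.pi)) * (T * N2 N b)| ≤
    ε * Real.log T * (T * N2 N b)

def J_AHR : Prop := S_SPC → S_SAMP → (∃ θ δ C : ℝ, 0 < θ ∧ 0 < δ ∧ 0 ≤ C ∧ ∀ᶠ T : ℝ in atTop, ∀ N : ℕ, (N : ℝ) ≤ T ^ θ →
  ∀ b : ℕ → ℂ, ∑ s ∈ H370.Zf riemannZeta T (2 * T), (mz s : ℝ) * (SS δ T s.im ^ 2 * ‖dp N b s.im‖ ^ 2) ≤ C * Real.log T * (T * N2 N b)) → S_AHR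

end

end Pool.Agent.Q97.UM
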