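import Pool.Agent.Q97.UM.Base8
import Pool.Agent.Q97.UM.Base4
import Pool.Agent.Q97.UM.Stm13
import Pool.Agent.Q92.UM6.LAT
import Pool.Agent.Q92.UM6.UGP
import Pool.Agent.Q176.UM.UGB
import Pool.Agent.Q251.UM.UG2
import Pool.Agent.Q38.UM.AHR

set_option autoImplicit false

/-! Project UM6: gaps relative to every Dirichlet polynomial; the Alternative Hypothesis. -/

namespace Pool.Agent.Q97.UM

open Filter

theorem b_LAT : S_LAT := Pool.Agent.Q92.UM6.t_LAT Pool.Agent.Q176.UM.t_QH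

theorem b_UGP : S_UGP := Pool.Agent.Q92.UM6.t_UGP b_LAT

theorem b_UGB : S_UGB := Pool.Agent.Q176.UM.t_UGB b_UGP Pool.Agent.Q247.UM.t_OMEX Pool.Agent.Q176.UM.t_QH b_ZU b_STM Pool.Agent.Q84.UM.t_DPM
  Pool.Agent.Q222.UM.t_MV2 Pool.Agent.Q84.UM.t_MVL b_TAIL

theorem b_UG2 : S_UG2 := Pool.Agent.Q251.UG.t_UG2 b_UGB b_C b_SAMP Pool.Agent.Q84.UM.t_DPM Pool.Agent.Q84.UM.t_MVL Pool.Agent.Q222.UM.t_MV2

/-- second moment of `SS` at the zeros -/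
theorem b_SSZ : ∃ θ δ C : ℝ, 0 < θ ∧ 0 < δ ∧ 0 ≤ C ∧ ∀ᶠ T : ℝ in atTop, ∀ N : ℕ, (N : ℝ) ≤ T ^ θ →
  ∀ b : ℕ → ℂ, ∑ s ∈ H370.Zf riemannZeta T (2 * T), (mz s : ℝ) * (SS δ T s.im ^ 2 * ‖dp N b s.im‖ ^ 2) ≤ C * Real.log T * (T * N2 N b) := by
  obtain ⟨θ, c, C, hθ, hθ1, hc, hC, hT⟩ := b_TAIL
  have hδ : 16 * (c / 64) * ((3 : ℕ) + 1) ≤ c := by push_cast; linarith
  obtain ⟨C₁, hC₁, h1⟩ := b_STM θ c C hθ hθ1 hc hC hT 3 (c / 64) (by positivity) hδ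
  obtain ⟨C₂, hC₂, h2⟩ := b_DSC (θ / 2) (c / 64) 2 C₁ (by positivity) (by linarith) (by positivity) hC₁ h1
  exact ⟨θ / 2, c / 64, C₂, by positivity, by positivity, hC₂, h2⟩

theorem b_AHR : S_AHR := Pool.Agent.Q38.UM.t_AHR b_SPC b_SAMP b_SSZ

end Pool.Agent.Q97.UM
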