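import Pool.Agent.Q97.UM.Law4
import Pool.Agent.Q97.UM.Stm19

set_option autoImplicit false

/-! Project UM12: the Gaussian law for weights on the zeros, in general. -/

namespace Pool.Agent.Q97.UM

open Filter Topology MeasureTheory Complex ProbabilityTheory

noncomputable section

/-- `(log T / 2π) T` -/
def AT (T : ℝ) : ℝ := Real.log T / (2 * Real.pi) * T

/-- Gaussian moments of the normalised prime sum for the weights `w` -/
def GM (κ : ℝ) (w : ℝ → ℂ → ℝ) : Prop := ∀ (q : Polynomial ℝ) (ε : ℝ), 0 < ε → ∃ δ₁ : ℝ, 0 < δ₁ ∧ ∀ δ : ℝ, 0 < δ → δ ≤ δ₁ →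
  ∀ᶠ T : ℝ in atTop, |(∑ s ∈ H370.Zf riemannZeta T (2 * T), w T s * q.eval (RN ⌊T ^ δ⌋₊ s.im)) -
    κ * (∫ x, q.eval x ∂(gaussianReal 0 1)) * AT T| ≤ ε * AT T

/-- `V` is close to the prime sum in mean square with respect to the weights -/
def CW (w V : ℝ → ℂ → ℝ) : Prop := ∃ δ₂ : ℝ, 0 < δ₂ ∧ ∀ δ : ℝ, 0 < δ → δ ≤ δ₂ → ∃ C : ℝ, 0 ≤ C ∧ ∀ᶠ T : ℝ in atTop,
  ∑ s ∈ H370.Zf riemannZeta T (2 * T), w T s * (V T s * Real.sqrt (Real.log (Real.log T) / 2) -
    (dp ⌊T ^ δ⌋₊ (pc ⌊T ^ δ⌋₊) s.im).re) ^ 2 ≤ C * (Real.log T * T)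

/-- weighted Chebyshev inequality -/
theorem chebw (F : Finset ℂ) (w D : ℂ → ℝ) (c M : ℝ) (hc : 0 < c) (hw : ∀ s ∈ F, 0 ≤ w s) (hM : ∑ s ∈ F, w s * D s ^ 2 ≤ M)
    [DecidablePred fun s => c < |D s|] : ∑ s ∈ F.filter (fun s => c < |D s|), w s ≤ M / c ^ 2 := by
  rw [le_div_iff₀ (by positivity), Finset.sum_mul]
  refine le_trans ?_ hM
  calc ∑ s ∈ F.filter (fun s => c < |D s|), w s * c ^ 2 ≤ ∑ s ∈ F.filter (fun s => c < |D s|), w s * D s ^ 2 := by
        refine Finset.sum_le_sum fun s hs => ?_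
        rw [Finset.mem_filter] at hs
        rw [← sq_abs (D s)]
        have h1 := hs.2
        have h2 := hw s hs.1
        gcongr
    _ ≤ ∑ s ∈ F, w s * D s ^ 2 := Finset.sum_le_sum_of_subset_of_nonneg (Finset.filter_subset _ _)
        fun s hs _ => mul_nonneg (hw s hs) (by positivity)

theorem gm_moments {κ : ℝ} {w : ℝ → ℂ → ℝ} (hA : GM κ w) (K : ℕ) (ε' : ℝ) (hε : 0 < ε') : ∃ δ₁ : ℝ, 0 < δ₁ ∧ ∀ δ : ℝ, 0 < δ → δ ≤ δ₁ →
    ∀ᶠ T : ℝ in atTop, ∀ k : ℕ, k ≤ K → |(∑ s ∈ H370.Zf riemannZeta T (2 * T), w T s * RN ⌊T ^ δ⌋₊ s.im ^ k) -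
      κ * (∫ x, x ^ k ∂(gaussianReal 0 1)) * AT T| ≤ ε' * AT T := by
  induction K with
  | zero =>
    obtain ⟨δ₁, h1, h2⟩ := hA (Polynomial.X ^ 0) ε' hε
    refine ⟨δ₁, h1, fun δ hδ hδ1 => ?_⟩
    filter_upwards [h2 δ hδ hδ1] with T h k hk
    have : k = 0 := by omega
    subst this
    simpa using h
  | succ K ih =>
    obtain ⟨δ₁, h1, h2⟩ := hA (Polynomial.X ^ (K + 1)) ε' hε
    obtain ⟨δ₂, h3, h4⟩ := ih
    refine ⟨min δ₁ δ₂, by positivity, fun δ hδ hδ1 => ?_⟩
    filter_upwards [h2 δ hδ (hδ1.trans (min_le_left _ _)), h4 δ hδ (hδ1.trans (min_le_right _ _))] with T h h' k hk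
    rcases Nat.lt_or_ge K k with h5 | h5
    · have : k = K + 1 := by omega
      subst this
      simpa using h
    · exact h' k h5

theorem pmw_moments {T κ ε' : ℝ} {K : ℕ} (hκ : 0 < κ) (hA : 0 < AT T) (w x : ℂ → ℝ) (hw : ∀ s ∈ H370.Zf riemannZeta T (2 * T), 0 ≤ w s)
    (h : ∀ k : ℕ, k ≤ K → |(∑ s ∈ H370.Zf riemannZeta T (2 * T), w s * x s ^ k) -
      κ * (∫ x, x ^ k ∂(gaussianReal 0 1)) * AT T| ≤ κ * ε' * AT T) :
    ∀ k : ℕ, k ≤ K → Integrable (fun y : ℝ => y ^ k) (pm (H370.Zf riemannZeta T (2 * T)) (fun s => w s / (κ * AT T)) x) ∧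
      |(∫ y, y ^ k ∂(pm (H370.Zf riemannZeta T (2 * T)) (fun s => w s / (κ * AT T)) x)) - ∫ x, x ^ k ∂(gaussianReal 0 1)| ≤ ε' := by
  intro k hk
  refine ⟨pm_int _ _ _ _, ?_⟩
  have hκA : 0 < κ * AT T := mul_pos hκ hA
  rw [pm_integral _ _ _ (fun s hs => div_nonneg (hw s hs) hκA.le)]
  have h1 := h k hk
  have e1 : (∑ s ∈ H370.Zf riemannZeta T (2 * T), w s / (κ * AT T) * x s ^ k) - ∫ x, x ^ k ∂(gaussianReal 0 1) =
      ((∑ s ∈ H370.Zf riemannZeta T (2 * T), w s * x s ^ k) - κ * (∫ x, x ^ k ∂(gaussianReal 0 1)) * AT T) / (κ * AT T) := by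
    rw [sub_div, show κ * (∫ x, x ^ k ∂(gaussianReal 0 1)) * AT T = (∫ x, x ^ k ∂(gaussianReal 0 1)) * (κ * AT T) by ring,
      mul_div_cancel_right₀ _ hκA.ne', Finset.sum_div]
    congr 1
    exact Finset.sum_congr rfl fun s _ => by ring
  rw [e1, abs_div, abs_of_pos hκA, div_le_iff₀ hκA]
  exact h1.trans (le_of_eq (by ring))

open Classical in
theorem gw_upg {κ : ℝ} {w V : ℝ → ℂ → ℝ} (hκ : 0 < κ) (hA : GM κ w) (hC : CW w V)
    (hw : ∀ᶠ T : ℝ in atTop, ∀ s ∈ H370.Zf riemannZeta T (2 * T), 0 ≤ w T s) (S S' : Set ℝ) (hS' : MeasurableSet S') (r η ε : ℝ)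
    (hε : 0 < ε) (hη0 : 0 < η) (hr0 : 0 < r) (hr1 : r < 1)
    (hshift : ∀ x y ρ : ℝ, |y - x * ρ| ≤ η / 2 → r ≤ ρ → ρ ≤ 1 → y ∈ S → x ∈ S') (hUB : UB S' (ε / 4))
    (hg : (gaussianReal 0 1).real S' ≤ (gaussianReal 0 1).real S + ε / 4) :
    ∀ᶠ T : ℝ in atTop, ∑ s ∈ (H370.Zf riemannZeta T (2 * T)).filter (fun s => V T s ∈ S), w T s ≤
      κ * ((gaussianReal 0 1).real S + ε) * AT T := by
  obtain ⟨K, ε', hε', hABU⟩ := hUB
  obtain ⟨δ₂, hδ₂, hM⟩ := gm_moments hA K (κ * ε') (by positivity)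
  obtain ⟨δ₃, hδ₃, hC⟩ := hC
  obtain ⟨δ, hδ⟩ : ∃ δ, δ = min δ₂ (min δ₃ 1) := ⟨_, rfl⟩
  have hδ0 : 0 < δ := by rw [hδ]; positivity
  have hδb : δ ≤ δ₂ := by rw [hδ]; exact min_le_left _ _
  have hδc : δ ≤ δ₃ := by rw [hδ]; exact (min_le_right _ _).trans (min_le_left _ _)
  have hδ1 : δ ≤ 1 := by rw [hδ]; exact (min_le_right _ _).trans (min_le_right _ _)
  obtain ⟨C, hC0, hC⟩ := hC δ hδ0 hδc
  have hll : Tendsto (fun T : ℝ => Real.log (Real.log T)) atTop atTop :=
    Real.tendsto_log_atTop.comp Real.tendsto_log_atTop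
  filter_upwards [hM δ hδ0 hδb, hC, ratio_one δ hδ0 hδ1 r hr0 hr1, eventually_ge_atTop (3 : ℝ),
    hll.eventually_ge_atTop (C * 64 * Real.pi / (κ * ε * η ^ 2)), hw] with T hM hC ⟨hs1, hs2, hs3, hs4⟩ hT hLL hw
  set X := ⌊T ^ δ⌋₊ with hX
  have hL0 : 0 < Real.log T := Real.log_pos (by linarith)
  have hT0 : 0 < T := by linarith
  have hpi := Real.pi_pos
  have hAd : AT T = Real.log T / (2 * Real.pi) * T := rfl
  have hA0 : 0 < AT T := by rw [hAd]; positivity
  set L := Real.log T with hL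
  set A := AT T with hAA
  set sT := Real.sqrt (Real.log L / 2) with hsT
  set sX := Real.sqrt (Real.log (Real.log X) / 2) with hsX
  have hLLpos : 0 < Real.log L := by
    have := Real.sqrt_pos.1 hs1
    linarith
  have hsT2 : sT ^ 2 = Real.log L / 2 := Real.sq_sqrt (by linarith)
  have hmom := pmw_moments hκ hA0 (fun s => w T s) (fun s => RN X s.im) hw hM
  have h1 := hABU _ inferInstance hmom
  have hκA : 0 < κ * A := mul_pos hκ hA0
  rw [pm_real _ _ _ (fun s hs => div_nonneg (hw s hs) hκA.le) _ hS'] at h1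
  set F := H370.Zf riemannZeta T (2 * T) with hF
  have h2 : ∑ s ∈ F.filter (fun s => RN X s.im ∈ S'), w T s ≤ κ * ((gaussianReal 0 1).real S' + ε / 4) * A := by
    rw [← Finset.sum_div, div_le_iff₀ hκA] at h1
    exact h1.trans (le_of_eq (by ring))
  -- the exceptional zeros
  set D : ℂ → ℝ := fun s => V T s * sT - (dp X (pc X) s.im).re with hD
  have h3 := chebw F (fun s => w T s) D (η / 2 * sT) (C * (L * T)) (by positivity) hw hC
  have h4 : ∑ s ∈ F.filter (fun s => η / 2 * sT < |D s|), w T s ≤ κ * (ε / 4) * A := by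
    refine h3.trans ?_
    rw [div_le_iff₀ (by positivity), mul_pow, hsT2]
    rw [div_le_iff₀ (by positivity)] at hLL
    have e1 : κ * (ε / 4) * A * ((η / 2) ^ 2 * (Real.log L / 2)) = (L * T) / (64 * Real.pi) * (Real.log L * (κ * ε * η ^ 2)) := by
      rw [hAd]; field_simp; ring
    rw [e1]
    have e2 : C * (L * T) = (L * T) / (64 * Real.pi) * (C * 64 * Real.pi) := by field_simp
    rw [e2]
    gcongr
  have h5 : F.filter (fun s => V T s ∈ S) ⊆ F.filter (fun s => RN X s.im ∈ S') ∪ F.filter (fun s => η / 2 * sT < |D s|) := by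
    intro s hs
    rw [Finset.mem_filter] at hs
    obtain ⟨hs5, hs8⟩ := hs
    by_cases h6 : η / 2 * sT < |D s|
    · refine Finset.mem_union_right _ ?_
      rw [Finset.mem_filter]
      exact ⟨hs5, h6⟩
    · refine Finset.mem_union_left _ ?_
      push Not at h6
      rw [Finset.mem_filter]
      refine ⟨hs5, ?_⟩
      set P := (dp X (pc X) s.im).re with hPd
      have e1 : RN X s.im = P / sX := rfl
      have e2 : V T s = RN X s.im * (sX / sT) + D s / sT := by
        rw [e1]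
        have : D s = V T s * sT - P := rfl
        rw [this]
        field_simp
        ring
      have e3 : |D s / sT| ≤ η / 2 := by
        rw [abs_div, abs_of_pos hs1, div_le_iff₀ hs1]
        exact h6
      have e4 : sX / sT ≤ 1 := by rw [div_le_one hs1]; exact hs3
      have e5 : r ≤ sX / sT := by rw [le_div_iff₀ hs1]; exact hs4
      refine hshift (RN X s.im) (V T s) (sX / sT) ?_ e5 e4 hs8
      rw [e2, add_sub_cancel_left]
      exact e3
  have h6 : ∑ s ∈ F.filter (fun s => V T s ∈ S), w T s ≤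
      ∑ s ∈ F.filter (fun s => RN X s.im ∈ S'), w T s + ∑ s ∈ F.filter (fun s => η / 2 * sT < |D s|), w T s := by
    have g1 : ∑ s ∈ F.filter (fun s => V T s ∈ S), w T s ≤
        ∑ s ∈ F.filter (fun s => RN X s.im ∈ S') ∪ F.filter (fun s => η / 2 * sT < |D s|), w T s := by
      refine Finset.sum_le_sum_of_subset_of_nonneg h5 fun s hs _ => ?_
      rcases Finset.mem_union.1 hs with h | h
      · exact hw s (Finset.mem_filter.1 h).1
      · exact hw s (Finset.mem_filter.1 h).1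
    refine g1.trans ?_
    rw [← Finset.sum_union_inter]
    have : 0 ≤ ∑ s ∈ F.filter (fun s => RN X s.im ∈ S') ∩ F.filter (fun s => η / 2 * sT < |D s|), w T s := by
      refine Finset.sum_nonneg fun s hs => ?_
      exact hw s (Finset.mem_filter.1 (Finset.mem_inter.1 hs).1).1
    linarith
  set g0 := (gaussianReal 0 1).real S with hg0
  set g1 := (gaussianReal 0 1).real S' with hg1
  have h9 : κ * (g1 + ε / 4) * A + κ * (ε / 4) * A ≤ κ * (g0 + ε) * A := by
    have : κ * (g1 + ε / 4) * A + κ * (ε / 4) * A = κ * (g1 + ε / 2) * A := by ring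
    rw [this]
    apply mul_le_mul_of_nonneg_right _ hA0.le
    apply mul_le_mul_of_nonneg_left _ hκ.le
    linarith
  linarith

open Classical in
/-- the upper bound, for all intervals -/
theorem gw_I_up {κ : ℝ} {w V : ℝ → ℂ → ℝ} (hκ : 0 < κ) (hA : GM κ w) (hC : CW w V)
    (hw : ∀ᶠ T : ℝ in atTop, ∀ s ∈ H370.Zf riemannZeta T (2 * T), 0 ≤ w T s) (hAB : S_ABU) {I : Set ℝ} (hI : I.OrdConnected)
    (ε : ℝ) (hε : 0 < ε) :
    ∀ᶠ T : ℝ in atTop, ∑ s ∈ (H370.Zf riemannZeta T (2 * T)).filter (fun s => V T s ∈ I), w T s ≤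
      κ * ((gaussianReal 0 1).real I + ε) * AT T := by
  obtain ⟨η, hη⟩ : ∃ η, η = ε / 16 := ⟨_, rfl⟩
  have hη0 : 0 < η := by rw [hη]; positivity
  have hub_univ : UB Set.univ (ε / 4) := by
    refine ⟨0, ε / 4, by positivity, fun μ hμ hm => ?_⟩
    have g3 := (hm 0 le_rfl).2
    simp only [pow_zero, integral_const, smul_eq_mul, mul_one] at g3
    rw [abs_le] at g3
    linarith [g3.2]
  have hempty : I = ∅ → ∀ᶠ T : ℝ in atTop, ∑ s ∈ (H370.Zf riemannZeta T (2 * T)).filter (fun s => V T s ∈ I), w T s ≤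
      κ * ((gaussianReal 0 1).real I + ε) * AT T := by
    intro h
    filter_upwards [eventually_ge_atTop (1 : ℝ)] with T hT
    rw [h]
    have hpi := Real.pi_pos
    have : 0 ≤ Real.log T := Real.log_nonneg hT
    simp only [Set.mem_empty_iff_false, Finset.filter_false, Finset.sum_empty]
    unfold AT
    positivity
  rcases ordc hI with h | h | ⟨a, h1, h2⟩ | ⟨b, h1, h2⟩ | ⟨a, b, h1, h2⟩
  · exact hempty h
  · rw [h]
    exact gw_upg hκ hA hC hw Set.univ Set.univ MeasurableSet.univ (1 / 2) 1 ε hε one_pos (by norm_num) (by norm_num)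
      (fun _ _ _ _ _ _ _ => Set.mem_univ _) hub_univ (by linarith)
  · obtain ⟨r, hr0, hr1, hr⟩ := exists_r (|a| + 3 * η) η (by positivity) hη0
    refine gw_upg hκ hA hC hw I (Set.Ioi (a - η - η)) measurableSet_Ioi r η ε hε hη0 hr0 hr1 ?_ (hAB _ _ (by positivity)) ?_
    · intro x y ρ g1 g2 g3 g4
      have := h2 g4
      rw [Set.mem_Ici] at this
      rw [Set.mem_Ioi]
      refine shift_low (by linarith) g1 hr0 g2 g3 ?_ hr hη0
      have := abs_sub a η
      rw [abs_of_pos hη0] at this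
      linarith
    · have e1 := gam_Ioi (a - η) η hη0.le
      have e2 := gam_Ioi a η hη0.le
      have e3 : (gaussianReal 0 1).real (Set.Ioi a) ≤ (gaussianReal 0 1).real I := measureReal_mono h1
      linarith
  · obtain ⟨r, hr0, hr1, hr⟩ := exists_r (|b| + 3 * η) η (by positivity) hη0
    refine gw_upg hκ hA hC hw I (Set.Iio (b + η + η)) measurableSet_Iio r η ε hε hη0 hr0 hr1 ?_ (ub_Iio hAB _ _ (by positivity)) ?_
    · intro x y ρ g1 g2 g3 g4
      have := h2 g4
      rw [Set.mem_Iic] at this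
      rw [Set.mem_Iio]
      refine shift_up (by linarith) g1 hr0 g2 g3 ?_ hr hη0
      have := abs_add_le b η
      rw [abs_of_pos hη0] at this
      linarith
    · have hsub : Set.Iio (b + η + η) ⊆ Set.Iio b ∪ Set.Icc b (b + 2 * η) := by
        intro x hx
        rcases lt_or_ge x b with h' | h'
        · exact Or.inl h'
        · exact Or.inr ⟨h', by have := Set.mem_Iio.1 hx; linarith⟩
      have e1 := (measureReal_mono hsub (μ := gaussianReal 0 1)).trans (measureReal_union_le _ _)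
      have e2 := gam_Icc_le b (2 * η) (by positivity)
      have e3 : (gaussianReal 0 1).real (Set.Iio b) ≤ (gaussianReal 0 1).real I := measureReal_mono h1
      linarith
  · rcases lt_or_ge b a with hba | hab
    · apply hempty
      rw [Set.Icc_eq_empty (not_le.2 hba)] at h2
      exact Set.subset_empty_iff.1 h2
    obtain ⟨r, hr0, hr1, hr⟩ := exists_r (|a| + |b| + 3 * η) η (by positivity) hη0
    refine gw_upg hκ hA hC hw I (Set.Ioo (a - η - η) (b + η + η)) measurableSet_Ioo r η ε hε hη0 hr0 hr1 ?_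
      (ub_Ioo hAB _ _ _ (by linarith) (by positivity)) ?_
    · intro x y ρ g1 g2 g3 g4
      have := h2 g4
      rw [Set.mem_Icc] at this
      have k1 := abs_sub a η
      have k2 := abs_add_le b η
      rw [abs_of_pos hη0] at k1 k2
      have k3 := abs_nonneg a
      have k4 := abs_nonneg b
      exact ⟨shift_low (by linarith) g1 hr0 g2 g3 (by linarith) hr hη0, shift_up (by linarith) g1 hr0 g2 g3 (by linarith) hr hη0⟩
    · have hsub : Set.Ioo (a - η - η) (b + η + η) ⊆ Set.Ioo a b ∪ (Set.Icc (a - 2 * η) (a - 2 * η + 2 * η) ∪ Set.Icc b (b + 2 * η)) := by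
        intro x hx
        rcases lt_or_ge a x with h' | h'
        · rcases lt_or_ge x b with h'' | h''
          · exact Or.inl ⟨h', h''⟩
          · exact Or.inr (Or.inr ⟨h'', by have := hx.2; linarith⟩)
        · exact Or.inr (Or.inl ⟨by have := hx.1; linarith, by linarith⟩)
      have e1 := (measureReal_mono hsub (μ := gaussianReal 0 1)).trans (measureReal_union_le _ _)
      have e4 := measureReal_union_le (μ := gaussianReal 0 1) (Set.Icc (a - 2 * η) (a - 2 * η + 2 * η)) (Set.Icc b (b + 2 * η))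
      have e2 := gam_Icc_le b (2 * η) (by positivity)
      have e5 := gam_Icc_le (a - 2 * η) (2 * η) (by positivity)
      have e3 : (gaussianReal 0 1).real (Set.Ioo a b) ≤ (gaussianReal 0 1).real I := measureReal_mono h1
      linarith

/-- the complement of an interval is contained in the union of two intervals of the same total mass -/
theorem compl_ord {J : Set ℝ} (hJ : J.OrdConnected) : ∃ L R : Set ℝ, L.OrdConnected ∧ R.OrdConnected ∧
    (gaussianReal 0 1).real L + (gaussianReal 0 1).real R ≤ 1 - (gaussianReal 0 1).real J ∧ ∀ x, x ∉ J → x ∈ L ∨ x ∈ R := by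
  rcases J.eq_empty_or_nonempty with hJe | hJne
  · refine ⟨Set.univ, ∅, Set.ordConnected_univ, Set.ordConnected_empty, ?_, fun x _ => Or.inl (Set.mem_univ x)⟩
    rw [hJe]
    simp
  · have hLm : ({x | ∀ z ∈ J, x < z} : Set ℝ).OrdConnected := by
      constructor
      intro u hu v hv w hw z hz
      exact lt_of_le_of_lt hw.2 (hv z hz)
    have hRm : ({x | ∀ z ∈ J, z < x} : Set ℝ).OrdConnected := by
      constructor
      intro u hu v hv w hw z hz
      exact lt_of_lt_of_le (hu z hz) hw.1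
    refine ⟨{x | ∀ z ∈ J, x < z}, {x | ∀ z ∈ J, z < x}, hLm, hRm, ?_, ?_⟩
    · obtain ⟨z₀, hz₀⟩ := hJne
      have d1 : Disjoint ({x | ∀ z ∈ J, x < z} : Set ℝ) ({x | ∀ z ∈ J, z < x} : Set ℝ) := by
        rw [Set.disjoint_left]
        intro x hx hx2
        exact absurd (hx z₀ hz₀) (not_lt.2 (hx2 z₀ hz₀).le)
      have d2 : Disjoint (({x | ∀ z ∈ J, x < z} : Set ℝ) ∪ ({x | ∀ z ∈ J, z < x} : Set ℝ)) J := by
        rw [Set.disjoint_left]
        rintro x (hx | hx) hxJ
        · exact lt_irrefl x (hx x hxJ)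
        · exact lt_irrefl x (hx x hxJ)
      rw [← measureReal_union d1 hRm.measurableSet, le_sub_iff_add_le, ← measureReal_union d2 hJ.measurableSet]
      exact measureReal_le_one
    · intro x hx
      by_contra hcon
      push Not at hcon
      obtain ⟨g1, g2⟩ := hcon
      simp only [Set.mem_ofPred_eq, not_forall, not_lt] at g1 g2
      obtain ⟨z, hz, hzx⟩ := g1
      obtain ⟨w, hw, hxw⟩ := g2
      exact hx (hJ.out hz hw ⟨hzx, hxw⟩)

open Classical in
/-- the law -/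
theorem gw_law {κ : ℝ} {w V : ℝ → ℂ → ℝ} (hκ : 0 < κ) (hA : GM κ w) (hC : CW w V)
    (hw : ∀ᶠ T : ℝ in atTop, ∀ s ∈ H370.Zf riemannZeta T (2 * T), 0 ≤ w T s) (hAB : S_ABU) {I : Set ℝ} (hI : I.OrdConnected)
    (ε : ℝ) (hε : 0 < ε) :
    ∀ᶠ T : ℝ in atTop, |(∑ s ∈ (H370.Zf riemannZeta T (2 * T)).filter (fun s => V T s ∈ I), w T s) -
      κ * (gaussianReal 0 1).real I * AT T| ≤ ε * AT T := by
  obtain ⟨e, he⟩ : ∃ e, e = ε / (4 * (κ + 1)) := ⟨_, rfl⟩
  have he0 : 0 < e := by rw [he]; positivity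
  have hke : κ * e ≤ ε / 4 := by
    rw [he, mul_div_assoc', div_le_div_iff₀ (by positivity) (by norm_num)]
    nlinarith
  obtain ⟨Ls, Rs, hLc, hRc, hm, hcov⟩ := compl_ord hI
  obtain ⟨δ₁, hδ₁, htot⟩ := hA 1 (ε / 4) (by positivity)
  filter_upwards [gw_I_up hκ hA hC hw hAB hI e he0, gw_I_up hκ hA hC hw hAB hLc e he0, gw_I_up hκ hA hC hw hAB hRc e he0,
    htot δ₁ hδ₁ le_rfl, hw, eventually_ge_atTop (3 : ℝ)] with T h1 h2 h3 h4 hw hT
  have hpi := Real.pi_pos
  have hL0 : 0 < Real.log T := Real.log_pos (by linarith)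
  have hA0 : 0 < AT T := by unfold AT; positivity
  simp only [Polynomial.eval_one, mul_one, integral_const, smul_eq_mul, probReal_univ] at h4
  rw [abs_le] at h4
  set F := H370.Zf riemannZeta T (2 * T) with hF
  set g := (gaussianReal 0 1).real I with hg
  set gL := (gaussianReal 0 1).real Ls with hgL
  set gR := (gaussianReal 0 1).real Rs with hgR
  have h5 : ∑ s ∈ F, w T s ≤ ∑ s ∈ F.filter (fun s => V T s ∈ I), w T s + (∑ s ∈ F.filter (fun s => V T s ∈ Ls), w T s +
      ∑ s ∈ F.filter (fun s => V T s ∈ Rs), w T s) := by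
    rw [Finset.sum_filter, Finset.sum_filter, Finset.sum_filter, ← Finset.sum_add_distrib, ← Finset.sum_add_distrib]
    refine Finset.sum_le_sum fun s hs => ?_
    have hws := hw s hs
    by_cases g1 : V T s ∈ I
    · rw [if_pos g1]
      have k1 : 0 ≤ (if V T s ∈ Ls then w T s else 0) := by split_ifs <;> linarith
      have k2 : 0 ≤ (if V T s ∈ Rs then w T s else 0) := by split_ifs <;> linarith
      linarith
    · rw [if_neg g1]
      rcases hcov _ g1 with g2 | g2
      · rw [if_pos g2]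
        have k2 : 0 ≤ (if V T s ∈ Rs then w T s else 0) := by split_ifs <;> linarith
        linarith
      · rw [if_pos g2]
        have k1 : 0 ≤ (if V T s ∈ Ls then w T s else 0) := by split_ifs <;> linarith
        linarith
  have h6 : κ * e * AT T ≤ ε / 4 * AT T := mul_le_mul_of_nonneg_right hke hA0.le
  have h7 : κ * (gL + gR) * AT T ≤ κ * (1 - g) * AT T := by
    apply mul_le_mul_of_nonneg_right _ hA0.le
    exact mul_le_mul_of_nonneg_left hm hκ.le
  have h1' : ∑ s ∈ F.filter (fun s => V T s ∈ I), w T s ≤ κ * g * AT T + κ * e * AT T := h1.trans (le_of_eq (by ring))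
  have h2' : ∑ s ∈ F.filter (fun s => V T s ∈ Ls), w T s ≤ κ * gL * AT T + κ * e * AT T := h2.trans (le_of_eq (by ring))
  have h3' : ∑ s ∈ F.filter (fun s => V T s ∈ Rs), w T s ≤ κ * gR * AT T + κ * e * AT T := h3.trans (le_of_eq (by ring))
  have h7' : κ * gL * AT T + κ * gR * AT T ≤ κ * AT T - κ * g * AT T := by
    calc _ = κ * (gL + gR) * AT T := by ring
      _ ≤ κ * (1 - g) * AT T := h7
      _ = _ := by ring
  have hεA : 0 < ε * AT T := mul_pos hε hA0
  rw [abs_le]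
  constructor
  · linarith [h4.1]
  · linarith

end

end Pool.Agent.Q97.UM
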