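import Pool.Agent.Q97.UM.Coh
import Pool.Agent.Q97.UM.Base9

set_option autoImplicit false

/-! Project UM16: gaps and isolated zeros at every level of large deviations. -/

namespace Pool.Agent.Q97.UM

open Filter Topology MeasureTheory Complex

noncomputable section

theorem mz_le_SS {T : ℝ} (hT : 16 ≤ T) {η : ℝ} (hη : 0 ≤ η) {s : ℂ} (hs : s ∈ H370.Zf riemannZeta T (2 * T)) :
    (mz s : ℝ) ≤ SS η T s.im := by
  have hL : 0 ≤ Real.log T := Real.log_nonneg (by linarith)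
  have hF := H370.good_zeta
  have hs' : s ∈ ZD T := by
    unfold ZD
    rw [H370.mem_Zf hF (by linarith)] at hs
    rw [H370.mem_Zf hF (by linarith)]
    exact ⟨hs.1, hs.2.1, by linarith [hs.2.2.1], by linarith [hs.2.2.2.1], hs.2.2.2.2⟩
  unfold SS
  have h1 : (mz s : ℝ) * (Real.exp (2 * η * (Real.log T * |s.re - 1 / 2|)) / (1 + Real.log T * |s.im - s.im|) ^ 2) ≤
      ∑ s' ∈ ZD T, (mz s' : ℝ) * (Real.exp (2 * η * (Real.log T * |s'.re - 1 / 2|)) / (1 + Real.log T * |s'.im - s.im|) ^ 2) :=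
    Finset.single_le_sum (f := fun s' => (mz s' : ℝ) *
      (Real.exp (2 * η * (Real.log T * |s'.re - 1 / 2|)) / (1 + Real.log T * |s'.im - s.im|) ^ 2))
      (fun s' _ => by positivity) hs'
  refine le_trans ?_ h1
  have h2 : 1 ≤ Real.exp (2 * η * (Real.log T * |s.re - 1 / 2|)) := Real.one_le_exp (by positivity)
  have h3 : (1 + Real.log T * |s.im - s.im|) ^ 2 = 1 := by simp
  rw [h3, div_one]
  have h4 : (0 : ℝ) ≤ mz s := Nat.cast_nonneg _
  nlinarith

open Classical in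
/-- small gaps -/
def Zcl (η T : ℝ) : Finset ℂ := (H370.Zf riemannZeta T (2 * T)).filter (fun s => 2 ≤ mz s ∨
    ∃ s' ∈ ZD T, s' ≠ s ∧ |s'.im - s.im| ≤ (1 - η) * (2 * Real.pi / Real.log T))

open Classical in
/-- large gaps -/
def Zap (η T : ℝ) : Finset ℂ := (H370.Zf riemannZeta T (2 * T)).filter (fun s =>
    ∀ s' ∈ ZD T, ¬ (s.im < s'.im ∧ s'.im < s.im + (1 + η) * (2 * Real.pi / Real.log T)))

/-- absorbing a constant -/
theorem absorb {T S E C a : ℝ} (hT : 0 < T) (hS : 1 ≤ S) (ha : 0 < a) :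
    T * Real.exp (E - (C + |Real.log a|) * Real.sqrt S) ≤ a * (T * Real.exp (E - C * Real.sqrt S)) := by
  have h1 : 1 ≤ Real.sqrt S := Real.one_le_sqrt.2 hS
  have h2 : Real.exp (-|Real.log a|) ≤ a := by
    calc Real.exp (-|Real.log a|) ≤ Real.exp (Real.log a) := Real.exp_le_exp.2 (neg_abs_le _)
      _ = a := Real.exp_log ha
  have h3 := abs_nonneg (Real.log a)
  calc T * Real.exp (E - (C + |Real.log a|) * Real.sqrt S) ≤ T * Real.exp (-|Real.log a| + (E - C * Real.sqrt S)) := by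
        apply mul_le_mul_of_nonneg_left _ hT.le
        apply Real.exp_le_exp.2
        nlinarith
    _ = Real.exp (-|Real.log a|) * (T * Real.exp (E - C * Real.sqrt S)) := by rw [Real.exp_add]; ring
    _ ≤ a * (T * Real.exp (E - C * Real.sqrt S)) := by gcongr

open Classical in
/-- UM16, first part -/
theorem gaps_level (hCOH : S_COH) (hCLW : S_CLW) (hDPM : S_DPM) : ∃ η : ℝ, 0 < η ∧ η ≤ 1 / 2 ∧ ∀ k : ℝ, ∃ A C : ℝ, 0 < A ∧ 0 ≤ C ∧
    ∀ᶠ T : ℝ in atTop,
      T * Real.exp ((1 - k ^ 2) * Real.log (Real.log T) - C * Real.sqrt (Real.log (Real.log T))) ≤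
        (((Zcl η T).filter (fun s => |LM T s.im - k * Real.log (Real.log T)| ≤ A * Real.sqrt (Real.log (Real.log T)))).card : ℝ) ∧
      T * Real.exp ((1 - k ^ 2) * Real.log (Real.log T) - C * Real.sqrt (Real.log (Real.log T))) ≤
        (((Zap η T).filter (fun s => |LM T s.im - k * Real.log (Real.log T)| ≤ A * Real.sqrt (Real.log (Real.log T)))).card : ℝ) := by
  obtain ⟨θ, c, η, hθ, hc, hη, hη1, hUG⟩ := b_UG2
  obtain ⟨θ', δ', C', hθ', hδ', hC', hSS⟩ := b_SSZ
  refine ⟨η, hη, hη1, fun k => ?_⟩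
  have hsub1 : ∀ T, Zcl η T ⊆ H370.Zf riemannZeta T (2 * T) := fun T => Finset.filter_subset _ _
  have hsub2 : ∀ T, Zap η T ⊆ H370.Zf riemannZeta T (2 * T) := fun T => Finset.filter_subset _ _
  have hmzev : ∀ᶠ T : ℝ in atTop, ∀ s ∈ H370.Zf riemannZeta T (2 * T), (1 : ℝ) ≤ mz s := by
    filter_upwards [eventually_ge_atTop (1 : ℝ)] with T hT
    exact mz_ge hT
  obtain ⟨A₁, C₁, δ₁, hA₁, hC₁, hδ₁, h1⟩ := coh_core hCOH hCLW hDPM b_SAMP k (Zcl η) (fun _ s => (mz s : ℝ)) hsub1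
    (fun T s _ => Nat.cast_nonneg _) (Eventually.of_forall fun T s _ => le_rfl) (by
      refine ⟨θ, c, hθ, hc, ?_⟩
      filter_upwards [hUG] with T h N hN b
      exact (h N hN b).1) (fun _ T s => SS δ' T s.im) (by
      refine ⟨θ', 1, hθ', one_pos, fun δ _ _ => ⟨C', hC', ?_⟩⟩
      filter_upwards [hSS] with T h N hN b
      exact (Finset.sum_le_sum_of_subset_of_nonneg (hsub1 T) fun s _ _ => by positivity).trans (h N hN b))
  obtain ⟨A₂, C₂, δ₂, hA₂, hC₂, hδ₂, h2⟩ := coh_core hCOH hCLW hDPM b_SAMP k (Zap η) (fun _ _ => 1) hsub2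
    (fun T s _ => zero_le_one) (by
      filter_upwards [hmzev] with T h s hs
      exact h s (hsub2 T hs)) (by
      refine ⟨θ, c, hθ, hc, ?_⟩
      filter_upwards [hUG] with T h N hN b
      refine (h N hN b).2.trans (le_of_eq ?_)
      unfold Zap
      exact Finset.sum_congr rfl fun s _ => (one_mul _).symm) (fun _ _ _ => 0) (by
      refine ⟨θ, 1, hθ, one_pos, fun δ _ _ => ⟨0, le_rfl, ?_⟩⟩
      filter_upwards with T N hN b
      simp)
  obtain ⟨A, hA⟩ : ∃ A, A = 2 * (A₁ + A₂) := ⟨_, rfl⟩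
  obtain ⟨C, hC⟩ : ∃ C, C = C₁ + |Real.log (1 / A₁)| + C₂ := ⟨_, rfl⟩
  have hlA := abs_nonneg (Real.log (1 / A₁))
  refine ⟨A, C, by rw [hA]; positivity, by rw [hC]; positivity, ?_⟩
  have hll : Tendsto (fun T : ℝ => Real.log (Real.log T)) atTop atTop :=
    Real.tendsto_log_atTop.comp Real.tendsto_log_atTop
  filter_upwards [h1, h2, eventually_ge_atTop (16 : ℝ), hll.eventually_ge_atTop 1] with T h1 h2 hT hS1
  set S := Real.log (Real.log T) with hS
  have hSq1 : 1 ≤ Real.sqrt S := Real.one_le_sqrt.2 hS1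
  have hT0 : 0 < T := by linarith
  have hm := mz_ge (T := T) (by linarith)
  constructor
  · have h3 : Gdk k A₁ δ₁ (fun _ T s => SS δ' T s.im) (Zcl η) T ⊆ (Zcl η T).filter (fun s => |LM T s.im - k * S| ≤ A * Real.sqrt S) := by
      intro s hs
      unfold Gdk at hs
      rw [Finset.mem_filter] at hs ⊢
      obtain ⟨g0, g1, g2, _⟩ := hs
      refine ⟨g0, ?_⟩
      have e1 : LM T s.im - k * S = (LM T s.im - EP ⌊T ^ δ₁⌋₊ s.im) + (EP ⌊T ^ δ₁⌋₊ s.im - k * S) := by ring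
      rw [e1]
      refine (abs_add_le _ _).trans ?_
      rw [hA]
      nlinarith
    have h4 : ∑ s ∈ Gdk k A₁ δ₁ (fun _ T s => SS δ' T s.im) (Zcl η) T, (mz s : ℝ) ≤
        A₁ * ((Gdk k A₁ δ₁ (fun _ T s => SS δ' T s.im) (Zcl η) T).card : ℝ) := by
      rw [mul_comm, ← nsmul_eq_mul]
      refine Finset.sum_le_card_nsmul _ _ _ fun s hs => ?_
      unfold Gdk at hs
      rw [Finset.mem_filter] at hs
      exact (mz_le_SS hT hδ'.le (hsub1 T hs.1)).trans ((le_abs_self _).trans hs.2.2.2)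
    have h5 : T * Real.exp ((1 - k ^ 2) * S - C₁ * Real.sqrt S) ≤
        A₁ * (((Zcl η T).filter (fun s => |LM T s.im - k * S| ≤ A * Real.sqrt S)).card : ℝ) := by
      refine (h1.trans h4).trans ?_
      have := Finset.card_le_card h3
      gcongr
    have h6 := absorb (T := T) (S := S) (E := (1 - k ^ 2) * S) (C := C₁) (a := 1 / A₁) hT0 hS1 (by positivity)
    have h7 : T * Real.exp ((1 - k ^ 2) * S - C * Real.sqrt S) ≤
        T * Real.exp ((1 - k ^ 2) * S - (C₁ + |Real.log (1 / A₁)|) * Real.sqrt S) := by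
      apply mul_le_mul_of_nonneg_left _ hT0.le
      apply Real.exp_le_exp.2
      rw [hC]
      have : 0 ≤ C₂ * Real.sqrt S := by positivity
      linarith
    refine (h7.trans h6).trans ?_
    rw [one_div, inv_mul_le_iff₀ hA₁]
    exact h5
  · have h3 : Gdk k A₂ δ₂ (fun _ _ _ => 0) (Zap η) T ⊆ (Zap η T).filter (fun s => |LM T s.im - k * S| ≤ A * Real.sqrt S) := by
      intro s hs
      unfold Gdk at hs
      rw [Finset.mem_filter] at hs ⊢
      obtain ⟨g0, g1, g2, _⟩ := hs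
      refine ⟨g0, ?_⟩
      have e1 : LM T s.im - k * S = (LM T s.im - EP ⌊T ^ δ₂⌋₊ s.im) + (EP ⌊T ^ δ₂⌋₊ s.im - k * S) := by ring
      rw [e1]
      refine (abs_add_le _ _).trans ?_
      rw [hA]
      nlinarith
    have h4 : T * Real.exp ((1 - k ^ 2) * S - C * Real.sqrt S) ≤ T * Real.exp ((1 - k ^ 2) * S - C₂ * Real.sqrt S) := by
      apply mul_le_mul_of_nonneg_left _ hT0.le
      apply Real.exp_le_exp.2
      rw [hC]
      have : 0 ≤ (C₁ + |Real.log (1 / A₁)|) * Real.sqrt S := by positivity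
      linarith
    refine h4.trans (h2.trans ?_)
    rw [Finset.sum_const, nsmul_eq_mul, mul_one]
    exact_mod_cast Finset.card_le_card h3

end

end Pool.Agent.Q97.UM
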