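import Pool.Agent.Q97.UM.Coh2
import Pool.Agent.Q98.UM.Lem
import Pool.Agent.Q149.UM.LOC

set_option autoImplicit false

/-! Project UM16: isolated zeros, their derivatives, and the moments near them. -/

namespace Pool.Agent.Q97.UM

open Filter Topology MeasureTheory Complex

noncomputable section

theorem ofReal_int_le (h : ℝ → ℝ) (μ : Measure ℝ) : ENNReal.ofReal (∫ t, h t ∂μ) ≤ ∫⁻ t, ENNReal.ofReal (h t) ∂μ := by
  by_cases hi : Integrable h μ
  · rw [integral_eq_lintegral_pos_part_sub_lintegral_neg_part hi]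
    calc ENNReal.ofReal ((∫⁻ t, ENNReal.ofReal (h t) ∂μ).toReal - (∫⁻ t, ENNReal.ofReal (-h t) ∂μ).toReal) ≤
          ENNReal.ofReal ((∫⁻ t, ENNReal.ofReal (h t) ∂μ).toReal) := by
          apply ENNReal.ofReal_le_ofReal
          have := ENNReal.toReal_nonneg (a := ∫⁻ t, ENNReal.ofReal (-h t) ∂μ)
          linarith
      _ ≤ _ := ENNReal.ofReal_toReal_le
  · rw [integral_undef hi]
    simp

/-- Jensen's inequality for the exponential function -/
theorem jensen_lint {f : ℝ → ℝ} {a b : ℝ} (hab : a < b) (hf : IntervalIntegrable f volume a b) :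
    ENNReal.ofReal ((b - a) * Real.exp ((1 / (b - a)) * ∫ t in a..b, f t)) ≤ ∫⁻ t in Set.Ioc a b, ENNReal.ofReal (Real.exp (f t)) := by
  have hba : 0 < b - a := by linarith
  obtain ⟨m, hm⟩ : ∃ m, m = (1 / (b - a)) * ∫ t in a..b, f t := ⟨_, rfl⟩
  rw [← hm]
  have e1 : ∫ t in a..b, Real.exp m * (1 + f t - m) = (b - a) * Real.exp m := by
    rw [intervalIntegral.integral_const_mul, intervalIntegral.integral_sub (by
      exact (intervalIntegrable_const).add hf) intervalIntegrable_const, intervalIntegral.integral_add intervalIntegrable_const hf,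
      intervalIntegral.integral_const, intervalIntegral.integral_const, smul_eq_mul, smul_eq_mul]
    have e2 : ∫ t in a..b, f t = (b - a) * m := by rw [hm]; field_simp
    rw [e2]
    ring
  calc ENNReal.ofReal ((b - a) * Real.exp m) = ENNReal.ofReal (∫ t in Set.Ioc a b, Real.exp m * (1 + f t - m)) := by
        rw [← intervalIntegral.integral_of_le hab.le, e1]
    _ ≤ ∫⁻ t in Set.Ioc a b, ENNReal.ofReal (Real.exp m * (1 + f t - m)) := ofReal_int_le _ _
    _ ≤ _ := by
        refine lintegral_mono fun t => ENNReal.ofReal_le_ofReal ?_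
        have h1 : f t - m + 1 ≤ Real.exp (f t - m) := Real.add_one_le_exp _
        calc Real.exp m * (1 + f t - m) ≤ Real.exp m * Real.exp (f t - m) := by
              apply mul_le_mul_of_nonneg_left _ (Real.exp_nonneg _)
              linarith
          _ = Real.exp (f t) := by rw [← Real.exp_add]; congr 1; ring

/-- integrability of `log|ζ|` near the zeros -/
theorem log_zt_int : ∀ᶠ T : ℝ in atTop, ∀ γ : ℝ, T < γ → γ ≤ 2 * T →
    IntervalIntegrable (fun v => Real.log ‖zt v‖) volume (γ - 1 / Real.log T) (γ + 1 / Real.log T) := by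
  obtain ⟨C, _, h⟩ := Pool.Agent.Q149.UM.t_LOC
  filter_upwards [h, eventually_ge_atTop (16 : ℝ), Real.tendsto_log_atTop.eventually_ge_atTop 2] with T h hT hL γ h1 h2
  have h3 := (h (γ - 1 / 2) (by linarith) (by linarith)).2.2.1
  have h4 : 1 / Real.log T ≤ 1 / 2 := by
    apply one_div_le_one_div_of_le (by norm_num) hL
  have h5 : 0 ≤ 1 / Real.log T := by positivity
  refine h3.mono_set ?_
  rw [Set.uIcc_of_le (by linarith), Set.uIcc_of_le (by linarith)]
  exact Set.Icc_subset_Icc (by linarith) (by linarith)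

/-- the moment near one zero -/
theorem moment_near (k : ℝ) : ∀ᶠ T : ℝ in atTop, ∀ γ : ℝ, T < γ → γ ≤ 2 * T →
    ENNReal.ofReal (2 / Real.log T * Real.exp (2 * k * LM T γ)) ≤
      ∫⁻ t in Set.Ioc (γ - 1 / Real.log T) (γ + 1 / Real.log T), ENNReal.ofReal (‖zt t‖ ^ (2 * k)) := by
  filter_upwards [log_zt_int, Real.tendsto_log_atTop.eventually_ge_atTop 2] with T h hL γ h1 h2
  have hL0 : 0 < Real.log T := by linarith
  have h3 := h γ h1 h2
  have hpos : 0 < 1 / Real.log T := by positivity
  have h4 := jensen_lint (f := fun v => 2 * k * Real.log ‖zt v‖) (a := γ - 1 / Real.log T) (b := γ + 1 / Real.log T) (by linarith)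
    (h3.const_mul _)
  have e1 : γ + 1 / Real.log T - (γ - 1 / Real.log T) = 2 / Real.log T := by ring
  rw [e1, intervalIntegral.integral_const_mul] at h4
  have e2 : 1 / (2 / Real.log T) * (2 * k * ∫ v in (γ - 1 / Real.log T)..(γ + 1 / Real.log T), Real.log ‖zt v‖) = 2 * k * LM T γ := by
    unfold LM
    rw [one_div_div]
    ring
  rw [e2] at h4
  refine h4.trans (le_of_eq ?_)
  refine lintegral_congr_ae ?_
  refine ae_restrict_of_ae ?_
  filter_upwards [Pool.Agent.Q98.UM.ae_zt 0] with t ht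
  rw [add_zero] at ht
  have hn : 0 < ‖zt t‖ := norm_pos_iff.2 ht
  rw [Real.rpow_def_of_pos hn]
  congr 2
  ring

/-- packing -/
theorem packing (F : Finset ℂ) (t r a : ℝ) (ha : 0 < a) (hr : 0 ≤ r) (h1 : ∀ s ∈ F, |s.im - t| ≤ r)
    (h2 : ∀ s ∈ F, ∀ s' ∈ F, s ≠ s' → a ≤ |s.im - s'.im|) : (F.card : ℝ) ≤ 2 * r / a + 1 := by
  have hinj : Set.InjOn (fun s : ℂ => ⌊(s.im - (t - r)) / a⌋₊) (F : Set ℂ) := by
    intro s hs s' hs' h
    by_contra hne
    have h3 := h2 s hs s' hs' hne
    have h4 := h1 s hs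
    have h5 := h1 s' hs'
    rw [abs_le] at h4 h5
    have h6 : (0 : ℝ) ≤ (s.im - (t - r)) / a := div_nonneg (by linarith) ha.le
    have h7 : (0 : ℝ) ≤ (s'.im - (t - r)) / a := div_nonneg (by linarith) ha.le
    have h8 := Nat.floor_le h6
    have h9 := Nat.lt_floor_add_one ((s.im - (t - r)) / a)
    have h10 := Nat.floor_le h7
    have h11 := Nat.lt_floor_add_one ((s'.im - (t - r)) / a)
    have h' : (⌊(s.im - (t - r)) / a⌋₊ : ℝ) = ⌊(s'.im - (t - r)) / a⌋₊ := by
      exact_mod_cast h
    have h12 : |(s.im - (t - r)) / a - (s'.im - (t - r)) / a| < 1 := by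
      rw [abs_lt]
      constructor <;> linarith
    have h13 : (s.im - (t - r)) / a - (s'.im - (t - r)) / a = (s.im - s'.im) / a := by ring
    rw [h13, abs_div, abs_of_pos ha, div_lt_one ha] at h12
    linarith
  have hmap : ∀ s ∈ F, ⌊(s.im - (t - r)) / a⌋₊ ∈ Finset.range (⌊2 * r / a⌋₊ + 1) := by
    intro s hs
    rw [Finset.mem_range, Nat.lt_succ_iff]
    apply Nat.floor_le_floor
    have h4 := h1 s hs
    rw [abs_le] at h4
    gcongr
    linarith
  have h3 := Finset.card_le_card_of_injOn _ hmap hinj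
  rw [Finset.card_range] at h3
  have h4 : (⌊2 * r / a⌋₊ : ℝ) ≤ 2 * r / a := Nat.floor_le (by positivity)
  have h5 : (F.card : ℝ) ≤ (⌊2 * r / a⌋₊ : ℝ) + 1 := by exact_mod_cast h3
  linarith

open Classical in
/-- integrals over overlapping intervals -/
theorem overlap (F : Finset ℂ) (I : ℂ → Set ℝ) (hI : ∀ s, MeasurableSet (I s)) (K : ENNReal)
    (hK : ∀ t : ℝ, ((F.filter (fun s => t ∈ I s)).card : ENNReal) ≤ K) (g : ℝ → ENNReal) (hg : Measurable g) :
    ∑ s ∈ F, ∫⁻ t in I s, g t ≤ K * ∫⁻ t in ⋃ s ∈ F, I s, g t := by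
  have hU : MeasurableSet (⋃ s ∈ F, I s) := F.measurableSet_biUnion fun s _ => hI s
  calc ∑ s ∈ F, ∫⁻ t in I s, g t = ∑ s ∈ F, ∫⁻ t, (I s).indicator g t := by
        refine Finset.sum_congr rfl fun s _ => ?_
        rw [lintegral_indicator (hI s)]
    _ = ∫⁻ t, ∑ s ∈ F, (I s).indicator g t := by
        rw [lintegral_finsetSum]
        intro s _
        exact hg.indicator (hI s)
    _ ≤ ∫⁻ t, K * (⋃ s ∈ F, I s).indicator g t := by
        refine lintegral_mono fun t => ?_
        by_cases ht : t ∈ ⋃ s ∈ F, I s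
        · rw [Set.indicator_of_mem ht]
          have h1 : ∑ s ∈ F, (I s).indicator g t = ((F.filter (fun s => t ∈ I s)).card : ENNReal) * g t := by
            rw [← nsmul_eq_mul, ← Finset.sum_const, Finset.sum_filter]
            refine Finset.sum_congr rfl fun s _ => ?_
            rw [Set.indicator_apply]
          rw [h1]
          exact mul_le_mul_left (hK t) _
        · rw [Set.indicator_of_notMem ht, mul_zero]
          apply le_of_eq
          refine Finset.sum_eq_zero fun s hs => ?_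
          rw [Set.indicator_of_notMem]
          intro h
          exact ht (Set.mem_biUnion hs h)
    _ = K * ∫⁻ t in ⋃ s ∈ F, I s, g t := by
        rw [lintegral_const_mul _ (hg.indicator hU), lintegral_indicator hU]

end

end Pool.Agent.Q97.UM
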