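import Pool.Agent.Q97.UM.Coh3

set_option autoImplicit false

/-! Project UM16: isolated zeros at every level. -/

namespace Pool.Agent.Q97.UM

open Filter Topology MeasureTheory Complex

noncomputable section

open Classical in
/-- isolated simple critical zeros with prescribed size of the derivative and of zeta nearby -/
def Giso (d k A T : ℝ) : Finset ℂ := (ZI d T).filter (fun s =>
  |Real.log ‖deriv riemannZeta s‖ - (k + 1) * Real.log (Real.log T)| ≤ A * Real.sqrt (Real.log (Real.log T)) ∧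
  |LM T s.im - k * Real.log (Real.log T)| ≤ A * Real.sqrt (Real.log (Real.log T)))

theorem ZI_props {d T : ℝ} (hT : 1 ≤ T) {s : ℂ} (hs : s ∈ ZI d T) : s ∈ H370.Zf riemannZeta T (2 * T) ∧ s.re = 1 / 2 ∧ mz s = 1 ∧
    T < s.im ∧ s.im ≤ 2 * T ∧ riemannZeta s = 0 ∧ ∀ s' ∈ ZD T, s' ≠ s → d / Real.log T ≤ ‖s - s'‖ := by
  unfold ZI at hs
  rw [Finset.mem_filter] at hs
  have h1 := hs.1
  rw [H370.mem_Zf H370.good_zeta hT] at h1
  exact ⟨hs.1, hs.2.1, hs.2.2.1, h1.2.2.1, h1.2.2.2.1, h1.2.2.2.2, hs.2.2.2⟩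

theorem Zf_ZD {T : ℝ} (hT : 16 ≤ T) {s : ℂ} (hs : s ∈ H370.Zf riemannZeta T (2 * T)) : s ∈ ZD T := by
  unfold ZD
  rw [H370.mem_Zf H370.good_zeta (by linarith)] at hs
  rw [H370.mem_Zf H370.good_zeta (by linarith)]
  exact ⟨hs.1, hs.2.1, by linarith [hs.2.2.1], by linarith [hs.2.2.2.1], hs.2.2.2.2⟩

open Classical in
/-- UM16, second part -/
theorem iso_level (hCOH : S_COH) (hCLW : S_CLW) (hDPM : S_DPM) : ∃ d : ℝ, 0 < d ∧ d ≤ 1 ∧ ∀ k : ℝ, ∃ A C : ℝ, 0 < A ∧ 0 ≤ C ∧
    ∀ᶠ T : ℝ in atTop,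
      T * Real.exp ((1 - k ^ 2) * Real.log (Real.log T) - C * Real.sqrt (Real.log (Real.log T))) ≤ ((Giso d k A T).card : ℝ) ∧
      T * Real.exp ((k + 1) ^ 2 * Real.log (Real.log T) - C * Real.sqrt (Real.log (Real.log T))) ≤
        ∑ s ∈ Giso d k A T, ‖deriv riemannZeta s‖ ^ (2 * k) ∧
      ENNReal.ofReal (T * Real.exp (k ^ 2 * Real.log (Real.log T) - C * Real.sqrt (Real.log (Real.log T)))) ≤
        ∫⁻ t in ⋃ s ∈ Giso d k A T, Set.Ioc (s.im - 1 / Real.log T) (s.im + 1 / Real.log T), ENNReal.ofReal (‖zt t‖ ^ (2 * k)) := by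
  have hc2 := H370.cMTinv_lt
  obtain ⟨d, θ, hd0, hd1, hθ, hθ1, hI⟩ := b_SAMPI (1 / 10) (by norm_num)
  obtain ⟨θ', δ', hθ', hδ', hTHD⟩ := b_THD 2
  refine ⟨d, hd0, hd1, fun k => ?_⟩
  have hpi := Real.pi_pos
  obtain ⟨c, hc⟩ : ∃ c, c = (2 - H370.cMTinv - 1 / 10) / (2 * Real.pi) := ⟨_, rfl⟩
  have hc0 : 0 < c := by
    rw [hc]
    apply div_pos _ (by positivity)
    linarith
  have hsub : ∀ T, ZI d T ⊆ H370.Zf riemannZeta T (2 * T) := fun T => by
    unfold ZI
    exact Finset.filter_subset _ _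
  obtain ⟨A₁, C₁, δ₁, hA₁, hC₁, hδ₁, h1⟩ := coh_core hCOH hCLW hDPM b_SAMP k (ZI d) (fun _ _ => 1) hsub
    (fun T s _ => zero_le_one) (by
      filter_upwards [eventually_ge_atTop (1 : ℝ)] with T hT s hs
      exact mz_ge hT s (hsub T hs)) (by
      refine ⟨θ, c, hθ, hc0, ?_⟩
      filter_upwards [hI] with T h N hN b
      refine le_trans (le_of_eq ?_) ((h N hN b).trans (le_of_eq ?_))
      · rw [hc]; ring
      · exact Finset.sum_congr rfl fun s _ => (one_mul _).symm)
    (fun δ T s => Real.log ‖deriv riemannZeta s‖ - Real.log (Real.log T) - EP ⌊T ^ δ⌋₊ s.im) (by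
      refine ⟨θ', δ', hθ', hδ', fun δ hδ hδ1 => ?_⟩
      obtain ⟨C, hC, h⟩ := hTHD δ d hδ hδ1 hd0
      refine ⟨C, hC, ?_⟩
      filter_upwards [h] with T h N hN b
      refine le_trans (le_of_eq ?_) (h N hN b).1
      refine Finset.sum_congr rfl fun s _ => ?_
      rw [one_mul, sq_abs])
  obtain ⟨A, hA⟩ : ∃ A, A = 2 * A₁ := ⟨_, rfl⟩
  have hA0 : 0 < A := by rw [hA]; positivity
  obtain ⟨c₂, hc₂⟩ : ∃ c₂, c₂ = 2 / (2 / d + 1) := ⟨_, rfl⟩
  have hc₂0 : 0 < c₂ := by rw [hc₂]; positivity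
  have hlc := abs_nonneg (Real.log c₂)
  have hk := abs_nonneg k
  obtain ⟨C, hC⟩ : ∃ C, C = C₁ + 2 * |k| * A + |Real.log c₂| := ⟨_, rfl⟩
  have hC0 : 0 ≤ C := by rw [hC]; positivity
  refine ⟨A, C, hA0, hC0, ?_⟩
  have hll : Tendsto (fun T : ℝ => Real.log (Real.log T)) atTop atTop :=
    Real.tendsto_log_atTop.comp Real.tendsto_log_atTop
  filter_upwards [h1, moment_near k, eventually_ge_atTop (16 : ℝ), hll.eventually_ge_atTop 1,
    Real.tendsto_log_atTop.eventually_ge_atTop 2] with T h1 hmom hT hS1 hL2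
  set S := Real.log (Real.log T) with hS
  have hSq1 : 1 ≤ Real.sqrt S := Real.one_le_sqrt.2 hS1
  have hT0 : 0 < T := by linarith
  have hL0 : 0 < Real.log T := by linarith
  have hLexp : Real.log T = Real.exp S := by rw [hS, Real.exp_log hL0]
  obtain ⟨G, hG⟩ : ∃ G, G = Giso d k A T := ⟨_, rfl⟩
  rw [← hG]
  have hGp : ∀ s ∈ G, s ∈ ZI d T ∧ |Real.log ‖deriv riemannZeta s‖ - (k + 1) * S| ≤ A * Real.sqrt S ∧
      |LM T s.im - k * S| ≤ A * Real.sqrt S := by
    intro s hs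
    rw [hG] at hs
    unfold Giso at hs
    rw [Finset.mem_filter] at hs
    exact hs
  -- the number
  have h2 : T * Real.exp ((1 - k ^ 2) * S - C₁ * Real.sqrt S) ≤ (G.card : ℝ) := by
    refine h1.trans ?_
    rw [Finset.sum_const, nsmul_eq_mul, mul_one]
    have h3 : Gdk k A₁ δ₁ (fun δ T s => Real.log ‖deriv riemannZeta s‖ - Real.log (Real.log T) - EP ⌊T ^ δ⌋₊ s.im) (ZI d) T ⊆ G := by
      intro s hs
      unfold Gdk at hs
      rw [hG]
      unfold Giso
      rw [Finset.mem_filter] at hs ⊢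
      obtain ⟨g0, g1, g2, g3⟩ := hs
      change |Real.log ‖deriv riemannZeta s‖ - S - EP ⌊T ^ δ₁⌋₊ s.im| ≤ A₁ at g3
      change |EP ⌊T ^ δ₁⌋₊ s.im - k * S| ≤ A₁ * Real.sqrt S at g1
      change s ∈ ZI d T ∧ |Real.log ‖deriv riemannZeta s‖ - (k + 1) * S| ≤ A * Real.sqrt S ∧ |LM T s.im - k * S| ≤ A * Real.sqrt S
      refine ⟨g0, ?_, ?_⟩
      · have e1 : Real.log ‖deriv riemannZeta s‖ - (k + 1) * S =
            (Real.log ‖deriv riemannZeta s‖ - S - EP ⌊T ^ δ₁⌋₊ s.im) + (EP ⌊T ^ δ₁⌋₊ s.im - k * S) := by ring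
        rw [e1]
        refine (abs_add_le _ _).trans ?_
        rw [hA]
        nlinarith
      · have e1 : LM T s.im - k * S = (LM T s.im - EP ⌊T ^ δ₁⌋₊ s.im) + (EP ⌊T ^ δ₁⌋₊ s.im - k * S) := by ring
        rw [e1]
        refine (abs_add_le _ _).trans ?_
        rw [hA]
        nlinarith
    exact_mod_cast Finset.card_le_card h3
  have hSq0 : 0 ≤ Real.sqrt S := by linarith
  refine ⟨?_, ?_, ?_⟩
  · refine le_trans ?_ h2
    apply mul_le_mul_of_nonneg_left _ hT0.le
    apply Real.exp_le_exp.2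
    rw [hC]
    have : 0 ≤ (2 * |k| * A + |Real.log c₂|) * Real.sqrt S := by positivity
    linarith
  · have h3 : ∀ s ∈ G, Real.exp (2 * k * (k + 1) * S - 2 * |k| * A * Real.sqrt S) ≤ ‖deriv riemannZeta s‖ ^ (2 * k) := by
      intro s hs
      obtain ⟨g1, g2, _⟩ := hGp s hs
      obtain ⟨_, p2, p3, _, _, p6, _⟩ := ZI_props (by linarith) g1
      have hs1 : s ≠ 1 := by
        intro h8
        rw [h8] at p2
        norm_num at p2
      have hn : 0 < ‖deriv riemannZeta s‖ := norm_pos_iff.2 ((mz_one p6 hs1).1 p3)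
      rw [Real.rpow_def_of_pos hn]
      apply Real.exp_le_exp.2
      have e1 : Real.log ‖deriv riemannZeta s‖ * (2 * k) = 2 * k * (k + 1) * S +
          2 * k * (Real.log ‖deriv riemannZeta s‖ - (k + 1) * S) := by ring
      rw [e1]
      have e2 : |2 * k * (Real.log ‖deriv riemannZeta s‖ - (k + 1) * S)| ≤ 2 * |k| * A * Real.sqrt S := by
        rw [abs_mul, abs_mul, abs_two]
        calc 2 * |k| * |Real.log ‖deriv riemannZeta s‖ - (k + 1) * S| ≤ 2 * |k| * (A * Real.sqrt S) := by gcongr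
          _ = _ := by ring
      have e3 := (abs_le.1 e2).1
      linarith
    calc T * Real.exp ((k + 1) ^ 2 * S - C * Real.sqrt S) ≤
          (T * Real.exp ((1 - k ^ 2) * S - C₁ * Real.sqrt S)) * Real.exp (2 * k * (k + 1) * S - 2 * |k| * A * Real.sqrt S) := by
          rw [mul_assoc, ← Real.exp_add]
          apply mul_le_mul_of_nonneg_left _ hT0.le
          apply Real.exp_le_exp.2
          rw [hC]
          have : 0 ≤ |Real.log c₂| * Real.sqrt S := by positivity
          nlinarith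
      _ ≤ (G.card : ℝ) * Real.exp (2 * k * (k + 1) * S - 2 * |k| * A * Real.sqrt S) := by gcongr
      _ = ∑ s ∈ G, Real.exp (2 * k * (k + 1) * S - 2 * |k| * A * Real.sqrt S) := by rw [Finset.sum_const, nsmul_eq_mul]
      _ ≤ _ := Finset.sum_le_sum h3
  · -- the moment
    have h3 : ∀ s ∈ G, ENNReal.ofReal (2 / Real.log T * Real.exp (2 * k ^ 2 * S - 2 * |k| * A * Real.sqrt S)) ≤
        ∫⁻ t in Set.Ioc (s.im - 1 / Real.log T) (s.im + 1 / Real.log T), ENNReal.ofReal (‖zt t‖ ^ (2 * k)) := by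
      intro s hs
      obtain ⟨g1, _, g3⟩ := hGp s hs
      obtain ⟨_, _, _, p4, p5, _, _⟩ := ZI_props (by linarith) g1
      refine le_trans ?_ (hmom s.im p4 p5)
      apply ENNReal.ofReal_le_ofReal
      have e1 : 2 * k * LM T s.im = 2 * k ^ 2 * S + 2 * k * (LM T s.im - k * S) := by ring
      have e2 : |2 * k * (LM T s.im - k * S)| ≤ 2 * |k| * A * Real.sqrt S := by
        rw [abs_mul, abs_mul, abs_two]
        calc 2 * |k| * |LM T s.im - k * S| ≤ 2 * |k| * (A * Real.sqrt S) := by gcongr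
          _ = _ := by ring
      have e3 := (abs_le.1 e2).1
      apply mul_le_mul_of_nonneg_left _ (by positivity)
      apply Real.exp_le_exp.2
      rw [e1]
      linarith
    have hK : ∀ t : ℝ, ((G.filter (fun s => t ∈ Set.Ioc (s.im - 1 / Real.log T) (s.im + 1 / Real.log T))).card : ENNReal) ≤
        ENNReal.ofReal (2 / d + 1) := by
      intro t
      have h4 := packing (G.filter (fun s => t ∈ Set.Ioc (s.im - 1 / Real.log T) (s.im + 1 / Real.log T))) t (1 / Real.log T)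
        (d / Real.log T) (by positivity) (by positivity) (fun s hs => by
          rw [Finset.mem_filter, Set.mem_Ioc] at hs
          rw [abs_le]
          constructor <;> linarith [hs.2.1, hs.2.2]) (fun s hs s' hs' hne => by
          rw [Finset.mem_filter] at hs hs'
          obtain ⟨_, p2, _, _, _, _, p7⟩ := ZI_props (by linarith) (hGp s hs.1).1
          obtain ⟨q1, q2, _, _, _, _, _⟩ := ZI_props (by linarith) (hGp s' hs'.1).1
          have h5 := p7 s' (Zf_ZD hT q1) (Ne.symm hne)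
          have h6 : ‖s - s'‖ = |s.im - s'.im| := by
            have e : s - s' = ((s.im - s'.im : ℝ) : ℂ) * I := by
              apply Complex.ext
              · simp [p2, q2]
              · simp
            rw [e, norm_mul, Complex.norm_I, mul_one, Complex.norm_real, Real.norm_eq_abs]
          rwa [h6] at h5)
      have e1 : 2 * (1 / Real.log T) / (d / Real.log T) = 2 / d := by field_simp
      rw [e1] at h4
      rw [← ENNReal.ofReal_natCast]
      exact ENNReal.ofReal_le_ofReal h4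
    have hgm : Measurable fun t : ℝ => ENNReal.ofReal (‖zt t‖ ^ (2 * k)) := by
      have hz : Measurable fun t : ℝ => ‖zt t‖ := Pool.Agent.Q151.UM.zt_cont.norm.measurable
      exact (hz.pow_const (2 * k)).ennreal_ofReal
    have h4 := overlap G (fun s => Set.Ioc (s.im - 1 / Real.log T) (s.im + 1 / Real.log T)) (fun _ => measurableSet_Ioc)
      (ENNReal.ofReal (2 / d + 1)) (fun t => le_trans (le_of_eq (by congr!)) (hK t)) (fun t => ENNReal.ofReal (‖zt t‖ ^ (2 * k))) hgm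
    obtain ⟨Int, hInt⟩ : ∃ Int, Int = ∫⁻ t in ⋃ s ∈ G, Set.Ioc (s.im - 1 / Real.log T) (s.im + 1 / Real.log T),
      ENNReal.ofReal (‖zt t‖ ^ (2 * k)) := ⟨_, rfl⟩
    rw [← hInt] at h4
    rw [← hInt]
    have h5 : (G.card : ENNReal) * ENNReal.ofReal (2 / Real.log T * Real.exp (2 * k ^ 2 * S - 2 * |k| * A * Real.sqrt S)) ≤
        ENNReal.ofReal (2 / d + 1) * Int := by
      refine le_trans ?_ h4
      rw [← nsmul_eq_mul, ← Finset.sum_const]
      exact Finset.sum_le_sum h3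
    have hd' : 0 < 2 / d + 1 := by positivity
    -- divide
    have h6 : ENNReal.ofReal ((2 / d + 1) * (T * Real.exp (k ^ 2 * S - C * Real.sqrt S))) ≤ ENNReal.ofReal (2 / d + 1) * Int := by
      refine le_trans ?_ h5
      rw [← ENNReal.ofReal_natCast, ← ENNReal.ofReal_mul (Nat.cast_nonneg _)]
      apply ENNReal.ofReal_le_ofReal
      have h7 := absorb (T := T) (S := S) (E := k ^ 2 * S - 2 * |k| * A * Real.sqrt S) (C := C₁) (a := c₂) hT0 hS1 hc₂0
      calc (2 / d + 1) * (T * Real.exp (k ^ 2 * S - C * Real.sqrt S)) =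
            (2 / d + 1) * (T * Real.exp (k ^ 2 * S - 2 * |k| * A * Real.sqrt S - (C₁ + |Real.log c₂|) * Real.sqrt S)) := by
            rw [hC]
            congr 3
            ring
        _ ≤ (2 / d + 1) * (c₂ * (T * Real.exp (k ^ 2 * S - 2 * |k| * A * Real.sqrt S - C₁ * Real.sqrt S))) := by gcongr
        _ = 2 * (T * Real.exp (k ^ 2 * S - 2 * |k| * A * Real.sqrt S - C₁ * Real.sqrt S)) := by
            rw [hc₂]; field_simp
        _ = (T * Real.exp ((1 - k ^ 2) * S - C₁ * Real.sqrt S)) * (2 / Real.log T * Real.exp (2 * k ^ 2 * S - 2 * |k| * A * Real.sqrt S)) := by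
            rw [hLexp]
            have e1 : Real.exp (k ^ 2 * S - 2 * |k| * A * Real.sqrt S - C₁ * Real.sqrt S) =
                Real.exp ((1 - k ^ 2) * S - C₁ * Real.sqrt S) * Real.exp (2 * k ^ 2 * S - 2 * |k| * A * Real.sqrt S) / Real.exp S := by
              rw [← Real.exp_add, ← Real.exp_sub]
              congr 1
              ring
            rw [e1]
            ring
        _ ≤ _ := by gcongr
    rw [ENNReal.ofReal_mul hd'.le] at h6
    have hne : ENNReal.ofReal (2 / d + 1) ≠ 0 := by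
      rw [Ne, ENNReal.ofReal_eq_zero, not_le]
      exact hd'
    exact (ENNReal.mul_le_mul_iff_right hne ENNReal.ofReal_ne_top).1 h6

end

end Pool.Agent.Q97.UM
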