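import Pool.Agent.Q97.UM.Stm3

set_option autoImplicit false

/-! Project UM: the kernel and weighted means of the mollified zeta function. -/

namespace Pool.Agent.Q97.UM

open Filter Topology MeasureTheory Complex
open Pool.Agent.W182.KO (P TF P_bound one_add_inv_sq_int J2 J2_nonneg)
open Q80.SP (kr sc_int sc_val)
open scoped ContDiff

noncomputable section

theorem TF_of {ψ₁ : ℝ → ℝ} (hcd : ContDiff ℝ ∞ ψ₁) (hs : ∀ u, 1 ≤ |u| → ψ₁ u = 0) : TF 1 (fun u => (ψ₁ u : ℂ)) where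
  cd := Complex.ofRealCLM.contDiff.comp hcd
  cs := HasCompactSupport.intro (isCompact_Icc (a := -1) (b := 1)) fun u hu => by
    rw [hs u, Complex.ofReal_zero]
    by_contra h
    rw [not_le, abs_lt] at h
    exact hu ⟨h.1.le, h.2.le⟩
  sp := fun u hu => by rw [hs u (hu.le.trans (le_abs_self _)), Complex.ofReal_zero]

/-- decay of the kernel -/
theorem k0_bd {ψ₁ k₀ : ℝ → ℝ} (hcd : ContDiff ℝ ∞ ψ₁) (hs : ∀ u, 1 ≤ |u| → ψ₁ u = 0)
    (hk : ∀ x : ℝ, (k₀ x : ℂ) = ((1 / (2 * Real.pi) : ℝ) : ℂ) * P (fun u => (ψ₁ u : ℂ)) (x * I)) (n : ℕ) :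
    ∃ C : ℝ, 0 ≤ C ∧ ∀ x : ℝ, |k₀ x| * (1 + |x|) ^ n ≤ C := by
  obtain ⟨C, hC, hb⟩ := P_bound (TF_of hcd hs) n
  refine ⟨C, hC, fun x => ?_⟩
  have h1 := hb (x * I) (by simp)
  have e1 : ((x : ℂ) * I).re = 0 := by simp
  have e2 : ‖(x : ℂ) * I‖ = |x| := by rw [norm_mul, Complex.norm_I, mul_one, Complex.norm_real, Real.norm_eq_abs]
  rw [e1, e2, mul_zero, Real.exp_zero, mul_one] at h1
  have h2 : |k₀ x| ≤ ‖P (fun u => (ψ₁ u : ℂ)) (x * I)‖ := by
    have h3 : |k₀ x| = ‖(k₀ x : ℂ)‖ := by rw [Complex.norm_real, Real.norm_eq_abs]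
    rw [h3, hk, norm_mul, Complex.norm_real, Real.norm_of_nonneg (by positivity)]
    refine mul_le_of_le_one_left (norm_nonneg _) ?_
    rw [div_le_one (by positivity)]
    linarith [Real.pi_gt_three]
  calc |k₀ x| * (1 + |x|) ^ n ≤ ‖P (fun u => (ψ₁ u : ℂ)) (x * I)‖ * (1 + |x|) ^ n :=
        mul_le_mul_of_nonneg_right h2 (by positivity)
    _ ≤ C := h1

/-- the scaled kernel -/
def Kf (k₀ : ℝ → ℝ) (M y : ℝ) : ℝ := M * k₀ (M * y)

theorem kr_Kf {ψ₁ k₀ : ℝ → ℝ}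
    (hk : ∀ x : ℝ, (k₀ x : ℂ) = ((1 / (2 * Real.pi) : ℝ) : ℂ) * P (fun u => (ψ₁ u : ℂ)) (x * I)) {δ : ℝ} (hδ : 0 < δ) (L y : ℝ) :
    kr (fun u => (ψ₁ (u / δ) : ℂ)) L y = (Kf k₀ (δ * L) y : ℂ) := by
  unfold kr Kf
  have h1 : P (fun u => (ψ₁ (u / δ) : ℂ)) (L * y * I) = δ * P (fun u => (ψ₁ u : ℂ)) ((δ * L * y : ℝ) * I) := by
    unfold P
    have h2 := Measure.integral_comp_mul_left (fun u : ℝ => (ψ₁ (u / δ) : ℂ) * cexp (u * (L * y * I))) δ
    have h3 : ∀ u : ℝ, (ψ₁ (δ * u / δ) : ℂ) * cexp ((δ * u : ℝ) * (L * y * I)) =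
        (ψ₁ u : ℂ) * cexp (u * (((δ * L * y : ℝ) : ℂ) * I)) := by
      intro u
      rw [mul_div_cancel_left₀ _ hδ.ne']
      congr 2
      push_cast
      ring
    simp only [h3] at h2
    have h4 : (δ : ℂ) * ((δ⁻¹ : ℝ) : ℂ) = 1 := by
      rw [← Complex.ofReal_mul, mul_inv_cancel₀ hδ.ne', Complex.ofReal_one]
    rw [h2, abs_of_pos (inv_pos.2 hδ), Complex.real_smul, ← mul_assoc, h4, one_mul]
  have h5 := hk (δ * L * y)
  rw [h1, Complex.ofReal_mul (δ * L) (k₀ (δ * L * y)), h5]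
  push_cast
  ring

/-- the weighted decay -/
theorem Kf_bd {ψ₁ k₀ : ℝ → ℝ} (hcd : ContDiff ℝ ∞ ψ₁) (hs : ∀ u, 1 ≤ |u| → ψ₁ u = 0)
    (hk : ∀ x : ℝ, (k₀ x : ℂ) = ((1 / (2 * Real.pi) : ℝ) : ℂ) * P (fun u => (ψ₁ u : ℂ)) (x * I)) (hk0 : ∀ x, 0 ≤ k₀ x)
    (p : ℕ) : ∃ C : ℝ, 0 ≤ C ∧ ∀ M : ℝ, 1 ≤ M → ∀ y : ℝ,
      Kf k₀ M y * |y| ^ p * (1 + |y|) ^ 6 ≤ C / M ^ p * (M / (1 + M * |y|) ^ 2) := by
  obtain ⟨C, hC, hb⟩ := k0_bd hcd hs hk (p + 8)
  refine ⟨C, hC, fun M hM y => ?_⟩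
  have hM0 : 0 < M := by linarith
  have h1 := hb (M * y)
  rw [abs_of_nonneg (hk0 _), abs_mul, abs_of_pos hM0] at h1
  have hX : 0 < 1 + M * |y| := by positivity
  have h2 : k₀ (M * y) ≤ C / (1 + M * |y|) ^ (p + 8) := by rwa [le_div_iff₀ (by positivity)]
  unfold Kf
  have h3 : |y| ^ p ≤ (1 + M * |y|) ^ p / M ^ p := by
    rw [le_div_iff₀ (by positivity), ← mul_pow]
    refine pow_le_pow_left₀ (by positivity) ?_ p
    nlinarith [abs_nonneg y]
  have h4 : (1 + |y|) ^ 6 ≤ (1 + M * |y|) ^ 6 := by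
    refine pow_le_pow_left₀ (by positivity) ?_ 6
    nlinarith [abs_nonneg y]
  calc M * k₀ (M * y) * |y| ^ p * (1 + |y|) ^ 6 ≤
        M * (C / (1 + M * |y|) ^ (p + 8)) * ((1 + M * |y|) ^ p / M ^ p) * (1 + M * |y|) ^ 6 := by
        have := hk0 (M * y)
        gcongr
    _ = C / M ^ p * (M / (1 + M * |y|) ^ 2) := by
        rw [show (1 + M * |y|) ^ (p + 8) = (1 + M * |y|) ^ p * (1 + M * |y|) ^ 6 * (1 + M * |y|) ^ 2 by ring]
        field_simp

theorem Kf_nonneg {k₀ : ℝ → ℝ} (hk0 : ∀ x, 0 ≤ k₀ x) {M : ℝ} (hM : 0 ≤ M) (y : ℝ) : 0 ≤ Kf k₀ M y :=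
  mul_nonneg hM (hk0 _)

/-- Cauchy-Schwarz, real form -/
theorem cs_r {w g : ℝ → ℝ} (hw0 : ∀ y, 0 ≤ w y) (hg0 : ∀ y, 0 ≤ g y) (hw : Integrable w) (hwg : Integrable fun y => w y * g y)
    (hwg2 : Integrable fun y => w y * g y ^ 2) : (∫ y, w y * g y) ^ 2 ≤ (∫ y, w y) * ∫ y, w y * g y ^ 2 := by
  have h0 : 0 ≤ ∫ z, w z * g z := integral_nonneg fun z => mul_nonneg (hw0 z) (hg0 z)
  have h2 : ∀ t : ℝ, 0 ≤ (∫ z, w z) * (t * t) + (-(2 * ∫ z, w z * g z)) * t + ∫ z, w z * g z ^ 2 := by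
    intro t
    have h3 : 0 ≤ ∫ z, w z * (g z - t) ^ 2 := integral_nonneg fun z => mul_nonneg (hw0 z) (sq_nonneg _)
    have h4 : ∫ z, w z * (g z - t) ^ 2 = (∫ z, w z) * (t * t) + (-(2 * ∫ z, w z * g z)) * t + ∫ z, w z * g z ^ 2 := by
      have e : ∀ z, w z * (g z - t) ^ 2 = w z * (t * t) + (-(2 * t)) * (w z * g z) + w z * g z ^ 2 := by
        intro z; ring
      simp only [e]
      have i1 : Integrable (fun z => w z * (t * t)) := hw.mul_const _
      have i2 : Integrable (fun z => (-(2 * t)) * (w z * g z)) := hwg.const_mul _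
      have i12 : Integrable (fun z => w z * (t * t) + (-(2 * t)) * (w z * g z)) := i1.add i2
      rw [integral_add i12 hwg2, integral_add i1 i2, integral_mul_const, integral_const_mul]
      ring
    rw [← h4]; exact h3
  have h5 := discrim_le_zero h2
  unfold discrim at h5
  nlinarith

/-- the weighted mean of a function of polynomial growth against a weight -/
theorem mean_bd {k₀ : ℝ → ℝ} (hk0 : ∀ x, 0 ≤ k₀ x) (hkc : Continuous k₀) {p : ℕ} {Cp : ℝ} (hCp : 0 ≤ Cp)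
    (hK : ∀ M : ℝ, 1 ≤ M → ∀ y : ℝ, Kf k₀ M y * |y| ^ p * (1 + |y|) ^ 6 ≤ Cp / M ^ p * (M / (1 + M * |y|) ^ 2))
    {g : ℝ → ℝ} (hg0 : ∀ u, 0 ≤ g u) (hgc : Continuous g) {G : ℝ} (hG : ∀ u, g u ≤ G * (1 + |u|) ^ 2)
    {V : ℝ → ℝ} (hV0 : ∀ t, 0 ≤ V t) (hVc : Continuous V) {T D M : ℝ} (hT : 0 ≤ T) (hM : 1 ≤ M)
    (hD : ∀ y : ℝ, ∫ t in T..(2 * T), V t * g (t + y) ^ 2 ≤ D * (1 + |y|) ^ 6) :
    (∀ t : ℝ, Integrable fun y => Kf k₀ M y * |y| ^ p * g (t + y)) ∧
    IntervalIntegrable (fun t => V t * (∫ y : ℝ, Kf k₀ M y * |y| ^ p * g (t + y)) ^ 2) volume T (2 * T) ∧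
    ∫ t in T..(2 * T), V t * (∫ y : ℝ, Kf k₀ M y * |y| ^ p * g (t + y)) ^ 2 ≤ (Cp * J2 / M ^ p) ^ 2 * D := by
  have hM0 : 0 < M := by linarith
  have hG0 : 0 ≤ G := by
    have h1 := (hg0 0).trans (hG 0)
    simpa using h1
  set w : ℝ → ℝ := fun y => Kf k₀ M y * |y| ^ p with hw
  have hw0 : ∀ y, 0 ≤ w y := fun y => mul_nonneg (Kf_nonneg hk0 hM0.le y) (by positivity)
  have hwc : Continuous w := by rw [hw]; unfold Kf; fun_prop
  set m : ℝ → ℝ := fun y => Cp / M ^ p * (M / (1 + M * |y|) ^ 2) with hm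
  have hmi : Integrable m := (sc_int hM0).const_mul _
  have hmv : ∫ y, m y = Cp * J2 / M ^ p := by
    rw [hm, integral_const_mul, sc_val hM0]; ring
  have hw6 : ∀ y, w y * (1 + |y|) ^ 6 ≤ m y := fun y => hK M hM y
  have hwm : ∀ y, w y ≤ m y := fun y => by
    refine le_trans ?_ (hw6 y)
    exact le_mul_of_one_le_right (hw0 y) (one_le_pow₀ (by linarith [abs_nonneg y]))
  have hg1 : ∀ t y : ℝ, g (t + y) ≤ G * (1 + |t|) ^ 2 * (1 + |y|) ^ 2 := by
    intro t y
    refine (hG (t + y)).trans ?_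
    rw [mul_assoc, ← mul_pow]
    refine mul_le_mul_of_nonneg_left (pow_le_pow_left₀ (by positivity) ?_ 2) hG0
    have := abs_add_le t y
    nlinarith [abs_nonneg t, abs_nonneg y, mul_nonneg (abs_nonneg t) (abs_nonneg y)]
  have hwi : Integrable w := hmi.mono' hwc.aestronglyMeasurable (Filter.Eventually.of_forall fun y => by
    rw [Real.norm_of_nonneg (hw0 y)]; exact hwm y)
  have hp24 : ∀ y : ℝ, (1 + |y|) ^ 2 ≤ (1 + |y|) ^ 6 ∧ (1 + |y|) ^ 4 ≤ (1 + |y|) ^ 6 := fun y =>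
    ⟨pow_le_pow_right₀ (by linarith [abs_nonneg y]) (by norm_num), pow_le_pow_right₀ (by linarith [abs_nonneg y]) (by norm_num)⟩
  have hb1 : ∀ t y : ℝ, w y * g (t + y) ≤ G * (1 + |t|) ^ 2 * m y := by
    intro t y
    calc w y * g (t + y) ≤ w y * (G * (1 + |t|) ^ 2 * (1 + |y|) ^ 6) := by
          refine mul_le_mul_of_nonneg_left ((hg1 t y).trans ?_) (hw0 y)
          exact mul_le_mul_of_nonneg_left (hp24 y).1 (by positivity)
      _ = G * (1 + |t|) ^ 2 * (w y * (1 + |y|) ^ 6) := by ring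
      _ ≤ _ := mul_le_mul_of_nonneg_left (hw6 y) (by positivity)
  have hb2 : ∀ t y : ℝ, w y * g (t + y) ^ 2 ≤ G ^ 2 * (1 + |t|) ^ 4 * m y := by
    intro t y
    have h1 : g (t + y) ^ 2 ≤ (G * (1 + |t|) ^ 2 * (1 + |y|) ^ 2) ^ 2 := pow_le_pow_left₀ (hg0 _) (hg1 t y) 2
    calc w y * g (t + y) ^ 2 ≤ w y * (G ^ 2 * (1 + |t|) ^ 4 * (1 + |y|) ^ 6) := by
          refine mul_le_mul_of_nonneg_left (h1.trans ?_) (hw0 y)
          calc (G * (1 + |t|) ^ 2 * (1 + |y|) ^ 2) ^ 2 = G ^ 2 * (1 + |t|) ^ 4 * (1 + |y|) ^ 4 := by ring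
            _ ≤ _ := mul_le_mul_of_nonneg_left (hp24 y).2 (by positivity)
      _ = G ^ 2 * (1 + |t|) ^ 4 * (w y * (1 + |y|) ^ 6) := by ring
      _ ≤ _ := mul_le_mul_of_nonneg_left (hw6 y) (by positivity)
  have hi1 : ∀ t : ℝ, Integrable fun y => w y * g (t + y) := fun t =>
    (hmi.const_mul (G * (1 + |t|) ^ 2)).mono' (by
      have : Continuous fun y : ℝ => w y * g (t + y) := by fun_prop
      exact this.aestronglyMeasurable) (Filter.Eventually.of_forall fun y => by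
      rw [Real.norm_of_nonneg (mul_nonneg (hw0 y) (hg0 _))]; exact hb1 t y)
  have hi2 : ∀ t : ℝ, Integrable fun y => w y * g (t + y) ^ 2 := fun t =>
    (hmi.const_mul (G ^ 2 * (1 + |t|) ^ 4)).mono' (by
      have : Continuous fun y : ℝ => w y * g (t + y) ^ 2 := by fun_prop
      exact this.aestronglyMeasurable) (Filter.Eventually.of_forall fun y => by
      rw [Real.norm_of_nonneg (mul_nonneg (hw0 y) (sq_nonneg _))]; exact hb2 t y)
  have hT2 : T ≤ 2 * T := by linarith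
  -- continuity of the inner integral
  have hFc : Continuous fun t : ℝ => ∫ y : ℝ, w y * g (t + y) := by
    refine continuous_iff_continuousAt.2 fun t0 => ?_
    refine continuousAt_of_dominated (bound := fun y => G * (2 + |t0|) ^ 2 * m y) ?_ ?_ (hmi.const_mul _) ?_
    · exact Filter.Eventually.of_forall fun t => (hi1 t).aestronglyMeasurable
    · have h1 : ∀ᶠ t in 𝓝 t0, |t| < 1 + |t0| := by
        have : ContinuousAt (fun t : ℝ => |t|) t0 := continuous_abs.continuousAt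
        exact this.eventually_lt continuousAt_const (by linarith)
      filter_upwards [h1] with t ht
      refine Filter.Eventually.of_forall fun y => ?_
      rw [Real.norm_of_nonneg (mul_nonneg (hw0 y) (hg0 _))]
      refine (hb1 t y).trans ?_
      have hm0 : 0 ≤ m y := (hw0 y).trans (hwm y)
      refine mul_le_mul_of_nonneg_right (mul_le_mul_of_nonneg_left ?_ hG0) hm0
      exact pow_le_pow_left₀ (by positivity) (by linarith) 2
    · refine Filter.Eventually.of_forall fun y => ?_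
      have : Continuous fun t : ℝ => w y * g (t + y) := by fun_prop
      exact this.continuousAt
  refine ⟨hi1, ?_, ?_⟩
  · have : Continuous fun t => V t * (∫ y : ℝ, w y * g (t + y)) ^ 2 := by fun_prop
    exact this.intervalIntegrable _ _
  -- the double integral
  obtain ⟨BV, hBV⟩ : ∃ BV : ℝ, ∀ t ∈ Set.Icc T (2 * T), V t ≤ BV := by
    obtain ⟨BV, hBV⟩ := isCompact_Icc.exists_bound_of_continuousOn (hVc.continuousOn (s := Set.Icc T (2 * T)))
    exact ⟨BV, fun t ht => (le_abs_self _).trans (hBV t ht)⟩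
  have hprod : Integrable (fun z : ℝ × ℝ => V z.1 * (w z.2 * g (z.1 + z.2) ^ 2))
      (((volume : Measure ℝ).restrict (Set.Ioc T (2 * T))).prod (volume : Measure ℝ)) := by
    have h1 : Integrable (fun z : ℝ × ℝ => (fun _ : ℝ => BV * (G ^ 2 * (1 + 2 * T) ^ 4)) z.1 * m z.2)
        (((volume : Measure ℝ).restrict (Set.Ioc T (2 * T))).prod (volume : Measure ℝ)) := by
      have h0 : Integrable (fun _ : ℝ => BV * (G ^ 2 * (1 + 2 * T) ^ 4)) ((volume : Measure ℝ).restrict (Set.Ioc T (2 * T))) :=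
        integrable_const _
      exact h0.mul_prod hmi
    refine h1.mono' ?_ ?_
    · have : Continuous fun z : ℝ × ℝ => V z.1 * (w z.2 * g (z.1 + z.2) ^ 2) := by fun_prop
      exact this.aestronglyMeasurable
    · have h2 : ∀ᵐ z : ℝ × ℝ ∂(((volume : Measure ℝ).restrict (Set.Ioc T (2 * T))).prod (volume : Measure ℝ)), z.1 ∈ Set.Ioc T (2 * T) := by
        have h3 : ∀ᵐ x ∂(volume.restrict (Set.Ioc T (2 * T))), x ∈ Set.Ioc T (2 * T) := ae_restrict_mem measurableSet_Ioc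
        exact (Measure.quasiMeasurePreserving_fst (μ := volume.restrict (Set.Ioc T (2 * T))) (ν := (volume : Measure ℝ))).ae h3
      filter_upwards [h2] with z hz
      rw [Real.norm_of_nonneg (mul_nonneg (hV0 _) (mul_nonneg (hw0 _) (sq_nonneg _)))]
      have hz1 : |z.1| ≤ 2 * T := by rw [abs_of_nonneg (hT.trans hz.1.le)]; exact hz.2
      have hm0 : 0 ≤ m z.2 := (hw0 _).trans (hwm _)
      have hBV0 : 0 ≤ BV := (hV0 z.1).trans (hBV z.1 ⟨hz.1.le, hz.2⟩)
      calc V z.1 * (w z.2 * g (z.1 + z.2) ^ 2) ≤ BV * (G ^ 2 * (1 + |z.1|) ^ 4 * m z.2) :=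
            mul_le_mul (hBV z.1 ⟨hz.1.le, hz.2⟩) (hb2 _ _) (mul_nonneg (hw0 _) (sq_nonneg _)) hBV0
        _ ≤ BV * (G ^ 2 * (1 + 2 * T) ^ 4 * m z.2) := by
            refine mul_le_mul_of_nonneg_left (mul_le_mul_of_nonneg_right (mul_le_mul_of_nonneg_left ?_ (by positivity)) hm0) hBV0
            exact pow_le_pow_left₀ (by positivity) (by linarith) 4
        _ = _ := by ring
  have hswap : ∫ t in T..(2 * T), V t * ∫ y : ℝ, w y * g (t + y) ^ 2 = ∫ y : ℝ, w y * ∫ t in T..(2 * T), V t * g (t + y) ^ 2 := by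
    rw [intervalIntegral.integral_of_le hT2]
    have h1 : ∀ t : ℝ, V t * ∫ y : ℝ, w y * g (t + y) ^ 2 = ∫ y : ℝ, V t * (w y * g (t + y) ^ 2) := fun t =>
      (integral_const_mul _ _).symm
    simp only [h1]
    rw [integral_integral_swap (f := fun t y => V t * (w y * g (t + y) ^ 2)) hprod]
    refine integral_congr_ae (Filter.Eventually.of_forall fun y => ?_)
    simp only []
    rw [intervalIntegral.integral_of_le hT2, ← integral_const_mul]
    refine integral_congr_ae (Filter.Eventually.of_forall fun t => ?_)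
    simp only []
    ring
  have hyint : Integrable fun y : ℝ => w y * ∫ t in T..(2 * T), V t * g (t + y) ^ 2 := by
    have h1 := hprod.integral_prod_right
    refine h1.congr (Filter.Eventually.of_forall fun y => ?_)
    simp only []
    rw [intervalIntegral.integral_of_le hT2, ← integral_const_mul]
    refine integral_congr_ae (Filter.Eventually.of_forall fun t => ?_)
    simp only []
    ring
  have hD0 : 0 ≤ D := by
    have h1 := hD 0
    have h2 : 0 ≤ ∫ t in T..(2 * T), V t * g (t + 0) ^ 2 :=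
      intervalIntegral.integral_nonneg hT2 fun t _ => mul_nonneg (hV0 _) (sq_nonneg _)
    have h3 := h2.trans h1
    simpa using h3
  have hJ : 0 ≤ Cp * J2 / M ^ p := by
    have := J2_nonneg
    positivity
  have hwle : ∫ y, w y ≤ Cp * J2 / M ^ p := by
    rw [← hmv]
    exact integral_mono hwi hmi hwm
  have hcont2 : Continuous fun t : ℝ => ∫ y : ℝ, w y * g (t + y) ^ 2 := by
    refine continuous_iff_continuousAt.2 fun t0 => ?_
    refine continuousAt_of_dominated (bound := fun y => G ^ 2 * (2 + |t0|) ^ 4 * m y) ?_ ?_ (hmi.const_mul _) ?_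
    · exact Filter.Eventually.of_forall fun t => (hi2 t).aestronglyMeasurable
    · have h1 : ∀ᶠ t in 𝓝 t0, |t| < 1 + |t0| := by
        have : ContinuousAt (fun t : ℝ => |t|) t0 := continuous_abs.continuousAt
        exact this.eventually_lt continuousAt_const (by linarith)
      filter_upwards [h1] with t ht
      refine Filter.Eventually.of_forall fun y => ?_
      rw [Real.norm_of_nonneg (mul_nonneg (hw0 y) (sq_nonneg _))]
      refine (hb2 t y).trans ?_
      have hm0 : 0 ≤ m y := (hw0 y).trans (hwm y)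
      refine mul_le_mul_of_nonneg_right (mul_le_mul_of_nonneg_left ?_ (by positivity)) hm0
      exact pow_le_pow_left₀ (by positivity) (by linarith) 4
    · refine Filter.Eventually.of_forall fun y => ?_
      have : Continuous fun t : ℝ => w y * g (t + y) ^ 2 := by fun_prop
      exact this.continuousAt
  calc ∫ t in T..(2 * T), V t * (∫ y : ℝ, w y * g (t + y)) ^ 2
      ≤ ∫ t in T..(2 * T), (Cp * J2 / M ^ p) * (V t * ∫ y : ℝ, w y * g (t + y) ^ 2) := by
        refine intervalIntegral.integral_mono_on hT2 ?_ ?_ fun t _ => ?_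
        · have : Continuous fun t => V t * (∫ y : ℝ, w y * g (t + y)) ^ 2 := by fun_prop
          exact this.intervalIntegrable _ _
        · have : Continuous fun t => (Cp * J2 / M ^ p) * (V t * ∫ y : ℝ, w y * g (t + y) ^ 2) := by fun_prop
          exact this.intervalIntegrable _ _
        · have h1 := cs_r hw0 (fun y => hg0 (t + y)) hwi (hi1 t) (hi2 t)
          have h2 : 0 ≤ ∫ y : ℝ, w y * g (t + y) ^ 2 := integral_nonneg fun y => mul_nonneg (hw0 y) (sq_nonneg _)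
          calc V t * (∫ y : ℝ, w y * g (t + y)) ^ 2 ≤ V t * ((∫ y, w y) * ∫ y : ℝ, w y * g (t + y) ^ 2) :=
                mul_le_mul_of_nonneg_left h1 (hV0 t)
            _ ≤ V t * ((Cp * J2 / M ^ p) * ∫ y : ℝ, w y * g (t + y) ^ 2) :=
                mul_le_mul_of_nonneg_left (mul_le_mul_of_nonneg_right hwle h2) (hV0 t)
            _ = _ := by ring
    _ = (Cp * J2 / M ^ p) * ∫ y : ℝ, w y * ∫ t in T..(2 * T), V t * g (t + y) ^ 2 := by
        rw [intervalIntegral.integral_const_mul, hswap]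
    _ ≤ (Cp * J2 / M ^ p) * ∫ y : ℝ, D * m y := by
        refine mul_le_mul_of_nonneg_left ?_ hJ
        refine integral_mono hyint (hmi.const_mul _) fun y => ?_
        calc w y * ∫ t in T..(2 * T), V t * g (t + y) ^ 2 ≤ w y * (D * (1 + |y|) ^ 6) :=
              mul_le_mul_of_nonneg_left (hD y) (hw0 y)
          _ = D * (w y * (1 + |y|) ^ 6) := by ring
          _ ≤ _ := mul_le_mul_of_nonneg_left (hw6 y) hD0
    _ = (Cp * J2 / M ^ p) ^ 2 * D := by
        rw [integral_const_mul, hmv]; ring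

end

end Pool.Agent.Q97.UM
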