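import Pool.Agent.Q97.UM.Fa

set_option autoImplicit false

/-! Project UM: the inequality at a point of the bad set. -/

namespace Pool.Agent.Q97.UM

open Filter Topology MeasureTheory Complex

noncomputable section

theorem abstract_bad {K : ℝ → ℝ} {G u v : ℝ → ℂ} {r C : ℝ} {p : ℕ} (hK : ∀ y, 0 ≤ K y) (hKc : Continuous K) (hGc : Continuous G)
    (huc : Continuous u) (hvc : Continuous v) (hu : ∀ y, ‖u y‖ = 1) (hv : ∀ y, ‖v y‖ = 1) (hr : 0 < r)
    (huv : ∀ y ∈ Set.Icc (-r) r, ‖u y - v y‖ ≤ C * |y|) (hre : ∀ y ∈ Set.Icc (-r) r, (u y * G y).im = 0)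
    (hsg : (∀ y ∈ Set.Icc (-r) r, 0 ≤ (u y * G y).re) ∨ (∀ y ∈ Set.Icc (-r) r, (u y * G y).re ≤ 0))
    (i0 : Integrable fun y => K y * ‖G y‖) (i1 : Integrable fun y => K y * |y| * ‖G y‖)
    (ip : Integrable fun y => K y * |y| ^ p * ‖G y‖) (hC : 0 ≤ C) :
    ∫ y, K y * ‖G y‖ ≤ ‖∫ y, (K y : ℂ) * (v y * G y)‖ + 2 / r ^ p * (∫ y, K y * |y| ^ p * ‖G y‖) +
      C * ∫ y, K y * |y| * ‖G y‖ := by
  set S := Set.Icc (-r) r with hS
  have hSm : MeasurableSet S := measurableSet_Icc
  -- complex integrability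
  have ic : ∀ w : ℝ → ℂ, Continuous w → (∀ y, ‖w y‖ = 1) → Integrable fun y => (K y : ℂ) * (w y * G y) := by
    intro w hw hw1
    refine i0.mono' (by
      have : Continuous fun y => (K y : ℂ) * (w y * G y) := by fun_prop
      exact this.aestronglyMeasurable) (Filter.Eventually.of_forall fun y => ?_)
    rw [norm_mul, norm_mul, hw1, one_mul, Complex.norm_real, Real.norm_of_nonneg (hK y)]
  have hsplit : ∫ y, K y * ‖G y‖ = (∫ y in S, K y * ‖G y‖) + ∫ y in Sᶜ, K y * ‖G y‖ := (integral_add_compl hSm i0).symm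
  -- outside the window
  have hout : ∫ y in Sᶜ, K y * ‖G y‖ ≤ 1 / r ^ p * ∫ y, K y * |y| ^ p * ‖G y‖ := by
    rw [← integral_const_mul]
    calc ∫ y in Sᶜ, K y * ‖G y‖ ≤ ∫ y in Sᶜ, 1 / r ^ p * (K y * |y| ^ p * ‖G y‖) := by
          refine setIntegral_mono_on i0.integrableOn (ip.const_mul _).integrableOn hSm.compl fun y hy => ?_
          have h1 : r ≤ |y| := by
            by_contra h
            rw [not_le, abs_lt] at h
            exact hy ⟨h.1.le, h.2.le⟩
          have h2 : 1 ≤ |y| ^ p / r ^ p := by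
            rw [one_le_div (by positivity)]
            exact pow_le_pow_left₀ hr.le h1 p
          calc K y * ‖G y‖ = K y * ‖G y‖ * 1 := by ring
            _ ≤ K y * ‖G y‖ * (|y| ^ p / r ^ p) := mul_le_mul_of_nonneg_left h2 (mul_nonneg (hK y) (norm_nonneg _))
            _ = _ := by ring
      _ ≤ ∫ y, 1 / r ^ p * (K y * |y| ^ p * ‖G y‖) := by
          refine setIntegral_le_integral (ip.const_mul _) (Filter.Eventually.of_forall fun y => ?_)
          have := hK y
          positivity
  -- inside the window: the sign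
  have hin : ∫ y in S, K y * ‖G y‖ ≤ ‖∫ y in S, (K y : ℂ) * (u y * G y)‖ := by
    have hnorm : ∀ y ∈ S, ‖G y‖ = |(u y * G y).re| := by
      intro y hy
      have h1 : ‖u y * G y‖ = ‖G y‖ := by rw [norm_mul, hu, one_mul]
      rw [← h1]
      have h2 : u y * G y = (((u y * G y).re : ℝ) : ℂ) := by
        apply Complex.ext
        · simp
        · rw [hre y hy]; simp
      conv_lhs => rw [h2]
      rw [Complex.norm_real, Real.norm_eq_abs]
    have hrei : (∫ y in S, (K y : ℂ) * (u y * G y)).re = ∫ y in S, K y * (u y * G y).re := by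
      have h1 : Integrable (fun y => (K y : ℂ) * (u y * G y)) (volume.restrict S) := (ic u huc hu).integrableOn
      have h2 := integral_re h1
      simp only [RCLike.re_to_complex] at h2
      rw [← h2]
      refine integral_congr_ae (Filter.Eventually.of_forall fun y => ?_)
      simp only []
      rw [Complex.re_ofReal_mul]
    rcases hsg with h | h
    · calc ∫ y in S, K y * ‖G y‖ = ∫ y in S, K y * (u y * G y).re := by
            refine setIntegral_congr_fun hSm fun y hy => ?_
            rw [hnorm y hy, abs_of_nonneg (h y hy)]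
        _ ≤ ‖∫ y in S, (K y : ℂ) * (u y * G y)‖ := by rw [← hrei]; exact Complex.re_le_norm _
    · calc ∫ y in S, K y * ‖G y‖ = ∫ y in S, -(K y * (u y * G y).re) := by
            refine setIntegral_congr_fun hSm fun y hy => ?_
            rw [hnorm y hy, abs_of_nonpos (h y hy)]; ring
        _ = -(∫ y in S, (K y : ℂ) * (u y * G y)).re := by rw [integral_neg, hrei]
        _ ≤ ‖∫ y in S, (K y : ℂ) * (u y * G y)‖ := (neg_le_abs _).trans (Complex.abs_re_le_norm _)
  -- the change of phase
  have hph : ‖∫ y in S, (K y : ℂ) * (u y * G y)‖ ≤ ‖∫ y in S, (K y : ℂ) * (v y * G y)‖ + C * ∫ y, K y * |y| * ‖G y‖ := by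
    have e1 : ∫ y in S, (K y : ℂ) * (u y * G y) = (∫ y in S, (K y : ℂ) * (v y * G y)) + ∫ y in S, (K y : ℂ) * ((u y - v y) * G y) := by
      rw [← integral_add (ic v hvc hv).integrableOn]
      · refine integral_congr_ae (Filter.Eventually.of_forall fun y => ?_)
        simp only []
        ring
      · have h1 := (ic u huc hu).integrableOn.sub (ic v hvc hv).integrableOn (s := S)
        refine h1.congr (Filter.Eventually.of_forall fun y => ?_)
        simp only [Pi.sub_apply]
        ring
    rw [e1]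
    refine (norm_add_le _ _).trans (add_le_add le_rfl ?_)
    calc ‖∫ y in S, (K y : ℂ) * ((u y - v y) * G y)‖ ≤ ∫ y in S, C * (K y * |y| * ‖G y‖) := by
          refine norm_integral_le_of_norm_le (i1.const_mul C).integrableOn ?_
          refine (ae_restrict_iff' hSm).2 (Filter.Eventually.of_forall fun y hy => ?_)
          rw [norm_mul, norm_mul, Complex.norm_real, Real.norm_of_nonneg (hK y)]
          calc K y * (‖u y - v y‖ * ‖G y‖) ≤ K y * ((C * |y|) * ‖G y‖) :=
                mul_le_mul_of_nonneg_left (mul_le_mul_of_nonneg_right (huv y hy) (norm_nonneg _)) (hK y)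
            _ = _ := by ring
      _ ≤ ∫ y, C * (K y * |y| * ‖G y‖) := by
          refine setIntegral_le_integral (i1.const_mul C) (Filter.Eventually.of_forall fun y => ?_)
          have := hK y
          positivity
      _ = _ := integral_const_mul _ _
  have hv2 : ‖∫ y in S, (K y : ℂ) * (v y * G y)‖ ≤ ‖∫ y, (K y : ℂ) * (v y * G y)‖ + ∫ y in Sᶜ, K y * ‖G y‖ := by
    have e1 : ∫ y in S, (K y : ℂ) * (v y * G y) = (∫ y, (K y : ℂ) * (v y * G y)) - ∫ y in Sᶜ, (K y : ℂ) * (v y * G y) := by
      rw [← integral_add_compl hSm (ic v hvc hv)]; ring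
    rw [e1]
    refine (norm_sub_le _ _).trans (add_le_add le_rfl ?_)
    refine (norm_integral_le_integral_norm _).trans (le_of_eq ?_)
    refine integral_congr_ae (Filter.Eventually.of_forall fun y => ?_)
    simp only []
    rw [norm_mul, norm_mul, hv, one_mul, Complex.norm_real, Real.norm_of_nonneg (hK y)]
  rw [hsplit]
  have e2 : 2 / r ^ p * (∫ y, K y * |y| ^ p * ‖G y‖) = 2 * (1 / r ^ p * ∫ y, K y * |y| ^ p * ‖G y‖) := by ring
  rw [e2]
  linarith

end

end Pool.Agent.Q97.UM
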