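import Pool.Agent.Q97.UM.Fb
import Pool.Agent.Q97.UM.Asy

set_option autoImplicit false

/-! Project UM: the bad set carries little mass. -/

namespace Pool.Agent.Q97.UM

open Filter Topology MeasureTheory Complex
open Pool.Agent.W182.KO (P TF P_bound one_add_inv_sq_int J2 J2_nonneg)
open Q80.SP (kr sc_int sc_val)
open scoped ContDiff

noncomputable section

theorem zt_cont : Continuous zt := by
  unfold zt
  refine continuous_iff_continuousAt.2 fun t => ?_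
  have h1 : (1 / 2 + t * I : ℂ) ≠ 1 := by
    intro h
    have := congrArg Complex.re h
    simp at this
  exact ContinuousAt.comp (f := fun t : ℝ => (1 / 2 + t * I : ℂ)) (differentiableAt_riemannZeta h1).continuousAt
    (by fun_prop)

theorem zt_bd (u : ℝ) : ‖zt u‖ ≤ 180 * (1 + |u|) ^ 2 := by
  have := Q97.MM.zeta_bd u
  unfold Q97.MM.pt at this
  unfold zt
  have e : (1 / 2 + u * I : ℂ) = ((1 / 2 : ℝ) : ℂ) + u * I := by push_cast; ring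
  rw [e]
  exact this

/-- the mollified zeta function, absolute value -/
def gz (Pw : ℝ → ℝ) (Y : ℕ) (u : ℝ) : ℝ := ‖zt u‖ * ‖eta Pw Y u‖ ^ 2

theorem gz_nonneg (Pw : ℝ → ℝ) (Y : ℕ) (u : ℝ) : 0 ≤ gz Pw Y u := by unfold gz; positivity

theorem eta_cont (hDP : S_DPM) (Pw : ℝ → ℝ) (Y : ℕ) : Continuous (eta Pw Y) := (hDP.2.2 Y (et Pw Y) 0).2

theorem gz_cont (hDP : S_DPM) (Pw : ℝ → ℝ) (Y : ℕ) : Continuous (gz Pw Y) := by
  have h1 := zt_cont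
  have h2 := eta_cont hDP Pw Y
  unfold gz
  fun_prop

theorem gz_bd (hDP : S_DPM) (Pw : ℝ → ℝ) (Y : ℕ) (u : ℝ) : gz Pw Y u ≤ 180 * (Y * N2 Y (et Pw Y)) * (1 + |u|) ^ 2 := by
  have h1 := (hDP.2.2 Y (et Pw Y) u).1
  have h2 := zt_bd u
  unfold gz eta
  calc ‖zt u‖ * ‖dp Y (et Pw Y) u‖ ^ 2 ≤ (180 * (1 + |u|) ^ 2) * (Y * N2 Y (et Pw Y)) :=
        mul_le_mul h2 h1 (by positivity) (by positivity)
    _ = _ := by ring

theorem Kf_cont {k₀ : ℝ → ℝ} (h : Continuous k₀) (M : ℝ) : Continuous (Kf k₀ M) := by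
  unfold Kf; fun_prop

theorem phase_C {ph : ℝ → ℂ} {C T₀ : ℝ} (h : Phase ph C T₀) : 0 ≤ C := by
  have h1 := h.rot (max T₀ 1) (le_max_left _ _) (max T₀ 1) (max T₀ 1 / 2) le_rfl (by linarith [le_max_right T₀ 1])
    (by rw [abs_of_nonneg (by linarith [le_max_right T₀ 1])])
  have h2 := (norm_nonneg _).trans h1
  have h3 : 0 < |max T₀ 1 / 2| := by rw [abs_of_pos (by linarith [le_max_right T₀ 1])]; linarith [le_max_right T₀ 1]
  exact nonneg_of_mul_nonneg_left h2 h3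

/-- the inequality at a point of the bad set -/
theorem point_bad (hSG : S_SGN) (hDP : S_DPM) {ψ₁ k₀ : ℝ → ℝ}
    (hk : ∀ x : ℝ, (k₀ x : ℂ) = ((1 / (2 * Real.pi) : ℝ) : ℂ) * P (fun u => (ψ₁ u : ℂ)) (x * I))
    (hk0 : ∀ x, 0 ≤ k₀ x) (hkc : Continuous k₀) {ph : ℝ → ℂ} {C T₀ : ℝ} (hph : Phase ph C T₀) (Pw : ℝ → ℝ) (Y : ℕ) {p : ℕ}
    {T t r δ : ℝ} (hδ : 0 < δ) (hT₀ : T₀ ≤ T) (hT : 1 < T) (ht1 : T ≤ t) (ht2 : t ≤ 2 * T) (hr : 0 < r) (hrT : r ≤ T / 2)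
    (hZ : Zo t r = ∅)
    (i : ∀ q : ℕ, q = 0 ∨ q = 1 ∨ q = p → Integrable fun y => Kf k₀ (δ * Real.log T) y * |y| ^ q * gz Pw Y (t + y)) :
    ∫ y, Kf k₀ (δ * Real.log T) y * gz Pw Y (t + y) ≤
      ‖∫ y : ℝ, kr (fun u => (ψ₁ (u / δ) : ℂ)) (Real.log T) y *
      (cexp (I * (y * (Real.log T / 2) : ℝ)) * zt (t + y) * ((‖eta Pw Y (t + y)‖ ^ 2 : ℝ) : ℂ))‖ +
      2 / r ^ p * (∫ y, Kf k₀ (δ * Real.log T) y * |y| ^ p * gz Pw Y (t + y)) +
      C * ∫ y, Kf k₀ (δ * Real.log T) y * |y| ^ 1 * gz Pw Y (t + y) := by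
  set L := Real.log T with hL
  have hL0 : 0 < L := Real.log_pos hT
  set G : ℝ → ℂ := fun y => zt (t + y) * ((‖eta Pw Y (t + y)‖ ^ 2 : ℝ) : ℂ) with hG
  have hGn : ∀ y, ‖G y‖ = gz Pw Y (t + y) := by
    intro y
    rw [hG]; unfold gz
    simp only [norm_mul, Complex.norm_real, Real.norm_eq_abs]
    rw [abs_of_nonneg (by positivity)]
  have hz := zt_cont
  have he := eta_cont hDP Pw Y
  have hphc := hph.cont
  have hsgn := hSG ph hph.norm hph.cont hph.real (t - r) (t + r) (by linarith) (by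
    intro u hu hodd
    have : u ∈ Zo t r := by
      refine ⟨?_, hodd⟩
      rw [abs_le]
      constructor <;> linarith [hu.1, hu.2]
    rw [hZ] at this
    exact this)
  have hre : ∀ y : ℝ, ph (t + y) * G y = (ph (t + y) * riemannZeta (1 / 2 + (t + y : ℝ) * I)) * ((‖eta Pw Y (t + y)‖ ^ 2 : ℝ) : ℂ) := by
    intro y
    rw [hG]; unfold zt
    ring
  have hmem : ∀ y ∈ Set.Icc (-r) r, t + y ∈ Set.Icc (t - r) (t + r) := fun y hy =>
    ⟨by linarith [hy.1], by linarith [hy.2]⟩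
  have key := abstract_bad (K := Kf k₀ (δ * L)) (G := G) (u := fun y => ph (t + y))
    (v := fun y => ph t * cexp (I * (y * (L / 2) : ℝ))) (r := r) (C := C) (p := p)
    (fun y => Kf_nonneg hk0 (by positivity) y) (Kf_cont hkc _) (by rw [hG]; fun_prop) (by fun_prop) (by fun_prop)
    (fun y => hph.norm _) (fun y => by
      rw [norm_mul, hph.norm, one_mul, mul_comm, Complex.norm_exp_ofReal_mul_I]) hr
    (fun y hy => hph.rot T hT₀ t y ht1 ht2 ((abs_le.2 ⟨hy.1, hy.2⟩).trans hrT))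
    (fun y _ => by
      simp only [hre]
      rw [Complex.im_mul_ofReal, hph.real, zero_mul])
    (by
      rcases hsgn with h | h
      · left
        intro y hy
        simp only [hre]
        rw [Complex.re_mul_ofReal]
        exact mul_nonneg (h _ (hmem y hy)) (by positivity)
      · right
        intro y hy
        simp only [hre]
        rw [Complex.re_mul_ofReal]
        exact mul_nonpos_of_nonpos_of_nonneg (h _ (hmem y hy)) (by positivity))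
    (by simpa only [hGn, pow_zero, mul_one] using i 0 (Or.inl rfl))
    (by simpa only [hGn, pow_one] using i 1 (Or.inr (Or.inl rfl)))
    (by simpa only [hGn] using i p (Or.inr (Or.inr rfl))) (phase_C hph)
  simp only [hGn] at key
  have e1 : ∫ y, ((Kf k₀ (δ * L) y : ℝ) : ℂ) * (ph t * cexp (I * (y * (L / 2) : ℝ)) * G y) =
      ph t * ∫ y : ℝ, kr (fun u => (ψ₁ (u / δ) : ℂ)) L y *
      (cexp (I * (y * (L / 2) : ℝ)) * zt (t + y) * ((‖eta Pw Y (t + y)‖ ^ 2 : ℝ) : ℂ)) := by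
    rw [← integral_const_mul]
    refine integral_congr_ae (Filter.Eventually.of_forall fun y => ?_)
    simp only [kr_Kf hk hδ]
    rw [hG]
    ring
  rw [e1, norm_mul, hph.norm, one_mul] at key
  simpa only [pow_one] using key

theorem bad_meas (hZF : S_ZF) (T r : ℝ) : MeasurableSet {t : ℝ | T ≤ t ∧ t ≤ 2 * T ∧ Zo t r = ∅} := by
  have h1 := hZF.2 r 1
  have h2 : {t : ℝ | T ≤ t ∧ t ≤ 2 * T ∧ Zo t r = ∅} = Set.Icc T (2 * T) ∩ {t : ℝ | 1 ≤ (Zo t r).ncard}ᶜ := by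
    ext t
    simp only [Set.mem_ofPred_eq, Set.mem_inter_iff, Set.mem_Icc, Set.mem_compl_iff, not_le, Nat.lt_one_iff]
    rw [Set.ncard_eq_zero (hZF.1 t r)]
    tauto
  rw [h2]
  exact measurableSet_Icc.inter h1.compl

/-- the numerical version of the main inequality -/
theorem fin_num (hSG : S_SGN) (hDP : S_DPM) (hZF : S_ZF) {ψ₁ k₀ : ℝ → ℝ}
    (hk : ∀ x : ℝ, (k₀ x : ℂ) = ((1 / (2 * Real.pi) : ℝ) : ℂ) * P (fun u => (ψ₁ u : ℂ)) (x * I))
    (hk0 : ∀ x, 0 ≤ k₀ x) (hkc : Continuous k₀) {ph : ℝ → ℂ} {C T₀ : ℝ} (hph : Phase ph C T₀) (Pw : ℝ → ℝ) {Y Z N : ℕ}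
    {b : ℕ → ℂ} {p : ℕ} {Cc : ℕ → ℝ} (hCc : ∀ q, 0 ≤ Cc q)
    (hKb : ∀ q : ℕ, ∀ M : ℝ, 1 ≤ M → ∀ y : ℝ, Kf k₀ M y * |y| ^ q * (1 + |y|) ^ 6 ≤ Cc q / M ^ q * (M / (1 + M * |y|) ^ 2))
    {T r δ C₂ C₃ : ℝ} (hδ : 0 < δ) (hT₀ : T₀ ≤ T) (hT : 1 < T) (hr : 0 < r) (hrT : r ≤ T / 2) (hδL : 1 ≤ δ * Real.log T)
    (hR2 : ∀ y : ℝ, ∫ t in T..(2 * T), ‖dp N b t‖ ^ 2 * (‖zt (t + y)‖ * ‖eta Pw Y (t + y)‖ ^ 2) ^ 2 ≤
      C₂ * T * (1 + |y|) ^ 6 * N2 N b)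
    (hX : ∀ t : ℝ, T / 2 ≤ t → t ≤ 3 * T → ‖(∫ y : ℝ, kr (fun u => (ψ₁ (u / δ) : ℂ)) (Real.log T) y *
      (cexp (I * (y * (Real.log T / 2) : ℝ)) * zt (t + y) * ((‖eta Pw Y (t + y)‖ ^ 2 : ℝ) : ℂ))) -
      XD Pw ψ₁ δ Y Z (Real.log T) t‖ ≤ 1 / T)
    (hR3 : ∫ t in T..(2 * T), ‖dp N b t‖ ^ 2 * ‖XD Pw ψ₁ δ Y Z (Real.log T) t‖ ^ 2 ≤ C₃ * δ * T * N2 N b)
    (hR4 : ∀ t : ℝ, T / 2 ≤ t → t ≤ 3 * T →
      ‖(∫ y : ℝ, kr (fun u => (ψ₁ (u / δ) : ℂ)) (Real.log T) y * (zt (t + y) * eta Pw Y (t + y) ^ 2)) - 1‖ ≤ 1 / 4)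
    (hV : ∫ t in T..(2 * T), ‖dp N b t‖ ^ 2 ≤ 2 * T * N2 N b) :
    ∫ t in {t : ℝ | T ≤ t ∧ t ≤ 2 * T ∧ Zo t r = ∅}, ‖dp N b t‖ ^ 2 ≤
      8 * (C₃ * δ + 2 / T ^ 2 + (2 / r ^ p) ^ 2 * ((Cc p * J2 / (δ * Real.log T) ^ p) ^ 2 * C₂) +
        C ^ 2 * ((Cc 1 * J2 / (δ * Real.log T) ^ 1) ^ 2 * C₂)) * T * N2 N b := by
  set L := Real.log T with hL
  set M := δ * L with hM
  have hT0 : 0 < T := by linarith
  have hTT : T ≤ 2 * T := by linarith
  have hN2 : 0 ≤ N2 N b := Finset.sum_nonneg fun n _ => by positivity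
  have hdpc : Continuous (dp N b) := (hDP.2.2 N b 0).2
  set V : ℝ → ℝ := fun t => ‖dp N b t‖ ^ 2 with hVdef
  have hVc : Continuous V := by rw [hVdef]; fun_prop
  have hV0 : ∀ t, 0 ≤ V t := fun t => by rw [hVdef]; positivity
  have hgc := gz_cont hDP Pw Y
  have hD : ∀ y : ℝ, ∫ t in T..(2 * T), V t * gz Pw Y (t + y) ^ 2 ≤ (C₂ * T * N2 N b) * (1 + |y|) ^ 6 := by
    intro y
    refine (hR2 y).trans (le_of_eq ?_)
    ring
  have hmean : ∀ q : ℕ, _ := fun q => mean_bd hk0 hkc (hCc q) (hKb q) (gz_nonneg Pw Y) hgc (gz_bd hDP Pw Y) hV0 hVc hT0.le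
    hδL hD
  -- XD is continuous
  have hXDc : Continuous (XD Pw ψ₁ δ Y Z L) := by unfold XD; fun_prop
  set F : ℕ → ℝ → ℝ := fun q t => ∫ y : ℝ, Kf k₀ M y * |y| ^ q * gz Pw Y (t + y) with hF
  have hF0 : ∀ q t, 0 ≤ F q t := fun q t => integral_nonneg fun y =>
    mul_nonneg (mul_nonneg (Kf_nonneg hk0 (by linarith) y) (by positivity)) (gz_nonneg _ _ _)
  set W : ℝ → ℝ := fun t => 8 * (V t * ‖XD Pw ψ₁ δ Y Z L t‖ ^ 2 + (1 / T ^ 2) * V t + (2 / r ^ p) ^ 2 * (V t * F p t ^ 2) +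
    C ^ 2 * (V t * F 1 t ^ 2)) with hW
  have hW0 : ∀ t, 0 ≤ W t := fun t => by
    have := hV0 t
    rw [hW]; positivity
  have j1 : IntervalIntegrable (fun t => V t * ‖XD Pw ψ₁ δ Y Z L t‖ ^ 2) volume T (2 * T) :=
    (by fun_prop : Continuous _).intervalIntegrable _ _
  have j2 : IntervalIntegrable (fun t => (1 / T ^ 2) * V t) volume T (2 * T) :=
    (by fun_prop : Continuous _).intervalIntegrable _ _
  have j3 : IntervalIntegrable (fun t => (2 / r ^ p) ^ 2 * (V t * F p t ^ 2)) volume T (2 * T) := ((hmean p).2.1).const_mul _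
  have j4 : IntervalIntegrable (fun t => C ^ 2 * (V t * F 1 t ^ 2)) volume T (2 * T) := ((hmean 1).2.1).const_mul _
  have j12 : IntervalIntegrable (fun t => V t * ‖XD Pw ψ₁ δ Y Z L t‖ ^ 2 + (1 / T ^ 2) * V t) volume T (2 * T) := j1.add j2
  have j123 : IntervalIntegrable (fun t => V t * ‖XD Pw ψ₁ δ Y Z L t‖ ^ 2 + (1 / T ^ 2) * V t +
    (2 / r ^ p) ^ 2 * (V t * F p t ^ 2)) volume T (2 * T) := j12.add j3
  have j1234 : IntervalIntegrable (fun t => V t * ‖XD Pw ψ₁ δ Y Z L t‖ ^ 2 + (1 / T ^ 2) * V t +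
    (2 / r ^ p) ^ 2 * (V t * F p t ^ 2) + C ^ 2 * (V t * F 1 t ^ 2)) volume T (2 * T) := j123.add j4
  have jW : IntervalIntegrable W volume T (2 * T) := j1234.const_mul 8
  have hWint : ∫ t in T..(2 * T), W t = 8 * ((∫ t in T..(2 * T), V t * ‖XD Pw ψ₁ δ Y Z L t‖ ^ 2) +
      (1 / T ^ 2) * (∫ t in T..(2 * T), V t) + (2 / r ^ p) ^ 2 * (∫ t in T..(2 * T), V t * F p t ^ 2) +
      C ^ 2 * ∫ t in T..(2 * T), V t * F 1 t ^ 2) := by
    rw [hW, intervalIntegral.integral_const_mul, intervalIntegral.integral_add j123 j4, intervalIntegral.integral_add j12 j3,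
      intervalIntegral.integral_add j1 j2, intervalIntegral.integral_const_mul, intervalIntegral.integral_const_mul,
      intervalIntegral.integral_const_mul]
  -- the pointwise inequality
  have hpt : ∀ t ∈ {t : ℝ | T ≤ t ∧ t ≤ 2 * T ∧ Zo t r = ∅}, V t ≤ W t := by
    rintro t ⟨ht1, ht2, hZ⟩
    have h1 := point_bad hSG hDP hk hk0 hkc hph Pw Y (p := p) hδ hT₀ hT ht1 ht2 hr hrT hZ (fun q _ => (hmean q).1 t)
    have h2 := hX t (by linarith) (by linarith)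
    have h3 := hR4 t (by linarith) (by linarith)
    have h4 : 3 / 4 ≤ ∫ y, Kf k₀ M y * gz Pw Y (t + y) := by
      have h5 : ‖∫ y : ℝ, kr (fun u => (ψ₁ (u / δ) : ℂ)) L y * (zt (t + y) * eta Pw Y (t + y) ^ 2)‖ ≤
          ∫ y, Kf k₀ M y * gz Pw Y (t + y) := by
        refine (norm_integral_le_integral_norm _).trans (le_of_eq ?_)
        refine integral_congr_ae (Filter.Eventually.of_forall fun y => ?_)
        simp only [kr_Kf hk hδ]
        rw [norm_mul, norm_mul, norm_pow, Complex.norm_real, Real.norm_of_nonneg (Kf_nonneg hk0 (by linarith) y)]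
        rfl
      have h6 := norm_sub_norm_le (1 : ℂ) (∫ y : ℝ, kr (fun u => (ψ₁ (u / δ) : ℂ)) L y * (zt (t + y) * eta Pw Y (t + y) ^ 2))
      rw [norm_sub_rev, norm_one] at h6
      linarith
    set X := ∫ y : ℝ, kr (fun u => (ψ₁ (u / δ) : ℂ)) L y *
      (cexp (I * (y * (L / 2) : ℝ)) * zt (t + y) * ((‖eta Pw Y (t + y)‖ ^ 2 : ℝ) : ℂ)) with hXd
    have h7 : ‖X‖ ≤ ‖XD Pw ψ₁ δ Y Z L t‖ + 1 / T := by
      have := norm_sub_norm_le X (XD Pw ψ₁ δ Y Z L t)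
      linarith
    set a1 := ‖XD Pw ψ₁ δ Y Z L t‖ with ha1
    set a3 := 2 / r ^ p * F p t with ha3
    set a4 := C * F 1 t with ha4
    have h8 : 3 / 4 ≤ a1 + 1 / T + a3 + a4 := by linarith
    have ha1' : 0 ≤ a1 := norm_nonneg _
    have ha2' : 0 ≤ 1 / T := by positivity
    have ha3' : 0 ≤ a3 := mul_nonneg (by positivity) (hF0 _ _)
    have ha4' : 0 ≤ a4 := mul_nonneg (phase_C hph) (hF0 _ _)
    have h9 : 1 ≤ 8 * (a1 ^ 2 + (1 / T) ^ 2 + a3 ^ 2 + a4 ^ 2) := by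
      nlinarith [sq_nonneg (a1 - 1 / T), sq_nonneg (a1 - a3), sq_nonneg (a1 - a4), sq_nonneg (1 / T - a3),
        sq_nonneg (1 / T - a4), sq_nonneg (a3 - a4)]
    calc V t = V t * 1 := by ring
      _ ≤ V t * (8 * (a1 ^ 2 + (1 / T) ^ 2 + a3 ^ 2 + a4 ^ 2)) := mul_le_mul_of_nonneg_left h9 (hV0 t)
      _ = W t := by
          rw [hW, ha3, ha4]
          simp only []
          rw [mul_pow, mul_pow]
          ring
  have hBm := bad_meas hZF T r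
  set Bd := {t : ℝ | T ≤ t ∧ t ≤ 2 * T ∧ Zo t r = ∅} with hBd
  have hsub : Bd ⊆ Set.Icc T (2 * T) := fun t ht => ⟨ht.1, ht.2.1⟩
  have hWi : IntegrableOn W (Set.Icc T (2 * T)) := (intervalIntegrable_iff_integrableOn_Icc_of_le hTT).1 jW
  have hVi : IntegrableOn V (Set.Icc T (2 * T)) := hVc.continuousOn.integrableOn_Icc
  have step1 : ∫ t in Bd, V t ≤ ∫ t in T..(2 * T), W t := by
    calc ∫ t in Bd, V t ≤ ∫ t in Bd, W t := setIntegral_mono_on (hVi.mono_set hsub) (hWi.mono_set hsub) hBm hpt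
      _ ≤ ∫ t in Set.Icc T (2 * T), W t := setIntegral_mono_set hWi (Filter.Eventually.of_forall hW0) (Filter.Eventually.of_forall hsub)
      _ = ∫ t in T..(2 * T), W t := by rw [intervalIntegral.integral_of_le hTT, integral_Icc_eq_integral_Ioc]
  refine step1.trans ?_
  rw [hWint]
  have m1 := (hmean p).2.2
  have m2 := (hmean 1).2.2
  calc 8 * ((∫ t in T..(2 * T), V t * ‖XD Pw ψ₁ δ Y Z L t‖ ^ 2) +
      (1 / T ^ 2) * (∫ t in T..(2 * T), V t) + (2 / r ^ p) ^ 2 * (∫ t in T..(2 * T), V t * F p t ^ 2) +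
      C ^ 2 * ∫ t in T..(2 * T), V t * F 1 t ^ 2)
      ≤ 8 * (C₃ * δ * T * N2 N b + (1 / T ^ 2) * (2 * T * N2 N b) +
        (2 / r ^ p) ^ 2 * ((Cc p * J2 / M ^ p) ^ 2 * (C₂ * T * N2 N b)) +
        C ^ 2 * ((Cc 1 * J2 / M ^ 1) ^ 2 * (C₂ * T * N2 N b))) := by
        refine mul_le_mul_of_nonneg_left ?_ (by norm_num)
        refine add_le_add (add_le_add (add_le_add hR3 ?_) ?_) ?_
        · exact mul_le_mul_of_nonneg_left hV (by positivity)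
        · exact mul_le_mul_of_nonneg_left m1 (by positivity)
        · exact mul_le_mul_of_nonneg_left m2 (by positivity)
    _ = _ := by ring

end

end Pool.Agent.Q97.UM
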