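import Pool.Agent.Q97.UM.R3d
import Pool.Agent.Q97.UM.Asy

set_option autoImplicit false

/-! Project UM: the mean square of `B · XD`, final form. -/

namespace Pool.Agent.Q97.UM

open Filter Topology MeasureTheory Complex
open scoped ContDiff

noncomputable section

theorem er_bd (hAL : S_AL) {Pw q : ℝ → ℝ} {c C : ℝ} (hG : Gev Pw q c C) (Y n : ℕ) : |er Pw Y n| ≤ 1 := by
  unfold er
  rw [abs_mul]
  have h1 := hAL.2.2 n
  have h2 := hG.bd (Real.log n / Real.log Y)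
  rw [abs_of_nonneg h2.1]
  exact mul_le_one₀ h1 h2.1 h2.2

theorem er_van {Pw q : ℝ → ℝ} {c C : ℝ} (hG : Gev Pw q c C) {Y : ℕ} (hY : 2 ≤ Y) {n : ℕ} (hn : Y < n) : er Pw Y n = 0 := by
  have h1 : et Pw Y n = ((er Pw Y n : ℝ) : ℂ) := rfl
  by_contra h
  have h2 : et Pw Y n ≠ 0 := by
    rw [h1]
    exact_mod_cast h
  have := et_supp hG hY (by omega) h2
  omega

theorem t_R3 (hAL : S_AL) : S_R3 := by
  intro Pw q ψ₁ c₀ C₀ C₁ C₂ θ hG hM hMV hSUM hcd hs hb1 hd hθ hθ1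
  refine ⟨6 * (4 * |C₁| / θ + 2), by positivity, fun δ hδ hδ1 => ?_⟩
  filter_upwards [fl_ev hθ, log_ev (C₂ / δ), floor_ev (show (5 / 8 : ℝ) < 1 by norm_num),
    pow_ev (show (0 : ℝ) < 3 / 20 by norm_num) (show 0 < δ / 4 by positivity), sqrt_ev 3 hδ,
    eventually_ge_atTop (1 : ℝ)] with T ⟨hT, hY, hY1, hY2, hY3⟩ hC hZ hE1 hE2 hT1 N hN b hb
  set Y := ⌊T ^ θ⌋₊ with hYdef
  set L := Real.log T with hL
  have hL0 : 0 < L := Real.log_pos hT
  have hT0 : 0 < T := by linarith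
  have hNY : N ≤ Y := Nat.le_floor hN
  have hlY : 0 < Real.log Y := Real.log_pos (by exact_mod_cast hY)
  have hlYL : Real.log Y ≤ 1 / 40 * L := hY2.trans (mul_le_mul_of_nonneg_right hθ1 hL0.le)
  have hY0 : (0 : ℝ) < Y := by exact_mod_cast (by omega : 0 < Y)
  have hC' : C₂ ≤ δ * L := by rw [div_le_iff₀ hδ] at hC; linarith
  have hδL : δ * L ≤ 1 / 10 * L := mul_le_mul_of_nonneg_right hδ1 hL0.le
  have h0 := R3_num hMV hSUM hM hcd hs hb1 hd hδ hT hC' (N := N) (Y := Y) (Z := ⌊T⌋₊) hY hNY hb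
    (fun n hn => er_van hG hY hn) (fun n => er_bd hAL hG Y n)
    (le_trans (Real.exp_le_exp.2 (by linarith)) hZ) (by linarith) (by linarith)
  refine h0.trans ?_
  have hN2 : 0 ≤ N2 N b := Finset.sum_nonneg fun n _ => by positivity
  have hNr : (N : ℝ) ≤ Y := by exact_mod_cast hNY
  have hN0 : (0 : ℝ) ≤ N := Nat.cast_nonneg _
  -- the three terms
  have t1 : |C₁| / Real.log Y * (2 * δ * L) ≤ 4 * |C₁| / θ * δ := by
    have h1 : |C₁| / Real.log Y ≤ |C₁| / (θ / 2 * L) :=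
      div_le_div_of_nonneg_left (abs_nonneg _) (by positivity) hY1
    calc |C₁| / Real.log Y * (2 * δ * L) ≤ |C₁| / (θ / 2 * L) * (2 * δ * L) := mul_le_mul_of_nonneg_right h1 (by positivity)
      _ = 4 * |C₁| / θ * δ := by field_simp; ring
  have t2 : 4 * (N : ℝ) ^ 3 * (Y : ℝ) ^ 6 * Real.exp (-((1 / 2 - δ) * L - Real.log Y)) ≤ δ := by
    have h1 : (N : ℝ) ^ 3 * (Y : ℝ) ^ 6 ≤ Real.exp (9 * Real.log Y) := by
      have e1 : Real.exp (9 * Real.log Y) = (Y : ℝ) ^ 9 := by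
        rw [show (9 : ℝ) * Real.log Y = ((9 : ℕ) : ℝ) * Real.log Y by norm_num, ← Real.log_pow,
          Real.exp_log (by positivity)]
      rw [e1]
      calc (N : ℝ) ^ 3 * (Y : ℝ) ^ 6 ≤ (Y : ℝ) ^ 3 * (Y : ℝ) ^ 6 :=
            mul_le_mul_of_nonneg_right (pow_le_pow_left₀ hN0 hNr 3) (by positivity)
        _ = (Y : ℝ) ^ 9 := by ring
    calc 4 * (N : ℝ) ^ 3 * (Y : ℝ) ^ 6 * Real.exp (-((1 / 2 - δ) * L - Real.log Y))
        = 4 * (((N : ℝ) ^ 3 * (Y : ℝ) ^ 6) * Real.exp (-((1 / 2 - δ) * L - Real.log Y))) := by ring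
      _ ≤ 4 * (Real.exp (9 * Real.log Y) * Real.exp (-((1 / 2 - δ) * L - Real.log Y))) :=
          mul_le_mul_of_nonneg_left (mul_le_mul_of_nonneg_right h1 (Real.exp_pos _).le) (by norm_num)
      _ = 4 * Real.exp (9 * Real.log Y + -((1 / 2 - δ) * L - Real.log Y)) := by rw [Real.exp_add]
      _ ≤ 4 * Real.exp (-(3 / 20 * L)) :=
          mul_le_mul_of_nonneg_left (Real.exp_le_exp.2 (by linarith)) (by norm_num)
      _ ≤ 4 * (δ / 4) := mul_le_mul_of_nonneg_left hE1 (by norm_num)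
      _ = δ := by ring
  have t3 : (N : ℝ) ^ 2 * (Y : ℝ) ^ 4 * ((⌊T⌋₊ : ℕ) : ℝ) ^ 2 * Real.exp (-Real.sqrt T / 4) ≤ δ := by
    have hYT : (Y : ℝ) ^ 6 ≤ T := by
      rw [← Real.log_le_log_iff (by positivity) hT0, Real.log_pow]
      push_cast
      linarith
    have hfT : ((⌊T⌋₊ : ℕ) : ℝ) ≤ T := Nat.floor_le hT0.le
    have h1 : (N : ℝ) ^ 2 * (Y : ℝ) ^ 4 ≤ T := by
      calc (N : ℝ) ^ 2 * (Y : ℝ) ^ 4 ≤ (Y : ℝ) ^ 2 * (Y : ℝ) ^ 4 :=
            mul_le_mul_of_nonneg_right (pow_le_pow_left₀ hN0 hNr 2) (by positivity)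
        _ = (Y : ℝ) ^ 6 := by ring
        _ ≤ T := hYT
    calc (N : ℝ) ^ 2 * (Y : ℝ) ^ 4 * ((⌊T⌋₊ : ℕ) : ℝ) ^ 2 * Real.exp (-Real.sqrt T / 4)
        ≤ T * T ^ 2 * Real.exp (-Real.sqrt T / 4) := by
          refine mul_le_mul_of_nonneg_right ?_ (Real.exp_pos _).le
          exact mul_le_mul h1 (pow_le_pow_left₀ (Nat.cast_nonneg _) hfT 2) (by positivity) hT0.le
      _ = T ^ 3 * Real.exp (-Real.sqrt T / 4) := by ring
      _ ≤ δ := hE2
  calc _ ≤ 6 * T * (4 * |C₁| / θ * δ + δ + δ) * N2 N b := by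
        refine mul_le_mul_of_nonneg_right (mul_le_mul_of_nonneg_left ?_ (by positivity)) hN2
        linarith
    _ = _ := by ring

end

end Pool.Agent.Q97.UM
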