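import Pool.Agent.Q97.UM.Fc
import Pool.Agent.Q97.UM.R3

set_option autoImplicit false

/-! Project UM: existence form with a rate. -/

namespace Pool.Agent.Q97.UM

open Filter Topology MeasureTheory Complex
open Pool.Agent.W182.KO (P TF P_bound one_add_inv_sq_int J2 J2_nonneg)
open Q80.SP (kr sc_int sc_val)
open scoped ContDiff

noncomputable section

/-- existence form with a rate -/
def S_E2 : Prop := ∃ θ : ℝ, 0 < θ ∧ θ ≤ 1 / 40 ∧ ∀ κ : ℝ, 0 < κ → κ < 1 → ∃ C : ℝ, 0 < C ∧ ∀ R : ℝ, 1 ≤ R →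
  ∃ T₀ : ℝ, ∀ T : ℝ, T₀ ≤ T → ∀ N : ℕ, (N : ℝ) ≤ T ^ θ → ∀ b : ℕ → ℂ,
    ∫ t in {t : ℝ | T ≤ t ∧ t ≤ 2 * T ∧ Zo t (R / Real.log T) = ∅}, ‖dp N b t‖ ^ 2 ≤ C * R ^ (-κ) * T * N2 N b

theorem t_E2 (hGEV : S_GEV) (hAL : S_AL) (hFB : S_FB) (hEX : S_EXP) (hCO : S_CORE) (hPR : S_PR) (hTS : S_TS) (hSUM : S_SUM)
    (hMV : S_MV) (hPH : S_PH) (hSG : S_SGN) (hFIL : S_FIL) (hKER : S_KER) (hDP : S_DPM) (hMVL : S_MVL) (hZF : S_ZF)
    (hR2 : S_R2) (hR4 : S_R4) (hX0 : S_X0) : S_E2 := by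
  obtain ⟨Pw, q, c₀, C₀, hG⟩ := hGEV
  obtain ⟨C₁, hC₁, hM⟩ := R1 hG hFB hEX hCO hPR
  obtain ⟨ψ₁, k₀, Ck, hcd, hs, h0, hb1, hd, hkc, hk0, hk⟩ := hKER
  obtain ⟨ph, C, T₁, hph⟩ := hPH
  obtain ⟨θ, C₂, hθ, hθ1, hC₂, hr2⟩ := hR2 Pw q c₀ C₀ C₁ hG hM hTS hAL hDP hMVL
  obtain ⟨C₃, hC₃, hr3⟩ := t_R3 hAL Pw q ψ₁ c₀ C₀ C₁ Ck θ hG hM hMV hSUM hcd hs hb1 hd hθ hθ1
  choose Cc hCc hKb using fun q : ℕ => Kf_bd hcd hs hk hk0 q
  refine ⟨θ, hθ, hθ1, fun κ hκ hκ1 => ?_⟩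
  obtain ⟨p, hp⟩ := exists_nat_ge (1 / (1 - κ))
  have h1κ : 0 < 1 - κ := by linarith
  have hp1 : 1 ≤ p * (1 - κ) := by rwa [div_le_iff₀ h1κ] at hp
  have hJ := J2_nonneg
  set K1 : ℝ := 4 * (Cc p * J2) ^ 2 * C₂ * (8 / θ) ^ (2 * p) with hK1
  have hK10 : 0 ≤ K1 := by positivity
  refine ⟨8 * (C₃ + K1 + 2), by positivity, fun R hR => ?_⟩
  have hR0 : 0 < R := by linarith
  set δ : ℝ := θ / 8 * R ^ (-κ) with hδdef
  have hRk : 0 < R ^ (-κ) := Real.rpow_pos_of_pos hR0 _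
  have hRk1 : R ^ (-κ) ≤ 1 := Real.rpow_le_one_of_one_le_of_nonpos hR (by linarith)
  have hδ : 0 < δ := by positivity
  have hδθ : δ ≤ θ / 8 := by rw [hδdef]; nlinarith
  have hδ1 : δ ≤ 1 / 10 := by linarith
  have hRkeq : R * R ^ (-κ) = R ^ (1 - κ) := by
    nth_rw 1 [← Real.rpow_one R]
    rw [← Real.rpow_add hR0]; congr 1
  -- (δ R)^{-2p} ≤ (8/θ)^{2p} R^{-κ}
  have hδR : 1 / (δ * R) ^ (2 * p) ≤ (8 / θ) ^ (2 * p) * R ^ (-κ) := by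
    have e1 : δ * R = θ / 8 * R ^ (1 - κ) := by rw [hδdef, ← hRkeq]; ring
    have e2 : 1 / (δ * R) ^ (2 * p) = (8 / θ) ^ (2 * p) * R ^ (-((1 - κ) * (2 * p : ℕ))) := by
      rw [e1, mul_pow, ← Real.rpow_natCast (R ^ (1 - κ)), ← Real.rpow_mul hR0.le, Real.rpow_neg hR0.le, div_pow, div_pow]
      have : 0 < R ^ ((1 - κ) * ((2 * p : ℕ) : ℝ)) := Real.rpow_pos_of_pos hR0 _
      field_simp
    rw [e2]
    refine mul_le_mul_of_nonneg_left ?_ (by positivity)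
    apply Real.rpow_le_rpow_of_exponent_le hR
    push_cast
    nlinarith
  obtain ⟨T₀, hT₀⟩ := eventually_atTop.1 ((((hr2.and (hr3 δ hδ hδ1)).and
    (hR4 Pw q ψ₁ c₀ C₀ θ δ hG hAL hFIL hcd hs h0 hb1 hθ hθ1 hδ hδθ)).and
    (hX0 Pw q ψ₁ c₀ C₀ θ δ hG hAL hFIL hcd hs hb1 hθ hθ1 hδ hδ1)).and
    ((((log_ev (1 / δ)).and (eventually_ge_atTop (max T₁ 16))).and (log_ev 1)).and
    ((pow_ev (show (0 : ℝ) < 2 by norm_num) (show 0 < R ^ (-κ) / 2 by positivity)).and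
    ((log_ev (C * (Cc 1 * J2) * (C₂ + 1) * (1 / δ) / R ^ (-κ))).and (eventually_ge_atTop (2 * R))))))
  refine ⟨T₀, fun T hT N hN b => ?_⟩
  obtain ⟨⟨⟨⟨hr2', hr3'⟩, hr4'⟩, hx0'⟩, ⟨⟨hl1, hTm⟩, hl2⟩, hpw, hl3, hT2R⟩ := hT₀ T hT
  have hT1 : T₁ ≤ T := (le_max_left _ _).trans hTm
  have hT16 : 16 ≤ T := (le_max_right _ _).trans hTm
  have hT0 : 0 < T := by linarith
  set L := Real.log T with hL
  have hL0 : 0 < L := by linarith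
  -- restrict the coefficients
  set b' : ℕ → ℂ := fun n => if 1 ≤ n ∧ n ≤ N then b n else 0 with hb'
  have hbb : ∀ n ∈ Finset.Icc 1 N, b' n = b n := fun n hn => if_pos (Finset.mem_Icc.1 hn)
  have hdp : ∀ t, dp N b t = dp N b' t := fun t => by
    unfold dp
    exact Finset.sum_congr rfl fun n hn => by rw [hbb n hn]
  have hN2' : N2 N b = N2 N b' := by
    unfold N2
    exact Finset.sum_congr rfl fun n hn => by rw [hbb n hn]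
  have hsupp : ∀ n, b' n ≠ 0 → 1 ≤ n ∧ n ≤ N := fun n hn => by
    by_contra h
    exact hn (if_neg h)
  simp only [hdp, hN2']
  have hN2 : 0 ≤ N2 N b' := Finset.sum_nonneg fun n _ => by positivity
  have hNT : (N : ℝ) ≤ T ^ (1 / 4 : ℝ) := hN.trans (Real.rpow_le_rpow_of_exponent_le (by linarith) (by linarith))
  have hr : 0 < R / L := div_pos hR0 hL0
  have hrT : R / L ≤ T / 2 := by
    rw [div_le_iff₀ hL0]
    nlinarith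
  have hδL : 1 ≤ δ * L := by
    rw [div_le_iff₀ hδ] at hl1; linarith
  have main := fin_num hSG hDP hZF hk hk0 hkc hph Pw (Y := ⌊T ^ θ⌋₊) (Z := ⌊T⌋₊) (N := N) (b := b') (p := p) (Cc := Cc) hCc
    hKb (T := T) (r := R / L) (δ := δ) (C₂ := C₂) (C₃ := C₃) hδ hT1 (by linarith) hr hrT hδL
    (fun y => hr2' N hN b' hsupp y) hx0' (hr3' N hN b' hsupp) hr4' (hMVL T hT16 N hNT b').2
  refine main.trans ?_
  refine mul_le_mul_of_nonneg_right ?_ hN2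
  refine mul_le_mul_of_nonneg_right ?_ hT0.le
  have a1 : C₃ * δ ≤ C₃ * R ^ (-κ) := mul_le_mul_of_nonneg_left (by rw [hδdef]; nlinarith) hC₃
  have a2 : 2 / T ^ 2 ≤ R ^ (-κ) := by
    have e : Real.exp (-(2 * L)) = 1 / T ^ 2 := by
      rw [Real.exp_neg, show (2 : ℝ) * L = ((2 : ℕ) : ℝ) * Real.log T by norm_num [hL], ← Real.log_pow, Real.exp_log (by positivity)]
      rw [one_div]
    rw [e] at hpw
    have : 2 / T ^ 2 = 2 * (1 / T ^ 2) := by ring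
    rw [this]; linarith
  have a3 : (2 / (R / L) ^ p) ^ 2 * ((Cc p * J2 / (δ * L) ^ p) ^ 2 * C₂) ≤ K1 * R ^ (-κ) := by
    have e : (2 / (R / L) ^ p) ^ 2 * ((Cc p * J2 / (δ * L) ^ p) ^ 2 * C₂) = 4 * (Cc p * J2) ^ 2 * C₂ * (1 / (δ * R) ^ (2 * p)) := by
      have e1 : (R / L) ^ p * (δ * L) ^ p = (δ * R) ^ p := by
        rw [← mul_pow]; congr 1; field_simp
      have e2 : (δ * R) ^ (2 * p) = ((R / L) ^ p * (δ * L) ^ p) ^ 2 := by rw [e1, ← pow_mul, mul_comm 2 p]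
      rw [e2]
      have h1 : 0 < (R / L) ^ p := by positivity
      have h2 : 0 < (δ * L) ^ p := by positivity
      field_simp
      ring
    rw [e, hK1]
    calc 4 * (Cc p * J2) ^ 2 * C₂ * (1 / (δ * R) ^ (2 * p)) ≤ 4 * (Cc p * J2) ^ 2 * C₂ * ((8 / θ) ^ (2 * p) * R ^ (-κ)) :=
          mul_le_mul_of_nonneg_left hδR (by positivity)
      _ = _ := by ring
  have a4 : C ^ 2 * ((Cc 1 * J2 / (δ * L) ^ 1) ^ 2 * C₂) ≤ R ^ (-κ) := by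
    have hCn := phase_C hph
    have hC1 : 0 ≤ Cc 1 * J2 := mul_nonneg (hCc 1) hJ
    -- `x = C (Cc 1 J2) / (δ L) ≤ R^{-κ} / (C₂ + 1) ≤ 1`
    have hx : C * (Cc 1 * J2) / (δ * L) * (C₂ + 1) ≤ R ^ (-κ) := by
      rw [div_le_iff₀ hRk] at hl3
      rw [div_mul_eq_mul_div, div_le_iff₀ (by positivity)]
      have h5 : C * (Cc 1 * J2) * (C₂ + 1) = (C * (Cc 1 * J2) * (C₂ + 1) * (1 / δ)) * δ := by field_simp
      rw [h5]
      nlinarith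
    set x := C * (Cc 1 * J2) / (δ * L) with hxd
    have hx0 : 0 ≤ x := by positivity
    have e : C ^ 2 * ((Cc 1 * J2 / (δ * L) ^ 1) ^ 2 * C₂) = x * (x * C₂) := by rw [hxd]; ring
    rw [e]
    have hx1 : x ≤ 1 := by nlinarith
    have h6 : x * C₂ ≤ R ^ (-κ) := by nlinarith
    calc x * (x * C₂) ≤ 1 * (x * C₂) := mul_le_mul_of_nonneg_right hx1 (by positivity)
      _ ≤ R ^ (-κ) := by linarith
  calc 8 * (C₃ * δ + 2 / T ^ 2 + (2 / (R / L) ^ p) ^ 2 * ((Cc p * J2 / (δ * L) ^ p) ^ 2 * C₂) +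
      C ^ 2 * ((Cc 1 * J2 / (δ * L) ^ 1) ^ 2 * C₂)) ≤ 8 * (C₃ * R ^ (-κ) + R ^ (-κ) + K1 * R ^ (-κ) + R ^ (-κ)) :=
        mul_le_mul_of_nonneg_left (by linarith) (by norm_num)
    _ = 8 * (C₃ + K1 + 2) * R ^ (-κ) := by ring

theorem E_of_E2 (h : S_E2) : S_E := by
  obtain ⟨θ, hθ, hθ1, h⟩ := h
  obtain ⟨C, hC, h⟩ := h (1 / 2) (by norm_num) (by norm_num)
  refine ⟨θ, hθ, hθ1, fun ε hε => ?_⟩
  set R : ℝ := max 1 ((C / ε) ^ 2) with hR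
  have hR1 : 1 ≤ R := le_max_left _ _
  have hR0 : 0 < R := by linarith
  obtain ⟨T₀, h⟩ := h R hR1
  refine ⟨R, max T₀ 0, hR1, fun T hT N hN b => (h T ((le_max_left _ _).trans hT) N hN b).trans ?_⟩
  have hT0 : 0 ≤ T := (le_max_right _ _).trans hT
  have hN2 : 0 ≤ N2 N b := Finset.sum_nonneg fun n _ => by positivity
  refine mul_le_mul_of_nonneg_right (mul_le_mul_of_nonneg_right ?_ hT0) hN2
  rw [Real.rpow_neg hR0.le, ← Real.sqrt_eq_rpow, ← div_eq_mul_inv, div_le_iff₀ (Real.sqrt_pos.2 hR0)]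
  have h1 : C / ε ≤ Real.sqrt R := by
    rw [← Real.sqrt_sq (show 0 ≤ C / ε by positivity)]
    exact Real.sqrt_le_sqrt (le_max_right _ _)
  rw [div_le_iff₀ hε] at h1
  linarith

end

end Pool.Agent.Q97.UM
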