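import Pool.Agent.Q97.UM.SupG
import Pool.Agent.Q97.UM.Rh

set_option autoImplicit false

/-! Project UM5: the isolated simple critical zeros; preparation of the hand-ins. -/

namespace Pool.Agent.Q97.UM

open Filter Topology MeasureTheory Complex

/-- membership in `ZI` in readable terms -/
theorem mem_ZI_iff {d T : ℝ} (hT : 16 ≤ T) (hd : d ≤ 1) {s : ℂ} : s ∈ ZI d T ↔ s.re = 1 / 2 ∧ T < s.im ∧ s.im ≤ 2 * T ∧
    riemannZeta s = 0 ∧ deriv riemannZeta s ≠ 0 ∧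
    ∀ ρ : ℂ, riemannZeta ρ = 0 → 0 < ρ.re → ρ.re < 1 → ρ ≠ s → d / Real.log T ≤ ‖ρ - s‖ := by
  have hF := H370.good_zeta
  have hlog : 1 ≤ Real.log T := by
    rw [Real.le_log_iff_exp_le (by linarith)]
    have := Real.exp_one_lt_d9
    linarith
  have hdl : d / Real.log T ≤ 1 := by
    rw [div_le_one (by linarith)]
    linarith
  unfold ZI
  rw [Finset.mem_filter, H370.mem_Zf hF (by linarith : (1 : ℝ) ≤ T)]
  constructor
  · rintro ⟨⟨h1, h2, h3, h4, h5⟩, h6, h7, h8⟩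
    have hs1 : s ≠ 1 := by
      intro h9
      rw [h9] at h6
      norm_num at h6
    refine ⟨h6, h3, h4, h5, (mz_one h5 hs1).1 h7, ?_⟩
    intro ρ hρ hρ0 hρ1 hne
    rw [norm_sub_rev]
    by_cases hin : T / 16 < ρ.im ∧ ρ.im ≤ 16 * T
    · exact h8 ρ ((H370.mem_Zf hF (by linarith : (1 : ℝ) ≤ T / 16)).2 ⟨hρ0, hρ1, hin.1, hin.2, hρ⟩) hne
    · have h9 : |(s - ρ).im| ≤ ‖s - ρ‖ := Complex.abs_im_le_norm _
      rw [Complex.sub_im] at h9
      have h10 : 1 ≤ |s.im - ρ.im| := by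
        rw [not_and_or, not_lt, not_le] at hin
        rcases hin with h | h
        · rw [le_abs]; left; linarith
        · rw [le_abs]; right; linarith
      linarith
  · rintro ⟨h6, h3, h4, h5, h7, h8⟩
    have hs1 : s ≠ 1 := by
      intro h9
      rw [h9] at h6
      norm_num at h6
    refine ⟨⟨by rw [h6]; norm_num, by rw [h6]; norm_num, h3, h4, h5⟩, h6, (mz_one h5 hs1).2 h7, ?_⟩
    intro ρ hρ hne
    unfold ZD at hρ
    rw [H370.mem_Zf hF (by linarith : (1 : ℝ) ≤ T / 16)] at hρ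
    rw [norm_sub_rev]
    exact h8 ρ hρ.2.2.2.2 hρ.1 hρ.2.1 hne

/-- the number of the isolated zeros -/
theorem ZI_card_le : ∀ᶠ T : ℝ in atTop, ∀ d : ℝ, ((ZI d T).card : ℝ) ≤ 2 * (Real.log T / (2 * Real.pi) * T) := by
  classical
  obtain ⟨θ, hθ, hθ2, hev⟩ := b_SAMP (1 / 100) (by norm_num)
  filter_upwards [hev, eventually_ge_atTop 3] with T hT hT3 d
  have hT0 : 0 < T := by linarith
  have hL : 0 < Real.log T := Real.log_pos (by linarith)
  have hpi := Real.pi_gt_three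
  have hpi4 := Real.pi_le_four
  have hT2 : ((1 : ℕ) : ℝ) ≤ T ^ θ := by
    rw [Nat.cast_one]
    exact Real.one_le_rpow (by linarith) hθ.le
  have hone := hT 1 hT2 (fun _ => 1)
  have hN21 : N2 1 (fun _ => (1 : ℂ)) = 1 := by simp [N2]
  have hdp1 : ∀ t : ℝ, dp 1 (fun _ => (1 : ℂ)) t = 1 := by intro t; simp [dp]
  obtain ⟨-, -, hC1⟩ := hone
  simp only [hN21, hdp1, norm_one, one_pow, mul_one] at hC1
  have hcl : ((ZI d T).card : ℝ) ≤ ∑ s ∈ H370.Zf riemannZeta T (2 * T), (mz s : ℝ) := by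
    have : ((ZI d T).card : ℝ) = ∑ s ∈ ZI d T, (mz s : ℝ) := by
      rw [Finset.sum_congr rfl (g := fun _ => (1 : ℝ))]
      · simp
      · intro s hs
        unfold ZI at hs
        rw [Finset.mem_filter] at hs
        rw [hs.2.2.1, Nat.cast_one]
    rw [this]
    unfold ZI
    exact Finset.sum_le_sum_of_subset_of_nonneg (Finset.filter_subset _ _) fun _ _ _ => Nat.cast_nonneg _
  have h1 := (abs_le.mp hC1).2
  have h2 : (1 / 100 : ℝ) * Real.log T * T ≤ Real.log T / (2 * Real.pi) * T := by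
    refine mul_le_mul_of_nonneg_right ?_ hT0.le
    rw [div_eq_mul_inv, mul_comm]
    refine mul_le_mul_of_nonneg_left ?_ hL.le
    rw [le_inv_comm₀ (by norm_num) (by positivity)]
    linarith
  linarith

/-- large values of Dirichlet polynomials at isolated simple critical zeros -/
theorem ZI_sup {d : ℝ} (hd : ∃ θ : ℝ, 0 < θ ∧ ∀ᶠ T : ℝ in atTop, ∀ N : ℕ, (N : ℝ) ≤ T ^ θ → ∀ b : ℕ → ℂ,
    (1 / 3) * (Real.log T / (2 * Real.pi)) * (T * N2 N b) ≤ ∑ s ∈ ZI d T, ‖dp N b s.im‖ ^ 2) :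
    ∃ κ : ℝ, 0 < κ ∧ ∀ᶠ T : ℝ in atTop, ∀ (N : ℕ) (ε : ℝ), 0 < ε → ε < 1 →
  N * Real.log (Real.log T) ^ 2 ≤ κ * ε * Real.log T → ∀ (b : ℕ → ℂ) (χ : ℕ → ℂ), χ 1 = 1 → (∀ m n, χ (m * n) = χ m * χ n) →
    (∀ n, ‖χ n‖ ≤ 1) → ∃ s ∈ ZI d T, (1 - ε) * ‖∑ n ∈ Finset.Icc 1 N, b n * χ n / (Real.sqrt n : ℂ)‖ ≤ ‖dp N b s.im‖ := by
  obtain ⟨θ, hθ, h⟩ := hd
  apply sup_gen (fun T => ZI d T)
  refine ⟨θ, hθ, ?_⟩
  filter_upwards [h, ZI_card_le] with T h1 h2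
  exact ⟨h2 d, h1⟩

end Pool.Agent.Q97.UM
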