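import Pool.Agent.Q97.UM.Base10
import Pool.Agent.Q97.UM.IsoF
import Pool.Agent.Erdos456.Mertens

set_option autoImplicit false

/-! Projects UM5, UM8: the moments of the derivative over the critical zeros. -/

namespace Pool.Agent.Q97.UM

open Filter Topology MeasureTheory Complex

noncomputable section

theorem ZI_anti {d d' T : ℝ} (hT : 1 < T) (h : d' ≤ d) : ZI d T ⊆ ZI d' T := by
  classical
  intro s hs
  unfold ZI at hs ⊢
  rw [Finset.mem_filter] at hs ⊢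
  refine ⟨hs.1, hs.2.1, hs.2.2.1, fun s' h1 h2 => ?_⟩
  refine le_trans ?_ (hs.2.2.2 s' h1 h2)
  have hL : 0 < Real.log T := Real.log_pos hT
  gcongr

/-- the sequence `1, 0, 0, …` -/
def d1 (n : ℕ) : ℂ := if n = 1 then 1 else 0

theorem cv_d1 (e : ℕ → ℂ) (n : ℕ) (hn : 1 ≤ n) : cv e d1 n = e n := by
  unfold cv d1
  rw [Finset.sum_eq_single (n, 1)]
  · simp
  · rintro ⟨a, b⟩ hab hne
    rw [Nat.mem_divisorsAntidiagonal] at hab
    by_cases hb : b = 1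
    · exfalso
      apply hne
      simp only at hab hb
      rw [hb, mul_one] at hab
      rw [hab.1, hb]
    · simp [hb]
  · intro h
    exfalso
    apply h
    rw [Nat.mem_divisorsAntidiagonal]
    exact ⟨by simp, by omega⟩

theorem N2_d1 (M : ℕ) (e : ℕ → ℂ) : N2 (M * 1) (cv e d1) = N2 M e := by
  unfold N2
  rw [mul_one]
  apply Finset.sum_congr rfl
  intro n hn
  rw [cv_d1 e n (Finset.mem_Icc.1 hn).1]

theorem dp_d1 (t : ℝ) : dp 1 d1 t = 1 := by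
  unfold dp d1
  simp

theorem d1_supp (m : ℕ) (h : d1 m ≠ 0) : 1 ≤ m ∧ m ≤ 1 := by
  unfold d1 at h
  by_cases hm : m = 1
  · omega
  · simp [hm] at h

/-- lower bound for the moments of the derivative over the isolated simple critical zeros, all real orders -/
theorem J_low : ∃ d : ℝ, 0 < d ∧ d ≤ 1 ∧ ∀ A : ℝ, 1 ≤ A → ∃ c : ℝ, 0 < c ∧ ∀ᶠ T : ℝ in atTop, ∀ lam : ℝ, |lam| ≤ A →
    c * T * Real.log T ^ ((lam + 1) ^ 2) ≤ ∑ s ∈ ZI d T, ‖deriv riemannZeta s‖ ^ (2 * lam) := by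
  obtain ⟨d, hd, h⟩ := b_LBD
  refine ⟨min d 1, by positivity, min_le_right _ _, ?_⟩
  intro A hA
  obtain ⟨δ, θ, c, hδ, _, hθ, hc, h1⟩ := h A hA
  refine ⟨c * c, by positivity, ?_⟩
  filter_upwards [h1, eventually_ge_atTop 3] with T h2 hT lam hlam
  obtain ⟨M, e, hM, _, hlow, h3⟩ := h2 lam hlam
  have hT0 : 0 < T := by linarith
  have hL0 : 0 < Real.log T := Real.log_pos (by linarith)
  have h4 := h3 1 (by rw [Nat.cast_one]; exact Real.one_le_rpow (by linarith) hθ.le) d1 d1_supp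
  rw [N2_d1] at h4
  have h5 : ∑ s ∈ ZI d T, ‖deriv riemannZeta s‖ ^ (2 * lam) * ‖dp 1 d1 s.im‖ ^ 2 = ∑ s ∈ ZI d T, ‖deriv riemannZeta s‖ ^ (2 * lam) := by
    apply Finset.sum_congr rfl
    intro s _
    rw [dp_d1, norm_one, one_pow, mul_one]
  rw [h5] at h4
  have h6 : ∑ s ∈ ZI d T, ‖deriv riemannZeta s‖ ^ (2 * lam) ≤ ∑ s ∈ ZI (min d 1) T, ‖deriv riemannZeta s‖ ^ (2 * lam) :=
    Finset.sum_le_sum_of_subset_of_nonneg (ZI_anti (by linarith) (min_le_left _ _)) fun _ _ _ => by positivity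
  refine le_trans (le_trans ?_ h4) h6
  calc c * c * T * Real.log T ^ ((lam + 1) ^ 2) = c * T * Real.log T ^ (1 + 2 * lam) * (c * Real.log T ^ (lam ^ 2)) := by
        have : Real.log T ^ ((lam + 1) ^ 2) = Real.log T ^ (1 + 2 * lam) * Real.log T ^ (lam ^ 2) := by
          rw [← Real.rpow_add hL0]
          congr 1
          ring
        rw [this]
        ring
    _ ≤ _ := mul_le_mul_of_nonneg_left hlow (by positivity)

theorem N2_up {lam : ℝ} (h0 : 0 < lam) (h1 : lam < 1) : ∃ κ₁ : ℝ, 4 ≤ κ₁ ∧ ∀ κ δ : ℝ, κ₁ ≤ κ → 0 < δ → δ ≤ 1 → ∃ C : ℝ, 0 ≤ C ∧ ∀ᶠ T : ℝ in atTop,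
    N2 (M9 (δ * Real.log T) κ) (ebk (δ * Real.log T) κ (fun _ => (lam : ℂ)) (fun _ => (lam : ℂ)) 0 (JB (δ * Real.log T))) ≤
      C * Real.log T ^ (lam ^ 2) := by
  obtain ⟨κ₀, hκ₀, c, C, hc, hC, h⟩ := b_EN2 1 le_rfl
  obtain ⟨C₃, hC₃⟩ := Pool.Agent.Erdos456.Mert.mertens_inv
  refine ⟨κ₀, hκ₀, ?_⟩
  intro κ δ hκ hδ hδ1
  refine ⟨C * Real.exp |C₃|, by positivity, ?_⟩
  have e1 : ∀ᶠ T : ℝ in atTop, 1 ≤ δ * Real.log T := by
    filter_upwards [Real.tendsto_log_atTop.eventually_ge_atTop (1 / δ)] with T hT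
    rw [div_le_iff₀ hδ] at hT
    linarith
  have e2 : ∀ᶠ T : ℝ in atTop, 3 ≤ T ^ δ := (tendsto_rpow_atTop hδ).eventually_ge_atTop 3
  filter_upwards [e1, e2, eventually_ge_atTop 3] with T hT1 hT2 hT3
  have hT0 : 0 < T := by linarith
  have hL0 : 0 < Real.log T := Real.log_pos (by linarith)
  have hb : ∀ n : ℕ, ‖((fun _ => (lam : ℂ)) : ℕ → ℂ) n‖ ≤ 1 := by
    intro n
    rw [Complex.norm_real, Real.norm_eq_abs, abs_of_pos h0]
    exact h1.le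
  have h2 := (h κ (δ * Real.log T) (fun _ => (lam : ℂ)) (fun _ => (lam : ℂ)) hκ hT1 hb hb).2
  refine h2.trans ?_
  have hexp : Real.exp (δ * Real.log T) = T ^ δ := by rw [Real.rpow_def_of_pos hT0, mul_comm]
  rw [hexp, mul_assoc]
  apply mul_le_mul_of_nonneg_left _ hC
  have h3 : ∑ p ∈ (Finset.Icc 1 ⌊T ^ δ⌋₊).filter Nat.Prime, ‖(lam : ℂ)‖ ^ 2 / (p : ℝ) =
      lam ^ 2 * ∑ p ∈ (Finset.Icc 1 ⌊T ^ δ⌋₊).filter Nat.Prime, (1 : ℝ) / p := by
    rw [Finset.mul_sum]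
    apply Finset.sum_congr rfl
    intro p _
    rw [Complex.norm_real, Real.norm_eq_abs, sq_abs]
    ring
  rw [h3, Real.rpow_def_of_pos hL0, ← Real.exp_add]
  apply Real.exp_le_exp.2
  have hX3 : 3 ≤ ⌊T ^ δ⌋₊ := Nat.le_floor (by exact_mod_cast hT2)
  have h4 := (abs_le.1 (hC₃ ⌊T ^ δ⌋₊ hX3)).2
  have h5 : Real.log (Real.log (⌊T ^ δ⌋₊ : ℝ)) ≤ Real.log (Real.log T) := by
    have hX3' : (3 : ℝ) ≤ (⌊T ^ δ⌋₊ : ℝ) := by exact_mod_cast hX3
    have hl : 0 < Real.log (⌊T ^ δ⌋₊ : ℝ) := Real.log_pos (by linarith)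
    apply Real.log_le_log hl
    apply Real.log_le_log (by linarith)
    refine (Nat.floor_le (by positivity)).trans ?_
    calc T ^ δ ≤ T ^ (1 : ℝ) := Real.rpow_le_rpow_of_exponent_le (by linarith) hδ1
      _ = T := Real.rpow_one T
  have h6 : ∑ p ∈ (Finset.Icc 1 ⌊T ^ δ⌋₊).filter Nat.Prime, (1 : ℝ) / p ≤ Real.log (Real.log T) + |C₃| := by
    have := le_abs_self C₃
    linarith
  have h7 : lam ^ 2 ≤ 1 := by nlinarith
  have h8 := mul_le_mul_of_nonneg_left h6 (sq_nonneg lam)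
  have h9 : lam ^ 2 * |C₃| ≤ 1 * |C₃| := mul_le_mul_of_nonneg_right h7 (abs_nonneg _)
  linarith

open Classical in
/-- upper bound for the moments of the derivative over the critical zeros, orders between `0` and `1` -/
theorem J_up {lam : ℝ} (h0 : 0 < lam) (h1 : lam < 1) : ∃ C : ℝ, 0 ≤ C ∧ ∀ᶠ T : ℝ in atTop,
    ∑ s ∈ (H370.Zf riemannZeta T (2 * T)).filter (fun s => s.re = 1 / 2), ‖deriv riemannZeta s‖ ^ (2 * lam) ≤
      C * T * Real.log T ^ ((lam + 1) ^ 2) := by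
  obtain ⟨κ₀, hκ₀, h⟩ := b_UBD lam h0 h1
  obtain ⟨κ₁, hκ₁, h'⟩ := N2_up h0 h1
  obtain ⟨δ₀, hδ₀, h2⟩ := h (max κ₀ κ₁) (le_max_left _ _)
  obtain ⟨θ, C, hθ, hC, h3⟩ := h2 (min δ₀ 1) (by positivity) (min_le_left _ _)
  obtain ⟨C', hC', h4⟩ := h' (max κ₀ κ₁) (min δ₀ 1) (le_max_right _ _) (by positivity) (min_le_right _ _)
  refine ⟨C * C', by positivity, ?_⟩
  filter_upwards [h3, h4, eventually_ge_atTop 3] with T h5 h6 hT
  have hT0 : 0 < T := by linarith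
  have hL0 : 0 < Real.log T := Real.log_pos (by linarith)
  have h7 := h5 1 (by rw [Nat.cast_one]; exact Real.one_le_rpow (by linarith) hθ.le) d1 d1_supp
  rw [N2_d1] at h7
  have h8 : ∑ s ∈ (H370.Zf riemannZeta T (2 * T)).filter (fun s => s.re = 1 / 2), ‖deriv riemannZeta s‖ ^ (2 * lam) =
      ∑ s ∈ (H370.Zf riemannZeta T (2 * T)).filter (fun s => s.re = 1 / 2), ‖deriv riemannZeta s‖ ^ (2 * lam) * ‖dp 1 d1 s.im‖ ^ 2 := by
    apply Finset.sum_congr rfl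
    intro s _
    rw [dp_d1, norm_one, one_pow, mul_one]
  rw [h8]
  refine h7.trans ?_
  calc _ ≤ C * T * Real.log T ^ (1 + 2 * lam) * (C' * Real.log T ^ (lam ^ 2)) := mul_le_mul_of_nonneg_left h6 (by positivity)
    _ = C * C' * T * (Real.log T ^ (1 + 2 * lam) * Real.log T ^ (lam ^ 2)) := by ring
    _ = C * C' * T * Real.log T ^ ((lam + 1) ^ 2) := by
        rw [← Real.rpow_add hL0]
        congr 2
        ring

end

end Pool.Agent.Q97.UM
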