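import Pool.Agent.Q97.UM.Stm18

set_option autoImplicit false

/-! Project UM11: LAWA and LAWP. -/

namespace Pool.Agent.Q97.UM

open Filter Topology MeasureTheory Complex ProbabilityTheory

noncomputable section

theorem floor_pow_le {T δ θ : ℝ} (hT : 1 ≤ T) (D : ℕ) (hδ : 0 < δ) (h : δ ≤ θ / (D + 1)) :
    (((⌊T ^ δ⌋₊ : ℕ) ^ D : ℕ) : ℝ) ≤ T ^ θ := by
  have h0 : 0 ≤ T := by linarith
  have h1 : ((⌊T ^ δ⌋₊ : ℕ) : ℝ) ≤ T ^ δ := Nat.floor_le (by positivity)
  push_cast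
  calc ((⌊T ^ δ⌋₊ : ℕ) : ℝ) ^ D ≤ (T ^ δ) ^ D := by gcongr
    _ = T ^ (δ * D) := by rw [← Real.rpow_natCast, ← Real.rpow_mul h0]
    _ ≤ T ^ θ := by
        apply Real.rpow_le_rpow_of_exponent_le hT
        rw [le_div_iff₀ (by positivity)] at h
        nlinarith

theorem t_LAWA : J_LAWA := by
  intro hS hW q ε hε
  obtain ⟨C, hC, hW⟩ := hW q
  obtain ⟨θ, hθ, hθ1, hS⟩ := hS (ε / (16 * (C + 1))) (by positivity)
  refine ⟨θ / (q.natDegree + 1), by positivity, fun δ hδ hδ1 => ?_⟩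
  have hX : Tendsto (fun T : ℝ => ⌊T ^ δ⌋₊) atTop atTop := tendsto_nat_floor_atTop.comp (tendsto_rpow_atTop hδ)
  have hW2 := hX.eventually (hW (ε / 2) (by positivity))
  filter_upwards [hS, hW2, eventually_ge_atTop 3] with T hS hW hT
  have hN := floor_pow_le (T := T) (by linarith) q.natDegree hδ hδ1
  obtain ⟨J, a, b, h1, h2, h3⟩ := hW (⌊T ^ δ⌋₊ ^ q.natDegree) le_rfl
  set X := ⌊T ^ δ⌋₊ with hXd
  set N := X ^ q.natDegree with hNd
  set L := Real.log T with hL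
  have hL0 : 0 < L := Real.log_pos (by linarith)
  have hpi := Real.pi_pos
  have hpi4 := Real.pi_le_four
  set A := L / (2 * Real.pi) * T with hA
  have hA0 : 0 < A := by positivity
  have e1 : (∑ s ∈ H370.Zf riemannZeta T (2 * T), (mz s : ℝ) * q.eval (RN X s.im)) - A * MW N a b =
      ∑ i, a i * ((∑ s ∈ H370.Zf riemannZeta T (2 * T), (mz s : ℝ) * ‖dp N (b i) s.im‖ ^ 2) -
        L / (2 * Real.pi) * (T * N2 N (b i))) := by
    have h4 : ∀ s ∈ H370.Zf riemannZeta T (2 * T), (mz s : ℝ) * q.eval (RN X s.im) =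
        ∑ i, a i * ((mz s : ℝ) * ‖dp N (b i) s.im‖ ^ 2) := by
      intro s _
      rw [← h1, WT, Finset.mul_sum]
      exact Finset.sum_congr rfl fun i _ => by ring
    rw [Finset.sum_congr rfl h4, Finset.sum_comm, MW, Finset.mul_sum, ← Finset.sum_sub_distrib]
    refine Finset.sum_congr rfl fun i _ => ?_
    rw [mul_sub, Finset.mul_sum, hA]
    ring
  have e2 : |(∑ s ∈ H370.Zf riemannZeta T (2 * T), (mz s : ℝ) * q.eval (RN X s.im)) - A * MW N a b| ≤
      ε / (16 * (C + 1)) * L * (T * VW N a b) := by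
    rw [e1]
    refine (Finset.abs_sum_le_sum_abs _ _).trans ?_
    rw [VW, Finset.mul_sum, Finset.mul_sum]
    refine Finset.sum_le_sum fun i _ => ?_
    rw [abs_mul]
    have h5 := (hS N hN (b i)).2.2
    calc |a i| * |_| ≤ |a i| * (ε / (16 * (C + 1)) * L * (T * N2 N (b i))) := by gcongr
      _ = _ := by ring
  have e3 : ε / (16 * (C + 1)) * L * (T * VW N a b) ≤ ε / 2 * A := by
    have h5 : ε / (16 * (C + 1)) * C ≤ ε / 16 := by
      rw [div_mul_eq_mul_div, div_le_div_iff₀ (by positivity) (by norm_num)]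
      nlinarith
    have h6 : ε / 16 ≤ ε / 2 * (1 / (2 * Real.pi)) := by
      rw [mul_one_div, le_div_iff₀ (by positivity)]
      nlinarith
    calc ε / (16 * (C + 1)) * L * (T * VW N a b) ≤ ε / (16 * (C + 1)) * L * (T * C) := by gcongr
      _ = (ε / (16 * (C + 1)) * C) * (L * T) := by ring
      _ ≤ (ε / 2 * (1 / (2 * Real.pi))) * (L * T) := by
          apply mul_le_mul_of_nonneg_right (h5.trans h6) (by positivity)
      _ = ε / 2 * A := by rw [hA]; ring
  have e4 : |A * MW N a b - (∫ x, q.eval x ∂(gaussianReal 0 1)) * A| ≤ ε / 2 * A := by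
    have : A * MW N a b - (∫ x, q.eval x ∂(gaussianReal 0 1)) * A =
        A * (MW N a b - ∫ x, q.eval x ∂(gaussianReal 0 1)) := by ring
    rw [this, abs_mul, abs_of_pos hA0, mul_comm]
    exact mul_le_mul_of_nonneg_right h3 hA0.le
  rw [abs_le] at *
  constructor <;> linarith [e2.1, e2.2, e4.1, e4.2]

theorem t_LAWP : J_LAWP := by
  intro hS hW p ε hε
  obtain ⟨C, hC, hW⟩ := hW (p ^ 2)
  obtain ⟨d, θ, hd0, hd1, hθ, hθ1, hS⟩ := hS (ε / (4 * (C + 1))) (by positivity)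
  refine ⟨d, θ / ((p ^ 2).natDegree + 1), hd0, hd1, by positivity, fun δ hδ hδ1 => ?_⟩
  have hX : Tendsto (fun T : ℝ => ⌊T ^ δ⌋₊) atTop atTop := tendsto_nat_floor_atTop.comp (tendsto_rpow_atTop hδ)
  have hW2 := hX.eventually (hW (ε / 2) (by positivity))
  filter_upwards [hS, hW2, eventually_ge_atTop 3] with T hS hW hT
  have hN := floor_pow_le (T := T) (by linarith) (p ^ 2).natDegree hδ hδ1
  obtain ⟨J, a, b, h1, h2, h3⟩ := hW (⌊T ^ δ⌋₊ ^ (p ^ 2).natDegree) le_rfl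
  set X := ⌊T ^ δ⌋₊ with hXd
  set N := X ^ (p ^ 2).natDegree with hNd
  set L := Real.log T with hL
  have hL0 : 0 < L := Real.log_pos (by linarith)
  have hpi := Real.pi_pos
  have hc2 := H370.cMTinv_lt
  have hc1 := H370.cMTinv_gt_one
  have h4 := hS N hN J a b (fun t => by rw [h1, Polynomial.eval_pow]; positivity)
  have h5 : ∑ s ∈ ZI d T, WT N a b s.im = ∑ s ∈ ZI d T, p.eval (RN X s.im) ^ 2 :=
    Finset.sum_congr rfl fun s _ => by rw [h1, Polynomial.eval_pow]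
  rw [h5] at h4
  refine le_trans ?_ h4
  have h6 : L / (2 * Real.pi) * (T * ((2 - H370.cMTinv) * MW N a b - ε / (4 * (C + 1)) * VW N a b)) =
      ((2 - H370.cMTinv) * MW N a b - ε / (4 * (C + 1)) * VW N a b) * (L / (2 * Real.pi) * T) := by ring
  rw [h6]
  apply mul_le_mul_of_nonneg_right _ (by positivity)
  have h7 : ε / (4 * (C + 1)) * VW N a b ≤ ε / 4 := by
    calc ε / (4 * (C + 1)) * VW N a b ≤ ε / (4 * (C + 1)) * C := by gcongr
      _ ≤ ε / 4 := by
        rw [div_mul_eq_mul_div, div_le_div_iff₀ (by positivity) (by norm_num)]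
        nlinarith
  have h8 : ∫ x, (p ^ 2).eval x ∂(gaussianReal 0 1) = ∫ x, p.eval x ^ 2 ∂(gaussianReal 0 1) := by
    simp only [Polynomial.eval_pow]
  rw [h8, abs_le] at h3
  set G := ∫ x, p.eval x ^ 2 ∂(gaussianReal 0 1) with hG
  nlinarith [h3.1, h3.2]

end

end Pool.Agent.Q97.UM
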