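import Pool.Agent.Q97.UM.Law1

set_option autoImplicit false

/-! Project UM11: tools for LAW. -/

namespace Pool.Agent.Q97.UM

open Filter Topology MeasureTheory Complex ProbabilityTheory

noncomputable section

theorem gam_le (S : Set ℝ) : gaussianReal 0 1 S ≤ volume S := by
  have h0 : (1 : NNReal) ≠ 0 := one_ne_zero
  rw [gaussianReal_apply 0 h0 S]
  calc ∫⁻ x in S, gaussianPDF 0 1 x ≤ ∫⁻ _ in S, 1 := by
        refine lintegral_mono fun x => ?_
        rw [gaussianPDF]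
        rw [← ENNReal.ofReal_one]
        apply ENNReal.ofReal_le_ofReal
        rw [gaussianPDFReal]
        have h1 : (1 : ℝ) ≤ Real.sqrt (2 * Real.pi * ((1 : NNReal) : ℝ)) := by
          rw [Real.one_le_sqrt]
          have := Real.pi_gt_three
          simp
          linarith
        have h2 : (Real.sqrt (2 * Real.pi * ((1 : NNReal) : ℝ)))⁻¹ ≤ 1 := inv_le_one_of_one_le₀ h1
        have h3 : Real.exp (-(x - 0) ^ 2 / (2 * ((1 : NNReal) : ℝ))) ≤ 1 := by
          rw [Real.exp_le_one_iff]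
          simp
          nlinarith [sq_nonneg x]
        calc _ ≤ (1 : ℝ) * 1 := by
              apply mul_le_mul h2 h3 (Real.exp_nonneg _) zero_le_one
          _ = 1 := by ring
    _ = volume S := by simp

theorem gam_Ioo (a b η : ℝ) (hη : 0 ≤ η) :
    (gaussianReal 0 1).real (Set.Ioo a b) ≤ (gaussianReal 0 1).real (Set.Ioo (a + η) (b - η)) + 2 * η := by
  have hsub : Set.Ioo a b ⊆ Set.Ioo (a + η) (b - η) ∪ (Set.Icc a (a + η) ∪ Set.Icc (b - η) b) := by
    intro x hx
    by_cases h1 : x ≤ a + η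
    · exact Or.inr (Or.inl ⟨hx.1.le, h1⟩)
    · by_cases h2 : b - η ≤ x
      · exact Or.inr (Or.inr ⟨h2, hx.2.le⟩)
      · exact Or.inl ⟨not_le.1 h1, not_le.1 h2⟩
  have h1 : (gaussianReal 0 1).real (Set.Icc a (a + η)) ≤ η := by
    rw [Measure.real]
    apply ENNReal.toReal_le_of_le_ofReal hη
    refine (gam_le _).trans ?_
    rw [Real.volume_Icc]
    apply ENNReal.ofReal_le_ofReal
    linarith
  have h2 : (gaussianReal 0 1).real (Set.Icc (b - η) b) ≤ η := by
    rw [Measure.real]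
    apply ENNReal.toReal_le_of_le_ofReal hη
    refine (gam_le _).trans ?_
    rw [Real.volume_Icc]
    apply ENNReal.ofReal_le_ofReal
    linarith
  calc _ ≤ (gaussianReal 0 1).real (Set.Ioo (a + η) (b - η) ∪ (Set.Icc a (a + η) ∪ Set.Icc (b - η) b)) :=
        measureReal_mono hsub
    _ ≤ (gaussianReal 0 1).real (Set.Ioo (a + η) (b - η)) + (gaussianReal 0 1).real (Set.Icc a (a + η) ∪ Set.Icc (b - η) b) :=
        measureReal_union_le _ _
    _ ≤ (gaussianReal 0 1).real (Set.Ioo (a + η) (b - η)) + ((gaussianReal 0 1).real (Set.Icc a (a + η)) +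
        (gaussianReal 0 1).real (Set.Icc (b - η) b)) := by
        gcongr
        exact measureReal_union_le _ _
    _ ≤ _ := by linarith

theorem gam_Ioi (a η : ℝ) (hη : 0 ≤ η) :
    (gaussianReal 0 1).real (Set.Ioi (a - η)) ≤ (gaussianReal 0 1).real (Set.Ioi a) + η := by
  have hsub : Set.Ioi (a - η) ⊆ Set.Ioi a ∪ Set.Icc (a - η) a := by
    intro x hx
    by_cases h1 : x ≤ a
    · exact Or.inr ⟨(Set.mem_Ioi.1 hx).le, h1⟩
    · exact Or.inl (not_le.1 h1)
  have h1 : (gaussianReal 0 1).real (Set.Icc (a - η) a) ≤ η := by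
    rw [Measure.real]
    apply ENNReal.toReal_le_of_le_ofReal hη
    refine (gam_le _).trans ?_
    rw [Real.volume_Icc]
    apply ENNReal.ofReal_le_ofReal
    linarith
  calc _ ≤ (gaussianReal 0 1).real (Set.Ioi a ∪ Set.Icc (a - η) a) := measureReal_mono hsub
    _ ≤ (gaussianReal 0 1).real (Set.Ioi a) + (gaussianReal 0 1).real (Set.Icc (a - η) a) := measureReal_union_le _ _
    _ ≤ _ := by linarith

/-- weighted sum of point masses -/
def pm (F : Finset ℂ) (w x : ℂ → ℝ) : Measure ℝ := ∑ s ∈ F, ENNReal.ofReal (w s) • Measure.dirac (x s)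

instance (F : Finset ℂ) (w x : ℂ → ℝ) : IsFiniteMeasure (pm F w x) := by
  unfold pm
  constructor
  rw [Measure.finsetSum_apply]
  refine ENNReal.sum_lt_top.2 fun s _ => ?_
  simp

theorem pm_int (F : Finset ℂ) (w x : ℂ → ℝ) (f : ℝ → ℝ) : Integrable f (pm F w x) := by
  unfold pm
  rw [integrable_finsetSum_measure]
  intro s _
  exact (integrable_dirac (by simp)).smul_measure ENNReal.ofReal_ne_top

theorem pm_integral (F : Finset ℂ) (w x : ℂ → ℝ) (hw : ∀ s ∈ F, 0 ≤ w s) (f : ℝ → ℝ) :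
    ∫ y, f y ∂(pm F w x) = ∑ s ∈ F, w s * f (x s) := by
  unfold pm
  rw [integral_finsetSum_measure fun s _ => (integrable_dirac (by simp)).smul_measure ENNReal.ofReal_ne_top]
  refine Finset.sum_congr rfl fun s hs => ?_
  rw [integral_smul_measure, integral_dirac, ENNReal.toReal_ofReal (hw s hs), smul_eq_mul]

open Classical in
theorem pm_real (F : Finset ℂ) (w x : ℂ → ℝ) (hw : ∀ s ∈ F, 0 ≤ w s) (S : Set ℝ) (hS : MeasurableSet S) :
    (pm F w x).real S = ∑ s ∈ F.filter (fun s => x s ∈ S), w s := by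
  unfold pm
  rw [Measure.real, Measure.finsetSum_apply, ENNReal.toReal_sum (fun s _ => by
    rw [Measure.smul_apply, smul_eq_mul]
    exact ENNReal.mul_ne_top ENNReal.ofReal_ne_top (measure_ne_top _ _)), Finset.sum_filter]
  refine Finset.sum_congr rfl fun s hs => ?_
  rw [Measure.smul_apply, Measure.dirac_apply' _ hS, smul_eq_mul, ENNReal.toReal_mul, ENNReal.toReal_ofReal (hw s hs)]
  by_cases h : x s ∈ S
  · rw [if_pos h, Set.indicator_of_mem h]; simp
  · rw [if_neg h, Set.indicator_of_notMem h]; simp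

theorem pm_le {F G : Finset ℂ} (hFG : F ⊆ G) (w v x : ℂ → ℝ) (h : ∀ s ∈ F, w s ≤ v s) : pm F w x ≤ pm G v x := by
  unfold pm
  calc ∑ s ∈ F, ENNReal.ofReal (w s) • Measure.dirac (x s) ≤ ∑ s ∈ F, ENNReal.ofReal (v s) • Measure.dirac (x s) := by
        refine Finset.sum_le_sum fun s hs => ?_
        rw [Measure.le_iff]
        intro S _
        rw [Measure.smul_apply, Measure.smul_apply, smul_eq_mul, smul_eq_mul]
        gcongr
        exact h s hs
    _ ≤ _ := Finset.sum_le_sum_of_subset_of_nonneg hFG fun s _ _ => bot_le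

/-- `log log ⌊T^δ⌋ = log log T + O(1)` -/
theorem loglog_floor (δ : ℝ) (hδ : 0 < δ) (hδ1 : δ ≤ 1) : ∀ᶠ T : ℝ in atTop,
    Real.log (Real.log T) + Real.log (δ / 2) ≤ Real.log (Real.log ⌊T ^ δ⌋₊) ∧
    Real.log (Real.log ⌊T ^ δ⌋₊) ≤ Real.log (Real.log T) := by
  have h1 : Tendsto (fun T : ℝ => T ^ (δ / 2)) atTop atTop := tendsto_rpow_atTop (by positivity)
  filter_upwards [eventually_ge_atTop (3 : ℝ), h1.eventually_ge_atTop 2] with T hT h2
  have hT0 : 0 < T := by linarith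
  have hL0 : 0 < Real.log T := Real.log_pos (by linarith)
  have hpos : (0 : ℝ) < T ^ (δ / 2) := by positivity
  have e1 : T ^ δ = T ^ (δ / 2) * T ^ (δ / 2) := by
    rw [← Real.rpow_add hT0]; congr 1; ring
  have h3 : T ^ (δ / 2) ≤ (⌊T ^ δ⌋₊ : ℝ) := by
    have h4 := Nat.lt_floor_add_one (T ^ δ)
    have h5 : T ^ (δ / 2) + 1 ≤ T ^ δ := by
      rw [e1]; nlinarith
    linarith
  have h6 : (⌊T ^ δ⌋₊ : ℝ) ≤ T ^ δ := Nat.floor_le (by positivity)
  have h7 : δ / 2 * Real.log T ≤ Real.log ⌊T ^ δ⌋₊ := by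
    rw [← Real.log_rpow hT0]
    exact Real.log_le_log hpos h3
  have h8 : Real.log ⌊T ^ δ⌋₊ ≤ Real.log T := by
    apply Real.log_le_log (by linarith)
    refine h6.trans ?_
    calc T ^ δ ≤ T ^ (1 : ℝ) := Real.rpow_le_rpow_of_exponent_le (by linarith) hδ1
      _ = T := Real.rpow_one T
  have h9 : 0 < δ / 2 * Real.log T := by positivity
  constructor
  · rw [add_comm, ← Real.log_mul (by positivity) hL0.ne']
    exact Real.log_le_log h9 h7
  · exact Real.log_le_log (by linarith) h8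

/-- the ratio of the standard deviations tends to one -/
theorem ratio_one (δ : ℝ) (hδ : 0 < δ) (hδ1 : δ ≤ 1) : ∀ r : ℝ, 0 < r → r < 1 → ∀ᶠ T : ℝ in atTop,
    0 < Real.sqrt (Real.log (Real.log T) / 2) ∧ 0 < Real.sqrt (Real.log (Real.log ⌊T ^ δ⌋₊) / 2) ∧
    Real.sqrt (Real.log (Real.log ⌊T ^ δ⌋₊) / 2) ≤ Real.sqrt (Real.log (Real.log T) / 2) ∧
    r * Real.sqrt (Real.log (Real.log T) / 2) ≤ Real.sqrt (Real.log (Real.log ⌊T ^ δ⌋₊) / 2) := by
  intro r hr0 hr1
  have hll : Tendsto (fun T : ℝ => Real.log (Real.log T)) atTop atTop :=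
    Real.tendsto_log_atTop.comp Real.tendsto_log_atTop
  have hr2 : 0 < 1 - r ^ 2 := by nlinarith
  filter_upwards [loglog_floor δ hδ hδ1, hll.eventually_ge_atTop (1 + -Real.log (δ / 2)), hll.eventually_ge_atTop 1,
    hll.eventually_ge_atTop (-Real.log (δ / 2) / (1 - r ^ 2))] with T ⟨h1, h2⟩ h3 h4 h5
  have h6 : 1 ≤ Real.log (Real.log ⌊T ^ δ⌋₊) := by linarith
  refine ⟨Real.sqrt_pos.2 (by linarith), Real.sqrt_pos.2 (by linarith), Real.sqrt_le_sqrt (by linarith), ?_⟩
  apply Real.le_sqrt_of_sq_le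
  rw [mul_pow, Real.sq_sqrt (by linarith)]
  rw [div_le_iff₀ hr2] at h5
  nlinarith

end

end Pool.Agent.Q97.UM
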