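import Pool.Agent.Q97.UM.Law3
import Mathlib.Topology.Order.IntermediateValue

set_option autoImplicit false

/-! Project UM11: general intervals, and the upper bound at the isolated zeros. -/

namespace Pool.Agent.Q97.UM

open Filter Topology MeasureTheory Complex ProbabilityTheory

noncomputable section

/-- near Gaussian moments imply near Gaussian measure from above -/
def UB (S : Set ℝ) (ε : ℝ) : Prop := ∃ (K : ℕ) (ε' : ℝ), 0 < ε' ∧ ∀ μ : Measure ℝ, IsFiniteMeasure μ →
    (∀ k : ℕ, k ≤ K → Integrable (fun x : ℝ => x ^ k) μ ∧ |(∫ x, x ^ k ∂μ) - ∫ x, x ^ k ∂(gaussianReal 0 1)| ≤ ε') →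
    μ.real S ≤ (gaussianReal 0 1).real S + ε

theorem gam_neg : (gaussianReal 0 1).map (fun x : ℝ => -x) = gaussianReal 0 1 := by
  have := gaussianReal_map_neg (μ := (0 : ℝ)) (v := (1 : NNReal))
  simpa using this

theorem gam_odd (k : ℕ) : (-1 : ℝ) ^ k * ∫ x, x ^ k ∂(gaussianReal 0 1) = ∫ x, x ^ k ∂(gaussianReal 0 1) := by
  conv_rhs => rw [← gam_neg]
  rw [integral_map (by fun_prop) (by fun_prop), ← integral_const_mul]
  congr 1
  funext x
  rw [← mul_pow]
  congr 1
  ring

theorem ub_Iio (hAB : S_ABU) (b ε : ℝ) (hε : 0 < ε) : UB (Set.Iio b) ε := by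
  obtain ⟨K, ε', hε', h⟩ := hAB (-b) ε hε
  refine ⟨K, ε', hε', fun μ hμ hm => ?_⟩
  have hn : Measurable (fun x : ℝ => -x) := measurable_neg
  have hfin : IsFiniteMeasure (μ.map (fun x : ℝ => -x)) := by infer_instance
  have h1 := h (μ.map (fun x : ℝ => -x)) hfin (by
    intro k hk
    obtain ⟨g1, g2⟩ := hm k hk
    have e0 : (fun x : ℝ => (-x) ^ k) = fun x => (-1 : ℝ) ^ k * x ^ k := by
      funext x; rw [← mul_pow]; congr 1; ring
    constructor
    · rw [integrable_map_measure (by fun_prop) hn.aemeasurable]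
      show Integrable (fun x : ℝ => (-x) ^ k) μ
      rw [e0]
      exact g1.const_mul _
    · rw [integral_map hn.aemeasurable (by fun_prop), e0, integral_const_mul, ← gam_odd k, ← mul_sub, abs_mul, abs_pow, abs_neg,
        abs_one, one_pow, one_mul]
      exact g2)
  have e1 : (μ.map (fun x : ℝ => -x)).real (Set.Ioi (-b)) = μ.real (Set.Iio b) := by
    rw [Measure.real, Measure.map_apply hn measurableSet_Ioi, Measure.real]
    congr 2
    ext x
    simp
  have e2 : (gaussianReal 0 1).real (Set.Ioi (-b)) = (gaussianReal 0 1).real (Set.Iio b) := by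
    conv_lhs => rw [← gam_neg]
    rw [Measure.real, Measure.map_apply hn measurableSet_Ioi, Measure.real]
    congr 2
    ext x
    simp
  rw [e1, e2] at h1
  exact h1

theorem gam_Icc_le (a η : ℝ) (hη : 0 ≤ η) : (gaussianReal 0 1).real (Set.Icc a (a + η)) ≤ η := by
  rw [Measure.real]
  apply ENNReal.toReal_le_of_le_ofReal hη
  refine (gam_le _).trans ?_
  rw [Real.volume_Icc]
  apply ENNReal.ofReal_le_ofReal
  linarith

theorem ub_Ioo (hAB : S_ABU) (a b ε : ℝ) (hab : a < b) (hε : 0 < ε) : UB (Set.Ioo a b) ε := by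
  obtain ⟨K₁, e₁, he₁, h₁⟩ := hAB a (ε / 8) (by positivity)
  obtain ⟨K₂, e₂, he₂, h₂⟩ := ub_Iio hAB (b + ε / 8) (ε / 8) (by positivity)
  refine ⟨max K₁ K₂, min (min e₁ e₂) (ε / 8), by positivity, fun μ hμ hm => ?_⟩
  have g1 := h₁ μ hμ fun k hk => ⟨(hm k (hk.trans (le_max_left _ _))).1,
    (hm k (hk.trans (le_max_left _ _))).2.trans ((min_le_left _ _).trans (min_le_left _ _))⟩
  have g2 := h₂ μ hμ fun k hk => ⟨(hm k (hk.trans (le_max_right _ _))).1,
    (hm k (hk.trans (le_max_right _ _))).2.trans ((min_le_left _ _).trans (min_le_right _ _))⟩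
  have g3 := (hm 0 (Nat.zero_le _)).2.trans (min_le_right _ _)
  simp only [pow_zero, integral_const, smul_eq_mul, mul_one] at g3
  have g4 : (gaussianReal 0 1).real Set.univ = 1 := by simp
  rw [g4, abs_le] at g3
  -- the measure
  have k1 : μ.real (Set.Ioo a b) + μ.real (Set.Ici b) = μ.real (Set.Ioi a) := by
    rw [← measureReal_union (by
      rw [Set.disjoint_left]
      intro x hx hx2
      exact absurd hx.2 (not_lt.2 hx2)) measurableSet_Ici]
    congr 1
    ext x
    simp only [Set.mem_union, Set.mem_Ioo, Set.mem_Ici, Set.mem_Ioi]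
    constructor
    · rintro (h | h)
      · exact h.1
      · linarith
    · intro h
      rcases lt_or_ge x b with h' | h'
      · exact Or.inl ⟨h, h'⟩
      · exact Or.inr h'
  have k2 : μ.real (Set.Iio b) + μ.real (Set.Ici b) = μ.real Set.univ := by
    rw [← measureReal_union (by
      rw [Set.disjoint_left]
      intro x hx hx2
      exact absurd (Set.mem_Iio.1 hx) (not_lt.2 hx2)) measurableSet_Ici]
    congr 1
    ext x
    simp only [Set.mem_union, Set.mem_Iio, Set.mem_Ici, Set.mem_univ, iff_true]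
    exact lt_or_ge x b
  have k3 : μ.real (Set.Iio b) ≤ μ.real (Set.Iio (b + ε / 8)) := measureReal_mono (Set.Iio_subset_Iio (by linarith))
  -- the Gaussian law
  set G := gaussianReal 0 1 with hG
  have l1 : G.real (Set.Ioo a b) + G.real (Set.Ici b) = G.real (Set.Ioi a) := by
    rw [← measureReal_union (by
      rw [Set.disjoint_left]
      intro x hx hx2
      exact absurd hx.2 (not_lt.2 hx2)) measurableSet_Ici]
    congr 1
    ext x
    simp only [Set.mem_union, Set.mem_Ioo, Set.mem_Ici, Set.mem_Ioi]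
    constructor
    · rintro (h | h)
      · exact h.1
      · linarith
    · intro h
      rcases lt_or_ge x b with h' | h'
      · exact Or.inl ⟨h, h'⟩
      · exact Or.inr h'
  have l2 : G.real (Set.Iio b) + G.real (Set.Ici b) = 1 := by
    rw [← g4, ← measureReal_union (by
      rw [Set.disjoint_left]
      intro x hx hx2
      exact absurd (Set.mem_Iio.1 hx) (not_lt.2 hx2)) measurableSet_Ici]
    congr 1
    ext x
    simp only [Set.mem_union, Set.mem_Iio, Set.mem_Ici, Set.mem_univ, iff_true]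
    exact lt_or_ge x b
  have l3 : G.real (Set.Iio (b + ε / 8)) ≤ G.real (Set.Iio b) + ε / 8 := by
    have hsub : Set.Iio (b + ε / 8) ⊆ Set.Iio b ∪ Set.Icc b (b + ε / 8) := by
      intro x hx
      rcases lt_or_ge x b with h' | h'
      · exact Or.inl h'
      · exact Or.inr ⟨h', (Set.mem_Iio.1 hx).le⟩
    refine (measureReal_mono hsub).trans ((measureReal_union_le _ _).trans ?_)
    have := gam_Icc_le b (ε / 8) (by positivity)
    linarith
  linarith

theorem shift_low {a y x ρ η r R : ℝ} (hy : a < y) (h : |y - x * ρ| ≤ η / 2) (hr0 : 0 < r) (h1 : r ≤ ρ) (h2 : ρ ≤ 1)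
    (hR : |a| + η ≤ R) (hrR : R * (1 / r - 1) ≤ η / 2) (hη : 0 < η) : a - η < x := by
  rw [abs_le] at h
  have h3 : a - η / 2 < x * ρ := by linarith
  have hρ : 0 < ρ := lt_of_lt_of_le hr0 h1
  by_contra hcon
  push Not at hcon
  have h4 : x * ρ ≤ (a - η) * ρ := mul_le_mul_of_nonneg_right hcon hρ.le
  have hr1 : r ≤ 1 := h1.trans h2
  have h5 : (a - η) * ρ - (a - η) ≤ η / 2 := by
    have e1 : (a - η) * ρ - (a - η) = -(a - η) * (1 - ρ) := by ring
    rw [e1]
    have e2 : -(a - η) ≤ R := by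
      have := neg_abs_le a
      linarith
    have e3 : 1 - ρ ≤ 1 / r - 1 := by
      have : 1 - r ≤ 1 / r - 1 := by
        have e4 : 1 / r - 1 - (1 - r) = (1 - r) ^ 2 / r := by
          rw [eq_div_iff hr0.ne', sub_mul, sub_mul, one_div, inv_mul_cancel₀ hr0.ne']
          ring
        have : 0 ≤ (1 - r) ^ 2 / r := by positivity
        linarith
      linarith
    have hR0 : 0 ≤ R := by
      have := abs_nonneg a
      linarith
    calc -(a - η) * (1 - ρ) ≤ R * (1 - ρ) := mul_le_mul_of_nonneg_right e2 (by linarith)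
      _ ≤ R * (1 / r - 1) := mul_le_mul_of_nonneg_left e3 hR0
      _ ≤ η / 2 := hrR
  linarith

theorem shift_up {b y x ρ η r R : ℝ} (hy : y < b) (h : |y - x * ρ| ≤ η / 2) (hr0 : 0 < r) (h1 : r ≤ ρ) (h2 : ρ ≤ 1)
    (hR : |b| + η ≤ R) (hrR : R * (1 / r - 1) ≤ η / 2) (hη : 0 < η) : x < b + η := by
  have := shift_low (a := -b) (y := -y) (x := -x) (by linarith) (by
    rw [show -y - -x * ρ = -(y - x * ρ) by ring, abs_neg]; exact h) hr0 h1 h2 (by rw [abs_neg]; exact hR) hrR hη
  linarith

open Classical in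
theorem law_upg (hA : S_LAWA) (hC : S_CLZ) (S S' : Set ℝ) (hS' : MeasurableSet S') (r η ε : ℝ) (hε : 0 < ε) (hη0 : 0 < η) (hr0 : 0 < r) (hr1 : r < 1)
    (hshift : ∀ x y ρ : ℝ, |y - x * ρ| ≤ η / 2 → r ≤ ρ → ρ ≤ 1 → y ∈ S → x ∈ S') (hUB : UB S' (ε / 4))
    (hg : (gaussianReal 0 1).real S' ≤ (gaussianReal 0 1).real S + ε / 4) (d : ℝ) (hd : 0 < d) :
    ∀ᶠ T : ℝ in atTop, (((ZI d T).filter (fun s => yn T s ∈ S)).card : ℝ) ≤
      ((gaussianReal 0 1).real S + ε) * (Real.log T / (2 * Real.pi) * T) := by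
  obtain ⟨K, ε', hε', hABU⟩ := hUB
  obtain ⟨δ₂, hδ₂, hM⟩ := moments hA K ε' hε'
  obtain ⟨δ₃, hδ₃, hC⟩ := hC
  obtain ⟨δ, hδ⟩ : ∃ δ, δ = min δ₂ (min δ₃ 1) := ⟨_, rfl⟩
  have hδ0 : 0 < δ := by rw [hδ]; positivity
  have hδb : δ ≤ δ₂ := by rw [hδ]; exact min_le_left _ _
  have hδc : δ ≤ δ₃ := by rw [hδ]; exact (min_le_right _ _).trans (min_le_left _ _)
  have hδ1 : δ ≤ 1 := by rw [hδ]; exact (min_le_right _ _).trans (min_le_right _ _)
  obtain ⟨C, hC0, hC⟩ := hC δ d hδ0 hδc hd
  have hll : Tendsto (fun T : ℝ => Real.log (Real.log T)) atTop atTop :=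
    Real.tendsto_log_atTop.comp Real.tendsto_log_atTop
  filter_upwards [hM δ hδ0 hδb, hC, ratio_one δ hδ0 hδ1 r hr0 hr1, eventually_ge_atTop (3 : ℝ),
    hll.eventually_ge_atTop (C * 64 * Real.pi / (ε * η ^ 2))] with T hM hC ⟨hs1, hs2, hs3, hs4⟩ hT hLL
  set X := ⌊T ^ δ⌋₊ with hX
  set L := Real.log T with hL
  have hL0 : 0 < L := Real.log_pos (by linarith)
  have hT0 : 0 < T := by linarith
  have hpi := Real.pi_pos
  set A := L / (2 * Real.pi) * T with hAd
  have hA0 : 0 < A := by positivity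
  set sT := Real.sqrt (Real.log L / 2) with hsT
  set sX := Real.sqrt (Real.log (Real.log X) / 2) with hsX
  have hLLpos : 0 < Real.log L := by
    have := Real.sqrt_pos.1 hs1
    linarith
  have hsT2 : sT ^ 2 = Real.log L / 2 := Real.sq_sqrt (by linarith)
  have hmz := mz_ge (T := T) (by linarith)
  have hsub : ZI d T ⊆ H370.Zf riemannZeta T (2 * T) := by
    unfold ZI
    exact Finset.filter_subset _ _
  have hmom := pm_moments hA0 (fun s => RN X s.im) hM
  have h1 := hABU _ inferInstance hmom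
  rw [pm_real _ _ _ (fun s _ => by positivity) _ hS'] at h1
  set F := H370.Zf riemannZeta T (2 * T) with hF
  set G1 := (ZI d T).filter (fun s => RN X s.im ∈ S') with hG1
  have h2 : (G1.card : ℝ) ≤ ((gaussianReal 0 1).real S' + ε / 4) * A := by
    have e1 : (G1.card : ℝ) / A ≤ ∑ s ∈ F.filter (fun s => RN X s.im ∈ S'), (mz s : ℝ) / A := by
      calc (G1.card : ℝ) / A = ∑ s ∈ G1, 1 / A := by rw [Finset.sum_const, nsmul_eq_mul]; ring
        _ ≤ ∑ s ∈ G1, (mz s : ℝ) / A := by
            refine Finset.sum_le_sum fun s hs => ?_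
            rw [hG1, Finset.mem_filter] at hs
            have := hmz s (hsub hs.1)
            gcongr
        _ ≤ _ := by
            refine Finset.sum_le_sum_of_subset_of_nonneg ?_ fun s _ _ => by positivity
            intro s hs
            rw [hG1, Finset.mem_filter] at hs
            rw [Finset.mem_filter]
            exact ⟨hsub hs.1, hs.2⟩
    have e2 := e1.trans h1
    rwa [div_le_iff₀ hA0] at e2
  -- the exceptional zeros
  set D : ℂ → ℝ := fun s => Real.log ‖deriv riemannZeta s‖ - Real.log L - (dp X (pc X) s.im).re with hD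
  have h3 := cheb (ZI d T) D (η / 2 * sT) (C * (L * T)) (by positivity) hC.1
  set G2 := (ZI d T).filter (fun s => η / 2 * sT < |D s|) with hG2
  have h4 : (G2.card : ℝ) ≤ ε / 4 * A := by
    refine h3.trans ?_
    rw [div_le_iff₀ (by positivity), mul_pow, hsT2]
    rw [div_le_iff₀ (by positivity)] at hLL
    have e1 : ε / 4 * A * ((η / 2) ^ 2 * (Real.log L / 2)) = (L * T) / (64 * Real.pi) * (Real.log L * (ε * η ^ 2)) := by
      rw [hAd]; field_simp; ring
    rw [e1]
    have e2 : C * (L * T) = (L * T) / (64 * Real.pi) * (C * 64 * Real.pi) := by field_simp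
    rw [e2]
    gcongr
  have h5 : (ZI d T).filter (fun s => yn T s ∈ S) ⊆ G1 ∪ G2 := by
    intro s hs
    rw [Finset.mem_filter] at hs
    obtain ⟨hs5, hs8⟩ := hs
    by_cases h6 : η / 2 * sT < |D s|
    · refine Finset.mem_union_right _ ?_
      rw [hG2, Finset.mem_filter]
      exact ⟨hs5, h6⟩
    · refine Finset.mem_union_left _ ?_
      push Not at h6
      rw [hG1, Finset.mem_filter]
      refine ⟨hs5, ?_⟩
      set P := (dp X (pc X) s.im).re with hPd
      have e1 : RN X s.im = P / sX := rfl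
      have e2 : yn T s = RN X s.im * (sX / sT) + D s / sT := by
        rw [e1]
        show (Real.log ‖deriv riemannZeta s‖ - Real.log L) / sT = _
        have : D s = Real.log ‖deriv riemannZeta s‖ - Real.log L - P := rfl
        rw [this]
        field_simp
        ring
      have e3 : |D s / sT| ≤ η / 2 := by
        rw [abs_div, abs_of_pos hs1, div_le_iff₀ hs1]
        exact h6
      have e4 : sX / sT ≤ 1 := by rw [div_le_one hs1]; exact hs3
      have e5 : r ≤ sX / sT := by rw [le_div_iff₀ hs1]; exact hs4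
      refine hshift (RN X s.im) (yn T s) (sX / sT) ?_ e5 e4 hs8
      rw [e2, add_sub_cancel_left]
      exact e3
  have h6 : ((((ZI d T).filter (fun s => yn T s ∈ S)).card : ℕ) : ℝ) ≤ (G1.card : ℝ) + (G2.card : ℝ) := by
    exact_mod_cast (Finset.card_le_card h5).trans (Finset.card_union_le _ _)
  set g0 := (gaussianReal 0 1).real S with hg0
  set g1 := (gaussianReal 0 1).real S' with hg1
  have h9 : (g1 + ε / 4) * A + ε / 4 * A ≤ (g0 + ε) * A := by
    have : (g1 + ε / 4) * A + ε / 4 * A = (g1 + ε / 2) * A := by ring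
    rw [this]
    apply mul_le_mul_of_nonneg_right _ hA0.le
    linarith
  linarith

theorem exists_r (R η : ℝ) (hR : 0 < R) (hη : 0 < η) : ∃ r : ℝ, 0 < r ∧ r < 1 ∧ R * (1 / r - 1) ≤ η / 2 := by
  refine ⟨1 / (1 + η / (2 * R)), by positivity, ?_, ?_⟩
  · rw [div_lt_one (by positivity)]
    have : 0 < η / (2 * R) := by positivity
    linarith
  · rw [one_div_one_div, add_sub_cancel_left]
    apply le_of_eq
    field_simp

theorem ordc {I : Set ℝ} (hI : I.OrdConnected) : I = ∅ ∨ I = Set.univ ∨ (∃ a, Set.Ioi a ⊆ I ∧ I ⊆ Set.Ici a) ∨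
    (∃ b, Set.Iio b ⊆ I ∧ I ⊆ Set.Iic b) ∨ ∃ a b, Set.Ioo a b ⊆ I ∧ I ⊆ Set.Icc a b := by
  have h := hI.isPreconnected.mem_intervals
  simp only [Set.mem_insert_iff, Set.mem_singleton_iff] at h
  set a := sInf I
  set b := sSup I
  rcases h with h | h | h | h | h | h | h | h | h | h
  · exact Or.inr (Or.inr (Or.inr (Or.inr ⟨a, b, by rw [h]; exact Set.Ioo_subset_Icc_self, by rw [h]⟩)))
  · exact Or.inr (Or.inr (Or.inr (Or.inr ⟨a, b, by rw [h]; exact Set.Ioo_subset_Ico_self, by rw [h]; exact Set.Ico_subset_Icc_self⟩)))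
  · exact Or.inr (Or.inr (Or.inr (Or.inr ⟨a, b, by rw [h]; exact Set.Ioo_subset_Ioc_self, by rw [h]; exact Set.Ioc_subset_Icc_self⟩)))
  · exact Or.inr (Or.inr (Or.inr (Or.inr ⟨a, b, by rw [h], by rw [h]; exact Set.Ioo_subset_Icc_self⟩)))
  · exact Or.inr (Or.inr (Or.inl ⟨a, by rw [h]; exact Set.Ioi_subset_Ici_self, by rw [h]⟩))
  · exact Or.inr (Or.inr (Or.inl ⟨a, by rw [h], by rw [h]; exact Set.Ioi_subset_Ici_self⟩))
  · exact Or.inr (Or.inr (Or.inr (Or.inl ⟨b, by rw [h]; exact Set.Iio_subset_Iic_self, by rw [h]⟩)))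
  · exact Or.inr (Or.inr (Or.inr (Or.inl ⟨b, by rw [h], by rw [h]; exact Set.Iio_subset_Iic_self⟩)))
  · exact Or.inr (Or.inl h)
  · exact Or.inl h

open Classical in
/-- the upper bound, for all intervals, at the isolated zeros -/
theorem law_I_up (hA : S_LAWA) (hC : S_CLZ) (hAB : S_ABU) {I : Set ℝ} (hI : I.OrdConnected) (ε : ℝ) (hε : 0 < ε) (d : ℝ) (hd : 0 < d) :
    ∀ᶠ T : ℝ in atTop, (((ZI d T).filter (fun s => yn T s ∈ I)).card : ℝ) ≤
      ((gaussianReal 0 1).real I + ε) * (Real.log T / (2 * Real.pi) * T) := by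
  obtain ⟨η, hη⟩ : ∃ η, η = ε / 16 := ⟨_, rfl⟩
  have hη0 : 0 < η := by rw [hη]; positivity
  have hub_univ : UB Set.univ (ε / 4) := by
    refine ⟨0, ε / 4, by positivity, fun μ hμ hm => ?_⟩
    have g3 := (hm 0 le_rfl).2
    simp only [pow_zero, integral_const, smul_eq_mul, mul_one] at g3
    rw [abs_le] at g3
    linarith [g3.2]
  rcases ordc hI with h | h | ⟨a, h1, h2⟩ | ⟨b, h1, h2⟩ | ⟨a, b, h1, h2⟩
  · filter_upwards [eventually_ge_atTop (1 : ℝ)] with T hT
    rw [h]
    have hpi := Real.pi_pos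
    have : 0 ≤ Real.log T := Real.log_nonneg hT
    simp only [Set.mem_empty_iff_false, Finset.filter_false, Finset.card_empty, Nat.cast_zero]
    positivity
  · rw [h]
    exact law_upg hA hC Set.univ Set.univ MeasurableSet.univ (1 / 2) 1 ε hε one_pos (by norm_num) (by norm_num)
      (fun _ _ _ _ _ _ _ => Set.mem_univ _) hub_univ (by linarith) d hd
  · obtain ⟨r, hr0, hr1, hr⟩ := exists_r (|a| + 3 * η) η (by positivity) hη0
    refine law_upg hA hC I (Set.Ioi (a - η - η)) measurableSet_Ioi r η ε hε hη0 hr0 hr1 ?_ (hAB _ _ (by positivity)) ?_ d hd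
    · intro x y ρ g1 g2 g3 g4
      have := h2 g4
      rw [Set.mem_Ici] at this
      rw [Set.mem_Ioi]
      refine shift_low (by linarith) g1 hr0 g2 g3 ?_ hr hη0
      have := abs_sub a η
      rw [abs_of_pos hη0] at this
      linarith
    · have e1 := gam_Ioi (a - η) η hη0.le
      have e2 := gam_Ioi a η hη0.le
      have e3 : (gaussianReal 0 1).real (Set.Ioi a) ≤ (gaussianReal 0 1).real I := measureReal_mono h1
      linarith
  · obtain ⟨r, hr0, hr1, hr⟩ := exists_r (|b| + 3 * η) η (by positivity) hη0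
    refine law_upg hA hC I (Set.Iio (b + η + η)) measurableSet_Iio r η ε hε hη0 hr0 hr1 ?_ (ub_Iio hAB _ _ (by positivity)) ?_ d hd
    · intro x y ρ g1 g2 g3 g4
      have := h2 g4
      rw [Set.mem_Iic] at this
      rw [Set.mem_Iio]
      refine shift_up (by linarith) g1 hr0 g2 g3 ?_ hr hη0
      have := abs_add_le b η
      rw [abs_of_pos hη0] at this
      linarith
    · have hsub : Set.Iio (b + η + η) ⊆ Set.Iio b ∪ Set.Icc b (b + 2 * η) := by
        intro x hx
        rcases lt_or_ge x b with h' | h'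
        · exact Or.inl h'
        · exact Or.inr ⟨h', by have := Set.mem_Iio.1 hx; linarith⟩
      have e1 := (measureReal_mono hsub (μ := gaussianReal 0 1)).trans (measureReal_union_le _ _)
      have e2 := gam_Icc_le b (2 * η) (by positivity)
      have e3 : (gaussianReal 0 1).real (Set.Iio b) ≤ (gaussianReal 0 1).real I := measureReal_mono h1
      linarith
  · rcases lt_or_ge b a with hba | hab
    · filter_upwards [eventually_ge_atTop (1 : ℝ)] with T hT
      have hIe : I = ∅ := by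
        rw [Set.Icc_eq_empty (not_le.2 hba)] at h2
        exact Set.subset_empty_iff.1 h2
      rw [hIe]
      have hpi := Real.pi_pos
      have : 0 ≤ Real.log T := Real.log_nonneg hT
      simp only [Set.mem_empty_iff_false, Finset.filter_false, Finset.card_empty, Nat.cast_zero]
      positivity
    obtain ⟨r, hr0, hr1, hr⟩ := exists_r (|a| + |b| + 3 * η) η (by positivity) hη0
    refine law_upg hA hC I (Set.Ioo (a - η - η) (b + η + η)) measurableSet_Ioo r η ε hε hη0 hr0 hr1 ?_
      (ub_Ioo hAB _ _ _ (by linarith) (by positivity)) ?_ d hd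
    · intro x y ρ g1 g2 g3 g4
      have := h2 g4
      rw [Set.mem_Icc] at this
      have k1 := abs_sub a η
      have k2 := abs_add_le b η
      rw [abs_of_pos hη0] at k1 k2
      have k3 := abs_nonneg a
      have k4 := abs_nonneg b
      exact ⟨shift_low (by linarith) g1 hr0 g2 g3 (by linarith) hr hη0, shift_up (by linarith) g1 hr0 g2 g3 (by linarith) hr hη0⟩
    · have hsub : Set.Ioo (a - η - η) (b + η + η) ⊆ Set.Ioo a b ∪ (Set.Icc (a - 2 * η) (a - 2 * η + 2 * η) ∪ Set.Icc b (b + 2 * η)) := by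
        intro x hx
        rcases lt_or_ge a x with h' | h'
        · rcases lt_or_ge x b with h'' | h''
          · exact Or.inl ⟨h', h''⟩
          · exact Or.inr (Or.inr ⟨h'', by have := hx.2; linarith⟩)
        · exact Or.inr (Or.inl ⟨by have := hx.1; linarith, by linarith⟩)
      have e1 := (measureReal_mono hsub (μ := gaussianReal 0 1)).trans (measureReal_union_le _ _)
      have e4 := measureReal_union_le (μ := gaussianReal 0 1) (Set.Icc (a - 2 * η) (a - 2 * η + 2 * η)) (Set.Icc b (b + 2 * η))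
      have e2 := gam_Icc_le b (2 * η) (by positivity)
      have e5 := gam_Icc_le (a - 2 * η) (2 * η) (by positivity)
      have e3 : (gaussianReal 0 1).real (Set.Ioo a b) ≤ (gaussianReal 0 1).real I := measureReal_mono h1
      linarith

theorem inner {I : Set ℝ} (hI : I.OrdConnected) (ε : ℝ) (hε : 0 < ε) (h : ε < (gaussianReal 0 1).real I) :
    ∃ a b : ℝ, a < b ∧ Set.Ioo a b ⊆ I ∧ (gaussianReal 0 1).real I ≤ (gaussianReal 0 1).real (Set.Ioo a b) + ε := by
  have hm : MeasurableSet I := hI.measurableSet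
  have hr : ENNReal.ofReal ((gaussianReal 0 1).real I - ε) < gaussianReal 0 1 I := by
    rw [ENNReal.ofReal_lt_iff_lt_toReal (by linarith) (measure_ne_top _ _)]
    show (gaussianReal 0 1).real I - ε < (gaussianReal 0 1).real I
    linarith
  obtain ⟨K, hKI, hK, hKm⟩ := hm.exists_lt_isCompact hr
  have hne : K.Nonempty := by
    rw [Set.nonempty_iff_ne_empty]
    rintro rfl
    simp at hKm
  have ha : sInf K ∈ K := hK.sInf_mem hne
  have hb : sSup K ∈ K := hK.sSup_mem hne
  set a := sInf K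
  set b := sSup K
  have hsub : K ⊆ Set.Icc a b := fun x hx => ⟨csInf_le hK.bddBelow hx, le_csSup hK.bddAbove hx⟩
  have hicc : Set.Icc a b ⊆ I := hI.out (hKI ha) (hKI hb)
  have hns : NullSingletonClass (gaussianReal 0 1) := by
    have h0 : (1 : NNReal) ≠ 0 := one_ne_zero
    exact nullSingletonClass_gaussianReal h0
  have hio : gaussianReal 0 1 (Set.Ioo a b) = gaussianReal 0 1 (Set.Icc a b) := measure_congr Ioo_ae_eq_Icc
  have h3 : ENNReal.ofReal ((gaussianReal 0 1).real I - ε) < gaussianReal 0 1 (Set.Ioo a b) := by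
    rw [hio]
    exact hKm.trans_le (measure_mono hsub)
  refine ⟨a, b, ?_, Set.Ioo_subset_Icc_self.trans hicc, ?_⟩
  · by_contra hcon
    push Not at hcon
    rw [Set.Ioo_eq_empty (not_lt.2 hcon)] at h3
    simp at h3
  · rw [ENNReal.ofReal_lt_iff_lt_toReal (by linarith) (measure_ne_top _ _)] at h3
    have h4 : (gaussianReal 0 1).real I - ε < (gaussianReal 0 1).real (Set.Ioo a b) := h3
    linarith

open Classical in
/-- the lower bound, for all intervals -/
theorem law_I_low (hA : S_LAWA) (hP : S_LAWP) (hC : S_CLZ) (hAB : S_ABS) {I : Set ℝ} (hI : I.OrdConnected) (ε : ℝ) (hε : 0 < ε) :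
    ∃ d : ℝ, 0 < d ∧ d ≤ 1 ∧ ∀ᶠ T : ℝ in atTop,
    ((2 - H370.cMTinv) * (gaussianReal 0 1).real I - ε) * (Real.log T / (2 * Real.pi) * T) ≤
    (((ZI d T).filter (fun s => yn T s ∈ I)).card : ℝ) := by
  have hc2 := H370.cMTinv_lt
  have hc1 := H370.cMTinv_gt_one
  rcases lt_or_ge (ε / 2) ((gaussianReal 0 1).real I) with h | h
  · obtain ⟨a, b, hab, hsub, h1⟩ := inner hI (ε / 2) (by positivity) h
    obtain ⟨d, hd0, hd1, h2⟩ := law_iso hA hP hC hAB a b (ε / 2) hab (by positivity)
    refine ⟨d, hd0, hd1, ?_⟩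
    filter_upwards [h2, eventually_ge_atTop (1 : ℝ)] with T h2 hT
    have hpi := Real.pi_pos
    have hL : 0 ≤ Real.log T := Real.log_nonneg hT
    have h3 : (((ZI d T).filter (fun s => a < yn T s ∧ yn T s < b)).card : ℝ) ≤
        (((ZI d T).filter (fun s => yn T s ∈ I)).card : ℝ) := by
      have : (ZI d T).filter (fun s => a < yn T s ∧ yn T s < b) ⊆ (ZI d T).filter (fun s => yn T s ∈ I) := by
        intro s hs
        rw [Finset.mem_filter] at hs ⊢
        exact ⟨hs.1, hsub hs.2⟩
      exact_mod_cast Finset.card_le_card this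
    refine le_trans ?_ (h2.trans h3)
    apply mul_le_mul_of_nonneg_right _ (by positivity)
    have : (2 - H370.cMTinv) * (gaussianReal 0 1).real I ≤ (2 - H370.cMTinv) * ((gaussianReal 0 1).real (Set.Ioo a b) + ε / 2) := by
      apply mul_le_mul_of_nonneg_left h1 (by linarith)
    nlinarith
  · refine ⟨1, one_pos, le_rfl, ?_⟩
    filter_upwards [eventually_ge_atTop (1 : ℝ)] with T hT
    have hpi := Real.pi_pos
    have hL : 0 ≤ Real.log T := Real.log_nonneg hT
    have h1 : (2 - H370.cMTinv) * (gaussianReal 0 1).real I - ε ≤ 0 := by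
      have h0 : 0 ≤ (gaussianReal 0 1).real I := measureReal_nonneg
      nlinarith
    have h2 : ((2 - H370.cMTinv) * (gaussianReal 0 1).real I - ε) * (Real.log T / (2 * Real.pi) * T) ≤ 0 :=
      mul_nonpos_of_nonpos_of_nonneg h1 (by positivity)
    exact h2.trans (Nat.cast_nonneg _)

end

end Pool.Agent.Q97.UM
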