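import Pool.Agent.Q97.UM.Gw

set_option autoImplicit false

/-! Projects UM14, UM15: laws at the zeros, in general. -/

namespace Pool.Agent.Q97.UM

open Filter Topology MeasureTheory Complex ProbabilityTheory

noncomputable section

/-- Gaussian moments of `x δ T` over all the zeros -/
def XM (x : ℝ → ℝ → ℂ → ℝ) : Prop := ∀ (K : ℕ) (ε : ℝ), 0 < ε → ∃ δ₁ : ℝ, 0 < δ₁ ∧ ∀ δ : ℝ, 0 < δ → δ ≤ δ₁ → ∀ᶠ T : ℝ in atTop,
  ∀ k : ℕ, k ≤ K → |(∑ s ∈ H370.Zf riemannZeta T (2 * T), (mz s : ℝ) * x δ T s ^ k) -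
    (∫ x, x ^ k ∂(gaussianReal 0 1)) * AT T| ≤ ε * AT T

/-- squares of polynomials over the sets `G d T`, from below -/
def XP (κ : ℝ) (G : ℝ → ℝ → Finset ℂ) (x : ℝ → ℝ → ℂ → ℝ) : Prop := ∀ (p : Polynomial ℝ) (ε : ℝ), 0 < ε →
  ∃ d δ₁ : ℝ, 0 < d ∧ d ≤ 1 ∧ 0 < δ₁ ∧ ∀ δ : ℝ, 0 < δ → δ ≤ δ₁ → ∀ᶠ T : ℝ in atTop,
  (κ * (∫ x, p.eval x ^ 2 ∂(gaussianReal 0 1)) - ε) * AT T ≤ ∑ s ∈ G d T, p.eval (x δ T s) ^ 2

open Classical in
/-- `y T` is close to `x δ T` on the sets `G d T` -/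
def XG (G : ℝ → ℝ → Finset ℂ) (x : ℝ → ℝ → ℂ → ℝ) (y : ℝ → ℂ → ℝ) : Prop := ∃ δ₂ : ℝ, 0 < δ₂ ∧ ∀ δ d : ℝ, 0 < δ → δ ≤ δ₂ → 0 < d →
  ∀ η ε : ℝ, 0 < η → 0 < ε → ∀ᶠ T : ℝ in atTop, (((G d T).filter (fun s => η < |y T s - x δ T s|)).card : ℝ) ≤ ε * AT T

open Classical in
/-- `y T` is close to `x δ T` at almost all zeros -/
def XC (x : ℝ → ℝ → ℂ → ℝ) (y : ℝ → ℂ → ℝ) : Prop := ∃ δ₂ : ℝ, 0 < δ₂ ∧ ∀ δ : ℝ, 0 < δ → δ ≤ δ₂ →
  ∀ η ε : ℝ, 0 < η → 0 < ε → ∀ᶠ T : ℝ in atTop,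
    ∑ s ∈ (H370.Zf riemannZeta T (2 * T)).filter (fun s => η < |y T s - x δ T s|), (mz s : ℝ) ≤ ε * AT T

theorem AT_pos {T : ℝ} (hT : 3 ≤ T) : 0 < AT T := by
  have hpi := Real.pi_pos
  have : 0 < Real.log T := Real.log_pos (by linarith)
  unfold AT
  positivity

open Classical in
theorem xg_of_xc {G : ℝ → ℝ → Finset ℂ} {x : ℝ → ℝ → ℂ → ℝ} {y : ℝ → ℂ → ℝ} (hG : ∀ d T, G d T ⊆ H370.Zf riemannZeta T (2 * T))
    (h : XC x y) : XG G x y := by
  obtain ⟨δ₂, h0, h⟩ := h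
  refine ⟨δ₂, h0, fun δ d hδ hδ2 _ η ε hη hε => ?_⟩
  filter_upwards [h δ hδ hδ2 η ε hη hε, eventually_ge_atTop (1 : ℝ)] with T h hT
  refine le_trans ?_ h
  have hmz := mz_ge (T := T) hT
  calc (((G d T).filter (fun s => η < |y T s - x δ T s|)).card : ℝ) = ∑ s ∈ (G d T).filter (fun s => η < |y T s - x δ T s|), (1 : ℝ) := by
        rw [Finset.sum_const, nsmul_eq_mul, mul_one]
    _ ≤ ∑ s ∈ (G d T).filter (fun s => η < |y T s - x δ T s|), (mz s : ℝ) :=
        Finset.sum_le_sum fun s hs => hmz s (hG d T (Finset.mem_filter.1 hs).1)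
    _ ≤ _ := Finset.sum_le_sum_of_subset_of_nonneg (Finset.filter_subset_filter _ (hG d T)) fun s _ _ => by positivity

open Classical in
/-- the lower bound for bounded open intervals -/
theorem xl_iso {κ : ℝ} (hκ0 : 0 ≤ κ) (hκ1 : κ ≤ 1) {G : ℝ → ℝ → Finset ℂ} {x : ℝ → ℝ → ℂ → ℝ} {y : ℝ → ℂ → ℝ}
    (hG : ∀ d T, G d T ⊆ H370.Zf riemannZeta T (2 * T)) (hM : XM x) (hP : XP κ G x) (hC : XG G x y) (hAB : S_ABS)
    (a b ε : ℝ) (hab : a < b) (hε : 0 < ε) :
    ∃ d : ℝ, 0 < d ∧ d ≤ 1 ∧ ∀ᶠ T : ℝ in atTop,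
    (κ * (gaussianReal 0 1).real (Set.Ioo a b) - ε) * AT T ≤ (((G d T).filter (fun s => y T s ∈ Set.Ioo a b)).card : ℝ) := by
  obtain ⟨η, hη⟩ : ∃ η, η = min (ε / 16) ((b - a) / 4) := ⟨_, rfl⟩
  have hη0 : 0 < η := by
    rw [hη]
    have : 0 < b - a := by linarith
    positivity
  have hη1 : η ≤ ε / 16 := by rw [hη]; exact min_le_left _ _
  have hη2 : η ≤ (b - a) / 4 := by rw [hη]; exact min_le_right _ _
  obtain ⟨K, p, ε', hε', hK, hABS⟩ := hAB (a + η) (b - η) (ε / 4) (by linarith) (by positivity)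
  obtain ⟨d, δ₁, hd0, hd1, hδ₁, hP⟩ := hP p ε' hε'
  obtain ⟨δ₂, hδ₂, hM⟩ := hM K ε' hε'
  obtain ⟨δ₃, hδ₃, hC⟩ := hC
  obtain ⟨δ, hδ⟩ : ∃ δ, δ = min δ₁ (min δ₂ δ₃) := ⟨_, rfl⟩
  have hδ0 : 0 < δ := by rw [hδ]; positivity
  have hδa : δ ≤ δ₁ := by rw [hδ]; exact min_le_left _ _
  have hδb : δ ≤ δ₂ := by rw [hδ]; exact (min_le_right _ _).trans (min_le_left _ _)
  have hδc : δ ≤ δ₃ := by rw [hδ]; exact (min_le_right _ _).trans (min_le_right _ _)
  refine ⟨d, hd0, hd1, ?_⟩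
  filter_upwards [hP δ hδ0 hδa, hM δ hδ0 hδb, hC δ d hδ0 hδc hd0 (η / 2) (ε / 4) (by positivity) (by positivity),
    eventually_ge_atTop (3 : ℝ)] with T hP hM hC hT
  have hA0 : 0 < AT T := AT_pos hT
  set A := AT T with hAd
  have hmz := mz_ge (T := T) (by linarith)
  have hmom := pm_moments hA0 (fun s => x δ T s) hM
  have hle : pm (G d T) (fun _ => 1 / A) (fun s => x δ T s) ≤
      pm (H370.Zf riemannZeta T (2 * T)) (fun s => (mz s : ℝ) / A) (fun s => x δ T s) := by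
    refine pm_le (hG d T) _ _ _ fun s hs => ?_
    have := hmz s (hG d T hs)
    gcongr
  have h1 := hABS κ hκ0 hκ1 _ _ inferInstance hle hmom (by
    rw [pm_integral _ _ _ (fun s _ => by positivity), ← Finset.mul_sum, one_div, inv_mul_eq_div, le_div_iff₀ hA0]
    exact hP)
  rw [pm_real _ _ _ (fun s _ => by positivity) _ measurableSet_Ioo, Finset.sum_const, nsmul_eq_mul] at h1
  set G1 := (G d T).filter (fun s => x δ T s ∈ Set.Ioo (a + η) (b - η)) with hG1
  have h2 : (κ * (gaussianReal 0 1).real (Set.Ioo (a + η) (b - η)) - ε / 4) * A ≤ (G1.card : ℝ) := by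
    have := mul_le_mul_of_nonneg_right h1 hA0.le
    rw [mul_assoc, one_div, inv_mul_cancel₀ hA0.ne', mul_one] at this
    refine this.trans (le_of_eq ?_)
    rw [hG1]
    congr!
  set G2 := (G d T).filter (fun s => η / 2 < |y T s - x δ T s|) with hG2
  have h5 : G1 ⊆ ((G d T).filter (fun s => y T s ∈ Set.Ioo a b)) ∪ G2 := by
    intro s hs
    rw [hG1, Finset.mem_filter] at hs
    obtain ⟨hs5, hs6⟩ := hs
    by_cases h6 : η / 2 < |y T s - x δ T s|
    · refine Finset.mem_union_right _ ?_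
      rw [hG2, Finset.mem_filter]
      exact ⟨hs5, h6⟩
    · refine Finset.mem_union_left _ ?_
      push Not at h6
      rw [Finset.mem_filter]
      refine ⟨hs5, ?_⟩
      rw [abs_le] at h6
      have g1 := hs6.1
      have g2 := hs6.2
      constructor <;> linarith [h6.1, h6.2]
  have h6 : (G1.card : ℝ) ≤ ((((G d T).filter (fun s => y T s ∈ Set.Ioo a b)).card : ℕ) : ℝ) + (G2.card : ℝ) := by
    exact_mod_cast (Finset.card_le_card h5).trans (Finset.card_union_le _ _)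
  have h7 := gam_Ioo a b η hη0.le
  set g0 := (gaussianReal 0 1).real (Set.Ioo a b) with hg0
  set g1 := (gaussianReal 0 1).real (Set.Ioo (a + η) (b - η)) with hg1
  have h8 : κ * g0 ≤ κ * g1 + ε / 8 := by
    have : κ * g0 ≤ κ * (g1 + 2 * η) := by gcongr
    nlinarith
  have h9 : (κ * g0 - ε) * A ≤ (κ * g1 - ε / 4) * A - ε / 4 * A := by
    have : (κ * g1 - ε / 4) * A - ε / 4 * A = (κ * g1 - ε / 2) * A := by ring
    rw [this]
    apply mul_le_mul_of_nonneg_right _ hA0.le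
    linarith
  linarith

open Classical in
/-- the lower bound for all intervals -/
theorem xl_low {κ : ℝ} (hκ0 : 0 ≤ κ) (hκ1 : κ ≤ 1) {G : ℝ → ℝ → Finset ℂ} {x : ℝ → ℝ → ℂ → ℝ} {y : ℝ → ℂ → ℝ}
    (hG : ∀ d T, G d T ⊆ H370.Zf riemannZeta T (2 * T)) (hM : XM x) (hP : XP κ G x) (hC : XG G x y) (hAB : S_ABS)
    {I : Set ℝ} (hI : I.OrdConnected) (ε : ℝ) (hε : 0 < ε) :
    ∃ d : ℝ, 0 < d ∧ d ≤ 1 ∧ ∀ᶠ T : ℝ in atTop,
    (κ * (gaussianReal 0 1).real I - ε) * AT T ≤ (((G d T).filter (fun s => y T s ∈ I)).card : ℝ) := by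
  rcases lt_or_ge (ε / 2) ((gaussianReal 0 1).real I) with h | h
  · obtain ⟨a, b, hab, hsub, h1⟩ := inner hI (ε / 2) (by positivity) h
    obtain ⟨d, hd0, hd1, h2⟩ := xl_iso hκ0 hκ1 hG hM hP hC hAB a b (ε / 2) hab (by positivity)
    refine ⟨d, hd0, hd1, ?_⟩
    filter_upwards [h2, eventually_ge_atTop (3 : ℝ)] with T h2 hT
    have hA0 := AT_pos hT
    have h3 : (((G d T).filter (fun s => y T s ∈ Set.Ioo a b)).card : ℝ) ≤
        (((G d T).filter (fun s => y T s ∈ I)).card : ℝ) := by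
      have : (G d T).filter (fun s => y T s ∈ Set.Ioo a b) ⊆ (G d T).filter (fun s => y T s ∈ I) := by
        intro s hs
        rw [Finset.mem_filter] at hs ⊢
        exact ⟨hs.1, hsub hs.2⟩
      exact_mod_cast Finset.card_le_card this
    refine le_trans ?_ (h2.trans h3)
    apply mul_le_mul_of_nonneg_right _ hA0.le
    have : κ * (gaussianReal 0 1).real I ≤ κ * ((gaussianReal 0 1).real (Set.Ioo a b) + ε / 2) := by
      apply mul_le_mul_of_nonneg_left h1 hκ0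
    nlinarith
  · refine ⟨1, one_pos, le_rfl, ?_⟩
    filter_upwards [eventually_ge_atTop (3 : ℝ)] with T hT
    have hA0 := AT_pos hT
    have h1 : κ * (gaussianReal 0 1).real I - ε ≤ 0 := by
      have h0 : 0 ≤ (gaussianReal 0 1).real I := measureReal_nonneg
      nlinarith
    have h2 : (κ * (gaussianReal 0 1).real I - ε) * AT T ≤ 0 :=
      mul_nonpos_of_nonpos_of_nonneg h1 hA0.le
    exact h2.trans (Nat.cast_nonneg _)

open Classical in
theorem xa_upg {x : ℝ → ℝ → ℂ → ℝ} {y : ℝ → ℂ → ℝ} (hM : XM x) (hC : XC x y) (S S' : Set ℝ) (hS' : MeasurableSet S') (η ε : ℝ)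
    (hε : 0 < ε) (hη0 : 0 < η) (hshift : ∀ u v : ℝ, |v - u| ≤ η → v ∈ S → u ∈ S') (hUB : UB S' (ε / 4))
    (hg : (gaussianReal 0 1).real S' ≤ (gaussianReal 0 1).real S + ε / 4) :
    ∀ᶠ T : ℝ in atTop, ∑ s ∈ (H370.Zf riemannZeta T (2 * T)).filter (fun s => y T s ∈ S), (mz s : ℝ) ≤
      ((gaussianReal 0 1).real S + ε) * AT T := by
  obtain ⟨K, ε', hε', hABU⟩ := hUB
  obtain ⟨δ₂, hδ₂, hM⟩ := hM K ε' (by positivity)
  obtain ⟨δ₃, hδ₃, hC⟩ := hC
  obtain ⟨δ, hδ⟩ : ∃ δ, δ = min δ₂ δ₃ := ⟨_, rfl⟩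
  have hδ0 : 0 < δ := by rw [hδ]; positivity
  have hδb : δ ≤ δ₂ := by rw [hδ]; exact min_le_left _ _
  have hδc : δ ≤ δ₃ := by rw [hδ]; exact min_le_right _ _
  filter_upwards [hM δ hδ0 hδb, hC δ hδ0 hδc η (ε / 4) hη0 (by positivity), eventually_ge_atTop (3 : ℝ)] with T hM hC hT
  have hA0 : 0 < AT T := AT_pos hT
  set A := AT T with hAA
  have hmom := pm_moments hA0 (fun s => x δ T s) hM
  have h1 := hABU _ inferInstance hmom
  rw [pm_real _ _ _ (fun s hs => by positivity) _ hS'] at h1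
  set F := H370.Zf riemannZeta T (2 * T) with hF
  have h2 : ∑ s ∈ F.filter (fun s => x δ T s ∈ S'), (mz s : ℝ) ≤ ((gaussianReal 0 1).real S' + ε / 4) * A := by
    rw [← Finset.sum_div, div_le_iff₀ hA0] at h1
    exact h1
  have h5 : F.filter (fun s => y T s ∈ S) ⊆ F.filter (fun s => x δ T s ∈ S') ∪ F.filter (fun s => η < |y T s - x δ T s|) := by
    intro s hs
    rw [Finset.mem_filter] at hs
    obtain ⟨hs5, hs8⟩ := hs
    by_cases h6 : η < |y T s - x δ T s|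
    · refine Finset.mem_union_right _ ?_
      rw [Finset.mem_filter]
      exact ⟨hs5, h6⟩
    · refine Finset.mem_union_left _ ?_
      push Not at h6
      rw [Finset.mem_filter]
      exact ⟨hs5, hshift _ _ h6 hs8⟩
  have h6 : ∑ s ∈ F.filter (fun s => y T s ∈ S), (mz s : ℝ) ≤
      ∑ s ∈ F.filter (fun s => x δ T s ∈ S'), (mz s : ℝ) + ∑ s ∈ F.filter (fun s => η < |y T s - x δ T s|), (mz s : ℝ) := by
    have g1 : ∑ s ∈ F.filter (fun s => y T s ∈ S), (mz s : ℝ) ≤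
        ∑ s ∈ F.filter (fun s => x δ T s ∈ S') ∪ F.filter (fun s => η < |y T s - x δ T s|), (mz s : ℝ) :=
      Finset.sum_le_sum_of_subset_of_nonneg h5 fun s hs _ => by positivity
    refine g1.trans ?_
    rw [← Finset.sum_union_inter]
    have : 0 ≤ ∑ s ∈ F.filter (fun s => x δ T s ∈ S') ∩ F.filter (fun s => η < |y T s - x δ T s|), (mz s : ℝ) :=
      Finset.sum_nonneg fun s hs => by positivity
    linarith
  set g0 := (gaussianReal 0 1).real S with hg0
  set g1 := (gaussianReal 0 1).real S' with hg1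
  have h9 : (g1 + ε / 4) * A + (ε / 4) * A ≤ (g0 + ε) * A := by
    have : (g1 + ε / 4) * A + (ε / 4) * A = (g1 + ε / 2) * A := by ring
    rw [this]
    apply mul_le_mul_of_nonneg_right _ hA0.le
    linarith
  linarith

open Classical in
/-- the upper bound, for all intervals -/
theorem xa_I_up {x : ℝ → ℝ → ℂ → ℝ} {y : ℝ → ℂ → ℝ} (hM : XM x) (hC : XC x y) (hAB : S_ABU) {I : Set ℝ} (hI : I.OrdConnected)
    (ε : ℝ) (hε : 0 < ε) :
    ∀ᶠ T : ℝ in atTop, ∑ s ∈ (H370.Zf riemannZeta T (2 * T)).filter (fun s => y T s ∈ I), (mz s : ℝ) ≤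
      ((gaussianReal 0 1).real I + ε) * AT T := by
  obtain ⟨η, hη⟩ : ∃ η, η = ε / 16 := ⟨_, rfl⟩
  have hη0 : 0 < η := by rw [hη]; positivity
  have hub_univ : UB Set.univ (ε / 4) := by
    refine ⟨0, ε / 4, by positivity, fun μ hμ hm => ?_⟩
    have g3 := (hm 0 le_rfl).2
    simp only [pow_zero, integral_const, smul_eq_mul, mul_one] at g3
    rw [abs_le] at g3
    linarith [g3.2]
  have hempty : I = ∅ → ∀ᶠ T : ℝ in atTop, ∑ s ∈ (H370.Zf riemannZeta T (2 * T)).filter (fun s => y T s ∈ I), (mz s : ℝ) ≤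
      ((gaussianReal 0 1).real I + ε) * AT T := by
    intro h
    filter_upwards [eventually_ge_atTop (3 : ℝ)] with T hT
    rw [h]
    have hA0 := AT_pos hT
    simp only [Set.mem_empty_iff_false, Finset.filter_false, Finset.sum_empty]
    positivity
  rcases ordc hI with h | h | ⟨a, h1, h2⟩ | ⟨b, h1, h2⟩ | ⟨a, b, h1, h2⟩
  · exact hempty h
  · rw [h]
    exact xa_upg hM hC Set.univ Set.univ MeasurableSet.univ 1 ε hε one_pos (fun _ _ _ _ => Set.mem_univ _) hub_univ (by linarith)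
  · refine xa_upg hM hC I (Set.Ioi (a - η - η)) measurableSet_Ioi η ε hε hη0 ?_ (hAB _ _ (by positivity)) ?_
    · intro u v g1 g4
      have := h2 g4
      rw [Set.mem_Ici] at this
      rw [Set.mem_Ioi]
      rw [abs_le] at g1
      linarith [g1.2]
    · have e1 := gam_Ioi (a - η) η hη0.le
      have e2 := gam_Ioi a η hη0.le
      have e3 : (gaussianReal 0 1).real (Set.Ioi a) ≤ (gaussianReal 0 1).real I := measureReal_mono h1
      linarith
  · refine xa_upg hM hC I (Set.Iio (b + η + η)) measurableSet_Iio η ε hε hη0 ?_ (ub_Iio hAB _ _ (by positivity)) ?_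
    · intro u v g1 g4
      have := h2 g4
      rw [Set.mem_Iic] at this
      rw [Set.mem_Iio]
      rw [abs_le] at g1
      linarith [g1.1]
    · have hsub : Set.Iio (b + η + η) ⊆ Set.Iio b ∪ Set.Icc b (b + 2 * η) := by
        intro x hx
        rcases lt_or_ge x b with h' | h'
        · exact Or.inl h'
        · exact Or.inr ⟨h', by have := Set.mem_Iio.1 hx; linarith⟩
      have e1 := (measureReal_mono hsub (μ := gaussianReal 0 1)).trans (measureReal_union_le _ _)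
      have e2 := gam_Icc_le b (2 * η) (by positivity)
      have e3 : (gaussianReal 0 1).real (Set.Iio b) ≤ (gaussianReal 0 1).real I := measureReal_mono h1
      linarith
  · rcases lt_or_ge b a with hba | hab
    · apply hempty
      rw [Set.Icc_eq_empty (not_le.2 hba)] at h2
      exact Set.subset_empty_iff.1 h2
    refine xa_upg hM hC I (Set.Ioo (a - η - η) (b + η + η)) measurableSet_Ioo η ε hε hη0 ?_
      (ub_Ioo hAB _ _ _ (by linarith) (by positivity)) ?_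
    · intro u v g1 g4
      have := h2 g4
      rw [Set.mem_Icc] at this
      rw [abs_le] at g1
      constructor <;> linarith [g1.1, g1.2, this.1, this.2]
    · have hsub : Set.Ioo (a - η - η) (b + η + η) ⊆ Set.Ioo a b ∪ (Set.Icc (a - 2 * η) (a - 2 * η + 2 * η) ∪ Set.Icc b (b + 2 * η)) := by
        intro x hx
        rcases lt_or_ge a x with h' | h'
        · rcases lt_or_ge x b with h'' | h''
          · exact Or.inl ⟨h', h''⟩
          · exact Or.inr (Or.inr ⟨h'', by have := hx.2; linarith⟩)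
        · exact Or.inr (Or.inl ⟨by have := hx.1; linarith, by linarith⟩)
      have e1 := (measureReal_mono hsub (μ := gaussianReal 0 1)).trans (measureReal_union_le _ _)
      have e4 := measureReal_union_le (μ := gaussianReal 0 1) (Set.Icc (a - 2 * η) (a - 2 * η + 2 * η)) (Set.Icc b (b + 2 * η))
      have e2 := gam_Icc_le b (2 * η) (by positivity)
      have e5 := gam_Icc_le (a - 2 * η) (2 * η) (by positivity)
      have e3 : (gaussianReal 0 1).real (Set.Ioo a b) ≤ (gaussianReal 0 1).real I := measureReal_mono h1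
      linarith

open Classical in
/-- the law at all the zeros -/
theorem xa_law {x : ℝ → ℝ → ℂ → ℝ} {y : ℝ → ℂ → ℝ} (hM : XM x) (hC : XC x y) (hAB : S_ABU) {I : Set ℝ} (hI : I.OrdConnected)
    (ε : ℝ) (hε : 0 < ε) :
    ∀ᶠ T : ℝ in atTop, |(∑ s ∈ (H370.Zf riemannZeta T (2 * T)).filter (fun s => y T s ∈ I), (mz s : ℝ)) -
      (gaussianReal 0 1).real I * AT T| ≤ ε * AT T := by
  obtain ⟨Ls, Rs, hLc, hRc, hm, hcov⟩ := compl_ord hI
  obtain ⟨δ₁, hδ₁, htot⟩ := hM 0 (ε / 4) (by positivity)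
  filter_upwards [xa_I_up hM hC hAB hI (ε / 4) (by positivity), xa_I_up hM hC hAB hLc (ε / 4) (by positivity),
    xa_I_up hM hC hAB hRc (ε / 4) (by positivity), htot δ₁ hδ₁ le_rfl, eventually_ge_atTop (3 : ℝ)] with T h1 h2 h3 h4 hT
  have hA0 : 0 < AT T := AT_pos hT
  have h4 := h4 0 le_rfl
  simp only [pow_zero, mul_one, integral_const, smul_eq_mul, probReal_univ, one_mul] at h4
  rw [abs_le] at h4
  set F := H370.Zf riemannZeta T (2 * T) with hF
  set g := (gaussianReal 0 1).real I with hg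
  set gL := (gaussianReal 0 1).real Ls with hgL
  set gR := (gaussianReal 0 1).real Rs with hgR
  have h5 : ∑ s ∈ F, (mz s : ℝ) ≤ ∑ s ∈ F.filter (fun s => y T s ∈ I), (mz s : ℝ) + (∑ s ∈ F.filter (fun s => y T s ∈ Ls), (mz s : ℝ) +
      ∑ s ∈ F.filter (fun s => y T s ∈ Rs), (mz s : ℝ)) := by
    rw [Finset.sum_filter, Finset.sum_filter, Finset.sum_filter, ← Finset.sum_add_distrib, ← Finset.sum_add_distrib]
    refine Finset.sum_le_sum fun s hs => ?_
    have hws : (0 : ℝ) ≤ mz s := Nat.cast_nonneg _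
    by_cases g1 : y T s ∈ I
    · rw [if_pos g1]
      have k1 : 0 ≤ (if y T s ∈ Ls then (mz s : ℝ) else 0) := by split_ifs <;> linarith
      have k2 : 0 ≤ (if y T s ∈ Rs then (mz s : ℝ) else 0) := by split_ifs <;> linarith
      linarith
    · rw [if_neg g1]
      rcases hcov _ g1 with g2 | g2
      · rw [if_pos g2]
        have k2 : 0 ≤ (if y T s ∈ Rs then (mz s : ℝ) else 0) := by split_ifs <;> linarith
        linarith
      · rw [if_pos g2]
        have k1 : 0 ≤ (if y T s ∈ Ls then (mz s : ℝ) else 0) := by split_ifs <;> linarith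
        linarith
  have h7 : (gL + gR) * AT T ≤ (1 - g) * AT T := by
    apply mul_le_mul_of_nonneg_right _ hA0.le
    exact hm
  have hεA : 0 < ε * AT T := mul_pos hε hA0
  rw [abs_le]
  constructor
  · nlinarith [h4.1]
  · nlinarith

end

end Pool.Agent.Q97.UM
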