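import Pool.Agent.Q97.UM.Pcw

set_option autoImplicit false

/-! Project UM12: the two laws. -/

namespace Pool.Agent.Q97.UM

open Filter Topology MeasureTheory Complex ProbabilityTheory

noncomputable section

open Classical in
/-- the law of the local mean over all the zeros -/
theorem zero_law (hA : S_LAWA) (hC : S_CLA) (hAB : S_ABU) {I : Set ℝ} (hI : I.OrdConnected) (ε : ℝ) (hε : 0 < ε) :
    ∀ᶠ T : ℝ in atTop, |(∑ s ∈ (H370.Zf riemannZeta T (2 * T)).filter (fun s => VN T s ∈ I), (mz s : ℝ)) -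
      (gaussianReal 0 1).real I * AT T| ≤ ε * AT T := by
  have hGM : GM 1 (fun _ s => (mz s : ℝ)) := by
    intro q e he
    obtain ⟨δ₁, h1, h2⟩ := hA q e he
    refine ⟨δ₁, h1, fun δ h3 h4 => ?_⟩
    filter_upwards [h2 δ h3 h4] with T h5
    rw [one_mul]
    exact h5
  have hCW : CW (fun _ s => (mz s : ℝ)) VN := by
    refine cw_of_dom hC 1 zero_le_one fun η hη => ?_
    filter_upwards [eventually_ge_atTop (16 : ℝ)] with T hT s hs
    have h1 := SSw_le hT η hη s.im
    have h2 : (mz s : ℝ) * (1 / (1 + Real.log T * |s.im - s.im|) ^ 2) ≤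
        ∑ s' ∈ H370.Zf riemannZeta T (2 * T), (mz s' : ℝ) * (1 / (1 + Real.log T * |s'.im - s.im|) ^ 2) :=
      Finset.single_le_sum (f := fun s' => (mz s' : ℝ) * (1 / (1 + Real.log T * |s'.im - s.im|) ^ 2))
        (fun s' _ => by positivity) hs
    have h3 : (mz s : ℝ) * (1 / (1 + Real.log T * |s.im - s.im|) ^ 2) = (mz s : ℝ) := by simp
    rw [h3] at h2
    have h4 := mz_ge (T := T) (by linarith) s hs
    have h5 : 1 ≤ SS η T s.im := by linarith
    nlinarith
  have h := gw_law one_pos hGM hCW (Eventually.of_forall fun T s _ => Nat.cast_nonneg _) hAB hI ε hε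
  filter_upwards [h] with T h
  rw [one_mul] at h
  exact h

theorem fR_add {R S : ℝ → ℝ} {D M D' M' : ℝ} (hR : Tst R D M) (hS : Tst S D' M') (c x : ℝ) :
    fR (fun α => R α + c * S α) x = fR R x + c * fR S x := by
  have hcR : Continuous R := by
    have : LipschitzWith (Real.toNNReal D) R := by
      refine LipschitzWith.of_dist_le_mul fun x y => ?_
      rw [Real.dist_eq, Real.dist_eq]
      refine (hR.lip x y).trans ?_
      gcongr
      exact Real.le_coe_toNNReal D
    exact this.continuous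
  have hcS : Continuous S := by
    have : LipschitzWith (Real.toNNReal D') S := by
      refine LipschitzWith.of_dist_le_mul fun x y => ?_
      rw [Real.dist_eq, Real.dist_eq]
      refine (hS.lip x y).trans ?_
      gcongr
      exact Real.le_coe_toNNReal D'
    exact this.continuous
  unfold fR
  rw [← intervalIntegral.integral_const_mul, ← intervalIntegral.integral_add]
  · refine intervalIntegral.integral_congr fun α _ => ?_
    ring
  · apply Continuous.intervalIntegrable
    fun_prop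
  · apply Continuous.intervalIntegrable
    fun_prop

theorem Tst_cont {R : ℝ → ℝ} {D M : ℝ} (hR : Tst R D M) : Continuous R := by
  have : LipschitzWith (Real.toNNReal D) R := by
    refine LipschitzWith.of_dist_le_mul fun x y => ?_
    rw [Real.dist_eq, Real.dist_eq]
    refine (hR.lip x y).trans ?_
    gcongr
    exact Real.le_coe_toNNReal D
  exact this.continuous

theorem kap_add {R S : ℝ → ℝ} {D M D' M' : ℝ} (hR : Tst R D M) (hS : Tst S D' M') (c lam : ℝ) :
    kap (fun α => R α + c * S α) lam = kap R lam + c * kap S lam := by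
  have hcR := Tst_cont hR
  have hcS := Tst_cont hS
  unfold kap
  have e1 : ∫ α in (0 : ℝ)..1, α * (R α + c * S α) = (∫ α in (0 : ℝ)..1, α * R α) + c * ∫ α in (0 : ℝ)..1, α * S α := by
    rw [← intervalIntegral.integral_const_mul, ← intervalIntegral.integral_add]
    · refine intervalIntegral.integral_congr fun α _ => ?_
      ring
    · apply Continuous.intervalIntegrable
      fun_prop
    · apply Continuous.intervalIntegrable
      fun_prop
  rw [e1]
  ring

theorem pw_add {R S : ℝ → ℝ} {D M D' M' : ℝ} (hR : Tst R D M) (hS : Tst S D' M') (c lam T : ℝ) (s : ℂ) :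
    pw (fun α => R α + c * S α) lam T s = pw R lam T s + c * pw S lam T s := by
  unfold pw
  have e1 : ∀ s' ∈ H370.Zf riemannZeta T (2 * T), (mz s' : ℝ) * fR (fun α => R α + c * S α) (lam * Real.log T * (s.im - s'.im)) =
      (mz s' : ℝ) * fR R (lam * Real.log T * (s.im - s'.im)) + c * ((mz s' : ℝ) * fR S (lam * Real.log T * (s.im - s'.im))) := by
    intro s' _
    rw [fR_add hR hS]
    ring
  rw [Finset.sum_congr rfl e1, Finset.sum_add_distrib, ← Finset.mul_sum]
  ring

theorem Tst_add {R S : ℝ → ℝ} {D M D' M' : ℝ} (hR : Tst R D M) (hS : Tst S D' M') (c : ℝ) (hc : 0 ≤ c) :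
    Tst (fun α => R α + c * S α) (D + c * D') (M + c * M') := by
  constructor
  · intro x y
    have h1 := hR.lip x y
    have h2 := hS.lip x y
    calc |R x + c * S x - (R y + c * S y)| = |(R x - R y) + c * (S x - S y)| := by ring_nf
      _ ≤ |R x - R y| + |c * (S x - S y)| := abs_add_le _ _
      _ ≤ D * |x - y| + c * (D' * |x - y|) := by
          rw [abs_mul, abs_of_nonneg hc]
          gcongr
      _ = _ := by ring
  · intro x
    show R (-x) + c * S (-x) = R x + c * S x
    rw [hR.even, hS.even]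
  · intro x hx
    show R x + c * S x = 0
    rw [hR.supp x hx, hS.supp x hx]
    ring
  · intro x
    rw [fR_add hR hS]
    have h1 := hR.dec x
    have h2 := hS.dec x
    calc |fR R x + c * fR S x| ≤ |fR R x| + |c * fR S x| := abs_add_le _ _
      _ ≤ M / (1 + x ^ 2) + c * (M' / (1 + x ^ 2)) := by
          rw [abs_mul, abs_of_nonneg hc]
          gcongr
      _ = _ := by ring

theorem kap_Rg {lam : ℝ} (h0 : 0 < lam) (h1 : lam < 1) : 2 ≤ kap Rg lam := by
  unfold kap
  have e1 : Rg 0 = 2 := by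
    unfold Rg
    simp
    norm_num
  have e2 : 0 ≤ ∫ α in (0 : ℝ)..1, α * Rg α :=
    intervalIntegral.integral_nonneg (by norm_num) fun u hu => mul_nonneg hu.1 (Rg_nonneg u)
  rw [e1]
  have e3 : 2 ≤ 2 / lam := by
    rw [le_div_iff₀ h0]
    linarith
  have e4 : 0 ≤ 2 * lam * ∫ α in (0 : ℝ)..1, α * Rg α := by positivity
  linarith

open Classical in
theorem pair_law_nonneg (hW : S_WID) (hC : S_CLA) (hAB : S_ABU) (hRH : RHz) {R : ℝ → ℝ} {D M lam : ℝ} (hR : Tst R D M) (h0 : 0 < lam)
    (h1 : lam < 1) (hpos : ∀ x, 0 ≤ fR R x) (hκ : 0 < kap R lam) {I : Set ℝ} (hI : I.OrdConnected) (ε : ℝ) (hε : 0 < ε) :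
    ∀ᶠ T : ℝ in atTop, |(∑ s ∈ (H370.Zf riemannZeta T (2 * T)).filter (fun s => VN T s ∈ I), pw R lam T s) -
      kap R lam * (gaussianReal 0 1).real I * AT T| ≤ ε * AT T := by
  have hM : 0 ≤ M := by
    have := (abs_nonneg _).trans (hR.dec 0)
    simpa using this
  have hCW : CW (pw R lam) VN := by
    refine cw_of_dom hC (2 * M / lam ^ 2) (by positivity) fun η hη => ?_
    filter_upwards [eventually_ge_atTop (16 : ℝ)] with T hT s hs
    exact (le_abs_self _).trans (pw_abs hR h0 h1.le hT η hη s)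
  refine gw_law hκ (gm_pw hW hRH R D M lam hR h0 h1) hCW (Eventually.of_forall fun T s _ => ?_) hAB hI ε hε
  unfold pw
  exact mul_nonneg (Nat.cast_nonneg _) (Finset.sum_nonneg fun s' _ => mul_nonneg (Nat.cast_nonneg _) (hpos _))

open Classical in
/-- the pair sums and the local mean -/
theorem pair_law (hW : S_WID) (hC : S_CLA) (hAB : S_ABU) (hRH : RHz) {R : ℝ → ℝ} {D M lam : ℝ} (hR : Tst R D M) (h0 : 0 < lam)
    (h1 : lam < 1) {I : Set ℝ} (hI : I.OrdConnected) (ε : ℝ) (hε : 0 < ε) :
    ∀ᶠ T : ℝ in atTop, |(∑ s ∈ (H370.Zf riemannZeta T (2 * T)).filter (fun s => VN T s ∈ I), pw R lam T s) -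
      kap R lam * (gaussianReal 0 1).real I * AT T| ≤ ε * AT T := by
  have hM : 0 ≤ M := by
    have := (abs_nonneg _).trans (hR.dec 0)
    simpa using this
  have hpi := Real.pi_pos
  obtain ⟨c, hc⟩ : ∃ c, c = M * Real.pi ^ 2 + |kap R lam| + 1 := ⟨_, rfl⟩
  have hc0 : 0 < c := by rw [hc]; positivity
  have hkg := kap_Rg h0 h1
  have hgpos : ∀ x, 0 ≤ fR Rg x := fun x => by
    have h2 : 0 ≤ 4 / (x ^ 2 + Real.pi ^ 2) := by positivity
    exact h2.trans (fRg_ge x)
  have h1pos : ∀ x, 0 ≤ fR (fun α => R α + c * Rg α) x := by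
    intro x
    rw [fR_add hR Tst_Rg]
    have e1 := fRg_ge x
    have e2 := (abs_le.1 (hR.dec x)).1
    have e3 : M / (1 + x ^ 2) ≤ c * (4 / (x ^ 2 + Real.pi ^ 2)) := by
      rw [mul_div_assoc', div_le_div_iff₀ (by positivity) (by positivity)]
      have e4 : x ^ 2 + Real.pi ^ 2 ≤ Real.pi ^ 2 * (1 + x ^ 2) := by
        have : 1 ≤ Real.pi ^ 2 := by nlinarith [Real.pi_gt_three]
        nlinarith [sq_nonneg x]
      have e5 : M * Real.pi ^ 2 ≤ c * 4 := by
        rw [hc]
        have : 0 ≤ M * Real.pi ^ 2 := by positivity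
        have := abs_nonneg (kap R lam)
        linarith
      calc M * (x ^ 2 + Real.pi ^ 2) ≤ M * (Real.pi ^ 2 * (1 + x ^ 2)) := by gcongr
        _ = (M * Real.pi ^ 2) * (1 + x ^ 2) := by ring
        _ ≤ c * 4 * (1 + x ^ 2) := by gcongr
    have e6 : c * (4 / (x ^ 2 + Real.pi ^ 2)) ≤ c * fR Rg x := by gcongr
    linarith
  have hk1 : kap (fun α => R α + c * Rg α) lam = kap R lam + c * kap Rg lam := kap_add hR Tst_Rg c lam
  have hk1pos : 0 < kap (fun α => R α + c * Rg α) lam := by
    rw [hk1]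
    have e1 := neg_abs_le (kap R lam)
    have e2 : c * 2 ≤ c * kap Rg lam := by gcongr
    have e3 : |kap R lam| < c := by
      rw [hc]
      have : 0 ≤ M * Real.pi ^ 2 := by positivity
      linarith
    linarith
  have H1 := pair_law_nonneg hW hC hAB hRH (Tst_add hR Tst_Rg c hc0.le) h0 h1 h1pos hk1pos hI (ε / 2) (by positivity)
  have H2 := pair_law_nonneg hW hC hAB hRH Tst_Rg h0 h1 hgpos (by linarith) hI (ε / (2 * c)) (by positivity)
  filter_upwards [H1, H2, eventually_ge_atTop (3 : ℝ)] with T H1 H2 hT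
  have hL0 : 0 < Real.log T := Real.log_pos (by linarith)
  have hA0 : 0 < AT T := by unfold AT; positivity
  have e1 : ∑ s ∈ (H370.Zf riemannZeta T (2 * T)).filter (fun s => VN T s ∈ I), pw (fun α => R α + c * Rg α) lam T s =
      (∑ s ∈ (H370.Zf riemannZeta T (2 * T)).filter (fun s => VN T s ∈ I), pw R lam T s) +
      c * ∑ s ∈ (H370.Zf riemannZeta T (2 * T)).filter (fun s => VN T s ∈ I), pw Rg lam T s := by
    rw [Finset.mul_sum, ← Finset.sum_add_distrib]
    exact Finset.sum_congr rfl fun s _ => pw_add hR Tst_Rg c lam T s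
  rw [e1, hk1] at H1
  set S1 := ∑ s ∈ (H370.Zf riemannZeta T (2 * T)).filter (fun s => VN T s ∈ I), pw R lam T s
  set S2 := ∑ s ∈ (H370.Zf riemannZeta T (2 * T)).filter (fun s => VN T s ∈ I), pw Rg lam T s
  set g := (gaussianReal 0 1).real I
  have e2 : S1 - kap R lam * g * AT T = (S1 + c * S2 - (kap R lam + c * kap Rg lam) * g * AT T) - c * (S2 - kap Rg lam * g * AT T) := by
    ring
  have e3 : |c * (S2 - kap Rg lam * g * AT T)| ≤ ε / 2 * AT T := by
    rw [abs_mul, abs_of_pos hc0]
    calc c * |_| ≤ c * (ε / (2 * c) * AT T) := by gcongr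
      _ = ε / 2 * AT T := by field_simp
  rw [e2]
  calc _ ≤ |S1 + c * S2 - (kap R lam + c * kap Rg lam) * g * AT T| + |c * (S2 - kap Rg lam * g * AT T)| := abs_sub _ _
    _ ≤ ε / 2 * AT T + ε / 2 * AT T := add_le_add H1 e3
    _ = ε * AT T := by ring

end

end Pool.Agent.Q97.UM
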