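import Pool.Agent.Q97.UM.Lg
import Pool.Agent.Q97.UM.Pcx
import Pool.Agent.Q97.UM.Stm20

set_option autoImplicit false

/-! Projects UM14, UM15: closeness to the prime sums; distinct zeros. -/

namespace Pool.Agent.Q97.UM

open Filter Topology MeasureTheory Complex ProbabilityTheory

noncomputable section

open Classical in
theorem xc_gen {x : ℝ → ℝ → ℂ → ℝ} {y : ℝ → ℂ → ℝ} (hM : XM x) (D : ℝ → ℝ → ℂ → ℝ) (c : ℝ) (hc : 0 < c)
    (hy : ∀ δ : ℝ, 0 < δ → δ ≤ 1 → ∀ᶠ T : ℝ in atTop, ∀ s ∈ H370.Zf riemannZeta T (2 * T),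
      |y T s - x δ T s * (Real.sqrt (Real.log (Real.log ⌊T ^ δ⌋₊) / 2) / Real.sqrt (Real.log (Real.log T) / 2))| *
        Real.sqrt (Real.log (Real.log T) / 2) ≤ c * |D δ T s|)
    (hD : ∃ δ₂ : ℝ, 0 < δ₂ ∧ ∀ δ : ℝ, 0 < δ → δ ≤ δ₂ → ∃ C : ℝ, 0 ≤ C ∧ ∀ᶠ T : ℝ in atTop,
      ∑ s ∈ H370.Zf riemannZeta T (2 * T), (mz s : ℝ) * D δ T s ^ 2 ≤ C * (Real.log T * T)) : XC x y := by
  obtain ⟨δ₃, hδ₃, hD⟩ := hD
  obtain ⟨δ₂, hδ₂, hM⟩ := hM 2 1 one_pos
  refine ⟨min (min δ₂ δ₃) 1, by positivity, fun δ hδ0 hδ η ε hη hε => ?_⟩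
  have hδb : δ ≤ δ₂ := hδ.trans ((min_le_left _ _).trans (min_le_left _ _))
  have hδc : δ ≤ δ₃ := hδ.trans ((min_le_left _ _).trans (min_le_right _ _))
  have hδ1 : δ ≤ 1 := hδ.trans (min_le_right _ _)
  obtain ⟨C, hC0, hC⟩ := hD δ hδ0 hδc
  -- the large values
  obtain ⟨Q, hQ⟩ : ∃ Q, Q = 1 + |∫ x, x ^ 2 ∂(gaussianReal 0 1)| := ⟨_, rfl⟩
  have hQ0 : 0 < Q := by rw [hQ]; positivity
  obtain ⟨R, hR⟩ : ∃ R, R = 1 + 2 * Q / ε := ⟨_, rfl⟩
  have hR0 : 0 < R := by rw [hR]; positivity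
  have hR2 : Q / R ^ 2 ≤ ε / 2 := by
    rw [div_le_iff₀ (by positivity)]
    have h1 : 2 * Q / ε ≤ R := by rw [hR]; linarith
    have h2 : 1 ≤ R := by
      rw [hR]
      have : 0 ≤ 2 * Q / ε := by positivity
      linarith
    rw [div_le_iff₀ hε] at h1
    nlinarith [mul_pos hε hR0]
  obtain ⟨r, hr⟩ : ∃ r, r = 1 - min (η / (2 * R)) (1 / 2) := ⟨_, rfl⟩
  have hr0 : 0 < r := by
    rw [hr]
    have := min_le_right (η / (2 * R)) (1 / 2 : ℝ)
    linarith
  have hr1 : r < 1 := by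
    rw [hr]
    have : 0 < min (η / (2 * R)) (1 / 2 : ℝ) := by positivity
    linarith
  have hrR : R * (1 - r) ≤ η / 2 := by
    rw [hr]
    have h1 := min_le_left (η / (2 * R)) (1 / 2 : ℝ)
    calc R * (1 - (1 - min (η / (2 * R)) (1 / 2))) = R * min (η / (2 * R)) (1 / 2) := by ring
      _ ≤ R * (η / (2 * R)) := by gcongr
      _ = η / 2 := by field_simp
  have hll : Tendsto (fun T : ℝ => Real.log (Real.log T)) atTop atTop :=
    Real.tendsto_log_atTop.comp Real.tendsto_log_atTop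
  filter_upwards [hM δ hδ0 hδb, hC, hy δ hδ0 hδ1, ratio_one δ hδ0 hδ1 r hr0 hr1, eventually_ge_atTop (3 : ℝ),
    hll.eventually_ge_atTop (C * c ^ 2 * 32 * Real.pi / (ε * η ^ 2))] with T hM hC hy ⟨hs1, hs2, hs3, hs4⟩ hT hLL
  have hL0 : 0 < Real.log T := Real.log_pos (by linarith)
  have hpi := Real.pi_pos
  have hA0 : 0 < AT T := AT_pos hT
  have hAd : AT T = Real.log T / (2 * Real.pi) * T := rfl
  set L := Real.log T with hL
  set A := AT T with hAA
  set sT := Real.sqrt (Real.log L / 2) with hsT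
  set sX := Real.sqrt (Real.log (Real.log ⌊T ^ δ⌋₊) / 2) with hsX
  have hLLpos : 0 < Real.log L := by
    have := Real.sqrt_pos.1 hs1
    linarith
  have hsT2 : sT ^ 2 = Real.log L / 2 := Real.sq_sqrt (by linarith)
  set F := H370.Zf riemannZeta T (2 * T) with hF
  have hw : ∀ s ∈ F, (0 : ℝ) ≤ mz s := fun s _ => Nat.cast_nonneg _
  -- the second moment
  have h2m : ∑ s ∈ F, (mz s : ℝ) * x δ T s ^ 2 ≤ Q * A := by
    have h1 := (abs_le.1 (hM 2 le_rfl)).2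
    rw [hQ]
    have h2 : (∫ x, x ^ 2 ∂(gaussianReal 0 1)) * A ≤ |∫ x, x ^ 2 ∂(gaussianReal 0 1)| * A :=
      mul_le_mul_of_nonneg_right (le_abs_self _) hA0.le
    linarith
  have h3 := chebw F (fun s => (mz s : ℝ)) (fun s => x δ T s) R (Q * A) hR0 hw h2m
  have h3' : ∑ s ∈ F.filter (fun s => R < |x δ T s|), (mz s : ℝ) ≤ ε / 2 * A := by
    refine h3.trans ?_
    calc Q * A / R ^ 2 = Q / R ^ 2 * A := by ring
      _ ≤ ε / 2 * A := mul_le_mul_of_nonneg_right hR2 hA0.le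
  have h4 := chebw F (fun s => (mz s : ℝ)) (fun s => D δ T s) (η / 2 * sT / c) (C * (L * T)) (by positivity) hw hC
  have h4' : ∑ s ∈ F.filter (fun s => η / 2 * sT / c < |D δ T s|), (mz s : ℝ) ≤ ε / 2 * A := by
    refine h4.trans ?_
    rw [div_le_iff₀ (by positivity), div_pow, mul_pow, hsT2]
    rw [div_le_iff₀ (by positivity)] at hLL
    have e1 : ε / 2 * A * ((η / 2) ^ 2 * (Real.log L / 2) / c ^ 2) = (L * T) / (32 * Real.pi * c ^ 2) * (Real.log L * (ε * η ^ 2)) := by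
      rw [hAd]; field_simp; ring
    rw [e1]
    have e2 : C * (L * T) = (L * T) / (32 * Real.pi * c ^ 2) * (C * c ^ 2 * 32 * Real.pi) := by field_simp
    rw [e2]
    gcongr
  have h5 : F.filter (fun s => η < |y T s - x δ T s|) ⊆ F.filter (fun s => R < |x δ T s|) ∪
      F.filter (fun s => η / 2 * sT / c < |D δ T s|) := by
    intro s hs
    rw [Finset.mem_filter] at hs
    obtain ⟨hs5, hs8⟩ := hs
    by_contra hcon
    rw [Finset.mem_union, Finset.mem_filter, Finset.mem_filter] at hcon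
    push Not at hcon
    have g1 := hcon.1 hs5
    have g2 := hcon.2 hs5
    have g3 := hy s hs5
    have e4 : sX / sT ≤ 1 := by rw [div_le_one hs1]; exact hs3
    have e5 : r ≤ sX / sT := by rw [le_div_iff₀ hs1]; exact hs4
    have g4 : |y T s - x δ T s * (sX / sT)| ≤ η / 2 := by
      rw [le_div_iff₀ hc] at g2
      have : |y T s - x δ T s * (sX / sT)| * sT ≤ η / 2 * sT := by
        calc _ ≤ c * |D δ T s| := g3
          _ = |D δ T s| * c := by ring
          _ ≤ η / 2 * sT := g2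
      exact le_of_mul_le_mul_right this hs1
    have g5 : |x δ T s * (sX / sT) - x δ T s| ≤ η / 2 := by
      have : x δ T s * (sX / sT) - x δ T s = x δ T s * (sX / sT - 1) := by ring
      rw [this, abs_mul]
      have g6 : |sX / sT - 1| ≤ 1 - r := by
        rw [abs_le]; constructor <;> linarith
      exact (mul_le_mul g1 g6 (abs_nonneg _) hR0.le).trans hrR
    have g7 : |y T s - x δ T s| ≤ η := by
      have : y T s - x δ T s = (y T s - x δ T s * (sX / sT)) + (x δ T s * (sX / sT) - x δ T s) := by ring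
      rw [this]
      refine (abs_add_le _ _).trans ?_
      linarith
    linarith
  have h6 : ∑ s ∈ F.filter (fun s => η < |y T s - x δ T s|), (mz s : ℝ) ≤
      ∑ s ∈ F.filter (fun s => R < |x δ T s|), (mz s : ℝ) + ∑ s ∈ F.filter (fun s => η / 2 * sT / c < |D δ T s|), (mz s : ℝ) := by
    refine (Finset.sum_le_sum_of_subset_of_nonneg h5 fun s hs _ => by positivity).trans ?_
    rw [← Finset.sum_union_inter]
    have : 0 ≤ ∑ s ∈ F.filter (fun s => R < |x δ T s|) ∩ F.filter (fun s => η / 2 * sT / c < |D δ T s|), (mz s : ℝ) :=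
      Finset.sum_nonneg fun s hs => by positivity
    linarith
  linarith

/-- the normalised prime sum -/
def xR (δ T : ℝ) (s : ℂ) : ℝ := RN ⌊T ^ δ⌋₊ s.im

theorem xm_R (hA : S_LAWA) : XM xR := fun K ε hε => moments hA K ε hε

theorem xp_iso (hP : S_LAWP) : XP (2 - H370.cMTinv) ZI xR := hP

open Classical in
/-- the zeros on or to the left of the critical line -/
def ZL (_ T : ℝ) : Finset ℂ := (H370.Zf riemannZeta T (2 * T)).filter (fun s => s.re ≤ 1 / 2)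

theorem xp_dist (hS : S_SAMD) (hW : S_WID) : XP ((3 - H370.cMTinv) / 2) ZL xR := by
  intro p ε hε
  obtain ⟨C, hC, hW⟩ := hW (p ^ 2)
  obtain ⟨θ, hθ, hθ1, hS⟩ := hS (ε / (4 * (C + 1))) (by positivity)
  refine ⟨1, θ / ((p ^ 2).natDegree + 1), one_pos, le_rfl, by positivity, fun δ hδ hδ1 => ?_⟩
  have hX : Tendsto (fun T : ℝ => ⌊T ^ δ⌋₊) atTop atTop := tendsto_nat_floor_atTop.comp (tendsto_rpow_atTop hδ)
  have hW2 := hX.eventually (hW (ε / 2) (by positivity))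
  filter_upwards [hS, hW2, eventually_ge_atTop 3] with T hS hW hT
  have hN := floor_pow_le (T := T) (by linarith) (p ^ 2).natDegree hδ hδ1
  obtain ⟨J, a, b, h1, h2, h3⟩ := hW (⌊T ^ δ⌋₊ ^ (p ^ 2).natDegree) le_rfl
  set X := ⌊T ^ δ⌋₊ with hXd
  set N := X ^ (p ^ 2).natDegree with hNd
  have hA0 := AT_pos hT
  have hc2 := H370.cMTinv_lt
  have hc1 := H370.cMTinv_gt_one
  have h4 := hS N hN J a b (fun t => by rw [h1, Polynomial.eval_pow]; positivity)
  have h5 : ∑ s ∈ ZL 1 T, WT N a b s.im = ∑ s ∈ ZL 1 T, p.eval (xR δ T s) ^ 2 :=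
    Finset.sum_congr rfl fun s _ => by rw [h1, Polynomial.eval_pow]; rfl
  rw [← h5]
  refine le_trans ?_ h4
  have h6 : Real.log T / (2 * Real.pi) * (T * ((3 - H370.cMTinv) / 2 * MW N a b - ε / (4 * (C + 1)) * VW N a b)) =
      ((3 - H370.cMTinv) / 2 * MW N a b - ε / (4 * (C + 1)) * VW N a b) * AT T := by unfold AT; ring
  rw [h6]
  apply mul_le_mul_of_nonneg_right _ hA0.le
  have h7 : ε / (4 * (C + 1)) * VW N a b ≤ ε / 4 := by
    calc ε / (4 * (C + 1)) * VW N a b ≤ ε / (4 * (C + 1)) * C := by gcongr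
      _ ≤ ε / 4 := by
        rw [div_mul_eq_mul_div, div_le_div_iff₀ (by positivity) (by norm_num)]
        nlinarith
  have h8 : ∫ x, (p ^ 2).eval x ∂(gaussianReal 0 1) = ∫ x, p.eval x ^ 2 ∂(gaussianReal 0 1) := by
    simp only [Polynomial.eval_pow]
  rw [h8, abs_le] at h3
  set Gm := ∫ x, p.eval x ^ 2 ∂(gaussianReal 0 1) with hG
  nlinarith [h3.1, h3.2]

theorem ZL_sub (d T : ℝ) : ZL d T ⊆ H370.Zf riemannZeta T (2 * T) := by
  unfold ZL
  exact Finset.filter_subset _ _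

theorem ZI_sub (d T : ℝ) : ZI d T ⊆ H370.Zf riemannZeta T (2 * T) := by
  unfold ZI
  exact Finset.filter_subset _ _

theorem cw_all (hC : S_CLA) : CW (fun _ s => (mz s : ℝ)) VN := by
  refine cw_of_dom hC 1 zero_le_one fun η hη => ?_
  filter_upwards [eventually_ge_atTop (16 : ℝ)] with T hT s hs
  have h1 := SSw_le hT η hη s.im
  have h2 : (mz s : ℝ) * (1 / (1 + Real.log T * |s.im - s.im|) ^ 2) ≤
      ∑ s' ∈ H370.Zf riemannZeta T (2 * T), (mz s' : ℝ) * (1 / (1 + Real.log T * |s'.im - s.im|) ^ 2) :=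
    Finset.single_le_sum (f := fun s' => (mz s' : ℝ) * (1 / (1 + Real.log T * |s'.im - s.im|) ^ 2))
      (fun s' _ => by positivity) hs
  have h3 : (mz s : ℝ) * (1 / (1 + Real.log T * |s.im - s.im|) ^ 2) = (mz s : ℝ) := by simp
  rw [h3] at h2
  have h4 := mz_ge (T := T) (by linarith) s hs
  have h5 : 1 ≤ SS η T s.im := by linarith
  nlinarith

/-- the local mean of `log|ζ|` is close to the prime sum -/
theorem xc_VN (hA : S_LAWA) (hC : S_CLA) : XC xR VN := by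
  refine xc_gen (xm_R hA) (fun δ T s => VN T s * Real.sqrt (Real.log (Real.log T) / 2) - (dp ⌊T ^ δ⌋₊ (pc ⌊T ^ δ⌋₊) s.im).re) 1 one_pos
    (fun δ hδ hδ1 => ?_) (cw_all hC)
  filter_upwards [ratio_one δ hδ hδ1 (1 / 2) (by norm_num) (by norm_num)] with T ⟨hs1, hs2, hs3, hs4⟩ s hs
  set sT := Real.sqrt (Real.log (Real.log T) / 2) with hsT
  have e1 : xR δ T s * (Real.sqrt (Real.log (Real.log ⌊T ^ δ⌋₊) / 2) / sT) = (dp ⌊T ^ δ⌋₊ (pc ⌊T ^ δ⌋₊) s.im).re / sT := by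
    unfold xR RN
    field_simp
  rw [e1, one_mul]
  apply le_of_eq
  have e2 : VN T s * sT - (dp ⌊T ^ δ⌋₊ (pc ⌊T ^ δ⌋₊) s.im).re = (VN T s - (dp ⌊T ^ δ⌋₊ (pc ⌊T ^ δ⌋₊) s.im).re / sT) * sT := by
    field_simp
  rw [e2, abs_mul, abs_of_pos hs1]

end

end Pool.Agent.Q97.UM
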