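import Pool.Agent.Q97.UM.Base4

set_option autoImplicit false

/-! Project UM3: the pair sum over all zeros with ordinates in `(T, 2T]`. -/

namespace Pool.Agent.Q97.UM

open Filter Topology MeasureTheory Complex

noncomputable section

/-- the sum of `|f|` over the neighbours -/
def AgF (R : ℝ → ℝ) (lam T : ℝ) (s : ℂ) : ℝ :=
  ∑ s' ∈ H370.Zf riemannZeta T (2 * T), (mz s' : ℝ) * |fR R (lam * Real.log T * (s.im - s'.im))|

theorem AgF_bound {R : ℝ → ℝ} {D M lam : ℝ} (hR : Tst R D M) (hlam : 0 < lam) (hlam1 : lam ≤ 1) :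
    ∃ CA : ℝ, 0 < CA ∧ ∀ᶠ T : ℝ in atTop, ∀ s ∈ H370.Zf riemannZeta T (2 * T), AgF R lam T s ≤ CA * (Real.sqrt T * Real.log T) := by
  classical
  have hF := H370.good_zeta
  obtain ⟨Cn, hCn, hcr⟩ := H370.NN_crude hF
  obtain ⟨C, hC, hcnt⟩ := H370.zcount hF
  have hM := (Pool.Agent.Q16.UM3.fR_bd hR hlam hlam1 0).1
  have hml : 0 ≤ M / lam ^ 2 := by positivity
  refine ⟨M / lam ^ 2 * (6 * C + Cn) + 1, by positivity, ?_⟩
  filter_upwards [eventually_ge_atTop (16 : ℝ), Real.tendsto_log_atTop.eventually_ge_atTop 1] with T hT hL1 s hs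
  have hT0 : 0 < T := by linarith
  set L : ℝ := Real.log T with hL
  have hL0 : 0 < L := by linarith
  have hs1 := (H370.mem_Zf hF (by linarith : (1 : ℝ) ≤ T)).1 hs
  obtain ⟨a1, a2, a3, a4, a5⟩ := hs1
  set q : ℝ := Real.sqrt T with hq
  have hq2 : q ^ 2 = T := Real.sq_sqrt hT0.le
  have hq0 : 0 ≤ q := Real.sqrt_nonneg _
  have hq4 : 4 ≤ q := by
    rw [hq]
    apply Real.le_sqrt_of_sq_le
    linarith
  have hqT : q ≤ T / 4 := by nlinarith
  obtain ⟨k, hk1, hk2⟩ : ∃ k : ℕ, q + 1 ≤ k ∧ (k : ℝ) ≤ q + 2 := by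
    refine ⟨⌈q + 1⌉₊, Nat.le_ceil _, ?_⟩
    have := (Nat.ceil_lt_add_one (show 0 ≤ q + 1 by linarith)).le
    linarith
  set a : ℝ := s.im - q - 1 with ha
  have ha2 : 2 ≤ a := by rw [ha]; linarith
  have hcount : ∑ s ∈ H370.Zf riemannZeta T (2 * T), (mz s : ℝ) ≤ Cn * (T * L) := by
    have h1 := hcr T (by linarith) T (2 * T) le_rfl le_rfl
    rw [H370.NN_eq H370.good_zeta (by linarith : (1 : ℝ) ≤ T)] at h1
    push_cast at h1
    exact h1
  have hwin : ∑ s' ∈ H370.Zf riemannZeta a (a + 2 * k), (mz s' : ℝ) ≤ 2 * q * (C * (2 * L)) := by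
    have h1 := Pool.Agent.Q61.UM.NN_win hC hcnt ha2 k
    rw [H370.NN_eq hF (by linarith : (1 : ℝ) ≤ a)] at h1
    push_cast at h1
    refine (show _ ≤ _ from h1).trans ?_
    have h3 : a + 2 * k ≤ 4 * T := by rw [ha]; linarith
    have h2 : Real.log (a + 2 * k) ≤ 2 * L := by
      have h5 : Real.log (a + 2 * k) ≤ Real.log (T ^ 2) := Real.log_le_log (by positivity) (by nlinarith)
      rw [Real.log_pow] at h5
      push_cast at h5
      exact h5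
    have h4 : 0 ≤ Real.log (a + 2 * k) := Real.log_nonneg (by
      have : (0 : ℝ) ≤ k := Nat.cast_nonneg k
      linarith)
    have h5 : (k : ℝ) ≤ 2 * q := by linarith
    gcongr
  have hpt : ∀ s' ∈ H370.Zf riemannZeta T (2 * T), (mz s' : ℝ) * |fR R (lam * Real.log T * (s.im - s'.im))| ≤
      (if s' ∈ H370.Zf riemannZeta a (a + 2 * k) then M / lam ^ 2 * (mz s' : ℝ) else 0) + M / lam ^ 2 / T * (mz s' : ℝ) := by
    intro s' hs'
    have hm : (0 : ℝ) ≤ mz s' := Nat.cast_nonneg _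
    have ef : lam * Real.log T * (s.im - s'.im) = lam * (L * (s.im - s'.im)) := by rw [hL]; ring
    rw [ef]
    obtain ⟨_, hf1, hf2⟩ := Pool.Agent.Q16.UM3.fR_bd hR hlam hlam1 (L * (s.im - s'.im))
    split_ifs with h
    · have h1 := mul_le_mul_of_nonneg_left hf2 hm
      have h2 : 0 ≤ M / lam ^ 2 / T * (mz s' : ℝ) := by positivity
      linarith
    · have hs2 := (H370.mem_Zf hF (by linarith : (1 : ℝ) ≤ T)).1 hs'
      obtain ⟨b1, b2, b3, b4, b5⟩ := hs2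
      have h3 : q < |s.im - s'.im| := by
        by_contra hcon
        rw [not_lt, abs_le] at hcon
        apply h
        rw [H370.mem_Zf hF (by linarith)]
        refine ⟨b1, b2, ?_, ?_, b5⟩
        · rw [ha]; linarith [hcon.2]
        · rw [ha]; linarith [hcon.1]
      have h4 : T ≤ (L * (s.im - s'.im)) ^ 2 := by
        rw [mul_pow, ← sq_abs (s.im - s'.im)]
        have h5 : q ^ 2 ≤ |s.im - s'.im| ^ 2 := pow_le_pow_left₀ hq0 h3.le 2
        have h6 : 1 ≤ L ^ 2 := one_le_pow₀ hL1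
        nlinarith
      have h5 : 1 / (1 + (L * (s.im - s'.im)) ^ 2) ≤ 1 / T := one_div_le_one_div_of_le hT0 (by linarith)
      rw [zero_add]
      calc (mz s' : ℝ) * |fR R (lam * (L * (s.im - s'.im)))| ≤ mz s' * (M / lam ^ 2 * (1 / T)) := by
            apply mul_le_mul_of_nonneg_left _ hm
            exact hf1.trans (mul_le_mul_of_nonneg_left h5 hml)
        _ = _ := by ring
  unfold AgF
  refine (Finset.sum_le_sum hpt).trans ?_
  rw [Finset.sum_add_distrib, ← Finset.mul_sum]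
  have h1 : ∑ s' ∈ H370.Zf riemannZeta T (2 * T), (if s' ∈ H370.Zf riemannZeta a (a + 2 * k) then M / lam ^ 2 * (mz s' : ℝ) else 0) ≤
      M / lam ^ 2 * (2 * q * (C * (2 * L))) := by
    rw [← Finset.sum_filter, ← Finset.mul_sum]
    apply mul_le_mul_of_nonneg_left _ hml
    refine (Finset.sum_le_sum_of_subset_of_nonneg ?_ fun _ _ _ => Nat.cast_nonneg _).trans hwin
    intro x hx
    exact (Finset.mem_filter.1 hx).2
  have h2 : M / lam ^ 2 / T * ∑ s ∈ H370.Zf riemannZeta T (2 * T), (mz s : ℝ) ≤ M / lam ^ 2 * (Cn * L) := by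
    calc M / lam ^ 2 / T * ∑ s ∈ H370.Zf riemannZeta T (2 * T), (mz s : ℝ) ≤ M / lam ^ 2 / T * (Cn * (T * L)) := by gcongr
      _ = _ := by field_simp
  have h3 : Cn * L ≤ Cn * (q * L) := by
    have : L ≤ q * L := by nlinarith
    gcongr
  calc _ ≤ M / lam ^ 2 * (2 * q * (C * (2 * L))) + M / lam ^ 2 * (Cn * (q * L)) := by
        have := mul_le_mul_of_nonneg_left h3 hml
        linarith
    _ = M / lam ^ 2 * (4 * C + Cn) * (q * L) := by ring
    _ ≤ (M / lam ^ 2 * (6 * C + Cn) + 1) * (q * L) := by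
        apply mul_le_mul_of_nonneg_right _ (by positivity)
        have h4 : M / lam ^ 2 * (4 * C + Cn) ≤ M / lam ^ 2 * (6 * C + Cn) := by gcongr; norm_num
        linarith

theorem fR_even (R : ℝ → ℝ) (x : ℝ) : fR R (-x) = fR R x := by
  unfold fR
  refine intervalIntegral.integral_congr fun α _ => ?_
  rw [show α * -x = -(α * x) by ring, Real.cos_neg]

/-- the pair sum over all the zeros -/
def PSf (R : ℝ → ℝ) (lam T : ℝ) (N : ℕ) (b : ℕ → ℂ) : ℝ :=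
  ∑ s ∈ H370.Zf riemannZeta T (2 * T), ∑ s' ∈ H370.Zf riemannZeta T (2 * T),
    (mz s : ℝ) * (mz s' : ℝ) * ‖dp N b s.im‖ ^ 2 * fR R (lam * Real.log T * (s.im - s'.im))

/-- replacing the zeros in `(T + 1, 2T - 1]` by those in `(T, 2T]` -/
theorem PSf_ends {R : ℝ → ℝ} {D M lam : ℝ} (hR : Tst R D M) (hlam : 0 < lam) (hlam1 : lam ≤ 1) (ε : ℝ) (hε : 0 < ε) :
    ∀ᶠ T : ℝ in atTop, ∀ N : ℕ, (N : ℝ) ≤ T ^ (1 / 40 : ℝ) → ∀ b : ℕ → ℂ,
      |PSf R lam T N b - ∑ s ∈ ZT T, (mz s : ℝ) * ‖dp N b s.im‖ ^ 2 * Sg R lam T s| ≤ ε * Real.log T * (T * N2 N b) := by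
  classical
  have hF := H370.good_zeta
  obtain ⟨CA, hCA, hA⟩ := AgF_bound hR hlam hlam1
  obtain ⟨C, hC, hcnt⟩ := H370.zcount hF
  have hlim : Tendsto (fun T : ℝ => Real.log T ^ (2 : ℝ) / T ^ (1 / 4 : ℝ)) atTop (𝓝 0) :=
    (isLittleO_log_rpow_rpow_atTop (s := 1 / 4) 2 (by norm_num)).tendsto_div_nhds_zero
  have hlim2 : Tendsto (fun T : ℝ => Real.log T ^ (1 : ℝ) / T ^ (1 : ℝ)) atTop (𝓝 0) :=
    (isLittleO_log_rpow_rpow_atTop (s := 1) 1 (by norm_num)).tendsto_div_nhds_zero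
  filter_upwards [hA, eventually_ge_atTop (16 : ℝ), Real.tendsto_log_atTop.eventually_ge_atTop 1,
    hlim.eventually_le_const (show (0:ℝ) < ε / (24 * C * CA) by positivity),
    hlim2.eventually_le_const (show (0:ℝ) < 1 / 4 by norm_num)] with T hA hT hL1 h1 h2 N hN b
  have hT0 : 0 < T := by linarith
  obtain ⟨L, hL⟩ : ∃ L, L = Real.log T := ⟨_, rfl⟩
  rw [← hL] at hL1 h1 h2 hA ⊢
  have hL0 : 0 < L := by linarith
  set F0 := H370.Zf riemannZeta T (2 * T) with hF0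
  have hsub : ZT T ⊆ F0 := by
    intro s hs
    rw [ZT, H370.mem_Zf hF (by linarith)] at hs
    rw [hF0, H370.mem_Zf hF (by linarith)]
    obtain ⟨a1, a2, a3, a4, a5⟩ := hs
    exact ⟨a1, a2, by linarith, by linarith, a5⟩
  have h4L : 4 * L ≤ T := by
    rw [Real.rpow_one, Real.rpow_one, div_le_iff₀ hT0] at h2
    linarith
  have hout : ∑ s ∈ F0 \ ZT T, (mz s : ℝ) ≤ 12 * C * L ^ 2 := by
    refine le_trans ?_ (Pool.Agent.Q61.UM.outer_sum hC hcnt hL hL1 (le_refl (1:ℝ)) (by linarith) h4L)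
    refine Finset.sum_le_sum_of_subset_of_nonneg ?_ fun _ _ _ => Nat.cast_nonneg _
    intro s hs
    rw [Finset.mem_sdiff] at hs
    rw [Finset.mem_filter]
    refine ⟨hs.1, ?_⟩
    rintro ⟨c1, c2⟩
    apply hs.2
    have h5 := hs.1
    rw [hF0, H370.mem_Zf hF (by linarith)] at h5
    rw [ZT, H370.mem_Zf hF (by linarith)]
    obtain ⟨a1, a2, a3, a4, a5⟩ := h5
    exact ⟨a1, a2, by linarith, by linarith, a5⟩
  have hN2 : 0 ≤ N2 N b := by unfold N2; positivity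
  have hB : ∀ t, ‖dp N b t‖ ^ 2 ≤ N * N2 N b := fun t => (Pool.Agent.Q84.UM.t_DPM.2.2 N b t).1
  set K : ℝ := N * N2 N b with hK
  have hK0 : 0 ≤ K := by positivity
  set g : ℂ → ℂ → ℝ := fun s s' => (mz s : ℝ) * (mz s' : ℝ) * ‖dp N b s.im‖ ^ 2 * fR R (lam * L * (s.im - s'.im)) with hg
  have hfull : PSf R lam T N b = ∑ s ∈ F0, ∑ s' ∈ F0, g s s' := by
    unfold PSf
    rw [← hL]
  have hpart : ∑ s ∈ ZT T, (mz s : ℝ) * ‖dp N b s.im‖ ^ 2 * Sg R lam T s = ∑ s ∈ ZT T, ∑ s' ∈ ZT T, g s s' := by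
    refine Finset.sum_congr rfl fun s _ => ?_
    unfold Sg
    rw [← hL, Finset.mul_sum]
    refine Finset.sum_congr rfl fun s' _ => ?_
    rw [hg]; ring
  rw [hfull, hpart]
  have hsplit : ∑ s ∈ F0, ∑ s' ∈ F0, g s s' - ∑ s ∈ ZT T, ∑ s' ∈ ZT T, g s s' =
      ∑ s ∈ F0 \ ZT T, ∑ s' ∈ F0, g s s' + ∑ s ∈ ZT T, ∑ s' ∈ F0 \ ZT T, g s s' := by
    rw [← Finset.sum_sdiff hsub (f := fun s => ∑ s' ∈ F0, g s s')]
    have : ∀ s, ∑ s' ∈ F0, g s s' = ∑ s' ∈ F0 \ ZT T, g s s' + ∑ s' ∈ ZT T, g s s' := fun s =>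
      (Finset.sum_sdiff hsub).symm
    rw [Finset.sum_congr rfl fun s (_ : s ∈ ZT T) => this s, Finset.sum_add_distrib]
    ring
  rw [hsplit]
  have hgb : ∀ s s', |g s s'| ≤ K * ((mz s : ℝ) * ((mz s' : ℝ) * |fR R (lam * L * (s.im - s'.im))|)) := by
    intro s s'
    rw [hg]
    simp only
    rw [abs_mul, abs_of_nonneg (by positivity : (0:ℝ) ≤ (mz s : ℝ) * (mz s' : ℝ) * ‖dp N b s.im‖ ^ 2)]
    calc _ ≤ (mz s : ℝ) * (mz s' : ℝ) * K * |fR R (lam * L * (s.im - s'.im))| := by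
          gcongr
          exact hB _
      _ = _ := by ring
  have e1 : |∑ s ∈ F0 \ ZT T, ∑ s' ∈ F0, g s s'| ≤ K * (12 * C * L ^ 2 * (CA * (Real.sqrt T * L))) := by
    calc _ ≤ ∑ s ∈ F0 \ ZT T, ∑ s' ∈ F0, |g s s'| :=
          (Finset.abs_sum_le_sum_abs _ _).trans (Finset.sum_le_sum fun s _ => Finset.abs_sum_le_sum_abs _ _)
      _ ≤ ∑ s ∈ F0 \ ZT T, ∑ s' ∈ F0, K * ((mz s : ℝ) * ((mz s' : ℝ) * |fR R (lam * L * (s.im - s'.im))|)) :=
          Finset.sum_le_sum fun s _ => Finset.sum_le_sum fun s' _ => hgb s s'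
      _ = K * ∑ s ∈ F0 \ ZT T, (mz s : ℝ) * AgF R lam T s := by
          unfold AgF
          rw [Finset.mul_sum, ← hL]
          refine Finset.sum_congr rfl fun s _ => ?_
          rw [Finset.mul_sum, Finset.mul_sum]
      _ ≤ K * ∑ s ∈ F0 \ ZT T, (mz s : ℝ) * (CA * (Real.sqrt T * L)) := by
          apply mul_le_mul_of_nonneg_left _ hK0
          refine Finset.sum_le_sum fun s hs => ?_
          exact mul_le_mul_of_nonneg_left (hA s (Finset.mem_sdiff.1 hs).1) (Nat.cast_nonneg _)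
      _ = K * ((∑ s ∈ F0 \ ZT T, (mz s : ℝ)) * (CA * (Real.sqrt T * L))) := by rw [Finset.sum_mul]
      _ ≤ _ := by gcongr
  have e2 : |∑ s ∈ ZT T, ∑ s' ∈ F0 \ ZT T, g s s'| ≤ K * (12 * C * L ^ 2 * (CA * (Real.sqrt T * L))) := by
    calc _ ≤ ∑ s ∈ ZT T, ∑ s' ∈ F0 \ ZT T, |g s s'| :=
          (Finset.abs_sum_le_sum_abs _ _).trans (Finset.sum_le_sum fun s _ => Finset.abs_sum_le_sum_abs _ _)
      _ ≤ ∑ s ∈ F0, ∑ s' ∈ F0 \ ZT T, |g s s'| :=
          Finset.sum_le_sum_of_subset_of_nonneg hsub fun s _ _ => Finset.sum_nonneg fun s' _ => abs_nonneg _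
      _ = ∑ s' ∈ F0 \ ZT T, ∑ s ∈ F0, |g s s'| := Finset.sum_comm
      _ ≤ ∑ s' ∈ F0 \ ZT T, ∑ s ∈ F0, K * ((mz s : ℝ) * ((mz s' : ℝ) * |fR R (lam * L * (s.im - s'.im))|)) :=
          Finset.sum_le_sum fun s' _ => Finset.sum_le_sum fun s _ => hgb s s'
      _ = K * ∑ s' ∈ F0 \ ZT T, (mz s' : ℝ) * AgF R lam T s' := by
          unfold AgF
          rw [Finset.mul_sum, ← hL]
          refine Finset.sum_congr rfl fun s' _ => ?_
          rw [Finset.mul_sum, Finset.mul_sum]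
          refine Finset.sum_congr rfl fun s _ => ?_
          rw [show lam * L * (s.im - s'.im) = -(lam * L * (s'.im - s.im)) by ring, fR_even]
          ring
      _ ≤ K * ∑ s ∈ F0 \ ZT T, (mz s : ℝ) * (CA * (Real.sqrt T * L)) := by
          apply mul_le_mul_of_nonneg_left _ hK0
          refine Finset.sum_le_sum fun s hs => ?_
          exact mul_le_mul_of_nonneg_left (hA s (Finset.mem_sdiff.1 hs).1) (Nat.cast_nonneg _)
      _ = K * ((∑ s ∈ F0 \ ZT T, (mz s : ℝ)) * (CA * (Real.sqrt T * L))) := by rw [Finset.sum_mul]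
      _ ≤ _ := by gcongr
  have hNT : (N : ℝ) ≤ T ^ (1 / 4 : ℝ) := hN.trans (Real.rpow_le_rpow_of_exponent_le (by linarith) (by norm_num))
  have hTq : 0 < T ^ (1 / 4 : ℝ) := Real.rpow_pos_of_pos hT0 _
  have hsq : Real.sqrt T = T ^ (1 / 2 : ℝ) := Real.sqrt_eq_rpow T
  have h3 : L ^ 2 ≤ ε / (24 * C * CA) * T ^ (1 / 4 : ℝ) := by
    rw [div_le_iff₀ hTq] at h1
    have : L ^ (2:ℝ) = L ^ 2 := by norm_cast
    rwa [this] at h1
  have hfin : 2 * (K * (12 * C * L ^ 2 * (CA * (Real.sqrt T * L)))) ≤ ε * L * (T * N2 N b) := by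
    have hT4 : T ^ (1 / 4 : ℝ) * T ^ (1 / 4 : ℝ) * T ^ (1 / 2 : ℝ) = T := by
      rw [← Real.rpow_add hT0, ← Real.rpow_add hT0]
      norm_num
    calc 2 * (K * (12 * C * L ^ 2 * (CA * (Real.sqrt T * L)))) = 24 * C * CA * N2 N b * L * (N * L ^ 2 * Real.sqrt T) := by
          rw [hK]; ring
      _ ≤ 24 * C * CA * N2 N b * L * (T ^ (1 / 4 : ℝ) * (ε / (24 * C * CA) * T ^ (1 / 4 : ℝ)) * T ^ (1 / 2 : ℝ)) := by
          rw [hsq]
          gcongr
      _ = ε * L * ((T ^ (1 / 4 : ℝ) * T ^ (1 / 4 : ℝ) * T ^ (1 / 2 : ℝ)) * N2 N b) := by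
          field_simp
      _ = ε * L * (T * N2 N b) := by rw [hT4]
  refine (abs_add_le _ _).trans ?_
  linarith

/-- Montgomery's theorem relative to every Dirichlet polynomial, all zeros with ordinates in `(T, 2T]` -/
theorem SPCF (hRH : RHz) (R : ℝ → ℝ) (D M lam ε : ℝ) (hR : Tst R D M) (h0 : 0 < lam) (h1 : lam < 1) (hε : 0 < ε) :
    ∃ θ : ℝ, 0 < θ ∧ θ ≤ 1 / 40 ∧ ∀ᶠ T : ℝ in atTop, ∀ N : ℕ, (N : ℝ) ≤ T ^ θ → ∀ b : ℕ → ℂ,
      |PSf R lam T N b - kap R lam * (Real.log T / (2 * Real.pi)) * (T * N2 N b)| ≤ ε * Real.log T * (T * N2 N b) := by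
  obtain ⟨θ, hθ, hθ1, h⟩ := b_SPC hRH R D M lam (ε / 2) hR h0 h1 (by positivity)
  refine ⟨θ, hθ, hθ1, ?_⟩
  filter_upwards [h, PSf_ends hR h0 h1.le (ε / 2) (by positivity), eventually_ge_atTop 1] with T h2 h3 hT N hN b
  have h4 := h2 N hN b
  have h5 := h3 N (hN.trans (Real.rpow_le_rpow_of_exponent_le hT hθ1)) b
  calc _ ≤ |PSf R lam T N b - ∑ s ∈ ZT T, (mz s : ℝ) * ‖dp N b s.im‖ ^ 2 * Sg R lam T s| +
      |(∑ s ∈ ZT T, (mz s : ℝ) * ‖dp N b s.im‖ ^ 2 * Sg R lam T s) - kap R lam * (Real.log T / (2 * Real.pi)) * (T * N2 N b)| :=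
        abs_sub_le _ _ _
    _ ≤ _ := by linarith

end

end Pool.Agent.Q97.UM
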