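import Pool.Agent.Q97.UM.Gw
import Pool.Agent.Q97.UM.Pf

set_option autoImplicit false

/-! Project UM12: the weights of the pair sums. -/

namespace Pool.Agent.Q97.UM

open Filter Topology MeasureTheory Complex ProbabilityTheory

noncomputable section

/-- the weight of a zero in the pair sum -/
def pw (R : ℝ → ℝ) (lam T : ℝ) (s : ℂ) : ℝ :=
  (mz s : ℝ) * ∑ s' ∈ H370.Zf riemannZeta T (2 * T), (mz s' : ℝ) * fR R (lam * Real.log T * (s.im - s'.im))

theorem PSf_eq (R : ℝ → ℝ) (lam T : ℝ) (N : ℕ) (b : ℕ → ℂ) :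
    PSf R lam T N b = ∑ s ∈ H370.Zf riemannZeta T (2 * T), pw R lam T s * ‖dp N b s.im‖ ^ 2 := by
  unfold PSf pw
  refine Finset.sum_congr rfl fun s _ => ?_
  rw [Finset.mul_sum, Finset.sum_mul]
  refine Finset.sum_congr rfl fun s' _ => ?_
  ring

/-- Gaussian moments for the pair sums -/
theorem gm_pw (hW : S_WID) (hRH : RHz) (R : ℝ → ℝ) (D M lam : ℝ) (hR : Tst R D M) (h0 : 0 < lam) (h1 : lam < 1) :
    GM (kap R lam) (pw R lam) := by
  intro q ε hε
  obtain ⟨C, hC, hW⟩ := hW q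
  obtain ⟨θ, hθ, hθ1, hS⟩ := SPCF hRH R D M lam (ε / (16 * (C + 1))) hR h0 h1 (by positivity)
  refine ⟨θ / (q.natDegree + 1), by positivity, fun δ hδ hδ1 => ?_⟩
  have hX : Tendsto (fun T : ℝ => ⌊T ^ δ⌋₊) atTop atTop := tendsto_nat_floor_atTop.comp (tendsto_rpow_atTop hδ)
  set κ := kap R lam with hκ
  have hW2 := hX.eventually (hW (ε / (2 * (|κ| + 1))) (by positivity))
  filter_upwards [hS, hW2, eventually_ge_atTop 3] with T hS hW hT
  have hN := floor_pow_le (T := T) (by linarith) q.natDegree hδ hδ1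
  obtain ⟨J, a, b, h1, h2, h3⟩ := hW (⌊T ^ δ⌋₊ ^ q.natDegree) le_rfl
  set X := ⌊T ^ δ⌋₊ with hXd
  set N := X ^ q.natDegree with hNd
  have hL0 : 0 < Real.log T := Real.log_pos (by linarith)
  have hpi := Real.pi_pos
  have hpi4 := Real.pi_le_four
  have hA : AT T = Real.log T / (2 * Real.pi) * T := rfl
  have hA0 : 0 < AT T := by rw [hA]; positivity
  set L := Real.log T with hL
  set A := AT T with hAA
  set F := H370.Zf riemannZeta T (2 * T) with hF
  have e1 : (∑ s ∈ F, pw R lam T s * q.eval (RN X s.im)) - κ * A * MW N a b =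
      ∑ i, a i * (PSf R lam T N (b i) - κ * (L / (2 * Real.pi)) * (T * N2 N (b i))) := by
    have h4 : ∀ s ∈ F, pw R lam T s * q.eval (RN X s.im) =
        ∑ i, a i * (pw R lam T s * ‖dp N (b i) s.im‖ ^ 2) := by
      intro s _
      rw [← h1, WT, Finset.mul_sum]
      exact Finset.sum_congr rfl fun i _ => by ring
    rw [Finset.sum_congr rfl h4, Finset.sum_comm, MW, Finset.mul_sum, ← Finset.sum_sub_distrib]
    refine Finset.sum_congr rfl fun i _ => ?_
    rw [mul_sub, PSf_eq, Finset.mul_sum, hA]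
    ring
  have e2 : |(∑ s ∈ F, pw R lam T s * q.eval (RN X s.im)) - κ * A * MW N a b| ≤
      ε / (16 * (C + 1)) * L * (T * VW N a b) := by
    rw [e1]
    refine (Finset.abs_sum_le_sum_abs _ _).trans ?_
    rw [VW, Finset.mul_sum, Finset.mul_sum]
    refine Finset.sum_le_sum fun i _ => ?_
    rw [abs_mul]
    have h5 := hS N hN (b i)
    calc |a i| * |_| ≤ |a i| * (ε / (16 * (C + 1)) * L * (T * N2 N (b i))) := by gcongr
      _ = _ := by ring
  have e3 : ε / (16 * (C + 1)) * L * (T * VW N a b) ≤ ε / 2 * A := by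
    have h5 : ε / (16 * (C + 1)) * C ≤ ε / 16 := by
      rw [div_mul_eq_mul_div, div_le_div_iff₀ (by positivity) (by norm_num)]
      nlinarith
    have h6 : ε / 16 ≤ ε / 2 * (1 / (2 * Real.pi)) := by
      rw [mul_one_div, le_div_iff₀ (by positivity)]
      nlinarith
    calc ε / (16 * (C + 1)) * L * (T * VW N a b) ≤ ε / (16 * (C + 1)) * L * (T * C) := by gcongr
      _ = (ε / (16 * (C + 1)) * C) * (L * T) := by ring
      _ ≤ (ε / 2 * (1 / (2 * Real.pi))) * (L * T) := by
          apply mul_le_mul_of_nonneg_right (h5.trans h6) (by positivity)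
      _ = ε / 2 * A := by rw [hA]; ring
  have e4 : |κ * A * MW N a b - κ * (∫ x, q.eval x ∂(gaussianReal 0 1)) * A| ≤ ε / 2 * A := by
    have : κ * A * MW N a b - κ * (∫ x, q.eval x ∂(gaussianReal 0 1)) * A =
        κ * (MW N a b - ∫ x, q.eval x ∂(gaussianReal 0 1)) * A := by ring
    rw [this, abs_mul, abs_mul, abs_of_pos hA0]
    apply mul_le_mul_of_nonneg_right _ hA0.le
    calc |κ| * |_| ≤ |κ| * (ε / (2 * (|κ| + 1))) := by gcongr
      _ ≤ ε / 2 := by
        rw [mul_div_assoc', div_le_div_iff₀ (by positivity) (by norm_num)]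
        nlinarith [abs_nonneg κ]
  rw [abs_le] at *
  constructor <;> linarith [e2.1, e2.2, e4.1, e4.2]

theorem SSw_le {T : ℝ} (hT : 16 ≤ T) (η : ℝ) (hη : 0 ≤ η) (t : ℝ) :
    ∑ s' ∈ H370.Zf riemannZeta T (2 * T), (mz s' : ℝ) * (1 / (1 + Real.log T * |s'.im - t|) ^ 2) ≤ SS η T t := by
  unfold SS
  have hL : 0 ≤ Real.log T := Real.log_nonneg (by linarith)
  have hF := H370.good_zeta
  have hsub : H370.Zf riemannZeta T (2 * T) ⊆ ZD T := by
    intro s hs
    unfold ZD
    rw [H370.mem_Zf hF (by linarith)] at hs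
    rw [H370.mem_Zf hF (by linarith)]
    exact ⟨hs.1, hs.2.1, by linarith [hs.2.2.1], by linarith [hs.2.2.2.1], hs.2.2.2.2⟩
  calc _ ≤ ∑ s' ∈ H370.Zf riemannZeta T (2 * T), (mz s' : ℝ) *
        (Real.exp (2 * η * (Real.log T * |s'.re - 1 / 2|)) / (1 + Real.log T * |s'.im - t|) ^ 2) := by
        refine Finset.sum_le_sum fun s' _ => ?_
        have h1 : 1 ≤ Real.exp (2 * η * (Real.log T * |s'.re - 1 / 2|)) := Real.one_le_exp (by positivity)
        gcongr
    _ ≤ _ := Finset.sum_le_sum_of_subset_of_nonneg hsub fun s _ _ => by positivity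

/-- domination of the kernel -/
theorem fR_dom {R : ℝ → ℝ} {D M lam : ℝ} (hR : Tst R D M) (h0 : 0 < lam) (h1 : lam ≤ 1) (y : ℝ) :
    |fR R (lam * y)| ≤ 2 * M / lam ^ 2 * (1 / (1 + |y|) ^ 2) := by
  have hM : 0 ≤ M := by
    have := (abs_nonneg _).trans (hR.dec 0)
    simpa using this
  refine (hR.dec (lam * y)).trans ?_
  have h2 : (1 + |y|) ^ 2 ≤ 2 * (1 + y ^ 2) := by
    nlinarith [sq_abs y, sq_nonneg (|y| - 1)]
  have h3 : lam ^ 2 * (1 + y ^ 2) ≤ 1 + (lam * y) ^ 2 := by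
    have : lam ^ 2 ≤ 1 := by nlinarith
    nlinarith
  have hl2 : 0 < lam ^ 2 := by positivity
  rw [mul_one_div, div_div, div_le_div_iff₀ (by positivity) (by positivity)]
  calc M * (lam ^ 2 * (1 + |y|) ^ 2) ≤ M * (lam ^ 2 * (2 * (1 + y ^ 2))) := by gcongr
    _ = 2 * M * (lam ^ 2 * (1 + y ^ 2)) := by ring
    _ ≤ 2 * M * (1 + (lam * y) ^ 2) := by gcongr

theorem pw_abs {R : ℝ → ℝ} {D M lam : ℝ} (hR : Tst R D M) (h0 : 0 < lam) (h1 : lam ≤ 1) {T : ℝ} (hT : 16 ≤ T) (η : ℝ) (hη : 0 ≤ η) (s : ℂ) :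
    |pw R lam T s| ≤ 2 * M / lam ^ 2 * ((mz s : ℝ) * SS η T s.im) := by
  have hM : 0 ≤ M := by
    have := (abs_nonneg _).trans (hR.dec 0)
    simpa using this
  have hL : 0 ≤ Real.log T := Real.log_nonneg (by linarith)
  unfold pw
  rw [abs_mul, Nat.abs_cast]
  have h2 : |∑ s' ∈ H370.Zf riemannZeta T (2 * T), (mz s' : ℝ) * fR R (lam * Real.log T * (s.im - s'.im))| ≤
      2 * M / lam ^ 2 * SS η T s.im := by
    calc _ ≤ ∑ s' ∈ H370.Zf riemannZeta T (2 * T), |(mz s' : ℝ) * fR R (lam * Real.log T * (s.im - s'.im))| :=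
          Finset.abs_sum_le_sum_abs _ _
      _ ≤ ∑ s' ∈ H370.Zf riemannZeta T (2 * T), 2 * M / lam ^ 2 * ((mz s' : ℝ) * (1 / (1 + Real.log T * |s'.im - s.im|) ^ 2)) := by
          refine Finset.sum_le_sum fun s' _ => ?_
          rw [abs_mul, Nat.abs_cast]
          have h3 := fR_dom hR h0 h1 (Real.log T * (s.im - s'.im))
          rw [← mul_assoc, abs_mul, abs_of_nonneg hL, abs_sub_comm] at h3
          calc (mz s' : ℝ) * |_| ≤ (mz s' : ℝ) * (2 * M / lam ^ 2 * (1 / (1 + Real.log T * |s'.im - s.im|) ^ 2)) := by gcongr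
            _ = _ := by ring
      _ = 2 * M / lam ^ 2 * ∑ s' ∈ H370.Zf riemannZeta T (2 * T), (mz s' : ℝ) * (1 / (1 + Real.log T * |s'.im - s.im|) ^ 2) := by
          rw [Finset.mul_sum]
      _ ≤ _ := by
          apply mul_le_mul_of_nonneg_left (SSw_le hT η hη s.im) (by positivity)
  calc (mz s : ℝ) * |_| ≤ (mz s : ℝ) * (2 * M / lam ^ 2 * SS η T s.im) := by gcongr
    _ = _ := by ring

/-- the normalised local mean -/
def VN (T : ℝ) (s : ℂ) : ℝ := LM T s.im / Real.sqrt (Real.log (Real.log T) / 2)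

theorem cw_of_dom {w : ℝ → ℂ → ℝ} (hC : S_CLA) (K : ℝ) (hK : 0 ≤ K)
    (h : ∀ η : ℝ, 0 ≤ η → ∀ᶠ T : ℝ in atTop, ∀ s ∈ H370.Zf riemannZeta T (2 * T), w T s ≤ K * ((mz s : ℝ) * SS η T s.im)) :
    CW w VN := by
  obtain ⟨δ₂, η, hδ₂, hη, hC⟩ := hC
  refine ⟨δ₂, hδ₂, fun δ hδ hδ2 => ?_⟩
  obtain ⟨C, hC0, hC⟩ := hC δ hδ hδ2
  refine ⟨K * C, by positivity, ?_⟩
  have hll : Tendsto (fun T : ℝ => Real.log (Real.log T)) atTop atTop :=
    Real.tendsto_log_atTop.comp Real.tendsto_log_atTop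
  filter_upwards [hC, h η hη.le, hll.eventually_ge_atTop 1] with T hC h hll
  have hs : 0 < Real.sqrt (Real.log (Real.log T) / 2) := Real.sqrt_pos.2 (by linarith)
  calc _ ≤ ∑ s ∈ H370.Zf riemannZeta T (2 * T), K * ((mz s : ℝ) *
        (SS η T s.im * (LM T s.im - (dp ⌊T ^ δ⌋₊ (pc ⌊T ^ δ⌋₊) s.im).re) ^ 2)) := by
        refine Finset.sum_le_sum fun s hs' => ?_
        have e1 : VN T s * Real.sqrt (Real.log (Real.log T) / 2) = LM T s.im := by
          unfold VN
          rw [div_mul_cancel₀ _ hs.ne']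
        rw [e1]
        calc _ ≤ (K * ((mz s : ℝ) * SS η T s.im)) * (LM T s.im - (dp ⌊T ^ δ⌋₊ (pc ⌊T ^ δ⌋₊) s.im).re) ^ 2 :=
              mul_le_mul_of_nonneg_right (h s hs') (by positivity)
          _ = _ := by ring
    _ = K * ∑ s ∈ H370.Zf riemannZeta T (2 * T), (mz s : ℝ) *
        (SS η T s.im * (LM T s.im - (dp ⌊T ^ δ⌋₊ (pc ⌊T ^ δ⌋₊) s.im).re) ^ 2) := by rw [Finset.mul_sum]
    _ ≤ K * (C * (Real.log T * T)) := by gcongr
    _ = _ := by ring

/-! ### the positive kernel -/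

/-- the transform of the positive kernel -/
def Rg (α : ℝ) : ℝ := max 0 (1 - |α|) * (1 + Real.cos (Real.pi * α))

theorem Rg_nonneg (α : ℝ) : 0 ≤ Rg α := by
  unfold Rg
  have := Real.neg_one_le_cos (Real.pi * α)
  exact mul_nonneg (le_max_left _ _) (by linarith)

/-- Fejer's kernel -/
def Kj (x : ℝ) : ℝ := ∫ α in (-1 : ℝ)..1, max 0 (1 - |α|) * Real.cos (α * x)

theorem Kj_zero : Kj 0 = 1 := by
  unfold Kj
  have h1 : ∀ α ∈ Set.uIcc (-1 : ℝ) 0, max 0 (1 - |α|) * Real.cos (α * 0) = 1 + α := by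
    intro α hα
    rw [Set.uIcc_of_le (by norm_num)] at hα
    rw [abs_of_nonpos hα.2, mul_zero, Real.cos_zero, max_eq_right (by linarith [hα.1])]
    ring
  have h2 : ∀ α ∈ Set.uIcc (0 : ℝ) 1, max 0 (1 - |α|) * Real.cos (α * 0) = 1 - α := by
    intro α hα
    rw [Set.uIcc_of_le (by norm_num)] at hα
    rw [abs_of_nonneg hα.1, mul_zero, Real.cos_zero, max_eq_right (by linarith [hα.2])]
    ring
  have hi : ∀ a b : ℝ, IntervalIntegrable (fun α : ℝ => max 0 (1 - |α|) * Real.cos (α * 0)) volume a b := by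
    intro a b
    apply Continuous.intervalIntegrable
    fun_prop
  rw [← intervalIntegral.integral_add_adjacent_intervals (hi (-1) 0) (hi 0 1), intervalIntegral.integral_congr h1,
    intervalIntegral.integral_congr h2]
  have e1 : ∫ x in (-1 : ℝ)..0, (1 + x) = 1 / 2 := by
    rw [intervalIntegral.integral_add (by simp) (by simp), integral_id]
    norm_num
  have e2 : ∫ x in (0 : ℝ)..1, (1 - x) = 1 / 2 := by
    rw [intervalIntegral.integral_sub (by simp) (by simp), integral_id]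
    norm_num
  rw [e1, e2]
  norm_num

theorem Kj_ne {x : ℝ} (hx : x ≠ 0) : Kj x = 2 * (1 - Real.cos x) / x ^ 2 := by
  unfold Kj
  have hi : ∀ a b : ℝ, IntervalIntegrable (fun α : ℝ => max 0 (1 - |α|) * Real.cos (α * x)) volume a b := by
    intro a b
    apply Continuous.intervalIntegrable
    fun_prop
  rw [← intervalIntegral.integral_add_adjacent_intervals (hi (-1) 0) (hi 0 1)]
  have h1 : ∫ α in (-1 : ℝ)..0, max 0 (1 - |α|) * Real.cos (α * x) = (1 - Real.cos x) / x ^ 2 := by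
    have e1 : ∫ α in (-1 : ℝ)..0, max 0 (1 - |α|) * Real.cos (α * x) = ∫ α in (-1 : ℝ)..0, (1 + α) * Real.cos (α * x) := by
      refine intervalIntegral.integral_congr fun α hα => ?_
      rw [Set.uIcc_of_le (by norm_num)] at hα
      show max 0 (1 - |α|) * Real.cos (α * x) = (1 + α) * Real.cos (α * x)
      rw [abs_of_nonpos hα.2, max_eq_right (by linarith [hα.1])]
      ring
    rw [e1]
    have hd : ∀ α ∈ Set.uIcc (-1 : ℝ) 0, HasDerivAt (fun α : ℝ => (1 + α) * (Real.sin (α * x) / x) + Real.cos (α * x) / x ^ 2)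
        ((1 + α) * Real.cos (α * x)) α := by
      intro α _
      have g1 : HasDerivAt (fun α : ℝ => α * x) x α := by simpa using (hasDerivAt_id α).mul_const x
      have g2 : HasDerivAt (fun α : ℝ => Real.sin (α * x)) (Real.cos (α * x) * x) α := g1.sin
      have g3 : HasDerivAt (fun α : ℝ => Real.cos (α * x)) (-Real.sin (α * x) * x) α := g1.cos
      have g4 : HasDerivAt (fun α : ℝ => 1 + α) 1 α := (hasDerivAt_id α).const_add 1
      have g5 := (g4.mul (g2.div_const x)).add (g3.div_const (x ^ 2))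
      have g6 : 1 * (Real.sin (α * x) / x) + (1 + α) * (Real.cos (α * x) * x / x) + -Real.sin (α * x) * x / x ^ 2 =
          (1 + α) * Real.cos (α * x) := by
        rw [mul_div_assoc (Real.cos (α * x)), div_self hx]
        have : -Real.sin (α * x) * x / x ^ 2 = -(Real.sin (α * x) / x) := by field_simp
        rw [this]
        ring
      rw [g6] at g5
      exact g5
    rw [intervalIntegral.integral_eq_sub_of_hasDerivAt hd (by apply Continuous.intervalIntegrable; fun_prop)]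
    simp
    field_simp
  have h2 : ∫ α in (0 : ℝ)..1, max 0 (1 - |α|) * Real.cos (α * x) = (1 - Real.cos x) / x ^ 2 := by
    have e1 : ∫ α in (0 : ℝ)..1, max 0 (1 - |α|) * Real.cos (α * x) = ∫ α in (0 : ℝ)..1, (1 - α) * Real.cos (α * x) := by
      refine intervalIntegral.integral_congr fun α hα => ?_
      rw [Set.uIcc_of_le (by norm_num)] at hα
      show max 0 (1 - |α|) * Real.cos (α * x) = (1 - α) * Real.cos (α * x)
      rw [abs_of_nonneg hα.1, max_eq_right (by linarith [hα.2])]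
    rw [e1]
    have hd : ∀ α ∈ Set.uIcc (0 : ℝ) 1, HasDerivAt (fun α : ℝ => (1 - α) * (Real.sin (α * x) / x) - Real.cos (α * x) / x ^ 2)
        ((1 - α) * Real.cos (α * x)) α := by
      intro α _
      have g1 : HasDerivAt (fun α : ℝ => α * x) x α := by simpa using (hasDerivAt_id α).mul_const x
      have g2 : HasDerivAt (fun α : ℝ => Real.sin (α * x)) (Real.cos (α * x) * x) α := g1.sin
      have g3 : HasDerivAt (fun α : ℝ => Real.cos (α * x)) (-Real.sin (α * x) * x) α := g1.cos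
      have g4 : HasDerivAt (fun α : ℝ => 1 - α) (-1) α := (hasDerivAt_id α).const_sub 1
      have g5 := (g4.mul (g2.div_const x)).sub (g3.div_const (x ^ 2))
      have g6 : -1 * (Real.sin (α * x) / x) + (1 - α) * (Real.cos (α * x) * x / x) - -Real.sin (α * x) * x / x ^ 2 =
          (1 - α) * Real.cos (α * x) := by
        rw [mul_div_assoc (Real.cos (α * x)), div_self hx]
        have : -Real.sin (α * x) * x / x ^ 2 = -(Real.sin (α * x) / x) := by field_simp
        rw [this]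
        ring
      rw [g6] at g5
      exact g5
    rw [intervalIntegral.integral_eq_sub_of_hasDerivAt hd (by apply Continuous.intervalIntegrable; fun_prop)]
    simp
    field_simp
    ring
  rw [h1, h2]
  ring

theorem Kj_nonneg (x : ℝ) : 0 ≤ Kj x := by
  by_cases hx : x = 0
  · rw [hx, Kj_zero]; norm_num
  · rw [Kj_ne hx]
    have := Real.cos_le_one x
    apply div_nonneg (by linarith) (by positivity)

theorem Kj_le (x : ℝ) : Kj x ≤ 5 / (1 + x ^ 2) := by
  by_cases hx : x = 0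
  · rw [hx, Kj_zero]; norm_num
  · rw [Kj_ne hx]
    have hx2 : 0 < x ^ 2 := by positivity
    have h1 := Real.one_sub_sq_div_two_le_cos (x := x)
    have h2 := Real.neg_one_le_cos x
    rw [div_le_div_iff₀ hx2 (by positivity)]
    rcases le_or_gt (x ^ 2) 4 with h3 | h3
    · nlinarith
    · nlinarith

theorem fRg_eq (x : ℝ) : fR Rg x = Kj x + 1 / 2 * (Kj (x + Real.pi) + Kj (x - Real.pi)) := by
  unfold fR Kj
  have hi : ∀ y : ℝ, IntervalIntegrable (fun α : ℝ => max 0 (1 - |α|) * Real.cos (α * y)) volume (-1) 1 := by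
    intro y
    apply Continuous.intervalIntegrable
    fun_prop
  rw [← intervalIntegral.integral_add (hi _) (hi _), ← intervalIntegral.integral_const_mul, ← intervalIntegral.integral_add (hi _)
    (((hi _).add (hi _)).const_mul _)]
  refine intervalIntegral.integral_congr fun α _ => ?_
  show Rg α * Real.cos (α * x) = _
  unfold Rg
  have e1 : Real.cos (α * (x + Real.pi)) = Real.cos (α * x) * Real.cos (Real.pi * α) - Real.sin (α * x) * Real.sin (Real.pi * α) := by
    rw [← Real.cos_add]; ring_nf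
  have e2 : Real.cos (α * (x - Real.pi)) = Real.cos (α * x) * Real.cos (Real.pi * α) + Real.sin (α * x) * Real.sin (Real.pi * α) := by
    rw [← Real.cos_sub]; ring_nf
  rw [e1, e2]
  ring

theorem fRg_ge (x : ℝ) : 4 / (x ^ 2 + Real.pi ^ 2) ≤ fR Rg x := by
  rw [fRg_eq]
  have hpi := Real.pi_pos
  have hpi2 : 1 ≤ Real.pi ^ 2 := by nlinarith [Real.pi_gt_three]
  have hS : 0 < x ^ 2 + Real.pi ^ 2 := by positivity
  have hc1 := Real.cos_le_one x
  have hc2 := Real.neg_one_le_cos x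
  have h1 : 2 * (1 - Real.cos x) / (x ^ 2 + Real.pi ^ 2) ≤ Kj x := by
    by_cases hx : x = 0
    · rw [hx, Kj_zero]; simp
    · rw [Kj_ne hx]
      have hx2 : 0 < x ^ 2 := by positivity
      apply div_le_div_of_nonneg_left (by linarith) hx2
      nlinarith
  have h2 : 2 * (1 + Real.cos x) / (x ^ 2 + Real.pi ^ 2) ≤ 1 / 2 * (Kj (x + Real.pi) + Kj (x - Real.pi)) := by
    by_cases hx : x = Real.pi ∨ x = -Real.pi
    · have h3 : Real.cos x = -1 := by
        rcases hx with h | h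
        · rw [h, Real.cos_pi]
        · rw [h, Real.cos_neg, Real.cos_pi]
      rw [h3]
      have := Kj_nonneg (x + Real.pi)
      have := Kj_nonneg (x - Real.pi)
      norm_num
      linarith
    · push Not at hx
      have hx1 : x - Real.pi ≠ 0 := sub_ne_zero.2 hx.1
      have hx2 : x + Real.pi ≠ 0 := by
        intro h
        apply hx.2
        linarith
      rw [Kj_ne hx1, Kj_ne hx2, Real.cos_sub_pi, Real.cos_add_pi, sub_neg_eq_add]
      have p1 : 0 < (x - Real.pi) ^ 2 := by positivity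
      have p2 : 0 < (x + Real.pi) ^ 2 := by positivity
      have e1 : 1 / 2 * (2 * (1 + Real.cos x) / (x + Real.pi) ^ 2 + 2 * (1 + Real.cos x) / (x - Real.pi) ^ 2) =
          (1 + Real.cos x) * (1 / (x + Real.pi) ^ 2 + 1 / (x - Real.pi) ^ 2) := by
        field_simp
      have e2 : 2 * (1 + Real.cos x) / (x ^ 2 + Real.pi ^ 2) = (1 + Real.cos x) * (2 / (x ^ 2 + Real.pi ^ 2)) := by ring
      rw [e1, e2]
      apply mul_le_mul_of_nonneg_left _ (by linarith)
      rw [div_add_div _ _ p2.ne' p1.ne', div_le_div_iff₀ hS (by positivity)]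
      nlinarith [sq_nonneg (x * Real.pi), mul_pos p1 p2]
  have e3 : 4 / (x ^ 2 + Real.pi ^ 2) = 2 * (1 - Real.cos x) / (x ^ 2 + Real.pi ^ 2) + 2 * (1 + Real.cos x) / (x ^ 2 + Real.pi ^ 2) := by
    rw [← add_div]; congr 1; ring
  linarith

theorem fRg_le (x : ℝ) : fR Rg x ≤ 200 / (1 + x ^ 2) := by
  rw [fRg_eq]
  have hpi := Real.pi_pos
  have hpi2 : Real.pi ^ 2 ≤ 10 := by nlinarith [Real.pi_lt_d2]
  have h1 := Kj_le x
  have h2 := Kj_le (x + Real.pi)
  have h3 := Kj_le (x - Real.pi)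
  have hS : 0 < 1 + x ^ 2 := by positivity
  have e1 : 5 / (1 + (x + Real.pi) ^ 2) ≤ 120 / (1 + x ^ 2) := by
    rw [div_le_div_iff₀ (by positivity) hS]
    nlinarith [sq_nonneg (x + Real.pi), sq_nonneg (2 * (x + Real.pi) - Real.pi), sq_nonneg (x + 2 * Real.pi)]
  have e2 : 5 / (1 + (x - Real.pi) ^ 2) ≤ 120 / (1 + x ^ 2) := by
    rw [div_le_div_iff₀ (by positivity) hS]
    nlinarith [sq_nonneg (x - Real.pi), sq_nonneg (2 * (x - Real.pi) + Real.pi), sq_nonneg (x - 2 * Real.pi)]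
  have e3 : 200 / (1 + x ^ 2) = 5 / (1 + x ^ 2) + 195 / (1 + x ^ 2) := by rw [← add_div]; norm_num
  have e4 : 120 / (1 + x ^ 2) ≤ 195 / (1 + x ^ 2) := by gcongr; norm_num
  linarith

theorem Tst_Rg : Tst Rg 8 200 := by
  constructor
  · intro x y
    unfold Rg
    have hpi := Real.pi_pos
    have hpi4 := Real.pi_le_four
    have h1 : |max 0 (1 - |x|) - max 0 (1 - |y|)| ≤ |x - y| := by
      have g1 : |max (1 - |x|) 0 - max (1 - |y|) 0| ≤ |(1 - |x|) - (1 - |y|)| := abs_max_sub_max_le_abs _ _ _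
      rw [max_comm, max_comm 0 (1 - |y|)]
      refine g1.trans ?_
      rw [show (1 - |x|) - (1 - |y|) = |y| - |x| by ring, abs_sub_comm x y]
      exact abs_abs_sub_abs_le _ _
    have h2 : |Real.cos (Real.pi * x) - Real.cos (Real.pi * y)| ≤ 4 * |x - y| := by
      have g1 := Real.abs_cos_sub_cos_le (Real.pi * x) (Real.pi * y)
      refine g1.trans ?_
      rw [← mul_sub, abs_mul, abs_of_pos hpi]
      gcongr
    have h3 : |max 0 (1 - |y|)| ≤ 1 := by
      rw [abs_of_nonneg (le_max_left _ _)]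
      exact max_le zero_le_one (by linarith [abs_nonneg y])
    have h4 : |1 + Real.cos (Real.pi * x)| ≤ 2 := by
      rw [abs_le]
      constructor <;> linarith [Real.neg_one_le_cos (Real.pi * x), Real.cos_le_one (Real.pi * x)]
    have e1 : max 0 (1 - |x|) * (1 + Real.cos (Real.pi * x)) - max 0 (1 - |y|) * (1 + Real.cos (Real.pi * y)) =
        (max 0 (1 - |x|) - max 0 (1 - |y|)) * (1 + Real.cos (Real.pi * x)) +
          max 0 (1 - |y|) * (Real.cos (Real.pi * x) - Real.cos (Real.pi * y)) := by ring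
    rw [e1]
    refine (abs_add_le _ _).trans ?_
    rw [abs_mul, abs_mul]
    have h0 := abs_nonneg (x - y)
    calc |max 0 (1 - |x|) - max 0 (1 - |y|)| * |1 + Real.cos (Real.pi * x)| +
          |max 0 (1 - |y|)| * |Real.cos (Real.pi * x) - Real.cos (Real.pi * y)| ≤ |x - y| * 2 + 1 * (4 * |x - y|) := by
          gcongr
      _ ≤ 8 * |x - y| := by linarith
  · intro x
    unfold Rg
    rw [abs_neg, mul_neg, Real.cos_neg]
  · intro x hx
    unfold Rg
    rw [max_eq_left (by linarith), zero_mul]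
  · intro x
    have h1 := fRg_ge x
    have h2 : 0 ≤ 4 / (x ^ 2 + Real.pi ^ 2) := by positivity
    rw [abs_of_nonneg (h2.trans h1)]
    exact fRg_le x

end

end Pool.Agent.Q97.UM
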