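import Pool.Agent.Q97.UM.R1a

set_option autoImplicit false

/-! Project UM: universal mollification. -/

namespace Pool.Agent.Q97.UM

open Filter Topology MeasureTheory Complex

noncomputable section

theorem et_supp {P q : ℝ → ℝ} {c C : ℝ} (hG : Gev P q c C) {Y l : ℕ} (hY : 2 ≤ Y) (hl : 1 ≤ l) (h : et P Y l ≠ 0) : l < Y := by
  by_contra hlt
  push Not at hlt
  apply h
  unfold et
  have h1 : 0 < Real.log Y := Real.log_pos (by exact_mod_cast hY)
  have h2 : P (Real.log l / Real.log Y) = 0 := by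
    apply hG.supp
    rw [abs_of_nonneg (div_nonneg (Real.log_nonneg (by exact_mod_cast hl)) h1.le), one_le_div h1]
    exact Real.log_le_log (by positivity) (by exact_mod_cast hlt)
  rw [h2, mul_zero, Complex.ofReal_zero]

theorem smooth_of_lt {n X : ℕ} (hn : n ≠ 0) (h : n < X) : n ∈ Nat.smoothNumbers X := by
  rw [Nat.mem_smoothNumbers']
  intro p _ hd
  exact (Nat.le_of_dvd (Nat.pos_of_ne_zero hn) hd).trans_lt h

/-- the support of the mollified sequence -/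
theorem mol_supp {P q : ℝ → ℝ} {c C : ℝ} (hG : Gev P q c C) {Y N : ℕ} (hY : 2 ≤ Y) (hN : N ≤ Y) {b : ℕ → ℂ}
    (hb : ∀ n, b n ≠ 0 → 1 ≤ n ∧ n ≤ N) {n : ℕ} (h : cv b (cv (et P Y) (et P Y)) n ≠ 0) :
    1 ≤ n ∧ n ≤ N * Y ^ 2 ∧ n ∈ Nat.smoothNumbers (Y + 1) := by
  obtain ⟨k, l, hkl, hn, hk, hl⟩ := cv_supp h
  obtain ⟨l1, l2, hl12, hl0, hl1, hl2⟩ := cv_supp hl
  obtain ⟨k1, k2⟩ := hb k hk
  have a1 : 1 ≤ l1 := Nat.pos_of_ne_zero fun h => hl0 (by rw [← hl12, h, zero_mul])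
  have a2 : 1 ≤ l2 := Nat.pos_of_ne_zero fun h => hl0 (by rw [← hl12, h, mul_zero])
  have b1 := et_supp hG hY a1 hl1
  have b2 := et_supp hG hY a2 hl2
  refine ⟨Nat.pos_of_ne_zero hn, ?_, ?_⟩
  · rw [← hkl, ← hl12, pow_two]
    exact Nat.mul_le_mul k2 (Nat.mul_le_mul b1.le b2.le)
  · rw [← hkl, ← hl12]
    exact Nat.mul_mem_smoothNumbers (smooth_of_lt (by omega) (by omega))
      (Nat.mul_mem_smoothNumbers (smooth_of_lt (by omega) (by omega)) (smooth_of_lt (by omega) (by omega)))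

/-- the pointwise bound from CORE, FB and PR -/
theorem core_bd (hFB : S_FB) (hCO : S_CORE) {C : ℝ} (hC : 1 ≤ C)
    (h1 : ∀ X : ℕ, 2 ≤ X → ∀ y : ℝ, 0 ≤ y →
      (∏ p ∈ X.primesBelow, ((1 - 1 / (p : ℝ)) * (1 + 64 * (rp X y p + Fp X y p ^ 2) / p)) ≤
        C / Real.log X * Real.exp (C * Real.sqrt (1 + y))) ∧
      (∀ h : ℕ, 1 ≤ h → h < X → ∏ p ∈ X.primesBelow, (1 + (h.factorization p : ℝ) * (Fp X y p ^ 2 / rp X y p)) ≤
        Real.exp (C * Real.sqrt (1 + y)))) (Y N : ℕ) (hY : 2 ≤ Y) (hN : N ≤ Y) (b : ℕ → ℂ)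
    (hb : ∀ n, b n ≠ 0 → 1 ≤ n ∧ n ≤ N) (S : Finset ℕ) (hS : ∀ n ∈ S, n ∈ Nat.smoothNumbers (Y + 1)) (z₁ z₂ : ℝ) :
    (∏ p ∈ (Y + 1).primesBelow, (1 - 1 / (p : ℝ))) * ∑ n ∈ S, ‖cv b (ff (-(z₁ / Real.log Y)) (-(z₂ / Real.log Y))) n‖ ^ 2 / n ≤
      C / Real.log Y * N2 N b * (Real.exp (2 * C * Real.sqrt (1 + 2 * |z₁|)) * Real.exp (2 * C * Real.sqrt (1 + 2 * |z₂|))) := by
  have hlY : 0 < Real.log Y := Real.log_pos (by exact_mod_cast hY)
  have hX2 : 2 ≤ Y + 1 := by omega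
  have hlX : Real.log Y ≤ Real.log ((Y + 1 : ℕ) : ℝ) :=
    Real.log_le_log (by positivity) (by push_cast; linarith)
  have hlX0 : 0 < Real.log ((Y + 1 : ℕ) : ℝ) := hlY.trans_le hlX
  have hlX2 : Real.log ((Y + 1 : ℕ) : ℝ) ≤ 2 * Real.log Y := by
    rw [show (2 : ℝ) * Real.log Y = Real.log ((Y : ℝ) ^ 2) by rw [Real.log_pow]; norm_num]
    refine Real.log_le_log (by positivity) ?_
    have : (2 : ℝ) ≤ Y := by exact_mod_cast hY
    push_cast
    nlinarith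
  set y : ℝ := 2 * (|z₁| + |z₂|) with hy
  have hy0 : 0 ≤ y := by positivity
  obtain ⟨c1, c2⟩ := h1 (Y + 1) hX2 y hy0
  obtain ⟨f1, f2, f3⟩ := hFB (-(z₁ / Real.log Y)) (-(z₂ / Real.log Y))
  have ha : 0 < (1 + y) / Real.log ((Y + 1 : ℕ) : ℝ) := by positivity
  have hpr : ∀ p ∈ (Y + 1).primesBelow, p.Prime ∧ 0 < Real.log p := by
    intro p hp
    have := Nat.prime_of_mem_primesBelow hp
    exact ⟨this, Real.log_pos (by exact_mod_cast this.one_lt)⟩
  have hmain := hCO (Y + 1) N (ff (-(z₁ / Real.log Y)) (-(z₂ / Real.log Y))) b (Fp (Y + 1) y) (rp (Y + 1) y)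
    (Real.exp (C * Real.sqrt (1 + y))) (by omega) f1 f2
    (fun p hp => by
      obtain ⟨p1, p2⟩ := hpr p hp
      refine ⟨?_, ?_⟩
      · unfold Fp
        exact mul_nonneg (by norm_num) (le_min zero_le_one (by positivity))
      · unfold rp
        exact mul_pos (Real.sqrt_pos.2 (by positivity)) (lt_min (by positivity) (by positivity)))
    (fun p hp j hj => by
      obtain ⟨p1, p2⟩ := hpr p hp
      refine (f3 p j p1 hj).trans ?_
      refine mul_le_mul_of_nonneg_left ?_ (Nat.cast_nonneg _)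
      unfold Fp
      refine mul_le_mul_of_nonneg_left ?_ (by norm_num)
      refine min_le_min le_rfl ?_
      refine mul_le_mul_of_nonneg_right ?_ p2.le
      rw [abs_neg, abs_neg, abs_div, abs_div, abs_of_pos hlY, ← add_div, div_le_div_iff₀ hlY hlX0]
      have : 0 ≤ |z₁| + |z₂| := by positivity
      nlinarith)
    (fun h hh => c2 h (Finset.mem_Icc.1 hh).1 (by have := (Finset.mem_Icc.1 hh).2; omega))
    hb S hS
  refine hmain.trans ?_
  have hN2 : 0 ≤ N2 N b := Finset.sum_nonneg fun n _ => by positivity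
  have hE : Real.sqrt (1 + y) ≤ Real.sqrt (1 + 2 * |z₁|) + Real.sqrt (1 + 2 * |z₂|) := by
    refine Real.sqrt_le_iff.2 ⟨by positivity, ?_⟩
    have s1 := Real.sq_sqrt (show 0 ≤ 1 + 2 * |z₁| by positivity)
    have s2 := Real.sq_sqrt (show 0 ≤ 1 + 2 * |z₂| by positivity)
    have s3 : 0 ≤ Real.sqrt (1 + 2 * |z₁|) * Real.sqrt (1 + 2 * |z₂|) := by positivity
    rw [hy]
    nlinarith
  calc (∏ p ∈ (Y + 1).primesBelow, ((1 - 1 / (p : ℝ)) * (1 + 64 * (rp (Y + 1) y p + Fp (Y + 1) y p ^ 2) / p))) *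
        Real.exp (C * Real.sqrt (1 + y)) * N2 N b
      ≤ (C / Real.log ((Y + 1 : ℕ) : ℝ) * Real.exp (C * Real.sqrt (1 + y))) * Real.exp (C * Real.sqrt (1 + y)) * N2 N b := by
        refine mul_le_mul_of_nonneg_right (mul_le_mul_of_nonneg_right c1 (Real.exp_pos _).le) hN2
    _ = C / Real.log ((Y + 1 : ℕ) : ℝ) * N2 N b * Real.exp (2 * C * Real.sqrt (1 + y)) := by
        rw [show 2 * C * Real.sqrt (1 + y) = C * Real.sqrt (1 + y) + C * Real.sqrt (1 + y) by ring, Real.exp_add]; ring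
    _ ≤ C / Real.log Y * N2 N b * (Real.exp (2 * C * Real.sqrt (1 + 2 * |z₁|)) * Real.exp (2 * C * Real.sqrt (1 + 2 * |z₂|))) := by
        rw [← Real.exp_add]
        refine mul_le_mul ?_ (Real.exp_le_exp.2 ?_) (Real.exp_pos _).le (by positivity)
        · refine mul_le_mul_of_nonneg_right ?_ hN2
          exact div_le_div_of_nonneg_left (by linarith) hlY hlX
        · nlinarith [mul_le_mul_of_nonneg_left hE (show 0 ≤ 2 * C by linarith)]

/-- UNIVERSAL MOLLIFICATION -/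
theorem R1 {P q : ℝ → ℝ} {c₀ C₀ : ℝ} (hG : Gev P q c₀ C₀) (hFB : S_FB) (hEX : S_EXP) (hCO : S_CORE) (hPR : S_PR) :
    ∃ C : ℝ, 1 ≤ C ∧ ∀ (Y N : ℕ) (b : ℕ → ℂ), 2 ≤ Y → N ≤ Y → (∀ n, b n ≠ 0 → 1 ≤ n ∧ n ≤ N) →
      (QF (N * Y ^ 2) (cv b (cv (et P Y) (et P Y)))).re ≤ C / Real.log Y * N2 N b := by
  obtain ⟨C, hC, h1⟩ := hPR
  set I1 : ℝ := ∫ y : ℝ, |q y| with hI1
  set I2 : ℝ := ∫ y : ℝ, |q y| * Real.exp (2 * C * Real.sqrt (1 + 2 * |y|)) with hI2
  have hI1' : 0 ≤ I1 := integral_nonneg fun y => abs_nonneg _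
  refine ⟨max 1 (I1 ^ 2 * (C * I2 ^ 2)), le_max_left _ _, fun Y N b hY hN hb => ?_⟩
  have hlY : 0 < Real.log Y := Real.log_pos (by exact_mod_cast hY)
  have hN2 : 0 ≤ N2 N b := Finset.sum_nonneg fun n _ => by positivity
  obtain ⟨hs, -⟩ := hEX (Y + 1) (N * Y ^ 2) (cv b (cv (et P Y) (et P Y))) (fun n hn => mol_supp hG hY hN hb hn)
  set K : ℝ := ∏ p ∈ (Y + 1).primesBelow, (1 - 1 / (p : ℝ)) with hK
  have hK0 : 0 ≤ K := Finset.prod_nonneg fun p hp => by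
    have := (Nat.prime_of_mem_primesBelow hp).one_lt
    have : (1 : ℝ) / p ≤ 1 := by rw [div_le_one (by positivity)]; exact_mod_cast this.le
    linarith
  have hmax : I1 ^ 2 * (C * I2 ^ 2) / Real.log Y * N2 N b ≤ max 1 (I1 ^ 2 * (C * I2 ^ 2)) / Real.log Y * N2 N b :=
    mul_le_mul_of_nonneg_right (div_le_div_of_nonneg_right (le_max_right _ _) hlY.le) hN2
  refine le_trans ?_ hmax
  refine hasSum_le_of_sum_le hs fun s => ?_
  -- the finite sums
  have hq : Integrable (fun y : ℝ => |q y|) := (q_int0 hG).norm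
  have hqe := q_int hG (2 * C) (by linarith)
  have w1 : Integrable (fun z : ℝ × ℝ => (q z.1 : ℂ) * (q z.2 : ℂ)) (volume.prod volume) :=
    (q_int0 hG).ofReal.mul_prod (q_int0 hG).ofReal
  have w2 : ∫ z : ℝ × ℝ, ‖(q z.1 : ℂ) * (q z.2 : ℂ)‖ ∂(volume.prod volume) = I1 ^ 2 := by
    rw [pow_two, hI1, ← integral_prod_mul (fun y : ℝ => |q y|) (fun y : ℝ => |q y|)]
    refine integral_congr_ae (Filter.Eventually.of_forall fun z => ?_)
    simp only [norm_mul, Complex.norm_real, Real.norm_eq_abs]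
  have w3 : Integrable (fun z : ℝ × ℝ => (|q z.1| * Real.exp (2 * C * Real.sqrt (1 + 2 * |z.1|))) *
      (|q z.2| * Real.exp (2 * C * Real.sqrt (1 + 2 * |z.2|)))) (volume.prod volume) := hqe.mul_prod hqe
  have w4 : ∫ z : ℝ × ℝ, (|q z.1| * Real.exp (2 * C * Real.sqrt (1 + 2 * |z.1|))) *
      (|q z.2| * Real.exp (2 * C * Real.sqrt (1 + 2 * |z.2|))) ∂(volume.prod volume) = I2 ^ 2 := by
    rw [pow_two, hI2]
    exact integral_prod_mul (fun y : ℝ => |q y| * Real.exp (2 * C * Real.sqrt (1 + 2 * |y|)))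
      (fun y : ℝ => |q y| * Real.exp (2 * C * Real.sqrt (1 + 2 * |y|)))
  -- continuity of the integrand in z
  have htw : ∀ l : ℕ, 1 ≤ l → Continuous fun y : ℝ => tw (-(y / Real.log Y)) l := by
    intro l hl
    have : (fun y : ℝ => tw (-(y / Real.log Y)) l) = fun y : ℝ => (al l : ℂ) *
        cexp (-(I * (-(y / Real.log Y) * Real.log l : ℝ))) := by
      funext y; exact tw_eq l hl _
    rw [this]
    fun_prop
  have hcont : ∀ n : ℕ, Continuous fun z : ℝ × ℝ => cv b (ff (-(z.1 / Real.log Y)) (-(z.2 / Real.log Y))) n := by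
    intro n
    have hpos : ∀ m : ℕ, ∀ p ∈ m.divisorsAntidiagonal, 1 ≤ p.1 ∧ 1 ≤ p.2 := by
      intro m p hp
      obtain ⟨h1, h2⟩ := Nat.mem_divisorsAntidiagonal.1 hp
      exact ⟨Nat.pos_of_ne_zero fun h => h2 (by rw [← h1, h, zero_mul]),
        Nat.pos_of_ne_zero fun h => h2 (by rw [← h1, h, mul_zero])⟩
    have k1 : ∀ m : ℕ, Continuous fun z : ℝ × ℝ => cv (tw (-(z.1 / Real.log Y))) (tw (-(z.2 / Real.log Y))) m := by
      intro m
      unfold cv
      refine continuous_finsetSum _ fun p hp => ?_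
      exact ((htw p.1 (hpos m p hp).1).comp continuous_fst).mul ((htw p.2 (hpos m p hp).2).comp continuous_snd)
    have k2 : ∀ m : ℕ, Continuous fun z : ℝ × ℝ => ff (-(z.1 / Real.log Y)) (-(z.2 / Real.log Y)) m := by
      intro m
      unfold ff
      conv => enter [1, z]; unfold cv
      exact continuous_finsetSum _ fun p _ => continuous_const.mul (k1 p.2)
    conv => enter [1, z]; unfold cv
    exact continuous_finsetSum _ fun p _ => continuous_const.mul (k2 p.2)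
  -- integrability of the squares: bounded by the finite-sum bound
  have hbd : ∀ (S : Finset ℕ), (∀ n ∈ S, n ∈ Nat.smoothNumbers (Y + 1)) → ∀ z : ℝ × ℝ,
      ‖(q z.1 : ℂ) * (q z.2 : ℂ)‖ * (K * ∑ n ∈ S, ‖cv b (ff (-(z.1 / Real.log Y)) (-(z.2 / Real.log Y))) n‖ ^ 2 / n) ≤
      (C / Real.log Y * N2 N b) * ((|q z.1| * Real.exp (2 * C * Real.sqrt (1 + 2 * |z.1|))) *
      (|q z.2| * Real.exp (2 * C * Real.sqrt (1 + 2 * |z.2|)))) := by
    intro S hS z
    have := core_bd hFB hCO hC h1 Y N hY hN b hb S hS z.1 z.2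
    calc _ ≤ ‖(q z.1 : ℂ) * (q z.2 : ℂ)‖ * (C / Real.log Y * N2 N b *
          (Real.exp (2 * C * Real.sqrt (1 + 2 * |z.1|)) * Real.exp (2 * C * Real.sqrt (1 + 2 * |z.2|)))) :=
          mul_le_mul_of_nonneg_left this (norm_nonneg _)
      _ = _ := by
          simp only [norm_mul, Complex.norm_real, Real.norm_eq_abs]
          ring
  have hKp : 0 < K := Finset.prod_pos fun p hp => by
    have := (Nat.prime_of_mem_primesBelow hp).one_lt
    have : (1 : ℝ) / p < 1 := by rw [div_lt_one (by positivity)]; exact_mod_cast this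
    linarith
  have hsq : ∀ n : ℕ, n ∈ Nat.smoothNumbers (Y + 1) → Integrable (fun z : ℝ × ℝ => ‖(q z.1 : ℂ) * (q z.2 : ℂ)‖ *
      ‖cv b (ff (-(z.1 / Real.log Y)) (-(z.2 / Real.log Y))) n‖ ^ 2) (volume.prod volume) := by
    intro n hn
    have hn0 : 0 < n := Nat.pos_of_ne_zero (Nat.ne_zero_of_mem_smoothNumbers hn)
    refine (w3.const_mul ((n : ℝ) / K * (C / Real.log Y * N2 N b))).mono' ?_ ?_
    · have := hG.cont
      have h2 := hcont n
      exact (by fun_prop : Continuous _).aestronglyMeasurable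
    · refine Filter.Eventually.of_forall fun z => ?_
      have h3 := hbd {n} (by simpa using hn) z
      rw [Finset.sum_singleton] at h3
      rw [Real.norm_of_nonneg (by positivity)]
      have hn1 : (0 : ℝ) < n := by exact_mod_cast hn0
      calc ‖(q z.1 : ℂ) * (q z.2 : ℂ)‖ * ‖cv b (ff (-(z.1 / Real.log Y)) (-(z.2 / Real.log Y))) n‖ ^ 2
          = (n : ℝ) / K * (‖(q z.1 : ℂ) * (q z.2 : ℂ)‖ * (K * (‖cv b (ff (-(z.1 / Real.log Y)) (-(z.2 / Real.log Y))) n‖ ^ 2 / n))) := by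
            field_simp
        _ ≤ (n : ℝ) / K * ((C / Real.log Y * N2 N b) * ((|q z.1| * Real.exp (2 * C * Real.sqrt (1 + 2 * |z.1|))) *
              (|q z.2| * Real.exp (2 * C * Real.sqrt (1 + 2 * |z.2|))))) := mul_le_mul_of_nonneg_left h3 (by positivity)
        _ = _ := by ring
  have hpt : ∀ n : ℕ, n ∈ Nat.smoothNumbers (Y + 1) → ‖∑ h ∈ n.divisors, cv b (cv (et P Y) (et P Y)) h‖ ^ 2 ≤
      I1 ^ 2 * ∫ z : ℝ × ℝ, ‖(q z.1 : ℂ) * (q z.2 : ℂ)‖ *
      ‖cv b (ff (-(z.1 / Real.log Y)) (-(z.2 / Real.log Y))) n‖ ^ 2 ∂(volume.prod volume) := by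
    intro n hn
    obtain ⟨j1, j2⟩ := div_int hG Y n b
    rw [j2, ← w2]
    refine cs_w w1 ?_ (hsq n hn)
    have := j1.norm
    simpa only [norm_mul] using this
  -- assemble
  set S : Finset ℕ := s.image (fun n : Nat.smoothNumbers (Y + 1) => (n : ℕ)) with hS
  have hSs : ∀ n ∈ S, n ∈ Nat.smoothNumbers (Y + 1) := by
    intro n hn
    obtain ⟨m, _, hm⟩ := Finset.mem_image.1 hn
    rw [← hm]; exact m.2
  have hsum : ∀ F : ℕ → ℝ, ∑ n ∈ s, F (n : ℕ) = ∑ n ∈ S, F n := by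
    intro F
    rw [hS, Finset.sum_image (fun a _ b _ h => Subtype.ext h)]
  rw [hsum fun n => K * (‖∑ h ∈ n.divisors, cv b (cv (et P Y) (et P Y)) h‖ ^ 2 / n)]
  calc ∑ n ∈ S, K * (‖∑ h ∈ n.divisors, cv b (cv (et P Y) (et P Y)) h‖ ^ 2 / n)
      ≤ ∑ n ∈ S, K * ((I1 ^ 2 * ∫ z : ℝ × ℝ, ‖(q z.1 : ℂ) * (q z.2 : ℂ)‖ *
        ‖cv b (ff (-(z.1 / Real.log Y)) (-(z.2 / Real.log Y))) n‖ ^ 2 ∂(volume.prod volume)) / n) := by
        refine Finset.sum_le_sum fun n hn => ?_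
        exact mul_le_mul_of_nonneg_left (div_le_div_of_nonneg_right (hpt n (hSs n hn)) (Nat.cast_nonneg _)) hK0
    _ = I1 ^ 2 * ∑ n ∈ S, ∫ z : ℝ × ℝ, (K / n) * (‖(q z.1 : ℂ) * (q z.2 : ℂ)‖ *
        ‖cv b (ff (-(z.1 / Real.log Y)) (-(z.2 / Real.log Y))) n‖ ^ 2) ∂(volume.prod volume) := by
        rw [Finset.mul_sum]
        refine Finset.sum_congr rfl fun n _ => ?_
        rw [integral_const_mul]
        ring
    _ = I1 ^ 2 * ∫ z : ℝ × ℝ, ∑ n ∈ S, (K / n) * (‖(q z.1 : ℂ) * (q z.2 : ℂ)‖ *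
        ‖cv b (ff (-(z.1 / Real.log Y)) (-(z.2 / Real.log Y))) n‖ ^ 2) ∂(volume.prod volume) := by
        rw [integral_finsetSum _ fun n hn => ((hsq n (hSs n hn)).const_mul _)]
    _ ≤ I1 ^ 2 * ∫ z : ℝ × ℝ, (C / Real.log Y * N2 N b) * ((|q z.1| * Real.exp (2 * C * Real.sqrt (1 + 2 * |z.1|))) *
      (|q z.2| * Real.exp (2 * C * Real.sqrt (1 + 2 * |z.2|)))) ∂(volume.prod volume) := by
        refine mul_le_mul_of_nonneg_left ?_ (by positivity)
        refine integral_mono (integrable_finsetSum _ fun n hn => ((hsq n (hSs n hn)).const_mul _)) (w3.const_mul _) fun z => ?_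
        refine le_trans (le_of_eq ?_) (hbd S hSs z)
        simp only [Finset.mul_sum]
        refine Finset.sum_congr rfl fun n _ => ?_
        ring
    _ = I1 ^ 2 * (C * I2 ^ 2) / Real.log Y * N2 N b := by
        rw [integral_const_mul, w4]
        ring

end

end Pool.Agent.Q97.UM
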