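import Pool.Agent.Q97.UM.Cv

set_option autoImplicit false

/-! Project UM: integrability of the window weights, integral representations of the coefficients. -/

namespace Pool.Agent.Q97.UM

open Filter Topology MeasureTheory Complex

noncomputable section

/-- stretched exponential decay beats `exp (a √(1 + 2|y|))` -/
theorem exp_bd {c : ℝ} (hc : 0 < c) (a : ℝ) (ha : 0 ≤ a) : ∃ K : ℝ, 0 ≤ K ∧ ∀ y : ℝ,
    Real.exp (-(c * |y| ^ (2 / 3 : ℝ))) * Real.exp (a * Real.sqrt (1 + 2 * |y|)) ≤ K * (1 + y ^ 2)⁻¹ := by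
  set κ : ℝ := min 1 ((c / 2) ^ 3 / 6) with hκ
  have hκ0 : 0 < κ := lt_min one_pos (by positivity)
  set K1 : ℝ := 2 * a * (4 * a / c) ^ 3 with hK1
  refine ⟨Real.exp (a + K1) / κ, by positivity, fun y => ?_⟩
  set v : ℝ := |y| ^ (1 / 6 : ℝ) with hv
  have hv0 : 0 ≤ v := Real.rpow_nonneg (abs_nonneg y) _
  have e4 : |y| ^ (2 / 3 : ℝ) = v ^ 4 := by
    rw [hv, ← Real.rpow_natCast, ← Real.rpow_mul (abs_nonneg y)]; norm_num
  have e6 : |y| = v ^ 6 := by
    rw [hv, ← Real.rpow_natCast, ← Real.rpow_mul (abs_nonneg y)]; norm_num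
  have e12 : y ^ 2 = v ^ 12 := by
    rw [← sq_abs, e6]; ring
  have hs : Real.sqrt (1 + 2 * |y|) ≤ 1 + 2 * v ^ 3 := by
    rw [e6]
    refine Real.sqrt_le_iff.2 ⟨by positivity, ?_⟩
    nlinarith [pow_nonneg hv0 3, pow_nonneg hv0 6]
  have hy : 2 * a * v ^ 3 ≤ c / 2 * v ^ 4 + K1 := by
    rcases le_total v (4 * a / c) with h | h
    · have : v ^ 3 ≤ (4 * a / c) ^ 3 := pow_le_pow_left₀ hv0 h 3
      have h2 : 2 * a * v ^ 3 ≤ K1 := mul_le_mul_of_nonneg_left this (by positivity)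
      nlinarith [pow_nonneg hv0 4, mul_nonneg hc.le (pow_nonneg hv0 4)]
    · have h1 : 2 * a ≤ c / 2 * v := by
        have : 4 * a ≤ v * c := by rwa [div_le_iff₀ hc] at h
        linarith
      have h2 : 2 * a * v ^ 3 ≤ c / 2 * v * v ^ 3 := mul_le_mul_of_nonneg_right h1 (pow_nonneg hv0 3)
      have h3 : 0 ≤ K1 := by positivity
      nlinarith
  rw [← Real.exp_add, e4]
  have h1 : -(c * v ^ 4) + a * Real.sqrt (1 + 2 * |y|) ≤ (a + K1) + -(c / 2 * v ^ 4) := by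
    have := mul_le_mul_of_nonneg_left hs ha
    nlinarith
  refine (Real.exp_le_exp.2 h1).trans ?_
  have e0 : Real.exp (a + K1) / κ * (1 + y ^ 2)⁻¹ = Real.exp (a + K1) * ((1 + v ^ 12)⁻¹ / κ) := by
    rw [e12]; ring
  rw [Real.exp_add, e0]
  refine mul_le_mul_of_nonneg_left ?_ (Real.exp_pos _).le
  rw [Real.exp_neg, le_div_iff₀ hκ0, inv_mul_le_iff₀ (Real.exp_pos _)]
  have hx : 0 ≤ c / 2 * v ^ 4 := by positivity
  have h5 : 1 + (c / 2 * v ^ 4) ^ 3 / 6 ≤ Real.exp (c / 2 * v ^ 4) := by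
    have h6 := Real.sum_le_exp_of_nonneg hx 4
    simp only [Finset.sum_range_succ, Finset.range_zero, Finset.sum_empty] at h6
    norm_num [Nat.factorial] at h6
    nlinarith [pow_nonneg hx 2]
  have h7 : κ * (1 + v ^ 12) ≤ 1 + (c / 2 * v ^ 4) ^ 3 / 6 := by
    have a1 : κ ≤ 1 := min_le_left _ _
    have a2 : κ ≤ (c / 2) ^ 3 / 6 := min_le_right _ _
    have a3 : κ * v ^ 12 ≤ (c / 2) ^ 3 / 6 * v ^ 12 := mul_le_mul_of_nonneg_right a2 (by positivity)
    nlinarith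
  calc κ ≤ Real.exp (c / 2 * v ^ 4) * (1 + v ^ 12)⁻¹ := by
        rw [← div_eq_mul_inv, le_div_iff₀ (by positivity)]; linarith
    _ = _ := rfl

theorem q_int {P q : ℝ → ℝ} {c C : ℝ} (hG : Gev P q c C) (a : ℝ) (ha : 0 ≤ a) :
    Integrable fun y : ℝ => |q y| * Real.exp (a * Real.sqrt (1 + 2 * |y|)) := by
  obtain ⟨K, hK, hb⟩ := exp_bd hG.cpos a ha
  have hC : 0 ≤ C := by
    have := (abs_nonneg _).trans (hG.dec 0)
    exact nonneg_of_mul_nonneg_left this (Real.exp_pos _)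
  refine (integrable_inv_one_add_sq.const_mul (C * K)).mono' ?_ ?_
  · have := hG.cont
    exact (by fun_prop : Continuous _).aestronglyMeasurable
  · refine Filter.Eventually.of_forall fun y => ?_
    rw [Real.norm_of_nonneg (by positivity)]
    calc |q y| * Real.exp (a * Real.sqrt (1 + 2 * |y|)) ≤
        (C * Real.exp (-(c * |y| ^ (2 / 3 : ℝ)))) * Real.exp (a * Real.sqrt (1 + 2 * |y|)) :=
          mul_le_mul_of_nonneg_right (hG.dec y) (Real.exp_pos _).le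
      _ = C * (Real.exp (-(c * |y| ^ (2 / 3 : ℝ))) * Real.exp (a * Real.sqrt (1 + 2 * |y|))) := by ring
      _ ≤ C * (K * (1 + y ^ 2)⁻¹) := mul_le_mul_of_nonneg_left (hb y) hC
      _ = _ := by ring

theorem q_int0 {P q : ℝ → ℝ} {c C : ℝ} (hG : Gev P q c C) : Integrable q := by
  have := q_int hG 0 le_rfl
  simp only [zero_mul, Real.exp_zero, mul_one] at this
  exact (integrable_norm_iff hG.cont.aestronglyMeasurable).1 this

/-- linearity of the convolution under the integral -/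
theorem cv_int {α : Type*} [MeasurableSpace α] {μ : Measure α} {w : α → ℂ} {A : α → ℕ → ℂ} {a b : ℕ → ℂ}
    (h : ∀ n, 1 ≤ n → Integrable (fun z => w z * A z n) μ ∧ a n = ∫ z, w z * A z n ∂μ) (n : ℕ) :
    Integrable (fun z => w z * cv b (A z) n) μ ∧ cv b a n = ∫ z, w z * cv b (A z) n ∂μ := by
  have e : (fun z => w z * cv b (A z) n) = fun z => ∑ p ∈ n.divisorsAntidiagonal, b p.1 * (w z * A z p.2) := by
    funext z
    unfold cv
    rw [Finset.mul_sum]
    exact Finset.sum_congr rfl fun p _ => by ring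
  have hp : ∀ p ∈ n.divisorsAntidiagonal, 1 ≤ p.2 := by
    intro p hp
    obtain ⟨h1, h2⟩ := Nat.mem_divisorsAntidiagonal.1 hp
    exact Nat.pos_of_ne_zero fun h => h2 (by rw [← h1, h, mul_zero])
  rw [e]
  refine ⟨integrable_finsetSum _ fun p hp' => ((h _ (hp p hp')).1.const_mul _), ?_⟩
  rw [integral_finsetSum _ fun p hp' => ((h _ (hp p hp')).1.const_mul _)]
  unfold cv
  refine Finset.sum_congr rfl fun p hp' => ?_
  rw [integral_const_mul, ← (h _ (hp p hp')).2]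

theorem tw_eq (n : ℕ) (hn : 1 ≤ n) (τ : ℝ) : tw τ n = (al n : ℂ) * cexp (-(I * (τ * Real.log n : ℝ))) := by
  unfold tw
  have hn' : (n : ℂ) ≠ 0 := by exact_mod_cast (by omega : n ≠ 0)
  rw [Complex.cpow_def_of_ne_zero hn', ← Complex.natCast_log]
  congr 2
  push_cast
  ring

theorem norm_tw (n : ℕ) (hn : 1 ≤ n) (τ : ℝ) : ‖tw τ n‖ = |al n| := by
  rw [tw_eq n hn, norm_mul, show -(I * (τ * Real.log n : ℝ)) = ((-(τ * Real.log n) : ℝ) : ℂ) * I by push_cast; ring,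
    Complex.norm_exp_ofReal_mul_I, mul_one, Complex.norm_real, Real.norm_eq_abs]

/-- `e(l)` as an integral -/
theorem et_int {P q : ℝ → ℝ} {c C : ℝ} (hG : Gev P q c C) (Y l : ℕ) (hl : 1 ≤ l) :
    Integrable (fun y : ℝ => (q y : ℂ) * tw (-(y / Real.log Y)) l) ∧
      et P Y l = ∫ y : ℝ, (q y : ℂ) * tw (-(y / Real.log Y)) l := by
  have e : ∀ y : ℝ, (q y : ℂ) * tw (-(y / Real.log Y)) l =
      (al l : ℂ) * ((q y : ℂ) * cexp (I * (Real.log l / Real.log Y * y : ℝ))) := by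
    intro y
    rw [tw_eq l hl]
    rw [show -(I * ((-(y / Real.log Y) * Real.log l : ℝ) : ℂ)) = I * ((Real.log l / Real.log Y * y : ℝ) : ℂ) by
      push_cast; ring]
    ring
  simp only [e]
  have hi : Integrable (fun y : ℝ => (q y : ℂ) * cexp (I * (Real.log l / Real.log Y * y : ℝ))) := by
    refine (q_int0 hG).norm.mono' ?_ ?_
    · have := hG.cont
      exact (by fun_prop : Continuous _).aestronglyMeasurable
    · refine Filter.Eventually.of_forall fun y => ?_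
      rw [Real.norm_eq_abs, norm_mul, Complex.norm_real, Real.norm_eq_abs, show I * ((Real.log l / Real.log Y * y : ℝ) : ℂ) = ((Real.log l / Real.log Y * y : ℝ) : ℂ) * I by ring,
        Complex.norm_exp_ofReal_mul_I, mul_one]
  refine ⟨hi.const_mul _, ?_⟩
  rw [integral_const_mul, ← hG.rep]
  unfold et
  push_cast
  ring

/-- the mollifier coefficients squared, as an integral -/
theorem cvee_int {P q : ℝ → ℝ} {c C : ℝ} (hG : Gev P q c C) (Y n : ℕ) :
    Integrable (fun z : ℝ × ℝ => ((q z.1 : ℂ) * (q z.2 : ℂ)) * cv (tw (-(z.1 / Real.log Y))) (tw (-(z.2 / Real.log Y))) n)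
      (volume.prod volume) ∧
    cv (et P Y) (et P Y) n = ∫ z : ℝ × ℝ, ((q z.1 : ℂ) * (q z.2 : ℂ)) * cv (tw (-(z.1 / Real.log Y))) (tw (-(z.2 / Real.log Y))) n
      ∂(volume.prod volume) := by
  have e : (fun z : ℝ × ℝ => ((q z.1 : ℂ) * (q z.2 : ℂ)) * cv (tw (-(z.1 / Real.log Y))) (tw (-(z.2 / Real.log Y))) n) =
      fun z : ℝ × ℝ => ∑ p ∈ n.divisorsAntidiagonal, ((q z.1 : ℂ) * tw (-(z.1 / Real.log Y)) p.1) *
        ((q z.2 : ℂ) * tw (-(z.2 / Real.log Y)) p.2) := by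
    funext z
    unfold cv
    rw [Finset.mul_sum]
    exact Finset.sum_congr rfl fun p _ => by ring
  have hp : ∀ p ∈ n.divisorsAntidiagonal, 1 ≤ p.1 ∧ 1 ≤ p.2 := by
    intro p hp
    obtain ⟨h1, h2⟩ := Nat.mem_divisorsAntidiagonal.1 hp
    exact ⟨Nat.pos_of_ne_zero fun h => h2 (by rw [← h1, h, zero_mul]),
      Nat.pos_of_ne_zero fun h => h2 (by rw [← h1, h, mul_zero])⟩
  have hi : ∀ p ∈ n.divisorsAntidiagonal, Integrable (fun z : ℝ × ℝ => ((q z.1 : ℂ) * tw (-(z.1 / Real.log Y)) p.1) *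
        ((q z.2 : ℂ) * tw (-(z.2 / Real.log Y)) p.2)) (volume.prod volume) := fun p h =>
    (et_int hG Y p.1 (hp p h).1).1.mul_prod (et_int hG Y p.2 (hp p h).2).1
  rw [e]
  refine ⟨integrable_finsetSum _ hi, ?_⟩
  rw [integral_finsetSum _ hi]
  conv_lhs => unfold cv
  refine Finset.sum_congr rfl fun p h => ?_
  rw [integral_prod_mul (fun y : ℝ => (q y : ℂ) * tw (-(y / Real.log Y)) p.1) (fun y : ℝ => (q y : ℂ) * tw (-(y / Real.log Y)) p.2),
    ← (et_int hG Y p.1 (hp p h).1).2, ← (et_int hG Y p.2 (hp p h).2).2]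

/-- the divisor sum of the mollified sequence, as an integral -/
theorem div_int {P q : ℝ → ℝ} {c C : ℝ} (hG : Gev P q c C) (Y n : ℕ) (b : ℕ → ℂ) :
    Integrable (fun z : ℝ × ℝ => ((q z.1 : ℂ) * (q z.2 : ℂ)) * cv b (ff (-(z.1 / Real.log Y)) (-(z.2 / Real.log Y))) n)
      (volume.prod volume) ∧
    ∑ h ∈ n.divisors, cv b (cv (et P Y) (et P Y)) h =
      ∫ z : ℝ × ℝ, ((q z.1 : ℂ) * (q z.2 : ℂ)) * cv b (ff (-(z.1 / Real.log Y)) (-(z.2 / Real.log Y))) n
      ∂(volume.prod volume) := by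
  rw [sum_divisors_cv, cv_left_comm]
  have h1 := fun m => cv_int (μ := volume.prod volume) (w := fun z : ℝ × ℝ => (q z.1 : ℂ) * (q z.2 : ℂ))
    (A := fun z => cv (tw (-(z.1 / Real.log Y))) (tw (-(z.2 / Real.log Y))))
    (a := cv (et P Y) (et P Y)) (b := fun _ => 1) (fun n _ => cvee_int hG Y n) m
  exact cv_int (μ := volume.prod volume) (w := fun z : ℝ × ℝ => (q z.1 : ℂ) * (q z.2 : ℂ))
    (A := fun z => ff (-(z.1 / Real.log Y)) (-(z.2 / Real.log Y)))
    (a := cv (fun _ => 1) (cv (et P Y) (et P Y))) (b := b) (fun n _ => h1 n) n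

end

end Pool.Agent.Q97.UM
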