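import Pool.Agent.Q97.UM.R1
import Pool.Agent.Q97.UM.Stm4

set_option autoImplicit false

/-! Project UM: universal mollification for general windows. -/

namespace Pool.Agent.Q97.UM.W

open Filter Topology MeasureTheory Complex
open Pool.Agent.Q97.UM

noncomputable section

theorem q_int {P : ℝ → ℝ} {q : ℝ → ℂ} {c C : ℝ} (hG : Win P q c C) (a : ℝ) (ha : 0 ≤ a) :
    Integrable fun y : ℝ => ‖q y‖ * Real.exp (a * Real.sqrt (1 + 2 * |y|)) := by
  obtain ⟨K, hK, hb⟩ := exp_bd hG.cpos a ha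
  have hC : 0 ≤ C := by
    have := (norm_nonneg _).trans (hG.dec 0)
    exact nonneg_of_mul_nonneg_left this (Real.exp_pos _)
  refine (integrable_inv_one_add_sq.const_mul (C * K)).mono' ?_ ?_
  · have := hG.cont
    exact (by fun_prop : Continuous _).aestronglyMeasurable
  · refine Filter.Eventually.of_forall fun y => ?_
    rw [Real.norm_of_nonneg (by positivity)]
    calc ‖q y‖ * Real.exp (a * Real.sqrt (1 + 2 * |y|)) ≤
        (C * Real.exp (-(c * |y| ^ (2 / 3 : ℝ)))) * Real.exp (a * Real.sqrt (1 + 2 * |y|)) :=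
          mul_le_mul_of_nonneg_right (hG.dec y) (Real.exp_pos _).le
      _ = C * (Real.exp (-(c * |y| ^ (2 / 3 : ℝ))) * Real.exp (a * Real.sqrt (1 + 2 * |y|))) := by ring
      _ ≤ C * (K * (1 + y ^ 2)⁻¹) := mul_le_mul_of_nonneg_left (hb y) hC
      _ = _ := by ring

theorem q_int0 {P : ℝ → ℝ} {q : ℝ → ℂ} {c C : ℝ} (hG : Win P q c C) : Integrable q := by
  have := q_int hG 0 le_rfl
  simp only [zero_mul, Real.exp_zero, mul_one] at this
  exact (integrable_norm_iff hG.cont.aestronglyMeasurable).1 this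

/-- `e(l)` as an integral -/
theorem et_int {P : ℝ → ℝ} {q : ℝ → ℂ} {c C : ℝ} (hG : Win P q c C) (Y l : ℕ) (hl : 1 ≤ l) :
    Integrable (fun y : ℝ => q y * tw (-(y / Real.log Y)) l) ∧
      et P Y l = ∫ y : ℝ, q y * tw (-(y / Real.log Y)) l := by
  have e : ∀ y : ℝ, q y * tw (-(y / Real.log Y)) l =
      (al l : ℂ) * (q y * cexp (I * (Real.log l / Real.log Y * y : ℝ))) := by
    intro y
    rw [tw_eq l hl]
    rw [show -(I * ((-(y / Real.log Y) * Real.log l : ℝ) : ℂ)) = I * ((Real.log l / Real.log Y * y : ℝ) : ℂ) by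
      push_cast; ring]
    ring
  simp only [e]
  have hi : Integrable (fun y : ℝ => q y * cexp (I * (Real.log l / Real.log Y * y : ℝ))) := by
    refine (q_int0 hG).norm.mono' ?_ ?_
    · have := hG.cont
      exact (by fun_prop : Continuous _).aestronglyMeasurable
    · refine Filter.Eventually.of_forall fun y => ?_
      rw [norm_mul, show I * ((Real.log l / Real.log Y * y : ℝ) : ℂ) = ((Real.log l / Real.log Y * y : ℝ) : ℂ) * I by ring,
        Complex.norm_exp_ofReal_mul_I, mul_one]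
  refine ⟨hi.const_mul _, ?_⟩
  rw [integral_const_mul, ← hG.rep]
  unfold et
  push_cast
  ring

/-- the mollifier coefficients squared, as an integral -/
theorem cvee_int {P : ℝ → ℝ} {q : ℝ → ℂ} {c C : ℝ} (hG : Win P q c C) (Y n : ℕ) :
    Integrable (fun z : ℝ × ℝ => (q z.1 * q z.2) * cv (tw (-(z.1 / Real.log Y))) (tw (-(z.2 / Real.log Y))) n)
      (volume.prod volume) ∧
    cv (et P Y) (et P Y) n = ∫ z : ℝ × ℝ, (q z.1 * q z.2) * cv (tw (-(z.1 / Real.log Y))) (tw (-(z.2 / Real.log Y))) n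
      ∂(volume.prod volume) := by
  have e : (fun z : ℝ × ℝ => (q z.1 * q z.2) * cv (tw (-(z.1 / Real.log Y))) (tw (-(z.2 / Real.log Y))) n) =
      fun z : ℝ × ℝ => ∑ p ∈ n.divisorsAntidiagonal, (q z.1 * tw (-(z.1 / Real.log Y)) p.1) *
        (q z.2 * tw (-(z.2 / Real.log Y)) p.2) := by
    funext z
    unfold cv
    rw [Finset.mul_sum]
    exact Finset.sum_congr rfl fun p _ => by ring
  have hp : ∀ p ∈ n.divisorsAntidiagonal, 1 ≤ p.1 ∧ 1 ≤ p.2 := by
    intro p hp
    obtain ⟨h1, h2⟩ := Nat.mem_divisorsAntidiagonal.1 hp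
    exact ⟨Nat.pos_of_ne_zero fun h => h2 (by rw [← h1, h, zero_mul]),
      Nat.pos_of_ne_zero fun h => h2 (by rw [← h1, h, mul_zero])⟩
  have hi : ∀ p ∈ n.divisorsAntidiagonal, Integrable (fun z : ℝ × ℝ => (q z.1 * tw (-(z.1 / Real.log Y)) p.1) *
        (q z.2 * tw (-(z.2 / Real.log Y)) p.2)) (volume.prod volume) := fun p h =>
    (et_int hG Y p.1 (hp p h).1).1.mul_prod (et_int hG Y p.2 (hp p h).2).1
  rw [e]
  refine ⟨integrable_finsetSum _ hi, ?_⟩
  rw [integral_finsetSum _ hi]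
  conv_lhs => unfold cv
  refine Finset.sum_congr rfl fun p h => ?_
  rw [integral_prod_mul (fun y : ℝ => q y * tw (-(y / Real.log Y)) p.1) (fun y : ℝ => q y * tw (-(y / Real.log Y)) p.2),
    ← (et_int hG Y p.1 (hp p h).1).2, ← (et_int hG Y p.2 (hp p h).2).2]

/-- the divisor sum of the mollified sequence, as an integral -/
theorem div_int {P : ℝ → ℝ} {q : ℝ → ℂ} {c C : ℝ} (hG : Win P q c C) (Y n : ℕ) (b : ℕ → ℂ) :
    Integrable (fun z : ℝ × ℝ => (q z.1 * q z.2) * cv b (ff (-(z.1 / Real.log Y)) (-(z.2 / Real.log Y))) n)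
      (volume.prod volume) ∧
    ∑ h ∈ n.divisors, cv b (cv (et P Y) (et P Y)) h =
      ∫ z : ℝ × ℝ, (q z.1 * q z.2) * cv b (ff (-(z.1 / Real.log Y)) (-(z.2 / Real.log Y))) n
      ∂(volume.prod volume) := by
  rw [sum_divisors_cv, cv_left_comm]
  have h1 := fun m => cv_int (μ := volume.prod volume) (w := fun z : ℝ × ℝ => q z.1 * q z.2)
    (A := fun z => cv (tw (-(z.1 / Real.log Y))) (tw (-(z.2 / Real.log Y))))
    (a := cv (et P Y) (et P Y)) (b := fun _ => 1) (fun n _ => cvee_int hG Y n) m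
  exact cv_int (μ := volume.prod volume) (w := fun z : ℝ × ℝ => q z.1 * q z.2)
    (A := fun z => ff (-(z.1 / Real.log Y)) (-(z.2 / Real.log Y)))
    (a := cv (fun _ => 1) (cv (et P Y) (et P Y))) (b := b) (fun n _ => h1 n) n

end

end Pool.Agent.Q97.UM.W
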