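import Pool.Agent.Q97.UM.Stm3
import Pool.Agent.Q97.UM.R1

set_option autoImplicit false

/-! Project UM: algebra for the mean square of `B · XD`. -/

namespace Pool.Agent.Q97.UM

open Filter Topology MeasureTheory Complex

noncomputable section

/-- a sum against a convolution -/
theorem cv_sum {N M : ℕ} {b c : ℕ → ℂ} (hb : ∀ n, N < n → b n = 0) (hc : ∀ n, M < n → c n = 0) (F : ℕ → ℂ) :
    ∑ a ∈ Finset.Icc 1 (N * M), cv b c a * F a =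
      ∑ k ∈ Finset.Icc 1 N, ∑ l ∈ Finset.Icc 1 M, b k * c l * F (k * l) := by
  rw [← Finset.sum_product']
  have hmap : ∀ p ∈ Finset.Icc 1 N ×ˢ Finset.Icc 1 M, p.1 * p.2 ∈ Finset.Icc 1 (N * M) := by
    intro p hp
    rw [Finset.mem_product, Finset.mem_Icc, Finset.mem_Icc] at hp
    rw [Finset.mem_Icc]
    exact ⟨Nat.mul_pos hp.1.1 hp.2.1, Nat.mul_le_mul hp.1.2 hp.2.2⟩
  rw [← Finset.sum_fiberwise_of_maps_to hmap]
  refine Finset.sum_congr rfl fun a ha => ?_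
  unfold cv
  rw [Finset.sum_mul]
  symm
  have ha1 : 1 ≤ a := (Finset.mem_Icc.1 ha).1
  have hsub : (Finset.Icc 1 N ×ˢ Finset.Icc 1 M).filter (fun p => p.1 * p.2 = a) ⊆ a.divisorsAntidiagonal := by
    intro p hp
    rw [Finset.mem_filter] at hp
    rw [Nat.mem_divisorsAntidiagonal]
    exact ⟨hp.2, by omega⟩
  rw [← Finset.sum_subset hsub]
  · refine Finset.sum_congr rfl fun p hp => ?_
    rw [Finset.mem_filter] at hp
    rw [hp.2]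
  · intro p hp hp2
    rw [Nat.mem_divisorsAntidiagonal] at hp
    rw [Finset.mem_filter, Finset.mem_product, Finset.mem_Icc, Finset.mem_Icc] at hp2
    have h1 : p.1 ≠ 0 := fun h => hp.2 (by rw [← hp.1, h, zero_mul])
    have h2 : p.2 ≠ 0 := fun h => hp.2 (by rw [← hp.1, h, mul_zero])
    by_cases h3 : N < p.1
    · rw [hb _ h3]; simp
    · by_cases h4 : M < p.2
      · rw [hc _ h4]; simp
      · exact absurd ⟨⟨⟨by omega, by omega⟩, ⟨by omega, by omega⟩⟩, hp.1⟩ hp2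

theorem cv_van {N M : ℕ} {b c : ℕ → ℂ} (hb : ∀ n, N < n → b n = 0) (hc : ∀ n, M < n → c n = 0) :
    ∀ n, N * M < n → cv b c n = 0 := by
  intro n hn
  by_contra h
  obtain ⟨k, l, hkl, hn0, hk, hl⟩ := cv_supp h
  have h1 : k ≤ N := by by_contra h; exact hk (hb k (by omega))
  have h2 : l ≤ M := by by_contra h; exact hl (hc l (by omega))
  have := Nat.mul_le_mul h1 h2
  omega

/-- the index set of triples -/
def T3 (N Y : ℕ) : Finset (ℕ × ℕ × ℕ) := Finset.Icc 1 N ×ˢ Finset.Icc 1 Y ×ˢ Finset.Icc 1 Y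

theorem mem_T3 {N Y : ℕ} {x : ℕ × ℕ × ℕ} : x ∈ T3 N Y ↔ (1 ≤ x.1 ∧ x.1 ≤ N) ∧ (1 ≤ x.2.1 ∧ x.2.1 ≤ Y) ∧ (1 ≤ x.2.2 ∧ x.2.2 ≤ Y) := by
  unfold T3
  rw [Finset.mem_product, Finset.mem_product, Finset.mem_Icc, Finset.mem_Icc, Finset.mem_Icc]

theorem cv3_sum {N Y : ℕ} {b e : ℕ → ℂ} (hb : ∀ n, N < n → b n = 0) (he : ∀ n, Y < n → e n = 0) (F : ℕ → ℂ) :
    ∑ a ∈ Finset.Icc 1 (N * Y ^ 2), cv b (cv e e) a * F a =
      ∑ x ∈ T3 N Y, b x.1 * e x.2.1 * e x.2.2 * F (x.1 * x.2.1 * x.2.2) := by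
  rw [pow_two, cv_sum hb (cv_van he he)]
  unfold T3
  rw [Finset.sum_product]
  refine Finset.sum_congr rfl fun k _ => ?_
  have h1 := cv_sum he he (fun l => b k * F (k * l))
  rw [Finset.sum_product]
  calc ∑ l ∈ Finset.Icc 1 (Y * Y), b k * cv e e l * F (k * l)
      = ∑ l ∈ Finset.Icc 1 (Y * Y), cv e e l * (b k * F (k * l)) := Finset.sum_congr rfl fun l _ => by ring
    _ = _ := by
      rw [h1]
      refine Finset.sum_congr rfl fun u _ => Finset.sum_congr rfl fun v _ => ?_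
      simp only []
      rw [mul_assoc k u v]
      ring

/-- the gcd form of a triple convolution with a real symmetric factor -/
theorem QF3 {N Y : ℕ} {b : ℕ → ℂ} {e : ℕ → ℝ} (hb : ∀ n, N < n → b n = 0) (he : ∀ n, Y < n → e n = 0) :
    QF (N * Y ^ 2) (cv b (cv (fun n => (e n : ℂ)) (fun n => (e n : ℂ)))) =
      ∑ x ∈ T3 N Y, ∑ x' ∈ T3 N Y, b x.1 * (starRingEnd ℂ) (b x'.1) *
        ((e x.2.1 * e x.2.2 * e x'.2.1 * e x'.2.2 / (Nat.lcm (x.1 * x.2.1 * x'.2.2) (x'.1 * x'.2.1 * x.2.2) : ℝ) : ℝ) : ℂ) := by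
  have he' : ∀ n, Y < n → (fun n => (e n : ℂ)) n = 0 := fun n hn => by simp [he n hn]
  set c := cv b (cv (fun n => (e n : ℂ)) (fun n => (e n : ℂ))) with hc
  have hcc : ∀ a, (starRingEnd ℂ) (c a) = cv (fun n => (starRingEnd ℂ) (b n)) (cv (fun n => (e n : ℂ)) (fun n => (e n : ℂ))) a := by
    intro a
    rw [hc]
    unfold cv
    simp only [map_sum, map_mul, Complex.conj_ofReal]
  have h1 : QF (N * Y ^ 2) c = ∑ x ∈ T3 N Y, ∑ x' ∈ T3 N Y, b x.1 * (starRingEnd ℂ) (b x'.1) *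
        ((e x.2.1 * e x.2.2 * e x'.2.1 * e x'.2.2 / (Nat.lcm (x.1 * x.2.1 * x.2.2) (x'.1 * x'.2.1 * x'.2.2) : ℝ) : ℝ) : ℂ) := by
    unfold QF
    have k1 : ∀ h : ℕ, ∑ k ∈ Finset.Icc 1 (N * Y ^ 2), c h * (starRingEnd ℂ) (c k) * ((1 / (Nat.lcm h k : ℝ) : ℝ) : ℂ) =
        c h * ∑ x' ∈ T3 N Y, (starRingEnd ℂ) (b x'.1) * (e x'.2.1 : ℂ) * (e x'.2.2 : ℂ) *
          ((1 / (Nat.lcm h (x'.1 * x'.2.1 * x'.2.2) : ℝ) : ℝ) : ℂ) := by
      intro h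
      rw [← cv3_sum (b := fun n => (starRingEnd ℂ) (b n)) (e := fun n => (e n : ℂ)) (fun n hn => by simp [hb n hn]) he'
        (fun k => ((1 / (Nat.lcm h k : ℝ) : ℝ) : ℂ)), Finset.mul_sum]
      refine Finset.sum_congr rfl fun k _ => ?_
      rw [hcc]
      ring
    rw [Finset.sum_congr rfl fun h _ => k1 h, hc, cv3_sum hb he'
      (fun h => ∑ x' ∈ T3 N Y, (starRingEnd ℂ) (b x'.1) * (e x'.2.1 : ℂ) * (e x'.2.2 : ℂ) *
          ((1 / (Nat.lcm h (x'.1 * x'.2.1 * x'.2.2) : ℝ) : ℝ) : ℂ))]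
    refine Finset.sum_congr rfl fun x _ => ?_
    rw [Finset.mul_sum]
    refine Finset.sum_congr rfl fun x' _ => ?_
    push_cast
    ring
  rw [h1, ← Finset.sum_product', ← Finset.sum_product']
  refine Finset.sum_nbij' (fun z => ((z.1.1, z.1.2.1, z.2.2.2), (z.2.1, z.2.2.1, z.1.2.2)))
    (fun z => ((z.1.1, z.1.2.1, z.2.2.2), (z.2.1, z.2.2.1, z.1.2.2))) ?_ ?_ ?_ ?_ ?_
  · intro z hz
    rw [Finset.mem_product, mem_T3, mem_T3] at hz ⊢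
    exact ⟨⟨hz.1.1, hz.1.2.1, hz.2.2.2⟩, ⟨hz.2.1, hz.2.2.1, hz.1.2.2⟩⟩
  · intro z hz
    rw [Finset.mem_product, mem_T3, mem_T3] at hz ⊢
    exact ⟨⟨hz.1.1, hz.1.2.1, hz.2.2.2⟩, ⟨hz.2.1, hz.2.2.1, hz.1.2.2⟩⟩
  · intro z _; rfl
  · intro z _; rfl
  · intro z _
    simp only []
    congr 2
    ring

end

end Pool.Agent.Q97.UM
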