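import Pool.Agent.Q97.UM.R3a

set_option autoImplicit false

/-! Project UM: the diagonal of the mean square of `B · XD`. -/

namespace Pool.Agent.Q97.UM

open Filter Topology MeasureTheory Complex
open scoped ContDiff

noncomputable section

def Hf (ψ₁ : ℝ → ℝ) (δ L a u : ℝ) : ℝ := ψ₁ ((u / L - (1 / 2 - a / L)) / δ)

def Gf (ψ₁ : ℝ → ℝ) (δ L s x : ℝ) : ℝ := ψ₁ (((s - x) / L - 1 / 2) / δ)

theorem Hf_shift (ψ₁ : ℝ → ℝ) {δ L : ℝ} (s a lc x κ : ℝ) (h : lc = x + a + κ) :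
    Hf ψ₁ δ L a (s - lc) = Gf ψ₁ δ L (s - κ) x := by
  unfold Hf Gf
  congr 2
  rw [h]
  ring

theorem Hf_int (ψ₁ : ℝ → ℝ) {δ L : ℝ} (a a' lc lc' x x' κ : ℝ) (h : lc = x + a + κ) (h' : lc' = x' + a' + κ) :
    ∫ s : ℝ, Hf ψ₁ δ L a (s - lc) * Hf ψ₁ δ L a' (s - lc') = ∫ s : ℝ, Gf ψ₁ δ L s x * Gf ψ₁ δ L s x' := by
  have e : ∀ s, Hf ψ₁ δ L a (s - lc) * Hf ψ₁ δ L a' (s - lc') = (fun s => Gf ψ₁ δ L s x * Gf ψ₁ δ L s x') (s - κ) := by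
    intro s
    rw [Hf_shift ψ₁ s a lc x κ h, Hf_shift ψ₁ s a' lc' x' κ h']
  simp only [e]
  exact integral_sub_right_eq_self (fun s => Gf ψ₁ δ L s x * Gf ψ₁ δ L s x') κ

theorem Hf_cd {ψ₁ : ℝ → ℝ} (h : ContDiff ℝ ∞ ψ₁) (δ L a : ℝ) : ContDiff ℝ 1 (Hf ψ₁ δ L a) := by
  have h1 : ContDiff ℝ 1 ψ₁ := h.of_le (by exact_mod_cast le_top)
  unfold Hf
  exact h1.comp (by fun_prop)

theorem Hf_deriv {ψ₁ : ℝ → ℝ} (h : ContDiff ℝ ∞ ψ₁) {C₂ : ℝ} (hd : ∀ u, |deriv ψ₁ u| ≤ C₂) {δ L : ℝ} (hδ : 0 < δ)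
    (hL : 0 < L) (hC : C₂ ≤ δ * L) (a u : ℝ) : |deriv (Hf ψ₁ δ L a) u| ≤ 1 := by
  have h1 : HasDerivAt (fun u : ℝ => (u / L - (1 / 2 - a / L)) / δ) (1 / L / δ) u :=
    (((hasDerivAt_id u).div_const L).sub_const _).div_const δ
  have h2 : DifferentiableAt ℝ ψ₁ ((u / L - (1 / 2 - a / L)) / δ) :=
    (h.differentiable (by simp)).differentiableAt
  have h3 : HasDerivAt (Hf ψ₁ δ L a) (deriv ψ₁ ((u / L - (1 / 2 - a / L)) / δ) * (1 / L / δ)) u :=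
    h2.hasDerivAt.comp u h1
  rw [h3.deriv, abs_mul, abs_of_pos (show 0 < 1 / L / δ by positivity)]
  calc |deriv ψ₁ ((u / L - (1 / 2 - a / L)) / δ)| * (1 / L / δ) ≤ C₂ * (1 / L / δ) :=
        mul_le_mul_of_nonneg_right (hd _) (by positivity)
    _ ≤ (δ * L) * (1 / L / δ) := mul_le_mul_of_nonneg_right hC (by positivity)
    _ = 1 := by field_simp

theorem Hf_ne {ψ₁ : ℝ → ℝ} (hs : ∀ u, 1 ≤ |u| → ψ₁ u = 0) {δ L : ℝ} (hδ : 0 < δ) (hL : 0 < L) {a u : ℝ}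
    (h : Hf ψ₁ δ L a u ≠ 0) : (1 / 2 - δ) * L - a ≤ u ∧ u ≤ (1 / 2 + δ) * L - a := by
  have h1 : |(u / L - (1 / 2 - a / L)) / δ| < 1 := by
    by_contra hc
    exact h (hs _ (not_lt.1 hc))
  rw [abs_div, abs_of_pos hδ, div_lt_one hδ, abs_lt] at h1
  obtain ⟨h2, h3⟩ := h1
  have e : u / L - (1 / 2 - a / L) = (u + a - L / 2) / L := by field_simp; ring
  rw [e] at h2 h3
  rw [div_lt_iff₀ hL] at h3
  rw [lt_div_iff₀ hL] at h2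
  constructor <;> linarith

theorem Gf_out {ψ₁ : ℝ → ℝ} (hs : ∀ u, 1 ≤ |u| → ψ₁ u = 0) {δ L : ℝ} (hδ : 0 < δ) (hL : 0 < L) {x s : ℝ}
    (h : s ∉ Set.Icc (x + L / 2 - δ * L) (x + L / 2 + δ * L)) : Gf ψ₁ δ L s x = 0 := by
  unfold Gf
  apply hs
  rw [abs_div, abs_of_pos hδ, le_div_iff₀ hδ, one_mul]
  have e : (s - x) / L - 1 / 2 = (s - x - L / 2) / L := by field_simp
  rw [e, abs_div, abs_of_pos hL, le_div_iff₀ hL]
  by_contra hc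
  rw [not_le, abs_lt] at hc
  exact h ⟨by linarith [hc.1], by linarith [hc.2]⟩

theorem Gf_cont {ψ₁ : ℝ → ℝ} (h : Continuous ψ₁) (δ L x : ℝ) : Continuous fun s => Gf ψ₁ δ L s x := by
  unfold Gf
  exact h.comp (by fun_prop)

theorem Gf_cs {ψ₁ : ℝ → ℝ} (hs : ∀ u, 1 ≤ |u| → ψ₁ u = 0) {δ L : ℝ} (hδ : 0 < δ) (hL : 0 < L) (x : ℝ) :
    HasCompactSupport fun s => Gf ψ₁ δ L s x :=
  HasCompactSupport.intro isCompact_Icc fun _ hs' => Gf_out hs hδ hL hs'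

theorem GG_int {ψ₁ : ℝ → ℝ} (h : Continuous ψ₁) (hs : ∀ u, 1 ≤ |u| → ψ₁ u = 0) {δ L : ℝ} (hδ : 0 < δ) (hL : 0 < L)
    (x x' : ℝ) : Integrable fun s => Gf ψ₁ δ L s x * Gf ψ₁ δ L s x' :=
  ((Gf_cont h δ L x).mul (Gf_cont h δ L x')).integrable_of_hasCompactSupport ((Gf_cs hs hδ hL x).mul_right)

theorem GG_sq {ψ₁ : ℝ → ℝ} (h : Continuous ψ₁) (hs : ∀ u, 1 ≤ |u| → ψ₁ u = 0) (hb : ∀ u, |ψ₁ u| ≤ 1) {δ L : ℝ}
    (hδ : 0 < δ) (hL : 0 < L) (x : ℝ) : ∫ s, Gf ψ₁ δ L s x ^ 2 ≤ 2 * δ * L := by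
  set A := Set.Icc (x + L / 2 - δ * L) (x + L / 2 + δ * L) with hA
  have h1 : ∀ s, Gf ψ₁ δ L s x ^ 2 ≤ A.indicator (fun _ => (1 : ℝ)) s := by
    intro s
    by_cases hs' : s ∈ A
    · rw [Set.indicator_of_mem hs']
      have := hb (((s - x) / L - 1 / 2) / δ)
      have h2 : |Gf ψ₁ δ L s x| ≤ 1 := this
      rw [← sq_abs]
      exact pow_le_one₀ (abs_nonneg _) h2
    · rw [Set.indicator_of_notMem hs', Gf_out hs hδ hL hs']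
      norm_num
  have h2 := GG_int h hs hδ hL x x
  have h3 : Integrable fun s => Gf ψ₁ δ L s x ^ 2 := by simpa only [pow_two] using h2
  have h4 : Integrable (A.indicator (fun _ => (1 : ℝ))) :=
    (integrable_indicator_iff measurableSet_Icc).2 (integrableOn_const (by rw [Real.volume_Icc]; exact ENNReal.ofReal_ne_top))
  refine (integral_mono h3 h4 h1).trans ?_
  rw [integral_indicator measurableSet_Icc, integral_const, smul_eq_mul, mul_one, measureReal_restrict_apply MeasurableSet.univ,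
    Set.univ_inter, Real.volume_real_Icc_of_le (by nlinarith [mul_pos hδ hL])]
  linarith

/-! ### the coefficients -/

def Ax (b : ℕ → ℂ) (e : ℕ → ℝ) (x : ℕ × ℕ × ℕ) : ℂ :=
  b x.1 * ((e x.2.1 * e x.2.2 / Real.sqrt ((x.1 : ℝ) * x.2.1 * x.2.2) : ℝ) : ℂ)

def fx (ψ₁ : ℝ → ℝ) (δ L : ℝ) (b : ℕ → ℂ) (e : ℕ → ℝ) (i : (ℕ × ℕ × ℕ) × ℕ) : ℂ :=
  Ax b e i.1 * ((1 / Real.sqrt i.2 * Hf ψ₁ δ L (Real.log i.1.2.1 - Real.log i.1.2.2) (Real.log i.2) : ℝ) : ℂ)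

def omr (i : (ℕ × ℕ × ℕ) × ℕ) : ℝ := Real.log i.1.1 + Real.log i.1.2.1 - Real.log i.1.2.2 + Real.log i.2

theorem npow (m : ℕ) (hm : 1 ≤ m) (t : ℝ) :
    (m : ℂ) ^ (-(1 / 2 + t * I)) = ((1 / Real.sqrt m : ℝ) : ℂ) * cexp (-(I * (Real.log m * t : ℝ))) := by
  have hm' : (m : ℂ) ≠ 0 := by exact_mod_cast (by omega : m ≠ 0)
  have hm0 : (0 : ℝ) < m := by exact_mod_cast (by omega : 0 < m)
  rw [Complex.cpow_def_of_ne_zero hm', ← Complex.natCast_log]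
  have e1 : (1 / Real.sqrt m : ℝ) = Real.exp (-(Real.log m / 2)) := by
    rw [Real.exp_neg, one_div, ← Real.log_sqrt hm0.le, Real.exp_log (Real.sqrt_pos.2 hm0)]
  rw [e1, Complex.ofReal_exp, ← Complex.exp_add]
  congr 1
  push_cast
  ring

/-- expansion of the product -/
theorem BX_eq (Pw ψ₁ : ℝ → ℝ) (δ L : ℝ) (N Y Z : ℕ) (b : ℕ → ℂ) (t : ℝ) :
    dp N b t * XD Pw ψ₁ δ Y Z L t =
      ∑ i ∈ T3 N Y ×ˢ Finset.Icc 1 Z, fx ψ₁ δ L b (er Pw Y) i * cexp (-(I * (omr i * t : ℝ))) := by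
  unfold dp XD T3
  rw [Finset.sum_product, Finset.sum_product, Finset.sum_mul]
  refine Finset.sum_congr rfl fun m hm => ?_
  rw [Finset.sum_product, Finset.mul_sum]
  refine Finset.sum_congr rfl fun h hh => ?_
  rw [Finset.mul_sum]
  refine Finset.sum_congr rfl fun k hk => ?_
  rw [Finset.mul_sum]
  refine Finset.sum_congr rfl fun n hn => ?_
  rw [Finset.mem_Icc] at hm hh hk hn
  rw [npow m hm.1]
  unfold fx Ax Hf omr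
  simp only []
  have e1 : Real.sqrt ((h : ℝ) * k * n) = Real.sqrt ((h : ℝ) * k) * Real.sqrt n := Real.sqrt_mul (by positivity) _
  have e2 : Real.sqrt ((m : ℝ) * h * k) = Real.sqrt m * Real.sqrt ((h : ℝ) * k) := by
    rw [mul_assoc, Real.sqrt_mul (Nat.cast_nonneg _)]
  rw [e1, e2]
  have e3 : cexp (-(I * ((Real.log m + Real.log h - Real.log k + Real.log n) * t : ℝ))) =
      cexp (-(I * (Real.log m * t : ℝ))) * cexp (-(I * ((Real.log n + Real.log h - Real.log k) * t : ℝ))) := by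
    rw [← Complex.exp_add]
    congr 1
    push_cast
    ring
  rw [e3]
  push_cast
  ring

theorem om_iff {N Y Z : ℕ} {i j : (ℕ × ℕ × ℕ) × ℕ} (hi : i ∈ T3 N Y ×ˢ Finset.Icc 1 Z) (hj : j ∈ T3 N Y ×ˢ Finset.Icc 1 Z) :
    omr i = omr j ↔ i.2 * (i.1.1 * i.1.2.1 * j.1.2.2) = j.2 * (j.1.1 * j.1.2.1 * i.1.2.2) := by
  rw [Finset.mem_product, mem_T3, Finset.mem_Icc] at hi hj
  obtain ⟨⟨⟨a1, -⟩, ⟨a2, -⟩, ⟨a3, -⟩⟩, a4, -⟩ := hi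
  obtain ⟨⟨⟨b1, -⟩, ⟨b2, -⟩, ⟨b3, -⟩⟩, b4, -⟩ := hj
  have hne : ∀ n : ℕ, 1 ≤ n → (n : ℝ) ≠ 0 := fun n hn => by exact_mod_cast (by omega : n ≠ 0)
  have e1 : Real.log ((i.2 * (i.1.1 * i.1.2.1 * j.1.2.2) : ℕ) : ℝ) =
      Real.log i.2 + (Real.log i.1.1 + Real.log i.1.2.1 + Real.log j.1.2.2) := by
    push_cast
    rw [Real.log_mul (hne _ a4) (mul_ne_zero (mul_ne_zero (hne _ a1) (hne _ a2)) (hne _ b3)),
      Real.log_mul (mul_ne_zero (hne _ a1) (hne _ a2)) (hne _ b3), Real.log_mul (hne _ a1) (hne _ a2)]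
  have e2 : Real.log ((j.2 * (j.1.1 * j.1.2.1 * i.1.2.2) : ℕ) : ℝ) =
      Real.log j.2 + (Real.log j.1.1 + Real.log j.1.2.1 + Real.log i.1.2.2) := by
    push_cast
    rw [Real.log_mul (hne _ b4) (mul_ne_zero (mul_ne_zero (hne _ b1) (hne _ b2)) (hne _ a3)),
      Real.log_mul (mul_ne_zero (hne _ b1) (hne _ b2)) (hne _ a3), Real.log_mul (hne _ b1) (hne _ b2)]
  constructor
  · intro h
    have h1 : Real.log ((i.2 * (i.1.1 * i.1.2.1 * j.1.2.2) : ℕ) : ℝ) = Real.log ((j.2 * (j.1.1 * j.1.2.1 * i.1.2.2) : ℕ) : ℝ) := by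
      rw [e1, e2]; unfold omr at h; linarith
    have h2 := Real.log_injOn_pos (Set.mem_Ioi.2 (by positivity)) (Set.mem_Ioi.2 (by positivity)) h1
    exact_mod_cast h2
  · intro h
    have h1 : Real.log ((i.2 * (i.1.1 * i.1.2.1 * j.1.2.2) : ℕ) : ℝ) = Real.log ((j.2 * (j.1.1 * j.1.2.1 * i.1.2.2) : ℕ) : ℝ) := by
      rw [h]
    rw [e1, e2] at h1; unfold omr; linarith

/-- the double sum over `n, n'` -/
def Sx (ψ₁ : ℝ → ℝ) (δ L : ℝ) (Z : ℕ) (x x' : ℕ × ℕ × ℕ) : ℝ :=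
  ∑ n ∈ Finset.Icc 1 Z, ∑ n' ∈ Finset.Icc 1 Z, if n * (x.1 * x.2.1 * x'.2.2) = n' * (x'.1 * x'.2.1 * x.2.2) then
      1 / Real.sqrt ((n : ℝ) * n') * (Hf ψ₁ δ L (Real.log x.2.1 - Real.log x.2.2) (Real.log n) *
        Hf ψ₁ δ L (Real.log x'.2.1 - Real.log x'.2.2) (Real.log n')) else 0

theorem diag_eq (ψ₁ : ℝ → ℝ) (δ L : ℝ) (N Y Z : ℕ) (b : ℕ → ℂ) (e : ℕ → ℝ) :
    (∑ i ∈ T3 N Y ×ˢ Finset.Icc 1 Z, ∑ j ∈ T3 N Y ×ˢ Finset.Icc 1 Z,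
      (open Classical in if omr i = omr j then fx ψ₁ δ L b e i * (starRingEnd ℂ) (fx ψ₁ δ L b e j) else 0)) =
    ∑ x ∈ T3 N Y, ∑ x' ∈ T3 N Y, Ax b e x * (starRingEnd ℂ) (Ax b e x') * (Sx ψ₁ δ L Z x x' : ℂ) := by
  classical
  rw [Finset.sum_product]
  refine Finset.sum_congr rfl fun x hx => ?_
  have k1 : ∀ n ∈ Finset.Icc 1 Z, (∑ j ∈ T3 N Y ×ˢ Finset.Icc 1 Z,
      if omr (x, n) = omr j then fx ψ₁ δ L b e (x, n) * (starRingEnd ℂ) (fx ψ₁ δ L b e j) else 0) =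
      ∑ x' ∈ T3 N Y, ∑ n' ∈ Finset.Icc 1 Z, if n * (x.1 * x.2.1 * x'.2.2) = n' * (x'.1 * x'.2.1 * x.2.2) then
        fx ψ₁ δ L b e (x, n) * (starRingEnd ℂ) (fx ψ₁ δ L b e (x', n')) else 0 := by
    intro n hn
    rw [Finset.sum_product]
    refine Finset.sum_congr rfl fun x' hx' => Finset.sum_congr rfl fun n' hn' => ?_
    have := om_iff (i := (x, n)) (j := (x', n')) (Finset.mem_product.2 ⟨hx, hn⟩) (Finset.mem_product.2 ⟨hx', hn'⟩)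
    simp only [this]
  rw [Finset.sum_congr rfl k1, Finset.sum_comm]
  refine Finset.sum_congr rfl fun x' _ => ?_
  unfold Sx
  rw [Complex.ofReal_sum, Finset.mul_sum]
  refine Finset.sum_congr rfl fun n hn => ?_
  rw [Complex.ofReal_sum, Finset.mul_sum]
  refine Finset.sum_congr rfl fun n' hn' => ?_
  split_ifs with hc
  · unfold fx
    simp only [map_mul, Complex.conj_ofReal]
    rw [Real.sqrt_mul (Nat.cast_nonneg _)]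
    push_cast
    ring
  · simp

end

end Pool.Agent.Q97.UM
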