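import Pool.Agent.Q97.UM.R3b

set_option autoImplicit false

/-! Project UM: main term and error term of the diagonal. -/

namespace Pool.Agent.Q97.UM

open Filter Topology MeasureTheory Complex
open scoped ContDiff

noncomputable section

/-- the main term -/
def Mn (ψ₁ : ℝ → ℝ) (δ L : ℝ) (N Y : ℕ) (b : ℕ → ℂ) (e : ℕ → ℝ) : ℂ :=
  ∑ x ∈ T3 N Y, ∑ x' ∈ T3 N Y, b x.1 * (starRingEnd ℂ) (b x'.1) *
    ((e x.2.1 * e x.2.2 * e x'.2.1 * e x'.2.2 / (Nat.lcm (x.1 * x.2.1 * x'.2.2) (x'.1 * x'.2.1 * x.2.2) : ℝ) *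
      ∫ s : ℝ, Gf ψ₁ δ L s (Real.log x.1) * Gf ψ₁ δ L s (Real.log x'.1) : ℝ) : ℂ)

def bs (ψ₁ : ℝ → ℝ) (δ L : ℝ) (b : ℕ → ℂ) (s : ℝ) (n : ℕ) : ℂ := b n * (Gf ψ₁ δ L s (Real.log n) : ℂ)

theorem Mn_eq {ψ₁ : ℝ → ℝ} (h : Continuous ψ₁) (hs : ∀ u, 1 ≤ |u| → ψ₁ u = 0) {δ L : ℝ} (hδ : 0 < δ) (hL : 0 < L)
    {N Y : ℕ} {b : ℕ → ℂ} {e : ℕ → ℝ} (hb : ∀ n, N < n → b n = 0) (he : ∀ n, Y < n → e n = 0) :
    Integrable (fun s : ℝ => QF (N * Y ^ 2) (cv (bs ψ₁ δ L b s) (cv (fun n => (e n : ℂ)) (fun n => (e n : ℂ))))) ∧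
    Mn ψ₁ δ L N Y b e = ∫ s : ℝ, QF (N * Y ^ 2) (cv (bs ψ₁ δ L b s) (cv (fun n => (e n : ℂ)) (fun n => (e n : ℂ)))) := by
  have h1 : ∀ s : ℝ, QF (N * Y ^ 2) (cv (bs ψ₁ δ L b s) (cv (fun n => (e n : ℂ)) (fun n => (e n : ℂ)))) =
      ∑ x ∈ T3 N Y, ∑ x' ∈ T3 N Y, (b x.1 * (starRingEnd ℂ) (b x'.1) *
        ((e x.2.1 * e x.2.2 * e x'.2.1 * e x'.2.2 / (Nat.lcm (x.1 * x.2.1 * x'.2.2) (x'.1 * x'.2.1 * x.2.2) : ℝ) : ℝ) : ℂ)) *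
        ((Gf ψ₁ δ L s (Real.log x.1) * Gf ψ₁ δ L s (Real.log x'.1) : ℝ) : ℂ) := by
    intro s
    rw [QF3 (b := bs ψ₁ δ L b s) (fun n hn => by unfold bs; rw [hb n hn, zero_mul]) he]
    refine Finset.sum_congr rfl fun x _ => Finset.sum_congr rfl fun x' _ => ?_
    unfold bs
    rw [map_mul, Complex.conj_ofReal]
    push_cast
    ring
  have h2 : ∀ x x' : ℕ × ℕ × ℕ, Integrable fun s : ℝ => (b x.1 * (starRingEnd ℂ) (b x'.1) *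
        ((e x.2.1 * e x.2.2 * e x'.2.1 * e x'.2.2 / (Nat.lcm (x.1 * x.2.1 * x'.2.2) (x'.1 * x'.2.1 * x.2.2) : ℝ) : ℝ) : ℂ)) *
        ((Gf ψ₁ δ L s (Real.log x.1) * Gf ψ₁ δ L s (Real.log x'.1) : ℝ) : ℂ) := fun x x' =>
    (GG_int h hs hδ hL (Real.log x.1) (Real.log x'.1)).ofReal.const_mul _
  simp only [h1]
  refine ⟨integrable_finsetSum _ fun x _ => integrable_finsetSum _ fun x' _ => h2 x x', ?_⟩
  rw [integral_finsetSum _ fun x _ => integrable_finsetSum _ fun x' _ => h2 x x']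
  unfold Mn
  refine Finset.sum_congr rfl fun x _ => ?_
  rw [integral_finsetSum _ fun x' _ => h2 x x']
  refine Finset.sum_congr rfl fun x' _ => ?_
  rw [integral_const_mul, integral_complex_ofReal]
  push_cast
  ring

theorem Mn_bd {Pw ψ₁ : ℝ → ℝ} {C₁ : ℝ} (hM : Moll Pw C₁) (h : Continuous ψ₁) (hs : ∀ u, 1 ≤ |u| → ψ₁ u = 0)
    (hb1 : ∀ u, |ψ₁ u| ≤ 1) {δ L : ℝ} (hδ : 0 < δ) (hL : 0 < L) {N Y : ℕ} (hY : 2 ≤ Y) (hN : N ≤ Y) {b : ℕ → ℂ}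
    (hb : ∀ n, b n ≠ 0 → 1 ≤ n ∧ n ≤ N) (he : ∀ n, Y < n → er Pw Y n = 0) :
    (Mn ψ₁ δ L N Y b (er Pw Y)).re ≤ |C₁| / Real.log Y * (2 * δ * L) * N2 N b := by
  have hlY : 0 < Real.log Y := Real.log_pos (by exact_mod_cast hY)
  obtain ⟨i1, i2⟩ := Mn_eq h hs hδ hL (b := b) (e := er Pw Y) (N := N) (Y := Y)
    (fun n hn => by by_contra hc; have := (hb n hc).2; omega) he
  rw [i2]
  have e1 : (∫ s : ℝ, QF (N * Y ^ 2) (cv (bs ψ₁ δ L b s) (cv (fun n => (er Pw Y n : ℂ)) (fun n => (er Pw Y n : ℂ))))).re =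
      ∫ s : ℝ, (QF (N * Y ^ 2) (cv (bs ψ₁ δ L b s) (cv (fun n => (er Pw Y n : ℂ)) (fun n => (er Pw Y n : ℂ))))).re :=
    (integral_re i1).symm
  rw [e1]
  have h3 : ∀ n : ℕ, Integrable fun s : ℝ => ‖b n‖ ^ 2 / n * Gf ψ₁ δ L s (Real.log n) ^ 2 := fun n => by
    have := (GG_int h hs hδ hL (Real.log n) (Real.log n)).const_mul (‖b n‖ ^ 2 / n)
    simpa only [pow_two] using this
  have h4 : ∀ s : ℝ, (QF (N * Y ^ 2) (cv (bs ψ₁ δ L b s) (cv (fun n => (er Pw Y n : ℂ)) (fun n => (er Pw Y n : ℂ))))).re ≤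
      |C₁| / Real.log Y * ∑ n ∈ Finset.Icc 1 N, ‖b n‖ ^ 2 / n * Gf ψ₁ δ L s (Real.log n) ^ 2 := by
    intro s
    have h5 := hM Y N (bs ψ₁ δ L b s) hY hN (fun n hn => hb n (by unfold bs at hn; exact left_ne_zero_of_mul hn))
    refine h5.trans ?_
    have e2 : N2 N (bs ψ₁ δ L b s) = ∑ n ∈ Finset.Icc 1 N, ‖b n‖ ^ 2 / n * Gf ψ₁ δ L s (Real.log n) ^ 2 := by
      unfold N2 bs
      refine Finset.sum_congr rfl fun n _ => ?_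
      rw [norm_mul, Complex.norm_real, Real.norm_eq_abs, mul_pow, sq_abs]
      ring
    rw [e2]
    refine mul_le_mul_of_nonneg_right ?_ (Finset.sum_nonneg fun n _ => by positivity)
    exact div_le_div_of_nonneg_right (le_abs_self _) hlY.le
  calc _ ≤ ∫ s : ℝ, |C₁| / Real.log Y * ∑ n ∈ Finset.Icc 1 N, ‖b n‖ ^ 2 / n * Gf ψ₁ δ L s (Real.log n) ^ 2 :=
        integral_mono i1.re ((integrable_finsetSum _ fun n _ => h3 n).const_mul _) h4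
    _ = |C₁| / Real.log Y * ∑ n ∈ Finset.Icc 1 N, ‖b n‖ ^ 2 / n * ∫ s : ℝ, Gf ψ₁ δ L s (Real.log n) ^ 2 := by
        rw [integral_const_mul, integral_finsetSum _ fun n _ => h3 n]
        congr 1
        exact Finset.sum_congr rfl fun n _ => integral_const_mul _ _
    _ ≤ |C₁| / Real.log Y * ∑ n ∈ Finset.Icc 1 N, ‖b n‖ ^ 2 / n * (2 * δ * L) := by
        refine mul_le_mul_of_nonneg_left (Finset.sum_le_sum fun n _ => ?_) (by positivity)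
        exact mul_le_mul_of_nonneg_left (GG_sq h hs hb1 hδ hL _) (by positivity)
    _ = _ := by
        rw [← Finset.sum_mul]
        unfold N2
        ring

/-! ### the error term -/

theorem sum_b {N : ℕ} (b : ℕ → ℂ) : (∑ m ∈ Finset.Icc 1 N, ‖b m‖) ^ 2 ≤ (N : ℝ) ^ 2 * N2 N b := by
  have h1 := Finset.sum_mul_sq_le_sq_mul_sq (Finset.Icc 1 N) (fun _ => (1 : ℝ)) (fun m => ‖b m‖)
  simp only [one_mul, one_pow, Finset.sum_const, Nat.card_Icc, nsmul_eq_mul, mul_one, Nat.add_sub_cancel] at h1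
  refine h1.trans ?_
  rw [pow_two, mul_assoc]
  refine mul_le_mul_of_nonneg_left ?_ (Nat.cast_nonneg _)
  unfold N2
  rw [Finset.mul_sum]
  refine Finset.sum_le_sum fun m hm => ?_
  rw [Finset.mem_Icc] at hm
  have h0 : (0 : ℝ) < m := by exact_mod_cast hm.1
  have h2 : (m : ℝ) ≤ N := by exact_mod_cast hm.2
  rw [mul_div_assoc', le_div_iff₀ h0, mul_comm (N : ℝ)]
  exact mul_le_mul_of_nonneg_left h2 (by positivity)

theorem sum_T3 {N Y : ℕ} (F : ℕ → ℝ) : ∑ x ∈ T3 N Y, F x.1 = (Y : ℝ) ^ 2 * ∑ m ∈ Finset.Icc 1 N, F m := by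
  unfold T3
  rw [Finset.sum_product, Finset.mul_sum]
  refine Finset.sum_congr rfl fun m _ => ?_
  rw [Finset.sum_product]
  simp only [Finset.sum_const, Nat.card_Icc, nsmul_eq_mul, Nat.add_sub_cancel]
  ring

theorem Ax_le {b : ℕ → ℂ} {e : ℕ → ℝ} (he1 : ∀ n, |e n| ≤ 1) (x : ℕ × ℕ × ℕ) :
    ‖Ax b e x‖ ≤ ‖b x.1‖ * (1 / Real.sqrt ((x.1 : ℝ) * x.2.1 * x.2.2)) := by
  unfold Ax
  rw [norm_mul, Complex.norm_real, Real.norm_eq_abs, abs_div, abs_mul, abs_of_nonneg (Real.sqrt_nonneg _)]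
  refine mul_le_mul_of_nonneg_left (div_le_div_of_nonneg_right ?_ (Real.sqrt_nonneg _)) (norm_nonneg _)
  exact mul_le_one₀ (he1 _) (abs_nonneg _) (he1 _)

/-- the diagonal is the main term up to a small error -/
theorem diag_bd (hSUM : S_SUM) {ψ₁ : ℝ → ℝ} (hcd : ContDiff ℝ ∞ ψ₁) (hs : ∀ u, 1 ≤ |u| → ψ₁ u = 0)
    (hb1 : ∀ u, |ψ₁ u| ≤ 1) {C₂ : ℝ} (hd : ∀ u, |deriv ψ₁ u| ≤ C₂) {δ L : ℝ} (hδ : 0 < δ) (hL : 0 < L)
    (hC : C₂ ≤ δ * L) {N Y Z : ℕ} (hY : 2 ≤ Y) (hN : N ≤ Y) {b : ℕ → ℂ} {e : ℕ → ℝ} (he1 : ∀ n, |e n| ≤ 1)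
    (hZ : Real.exp ((1 / 2 + δ) * L + Real.log Y) ≤ Z)
    (h6 : 6 * Real.log Y ≤ (1 / 2 - δ) * L - Real.log Y) :
    ‖(∑ x ∈ T3 N Y, ∑ x' ∈ T3 N Y, Ax b e x * (starRingEnd ℂ) (Ax b e x') * (Sx ψ₁ δ L Z x x' : ℂ)) -
      Mn ψ₁ δ L N Y b e‖ ≤ 4 * (N : ℝ) ^ 3 * (Y : ℝ) ^ 6 * Real.exp (-((1 / 2 - δ) * L - Real.log Y)) * N2 N b := by
  set y₀ : ℝ := (1 / 2 - δ) * L - Real.log Y with hy0
  set y₁ : ℝ := (1 / 2 + δ) * L + Real.log Y with hy1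
  have hlogY : 0 ≤ Real.log Y := Real.log_nonneg (by exact_mod_cast (by omega : 1 ≤ Y))
  have hterm : ∀ x ∈ T3 N Y, ∀ x' ∈ T3 N Y,
      ‖Ax b e x * (starRingEnd ℂ) (Ax b e x') * (Sx ψ₁ δ L Z x x' : ℂ) -
        b x.1 * (starRingEnd ℂ) (b x'.1) *
        ((e x.2.1 * e x.2.2 * e x'.2.1 * e x'.2.2 / (Nat.lcm (x.1 * x.2.1 * x'.2.2) (x'.1 * x'.2.1 * x.2.2) : ℝ) *
      ∫ s : ℝ, Gf ψ₁ δ L s (Real.log x.1) * Gf ψ₁ δ L s (Real.log x'.1) : ℝ) : ℂ)‖ ≤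
      4 * (N : ℝ) * (Y : ℝ) ^ 2 * Real.exp (-y₀) * (‖b x.1‖ * ‖b x'.1‖) := by
    intro x hx x' hx'
    rw [mem_T3] at hx hx'
    obtain ⟨⟨m1, m2⟩, ⟨a1, a2⟩, ⟨k1, k2⟩⟩ := hx
    obtain ⟨⟨m1', m2'⟩, ⟨a1', a2'⟩, ⟨k1', k2'⟩⟩ := hx'
    have hr : ∀ n : ℕ, 1 ≤ n → (0 : ℝ) < n := fun n hn => by exact_mod_cast hn
    have hlog : ∀ n : ℕ, 1 ≤ n → n ≤ Y → 0 ≤ Real.log n ∧ Real.log n ≤ Real.log Y := fun n h1 h2 =>
      ⟨Real.log_nonneg (by exact_mod_cast h1), Real.log_le_log (hr n h1) (by exact_mod_cast h2)⟩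
    set c₁ : ℕ := x.1 * x.2.1 * x'.2.2 with hc1
    set c₂ : ℕ := x'.1 * x'.2.1 * x.2.2 with hc2
    have hc1p : 1 ≤ c₁ := Nat.mul_pos (Nat.mul_pos m1 a1) k1'
    have hc2p : 1 ≤ c₂ := Nat.mul_pos (Nat.mul_pos m1' a1') k1
    have lc1 : Real.log c₁ = Real.log x.1 + Real.log x.2.1 + Real.log x'.2.2 := by
      rw [hc1]; push_cast
      rw [Real.log_mul (mul_ne_zero (hr _ m1).ne' (hr _ a1).ne') (hr _ k1').ne', Real.log_mul (hr _ m1).ne' (hr _ a1).ne']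
    have lc2 : Real.log c₂ = Real.log x'.1 + Real.log x'.2.1 + Real.log x.2.2 := by
      rw [hc2]; push_cast
      rw [Real.log_mul (mul_ne_zero (hr _ m1').ne' (hr _ a1').ne') (hr _ k1).ne', Real.log_mul (hr _ m1').ne' (hr _ a1').ne']
    have b1 := hlog _ m1 (m2.trans hN)
    have b2 := hlog _ a1 a2
    have b3 := hlog _ k1 k2
    have b1' := hlog _ m1' (m2'.trans hN)
    have b2' := hlog _ a1' a2'
    have b3' := hlog _ k1' k2'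
    have hne1 : ∀ u, Hf ψ₁ δ L (Real.log x.2.1 - Real.log x.2.2) u ≠ 0 → y₀ ≤ u ∧ u ≤ y₁ := by
      intro u hu
      have := Hf_ne hs hδ hL hu
      constructor <;> linarith [this.1, this.2]
    have hne2 : ∀ u, Hf ψ₁ δ L (Real.log x'.2.1 - Real.log x'.2.2) u ≠ 0 → y₀ ≤ u ∧ u ≤ y₁ := by
      intro u hu
      have := Hf_ne hs hδ hL hu
      constructor <;> linarith [this.1, this.2]
    have hS := hSUM c₁ c₂ Z (Hf ψ₁ δ L (Real.log x.2.1 - Real.log x.2.2)) (Hf ψ₁ δ L (Real.log x'.2.1 - Real.log x'.2.2)) y₀ y₁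
      hc1p hc2p (Hf_cd hcd δ L _) (Hf_cd hcd δ L _) (fun u => hb1 _) (fun u => hb1 _)
      (fun u => Hf_deriv hcd hd hδ hL hC _ u) (fun u => Hf_deriv hcd hd hδ hL hC _ u) hne1 hne2
      (by rw [lc1, lc2]; linarith) hZ
    have hI := Hf_int ψ₁ (δ := δ) (L := L) (Real.log x.2.1 - Real.log x.2.2) (Real.log x'.2.1 - Real.log x'.2.2)
      (Real.log c₁) (Real.log c₂) (Real.log x.1) (Real.log x'.1) (Real.log x.2.2 + Real.log x'.2.2)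
      (by rw [lc1]; ring) (by rw [lc2]; ring)
    rw [hI] at hS
    set I0 : ℝ := ∫ s : ℝ, Gf ψ₁ δ L s (Real.log x.1) * Gf ψ₁ δ L s (Real.log x'.1) with hI0
    have hS' : |Sx ψ₁ δ L Z x x' - (Nat.gcd c₁ c₂ : ℝ) / Real.sqrt ((c₁ : ℝ) * c₂) * I0| ≤
        4 * Real.exp (-(y₀ - Real.log c₁ - Real.log c₂)) := hS
    have hc1r : (0 : ℝ) < c₁ := hr _ hc1p
    have hc2r : (0 : ℝ) < c₂ := hr _ hc2p
    have hsq : Real.sqrt ((x.1 : ℝ) * x.2.1 * x.2.2) * Real.sqrt ((x'.1 : ℝ) * x'.2.1 * x'.2.2) = Real.sqrt ((c₁ : ℝ) * c₂) := by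
      rw [← Real.sqrt_mul (by positivity)]
      congr 1
      rw [hc1, hc2]; push_cast; ring
    have hA : Ax b e x * (starRingEnd ℂ) (Ax b e x') = b x.1 * (starRingEnd ℂ) (b x'.1) *
        ((e x.2.1 * e x.2.2 * e x'.2.1 * e x'.2.2 / Real.sqrt ((c₁ : ℝ) * c₂) : ℝ) : ℂ) := by
      unfold Ax
      rw [map_mul, Complex.conj_ofReal, ← hsq]
      push_cast
      ring
    have hgl : (Nat.gcd c₁ c₂ : ℝ) / ((c₁ : ℝ) * c₂) = 1 / (Nat.lcm c₁ c₂ : ℝ) := by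
      have h1 : (Nat.gcd c₁ c₂ : ℝ) * (Nat.lcm c₁ c₂ : ℝ) = (c₁ : ℝ) * c₂ := by exact_mod_cast Nat.gcd_mul_lcm c₁ c₂
      have h2 : (0 : ℝ) < (Nat.lcm c₁ c₂ : ℝ) := hr _ (Nat.lcm_pos hc1p hc2p)
      rw [div_eq_div_iff (by positivity) h2.ne', one_mul, h1]
    have hmain : b x.1 * (starRingEnd ℂ) (b x'.1) *
        ((e x.2.1 * e x.2.2 * e x'.2.1 * e x'.2.2 / (Nat.lcm c₁ c₂ : ℝ) * I0 : ℝ) : ℂ) =
        Ax b e x * (starRingEnd ℂ) (Ax b e x') * (((Nat.gcd c₁ c₂ : ℝ) / Real.sqrt ((c₁ : ℝ) * c₂) * I0 : ℝ) : ℂ) := by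
      rw [hA, mul_assoc (b x.1 * _), ← Complex.ofReal_mul]
      congr 2
      have h3 : Real.sqrt ((c₁ : ℝ) * c₂) * Real.sqrt ((c₁ : ℝ) * c₂) = (c₁ : ℝ) * c₂ := Real.mul_self_sqrt (by positivity)
      have h4 : (0 : ℝ) < Real.sqrt ((c₁ : ℝ) * c₂) := Real.sqrt_pos.2 (by positivity)
      calc e x.2.1 * e x.2.2 * e x'.2.1 * e x'.2.2 / (Nat.lcm c₁ c₂ : ℝ) * I0
          = e x.2.1 * e x.2.2 * e x'.2.1 * e x'.2.2 * (1 / (Nat.lcm c₁ c₂ : ℝ)) * I0 := by ring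
        _ = e x.2.1 * e x.2.2 * e x'.2.1 * e x'.2.2 * ((Nat.gcd c₁ c₂ : ℝ) / ((c₁ : ℝ) * c₂)) * I0 := by rw [hgl]
        _ = e x.2.1 * e x.2.2 * e x'.2.1 * e x'.2.2 *
              ((Nat.gcd c₁ c₂ : ℝ) / (Real.sqrt ((c₁ : ℝ) * c₂) * Real.sqrt ((c₁ : ℝ) * c₂))) * I0 := by rw [h3]
        _ = _ := by field_simp
    rw [hmain, ← mul_sub, ← Complex.ofReal_sub, norm_mul, Complex.norm_real, Real.norm_eq_abs, norm_mul, RCLike.norm_conj]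
    have hAA : ‖Ax b e x‖ * ‖Ax b e x'‖ ≤ ‖b x.1‖ * ‖b x'.1‖ * (1 / Real.sqrt ((c₁ : ℝ) * c₂)) := by
      refine (mul_le_mul (Ax_le he1 x) (Ax_le he1 x') (norm_nonneg _) (by positivity)).trans (le_of_eq ?_)
      rw [← hsq]
      ring
    have hexp : Real.exp (-(y₀ - Real.log c₁ - Real.log c₂)) = Real.exp (-y₀) * ((c₁ : ℝ) * c₂) := by
      rw [show -(y₀ - Real.log c₁ - Real.log c₂) = -y₀ + (Real.log c₁ + Real.log c₂) by ring, Real.exp_add, Real.exp_add,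
        Real.exp_log hc1r, Real.exp_log hc2r]
    have hsqle : Real.sqrt ((c₁ : ℝ) * c₂) ≤ (N : ℝ) * (Y : ℝ) ^ 2 := by
      have q1 : (c₁ : ℝ) ≤ N * Y ^ 2 := by
        have : c₁ ≤ N * Y ^ 2 := by
          rw [hc1, pow_two, ← mul_assoc]
          exact Nat.mul_le_mul (Nat.mul_le_mul m2 a2) k2'
        exact_mod_cast this
      have q2 : (c₂ : ℝ) ≤ N * Y ^ 2 := by
        have : c₂ ≤ N * Y ^ 2 := by
          rw [hc2, pow_two, ← mul_assoc]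
          exact Nat.mul_le_mul (Nat.mul_le_mul m2' a2') k2
        exact_mod_cast this
      refine Real.sqrt_le_iff.2 ⟨by positivity, ?_⟩
      rw [pow_two ((N : ℝ) * (Y : ℝ) ^ 2)]
      exact mul_le_mul q1 q2 hc2r.le (by positivity)
    calc ‖Ax b e x‖ * ‖Ax b e x'‖ * |Sx ψ₁ δ L Z x x' - (Nat.gcd c₁ c₂ : ℝ) / Real.sqrt ((c₁ : ℝ) * c₂) * I0|
        ≤ (‖b x.1‖ * ‖b x'.1‖ * (1 / Real.sqrt ((c₁ : ℝ) * c₂))) * (4 * (Real.exp (-y₀) * ((c₁ : ℝ) * c₂))) := by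
          refine mul_le_mul hAA ?_ (abs_nonneg _) (by positivity)
          rw [← hexp]; exact hS'
      _ = 4 * Real.exp (-y₀) * (‖b x.1‖ * ‖b x'.1‖) * Real.sqrt ((c₁ : ℝ) * c₂) := by
          have h3 : Real.sqrt ((c₁ : ℝ) * c₂) * Real.sqrt ((c₁ : ℝ) * c₂) = (c₁ : ℝ) * c₂ := Real.mul_self_sqrt (by positivity)
          have h4 : (0 : ℝ) < Real.sqrt ((c₁ : ℝ) * c₂) := Real.sqrt_pos.2 (by positivity)
          rw [← h3]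
          field_simp
          rw [Real.sqrt_sq h4.le]
      _ ≤ 4 * Real.exp (-y₀) * (‖b x.1‖ * ‖b x'.1‖) * ((N : ℝ) * (Y : ℝ) ^ 2) :=
          mul_le_mul_of_nonneg_left hsqle (by positivity)
      _ = _ := by ring
  unfold Mn
  rw [← Finset.sum_sub_distrib]
  simp only [← Finset.sum_sub_distrib]
  calc _ ≤ ∑ x ∈ T3 N Y, ∑ x' ∈ T3 N Y, 4 * (N : ℝ) * (Y : ℝ) ^ 2 * Real.exp (-y₀) * (‖b x.1‖ * ‖b x'.1‖) := by
        refine (norm_sum_le _ _).trans (Finset.sum_le_sum fun x hx => ?_)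
        refine (norm_sum_le _ _).trans (Finset.sum_le_sum fun x' hx' => ?_)
        exact hterm x hx x' hx'
    _ = 4 * (N : ℝ) * (Y : ℝ) ^ 2 * Real.exp (-y₀) * ((∑ x ∈ T3 N Y, ‖b x.1‖) * ∑ x' ∈ T3 N Y, ‖b x'.1‖) := by
        rw [Finset.sum_mul_sum, Finset.mul_sum]
        refine Finset.sum_congr rfl fun x _ => ?_
        rw [Finset.mul_sum]
    _ = 4 * (N : ℝ) * (Y : ℝ) ^ 2 * Real.exp (-y₀) * ((Y : ℝ) ^ 4 * (∑ m ∈ Finset.Icc 1 N, ‖b m‖) ^ 2) := by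
        rw [sum_T3 (fun m => ‖b m‖)]
        ring
    _ ≤ 4 * (N : ℝ) * (Y : ℝ) ^ 2 * Real.exp (-y₀) * ((Y : ℝ) ^ 4 * ((N : ℝ) ^ 2 * N2 N b)) := by
        refine mul_le_mul_of_nonneg_left (mul_le_mul_of_nonneg_left (sum_b b) (by positivity)) (by positivity)
    _ = _ := by ring

end

end Pool.Agent.Q97.UM
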