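import Pool.Agent.Q97.UM.R3c

set_option autoImplicit false

/-! Project UM: the mean square of `B · XD`. -/

namespace Pool.Agent.Q97.UM

open Filter Topology MeasureTheory Complex
open scoped ContDiff

noncomputable section

theorem log_sep {A B : ℕ} (hA : 1 ≤ A) (hB : 1 ≤ B) (hne : A ≠ B) {K : ℝ} (hK : 0 < K) (hA' : (A : ℝ) ≤ K) (hB' : (B : ℝ) ≤ K) :
    1 / K ≤ |Real.log A - Real.log B| := by
  have key : ∀ a b : ℕ, 1 ≤ a → a < b → (b : ℝ) ≤ K → 1 / K ≤ Real.log b - Real.log a := by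
    intro a b ha hab hb
    have ha0 : (0 : ℝ) < a := by exact_mod_cast ha
    have hb0 : (0 : ℝ) < b := by exact_mod_cast (by omega : 0 < b)
    have h1 : Real.log ((a : ℝ) / b) ≤ (a : ℝ) / b - 1 := Real.log_le_sub_one_of_pos (by positivity)
    rw [Real.log_div ha0.ne' hb0.ne'] at h1
    have h2 : (a : ℝ) / b ≤ 1 - 1 / b := by
      rw [le_sub_iff_add_le, ← add_div, div_le_one hb0]
      exact_mod_cast hab
    have h3 : 1 / K ≤ 1 / (b : ℝ) := one_div_le_one_div_of_le hb0 hb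
    linarith
  rcases lt_or_gt_of_ne hne with h | h
  · have := key A B hA h hB'
    rw [abs_sub_comm]
    exact this.trans (le_abs_self _)
  · exact (key B A hB h hA').trans (le_abs_self _)

theorem fx_norm {ψ₁ : ℝ → ℝ} (hb1 : ∀ u, |ψ₁ u| ≤ 1) (δ L : ℝ) {N Y Z : ℕ} (b : ℕ → ℂ) {e : ℕ → ℝ} (he1 : ∀ n, |e n| ≤ 1)
    {i : (ℕ × ℕ × ℕ) × ℕ} (hi : i ∈ T3 N Y ×ˢ Finset.Icc 1 Z) : ‖fx ψ₁ δ L b e i‖ ≤ ‖b i.1.1‖ := by
  rw [Finset.mem_product, mem_T3, Finset.mem_Icc] at hi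
  obtain ⟨⟨⟨a1, -⟩, ⟨a2, -⟩, ⟨a3, -⟩⟩, a4, -⟩ := hi
  have hr : ∀ n : ℕ, 1 ≤ n → (1 : ℝ) ≤ n := fun n hn => by exact_mod_cast hn
  unfold fx
  rw [norm_mul, Complex.norm_real, Real.norm_eq_abs, abs_mul, abs_of_nonneg (show 0 ≤ 1 / Real.sqrt (i.2 : ℝ) by positivity)]
  have h1 : 1 / Real.sqrt (i.2 : ℝ) ≤ 1 := by
    rw [div_le_one (Real.sqrt_pos.2 (by linarith [hr _ a4]))]
    exact Real.one_le_sqrt.2 (hr _ a4)
  have h2 : |Hf ψ₁ δ L (Real.log i.1.2.1 - Real.log i.1.2.2) (Real.log i.2)| ≤ 1 := hb1 _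
  have h3 : 1 / Real.sqrt ((i.1.1 : ℝ) * i.1.2.1 * i.1.2.2) ≤ 1 := by
    have : (1 : ℝ) ≤ (i.1.1 : ℝ) * i.1.2.1 * i.1.2.2 := by
      have := mul_le_mul (mul_le_mul (hr _ a1) (hr _ a2) zero_le_one (by linarith [hr _ a1])) (hr _ a3) zero_le_one (by positivity)
      simpa using this
    rw [div_le_one (Real.sqrt_pos.2 (by linarith))]
    exact Real.one_le_sqrt.2 this
  calc ‖Ax b e i.1‖ * (1 / Real.sqrt (i.2 : ℝ) * |Hf ψ₁ δ L (Real.log i.1.2.1 - Real.log i.1.2.2) (Real.log i.2)|)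
      ≤ (‖b i.1.1‖ * 1) * (1 * 1) := by
        refine mul_le_mul ((Ax_le he1 i.1).trans (mul_le_mul_of_nonneg_left h3 (norm_nonneg _)))
          (mul_le_mul h1 h2 (abs_nonneg _) zero_le_one) (by positivity) (by positivity)
    _ = _ := by ring

/-- the numerical version -/
theorem R3_num (hMV : S_MV) (hSUM : S_SUM) {Pw ψ₁ : ℝ → ℝ} {C₁ : ℝ} (hM : Moll Pw C₁) (hcd : ContDiff ℝ ∞ ψ₁)
    (hs : ∀ u, 1 ≤ |u| → ψ₁ u = 0) (hb1 : ∀ u, |ψ₁ u| ≤ 1) {C₂ : ℝ} (hd : ∀ u, |deriv ψ₁ u| ≤ C₂) {δ T : ℝ} (hδ : 0 < δ)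
    (hT : 1 < T) (hC : C₂ ≤ δ * Real.log T) {N Y Z : ℕ} (hY : 2 ≤ Y) (hN : N ≤ Y) {b : ℕ → ℂ}
    (hb : ∀ n, b n ≠ 0 → 1 ≤ n ∧ n ≤ N) (he : ∀ n, Y < n → er Pw Y n = 0) (he1 : ∀ n, |er Pw Y n| ≤ 1)
    (hZ : Real.exp ((1 / 2 + δ) * Real.log T + Real.log Y) ≤ Z)
    (h6 : 6 * Real.log Y ≤ (1 / 2 - δ) * Real.log T - Real.log Y)
    (hK : (1 / 2 + δ) * Real.log T + 3 * Real.log Y ≤ 3 / 4 * Real.log T) :
    ∫ t in T..(2 * T), ‖dp N b t‖ ^ 2 * ‖XD Pw ψ₁ δ Y Z (Real.log T) t‖ ^ 2 ≤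
      6 * T * (|C₁| / Real.log Y * (2 * δ * Real.log T) +
        4 * (N : ℝ) ^ 3 * (Y : ℝ) ^ 6 * Real.exp (-((1 / 2 - δ) * Real.log T - Real.log Y)) +
        (N : ℝ) ^ 2 * (Y : ℝ) ^ 4 * (Z : ℝ) ^ 2 * Real.exp (-Real.sqrt T / 4)) * N2 N b := by
  classical
  set L := Real.log T with hL
  have hL0 : 0 < L := Real.log_pos hT
  have hT0 : 0 < T := by linarith
  set J : Finset ((ℕ × ℕ × ℕ) × ℕ) := T3 N Y ×ˢ Finset.Icc 1 Z with hJ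
  set f := fx ψ₁ δ L b (er Pw Y) with hf
  set J' := J.filter (fun i => f i ≠ 0) with hJ'
  have hr : ∀ n : ℕ, 1 ≤ n → (0 : ℝ) < n := fun n hn => by exact_mod_cast hn
  set K : ℝ := T ^ (3 / 4 : ℝ) with hKdef
  have hK0 : 0 < K := Real.rpow_pos_of_pos hT0 _
  -- size of the numerators
  have hsize : ∀ i ∈ J', ∀ j ∈ J', ((i.2 * (i.1.1 * i.1.2.1 * j.1.2.2) : ℕ) : ℝ) ≤ K := by
    intro i hi j hj
    rw [hJ', Finset.mem_filter, hJ, Finset.mem_product, mem_T3, Finset.mem_Icc] at hi hj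
    obtain ⟨⟨⟨⟨a1, a1'⟩, ⟨a2, a2'⟩, ⟨a3, a3'⟩⟩, a4, a4'⟩, hne⟩ := hi
    obtain ⟨⟨⟨⟨b1, b1'⟩, ⟨b2, b2'⟩, ⟨b3, b3'⟩⟩, b4, b4'⟩, -⟩ := hj
    have hH : Hf ψ₁ δ L (Real.log i.1.2.1 - Real.log i.1.2.2) (Real.log i.2) ≠ 0 := by
      intro h0
      apply hne
      rw [hf]; unfold fx
      rw [h0]; simp
    have h2 := (Hf_ne hs hδ hL0 hH).2
    have hlog : ∀ n : ℕ, 1 ≤ n → n ≤ Y → 0 ≤ Real.log n ∧ Real.log n ≤ Real.log Y := fun n h1 h2 =>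
      ⟨Real.log_nonneg (by exact_mod_cast h1), Real.log_le_log (hr n h1) (by exact_mod_cast h2)⟩
    have l1 := (hlog _ a1 (a1'.trans hN)).2
    have l2 := (hlog _ a3 a3').2
    have l3 := (hlog _ b3 b3').2
    have hpos : (0 : ℝ) < ((i.2 * (i.1.1 * i.1.2.1 * j.1.2.2) : ℕ) : ℝ) :=
      hr _ (Nat.mul_pos a4 (Nat.mul_pos (Nat.mul_pos a1 a2) b3))
    rw [← Real.log_le_log_iff hpos hK0, hKdef, Real.log_rpow hT0]
    push_cast
    rw [Real.log_mul (hr _ a4).ne' (mul_pos (mul_pos (hr _ a1) (hr _ a2)) (hr _ b3)).ne',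
      Real.log_mul (mul_pos (hr _ a1) (hr _ a2)).ne' (hr _ b3).ne', Real.log_mul (hr _ a1).ne' (hr _ a2).ne']
    linarith
  have hmemJ : ∀ i, i ∈ J' → i ∈ J := fun i hi => (Finset.mem_filter.1 hi).1
  have homlog : ∀ i ∈ J, ∀ j ∈ J, omr i - omr j = Real.log ((i.2 * (i.1.1 * i.1.2.1 * j.1.2.2) : ℕ) : ℝ) -
      Real.log ((j.2 * (j.1.1 * j.1.2.1 * i.1.2.2) : ℕ) : ℝ) := by
    intro i hi j hj
    rw [hJ, Finset.mem_product, mem_T3, Finset.mem_Icc] at hi hj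
    obtain ⟨⟨⟨a1, -⟩, ⟨a2, -⟩, ⟨a3, -⟩⟩, a4, -⟩ := hi
    obtain ⟨⟨⟨b1, -⟩, ⟨b2, -⟩, ⟨b3, -⟩⟩, b4, -⟩ := hj
    push_cast
    rw [Real.log_mul (hr _ a4).ne' (mul_pos (mul_pos (hr _ a1) (hr _ a2)) (hr _ b3)).ne',
      Real.log_mul (mul_pos (hr _ a1) (hr _ a2)).ne' (hr _ b3).ne', Real.log_mul (hr _ a1).ne' (hr _ a2).ne',
      Real.log_mul (hr _ b4).ne' (mul_pos (mul_pos (hr _ b1) (hr _ b2)) (hr _ a3)).ne',
      Real.log_mul (mul_pos (hr _ b1) (hr _ b2)).ne' (hr _ a3).ne', Real.log_mul (hr _ b1).ne' (hr _ b2).ne']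
    unfold omr
    ring
  have hsep : ∀ i ∈ J', ∀ j ∈ J', omr i = omr j ∨ 1 / K ≤ |omr i - omr j| := by
    intro i hi j hj
    by_cases h : omr i = omr j
    · exact Or.inl h
    · right
      rw [homlog i (hmemJ i hi) j (hmemJ j hj)]
      have hi' := hmemJ i hi
      have hj' := hmemJ j hj
      have hne : i.2 * (i.1.1 * i.1.2.1 * j.1.2.2) ≠ j.2 * (j.1.1 * j.1.2.1 * i.1.2.2) := fun h0 => h ((om_iff hi' hj').2 h0)
      rw [hJ, Finset.mem_product, mem_T3, Finset.mem_Icc] at hi' hj'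
      exact log_sep (Nat.mul_pos hi'.2.1 (Nat.mul_pos (Nat.mul_pos hi'.1.1.1 hi'.1.2.1.1) hj'.1.2.2.1))
        (Nat.mul_pos hj'.2.1 (Nat.mul_pos (Nat.mul_pos hj'.1.1.1 hj'.1.2.1.1) hi'.1.2.2.1)) hne hK0 (hsize i hi j hj)
        (hsize j hj i hi)
  obtain ⟨m1, m2⟩ := hMV _ J' f omr (1 / K) T (3 * T / 2) (by positivity) hT0 hsep
  -- the sums over `J'` are sums over `J`
  have hdrop : ∀ (g : (ℕ × ℕ × ℕ) × ℕ → ℂ), (∀ i ∈ J, f i = 0 → g i = 0) → ∑ i ∈ J', g i = ∑ i ∈ J, g i := by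
    intro g hg
    rw [hJ', Finset.sum_filter]
    refine Finset.sum_congr rfl fun i hi => ?_
    split_ifs with h
    · rfl
    · exact (hg i hi (not_not.1 h)).symm
  have hexpand : ∀ t : ℝ, ∑ i ∈ J', f i * cexp (-(I * (omr i * t : ℝ))) = dp N b t * XD Pw ψ₁ δ Y Z L t := by
    intro t
    rw [BX_eq]
    exact hdrop _ fun i _ h => by rw [h, zero_mul]
  have hdiag : (∑ i ∈ J', ∑ j ∈ J', (open Classical in if omr i = omr j then f i * (starRingEnd ℂ) (f j) else 0)) =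
      ∑ x ∈ T3 N Y, ∑ x' ∈ T3 N Y, Ax b (er Pw Y) x * (starRingEnd ℂ) (Ax b (er Pw Y) x') * (Sx ψ₁ δ L Z x x' : ℂ) := by
    rw [← diag_eq ψ₁ δ L N Y Z b (er Pw Y)]
    rw [hdrop (fun i => ∑ j ∈ J', (open Classical in if omr i = omr j then f i * (starRingEnd ℂ) (f j) else 0))
      (fun i _ h => Finset.sum_eq_zero fun j _ => by rw [h]; simp)]
    refine Finset.sum_congr rfl fun i _ => ?_
    exact hdrop (fun j => (open Classical in if omr i = omr j then f i * (starRingEnd ℂ) (f j) else 0))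
      (fun j _ h => by rw [h]; simp)
  have hE := diag_bd hSUM hcd hs hb1 hd hδ hL0 hC hY hN (b := b) he1 hZ h6
  have hMn := Mn_bd hM hcd.continuous hs hb1 hδ hL0 hY hN hb he
  have hN2 : 0 ≤ N2 N b := Finset.sum_nonneg fun n _ => by positivity
  -- sum of the moduli
  have hsum : (∑ i ∈ J', ‖f i‖) ^ 2 ≤ (N : ℝ) ^ 2 * (Y : ℝ) ^ 4 * (Z : ℝ) ^ 2 * N2 N b := by
    have h1 : ∑ i ∈ J', ‖f i‖ ≤ (Y : ℝ) ^ 2 * Z * ∑ m ∈ Finset.Icc 1 N, ‖b m‖ := by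
      calc ∑ i ∈ J', ‖f i‖ ≤ ∑ i ∈ J, ‖f i‖ :=
            Finset.sum_le_sum_of_subset_of_nonneg (Finset.filter_subset _ _) fun _ _ _ => norm_nonneg _
        _ ≤ ∑ i ∈ J, ‖b i.1.1‖ := Finset.sum_le_sum fun i hi => fx_norm hb1 δ L b he1 hi
        _ = (Y : ℝ) ^ 2 * Z * ∑ m ∈ Finset.Icc 1 N, ‖b m‖ := by
            rw [hJ, Finset.sum_product]
            simp only [Finset.sum_const, Nat.card_Icc, nsmul_eq_mul, Nat.add_sub_cancel]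
            rw [← Finset.mul_sum, sum_T3 (fun m => ‖b m‖)]
            ring
    calc (∑ i ∈ J', ‖f i‖) ^ 2 ≤ ((Y : ℝ) ^ 2 * Z * ∑ m ∈ Finset.Icc 1 N, ‖b m‖) ^ 2 :=
          pow_le_pow_left₀ (Finset.sum_nonneg fun _ _ => norm_nonneg _) h1 2
      _ = (Y : ℝ) ^ 4 * (Z : ℝ) ^ 2 * (∑ m ∈ Finset.Icc 1 N, ‖b m‖) ^ 2 := by ring
      _ ≤ (Y : ℝ) ^ 4 * (Z : ℝ) ^ 2 * ((N : ℝ) ^ 2 * N2 N b) := mul_le_mul_of_nonneg_left (sum_b b) (by positivity)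
      _ = _ := by ring
  have hVD : -(T * (1 / K)) ^ 2 / 4 = -Real.sqrt T / 4 := by
    have : (T * (1 / K)) ^ 2 = Real.sqrt T := by
      rw [hKdef, Real.sqrt_eq_rpow, one_div, ← Real.rpow_neg hT0.le]
      nth_rw 1 [← Real.rpow_one T]
      rw [← Real.rpow_add hT0, ← Real.rpow_natCast, ← Real.rpow_mul hT0.le]
      norm_num
    rw [this]
  rw [hdiag, hVD] at m2
  -- numerical constants
  have hc1 : Real.exp (1 / 4) ≤ 3 / 2 := by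
    have h1 : Real.exp (1 / 4) ^ 4 ≤ (3 / 2 : ℝ) ^ 4 := by
      rw [← Real.exp_nat_mul]
      have := Real.exp_one_lt_d9
      norm_num
      linarith
    exact le_of_pow_le_pow_left₀ (by norm_num) (by norm_num) h1
  have hc2 : Real.sqrt Real.pi ≤ 2 := by
    rw [show (2 : ℝ) = Real.sqrt 4 by rw [show (4 : ℝ) = 2 ^ 2 by norm_num, Real.sqrt_sq (by norm_num)]]
    exact Real.sqrt_le_sqrt Real.pi_le_four
  have hpt : ∀ t ∈ Set.Icc T (2 * T), ‖dp N b t‖ ^ 2 * ‖XD Pw ψ₁ δ Y Z L t‖ ^ 2 ≤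
      Real.exp (1 / 4) * (‖∑ i ∈ J', f i * cexp (-(I * (omr i * t : ℝ)))‖ ^ 2 * Real.exp (-((t - 3 * T / 2) / T) ^ 2)) := by
    intro t ht
    rw [hexpand t, norm_mul, mul_pow]
    have h1 : 1 ≤ Real.exp (1 / 4) * Real.exp (-((t - 3 * T / 2) / T) ^ 2) := by
      rw [← Real.exp_add]
      apply Real.one_le_exp
      have h2 : |(t - 3 * T / 2) / T| ≤ 1 / 2 := by
        rw [abs_div, abs_of_pos hT0, div_le_iff₀ hT0, abs_le]
        constructor <;> linarith [ht.1, ht.2]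
      have h3 := sq_abs ((t - 3 * T / 2) / T)
      nlinarith [abs_nonneg ((t - 3 * T / 2) / T)]
    calc ‖dp N b t‖ ^ 2 * ‖XD Pw ψ₁ δ Y Z L t‖ ^ 2 = ‖dp N b t‖ ^ 2 * ‖XD Pw ψ₁ δ Y Z L t‖ ^ 2 * 1 := by ring
      _ ≤ ‖dp N b t‖ ^ 2 * ‖XD Pw ψ₁ δ Y Z L t‖ ^ 2 * (Real.exp (1 / 4) * Real.exp (-((t - 3 * T / 2) / T) ^ 2)) :=
          mul_le_mul_of_nonneg_left h1 (by positivity)
      _ = _ := by ring
  have hcontBX : Continuous fun t : ℝ => ‖∑ i ∈ J', f i * cexp (-(I * (omr i * t : ℝ)))‖ ^ 2 := by fun_prop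
  have hcont2 : Continuous fun t : ℝ => ‖dp N b t‖ ^ 2 * ‖XD Pw ψ₁ δ Y Z L t‖ ^ 2 := by
    have : (fun t : ℝ => ‖dp N b t‖ ^ 2 * ‖XD Pw ψ₁ δ Y Z L t‖ ^ 2) =
        fun t : ℝ => ‖∑ i ∈ J', f i * cexp (-(I * (omr i * t : ℝ)))‖ ^ 2 := by
      funext t
      rw [hexpand t, norm_mul, mul_pow]
    rw [this]; exact hcontBX
  have hnn : ∀ t : ℝ, 0 ≤ ‖∑ i ∈ J', f i * cexp (-(I * (omr i * t : ℝ)))‖ ^ 2 * Real.exp (-((t - 3 * T / 2) / T) ^ 2) :=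
    fun t => by positivity
  calc ∫ t in T..(2 * T), ‖dp N b t‖ ^ 2 * ‖XD Pw ψ₁ δ Y Z L t‖ ^ 2
      ≤ ∫ t in T..(2 * T), Real.exp (1 / 4) * (‖∑ i ∈ J', f i * cexp (-(I * (omr i * t : ℝ)))‖ ^ 2 *
          Real.exp (-((t - 3 * T / 2) / T) ^ 2)) :=
        intervalIntegral.integral_mono_on (by linarith) (hcont2.intervalIntegrable _ _)
          ((m1.const_mul _).intervalIntegrable) hpt
    _ = Real.exp (1 / 4) * ∫ t in T..(2 * T), (‖∑ i ∈ J', f i * cexp (-(I * (omr i * t : ℝ)))‖ ^ 2 *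
          Real.exp (-((t - 3 * T / 2) / T) ^ 2)) := intervalIntegral.integral_const_mul _ _
    _ ≤ Real.exp (1 / 4) * ∫ t : ℝ, (‖∑ i ∈ J', f i * cexp (-(I * (omr i * t : ℝ)))‖ ^ 2 *
          Real.exp (-((t - 3 * T / 2) / T) ^ 2)) := by
        refine mul_le_mul_of_nonneg_left ?_ (Real.exp_pos _).le
        rw [intervalIntegral.integral_of_le (by linarith)]
        exact setIntegral_le_integral m1 (Filter.Eventually.of_forall hnn)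
    _ ≤ Real.exp (1 / 4) * (Real.sqrt Real.pi * T *
        ((∑ x ∈ T3 N Y, ∑ x' ∈ T3 N Y, Ax b (er Pw Y) x * (starRingEnd ℂ) (Ax b (er Pw Y) x') * (Sx ψ₁ δ L Z x x' : ℂ)).re +
          (∑ i ∈ J', ‖f i‖) ^ 2 * Real.exp (-Real.sqrt T / 4))) := mul_le_mul_of_nonneg_left m2 (Real.exp_pos _).le
    _ ≤ Real.exp (1 / 4) * (Real.sqrt Real.pi * T *
        ((|C₁| / Real.log Y * (2 * δ * L) +
        4 * (N : ℝ) ^ 3 * (Y : ℝ) ^ 6 * Real.exp (-((1 / 2 - δ) * L - Real.log Y)) +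
        (N : ℝ) ^ 2 * (Y : ℝ) ^ 4 * (Z : ℝ) ^ 2 * Real.exp (-Real.sqrt T / 4)) * N2 N b)) := by
        refine mul_le_mul_of_nonneg_left (mul_le_mul_of_nonneg_left ?_ (by positivity)) (Real.exp_pos _).le
        set D := ∑ x ∈ T3 N Y, ∑ x' ∈ T3 N Y, Ax b (er Pw Y) x * (starRingEnd ℂ) (Ax b (er Pw Y) x') * (Sx ψ₁ δ L Z x x' : ℂ)
        have h1 : D.re ≤ (Mn ψ₁ δ L N Y b (er Pw Y)).re + ‖D - Mn ψ₁ δ L N Y b (er Pw Y)‖ := by
          have := Complex.re_le_norm (D - Mn ψ₁ δ L N Y b (er Pw Y))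
          rw [Complex.sub_re] at this
          linarith
        have h2 : (∑ i ∈ J', ‖f i‖) ^ 2 * Real.exp (-Real.sqrt T / 4) ≤
            (N : ℝ) ^ 2 * (Y : ℝ) ^ 4 * (Z : ℝ) ^ 2 * N2 N b * Real.exp (-Real.sqrt T / 4) :=
          mul_le_mul_of_nonneg_right hsum (Real.exp_pos _).le
        nlinarith [h1, h2, hMn, hE]
    _ ≤ _ := by
        set W := (|C₁| / Real.log Y * (2 * δ * L) +
        4 * (N : ℝ) ^ 3 * (Y : ℝ) ^ 6 * Real.exp (-((1 / 2 - δ) * L - Real.log Y)) +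
        (N : ℝ) ^ 2 * (Y : ℝ) ^ 4 * (Z : ℝ) ^ 2 * Real.exp (-Real.sqrt T / 4)) with hW
        have hlY : 0 < Real.log Y := Real.log_pos (by exact_mod_cast hY)
        have hW0 : 0 ≤ W := by positivity
        have h1 : Real.exp (1 / 4) * Real.sqrt Real.pi ≤ 3 / 2 * 2 :=
          mul_le_mul hc1 hc2 (Real.sqrt_nonneg _) (by norm_num)
        calc Real.exp (1 / 4) * (Real.sqrt Real.pi * T * (W * N2 N b)) =
            (Real.exp (1 / 4) * Real.sqrt Real.pi) * (T * W * N2 N b) := by ring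
          _ ≤ (3 / 2 * 2) * (T * W * N2 N b) := mul_le_mul_of_nonneg_right h1 (by positivity)
          _ ≤ 6 * T * W * N2 N b := by nlinarith [mul_nonneg (mul_nonneg hT0.le hW0) hN2]

end

end Pool.Agent.Q97.UM
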