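import Pool.Agent.TH223.AP.A1

set_option autoImplicit false

/-! Riesz products and one-sided bounds for trigonometric sums. -/

namespace Pool.Agent.Q97.UM.Rz

open Filter Topology MeasureTheory Complex
open Pool.Agent.TH223.AP

noncomputable section

/-- an integer relation between the elements of `G` with coefficients of modulus at most 2, at most one of them of modulus 2, and with a nonzero
coefficient at an element of `F` -/
def Rel (G F : Finset ℝ) : Prop := ∃ c : ℝ → ℤ, (∀ x ∈ G, |c x| ≤ 2) ∧ (∀ x ∈ G, ∀ y ∈ G, |c x| = 2 → |c y| = 2 → x = y) ∧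
  ∑ x ∈ G, (c x : ℝ) * x = 0 ∧ ∃ x ∈ F, c x ≠ 0

/-- the three frequencies of a factor -/
def J3 : Finset ℤ := {-1, 0, 1}

/-- the coefficients of a factor -/
def co (φ : ℝ → ℝ) (x : ℝ) (j : ℤ) : ℂ := if j = 0 then 1 else cexp (I * (j * φ x)) / 2

/-- the factor of the Riesz product -/
def fac (φ : ℝ → ℝ) (x v : ℝ) : ℝ := 1 + Real.cos (x * v + φ x)

/-- the Riesz product -/
def RP (F : Finset ℝ) (φ : ℝ → ℝ) (v : ℝ) : ℝ := ∏ x ∈ F, fac φ x v

lemma RP_nonneg (F : Finset ℝ) (φ : ℝ → ℝ) (v : ℝ) : 0 ≤ RP F φ v := by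
  unfold RP fac
  refine Finset.prod_nonneg fun x _ => ?_
  linarith [Real.neg_one_le_cos (x * v + φ x)]

lemma RP_cont (F : Finset ℝ) (φ : ℝ → ℝ) : Continuous (RP F φ) := by
  unfold RP fac
  fun_prop

lemma co_zero (φ : ℝ → ℝ) (x : ℝ) : co φ x 0 = 1 := by simp [co]

lemma co_one (φ : ℝ → ℝ) (x : ℝ) : co φ x 1 = cexp (I * φ x) / 2 := by simp [co]

lemma co_neg (φ : ℝ → ℝ) (x : ℝ) : co φ x (-1) = cexp (-(I * φ x)) / 2 := by simp [co]

lemma fac_eq (φ : ℝ → ℝ) (x v : ℝ) : ((fac φ x v : ℝ) : ℂ) = ∑ j ∈ J3, co φ x j * ex (j * x) v := by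
  unfold J3
  rw [Finset.sum_insert (by decide), Finset.sum_insert (by decide), Finset.sum_singleton, co_zero, co_one, co_neg]
  unfold fac ex
  push_cast
  rw [Complex.cos]
  have e1 : cexp (-(I * (φ x : ℂ))) / 2 * cexp (I * (-1 * (x : ℂ)) * v) = cexp (-((x : ℂ) * v + φ x) * I) / 2 := by
    rw [div_mul_eq_mul_div, ← Complex.exp_add]
    congr 2
    ring
  have e2 : cexp (I * (φ x : ℂ)) / 2 * cexp (I * (1 * (x : ℂ)) * v) = cexp (((x : ℂ) * v + φ x) * I) / 2 := by
    rw [div_mul_eq_mul_div, ← Complex.exp_add]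
    congr 2
    ring
  have e3 : cexp (I * (0 * (x : ℂ)) * v) = 1 := by simp
  rw [e1, e2, e3]
  ring

/-- the frequency of a term of the product -/
def fr (F : Finset ℝ) (p : (x : ℝ) → x ∈ F → ℤ) : ℝ := ∑ x ∈ F.attach, (p x.1 x.2 : ℝ) * x.1

/-- the coefficient of a term of the product -/
def cf (F : Finset ℝ) (φ : ℝ → ℝ) (p : (x : ℝ) → x ∈ F → ℤ) : ℂ := ∏ x ∈ F.attach, co φ x.1 (p x.1 x.2)

lemma prod_ex {ι : Type} (s : Finset ι) (l : ι → ℝ) (v : ℝ) : ∏ i ∈ s, ex (l i) v = ex (∑ i ∈ s, l i) v := by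
  classical
  induction s using Finset.induction_on with
  | empty => simp [ex]
  | insert i s hi ih =>
    rw [Finset.prod_insert hi, Finset.sum_insert hi, ih]
    unfold ex
    rw [← Complex.exp_add]
    congr 1
    push_cast
    ring

lemma RP_eq (F : Finset ℝ) (φ : ℝ → ℝ) (v : ℝ) :
    ((RP F φ v : ℝ) : ℂ) = ∑ p ∈ F.pi (fun _ => J3), cf F φ p * ex (fr F p) v := by
  classical
  unfold RP
  push_cast
  simp only [fac_eq]
  rw [Finset.prod_sum]
  refine Finset.sum_congr rfl fun p _ => ?_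
  rw [Finset.prod_mul_distrib, prod_ex]
  rfl

/-- the Fourier coefficients of the Riesz product -/
lemma RP_mean (F : Finset ℝ) (φ : ℝ → ℝ) (μ : ℝ) :
    Tendsto (fun V : ℝ => (∫ v in (0:ℝ)..V, ((RP F φ v : ℝ) : ℂ) * ex μ v) / (V : ℂ)) atTop
      (𝓝 (∑ p ∈ F.pi (fun _ => J3), cf F φ p * (if fr F p + μ = 0 then 1 else 0))) := by
  classical
  have e1 : ∀ V : ℝ, (∫ v in (0:ℝ)..V, ((RP F φ v : ℝ) : ℂ) * ex μ v) / (V : ℂ) =
      ∑ p ∈ F.pi (fun _ => J3), cf F φ p * ((∫ v in (0:ℝ)..V, ex (fr F p + μ) v) / (V : ℂ)) := by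
    intro V
    have e2 : ∀ v : ℝ, ((RP F φ v : ℝ) : ℂ) * ex μ v = ∑ p ∈ F.pi (fun _ => J3), cf F φ p * ex (fr F p + μ) v := by
      intro v
      rw [RP_eq, Finset.sum_mul]
      refine Finset.sum_congr rfl fun p _ => ?_
      have : ex (fr F p + μ) v = ex (fr F p) v * ex μ v := by
        unfold ex
        rw [← Complex.exp_add]
        congr 1
        push_cast
        ring
      rw [this, mul_assoc]
    simp only [e2]
    rw [intervalIntegral.integral_finsetSum]
    · rw [Finset.sum_div]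
      refine Finset.sum_congr rfl fun p _ => ?_
      rw [intervalIntegral.integral_const_mul, mul_div_assoc]
    · intro p _
      apply Continuous.intervalIntegrable
      have := ex_cont (fr F p + μ)
      fun_prop
  simp only [e1]
  exact tendsto_finsetSum _ fun p _ => (mean_ex _).const_mul _

/-- extension of a term by zero -/
def ext (F : Finset ℝ) (p : (x : ℝ) → x ∈ F → ℤ) (x : ℝ) : ℤ := by
  classical
  exact if h : x ∈ F then p x h else 0

lemma ext_mem {F : Finset ℝ} (p : (x : ℝ) → x ∈ F → ℤ) {x : ℝ} (h : x ∈ F) : ext F p x = p x h := by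
  unfold ext
  rw [dif_pos h]

lemma ext_not {F : Finset ℝ} (p : (x : ℝ) → x ∈ F → ℤ) {x : ℝ} (h : x ∉ F) : ext F p x = 0 := by
  unfold ext
  rw [dif_neg h]

lemma fr_eq {G F : Finset ℝ} (hF : F ⊆ G) (p : (x : ℝ) → x ∈ F → ℤ) : fr F p = ∑ x ∈ G, (ext F p x : ℝ) * x := by
  classical
  unfold fr
  rw [← Finset.sum_subset hF (fun x _ hx => by rw [ext_not p hx]; simp)]
  rw [← Finset.sum_attach F (fun x => (ext F p x : ℝ) * x)]
  refine Finset.sum_congr rfl fun x _ => ?_
  rw [ext_mem p x.2]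

lemma mem_J3 {F : Finset ℝ} {p : (x : ℝ) → x ∈ F → ℤ} (hp : p ∈ F.pi (fun _ => J3)) (x : ℝ) : |ext F p x| ≤ 1 := by
  by_cases h : x ∈ F
  · rw [ext_mem p h]
    have := Finset.mem_pi.1 hp x h
    unfold J3 at this
    simp only [Finset.mem_insert, Finset.mem_singleton] at this
    rcases this with h1 | h1 | h1 <;> rw [h1] <;> decide
  · rw [ext_not p h]
    decide

/-- the terms with `fr F p + k x₀ = 0`, `|k| ≤ 1` -/
lemma key {G F : Finset ℝ} (hF : F ⊆ G) (hpos : ∀ x ∈ G, 0 < x) (hno : ¬ Rel G F) {x₀ : ℝ} (hx₀ : x₀ ∈ G) {k : ℤ} (hk : |k| ≤ 1)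
    {p : (x : ℝ) → x ∈ F → ℤ} (hp : p ∈ F.pi (fun _ => J3)) (h : fr F p + k * x₀ = 0) :
    (∀ x ∈ F, ext F p x = if x = x₀ then -k else 0) ∧ (x₀ ∉ F → k = 0) := by
  classical
  set c : ℝ → ℤ := fun x => ext F p x + (if x = x₀ then k else 0) with hc
  have h1 : ∀ x ∈ G, |c x| ≤ 2 := by
    intro x _
    simp only [hc]
    have h2 := mem_J3 hp x
    split_ifs
    · have := abs_add_le (ext F p x) k
      linarith
    · rw [add_zero]; linarith
  have h2 : ∀ x ∈ G, |c x| = 2 → x = x₀ := by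
    intro x _ h3
    by_contra hne
    simp only [hc, hne, if_false, add_zero] at h3
    have := mem_J3 hp x
    omega
  have h3 : ∑ x ∈ G, (c x : ℝ) * x = 0 := by
    have : ∑ x ∈ G, (c x : ℝ) * x = (∑ x ∈ G, (ext F p x : ℝ) * x) + ∑ x ∈ G, (if x = x₀ then (k : ℝ) * x₀ else 0) := by
      rw [← Finset.sum_add_distrib]
      refine Finset.sum_congr rfl fun x _ => ?_
      simp only [hc]
      split_ifs with hx
      · rw [hx]; push_cast; ring
      · push_cast; ring
    rw [this, ← fr_eq hF, Finset.sum_ite_eq' G x₀ (fun _ => (k : ℝ) * x₀), if_pos hx₀]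
    exact h
  have h4 : ∀ x ∈ F, c x = 0 := by
    intro x hx
    by_contra hne
    exact hno ⟨c, h1, fun x hx y hy hx2 hy2 => (h2 x hx hx2).trans (h2 y hy hy2).symm, h3, x, hx, hne⟩
  have h5 : ∀ x ∈ F, ext F p x = if x = x₀ then -k else 0 := by
    intro x hx
    have h6 := h4 x hx
    simp only [hc] at h6
    split_ifs at h6 ⊢ <;> linarith
  refine ⟨h5, ?_⟩
  intro hx₀F
  have h6 : fr F p = 0 := by
    rw [fr_eq (Finset.Subset.refl F)]
    refine Finset.sum_eq_zero fun x hx => ?_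
    rw [h5 x hx, if_neg (fun h' : x = x₀ => hx₀F (h' ▸ hx))]
    simp
  rw [h6, zero_add] at h
  rcases mul_eq_zero.1 h with h7 | h7
  · exact_mod_cast h7
  · exact absurd h7 (hpos x₀ hx₀).ne'

/-- the value of the Fourier coefficient at `k x₀` -/
lemma coef {G F : Finset ℝ} (hF : F ⊆ G) (hpos : ∀ x ∈ G, 0 < x) (hno : ¬ Rel G F) (φ : ℝ → ℝ) {x₀ : ℝ} (hx₀ : x₀ ∈ G) {k : ℤ} (hk : |k| ≤ 1)
    (h0 : k = 0 ∨ x₀ ∈ F) :
    ∑ p ∈ F.pi (fun _ => J3), cf F φ p * (if fr F p + k * x₀ = 0 then (1:ℂ) else 0) = co φ x₀ (-k) := by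
  classical
  set p₀ : (x : ℝ) → x ∈ F → ℤ := fun x _ => if x = x₀ then -k else 0 with hp₀
  have hkJ : -k ∈ J3 := by
    unfold J3
    rw [abs_le] at hk
    have : k = -1 ∨ k = 0 ∨ k = 1 := by omega
    rcases this with h | h | h <;> rw [h] <;> decide
  have h0J : (0 : ℤ) ∈ J3 := by decide
  have hmem : p₀ ∈ F.pi (fun _ => J3) := by
    rw [Finset.mem_pi]
    intro x hx
    simp only [hp₀]
    split_ifs
    · exact hkJ
    · exact h0J
  have hval : fr F p₀ + k * x₀ = 0 := by
    rw [fr_eq (Finset.Subset.refl F)]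
    have : ∑ x ∈ F, (ext F p₀ x : ℝ) * x = ∑ x ∈ F, (if x = x₀ then (-(k : ℝ)) * x₀ else 0) := by
      refine Finset.sum_congr rfl fun x hx => ?_
      rw [ext_mem p₀ hx]
      simp only [hp₀]
      split_ifs with h
      · rw [h]; push_cast; ring
      · simp
    rw [this, Finset.sum_ite_eq' F x₀ (fun _ => (-(k : ℝ)) * x₀)]
    rcases h0 with h | h
    · rw [h]; simp
    · rw [if_pos h]; ring
  rw [Finset.sum_eq_single p₀]
  · rw [if_pos hval, mul_one]
    unfold cf
    have e1 : ∀ x ∈ F.attach, co φ x.1 (p₀ x.1 x.2) = if x.1 = x₀ then co φ x₀ (-k) else 1 := by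
      intro x _
      simp only [hp₀]
      split_ifs with h
      · rw [h]
      · unfold co; simp
    rw [Finset.prod_congr rfl e1, Finset.prod_attach F (fun x => if x = x₀ then co φ x₀ (-k) else 1),
      Finset.prod_ite_eq' F x₀ (fun _ => co φ x₀ (-k))]
    rcases h0 with h | h
    · rw [h]
      unfold co
      simp
    · rw [if_pos h]
  · intro p hp hne
    by_cases h : fr F p + k * x₀ = 0
    · exfalso
      apply hne
      obtain ⟨h1, _⟩ := key hF hpos hno hx₀ hk hp h
      funext x hx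
      have h2 := h1 x hx
      rw [ext_mem p hx] at h2
      exact h2
    · rw [if_neg h, mul_zero]
  · intro h
    exact absurd hmem h

lemma coef_zero {G F : Finset ℝ} (hF : F ⊆ G) (hpos : ∀ x ∈ G, 0 < x) (hno : ¬ Rel G F) (φ : ℝ → ℝ) {x₀ : ℝ} (hx₀ : x₀ ∈ G) {k : ℤ} (hk : |k| ≤ 1)
    (hk0 : k ≠ 0) (hx : x₀ ∉ F) :
    ∑ p ∈ F.pi (fun _ => J3), cf F φ p * (if fr F p + k * x₀ = 0 then (1:ℂ) else 0) = 0 := by
  classical
  refine Finset.sum_eq_zero fun p hp => ?_
  by_cases h : fr F p + k * x₀ = 0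
  · exact absurd ((key hF hpos hno hx₀ hk hp h).2 hx) hk0
  · rw [if_neg h, mul_zero]

/-- **one-sided bounds and relations**: if no relation touches `F` then the coefficients at `F` are bounded in sum -/
theorem main {G F : Finset ℝ} (hF : F ⊆ G) (hpos : ∀ x ∈ G, 0 < x) (hno : ¬ Rel G F) (w : ℝ → ℂ) (D : ℝ)
    (hD : ∀ v : ℝ, ∑ x ∈ G, 2 * (w x * ex x v).re ≤ D) (hne : G.Nonempty) : ∑ x ∈ F, ‖w x‖ ≤ D := by
  classical
  set φ : ℝ → ℝ := fun x => Complex.arg (w x) with hφ
  have hRP := RP_cont F φ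
  have hmean : ∀ x₀ ∈ G, ∀ k : ℤ, |k| ≤ 1 → (k = 0 ∨ x₀ ∈ F) →
      Tendsto (fun V : ℝ => (∫ v in (0:ℝ)..V, ((RP F φ v : ℝ) : ℂ) * ex (k * x₀) v) / (V : ℂ)) atTop (𝓝 (co φ x₀ (-k))) := by
    intro x₀ hx₀ k hk h0
    have := RP_mean F φ (k * x₀)
    rwa [coef hF hpos hno φ hx₀ hk h0] at this
  have hmean0 : ∀ x₀ ∈ G, ∀ k : ℤ, |k| ≤ 1 → k ≠ 0 → x₀ ∉ F →
      Tendsto (fun V : ℝ => (∫ v in (0:ℝ)..V, ((RP F φ v : ℝ) : ℂ) * ex (k * x₀) v) / (V : ℂ)) atTop (𝓝 0) := by
    intro x₀ hx₀ k hk hk0 h0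
    have := RP_mean F φ (k * x₀)
    rwa [coef_zero hF hpos hno φ hx₀ hk hk0 h0] at this
  obtain ⟨x₁, hx₁⟩ := hne
  -- the mean of the product
  have hm : Tendsto (fun V : ℝ => (∫ v in (0:ℝ)..V, RP F φ v) / V) atTop (𝓝 1) := by
    have h1 := hmean x₁ hx₁ 0 (by decide) (Or.inl rfl)
    have e : ∀ v : ℝ, ex (((0 : ℤ) : ℝ) * x₁) v = 1 := by intro v; simp [ex]
    simp only [e, mul_one, neg_zero, co_zero] at h1
    have h2 := (Complex.continuous_re.tendsto _).comp h1
    refine h2.congr fun V => ?_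
    show ((∫ v in (0:ℝ)..V, ((RP F φ v : ℝ) : ℂ)) / (V : ℂ)).re = _
    rw [intervalIntegral.integral_ofReal, ← Complex.ofReal_div, Complex.ofReal_re]
  -- the mean of the product against the sum
  set g : ℝ → ℝ := fun v => ∑ x ∈ G, 2 * (w x * ex x v).re with hg
  have hgc : Continuous g := by
    rw [hg]
    refine continuous_finsetSum _ fun x _ => ?_
    have := ex_cont x
    fun_prop
  have hgm : Tendsto (fun V : ℝ => (∫ v in (0:ℝ)..V, RP F φ v * g v) / V) atTop (𝓝 (∑ x ∈ F, ‖w x‖)) := by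
    have e1 : ∀ V : ℝ, (((∫ v in (0:ℝ)..V, RP F φ v * g v) / V : ℝ) : ℂ) =
        ∑ x ∈ G, (w x * ((∫ v in (0:ℝ)..V, ((RP F φ v : ℝ) : ℂ) * ex (((1 : ℤ) : ℝ) * x) v) / (V : ℂ)) +
          (starRingEnd ℂ) (w x) * ((∫ v in (0:ℝ)..V, ((RP F φ v : ℝ) : ℂ) * ex (((-1 : ℤ) : ℝ) * x) v) / (V : ℂ))) := by
      intro V
      push_cast
      rw [← intervalIntegral.integral_ofReal]
      have e2 : ∀ v : ℝ, (((RP F φ v * g v : ℝ)) : ℂ) = ∑ x ∈ G, (w x * (((RP F φ v : ℝ) : ℂ) * ex (1 * x) v) +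
          (starRingEnd ℂ) (w x) * (((RP F φ v : ℝ) : ℂ) * ex (-1 * x) v)) := by
        intro v
        rw [hg]
        push_cast
        rw [Finset.mul_sum]
        refine Finset.sum_congr rfl fun x _ => ?_
        have e3 : (2 : ℂ) * (((w x * ex x v).re : ℝ) : ℂ) = w x * ex x v + (starRingEnd ℂ) (w x * ex x v) := by
          rw [Complex.add_conj]
          push_cast
          ring
        have e4 : (starRingEnd ℂ) (ex x v) = ex (-1 * x) v := by
          unfold ex
          rw [← Complex.exp_conj]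
          congr 1
          simp only [map_mul, Complex.conj_I, Complex.conj_ofReal]
          push_cast
          ring
        rw [e3, map_mul, e4, one_mul]
        ring
      simp only [e2]
      rw [intervalIntegral.integral_finsetSum]
      · rw [Finset.sum_div]
        refine Finset.sum_congr rfl fun x _ => ?_
        rw [intervalIntegral.integral_add, intervalIntegral.integral_const_mul, intervalIntegral.integral_const_mul]
        · ring
        · apply Continuous.intervalIntegrable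
          have := ex_cont (1 * x)
          fun_prop
        · apply Continuous.intervalIntegrable
          have := ex_cont (-1 * x)
          fun_prop
      · intro x _
        apply Continuous.intervalIntegrable
        have := ex_cont (1 * x)
        have := ex_cont (-1 * x)
        fun_prop
    have h1 : Tendsto (fun V : ℝ => (((∫ v in (0:ℝ)..V, RP F φ v * g v) / V : ℝ) : ℂ)) atTop
        (𝓝 (∑ x ∈ G, (if x ∈ F then (‖w x‖ : ℂ) else 0))) := by
      simp only [e1]
      refine tendsto_finsetSum _ fun x hx => ?_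
      by_cases hxF : x ∈ F
      · rw [if_pos hxF]
        have h2 := ((hmean x hx 1 (by decide) (Or.inr hxF)).const_mul (w x)).add
          ((hmean x hx (-1) (by decide) (Or.inr hxF)).const_mul ((starRingEnd ℂ) (w x)))
        have e5 : w x * co φ x (-1) + (starRingEnd ℂ) (w x) * co φ x (-(-1)) = (‖w x‖ : ℂ) := by
          rw [neg_neg, co_neg, co_one]
          have e6 : w x = ‖w x‖ * cexp (I * φ x) := by
            rw [hφ]
            simp only
            rw [mul_comm I]
            exact (Complex.norm_mul_exp_arg_mul_I (w x)).symm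
          have e7 : (starRingEnd ℂ) (w x) = ‖w x‖ * cexp (-(I * φ x)) := by
            conv_lhs => rw [e6]
            rw [map_mul, Complex.conj_ofReal, ← Complex.exp_conj]
            congr 2
            simp only [map_mul, Complex.conj_I, Complex.conj_ofReal]
            ring
          have e8 : cexp (I * φ x) * cexp (-(I * φ x)) = 1 := by
            rw [← Complex.exp_add]
            simp
          rw [e7]
          conv_lhs => rw [e6]
          have hn : ‖(‖w x‖ : ℂ) * cexp (I * φ x)‖ = ‖w x‖ := by rw [← e6]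
          rw [hn]
          linear_combination (‖w x‖ : ℂ) * e8
        rw [e5] at h2
        exact h2
      · rw [if_neg hxF]
        have h2 := ((hmean0 x hx 1 (by decide) (by decide) hxF).const_mul (w x)).add
          ((hmean0 x hx (-1) (by decide) (by decide) hxF).const_mul ((starRingEnd ℂ) (w x)))
        rw [mul_zero, mul_zero, add_zero] at h2
        exact h2
    have h2 := (Complex.continuous_re.tendsto _).comp h1
    simp only [Function.comp_def, Complex.ofReal_re] at h2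
    have e9 : (∑ x ∈ G, (if x ∈ F then (‖w x‖ : ℂ) else 0)).re = ∑ x ∈ F, ‖w x‖ := by
      rw [← Finset.sum_filter, Complex.re_sum]
      have : G.filter (fun x => x ∈ F) = F := by
        ext x
        simp only [Finset.mem_filter]
        exact ⟨fun h => h.2, fun h => ⟨hF h, h⟩⟩
      rw [this]
      rfl
    rw [e9] at h2
    exact h2
  -- comparison
  have h3 : ∀ᶠ V : ℝ in atTop, (∫ v in (0:ℝ)..V, RP F φ v * g v) / V ≤ D * ((∫ v in (0:ℝ)..V, RP F φ v) / V) := by
    filter_upwards [eventually_gt_atTop 0] with V hV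
    rw [← mul_div_assoc, ← intervalIntegral.integral_const_mul]
    apply div_le_div_of_nonneg_right _ hV.le
    apply intervalIntegral.integral_mono_on hV.le
    · exact (hRP.mul hgc).intervalIntegrable _ _
    · exact (continuous_const.mul hRP).intervalIntegrable _ _
    · intro v _
      rw [mul_comm D]
      exact mul_le_mul_of_nonneg_left (hD v) (RP_nonneg F φ v)
  have h4 := le_of_tendsto_of_tendsto hgm (hm.const_mul D) h3
  rwa [mul_one] at h4

end

end Pool.Agent.Q97.UM.Rz
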