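import Pool.Agent.Q97.UM.Jm
import Pool.Agent.Q97.UM.Rz
import Pool.Agent.Q241.SPL.Gen

set_option autoImplicit false

/-! Riesz products and Ingham's sums over the zeros of zeta; the sum of `1 / |ρ ζ'(ρ)|`. -/

namespace Pool.Agent.Q97.UM.Rz

open Filter Topology MeasureTheory Complex
open Pool.Agent.TH223.AP (ex)
open Q241SPL (Zer ZT_finite Zer_im_ne)
open scoped ComplexConjugate

noncomputable section

theorem deriv_zeta_conj {s : ℂ} (hs : s ≠ 1) : deriv riemannZeta (conj s) = conj (deriv riemannZeta s) := by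
  have h1 := (differentiableAt_riemannZeta hs).hasDerivAt.conj_conj
  have h2 : (conj ∘ riemannZeta ∘ conj : ℂ → ℂ) = riemannZeta := by
    funext z
    simp only [Function.comp_apply]
    rw [riemannZeta_conj, Complex.conj_conj]
  rw [h2] at h1
  exact h1.deriv

lemma zer_conj {ρ : ℂ} (h : ρ ∈ Zer) : conj ρ ∈ Zer := by
  obtain ⟨h0, h1, h2⟩ := h
  refine ⟨?_, by simpa using h1, by simpa using h2⟩
  rw [riemannZeta_conj, h0, map_zero]

lemma zer_ne_one {ρ : ℂ} (h : ρ ∈ Zer) : ρ ≠ 1 := by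
  rintro rfl
  have := h.2.2
  simp at this

/-- the positive ordinates below `T`, as a finite set -/
def GT (T : ℝ) : Finset ℝ := by
  classical
  exact ((ZT_finite T).toFinset.filter (fun ρ => 0 < ρ.im)).image Complex.im

lemma mem_GT {T x : ℝ} : x ∈ GT T ↔ 0 < x ∧ x < T ∧ ∃ ρ ∈ Zer, ρ.im = x := by
  classical
  unfold GT
  rw [Finset.mem_image]
  constructor
  · rintro ⟨ρ, h, rfl⟩
    rw [Finset.mem_filter, Set.Finite.mem_toFinset] at h
    have h1 := h.1.2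
    rw [abs_of_pos h.2] at h1
    exact ⟨h.2, h1, ρ, h.1.1, rfl⟩
  · rintro ⟨h1, h2, ρ, h3, rfl⟩
    refine ⟨ρ, ?_, rfl⟩
    rw [Finset.mem_filter, Set.Finite.mem_toFinset]
    exact ⟨⟨h3, by rw [abs_of_pos h1]; exact h2⟩, h1⟩

/-- the coefficients -/
def wq (q : ℂ → ℂ) (ρ : ℂ) : ℂ := q ρ / (ρ * deriv riemannZeta ρ)

lemma wq_conj {q : ℂ → ℂ} (hq : ∀ s, q (conj s) = conj (q s)) {ρ : ℂ} (h : ρ ∈ Zer) : wq q (conj ρ) = conj (wq q ρ) := by
  unfold wq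
  rw [hq, deriv_zeta_conj (zer_ne_one h), ← map_mul, ← map_div₀]

/-- Ingham's sum over the positive ordinates -/
lemma ing_eq {q : ℂ → ℂ} (hq : ∀ s, q (conj s) = conj (q s)) (hRH : ∀ ρ ∈ Zer, ρ.re = 1 / 2) {T : ℝ} (v : ℝ) :
    ∑ᶠ ρ ∈ Q241SPL.ZT T, (1 - |ρ.im| / T) * (cexp (ρ.im * v * I) * (q ρ / (ρ * deriv riemannZeta ρ))).re =
      ∑ x ∈ GT T, 2 * ((((1 - x / T : ℝ) : ℂ) * wq q (1 / 2 + x * I)) * ex x v).re := by
  classical
  set h : ℂ → ℝ := fun ρ => (1 - |ρ.im| / T) * (cexp (ρ.im * v * I) * (q ρ / (ρ * deriv riemannZeta ρ))).re with hh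
  set Z := (ZT_finite T).toFinset with hZ
  have hmem : ∀ ρ, ρ ∈ Z ↔ ρ ∈ Zer ∧ |ρ.im| < T := by
    intro ρ
    rw [hZ, Set.Finite.mem_toFinset]
    rfl
  have e0 : ∑ᶠ ρ ∈ Q241SPL.ZT T, (1 - |ρ.im| / T) * (cexp (ρ.im * v * I) * (q ρ / (ρ * deriv riemannZeta ρ))).re = ∑ ρ ∈ Z, h ρ :=
    finsum_mem_eq_finite_toFinset_sum _ (ZT_finite T)
  rw [e0]
  have e1 : ∑ ρ ∈ Z, h ρ = ∑ ρ ∈ Z.filter (fun ρ => 0 < ρ.im), h ρ + ∑ ρ ∈ Z.filter (fun ρ => ¬ 0 < ρ.im), h ρ :=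
    (Finset.sum_filter_add_sum_filter_not Z _ _).symm
  have e2 : ∑ ρ ∈ Z.filter (fun ρ => ¬ 0 < ρ.im), h ρ = ∑ ρ ∈ Z.filter (fun ρ => 0 < ρ.im), h ρ := by
    refine Finset.sum_nbij' (fun ρ => conj ρ) (fun ρ => conj ρ) ?_ ?_ ?_ ?_ ?_
    · intro ρ hρ
      rw [Finset.mem_filter, hmem] at hρ ⊢
      obtain ⟨⟨h1, h2⟩, h3⟩ := hρ
      have h4 := Zer_im_ne h1
      refine ⟨⟨zer_conj h1, by simpa using h2⟩, ?_⟩
      simp only [Complex.conj_im]
      rcases lt_or_gt_of_ne h4 with h5 | h5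
      · linarith
      · exact absurd h5 h3
    · intro ρ hρ
      rw [Finset.mem_filter, hmem] at hρ ⊢
      obtain ⟨⟨h1, h2⟩, h3⟩ := hρ
      refine ⟨⟨zer_conj h1, by simpa using h2⟩, ?_⟩
      simp only [Complex.conj_im]
      linarith
    · intro ρ _
      exact Complex.conj_conj ρ
    · intro ρ _
      exact Complex.conj_conj ρ
    · intro ρ hρ
      rw [Finset.mem_filter, hmem] at hρ
      simp only [hh, Complex.conj_im, abs_neg]
      congr 1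
      have h1 : q (conj ρ) / (conj ρ * deriv riemannZeta (conj ρ)) = conj (q ρ / (ρ * deriv riemannZeta ρ)) := wq_conj hq hρ.1.1
      have h2 : cexp (((-ρ.im : ℝ) : ℂ) * v * I) = conj (cexp (ρ.im * v * I)) := by
        rw [← Complex.exp_conj]
        congr 1
        simp only [map_mul, Complex.conj_I, Complex.conj_ofReal]
        push_cast
        ring
      rw [h1, h2, ← map_mul, Complex.conj_re]
  rw [e1, e2, ← two_mul, Finset.mul_sum]
  unfold GT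
  rw [Finset.sum_image]
  · refine Finset.sum_congr rfl fun ρ hρ => ?_
    rw [Finset.mem_filter, hmem] at hρ
    have h1 : (1 / 2 + (ρ.im : ℂ) * I : ℂ) = ρ := by
      apply Complex.ext
      · simp [hRH ρ hρ.1.1]
      · simp
    simp only [hh]
    rw [h1, abs_of_pos hρ.2]
    unfold wq ex
    have h2 : (((1 - ρ.im / T : ℝ) : ℂ) * (q ρ / (ρ * deriv riemannZeta ρ)) * cexp (I * ρ.im * v)) =
        ((1 - ρ.im / T : ℝ) : ℂ) * (cexp (ρ.im * v * I) * (q ρ / (ρ * deriv riemannZeta ρ))) := by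
      rw [show I * (ρ.im : ℂ) * v = ρ.im * v * I by ring]
      ring
    rw [h2, Complex.re_ofReal_mul]
  · intro ρ hρ ρ' hρ' him
    rw [Finset.mem_coe, Finset.mem_filter, hmem] at hρ hρ'
    exact Complex.ext ((hRH ρ hρ.1.1).trans (hRH ρ' hρ'.1.1).symm) him

/-- the inequality for the ordinates which occur in no relation -/
theorem free_le {q : ℂ → ℂ} (hq : ∀ s, q (conj s) = conj (q s)) (hRH : ∀ ρ ∈ Zer, ρ.re = 1 / 2) {T D : ℝ} (hT : 0 < T) (hD0 : 0 ≤ D)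
    (hD : ∀ v : ℝ, ∑ᶠ ρ ∈ Q241SPL.ZT T, (1 - |ρ.im| / T) * (cexp (ρ.im * v * I) * (q ρ / (ρ * deriv riemannZeta ρ))).re ≤ D)
    (F : Finset ℝ) (hF : F ⊆ GT T) (hno : ¬ Rel (GT T) F) : ∑ x ∈ F, (1 - x / T) * ‖wq q (1 / 2 + x * I)‖ ≤ D := by
  rcases (GT T).eq_empty_or_nonempty with he | hne
  · have : F = ∅ := Finset.subset_empty.1 (he ▸ hF)
    rw [this]
    simpa using hD0
  · have h1 := main hF (fun x hx => (mem_GT.1 hx).1) hno (fun x => ((1 - x / T : ℝ) : ℂ) * wq q (1 / 2 + x * I)) D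
      (fun v => by
        have := hD v
        rw [ing_eq hq hRH v] at this
        exact this) hne
    refine le_trans (le_of_eq ?_) h1
    refine Finset.sum_congr rfl fun x hx => ?_
    have hx' := mem_GT.1 (hF hx)
    have h2 : 0 ≤ 1 - x / T := by
      have : x / T ≤ 1 := by rw [div_le_one hT]; exact hx'.2.1.le
      linarith
    rw [norm_mul, Complex.norm_real, Real.norm_eq_abs, abs_of_nonneg h2]

/-- a dyadic block -/
lemma blk : ∃ c U₀ : ℝ, 0 < c ∧ 16 ≤ U₀ ∧ ∀ U : ℝ, U₀ ≤ U → ∃ Z : Finset ℂ,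
    (∀ ρ ∈ Z, ρ ∈ Zer ∧ ρ.re = 1 / 2 ∧ U < ρ.im ∧ ρ.im ≤ 2 * U) ∧ c * Real.log U ^ (1 / 4 : ℝ) ≤ ∑ ρ ∈ Z, 1 / ‖ρ * deriv riemannZeta ρ‖ := by
  obtain ⟨d, hd, hd1, h⟩ := J_low
  obtain ⟨c, hc, h1⟩ := h 1 le_rfl
  obtain ⟨T₀, hT₀⟩ := eventually_atTop.1 (h1.and (eventually_ge_atTop (16 : ℝ)))
  refine ⟨c / 3, max T₀ 16, by positivity, le_max_right _ _, ?_⟩
  intro U hU
  obtain ⟨h2, h3⟩ := hT₀ U ((le_max_left _ _).trans hU)
  have h4 := h2 (-(1 / 2)) (by norm_num [abs_le])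
  have hmem : ∀ ρ ∈ ZI d U, ρ ∈ Zer ∧ ρ.re = 1 / 2 ∧ U < ρ.im ∧ ρ.im ≤ 2 * U ∧ deriv riemannZeta ρ ≠ 0 := by
    intro ρ hρ
    rw [mem_ZI_iff h3 hd1] at hρ
    obtain ⟨a1, a2, a3, a4, a5, _⟩ := hρ
    exact ⟨⟨a4, by rw [a1]; norm_num, by rw [a1]; norm_num⟩, a1, a2, a3, a5⟩
  refine ⟨ZI d U, fun ρ hρ => ⟨(hmem ρ hρ).1, (hmem ρ hρ).2.1, (hmem ρ hρ).2.2.1, (hmem ρ hρ).2.2.2.1⟩, ?_⟩
  have hU0 : 0 < U := by linarith
  have e1 : ((-(1 / 2) : ℝ) + 1) ^ 2 = 1 / 4 := by norm_num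
  rw [e1] at h4
  have h6 : ∀ ρ ∈ ZI d U, ‖deriv riemannZeta ρ‖ ^ (2 * (-(1 / 2)) : ℝ) ≤ 3 * U * (1 / ‖ρ * deriv riemannZeta ρ‖) := by
    intro ρ hρ
    obtain ⟨_, a1, a2, a3, a5⟩ := hmem ρ hρ
    have hd0 : 0 < ‖deriv riemannZeta ρ‖ := norm_pos_iff.2 a5
    have e2 : ‖deriv riemannZeta ρ‖ ^ (2 * (-(1 / 2)) : ℝ) = 1 / ‖deriv riemannZeta ρ‖ := by
      rw [show (2 * (-(1 / 2)) : ℝ) = -1 by norm_num, Real.rpow_neg_one, one_div]
    rw [e2, norm_mul]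
    have hρ2 : ‖ρ‖ ≤ 3 * U := by
      have := Complex.norm_le_abs_re_add_abs_im ρ
      rw [a1, abs_of_pos (by linarith : 0 < ρ.im)] at this
      norm_num at this
      linarith
    have hρ0 : 0 < ‖ρ‖ := by
      have := Complex.abs_im_le_norm ρ
      rw [abs_of_pos (by linarith : 0 < ρ.im)] at this
      linarith
    rw [div_le_iff₀ hd0]
    have : 3 * U * (1 / (‖ρ‖ * ‖deriv riemannZeta ρ‖)) * ‖deriv riemannZeta ρ‖ = 3 * U / ‖ρ‖ := by
      field_simp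
    rw [this, le_div_iff₀ hρ0]
    linarith
  have h7 : c * U * Real.log U ^ (1 / 4 : ℝ) ≤ 3 * U * ∑ ρ ∈ ZI d U, 1 / ‖ρ * deriv riemannZeta ρ‖ := by
    rw [Finset.mul_sum]
    exact h4.trans (Finset.sum_le_sum h6)
  have h8 : (c / 3 * Real.log U ^ (1 / 4 : ℝ)) * (3 * U) ≤ (∑ ρ ∈ ZI d U, 1 / ‖ρ * deriv riemannZeta ρ‖) * (3 * U) := by
    linarith
  exact le_of_mul_le_mul_right h8 (by linarith)

/-- the sum over the zeros up to `T / 2` -/
theorem sum_low : ∃ c T₀ : ℝ, 0 < c ∧ 4 ≤ T₀ ∧ ∀ T : ℝ, T₀ ≤ T → ∃ Z : Finset ℂ,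
    (∀ ρ ∈ Z, ρ ∈ Zer ∧ ρ.re = 1 / 2 ∧ 0 < ρ.im ∧ ρ.im ≤ T / 2) ∧ c * Real.log T ^ (5 / 4 : ℝ) ≤ ∑ ρ ∈ Z, 1 / ‖ρ * deriv riemannZeta ρ‖ := by
  classical
  obtain ⟨c, U₀, hc, hU₀, h⟩ := blk
  have hL := Real.tendsto_log_atTop
  obtain ⟨T₁, hT₁⟩ := eventually_atTop.1 ((hL.eventually_ge_atTop (4 * Real.log (2 * U₀))).and (hL.eventually_ge_atTop 8))
  refine ⟨c / 16, max T₁ 4, by positivity, le_max_right _ _, ?_⟩
  intro T hT
  obtain ⟨h1, h2⟩ := hT₁ T ((le_max_left _ _).trans hT)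
  have hT4 : 4 ≤ T := (le_max_right _ _).trans hT
  have hT0 : 0 < T := by linarith
  set n : ℕ := ⌊Real.log T / 2⌋₊ with hn
  have hn1 : (n : ℝ) ≤ Real.log T / 2 := Nat.floor_le (by linarith)
  have hn2 : Real.log T / 4 ≤ n := by
    have := Nat.lt_floor_add_one (Real.log T / 2)
    rw [← hn] at this
    linarith
  set U : ℕ → ℝ := fun j => 2 ^ j * U₀ with hU
  have hU0 : ∀ j, U₀ ≤ U j := by
    intro j
    simp only [hU]
    have : (1 : ℝ) ≤ 2 ^ j := one_le_pow₀ (by norm_num)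
    nlinarith
  have hUs : ∀ j, U (j + 1) = 2 * U j := by
    intro j
    simp only [hU]
    ring
  have hUm : Monotone U := by
    intro i j hij
    simp only [hU]
    apply mul_le_mul_of_nonneg_right (pow_le_pow_right₀ (by norm_num) hij) (by linarith)
  choose Zb hZb1 hZb2 using fun j => h (U j) (hU0 j)
  have hdisj : ∀ i ∈ Finset.Ico n (2 * n), ∀ j ∈ Finset.Ico n (2 * n), i ≠ j → Disjoint (Zb i) (Zb j) := by
    have hlt : ∀ i j, i < j → Disjoint (Zb i) (Zb j) := by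
      intro i j hij
      rw [Finset.disjoint_left]
      intro ρ hi hj
      have a1 := (hZb1 i ρ hi).2.2.2
      have a2 := (hZb1 j ρ hj).2.2.1
      have a3 : U (i + 1) ≤ U j := hUm (by omega)
      rw [hUs] at a3
      linarith
    intro i _ j _ hij
    rcases lt_or_gt_of_ne hij with hij | hij
    · exact hlt i j hij
    · exact (hlt j i hij).symm
  refine ⟨(Finset.Ico n (2 * n)).biUnion Zb, ?_, ?_⟩
  · intro ρ hρ
    rw [Finset.mem_biUnion] at hρ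
    obtain ⟨j, hj, hρ⟩ := hρ
    rw [Finset.mem_Ico] at hj
    obtain ⟨a1, a2, a3, a4⟩ := hZb1 j ρ hρ
    refine ⟨a1, a2, by linarith [hU0 j], ?_⟩
    have a5 : U (j + 1) ≤ U (2 * n) := hUm (by omega)
    rw [hUs] at a5
    have a6 : U (2 * n) ≤ T / 2 := by
      have a7 : Real.log (2 * U (2 * n)) ≤ Real.log T := by
        simp only [hU]
        have e1 : 2 * (2 ^ (2 * n) * U₀) = 2 ^ (2 * n) * (2 * U₀) := by ring
        rw [e1, Real.log_mul (by positivity) (by positivity), Real.log_pow]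
        have h5 : Real.log 2 ≤ 3 / 4 := by
          have := Real.log_two_lt_d9
          linarith
        push_cast
        have h6 : (2 * (n : ℝ)) * Real.log 2 ≤ Real.log T * (3 / 4) := by
          apply mul_le_mul (by linarith) h5 (Real.log_nonneg (by norm_num)) (by linarith)
        linarith
      have a8 : 2 * U (2 * n) ≤ T := (Real.log_le_log_iff (by linarith [hU0 (2 * n)]) hT0).1 a7
      linarith
    linarith
  · rw [Finset.sum_biUnion hdisj]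
    have h5 : ∀ j ∈ Finset.Ico n (2 * n), c * (Real.log T / 16) ^ (1 / 4 : ℝ) ≤ ∑ ρ ∈ Zb j, 1 / ‖ρ * deriv riemannZeta ρ‖ := by
      intro j hj
      rw [Finset.mem_Ico] at hj
      refine le_trans ?_ (hZb2 j)
      apply mul_le_mul_of_nonneg_left _ hc.le
      apply Real.rpow_le_rpow (by linarith) _ (by norm_num)
      simp only [hU]
      rw [Real.log_mul (by positivity) (by linarith), Real.log_pow]
      have h6 : 1 / 4 ≤ Real.log 2 := by
        have := Real.log_two_gt_d9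
        linarith
      have h7 : (n : ℝ) ≤ j := by exact_mod_cast hj.1
      have h8 : 0 ≤ Real.log U₀ := Real.log_nonneg (by linarith)
      nlinarith
    have h6 := Finset.sum_le_sum h5
    rw [Finset.sum_const, Nat.card_Ico, nsmul_eq_mul] at h6
    refine le_trans ?_ h6
    have h7 : 2 * n - n = n := by omega
    rw [h7]
    have h8 : (Real.log T / 16) ^ (1 / 4 : ℝ) = Real.log T ^ (1 / 4 : ℝ) / 2 := by
      rw [Real.div_rpow (by linarith) (by norm_num)]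
      congr 1
      rw [show (16 : ℝ) = 2 ^ (4 : ℝ) by norm_num, ← Real.rpow_mul (by norm_num)]
      norm_num
    have h9 : Real.log T ^ (5 / 4 : ℝ) = Real.log T * Real.log T ^ (1 / 4 : ℝ) := by
      rw [show (5 / 4 : ℝ) = 1 + 1 / 4 by norm_num, Real.rpow_add (by linarith), Real.rpow_one]
    rw [h8, h9]
    have h10 : 0 ≤ Real.log T ^ (1 / 4 : ℝ) := Real.rpow_nonneg (by linarith) _
    have h11 : 0 ≤ c * (Real.log T ^ (1 / 4 : ℝ) / 2) := by positivity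
    calc c / 16 * (Real.log T * Real.log T ^ (1 / 4 : ℝ)) ≤ Real.log T / 4 * (c * (Real.log T ^ (1 / 4 : ℝ) / 2)) := by
          have : 0 ≤ Real.log T * Real.log T ^ (1 / 4 : ℝ) * c := by positivity
          linarith
      _ ≤ _ := mul_le_mul_of_nonneg_right hn2 h11

end

end Pool.Agent.Q97.UM.Rz
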