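import Pool.Agent.Q97.UM.Stm6

set_option autoImplicit false

/-!
Project UM5 (helper97): THE SIZE OF ZETA ON THE CRITICAL LINE RELATIVE TO EVERY DIRICHLET POLYNOMIAL.

THEOREM P. For every `m` there are `θ, δ > 0` and `C` such that for large `T`, all `N ≤ T^θ` and ALL `b_1, ..., b_N`, with
`B(t) = ∑ b_n n^{-1/2-it}`: `∫_T^{2T} | log|ζ(1/2+it)| - log|∏_{p ≤ T^δ} (1 - p^{-1/2-it})^{-1}| |^m |B|² ≤ C ∫_T^{2T} |B|²`.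

This file: the deterministic part. Notation: `L = log T`, `D = δ L`, `x = L (γ - t)`, `y = L |β - 1/2|` for a zero `β + iγ`.
Statements are `def S_xxx : Prop`, with complete proofs in the comments; `J_xxx` is the statement of a job.
-/

namespace Pool.Agent.Q97.UM

open Filter Topology MeasureTheory Complex
open Pool.Agent.W182.KO (P TF)
open scoped ContDiff

noncomputable section

/-- the nontrivial zeros with `T / 16 < γ ≤ 16 T` (a finite set, `H370.mem_Zf`, for `T ≥ 16`) -/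
def ZD (T : ℝ) : Finset ℂ := H370.Zf riemannZeta (T / 16) (16 * T)

/-- the smoothing kernel of `S_KER` (theorem `Pool.Agent.Q195.UM.t_KER`); `k₀(y) = k(iy)`, `k(z) = (1/2π) ∫ ψ₁(u) e^{uz} du` -/
structure Ker (ψ₁ k₀ : ℝ → ℝ) : Prop where
  smooth : ContDiff ℝ ∞ ψ₁
  supp : ∀ u, 1 ≤ |u| → ψ₁ u = 0
  one : ψ₁ 0 = 1
  bd : ∀ u, |ψ₁ u| ≤ 1
  cont : Continuous k₀
  nonneg : ∀ x, 0 ≤ k₀ x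
  rep : ∀ x : ℝ, (k₀ x : ℂ) = ((1 / (2 * Real.pi) : ℝ) : ℂ) * P (fun u => (ψ₁ u : ℂ)) (x * I)

/-- KB: facts about the kernel. PROOF. Evenness: `ψ₁` is real, so `P ψ₁ (conj z) = conj (P ψ₁ z)`, and `k₀` is real. Decay:
`Pool.Agent.W182.KO.P_bound`. Mass and derivative bound: `P_inv` (file W182/KO/PT.lean) with `σ = 0`, `lam = 0`; `ψ₁` is smooth with
compact support. Last part: `P_bound` (`TF 1 ψ₁`). -/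
def S_KB : Prop := ∀ ψ₁ k₀ : ℝ → ℝ, Ker ψ₁ k₀ → (∀ x, k₀ (-x) = k₀ x) ∧ Integrable k₀ ∧ (∫ x : ℝ, k₀ x = 1) ∧
  (∃ C : ℝ, 0 ≤ C ∧ ∀ u v : ℝ, |ψ₁ u - ψ₁ v| ≤ C * |u - v|) ∧
  (∀ m : ℕ, ∃ C : ℝ, 0 ≤ C ∧ (∀ x, k₀ x ≤ C / (1 + |x|) ^ m) ∧
    ∀ z : ℂ, 0 ≤ z.re → ‖P (fun u => (ψ₁ u : ℂ)) z‖ ≤ C * Real.exp z.re / (1 + ‖z‖) ^ m)

/-- LIT: Littlewood's lemma with a weight. PROOF. For all but finitely many `σ ∈ (a, b)` there is no zero with real part `σ` in the box, and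
`H370.rect_residue` (file H370R2/Rect.lean) on `[σ, b] × [c, d]` with `h(s) = κ(s - σ - it)` gives, with
`V(σ) = ∫_c^d (F'/F)(σ + iy) κ(i(y-t)) dy`, `Vb(σ) = ∫_c^d (F'/F)(b + iy) κ(b - σ + i(y-t)) dy` and the horizontal integrals `Hc, Hd`,
`V(σ) = Vb(σ) - 2π ∑_{Re s > σ} m κ(s - σ - it) - I (Hc(σ) - Hd(σ))`. Take real parts and integrate over `σ ∈ (a, b)`: by Fubini and
`∫_a^b Re (F'/F)(σ + iy) dσ = log|F(b + iy)| - log|F(a + iy)|` for all `y` which are not the height of a zero in the box (`κ(i(y-t))` is real).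
Fubini is justified by `F'/F = ∑ m/(s - ρ) + analytic` on the box (finitely many zeros) and `1/|σ + iy - ρ| ≤ |σ - β|^{-1/2} |y - γ|^{-1/2}`. -/
def S_LIT : Prop := ∀ (F κ : ℂ → ℂ) (a b c d t : ℝ) (Z : Finset ℂ), a < b → c < d →
  AnalyticOnNhd ℂ F (Set.Icc a b ×ℂ Set.Icc c d) → Differentiable ℂ κ → (∀ y : ℝ, (κ (y * I)).im = 0) →
  (∀ x ∈ Set.Icc a b, F ⟨x, c⟩ ≠ 0 ∧ F ⟨x, d⟩ ≠ 0) → (∀ y ∈ Set.Icc c d, F ⟨b, y⟩ ≠ 0) →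
  (∀ s : ℂ, s ∈ Z ↔ a < s.re ∧ s.re < b ∧ c < s.im ∧ s.im < d ∧ F s = 0) →
  IntervalIntegrable (fun y => (κ ((y - t : ℝ) * I)).re * Real.log ‖F ⟨a, y⟩‖) volume c d ∧
  (∫ y in c..d, (κ ((y - t : ℝ) * I)).re * Real.log ‖F ⟨a, y⟩‖) =
    (∫ y in c..d, (κ ((y - t : ℝ) * I)).re * Real.log ‖F ⟨b, y⟩‖) -
    (∫ σ in a..b, (∫ y in c..d, deriv F ⟨b, y⟩ / F ⟨b, y⟩ * κ (((b - σ : ℝ) : ℂ) + (y - t : ℝ) * I)).re) +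
    2 * Real.pi * (∑ s ∈ Z, (H370.mult F s : ℝ) * ∫ σ in a..s.re, (κ (s - (σ + t * I))).re) -
    (∫ σ in a..b, ((∫ x in σ..b, deriv F ⟨x, c⟩ / F ⟨x, c⟩ * κ (((x - σ : ℝ) : ℂ) + (c - t : ℝ) * I)) -
      (∫ x in σ..b, deriv F ⟨x, d⟩ / F ⟨x, d⟩ * κ (((x - σ : ℝ) : ℂ) + (d - t : ℝ) * I))).im)

/-- the smoothed prime sum: real part of `∑ Λ(n)/log n · ψ₁(log n / D) n^{-1/2-it}` (a finite sum) -/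
def PP (ψ₁ : ℝ → ℝ) (D t : ℝ) : ℝ := (∑ n ∈ Finset.Icc 2 ⌊Real.exp D⌋₊,
  ((ArithmeticFunction.vonMangoldt n / Real.log n * ψ₁ (Real.log n / D) : ℝ) : ℂ) * (n : ℂ) ^ (-(1 / 2 + t * I))).re

/-- the sum over the zeros: `∑ m e^{2δy} / (1 + |x|)²` -/
def SS (δ T t : ℝ) : ℝ := ∑ s ∈ ZD T, (mz s : ℝ) * (Real.exp (2 * δ * (Real.log T * |s.re - 1 / 2|)) /
  (1 + Real.log T * |s.im - t|) ^ 2)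

/-- the singular sum: `∑ m log⁺ (1 / (L |s - (1/2 + it)|))` -/
def SL (T t : ℝ) : ℝ := ∑ s ∈ ZD T, (mz s : ℝ) * max 0 (Real.log (1 / (Real.log T * ‖s - (1 / 2 + t * I)‖)))

/-- VAV: the vertical average. Job `J_VAV`. PROOF. S_LIT for `F = ζ`, `κ(z) = (D/2π) P ψ₁ (D z)` (entire: `W182.KO.P_diff`; on the
imaginary axis it is `D k₀(D y)`), `a = 1/2`, `b = 3/2`, `c = U1`, `d = U2` heights without zeros and with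
`|ζ'/ζ| ≤ C L²` for `-1/2 ≤ σ ≤ 3/2` (`H370.good_height`, `H370.good_zeta`; `U1 ∈ [t - T/8 - 1, t - T/8]`, `U2 ∈ [t + T/8, t + T/8 + 1]`). By
KB, `|κ(z)| ≤ C D e^{D Re z} / (1 + D|z|)^m` for `Re z ≥ 0`: horizontal integrals `≤ C L² · D T^δ (D T/8)^{-m}`, tiny. Zero terms:
`|∫_{1/2}^β Re κ(s - σ - it) dσ| ≤ C D (β - 1/2) e^{D(β - 1/2)} / (1 + D|γ - t|)²` and `v e^{v} ≤ e^{2v}` (`v = D(β - 1/2)`),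
`(1 + δx)^{-2} ≤ δ^{-2} (1 + x)^{-2}`; only zeros with `β > 1/2` and `U1 < γ < U2` occur, all in `ZD T`. Right edge: `ζ'/ζ = -∑ Λ(n) n^{-s}`,
`log ζ(3/2+iy) = ∑ Λ(n)/log n n^{-3/2-iy}` (absolutely convergent), and for `0 ≤ r ≤ 1`:
`∫_ℝ κ(r + iy) n^{-iy} dy = n^r ψ₁(log n / D)` (`W182.KO.P_inv`); extending `∫_{U1}^{U2}` to `ℝ` costs `O(1)`. So
`∫ κ log|ζ(3/2 + iy)| = Re ∑ Λ(n)/log n n^{-3/2-it} ψ₁(log n/D) + O(1)`, and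
`∫_{1/2}^{3/2} Re Vb(σ) dσ = -Re ∑ Λ(n) n^{-3/2-it} ψ₁(log n/D) ∫_{1/2}^{3/2} n^{3/2-σ} dσ + O(1)
= -Re ∑ Λ(n)/log n ψ₁(log n/D) (n^{-1/2-it} - n^{-3/2-it}) + O(1)`. -/
def S_VAV : Prop := ∀ ψ₁ k₀ : ℝ → ℝ, Ker ψ₁ k₀ → ∀ δ : ℝ, 0 < δ → δ ≤ 1 / 8 → ∃ C : ℝ, 0 ≤ C ∧ ∀ᶠ T : ℝ in atTop, ∀ t : ℝ,
  T / 4 ≤ t → t ≤ 8 * T → ∃ U1 U2 : ℝ, t - T / 8 - 1 ≤ U1 ∧ U1 ≤ t - T / 8 ∧ t + T / 8 ≤ U2 ∧ U2 ≤ t + T / 8 + 1 ∧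
    |(∫ u in U1..U2, δ * Real.log T * k₀ (δ * Real.log T * (u - t)) * Real.log ‖zt u‖) - PP ψ₁ (δ * Real.log T) t| ≤
      C * (1 + SS δ T t)

def J_VAV : Prop := S_KB → S_LIT → S_VAV

open Classical in
/-- LOC: local expansion of `log|ζ|`. PROOF. As `SP.LocAux.local_G` (file H382P/LocExp.lean; there with RH): `H370.Loc.extract`,
`SP.LocAux.extract_bound` on the discs with centre `2 + it` and radii `1.6 < 1.7 < 1.8 < 1.9` (`H370.Loc.ball_data`): `ζ(s) = ∏ (s - ρ) g(s)`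
over the zeros in the disc of radius `1.8`, `O(L)` many, `|g'/g| ≤ C L` in the disc of radius `1.6`. The points `1/2 + i(t+y)`, `|y| ≤ 1/8`, are in
that disc. `log|g(s)|` at `s₀ = 1/2 + it` is `O(L)` by integration of `g'/g` from `2 + it` (there `log|ζ|` and all `log|2 + it - ρ|` are `O(1)`).
(a), (b) follow, because the zeros in exactly one of the two sets (disc of radius `1.8`; `|γ - t| ≤ 1`, `0 < β < 1`) are `O(L)` many and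
have distance between `1/10` and `3` from all these points: if `β ≥ 2/5` and `|γ - t| ≤ 4/5` then `(2-β)² + (γ-t)² ≤ 3.2 < 1.8²`. (c): from (a), with
`∑_{|γ - v| ≤ 1} m |log |1/2 + iv - ρ|| ≤ ∑ m (|log |v - γ|| + 1)` and `∫_{|v - γ| ≤ 1} |log |v - γ|| dv = 2`; measurability: `zt` is continuous. -/
def S_LOC : Prop := ∃ C : ℝ, 0 ≤ C ∧ ∀ᶠ T : ℝ in atTop, ∀ t : ℝ, T / 8 ≤ t → t ≤ 9 * T →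
  (zt t ≠ 0 → |Real.log ‖zt t‖ - ∑ s ∈ (ZD T).filter (fun s => |s.im - t| ≤ 1), (mz s : ℝ) * Real.log ‖(1 / 2 + t * I : ℂ) - s‖| ≤
    C * Real.log T) ∧
  (∀ y : ℝ, |y| ≤ 1 / 8 → zt t ≠ 0 → zt (t + y) ≠ 0 → |(Real.log ‖zt (t + y)‖ - Real.log ‖zt t‖) -
    ∑ s ∈ (ZD T).filter (fun s => |s.im - t| ≤ 1), (mz s : ℝ) *
      (Real.log ‖(1 / 2 + (t + y : ℝ) * I : ℂ) - s‖ - Real.log ‖(1 / 2 + t * I : ℂ) - s‖)| ≤ C * Real.log T * |y|) ∧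
  IntervalIntegrable (fun v => Real.log ‖zt v‖) volume t (t + 1) ∧ ∫ v in t..(t + 1), |Real.log ‖zt v‖| ≤ C * Real.log T ∧
  (∑ s ∈ (ZD T).filter (fun s => |s.im - t| ≤ 1), (mz s : ℝ)) ≤ C * Real.log T

/-- the smoothed difference of logarithms -/
def GK (k₀ : ℝ → ℝ) (D u v : ℝ) : ℝ :=
  ∫ y : ℝ, D * k₀ (D * y) * (Real.log (u ^ 2 + v ^ 2) / 2 - Real.log ((u + y) ^ 2 + v ^ 2) / 2)

/-- KLG: the contribution of one zero. Job `J_KLG`. PROOF. Substitute `z = D y`, `U = D u`, `V = D v`: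
`G = ∫ k₀(z) (g(0) - g(z)) dz`, `g(z) = ½ log((U+z)² + V²)`. `|U| ≥ 1`: `G = ½ ∫ k₀(z) (2g(0) - g(z) - g(-z)) dz`; for `|z| ≤ |U|/2`,
`|g''| = |Re (U+z+iV)^{-2}| ≤ 4/U²`, so the integrand is `≤ 4 z²/U² k₀(z)`; for `|z| > |U|/2`, `|g(0) - g(z)| ≤ |log(|U|/|U+z|)|` (adding `V²` to
both brings the quotient closer to 1) and `k₀(z) ≤ C (1+|z|)^{-8}`. `|U| < 1`: if `U² + V² ≥ 1` then `|g(0) - g(z)| ≤ C + log(1+|z|) + |log|U+z||`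
(separately for `|V| ≥ 1` and `|V| < 1`), if `U² + V² < 1` then `g(0) = -log⁺(1/√(U²+V²)) ≤ 0` and
`|g(z)| ≤ |log|U+z|| + log(2+|z|)`. Last part: `V = 0`, `G = log|U| - ∫ k₀(z) log|U+z| dz`. -/
def S_KLG : Prop := ∀ ψ₁ k₀ : ℝ → ℝ, Ker ψ₁ k₀ → ∃ C : ℝ, 0 ≤ C ∧ ∀ D u v : ℝ, 1 ≤ D → (u ≠ 0 ∨ v ≠ 0) →
  Integrable (fun y : ℝ => D * k₀ (D * y) * (Real.log (u ^ 2 + v ^ 2) / 2 - Real.log ((u + y) ^ 2 + v ^ 2) / 2)) ∧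
  GK k₀ D u v ≤ C / (1 + D * |u|) ^ 2 ∧
  -(C / (1 + D * |u|) ^ 2) - max 0 (Real.log (1 / (D * Real.sqrt (u ^ 2 + v ^ 2)))) ≤ GK k₀ D u v ∧
  (v = 0 → D * |u| ≤ 1 → |GK k₀ D u v - Real.log (D * |u|)| ≤ C)

def J_KLG : Prop := S_KB → S_KLG

open Classical in
/-- DETQ: the deterministic formula. Job `J_DETQ`. PROOF. `κ(y) = D k₀(D y)`, `∫ κ = 1`, `s₀ = 1/2 + it`. By VAV, `PP = ∫_{U1}^{U2} κ(u - t) log|ζ(1/2+iu)| du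
+ O(1 + SS)`. Then `log|ζ(s₀)| - ∫_{U1 - t}^{U2 - t} κ(y) log|ζ(s₀+iy)| dy = ∫_{|y| ≤ 1/8} κ(y) (log|ζ(s₀)| - log|ζ(s₀+iy)|) dy
+ τ log|ζ(s₀)| - ∫_{|y| > 1/8} κ(y) log|ζ(s₀+iy)| dy`, `τ = ∫_{|y| > 1/8} κ ≤ C L^{-5}`. By LOC (b) the first term is
`∑_{|γ-t| ≤ 1} m ∫_{|y| ≤ 1/8} κ(y) (log|s₀-ρ| - log|s₀+iy-ρ|) dy + O(L ∫ κ |y|)`, `L ∫ κ |y| dy = O(1/δ)`; extend the integrals over `y` to `ℝ`: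
this adds `∑ m (τ log|s₀-ρ| - ∫_{|y|>1/8} κ log|s₀+iy-ρ|)`; by LOC (a) `τ log|ζ(s₀)| = τ ∑ m log|s₀-ρ| + O(τL)`, and
`∑_{|γ-t| ≤ 1} m ∫_{|y| > 1/8} κ |log|s₀+iy-ρ|| ≤ C L · L^{-4}` (`κ(y) ≤ C D (1+D|y|)^{-8}`, `|log|s₀+iy-ρ|| ≤ |log|t-γ+y|| + log(2+|y|)`). The last
term is `≤ ∑_j C L sup κ ≤ C` by LOC (c) (unit intervals, `U1, U2` are within `[T/8 - 2, 9T]`). -/
def S_DETQ : Prop := ∀ ψ₁ k₀ : ℝ → ℝ, Ker ψ₁ k₀ → ∀ δ : ℝ, 0 < δ → δ ≤ 1 / 8 → ∃ C : ℝ, 0 ≤ C ∧ ∀ᶠ T : ℝ in atTop, ∀ t : ℝ,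
  T / 3 ≤ t → t ≤ 7 * T → zt t ≠ 0 → |Real.log ‖zt t‖ - PP ψ₁ (δ * Real.log T) t -
    ∑ s ∈ (ZD T).filter (fun s => |s.im - t| ≤ 1), (mz s : ℝ) * GK k₀ (δ * Real.log T) (t - s.im) (1 / 2 - s.re)| ≤
      C * (1 + SS δ T t)

def J_DETQ : Prop := S_KB → S_VAV → S_LOC → S_KLG → S_DETQ

/-- DETP: pointwise bounds. Job `J_DETP`. PROOF. Insert KLG into DETQ: `|s₀ - ρ|² = (t-γ)² + (1/2-β)²`, `(1 + δx)^{-2} ≤ δ^{-2} (1+x)^{-2}`,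
`log⁺(1/(δ L r)) ≤ log⁺(1/(L r)) + log(1/δ)`, and the extra `log(1/δ)` occurs only for `δ L r ≤ 1`, where `(1 + |x|)^{-2} ≥ (1 + 1/δ)^{-2}`. -/
def S_DETP : Prop := ∀ ψ₁ k₀ : ℝ → ℝ, Ker ψ₁ k₀ → ∀ δ : ℝ, 0 < δ → δ ≤ 1 / 8 → ∃ C : ℝ, 0 ≤ C ∧ ∀ᶠ T : ℝ in atTop, ∀ t : ℝ,
  T / 3 ≤ t → t ≤ 7 * T → zt t ≠ 0 →
    Real.log ‖zt t‖ ≤ PP ψ₁ (δ * Real.log T) t + C * (1 + SS δ T t) ∧
    PP ψ₁ (δ * Real.log T) t - C * (1 + SS δ T t) - SL T t ≤ Real.log ‖zt t‖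

def J_DETP : Prop := S_KB → S_KLG → S_DETQ → S_DETP

/-- DETD: the derivative at a simple zero on the line. Job `J_DETD`. PROOF. DETQ for `t → γ₀`, `t ≠ γ₀` (`ζ(1/2+it) ≠ 0` near `γ₀`):
`log|ζ(1/2+it)| - log|t - γ₀| → log|ζ'(ρ₀)|`; `|GK(t - γ₀, 0) - log(δL|t - γ₀|)| ≤ C` by KLG; the other zeros by KLG as in DETP; the right hand
sides `SS`, `PP` and `∑_{s ≠ ρ₀} m log⁺(1/(L|s - (1/2+it)|))` are continuous in `t` at `γ₀`. -/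
def S_DETD : Prop := ∀ ψ₁ k₀ : ℝ → ℝ, Ker ψ₁ k₀ → ∀ δ : ℝ, 0 < δ → δ ≤ 1 / 8 → ∃ C : ℝ, 0 ≤ C ∧ ∀ᶠ T : ℝ in atTop, ∀ ρ ∈ ZD T,
  T / 2 ≤ ρ.im → ρ.im ≤ 6 * T → ρ.re = 1 / 2 → mz ρ = 1 →
    Real.log ‖deriv riemannZeta ρ‖ ≤ Real.log (Real.log T) + PP ψ₁ (δ * Real.log T) ρ.im + C * (1 + SS δ T ρ.im) ∧
    Real.log (Real.log T) + PP ψ₁ (δ * Real.log T) ρ.im - C * (1 + SS δ T ρ.im) -
      ∑ s ∈ (ZD T).erase ρ, (mz s : ℝ) * max 0 (Real.log (1 / (Real.log T * ‖s - ρ‖))) ≤ Real.log ‖deriv riemannZeta ρ‖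

def J_DETD : Prop := S_KB → S_KLG → S_DETQ → S_DETD

/-! ### relative statistics of the zeros -/

/-- STM: all moments of `SS` relative to `|B|²`. Job `J_STM`. PROOF. Cut into cells: `SS(t) ≤ C ∑_{X ∈ ℤ, |X| ≤ 16 T L} (1+|X|)^{-2} U(t + X/L)`,
`U(s) = ∑_{ρ ∈ ZD T, |γ - s| ≤ 1/(2L)} m e^{2δy}`. Jensen (convexity of `x^m`, weights `(1+|X|)^{-2}`): `SS^m ≤ C_m ∑_X (1+|X|)^{-2} U(t+X/L)^m`.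
For each `X` substitute `s = t + X/L`: `dp N b (s - X/L)` is a Dirichlet polynomial in `s` with the same `N2` (S_DPM), and `U(s) = 0` unless
`T/17 ≤ s ≤ 17 T`: cover this range by `[T', 2T']`, `T' = T/32 · 2^j`, `j ≤ 9`. With `L' = log T'` (`L/2 ≤ L' ≤ 2L`): `1/(2L) ≤ 1/L'`,
`y ≤ 2 y'`, so `U(s) ≤ nz s (1/L') e^{4δY}`, `Y = L' max |β - 1/2|` over `Zw s (1/L')`, and
`∫ nz^m e^{4δmY} |B'|² ≤ ∫ (nz^{2m} + e^{8δmY}) |B'|² ≤ C T' N2` by `TailB θ c C` at `T'` (`N ≤ T^{θ/2} ≤ T'^θ`): layer cake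
`nz^{2m} ≤ ∑_{K ≥ 1} 2m K^{2m-1} [nz ≥ K]`, `e^{8δmY} ≤ 1 + ∑_{A ∈ ℕ} e^{8δm(A+1)} [Y ≥ A]`, `8δm < c`. (Technique: `Q210/UM/Wnd.lean`,
`Q222/UM/ED.lean`, `Q153/UM/ED2.lean`.) -/
def S_STM : Prop := ∀ θ c C : ℝ, 0 < θ → θ ≤ 1 / 4 → 0 < c → 0 ≤ C → TailB θ c C → ∀ (m : ℕ) (δ : ℝ), 0 < δ → 16 * δ * (m + 1) ≤ c →
  ∃ C' : ℝ, 0 ≤ C' ∧ ∀ᶠ T : ℝ in atTop, ∀ N : ℕ, (N : ℝ) ≤ T ^ (θ / 2) → ∀ b : ℕ → ℂ,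
    ∫ t in (T / 4)..(8 * T), SS δ T t ^ m * ‖dp N b t‖ ^ 2 ≤ C' * T * N2 N b

def J_STM : Prop := S_DPM → S_MVL → S_ZF2 → S_STM

/-- the conclusion of STM for given constants -/
def SSB (θ δ : ℝ) (m : ℕ) (C : ℝ) : Prop := ∀ᶠ T : ℝ in atTop, ∀ N : ℕ, (N : ℝ) ≤ T ^ θ → ∀ b : ℕ → ℂ,
    ∫ t in (T / 4)..(8 * T), SS δ T t ^ m * ‖dp N b t‖ ^ 2 ≤ C * T * N2 N b

/-- SNG: all moments of the singular sum. Job `J_SNG`. PROOF. `log⁺(1/(L|s - s₀|)) ≤ ℓ(x) = log⁺(1/|x|)`, `x = L(γ - t)`, zero for `|x| ≥ 1`, so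
`SL^m ≤ n(t)^{m-1} ∑_{|x| ≤ 1} m_ρ ℓ(x)^m`, `n(t) = ∑_{|γ-t| ≤ 1/L} m_ρ` (all in `ZD T`). For `|t - γ| ≤ 1/L`, `n(t) ≤ 16 SS(v)` for every `v` with
`|v - γ| ≤ 1/L`, and `|B(t)|² ≤ (L/2) ∫_{|v-γ| ≤ 1/L} |B|² + 2 ∫_{|v-γ| ≤ 1/L} |B B'|`; so the integral over `t ∈ [T/2, 4T]` is at most
`∑_ρ m_ρ (2 m!/L) ∫_{|v-γ| ≤ 1/L} (16 SS(v))^{m-1} (L/2 |B|² + 2|B B'|) dv ≤ C ∫ SS(v)^m (|B|² + |B B'|/L) dv`, with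
`|B'| = |dp N b'|`, `b'_n = b_n log n`, `N2 N b' ≤ L² N2 N b`; `|B B'|/L ≤ |B|² + |B'|²/L²`. -/
def S_SNG : Prop := ∀ (θ δ : ℝ) (m : ℕ) (C : ℝ), 0 < θ → θ ≤ 1 / 4 → 0 < δ → 1 ≤ m → 0 ≤ C → SSB θ δ m C → ∃ C' : ℝ, 0 ≤ C' ∧
  ∀ᶠ T : ℝ in atTop, ∀ N : ℕ, (N : ℝ) ≤ T ^ θ → ∀ b : ℕ → ℂ,
    IntervalIntegrable (fun t => SL T t ^ m * ‖dp N b t‖ ^ 2) volume (T / 2) (4 * T) ∧
    ∫ t in (T / 2)..(4 * T), SL T t ^ m * ‖dp N b t‖ ^ 2 ≤ C' * T * N2 N b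

def J_SNG : Prop := S_DPM → S_MVL → S_SNG

/-- DSC: the moments of `SS` at the zeros. Job `J_DSC`. PROOF. As in SNG: for `|v - γ| ≤ 1/L`, `SS(γ) ≤ 4 SS(v)`,
`|B(γ)|² ≤ (L/2) ∫_{|v-γ| ≤ 1/L} |B|² + 2 ∫ |B B'|`, and `∑_{|γ-v| ≤ 1/L} m ≤ 4 SS(v)`. -/
def S_DSC : Prop := ∀ (θ δ : ℝ) (m : ℕ) (C : ℝ), 0 < θ → θ ≤ 1 / 4 → 0 < δ → 0 ≤ C → SSB θ δ (m + 1) C → ∃ C' : ℝ, 0 ≤ C' ∧
  ∀ᶠ T : ℝ in atTop, ∀ N : ℕ, (N : ℝ) ≤ T ^ θ → ∀ b : ℕ → ℂ,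
    ∑ s ∈ H370.Zf riemannZeta T (2 * T), (mz s : ℝ) * (SS δ T s.im ^ m * ‖dp N b s.im‖ ^ 2) ≤ C' * Real.log T * (T * N2 N b)

def J_DSC : Prop := S_DPM → S_MVL → S_DSC

/-! ### prime sums -/

/-- PRM: convolution with a short prime sum, for ALL sequences. PROOF. `g_p = log p / log X`. `|(α * c)_k|² ≤ (∑_{p | k} g_p) (∑_{p | k}
|α_p|² |c_{k/p}|² / g_p)`, `∑_{p | k} log p ≤ log k ≤ log (X M)`; sum over `k`: `∑_p |α_p|² / (p g_p) · N2 M c ≤ A² ∑_{p ≤ X} log p / (p log X) N2 M c`,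
and `∑_{p ≤ X} (log p)/p ≤ C log X` (Mertens, in the libraries, e.g. S_MER or the files behind `Q178.UM.PR`). -/
def S_PRM : Prop := ∃ C₀ : ℝ, 1 ≤ C₀ ∧ ∀ (X M : ℕ) (A : ℝ) (α c : ℕ → ℂ), 2 ≤ X → 1 ≤ M → 0 ≤ A →
  (∀ n, α n ≠ 0 → n.Prime ∧ n ≤ X) → (∀ n, ‖α n‖ ≤ A * (Real.log n / Real.log X)) → (∀ n, M < n → c n = 0) →
  N2 (X * M) (cv α c) ≤ C₀ * A ^ 2 * (1 + Real.log M / Real.log X) * N2 M c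

/-- the logarithm of the absolute value of the Euler product over the primes `≤ X`, at `1/2 + it` -/
def EP (X : ℕ) (t : ℝ) : ℝ := -∑ p ∈ (Finset.Icc 1 X).filter Nat.Prime, Real.log ‖1 - (p : ℂ) ^ (-(1 / 2 + t * I))‖

open Classical in
/-- EUL: the smoothed sum and the Euler product. PROOF. `-log|1-z| = Re ∑ z^k/k`. Primes: `1 - ψ₁(log p/D)`. Squares `p² ≤ e^D`:
`½ |1 - ψ₁(2 log p / D)| / p ≤ C (log p)/(D p)`, sum `O(1)` by Mertens; squares `p ≤ e^D < p²`: `∑_{e^{D/2} < p ≤ e^D} 1/p = O(1)`; cubes and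
higher powers: `∑ p^{-3/2} = O(1)`. -/
def S_EUL : Prop := ∀ ψ₁ k₀ : ℝ → ℝ, Ker ψ₁ k₀ → ∃ C : ℝ, 0 ≤ C ∧ ∀ D t : ℝ, 2 ≤ D →
  |EP ⌊Real.exp D⌋₊ t - PP ψ₁ D t - (dp ⌊Real.exp D⌋₊ (fun n => if n.Prime then ((1 - ψ₁ (Real.log n / D) : ℝ) : ℂ) else 0) t).re| ≤ C

def J_EUL : Prop := S_KB → S_EUL

/-- PMM: relative moments of short prime sums. Job `J_PMM`. PROOF. `(dp X α)^m dp N b = dp (X^m N) (α * ... * α * b)` (S_DPM), S_MVL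
(at `T/2`, `T`, `2T`; `X^m N ≤ (T/2)^{1/4}`) and `m` times S_PRM with `M = X^j N`, `1 + log M / log X ≤ 1 + j + θ/δ'` if `log X ≥ δ' L`. First restrict `b` to `[1, N]`. -/
def S_PMM : Prop := ∀ (m : ℕ) (A δ δ' : ℝ), 0 ≤ A → 0 < δ' → δ' ≤ δ → (m + 1) * δ ≤ 1 / 16 → ∃ C : ℝ, 0 ≤ C ∧ ∀ᶠ T : ℝ in atTop,
  ∀ (N X : ℕ), (N : ℝ) ≤ T ^ (1 / 16 : ℝ) → T ^ δ' ≤ X → (X : ℝ) ≤ T ^ δ → ∀ b α : ℕ → ℂ, (∀ n, α n ≠ 0 → n.Prime ∧ n ≤ X) →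
    (∀ n, ‖α n‖ ≤ A * (Real.log n / Real.log X)) →
    ∫ t in (T / 2)..(4 * T), ‖dp X α t‖ ^ (2 * m) * ‖dp N b t‖ ^ 2 ≤ C * T * N2 N b

def J_PMM : Prop := S_DPM → S_MVL → S_PRM → S_PMM

/-- THP: Theorem P. Job `J_THP`. PROOF. `m ≥ 1`; take `TailB θ₀ c C` (theorem `b_TAIL` in Q97/UM/Base2.lean), `θ = min (θ₀/2) (1/16)`,
`δ₀ = min (c/(16(2m+1))) (1/(16(m+1)))` and smaller than `1/8`, `δ ≤ δ₀`, `X = ⌊T^δ⌋ = ⌊e^{δL}⌋`. For almost all `t` (`zt t ≠ 0`) by DETP and EUL: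
`|log|ζ| - EP| ≤ C (1 + SS) + SL + C + |dp X α|`, `α` as in EUL: `|1 - ψ₁(u)| ≤ C |u|` by KB. Raise to the power `m`
(`(a+b+c+d)^m ≤ 4^{m-1} (...)`) and use STM, SNG, `|dp X α|^m ≤ 1 + |dp X α|^{2m}`, PMM, S_MVL. The kernel exists by S_KER. -/
def S_THP : Prop := ∀ m : ℕ, ∃ θ δ₀ : ℝ, 0 < θ ∧ 0 < δ₀ ∧ ∀ δ : ℝ, 0 < δ → δ ≤ δ₀ → ∃ C : ℝ, 0 ≤ C ∧ ∀ᶠ T : ℝ in atTop,
  ∀ N : ℕ, (N : ℝ) ≤ T ^ θ → ∀ b : ℕ → ℂ,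
    IntervalIntegrable (fun t => |Real.log ‖zt t‖ - EP ⌊T ^ δ⌋₊ t| ^ m * ‖dp N b t‖ ^ 2) volume (T / 2) (4 * T) ∧
    ∫ t in (T / 2)..(4 * T), |Real.log ‖zt t‖ - EP ⌊T ^ δ⌋₊ t| ^ m * ‖dp N b t‖ ^ 2 ≤ C * T * N2 N b

def J_THP : Prop := S_KB → S_DETP → S_STM → S_SNG → S_EUL → S_PMM → S_MVL →
  (∃ ψ₁ k₀ : ℝ → ℝ, Ker ψ₁ k₀) → (∃ θ c C : ℝ, 0 < θ ∧ θ ≤ 1 / 4 ∧ 0 < c ∧ 0 ≤ C ∧ TailB θ c C) → S_THP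

end

end Pool.Agent.Q97.UM
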