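import Pool.Agent.Q97.UM.Stm12

set_option autoImplicit false

/-!
Project UM8 (helper97): THE EXACT ORDER OF SMALL MOMENTS RELATIVE TO EVERY DIRICHLET POLYNOMIAL.

THEOREM. Let `k_1, ..., k_n ≥ 0`, `∑ k_j ≤ 1`. There is ONE Dirichlet polynomial `E` of length `T^{1/8}` (depending on the `k_j`, on real shifts
`|α_j| ≤ T/2` and on `T`) such that for ALL Dirichlet polynomials `B` of length `T^θ`: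
`c ∫_T^{2T} |E B|² ≤ ∫_T^{2T} ∏ |ζ(1/2 + i(t+α_j))|^{2k_j} |B|² ≤ C ∫_T^{2T} |E B|²`.

Method: Heap-Radziwill-Soundararajan in blocks, but relative to an arbitrary `B`; all comparisons of mean squares of Dirichlet polynomials are
made by mean values over `[V, 2V]`, `V → ∞` (`MB`), where there is no restriction on the length. Notation: `D = δ log T`; blocks of primes `PB D j`, coefficients
`qb D a a2 j`, truncated exponentials `te` from Stm12. Statements are `def S_xxx : Prop`, with complete proofs in the comments; `J_xxx` is the statement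
of a job. Coefficients in `[1, M]` only.
-/

namespace Pool.Agent.Q97.UM

open Filter Topology MeasureTheory Complex

noncomputable section

/-- upper bound for a mean value; it is only used for continuous `F` -/
def MB (F : ℝ → ℝ) (C : ℝ) : Prop := ∀ᶠ V : ℝ in atTop, ∫ t in V..(2 * V), F t ≤ C * V

/-- truncated exponential -/
def TEx (R : ℕ) (z : ℂ) : ℂ := ∑ r ∈ Finset.range (R + 1), z ^ r / (r.factorial : ℂ)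

/-- degree of the truncation in block `j` -/
def R9 (κ : ℝ) (j : ℕ) : ℕ := ⌈κ * Real.exp (9 / 10 * (j : ℝ))⌉₊

/-- exponent of the penalty in block `j` -/
def s7 (j : ℕ) : ℕ := ⌈Real.exp (7 / 10 * (j : ℝ))⌉₊

/-- the sum over block `j` -/
def zf (D : ℝ) (a a2 : ℕ → ℂ) (j : ℕ) (t : ℝ) : ℂ := dp (⌊XB D j⌋₊ ^ 2) (qb D a a2 j) t

/-- product of the truncated exponentials of the blocks `j₀, ..., JB D - 1` -/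
def Ef (D κ : ℝ) (a a2 : ℕ → ℂ) (j₀ : ℕ) (t : ℝ) : ℂ := ∏ l ∈ Finset.Ico j₀ (JB D), TEx (R9 κ l) (zf D a a2 l t)

/-- its coefficients: `ebk D κ a a2 j₀ k` are the coefficients of the product over the blocks `j₀, ..., j₀ + k - 1` -/
def ebk (D κ : ℝ) (a a2 : ℕ → ℂ) (j₀ : ℕ) : ℕ → (ℕ → ℂ)
  | 0 => fun n => if n = 1 then 1 else 0
  | (k + 1) => cv (te (qb D a a2 (j₀ + k)) (R9 κ (j₀ + k))) (ebk D κ a a2 j₀ k)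

/-- their length -/
def M9 (D κ : ℝ) : ℕ := ⌊Real.exp (26 * κ * D)⌋₊

/-- the penalty: `1` for `q = 0`, `(20 z_j / R_j)^{s_j}` for `q = j + 1` -/
def pw (D κ : ℝ) (a a2 : ℕ → ℂ) : ℕ → ℝ → ℂ
  | 0 => fun _ => 1
  | (j + 1) => fun t => (20 * zf D a a2 j t / (R9 κ j : ℂ)) ^ s7 j

/-- linear combination of coefficient functions -/
def lc {m : ℕ} (k : Fin m → ℝ) (a : Fin m → ℕ → ℂ) (n : ℕ) : ℂ := ∑ i, (k i : ℂ) * a i n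

/-- admissible families -/
structure FamD {m : ℕ} (k : Fin m → ℝ) (a a2 : Fin m → ℕ → ℂ) : Prop where
  nn : ∀ i, 0 ≤ k i
  sm : ∑ i, k i ≤ 1
  b1 : ∀ i n, ‖a i n‖ ≤ 1
  b2 : ∀ i n, ‖a2 i n‖ ≤ 1

/-! ### deterministic inequalities -/

/-- TEX. PROOF. Second part: `‖z‖ ≤ R/10`, the tail `∑_{r > R} |z|^r/r! ≤ ∑_{r > R} (e/10)^r ≤ 0.38 (0.272)^R`, and `‖e^z‖ ≥ e^{-R/10}`. (As in `S_TE`.) -/
def S_TEX : Prop := ∀ (R : ℕ) (z : ℂ), 1 ≤ R → ‖TEx R z‖ ≤ Real.exp ‖z‖ ∧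
  (‖z‖ ≤ R / 10 → ‖TEx R z - cexp z‖ ≤ Real.exp (-(R : ℝ) / 2) * ‖cexp z‖)

/-- PT1: pointwise inequality on the side of the mean values. Prove `S_TEX → S_PT1`. PROOF. Write `Q_l = ∑ k_i z_i l`, `R_l = R9 κ l ≥ 4 e^{9l/10}`. Call `l` good if
`‖z i l‖ ≤ R_l/20` for all `i`; then `|Q_l| ≤ R_l/20`, `|Q_l - z_{i₀,l}| ≤ R_l/10` and by TEX `|e^{z_{i₀,l}} TEx(Q_l - z_{i₀,l})| ≤ (1 + e^{-R_l/2})/(1 - e^{-R_l/2}) |TEx(Q_l)|`; the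
product of these constants over all `l` is finite. If all `l ∈ [j', J)` are good the first term on the right suffices (`|e^{z}|² ≤ e^{2|z|}` for `l < j'`). Otherwise
let `j` be the largest `l ∈ [j', J)` which is not good: the last factor of the `j`-th term is `≥ 1`, the blocks `l > j` are good, and for `l ≤ j`
`|e^{z_{i₀,l}}|² |TEx(Q_l - z_{i₀,l})|² ≤ e^{2|z_{i₀,l}| + 2|Q_l| + 2|z_{i₀,l}|} ≤ e^{6 ∑_i |z_{i,l}|}`. -/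
def S_PT1 : Prop := ∀ (m : ℕ) (κ : ℝ), 4 ≤ κ → ∃ C : ℝ, 1 ≤ C ∧ ∀ (J : ℕ) (k : Fin m → ℝ) (z : Fin m → ℕ → ℂ), (∀ i, 0 ≤ k i) →
  ∑ i, k i ≤ 1 → ∀ (i₀ : Fin m) (j' : ℕ), j' ≤ J →
    ‖cexp (∑ l ∈ Finset.range J, z i₀ l)‖ ^ 2 * ‖∏ l ∈ Finset.Ico j' J, TEx (R9 κ l) ((∑ i, (k i : ℂ) * z i l) - z i₀ l)‖ ^ 2 ≤
      C * (‖∏ l ∈ Finset.Ico j' J, TEx (R9 κ l) (∑ i, (k i : ℂ) * z i l)‖ ^ 2 *
          Real.exp (6 * ∑ i, ∑ l ∈ Finset.range j', ‖z i l‖) +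
        ∑ j ∈ Finset.Ico j' J, ‖∏ l ∈ Finset.Ico (j + 1) J, TEx (R9 κ l) (∑ i, (k i : ℂ) * z i l)‖ ^ 2 *
          Real.exp (6 * ∑ i, ∑ l ∈ Finset.range (j + 1), ‖z i l‖) * ∑ i, (20 * ‖z i j‖ / R9 κ j) ^ (2 * s7 j))

/-- PT2: pointwise inequality on the side of zeta. Prove `S_TEX → S_PT2`. PROOF. Good `l` as in PT1; `j` the largest `l < J` which is not good (if any),
`j = -1` if all are good. Put `F_i = ∏_{l > j} |TEx(Q_l - z_{i,l})|`, `F_0 = ∏_{l > j} |TEx(Q_l)|`. By TEX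
`∏_i F_i^{2k_i} F_0^{2(1-∑k)} ≥ c ∏_{l > j} ∏_i |e^{Q_l - z_{i,l}}|^{2k_i} |e^{Q_l}|^{2(1-∑k)} = c`, because `Q_l = ∑ k_i z_{i,l}`. So
`∏ ζ_i^{2k_i} ≤ (1/c) ∏ (ζ_i F_i)^{2k_i} F_0^{2(1-∑k)} ≤ (1/c) (∑ k_i (ζ_i F_i)² + (1-∑k) F_0²)` (weighted arithmetic-geometric mean), and for `j ≥ 0` the factor
`∑_{i'} (20 |z_{i',j}|/R_j)^{2 s_j}` is `≥ 1`. -/
def S_PT2 : Prop := ∀ (m : ℕ) (κ : ℝ), 4 ≤ κ → ∃ C : ℝ, 1 ≤ C ∧ ∀ (J : ℕ) (k : Fin m → ℝ) (z : Fin m → ℕ → ℂ) (ζ : Fin m → ℝ), (∀ i, 0 ≤ k i) →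
  ∑ i, k i ≤ 1 → (∀ i, 0 ≤ ζ i) →
    ∏ i, ζ i ^ (2 * k i) ≤
      C * (‖∏ l ∈ Finset.range J, TEx (R9 κ l) (∑ i, (k i : ℂ) * z i l)‖ ^ 2 +
        ∑ i', ζ i' ^ 2 * ‖∏ l ∈ Finset.range J, TEx (R9 κ l) ((∑ i, (k i : ℂ) * z i l) - z i' l)‖ ^ 2 +
        ∑ j ∈ Finset.range J, (‖∏ l ∈ Finset.Ico (j + 1) J, TEx (R9 κ l) (∑ i, (k i : ℂ) * z i l)‖ ^ 2 +
          ∑ i', ζ i' ^ 2 * ‖∏ l ∈ Finset.Ico (j + 1) J, TEx (R9 κ l) ((∑ i, (k i : ℂ) * z i l) - z i' l)‖ ^ 2) *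
          ∑ i, (20 * ‖z i j‖ / R9 κ j) ^ (2 * s7 j))

/-! ### Dirichlet polynomials -/

/-- COF: coefficients and lengths. Prove `S_DPM → S_COF`. PROOF. `dp` of `te q R` is the truncated exponential of `dp q` (see `Pool.Agent.Q14.UM.dp_te`, file
Q14/UM/EK.lean, for the older truncation). Length of block `l`: `(XB_l²)^{R_l}`, `∑_l 2D e^{-l} (κ e^{9l/10} + 1) ≤ 21.1 κ D + 3.2 D ≤ 26 κ D`; `pw`: `(XB_j²)^{s_j}`,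
`2D e^{-j} (e^{7j/10} + 1) ≤ 4D`. All primes of the blocks are `≤ e^D`; `b` has support in `[1, N]`, `N ≤ e^D`. The empty range `j₀ ≥ JB D` gives `1`. -/
def S_COF : Prop := ∀ (κ D : ℝ), 1 ≤ κ → 1 ≤ D → ∀ (a a2 a' a2' : ℕ → ℂ) (j₀ q : ℕ),
  (∀ n, ebk D κ a a2 j₀ (JB D - j₀) n ≠ 0 → 1 ≤ n ∧ n ≤ M9 D κ) ∧
  (∀ t, dp (M9 D κ) (ebk D κ a a2 j₀ (JB D - j₀)) t = Ef D κ a a2 j₀ t) ∧
  ∀ (N : ℕ) (b : ℕ → ℂ), 1 ≤ N → Real.log N ≤ D → (∀ n, b n ≠ 0 → 1 ≤ n ∧ n ≤ N) → ∃ (M : ℕ) (c : ℕ → ℂ), 1 ≤ M ∧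
    Real.log M ≤ (26 * κ + 4) * D + Real.log N ∧ (∀ n, c n ≠ 0 → 1 ≤ n ∧ n ≤ M ∧ n ∈ Nat.smoothNumbers (⌊Real.exp D⌋₊ + 1)) ∧
    ∀ t, dp M c t = Ef D κ a a2 j₀ t * pw D κ a' a2' q t * dp N b t

/-- PMT: relative moments of a block, without any restriction on the length. Job `J_PMT`. PROOF. `r` times S_QM with `K = ⌊XB D j⌋₊ ^ 2`, `log K ≤ 2 D e^{-j}`: the `s`-th step costs the factor
`C A² (e^j log M / D + 2s)` (if `K = 1` the block is empty and `zf = 0`); then S_MVL for the product `dp (K^r M) (...)`, for `V ≥ (K^r M)^4`. -/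
def S_PMT : Prop := ∃ C : ℝ, 1 ≤ C ∧ ∀ (A D : ℝ), 1 ≤ A → 1 ≤ D → ∀ a a2 : ℕ → ℂ, (∀ n, ‖a n‖ ≤ A) → (∀ n, ‖a2 n‖ ≤ A) →
  ∀ (M : ℕ) (c : ℕ → ℂ), 1 ≤ M → (∀ n, c n ≠ 0 → 1 ≤ n ∧ n ≤ M) → ∀ j r : ℕ,
    MB (fun t => ‖dp M c t‖ ^ 2 * ‖zf D a a2 j t‖ ^ (2 * r))
      ((C * A ^ 2 * (Real.exp j * Real.log M / D + r + 1)) ^ r * (2 * N2 M c))

def J_PMT : Prop := S_BM → S_QM → S_DPM → S_MVL → S_PMT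

/-- XM: exponential moments of the blocks `≤ j`. Job `J_XM`. PROOF. Weights `ω_{i,l} = e^{(l-j)/4}/(m Σ)`, `Σ = ∑_{l ≤ j} e^{(l-j)/4} ≤ 5`; by convexity
`exp(c₀ ∑ y_{i,l}) ≤ ∑ ω_{i,l} exp(c₀ y_{i,l}/ω_{i,l})`. For one block, `λ = c₀ m Σ e^{(j-l)/4}`: `e^{λ|z|} ≤ 2 ∑_r λ^{2r} |z|^{2r}/(2r)!`, by PMT the mean of the `r`-th term is at
most `λ^{2r} (C A² (K₀ e^l + r + 1))^r/(2r)! · 2 N2`, `(x + y)^r ≤ 2^r (x^r + y^r)`, `(r+1)^r/(2r)! ≤ 1/r!`: the sum is `≤ 8 N2 (exp(√(2λ² C A² K₀ e^l)) + exp(2 λ² C A²))`, and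
`λ e^{l/2}`, `λ²` are `≤ C e^{j/2}`. (`|zf|` is bounded for fixed `D`, so only finitely many `r` need PMT; the tail of the series is uniformly small.) -/
def S_XM : Prop := ∀ (K₀ c₀ A : ℝ) (m : ℕ), 1 ≤ K₀ → 0 ≤ c₀ → 1 ≤ A → ∃ C : ℝ, 1 ≤ C ∧ ∀ D : ℝ, 1 ≤ D → ∀ a a2 : Fin m → ℕ → ℂ,
  (∀ i n, ‖a i n‖ ≤ A) → (∀ i n, ‖a2 i n‖ ≤ A) → ∀ (M : ℕ) (c : ℕ → ℂ), 1 ≤ M → Real.log M ≤ K₀ * D → (∀ n, c n ≠ 0 → 1 ≤ n ∧ n ≤ M) →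
  ∀ j : ℕ, MB (fun t => ‖dp M c t‖ ^ 2 * Real.exp (c₀ * ∑ i, ∑ l ∈ Finset.range (j + 1), ‖zf D (a i) (a2 i) l t‖))
    (Real.exp (C * Real.exp ((j : ℝ) / 2)) * N2 M c)

def J_XM : Prop := S_PMT → S_MVL → S_XM

/-- JL: removing the blocks `≤ j` costs at most `exp(C e^{j/2})`. Job `J_JL`. PROOF. `h(t) = Ef(j+1) dp N b = dp M c`, `log M ≤ (26κ+5) D` (COF with `q = 0`). Let `G` be the set of
`t` with `‖z_{i,l}(t)‖ ≤ R_l/20` for all `i` and all `l ≤ j`, `l < JB D`. By PMT (`r = 1`) `∫_{[V,2V] \ G} |h|² ≤ ∑_{i,l} (400/R_l²) ∫ |h|² |z_{i,l}|² ≤ m (C/κ) ∑_l e^{-8l/10} V N2 ≤ V N2/8`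
for `κ ≥ κ₀(m)`, and `∫ |h|² ≥ V N2/2` (S_MVL). On `G`, by TEX, `|∏_{l ≤ j} TEx(Q_l)|² ≥ c exp(-2 ∑_{i,l ≤ j} |z_{i,l}|)`. Jensen's inequality on `G` with the measure `|h|² dt`, and
`∫ |h|² |z_{i,l}| ≤ C √(κ e^l) V N2` (Cauchy-Schwarz, PMT): `∫ |Ef(0) dp N b|² ≥ c exp(-C e^{j/2}) V N2`, while `∫ |h|² ≤ 2 V N2`. -/
def S_JL : Prop := ∀ m : ℕ, ∃ κ₀ : ℝ, 4 ≤ κ₀ ∧ ∀ κ : ℝ, κ₀ ≤ κ → ∃ C : ℝ, 1 ≤ C ∧ ∀ D : ℝ, 1 ≤ D → ∀ (k : Fin m → ℝ) (a a2 : Fin m → ℕ → ℂ),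
  FamD k a a2 → ∀ (N : ℕ) (b : ℕ → ℂ), 1 ≤ N → Real.log N ≤ D → (∀ n, b n ≠ 0 → 1 ≤ n ∧ n ≤ N) → ∀ W : ℝ,
    MB (fun t => ‖Ef D κ (lc k a) (lc k a2) 0 t * dp N b t‖ ^ 2) W → ∀ j : ℕ,
      MB (fun t => ‖Ef D κ (lc k a) (lc k a2) (j + 1) t * dp N b t‖ ^ 2) (Real.exp (C * Real.exp ((j : ℝ) / 2)) * W)

def J_JL : Prop := S_TEX → S_COF → S_PMT → S_MVL → S_JL

/-- STR: the blocks which are not good. Job `J_STR`. PROOF. `h = Ef(j+1) dp N b = dp M c`, `log M ≤ (26κ+5) D ≤ 32 κ D`. Hölder with exponents `3, 3, 3` for the measure `|h|² dt` on `[V, 2V]`: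
(1) `exp(18 ∑∑)`: XM, `≤ exp(C e^{j/2}) N2 V`. (2) `(1 + y^{2s})³ ≤ 4 (1 + y^{6s})`, `y = 20|z_{i',j'}|/R_{j'}`, `s = s7 j'`: PMT with `r = 3s`: the mean of `y^{6s}` is at most
`(400 C (32 κ e^{j'} + 3s + 1)/R_{j'}²)^{3s} 2 N2 ≤ ((C'/κ) e^{-8j'/10})^{3s} 2 N2 ≤ 2 N2` for `κ ≥ κ₀`. (3) in the same way
`(∑_i y_i^{2s_j})³` has mean `≤ m³ · 2 N2 (e^{-1} e^{-8j/10})^{3 s_j}`. Together `≤ C exp(C e^{j/2} - s_j (1 + 8j/10)) N2 V`, `s_j ≥ e^{7j/10}`, and `N2 ≤ (2/V) ∫ |h|² ≤ 2 exp(C e^{j/2}) W` by S_MVL and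
JL. -/
def S_STR : Prop := ∀ m : ℕ, ∃ κ₀ : ℝ, 4 ≤ κ₀ ∧ ∀ κ : ℝ, κ₀ ≤ κ → ∃ C : ℝ, 1 ≤ C ∧ ∀ D : ℝ, 1 ≤ D → ∀ (k : Fin m → ℝ) (a a2 : Fin m → ℕ → ℂ),
  FamD k a a2 → ∀ (N : ℕ) (b : ℕ → ℂ), 1 ≤ N → Real.log N ≤ D → (∀ n, b n ≠ 0 → 1 ≤ n ∧ n ≤ N) → ∀ W : ℝ,
    MB (fun t => ‖Ef D κ (lc k a) (lc k a2) 0 t * dp N b t‖ ^ 2) W → ∀ (j' j : ℕ) (i' : Fin m), j' ≤ j →
      MB (fun t => ‖Ef D κ (lc k a) (lc k a2) (j + 1) t * dp N b t‖ ^ 2 *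
        Real.exp (6 * ∑ i, ∑ l ∈ Finset.range (j + 1), ‖zf D (a i) (a2 i) l t‖) *
        (1 + (20 * ‖zf D (a i') (a2 i') j' t‖ / R9 κ j') ^ (2 * s7 j')) *
        ∑ i, (20 * ‖zf D (a i) (a2 i) j t‖ / R9 κ j) ^ (2 * s7 j)) (C * Real.exp (-(2 * (j : ℝ))) * W)

def J_STR : Prop := S_COF → S_PMT → S_XM → S_JL → S_MVL → S_STR

/-- TOR: all mean values that are needed. Job `J_TOR`. PROOF. `zf` is linear in the coefficients: `zf D (lc k a) (lc k a2) l t = ∑ k_i zf D (a i) (a2 i) l t`, and the same for the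
difference. (First) PT1 at each `t`, `j' = q`, times `|pw|²|B|²`. `q = 0`: the first term of PT1 is `|Ef(0) B|²`, mean `≤ W`; the `j`-th term by STR (`j' = j`): `≤ C e^{-2j} W`; sum over
`j < JB D` (a finite sum). `q = q' + 1`: the first term of PT1 times `|pw|² = (20|z_{i',q'}|/R)^{2s}` is one of the terms of STR with `j' = j = q'`; the `j`-th term, `j ≥ q > q'`, by STR with `j' = q'`. Sum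
`≤ C e^{-2q} W`. (Second) `q = 0` is the hypothesis; `q = q' + 1` by STR (`exp ≥ 1`, `1 + ... ≥ 1`). (Third) `|Ef^{(i)}| ≤ exp(2 ∑_{i,l < JB D} |z_{i,l}|)` (TEX); Cauchy-Schwarz, XM (`j = JB D`, `dp N b`) and PMT for
`|pw|⁴`; `e^{JB D/2} ≤ C √D`; and the mean of `|dp N b|²` is at most `exp(C√D) W` by JL with `j = JB D`. -/
def S_TOR : Prop := ∀ m : ℕ, ∃ κ₀ : ℝ, 4 ≤ κ₀ ∧ ∀ κ : ℝ, κ₀ ≤ κ → ∃ C : ℝ, 1 ≤ C ∧ ∀ D : ℝ, 1 ≤ D → ∀ (k : Fin m → ℝ) (a a2 : Fin m → ℕ → ℂ),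
  FamD k a a2 → ∀ (N : ℕ) (b : ℕ → ℂ), 1 ≤ N → Real.log N ≤ D → (∀ n, b n ≠ 0 → 1 ≤ n ∧ n ≤ N) → ∀ W : ℝ,
    MB (fun t => ‖Ef D κ (lc k a) (lc k a2) 0 t * dp N b t‖ ^ 2) W → ∀ (i i' : Fin m) (q : ℕ), q ≤ JB D →
      MB (fun t => ‖cexp (∑ l ∈ Finset.range (JB D), zf D (a i) (a2 i) l t)‖ ^ 2 *
        ‖Ef D κ (fun n => lc k a n - a i n) (fun n => lc k a2 n - a2 i n) q t * pw D κ (a i') (a2 i') q t * dp N b t‖ ^ 2)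
        (C * Real.exp (-(2 * (q : ℝ))) * W) ∧
      MB (fun t => ‖Ef D κ (lc k a) (lc k a2) q t * pw D κ (a i') (a2 i') q t * dp N b t‖ ^ 2) (C * Real.exp (-(2 * (q : ℝ))) * W) ∧
      MB (fun t => ‖Ef D κ (fun n => lc k a n - a i n) (fun n => lc k a2 n - a2 i n) q t * pw D κ (a i') (a2 i') q t * dp N b t‖ ^ 2)
        (Real.exp (C * Real.sqrt D) * W)

def J_TOR : Prop := S_TEX → S_PT1 → S_COF → S_PMT → S_XM → S_JL → S_STR → S_DPM → S_MVL → S_TOR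

/-! ### zeta -/

/-- coefficients of `ζ(s + iα)` -/
def ua (α : ℝ) (n : ℕ) : ℂ := (n : ℂ) ^ (-(α * I))

/-- TSB: the twisted second moment against a mean value. Job `J_TSB`. PROOF. Let `θ, C` be from S_TS, `θ₀ = θ/2`, `X = ⌊T^δ⌋₊ + 1`. Substitute `t + α = s ∈ [T/2, 5T/2]`; `dp M c (s - α) = dp M c̃ s`,
`c̃ n = c n n^{iα}` (S_DPM). S_TS with `lam = √(M N2 M c)` (`‖c n‖² ≤ n N2`): `∫ ≤ C T (log T (QF M c̃).re + T^{-θ} M N2)`. By S_EXP `(QF M c̃).re = ∏_{p < X} (1 - 1/p) ∑_{n X-smooth} ‖(u * c)(n)‖²/n`,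
`u = ua α`, since `∑_{h | n} c h h^{iα} = n^{iα} (u * c)(n)`; and `∏_{p < X} (1 - 1/p) ≤ C/(δ log T)` (Mertens, as in `S_PR`). For a finite set `F` of smooth numbers `≤ Y`:
`∑_{n ∈ F} ‖(u * c)(n)‖²/n ≤ N2 (Y M) (cv u^Y c)`, `u^Y` = `u` on the smooth numbers `≤ Y`, `≤ (2/V) ∫_V^{2V} |dp Y u^Y|² |dp M c|²` for large `V` (S_MVL, S_DPM), and
`|dp Y u^Y (t)| ≤ |∏_{p < X} (1 - p^{-1/2-i(t+α)})^{-1}| + η_Y`, `η_Y → 0` for `Y → ∞` (absolute convergence: finitely many primes). Finally `|∏_{p < X} (1 - p^{-1/2-i(t+α)})^{-1}| ≤ e^3 |exp(∑_l zf l t)|`,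
because the blocks contain exactly the primes `< X` (`⌊e^{δ log T}⌋₊ = ⌊T^δ⌋₊`), `zf` contains `p^{-s}` and `p^{-2s}/2`, and `∑_p ∑_{r ≥ 3} p^{-r/2}/r ≤ 3`. -/
def S_TSB : Prop := ∃ θ₀ : ℝ, 0 < θ₀ ∧ θ₀ ≤ 1 / 8 ∧ ∀ δ : ℝ, 0 < δ → δ ≤ 1 → ∃ C : ℝ, 0 ≤ C ∧ ∀ᶠ T : ℝ in atTop, ∀ α : ℝ, |α| ≤ T / 2 →
  ∀ (M : ℕ) (c : ℕ → ℂ), (M : ℝ) ≤ T ^ θ₀ → (∀ n, c n ≠ 0 → 1 ≤ n ∧ n ≤ M ∧ n ∈ Nat.smoothNumbers (⌊T ^ δ⌋₊ + 1)) → ∀ S : ℝ,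
    MB (fun t => ‖cexp (∑ l ∈ Finset.range (JB (δ * Real.log T)), zf (δ * Real.log T) (ua α) (ua (2 * α)) l t)‖ ^ 2 * ‖dp M c t‖ ^ 2) S →
    ∫ t in T..(2 * T), ‖zt (t + α)‖ ^ 2 * ‖dp M c t‖ ^ 2 ≤ C * T * (S + T ^ (-θ₀) * N2 M c)

def J_TSB : Prop := S_TS → S_EXP → S_DPM → S_MVL → S_TSB

/-- UBM: the upper bound. Job `J_UBM`. PROOF. `D = δ log T`, `a i = ua (α i)`, `a2 i = ua (2 α i)`, so `lc k a = ap k α`, `lc k a2 = ap k (2α)`. `δ₀` such that `(26κ + 5) δ₀ ≤ θ₀/2` (TSB, also `≤ 1/8`), `θ = min δ (θ₀/4)`, so that `log N ≤ D`.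
PT2 at each `t ∈ [T, 2T]` with `ζ_i = ‖zt (t + α i)‖`, `J = JB D`, times `|B|²`. `W = 2 N2 (M9 N) (cv e b)` is admissible in TOR (S_MVL at large `V`, COF, S_DPM). (a) `∫_T^{2T} |Ef(0) B|² ≤ T W` (S_MVL). (b) `∫ |ζ_i|² |Ef^{(i)}(0) B|²`: TSB with
`S = C W` (TOR, first, `q = 0`) and `N2 M c ≤ 2 exp(C√D) W` (TOR, third, S_MVL), which is `≤ T^{θ₀} W` for large `T`. (c) `∫ |Ef(j+1)|² (20|z_{i',j}|/R)^{2s} |B|² ≤ 2 T N2 M c ≤ 4T C e^{-2(j+1)} W` (COF, S_MVL at `T` and at large `V`, TOR, second, `q = j + 1`).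
(d) the terms with `ζ_i` and `j`: TSB with `S = C e^{-2(j+1)} W` (TOR, first, `q = j + 1`), error `T^{-θ₀} exp(C√D) W`, times `J ≤ log T` terms. -/
def S_UBM : Prop := ∀ m : ℕ, ∃ κ₀ : ℝ, 4 ≤ κ₀ ∧ ∀ κ : ℝ, κ₀ ≤ κ → ∃ δ₀ : ℝ, 0 < δ₀ ∧ ∀ δ : ℝ, 0 < δ → δ ≤ δ₀ → ∃ θ C : ℝ, 0 < θ ∧ 0 ≤ C ∧
  ∀ᶠ T : ℝ in atTop, ∀ k α : Fin m → ℝ, (∀ j, 0 ≤ k j) → ∑ j, k j ≤ 1 → (∀ j, |α j| ≤ T / 2) →
    ∀ N : ℕ, (N : ℝ) ≤ T ^ θ → ∀ b : ℕ → ℂ, (∀ n, b n ≠ 0 → 1 ≤ n ∧ n ≤ N) →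
      ∫ t in T..(2 * T), (∏ j, ‖zt (t + α j)‖ ^ (2 * k j)) * ‖dp N b t‖ ^ 2 ≤
        C * T * N2 (M9 (δ * Real.log T) κ * N)
          (cv (ebk (δ * Real.log T) κ (ap k α) (ap k (fun j => 2 * α j)) 0 (JB (δ * Real.log T))) b)

def J_UBM : Prop := S_PT2 → S_TOR → S_COF → S_TSB → S_DPM → S_MVL → S_UBM

/-! ### the polynomial and the lower bound -/

/-- EN2: the mean square of the polynomial. Job `J_EN2`. PROOF. Lower bound: as S_EL (theorem `Pool.Agent.Q14.UM.t_EL`, file Q14/UM/EL.lean; the truncation is now longer). Upper bound: the numbers of different blocks are coprime, so `N2` is the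
product over the blocks; in one block the coefficient of `te` at `n` is at most that of the full exponential with `|a p|, |a2 p|`, which is multiplicative in `n`: at `p^v` it is `f_v = ∑_{u + 2w = v} |a p|^u |a2 p/2|^w/(u! w!) ≤ e^{2A}`, `f_1 = |a p|`; so
`N2 ≤ ∏_p (1 + |a p|²/p + ∑_{v ≥ 2} e^{4A} p^{-v}) ≤ exp(∑ |a p|²/p + 2 e^{4A} ∑ p^{-2})`. -/
def S_EN2 : Prop := ∀ A : ℝ, 1 ≤ A → ∃ κ₀ : ℝ, 4 ≤ κ₀ ∧ ∃ c C : ℝ, 0 < c ∧ 0 ≤ C ∧ ∀ (κ D : ℝ) (a a2 : ℕ → ℂ), κ₀ ≤ κ → 1 ≤ D →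
  (∀ n, ‖a n‖ ≤ A) → (∀ n, ‖a2 n‖ ≤ A) →
    c * Real.exp (∑ p ∈ (Finset.Icc 1 ⌊Real.exp D⌋₊).filter Nat.Prime, ‖a p‖ ^ 2 / p) ≤ N2 (M9 D κ) (ebk D κ a a2 0 (JB D)) ∧
    N2 (M9 D κ) (ebk D κ a a2 0 (JB D)) ≤ C * Real.exp (∑ p ∈ (Finset.Icc 1 ⌊Real.exp D⌋₊).filter Nat.Prime, ‖a p‖ ^ 2 / p)

def J_EN2 : Prop := S_BM → S_COF → S_EN2

/-- EK9: the polynomial `ebk` has the properties `EKd` (with `13/10 κ` in place of `κ`). Job `J_EK9`. PROOF. As `J_EK` (theorem `Pool.Agent.Q14.UM.t_EK`, file Q14/UM/EK.lean): `len`: `M9 ≤ T^{26κδ}`; `low`: EN2; `up`: S_TE in each block; `mean`: three times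
S_QM, `w_j = 2 (10/R_j)^5`, `∑_j e^{3j} R_j^{-5} < ∞`. -/
def S_EK9 : Prop := ∀ A : ℝ, 1 ≤ A → ∃ κ₀ : ℝ, 4 ≤ κ₀ ∧ ∀ κ δ : ℝ, κ₀ ≤ κ → 0 < δ → ∃ C c : ℝ, 0 ≤ C ∧ 0 < c ∧ ∀ᶠ T : ℝ in atTop, ∀ a a2 : ℕ → ℂ,
  (∀ n, ‖a n‖ ≤ A) → (∀ n, ‖a2 n‖ ≤ A) → ∃ (J M₀ : ℕ) (q : ℕ → ℕ → ℂ) (w : ℕ → ℝ),
    EKd δ (13 / 10 * κ) C c T a a2 (M9 (δ * Real.log T) κ) (ebk (δ * Real.log T) κ a a2 0 (JB (δ * Real.log T))) J M₀ q w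

def J_EK9 : Prop := S_TE → S_BM → S_QM → S_EN2 → S_COF → S_DPM → S_EK9

/-- LBK: the lower bound for every polynomial with the properties `EKd`. Job `J_LBK`. PROOF: the proof of `J_LBM` (theorem `Pool.Agent.Q98.UM.t_LBM`, file Q98/UM/LBM.lean), where the polynomial is now given. -/
def S_LBK : Prop := ∀ A κ : ℝ, 1 ≤ A → 1 ≤ κ → ∃ δ₀ : ℝ, 0 < δ₀ ∧ ∀ δ : ℝ, 0 < δ → δ ≤ δ₀ → ∀ C c : ℝ, 0 ≤ C → 0 < c → ∃ θ c' : ℝ, 0 < θ ∧ 0 < c' ∧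
  ∀ᶠ T : ℝ in atTop, ∀ (n : ℕ) (k α : Fin n → ℝ), ∑ j, |k j| ≤ A → (∀ j, |α j| ≤ T / 2) →
    ∀ (M : ℕ) (e : ℕ → ℂ) (J M₀ : ℕ) (q : ℕ → ℕ → ℂ) (w : ℕ → ℝ), EKd δ κ C c T (ap k α) (ap k (fun j => 2 * α j)) M e J M₀ q w →
    ∀ N : ℕ, (N : ℝ) ≤ T ^ θ → ∀ b : ℕ → ℂ, (∀ m, b m ≠ 0 → 1 ≤ m ∧ m ≤ N) →
      ENNReal.ofReal (c' * T * N2 (M * N) (cv e b)) ≤
        ∫⁻ t in Set.Icc T (2 * T), ENNReal.ofReal ((∏ j, ‖zt (t + α j)‖ ^ (2 * k j)) * ‖dp N b t‖ ^ 2)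

def J_LBK : Prop := S_THP → S_DPM → S_MVL → S_LBK

end

end Pool.Agent.Q97.UM
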