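import Pool.Agent.Q97.UM.Stm14

set_option autoImplicit false

/-!
Project UM9 (helper97): JOINT LARGE DEVIATIONS OF ZETA AT SHIFTED POINTS ON THE CRITICAL LINE, unconditionally.

THEOREM. For real `k_1, ..., k_n` of any sign and real shifts `|α_j| ≤ T/2`, `n, ∑ |k_j| ≤ A`: the set of `t ∈ [T, 2T]` with
`log|ζ(1/2 + i(t+α_j))| = ∑_l k_l log|ζ(1 + 1/log T + i(α_j - α_l))| + O(√(log log T))` for all `j` has measure at least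
`T ∏_{j,l} |ζ(1 + 1/log T + i(α_j - α_l))|^{-k_j k_l} exp(-C √(log log T))`.

Statements are `def S_xxx : Prop`, with complete proofs in the comments; `J_xxx` is the statement of a job. `L = log T`, `D = δ L`.
-/

namespace Pool.Agent.Q97.UM

open Filter Topology MeasureTheory Complex

noncomputable section

/-- coefficients of `∑_{p ≤ e^D} (h_p p^{-s} + h2_p p^{-2s} / 2)` -/
def qall (D : ℝ) (h h2 : ℕ → ℂ) (n : ℕ) : ℂ := ∑ l ∈ Finset.range (JB D), qb D h h2 l n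

/-- mean value under the tilted measure -/
def mu (D : ℝ) (h a : ℕ → ℂ) : ℂ := ∑ p ∈ (Finset.Icc 1 ⌊Real.exp D⌋₊).filter Nat.Prime, h p * (starRingEnd ℂ) (a p) / (p : ℂ)

/-- TLT: mean and variance of a prime sum under the measure `|E|²`. Job `J_TLT`. PROOF. `⟨b, c⟩ = ∑ b_n conj(c_n) / n`, `‖b‖² = N2 b`; `E_l = te (qb D a a2 l) (R9 κ l)`,
`q_l = qb D h h2 l`, `μ_l = ∑_{p ∈ PB D l} h_p conj(a_p)/p` (all primes `≤ e^D` are in the blocks `l < JB D`). Integers of different blocks are coprime, so inner products of convolutions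
over the blocks factor (as in `Q14/UM/EL.lean` and `Q299/UM/EN2.lean`), and with `m_l = ⟨(q_l - μ_l) * E_l, E_l⟩`:
`‖(q - μ) * e‖² = ∑_l ‖(q_l - μ_l) * E_l‖² ∏_{i ≠ l} ‖E_i‖² + ∑_{l ≠ l'} m_l conj(m_l') ∏_{i ≠ l, l'} ‖E_i‖²`. It is enough that `‖(q_l - μ_l) * E_l‖² ≤ C ‖E_l‖²` and
`|m_l| ≤ ε_l ‖E_l‖²`, `∑ ε_l ≤ C`, because `JB D ≤ 2 + log D` (and `‖E_l‖² ≥ 1`, coefficient at `n = 1`).
One block, first without truncation: `F` = coefficients of `exp(∑_{p ∈ PB l} (a_p p^{-s} + a2_p p^{-2s}/2))`, multiplicative, `F(p^v) = f_v = ∑_{u + 2w = v} a_p^u (a2_p/2)^w/(u! w!)`,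
`f_0 = 1`, `f_1 = a_p`. `⟨δ_p * F, F⟩ = (1/p) (conj(a_p) + O(1/p)) ‖F‖²`, `⟨δ_{p²} * F, F⟩ = O(1/p²) ‖F‖²`, so `⟨(q_l - μ_l) * F, F⟩ = O(∑_{p ∈ PB l} 1/p²) ‖F‖²`, and
`⟨δ_p * F, δ_{p'} * F⟩ = O(1/(p p')) ‖F‖²` for `p ≠ p'`, `‖δ_p * F‖² = ‖F‖²/p`, so `‖q_l * F‖² ≤ C (∑ 1/p + (∑ 1/p)²) ‖F‖² ≤ C ‖F‖²` (S_BM); `1 ≤ ‖F‖² ≤ C`.
Truncation: let `F^A` be `F` for `a_p = a2_p = A`. `|F - E_l|(n) ≤ ∑_{r > R} g^{*r}(n)/r! ≤ F^A(n)`, and it vanishes unless `Ω(n) > R = R9 κ l ≥ κ`; so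
`‖F - E_l‖² ≤ x^{-R} ∑ F^A(n)² x^{Ω(n)}/n ≤ x^{-R} e^{C x²}` for every `x ≥ 1` (for `p > x²` the Euler factor is `≤ 1 + C x/p`, for the few `p ≤ x²` it is bounded by a constant depending on `x, A`,
since `f_v` decays like `C^v/√(v!)`); with `x = e^8` and `κ ≥ κ₀(A)` this is `≤ e^{-4R}`; the same for `q_l * (F - E_l)`. -/
def S_TLT : Prop := ∀ A : ℝ, 1 ≤ A → ∃ κ₀ : ℝ, 4 ≤ κ₀ ∧ ∀ κ : ℝ, κ₀ ≤ κ → ∃ C : ℝ, 0 ≤ C ∧ ∀ D : ℝ, 1 ≤ D → ∀ a a2 h h2 : ℕ → ℂ,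
  (∀ n, ‖a n‖ ≤ A) → (∀ n, ‖a2 n‖ ≤ A) → (∀ n, ‖h n‖ ≤ A) → (∀ n, ‖h2 n‖ ≤ A) →
    N2 (⌊Real.exp D⌋₊ ^ 2 * M9 D κ) (fun n => cv (qall D h h2) (ebk D κ a a2 0 (JB D)) n - mu D h a * ebk D κ a a2 0 (JB D) n) ≤
      C * (1 + Real.log D) * N2 (M9 D κ) (ebk D κ a a2 0 (JB D))

def J_TLT : Prop := S_BM → S_COF → S_TLT

/-- the predicted value of `log |ζ(1/2 + i(t + α_j))|` -/
def Pre {n : ℕ} (T : ℝ) (k α : Fin n → ℝ) (j : Fin n) : ℝ := ∑ l, k l * Real.log ‖riemannZeta (1 + 1 / Real.log T + (α j - α l : ℝ) * I)‖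

/-- JLD: the theorem. Job `J_JLD`. PROOF. Choose `κ` (EK9 and TLT for `A`), then `δ` small (so that `T^{26κδ}` and `T^{(26κ+2)δ}` are below the lengths allowed in S_THP (`m = 1`) and S_MVL),
`D = δ L`, `a = ap k α`, `a2 = ap k (2α)`, `E = dp (M9 D κ) e`, `e = ebk D κ a a2 0 (JB D)`, `Y = ∑_{p ≤ T^δ} |a_p|²/p`. (i) `∫_T^{2T} |E|² ≥ (T/2) N2(e)`, `N2(e) ≥ c e^Y` (`EKd.low`).
(ii) `∫ |E|² |log|ζ(1/2+i(t+α_j))| - EP ⌊T^δ⌋₊ (t+α_j)| ≤ C T N2(e)`: S_THP for `dp M9 e (s - α_j)` (S_DPM), `s ∈ [T/2, 5T/2]`.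
(iii) `|EP X (t+α_j) - Re PA X (ua α_j) (ua (2α_j)) t| ≤ C` (`-log|1-z| = Re ∑ z^m/m`, `∑ p^{-3/2} < ∞`). (iv) `PA_j = dp (qall D (ua α_j) (ua 2α_j))`, so by TLT and S_MVL, S_DPM
`∫_T^{2T} |E|² |PA_j - μ_j|² ≤ C (1 + log L) T N2(e)`, `μ_j = mu D (ua α_j) a = ∑_l k_l ∑_p p^{-1-i(α_j-α_l)}`, and `|Re μ_j - Pre T k α j| ≤ C` by S_MZ. (v)
`∫ |E|² (log|E| - Re PA_a)⁺ ≤ C T N2(e)`, `PA_a = PA X a a2`: `EKd.up`, `EKd.mean`, S_MVL, as in the proof of LBM (Q98/UM/LBM.lean). (vi) For `K` large in terms of `A`, the set `G` of `t ∈ [T, 2T]` with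
(ii), (v) `≤ K` and `|PA_j - μ_j| ≤ K √(log L)` has `∫_G |E|² ≥ ½ ∫ |E|²` (Markov, at most `2A + 1` conditions). On `G`: `log|E|² ≤ 2 Re PA_a + 2K = 2 ∑ k_j Re PA_j + 2K
≤ 2 ∑_j k_j Re μ_j + C √(log L)`, and `∑_j k_j μ_j = Y` (real). So `vol G ≥ ∫_G |E|²/sup_G |E|² ≥ c T exp(Y - 2Y - C √(log L))`, and `|Y - ∑_j k_j Pre T k α j| ≤ C`. -/
def S_JLD : Prop := ∀ A : ℝ, 1 ≤ A → ∃ C : ℝ, 0 ≤ C ∧ ∀ᶠ T : ℝ in atTop, ∀ (n : ℕ) (k α : Fin n → ℝ), (n : ℝ) ≤ A → ∑ j, |k j| ≤ A → (∀ j, |α j| ≤ T / 2) →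
  T * Real.exp (-(∑ j, k j * Pre T k α j) - C * Real.sqrt (Real.log (Real.log T))) ≤
    volume.real {t : ℝ | T ≤ t ∧ t ≤ 2 * T ∧ ∀ j, |Real.log ‖zt (t + α j)‖ - Pre T k α j| ≤ C * Real.sqrt (Real.log (Real.log T))}

def J_JLD : Prop := S_TLT → S_EK9 → S_THP → S_MZ → S_DPM → S_MVL → S_JLD

end

end Pool.Agent.Q97.UM
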