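import Pool.Agent.Q97.UM.Stm
import Pool.Agent.Q80.SP.Ker

set_option autoImplicit false

/-!
Project UM (helper97), part 2: statements that use the smoothing kernels `kr` of `Q80.SP`.
-/

namespace Pool.Agent.Q97.UM

open Filter Topology MeasureTheory Complex
open Pool.Agent.W182.KO (P TF)
open Q80.SP (kr)
open scoped ContDiff

noncomputable section

/-- FIL: a frequency filter applied to zeta gives a Dirichlet polynomial, uniformly in the frequency `μ`. PROOF: as `Q80.SP.apx`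
(with `k = 1`, see `Q80/SP/Dir.lean`, `Q80/SP/Apx.lean`) with `F₂ = 1` replaced by the exponential: `P ψ(· - μ) (z) = e^{μz} P ψ (z)`;
the constant in `Pool.Agent.W182.KO.shift` is explicit (`CN * (C1 * C2) * ...`); the factor `e^{2 · L · 3/2} = T³` is absorbed by a
higher power of `T` (`P_bound` with large `N`). -/
def S_FIL : Prop := ∀ (ξ1 : ℝ) (ψ : ℝ → ℂ), TF ξ1 ψ → 0 ≤ ξ1 → ∃ C : ℝ, 0 ≤ C ∧ ∀ T : ℝ, 4 ≤ T → ∀ t : ℝ,
  T / 2 ≤ t → t ≤ 3 * T → ∀ μ : ℝ, |μ| ≤ 2 →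
    ‖(∫ y : ℝ, kr ψ (Real.log T) y * (cexp (I * (μ * Real.log T * y : ℝ)) * riemannZeta (1 / 2 + (t + y : ℝ) * I))) -
      ∑' n : ℕ, ψ (Real.log n / Real.log T - μ) * (n : ℂ) ^ (-(1 / 2 + t * I))‖ ≤ C / T ^ 2

/-- KER: a nonnegative kernel with a smooth compactly supported Fourier transform. PROOF: `ψ₁ = φ ⋆ φ` with `φ` a real even smooth
bump function supported in `[-1/2, 1/2]`, `∫ φ² = 1`; `P ψ₁ (ix) = (P φ (ix))²` and `P φ (ix)` is real. -/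
def S_KER : Prop := ∃ (ψ₁ k₀ : ℝ → ℝ) (C : ℝ), ContDiff ℝ ∞ ψ₁ ∧ (∀ u, 1 ≤ |u| → ψ₁ u = 0) ∧ ψ₁ 0 = 1 ∧ (∀ u, |ψ₁ u| ≤ 1) ∧
  (∀ u, |deriv ψ₁ u| ≤ C) ∧ Continuous k₀ ∧ (∀ x, 0 ≤ k₀ x) ∧
  (∀ x : ℝ, (k₀ x : ℂ) = ((1 / (2 * Real.pi) : ℝ) : ℂ) * P (fun u => (ψ₁ u : ℂ)) (x * I))

end

end Pool.Agent.Q97.UM
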