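import Pool.Agent.Q97.UM.Stm2

set_option autoImplicit false

/-!
Project UM (helper97), part 3: the analytic part (statements as `def S_xxx : Prop`, proofs in the comments).
`Y = ⌊T ^ θ⌋₊`, `L = log T`, `η = eta P Y`, `K = kr (ψ₁ (·/δ)) L`.
-/

namespace Pool.Agent.Q97.UM

open Filter Topology MeasureTheory Complex
open Pool.Agent.W182.KO (P TF)
open Q80.SP (kr)
open scoped ContDiff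

noncomputable section

/-- zeta on the critical line -/
def zt (t : ℝ) : ℂ := riemannZeta (1 / 2 + t * I)

/-- Dirichlet polynomials on the critical line -/
def dp (M : ℕ) (c : ℕ → ℂ) (t : ℝ) : ℂ := ∑ n ∈ Finset.Icc 1 M, c n * (n : ℂ) ^ (-(1 / 2 + t * I))

/-- the real coefficients of Selberg's mollifier: `et Pw Y n = (er Pw Y n : ℂ)` by `rfl` -/
def er (Pw : ℝ → ℝ) (Y n : ℕ) : ℝ := al n * Pw (Real.log n / Real.log Y)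

/-- Selberg's mollifier -/
def eta (Pw : ℝ → ℝ) (Y : ℕ) (t : ℝ) : ℂ := dp Y (et Pw Y) t

/-- universal mollification -/
def Moll (Pw : ℝ → ℝ) (C : ℝ) : Prop := ∀ (Y N : ℕ) (b : ℕ → ℂ), 2 ≤ Y → N ≤ Y → (∀ n, b n ≠ 0 → 1 ≤ n ∧ n ≤ N) →
  (QF (N * Y ^ 2) (cv b (cv (et Pw Y) (et Pw Y)))).re ≤ C / Real.log Y * N2 N b

/-- the Dirichlet polynomial of the smoothed `χ^{-1/2} ζ |η|²` -/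
def XD (Pw ψ₁ : ℝ → ℝ) (δ : ℝ) (Y Z : ℕ) (L t : ℝ) : ℂ :=
  ∑ h ∈ Finset.Icc 1 Y, ∑ k ∈ Finset.Icc 1 Y, ∑ n ∈ Finset.Icc 1 Z,
    ((er Pw Y h * er Pw Y k / Real.sqrt ((h : ℝ) * k * n) *
      ψ₁ ((Real.log n / L - (1 / 2 - (Real.log h - Real.log k) / L)) / δ) : ℝ) : ℂ) *
      cexp (-(I * ((Real.log n + Real.log h - Real.log k) * t : ℝ)))

/-- the zeros of odd order of `ζ(1/2 + iu)` in a window -/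
def Zo (t r : ℝ) : Set ℝ := {u : ℝ | |u - t| ≤ r ∧ Odd (analyticOrderNatAt riemannZeta (1 / 2 + u * I))}

/-- DPM: products, shifts and the trivial bound for Dirichlet polynomials. -/
def S_DPM : Prop := (∀ (N M : ℕ) (b c : ℕ → ℂ) (t : ℝ), (∀ n, N < n → b n = 0) → (∀ n, M < n → c n = 0) →
    dp N b t * dp M c t = dp (N * M) (cv b c) t) ∧
  (∀ (N : ℕ) (b : ℕ → ℂ) (t y : ℝ), dp N b (t - y) = dp N (fun n => b n * (n : ℂ) ^ (y * I)) t ∧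
    N2 N (fun n => b n * (n : ℂ) ^ (y * I)) = N2 N b) ∧
  (∀ (N : ℕ) (b : ℕ → ℂ) (t : ℝ), ‖dp N b t‖ ^ 2 ≤ N * N2 N b ∧ Continuous (dp N b))

/-- MVL: the mean value. PROOF: expand; `|∫_T^{2T} (m/n)^{-it} dt| ≤ 2 / |log (m/n)| ≤ 2 max(m,n) ≤ 2N` for `m ≠ n`, and
`(∑ |b_n| n^{-1/2})² ≤ N · N2 N b`. -/
def S_MVL : Prop := ∀ T : ℝ, 16 ≤ T → ∀ N : ℕ, (N : ℝ) ≤ T ^ (1 / 4 : ℝ) → ∀ b : ℕ → ℂ,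
  T / 2 * N2 N b ≤ ∫ t in T..(2 * T), ‖dp N b t‖ ^ 2 ∧ ∫ t in T..(2 * T), ‖dp N b t‖ ^ 2 ≤ 2 * T * N2 N b

/-- ZF: finiteness and measurability of the counts. PROOF: the zeros of zeta in a compact set are finite (odd order implies zero),
so the set `Z₀` of all odd `u` is countable; `{t | k ≤ (Zo t r).ncard}` is the union over the `k`-element finite subsets `F` of `Z₀`
(countably many) of the closed sets `⋂_{u ∈ F} {t | |u - t| ≤ r}`. -/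
def S_ZF : Prop := (∀ t r : ℝ, (Zo t r).Finite) ∧ ∀ (r : ℝ) (k : ℕ), MeasurableSet {t : ℝ | k ≤ (Zo t r).ncard}

/-- existence form of the theorem -/
def S_E : Prop := ∃ θ : ℝ, 0 < θ ∧ θ ≤ 1 / 40 ∧ ∀ ε : ℝ, 0 < ε → ∃ R T₀ : ℝ, 1 ≤ R ∧ ∀ T : ℝ, T₀ ≤ T → ∀ N : ℕ,
  (N : ℝ) ≤ T ^ θ → ∀ b : ℕ → ℂ, ∫ t in {t : ℝ | T ≤ t ∧ t ≤ 2 * T ∧ Zo t (R / Real.log T) = ∅}, ‖dp N b t‖ ^ 2 ≤ ε * T * N2 N b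

/-- counting form of the theorem. PROOF of `S_MVL → S_ZF → S_DPM → S_E → S_C`: given `ε` take `R₁, T₁` from `S_E` for `ε / 12`, put
`c = 1 / (16 R₁)`, `R₀ = 8 R₁`, `L = log T`, `J = ⌊R / (4 R₁)⌋₊` (so `J ≥ 2` and `J ≥ R / (8 R₁)`), `x_j = 4 R₁ j / L`,
`ρ = 3 R₁ / (2 L)` for `j < J`. The windows `[t + x_j - ρ, t + x_j + ρ]` are disjoint and, except possibly `j = 0` on the left, inside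
`[t - R/L, t + R/L]`. If `(Zo t (R/L)).ncard < c R ≤ J / 2` then `Zo (t + x_j) ρ = ∅` for at least `J / 2` of the `j`, so the indicator
of the bad set is `≤ (2/J) ∑_j 1[Zo (t + x_j) ρ = ∅]`. Substitute `s = t + x_j ∈ [T, 4T]` (as `x_j ≤ R / L ≤ T`), use the shift in
`S_DPM`, and `S_E` at `T` and at `2T` (`ρ ≥ R₁ / log T ≥ R₁ / log (2T)`, `Zo` is monotone in the radius): total
`≤ 2 · 3 (ε/12) T N2 ≤ ε ∫_T^{2T} |B|²` by `S_MVL`. (`{Zo = ∅}` is the complement of `{1 ≤ ncard}`, measurable.) -/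
def S_C : Prop := ∃ θ : ℝ, 0 < θ ∧ ∀ ε : ℝ, 0 < ε → ∃ c R₀ T₀ : ℝ, 0 < c ∧ ∀ T : ℝ, T₀ ≤ T → ∀ R : ℝ, R₀ ≤ R → R ≤ T →
  ∀ N : ℕ, (N : ℝ) ≤ T ^ θ → ∀ b : ℕ → ℂ,
    ∫ t in {t : ℝ | T ≤ t ∧ t ≤ 2 * T ∧ ((Zo t (R / Real.log T)).ncard : ℝ) < c * R}, ‖dp N b t‖ ^ 2 ≤
      ε * ∫ t in T..(2 * T), ‖dp N b t‖ ^ 2

/-- CNT: `S_MVL → S_ZF → S_DPM → S_E → S_C` (proof in the comment of `S_C`) -/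
def S_CNT : Prop := S_MVL → S_ZF → S_DPM → S_E → S_C

/-- R2: mollified second moment against a shifted Dirichlet polynomial. PROOF. `θ = θ_TS / 10`, `Y = ⌊T^θ⌋₊`. For `|y| ≤ T/2`:
substitute `t = s - y`, `s ∈ [T/2, 3T]`, `dp N b (s-y) = dp N b' s` (S_DPM), `dp N b' · η² = dp (N Y²) c`, `c = cv b' (cv e e)`
(`e = et Pw Y` set to `0` beyond `Y` (it is `0` there by `Gev.supp`) and at `0`; `dp` and `cv` do not see the value at `0`), apply S_TS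
with `M = N Y²`, `‖c n‖ ≤ lam = √N ‖b‖ N Y` (at most `N` divisors `d ≤ N` of `n`, `|b_d| ≤ √N ‖b‖`, `‖cv e e m‖ ≤ Y` by S_AL),
`lam² ≤ T^{5θ} N2 N b`, and `Moll` with `log Y ≥ (θ/2) log T`. For `|y| > T/2`: `‖zt u‖ ≤ 180 (1 + |u|)²` (`Q97.MM.zeta_bd`),
`|η| ≤ Y ≤ T^{1/40}`, `∫_T^{2T} |dp N b|² ≤ 2 T N2 N b`. -/
def S_R2 : Prop := ∀ (Pw q : ℝ → ℝ) (c₀ C₀ C₁ : ℝ), Gev Pw q c₀ C₀ → Moll Pw C₁ → S_TS → S_AL → S_DPM → S_MVL →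
  ∃ θ C : ℝ, 0 < θ ∧ θ ≤ 1 / 40 ∧ 0 ≤ C ∧ ∀ᶠ T : ℝ in atTop, ∀ N : ℕ, (N : ℝ) ≤ T ^ θ → ∀ b : ℕ → ℂ,
    (∀ n, b n ≠ 0 → 1 ≤ n ∧ n ≤ N) → ∀ y : ℝ,
    ∫ t in T..(2 * T), ‖dp N b t‖ ^ 2 * (‖zt (t + y)‖ * ‖eta Pw ⌊T ^ θ⌋₊ (t + y)‖ ^ 2) ^ 2 ≤ C * T * (1 + |y|) ^ 6 * N2 N b

/-- R4: the smoothed mollified zeta is `1`. PROOF. `η(t+y)² = ∑_{m ≤ Y²} (e*e)(m) m^{-1/2-i(t+y)}`; FIL for `ψ = ψ₁(·/δ)` with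
`μ = -log m / L` gives `∑_m (e*e)(m) m^{-1/2-it} ∑_n ψ₁(log (mn) / (δL)) n^{-1/2-it} = ∑_r ψ₁(log r/(δL)) r^{-1/2-it} (1*e*e)(r)` up to
`C Y⁴ / T²`; the terms with `ψ₁ ≠ 0` have `log r < δ L ≤ (log Y)/4`, where `e = al` on all divisors of `r` (Gev.flat), and
`(1 * al * al)(r) = ∑_{d | r} μ(d) = [r = 1]`. (`log Y ≥ (θ/2) L` for large `T`.) -/
def S_R4 : Prop := ∀ (Pw q ψ₁ : ℝ → ℝ) (c₀ C₀ θ δ : ℝ), Gev Pw q c₀ C₀ → S_AL → S_FIL → ContDiff ℝ ∞ ψ₁ →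
  (∀ u, 1 ≤ |u| → ψ₁ u = 0) → ψ₁ 0 = 1 → (∀ u, |ψ₁ u| ≤ 1) → 0 < θ → θ ≤ 1 / 40 → 0 < δ → δ ≤ θ / 8 →
  ∀ᶠ T : ℝ in atTop, ∀ t : ℝ, T / 2 ≤ t → t ≤ 3 * T →
    ‖(∫ y : ℝ, kr (fun u => (ψ₁ (u / δ) : ℂ)) (Real.log T) y * (zt (t + y) * eta Pw ⌊T ^ θ⌋₊ (t + y) ^ 2)) - 1‖ ≤ 1 / 4

/-- X0: the smoothed `χ^{-1/2} ζ |η|²` is `XD`. PROOF. `|η(t+y)|² = ∑_{h,k} e_h e_k (hk)^{-1/2} (h/k)^{-i(t+y)}`; FIL for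
`ψ = ψ₁(·/δ)` with `μ = 1/2 - log (h/k) / L`, `|μ| ≤ 2`; in the tsum only `1 ≤ n ≤ T` matter; total error `≤ Y² C / T² ≤ 1/T`. -/
def S_X0 : Prop := ∀ (Pw q ψ₁ : ℝ → ℝ) (c₀ C₀ θ δ : ℝ), Gev Pw q c₀ C₀ → S_AL → S_FIL → ContDiff ℝ ∞ ψ₁ →
  (∀ u, 1 ≤ |u| → ψ₁ u = 0) → (∀ u, |ψ₁ u| ≤ 1) → 0 < θ → θ ≤ 1 / 40 → 0 < δ → δ ≤ 1 / 10 →
  ∀ᶠ T : ℝ in atTop, ∀ t : ℝ, T / 2 ≤ t → t ≤ 3 * T →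
    ‖(∫ y : ℝ, kr (fun u => (ψ₁ (u / δ) : ℂ)) (Real.log T) y *
      (cexp (I * (y * (Real.log T / 2) : ℝ)) * zt (t + y) * ((‖eta Pw ⌊T ^ θ⌋₊ (t + y)‖ ^ 2 : ℝ) : ℂ))) -
      XD Pw ψ₁ δ ⌊T ^ θ⌋₊ ⌊T⌋₊ (Real.log T) t‖ ≤ 1 / T

/-- R3 (helper97 does this one): the mean square of `B · XD`. -/
def S_R3 : Prop := ∀ (Pw q ψ₁ : ℝ → ℝ) (c₀ C₀ C₁ C₂ θ : ℝ), Gev Pw q c₀ C₀ → Moll Pw C₁ → S_MV → S_SUM → ContDiff ℝ ∞ ψ₁ →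
  (∀ u, 1 ≤ |u| → ψ₁ u = 0) → (∀ u, |ψ₁ u| ≤ 1) → (∀ u, |deriv ψ₁ u| ≤ C₂) → 0 < θ → θ ≤ 1 / 40 →
  ∃ C : ℝ, 0 ≤ C ∧ ∀ δ : ℝ, 0 < δ → δ ≤ 1 / 10 → ∀ᶠ T : ℝ in atTop, ∀ N : ℕ, (N : ℝ) ≤ T ^ θ → ∀ b : ℕ → ℂ,
    (∀ n, b n ≠ 0 → 1 ≤ n ∧ n ≤ N) →
    ∫ t in T..(2 * T), ‖dp N b t‖ ^ 2 * ‖XD Pw ψ₁ δ ⌊T ^ θ⌋₊ ⌊T⌋₊ (Real.log T) t‖ ^ 2 ≤ C * δ * T * N2 N b

end

end Pool.Agent.Q97.UM
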