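import Pool.Agent.Q97.UM.Stm6

set_option autoImplicit false

/-!
Project UM2 (helper97), corollaries: extreme values of Dirichlet polynomials at the simple critical zeros; Kronecker's theorem at the
simple critical zeros, for a growing number of primes. `b_SAMP : S_SAMP` is proved in Pool/Agent/Q97/UM/Base3.lean.
-/

namespace Pool.Agent.Q97.UM

open Filter Topology MeasureTheory Complex

noncomputable section

open Classical in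
/-- the simple zeros on the critical line with `T < γ ≤ 2T` -/
def ZS (T : ℝ) : Finset ℂ := (H370.Zf riemannZeta T (2 * T)).filter (fun s => s.re = 1 / 2 ∧ mz s = 1)

/-- SUPC. Prove `S_SAMP → S_DPM → S_SUPC`. PROOF. Take `θ` from S_SAMP for a small `ε₀` (for instance `1/100`; `2 - cMTinv ≥ 1/2` by
`H370.cMTinv_lt`). `N = 1` of S_SAMP, `b = 1` (`dp 1 1 t = 1`, `N2 = 1`) gives `0 < #ZS T ≤ 2 (L/2π) T`, `L = log T`; this settles the cases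
`N ≤ 1`. For `N ≥ 2` put `k = ⌊θ L / log N⌋₊`, so `N ^ k ≤ T ^ θ`, and `c` = the `k`-th convolution power of `b` restricted to `[1, N]`, so
`dp N b t ^ k = dp (N ^ k) c t` (S_DPM) and `(∑ b_n χ(n) n^{-1/2})^k = ∑ c_n χ(n) n^{-1/2}`. The numbers `n` with `c_n ≠ 0` have only prime
factors `≤ N` and are `≤ N ^ k`, so there are at most `D = (2 k log N + 2)^(N + 1)` of them (inject into exponent vectors). Cauchy-Schwarz:
`|∑ b_n χ(n) n^{-1/2}|^{2k} ≤ D · N2 (N^k) c`. First part of S_SAMP: `(1/3) (L/2π) T N2 (N^k) c ≤ ∑_{ZS} |dp N b γ|^{2k} ≤ 2 (L/2π) T max^{2k}`.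
So `max^{2k} ≥ |∑ b_n χ(n) n^{-1/2}|^{2k} / (6D)` and `(6D)^{1/(2k)} ≤ e^{ε} ≤ 1/(1-ε)` because `k ≥ θL/(2 log N) ≥ θ L / (2 log L)` and
`log (6D) ≤ 4 N log L + 2 ≤ 2 k ε` for `κ = θ / 8` and large `T` (`N ≤ L`). -/
def S_SUPC : Prop := ∃ κ : ℝ, 0 < κ ∧ ∀ᶠ T : ℝ in atTop, ∀ (N : ℕ) (ε : ℝ), 0 < ε → ε < 1 →
  N * Real.log (Real.log T) ^ 2 ≤ κ * ε * Real.log T → ∀ (b : ℕ → ℂ) (χ : ℕ → ℂ), χ 1 = 1 → (∀ m n, χ (m * n) = χ m * χ n) →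
    (∀ n, ‖χ n‖ ≤ 1) → ∃ s ∈ ZS T, (1 - ε) * ‖∑ n ∈ Finset.Icc 1 N, b n * χ n / (Real.sqrt n : ℂ)‖ ≤ ‖dp N b s.im‖

def J_SUPC : Prop := S_SAMP → S_DPM → S_SUPC

/-- KRO: Kronecker's theorem at the simple critical zeros. Prove `S_SUPC → S_KRO`. PROOF. `P = 0, 1`: only existence of a zero. Put
`b 1 = 1`, `b p = √p z_p` for primes `p ≤ P`, `b n = 0` otherwise, `χ` completely multiplicative with `χ(p) = conj z_p` (for instance by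
`Nat.factorization`, `χ 0 = 0`), `r` = number of primes `≤ P`. `∑ b_n χ(n) n^{-1/2} = r + 1`, `dp P b γ = w
w = 1 + ∑_p z_p p^{-iγ}` (`(p:ℂ)^{-(1/2+iγ)} √p = p^{-iγ}`). S_SUPC with `ε' = ε²/(8(r+1))` gives `|w| ≥ (1 - ε')(r + 1)`. With
`w = |w| e^{iφ}` and the unimodular terms `u_j` of `w`: `∑ (1 - Re (u_j e^{-iφ})) ≤ ε'(r+1)`, every term is `≥ 0`, so
`|u_j - e^{iφ}|² = 2(1 - Re (u_j e^{-iφ})) ≤ 2 ε'(r+1) = ε²/4` for all `j`, also for `u = 1`, so `|z_p p^{-iγ} - 1| ≤ ε` and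
`|p^{iγ} - z_p| ≤ ε`. The condition of S_SUPC: `P (log log T)² ≤ κ₀ ε' log T` follows from `r + 1 ≤ 2P`, `κ² = κ₀ ε²/16`. -/
def S_KRO : Prop := ∀ ε : ℝ, 0 < ε → ε ≤ 1 → ∃ κ : ℝ, 0 < κ ∧ ∀ᶠ T : ℝ in atTop, ∀ P : ℕ,
  P * Real.log (Real.log T) ≤ κ * Real.sqrt (Real.log T) → ∀ z : ℕ → ℂ, (∀ p, ‖z p‖ = 1) →
    ∃ s ∈ ZS T, ∀ p : ℕ, p.Prime → p ≤ P → ‖(p : ℂ) ^ (s.im * I) - z p‖ ≤ ε

def J_KRO : Prop := S_SUPC → S_KRO

end

end Pool.Agent.Q97.UM
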