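import Pool.Agent.Q97.UM.Stm6

set_option autoImplicit false

/-!
Project UM2 (helper97), sums over zeros: density theorem and clusters relative to every Dirichlet polynomial. Inputs, all proved:
`b_TAIL` (Q97/UM/Base2.lean: `TailB θ c C` for some constants), `b_ED : S_ED` (Q97/UM/Base3.lean; it gives `EDB`), `Pool.Agent.Q84.UM.t_DPM`,
`Pool.Agent.Q84.UM.t_MVL`, `Pool.Agent.Q178.UM.ZF2.t_ZF2`. Model for the passage from windows to zeros: `Pool.Agent.Q61.UM.t_SAMP`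
(files Q61/UM/SAMPa, SAMPb, SAMP).
-/

namespace Pool.Agent.Q97.UM

open Filter Topology MeasureTheory Complex

noncomputable section

open Classical in
/-- DENS: Selberg's density theorem relative to every Dirichlet polynomial. Prove `J_DENS`. PROOF. `L = log T`, `A = (σ - 1/2) L`, `r = 1/L`.
For a zero with ordinate `γ`: `|B(γ)|² ≤ (1/(2r)) ∫_{|t-γ| ≤ r} |B(t)|² dt + 2 ∫_{|t-γ| ≤ r} |B(t) B'(t)| dt`, `|B'| = |dp N b'|`, `b'_n = b_n log n`,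
`N2 N b' ≤ L² N2 N b`. Sum over the zeros with `β ≥ σ`: `≤ (L/2) ∫ cz(t; 1/L; A/L) |B|² dt + 2 ∫ cz(t; 1/L; A/L) |B B'| dt` over
`t ∈ [T - r, 2T + r]`, Cauchy-Schwarz, EDB (at `X = 0` and at `X = ± r` after a shift of the polynomial, or cover `[T - r, 2T + r]` by the
three intervals `[T, 2T] + X`, `X ∈ {-r, 0, r}`): at most `C' L e^{-cA} T N2`. (`1 ≥ σ > 1/2`; for `σ = 1/2` the same with `A = 0`.) -/
def S_DENS : Prop := ∃ θ c C : ℝ, 0 < θ ∧ θ ≤ 1 / 40 ∧ 0 < c ∧ 0 ≤ C ∧ ∀ᶠ T : ℝ in atTop, ∀ N : ℕ, (N : ℝ) ≤ T ^ θ → ∀ (b : ℕ → ℂ) (σ : ℝ),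
  1 / 2 ≤ σ → ∑ s ∈ (H370.Zf riemannZeta T (2 * T)).filter (fun s => σ ≤ s.re), (mz s : ℝ) * ‖dp N b s.im‖ ^ 2 ≤
    C * T ^ (-(c * (σ - 1 / 2))) * Real.log T * (T * N2 N b)

def J_DENS : Prop := S_DPM → (∃ θ c C : ℝ, 0 < θ ∧ θ ≤ 1 / 4 ∧ 0 < c ∧ 0 ≤ C ∧ EDB θ c C) → S_DENS

open Classical in
/-- CLU: clusters and multiplicities. Prove `J_CLU`. PROOF. If at least `k` zeros (with multiplicity) have ordinates within `1/L` of `γ`, then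
`nz t (2/L) ≥ k` for all `t` with `|t - γ| ≤ 1/L`. As in S_DENS the sum is at most
`(L/2) ∫ nz(t, 1/L) [nz(t, 2/L) ≥ k] |B|² + 2 ∫ nz(t, 1/L) [nz(t, 2/L) ≥ k] |B B'|`, and
`∫ nz(t, 2/L) [nz(t, 2/L) ≥ k] |B|² ≤ C' e^{-c'k} T N2`: cover the window of radius `2/L` by five windows of radius `1/log(4T)`, so one of them
has at least `nz(t, 2/L)/5` zeros; shift (S_DPM), cover `[T/2, 4T]` by dyadic intervals, and use the second part of `TailB` with the sum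
`∑_{j ≥ k} j e^{-cj/5}` (same technique as `Q210/UM/Wnd.lean`, `Q222/UM/ED.lean`, `Q153/UM/ED2.lean`). -/
def S_CLU : Prop := ∃ θ c C : ℝ, 0 < θ ∧ θ ≤ 1 / 40 ∧ 0 < c ∧ 0 ≤ C ∧ ∀ᶠ T : ℝ in atTop, ∀ N : ℕ, (N : ℝ) ≤ T ^ θ → ∀ (b : ℕ → ℂ) (k : ℕ),
  ∑ s ∈ (H370.Zf riemannZeta T (2 * T)).filter (fun s => k ≤ nz s.im (1 / Real.log T)), (mz s : ℝ) * ‖dp N b s.im‖ ^ 2 ≤
    C * Real.exp (-(c * k)) * Real.log T * (T * N2 N b)

def J_CLU : Prop := S_DPM → S_MVL → S_ZF2 → (∃ θ c C : ℝ, 0 < θ ∧ θ ≤ 1 / 4 ∧ 0 < c ∧ 0 ≤ C ∧ TailB θ c C) → S_CLU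

end

end Pool.Agent.Q97.UM
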