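import Pool.Agent.Q97.UM.Base7
import Pool.Agent.Q97.UM.Base5

set_option autoImplicit false

/-! Project UM5: large values and Kronecker's theorem at the points of a set that carries a positive proportion of every Dirichlet
polynomial (after Q204/UM/SUPC.lean of helper204 and Q150/UM/KRO.lean of helper150). -/

namespace Pool.Agent.Q97.UM

open Filter Topology MeasureTheory Complex Pool.Agent.Q204.UM Pool.Agent.Q150.UM
open scoped ComplexConjugate

noncomputable section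

/-- large values of short Dirichlet polynomials at the points of a set that carries a positive proportion of every polynomial -/
theorem sup_gen (W : ℝ → Finset ℂ) (hS : ∃ θ : ℝ, 0 < θ ∧ ∀ᶠ T : ℝ in atTop, ((W T).card : ℝ) ≤ 2 * (Real.log T / (2 * Real.pi) * T) ∧
    ∀ N : ℕ, (N : ℝ) ≤ T ^ θ → ∀ b : ℕ → ℂ, (1 / 3) * (Real.log T / (2 * Real.pi)) * (T * N2 N b) ≤ ∑ s ∈ W T, ‖dp N b s.im‖ ^ 2) :
    ∃ κ : ℝ, 0 < κ ∧ ∀ᶠ T : ℝ in atTop, ∀ (N : ℕ) (ε : ℝ), 0 < ε → ε < 1 →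
  N * Real.log (Real.log T) ^ 2 ≤ κ * ε * Real.log T → ∀ (b : ℕ → ℂ) (χ : ℕ → ℂ), χ 1 = 1 → (∀ m n, χ (m * n) = χ m * χ n) →
    (∀ n, ‖χ n‖ ≤ 1) → ∃ s ∈ W T, (1 - ε) * ‖∑ n ∈ Finset.Icc 1 N, b n * χ n / (Real.sqrt n : ℂ)‖ ≤ ‖dp N b s.im‖ := by
  obtain ⟨θ', hθ', hev'⟩ := hS
  obtain ⟨θ, hθd⟩ : ∃ θ : ℝ, θ = min θ' (1 / 40) := ⟨_, rfl⟩
  have hθ : 0 < θ := by rw [hθd]; positivity
  have hθ2 : θ ≤ 1 / 40 := by rw [hθd]; exact min_le_right _ _
  have hev : ∀ᶠ T : ℝ in atTop, ((W T).card : ℝ) ≤ 2 * (Real.log T / (2 * Real.pi) * T) ∧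
    ∀ N : ℕ, (N : ℝ) ≤ T ^ θ → ∀ b : ℕ → ℂ, (1 / 3) * (Real.log T / (2 * Real.pi)) * (T * N2 N b) ≤ ∑ s ∈ W T, ‖dp N b s.im‖ ^ 2 := by
    filter_upwards [hev', eventually_ge_atTop (1 : ℝ)] with T h1 hT1
    refine ⟨h1.1, fun N hN b => h1.2 N (hN.trans (Real.rpow_le_rpow_of_exponent_le hT1 ?_)) b⟩
    rw [hθd]; exact min_le_left _ _
  refine ⟨θ / 4, by positivity, ?_⟩
  filter_upwards [hev, large θ hθ] with T hT hlg
  obtain ⟨hLL, hT0, hL2, hL4, hL⟩ := hlg
  intro N ε hε hε1 hNε b χ hχ1 hχm hχb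
  set L := Real.log T with hLd
  set ℓ := Real.log L with hld
  have hpi := Real.pi_gt_three
  have hpi4 := Real.pi_lt_four
  have hU : 0 < L / (2 * Real.pi) := by positivity
  -- the number of zeros
  have hT1 : 1 < T := by
    by_contra h
    exact absurd (Real.log_nonpos hT0.le (by linarith)) (by linarith)
  have hT2 : ((1 : ℕ) : ℝ) ≤ T ^ θ := by
    rw [Nat.cast_one]
    exact Real.one_le_rpow hT1.le hθ.le
  obtain ⟨hcu, hT⟩ := hT
  have hN21 : N2 1 (fun _ => (1 : ℂ)) = 1 := by simp [N2]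
  have hne : (W T).Nonempty := by
    by_contra h0
    rw [Finset.not_nonempty_iff_eq_empty] at h0
    have h1 := hT 1 hT2 (fun _ => 1)
    rw [h0, Finset.sum_empty, hN21] at h1
    have : 0 < (1 / 3) * (L / (2 * Real.pi)) * (T * 1) := by positivity
    linarith
  -- the maximum
  obtain ⟨s₀, hs₀, hmax⟩ := Finset.exists_max_image (W T) (fun s => ‖dp N b s.im‖) hne
  refine ⟨s₀, hs₀, ?_⟩
  set M := ‖dp N b s₀.im‖ with hM
  set X := ‖∑ n ∈ Finset.Icc 1 N, b n * χ n / (Real.sqrt n : ℂ)‖ with hX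
  rcases Nat.lt_or_ge N 2 with hN | hN
  · interval_cases N
    · have : X = 0 := by simp [hX]
      rw [this, mul_zero]
      exact norm_nonneg _
    · have h1 : X = ‖b 1‖ := by simp [hX, hχ1]
      have h2 : M = ‖b 1‖ := by simp [hM, dp]
      rw [h1, h2]
      nlinarith [norm_nonneg (b 1)]
  by_contra hcon
  rw [not_le] at hcon
  have hM0 : 0 ≤ M := norm_nonneg _
  have hX0 : 0 < X := by
    by_contra h
    have : X = 0 := le_antisymm (not_lt.mp h) (norm_nonneg _)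
    rw [this, mul_zero] at hcon
    linarith
  have hNr : (2 : ℝ) ≤ N := by exact_mod_cast hN
  have hlN : 0 < Real.log N := Real.log_pos (by linarith)
  have hlN2 : 1 / 2 ≤ Real.log N := by
    have h1 : Real.log 2 ≤ Real.log N := Real.log_le_log (by norm_num) hNr
    have := Real.log_two_gt_d9
    linarith
  have hNL : (N : ℝ) ≤ L := by
    have h1 : (N : ℝ) * 1 ≤ N * ℓ ^ 2 := mul_le_mul_of_nonneg_left (by nlinarith) (Nat.cast_nonneg _)
    have h2 : θ / 4 * ε * L ≤ 1 * L := mul_le_mul_of_nonneg_right (by nlinarith) hL.le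
    linarith
  have hlNl : Real.log N ≤ ℓ := Real.log_le_log (by linarith) hNL
  set k := ⌊θ * L / Real.log N⌋₊ with hk
  have hkle : (k : ℝ) ≤ θ * L / Real.log N := Nat.floor_le (by positivity)
  have hkge : θ * L / Real.log N < k + 1 := Nat.lt_floor_add_one _
  have hq2 : 2 ≤ θ * L / Real.log N := by
    rw [le_div_iff₀ hlN]
    linarith
  have hk2 : θ * L / (2 * ℓ) ≤ k := by
    have h1 : θ * L / (2 * ℓ) ≤ (θ * L / Real.log N) / 2 := by
      rw [div_div]
      refine div_le_div_of_nonneg_left (by positivity) (by positivity) ?_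
      linarith
    linarith
  have hk0 : (1 : ℝ) < k + 1 := by
    have : (0:ℝ) < k := lt_of_lt_of_le (by positivity) hk2
    linarith
  have hkpos : 0 < k := by
    have : (0:ℝ) < k := by linarith
    exact_mod_cast this
  have hkL : (k : ℝ) + 1 ≤ L := by
    have h1 : θ * L / Real.log N ≤ 2 * L / 4 := by
      rw [div_le_iff₀ hlN]
      nlinarith
    linarith
  -- apply the sampling theorem to the k-th power
  have hNk : ((N ^ k : ℕ) : ℝ) ≤ T ^ θ := by
    rw [Nat.cast_pow, ← Real.log_le_log_iff (by positivity) (by positivity), Real.log_pow, Real.log_rpow hT0]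
    rw [le_div_iff₀ hlN] at hkle
    exact hkle
  have hA := hT (N ^ k) hNk (cp (rs N b) k)
  set Q := N2 (N ^ k) (cp (rs N b) k) with hQ
  have hQ0 : 0 ≤ Q := Finset.sum_nonneg fun n _ => by positivity
  have hup : ∑ s ∈ W T,
      ‖dp (N ^ k) (cp (rs N b) k) s.im‖ ^ 2 ≤ ((W T).card : ℝ) * (M ^ k) ^ 2 := by
    rw [← nsmul_eq_mul]
    refine le_trans (le_of_eq ?_) (Finset.sum_le_card_nsmul (W T) (fun s => ‖dp (N ^ k) (cp (rs N b) k) s.im‖ ^ 2) _ fun s hs => ?_)
    · rfl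
    · rw [← dp_pow N k b, norm_pow]
      exact pow_le_pow_left₀ (by positivity) (pow_le_pow_left₀ (norm_nonneg _) (hmax s hs) k) 2
  have hQM : Q ≤ 6 * (M ^ k) ^ 2 := by
    have h1 : (1 / 3) * (L / (2 * Real.pi)) * (T * Q) ≤ 2 * (L / (2 * Real.pi) * T) * (M ^ k) ^ 2 := by
      refine le_trans ?_ (le_trans hA (le_trans hup (mul_le_mul_of_nonneg_right hcu (by positivity))))
      refine mul_le_mul_of_nonneg_right (mul_le_mul_of_nonneg_right (by linarith) hU.le) (by positivity)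
    have h2 : 0 < (L / (2 * Real.pi)) * T := by positivity
    have h3 : (L / (2 * Real.pi)) * T * Q ≤ (L / (2 * Real.pi)) * T * (6 * (M ^ k) ^ 2) := by linarith
    exact le_of_mul_le_mul_left h3 h2
  have hcs := cs N k b χ hχ1 hχm hχb
  rw [← hX] at hcs
  -- conclusion
  have hk1 : (1 : ℝ) ≤ ((k + 1 : ℕ) : ℝ) ^ N := one_le_pow₀ (by push_cast; linarith)
  have hfin : (X ^ k) ^ 2 ≤ ((k + 1 : ℕ) : ℝ) ^ N * (6 * (((1 - ε) * X) ^ k) ^ 2) := by
    refine hcs.trans (mul_le_mul_of_nonneg_left (hQM.trans ?_) (by positivity))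
    have : M ^ k ≤ ((1 - ε) * X) ^ k := pow_le_pow_left₀ hM0 hcon.le k
    have h0 : 0 ≤ M ^ k := by positivity
    nlinarith
  have hfin2 : 1 ≤ ((k + 1 : ℕ) : ℝ) ^ N * 6 * (1 - ε) ^ (2 * k) := by
    have h1 : 0 < (X ^ k) ^ 2 := by positivity
    have h2 : ((k + 1 : ℕ) : ℝ) ^ N * (6 * (((1 - ε) * X) ^ k) ^ 2) =
        (((k + 1 : ℕ) : ℝ) ^ N * 6 * (1 - ε) ^ (2 * k)) * (X ^ k) ^ 2 := by
      rw [mul_pow, mul_pow, mul_comm 2 k, pow_mul]
      ring
    rw [h2] at hfin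
    by_contra h3
    rw [not_le] at h3
    have := mul_lt_mul_of_pos_right h3 h1
    linarith
  have h1ε : 0 < 1 - ε := by linarith
  have hlog := Real.log_le_log (by norm_num) hfin2
  have hke1 : (0:ℝ) < ((k + 1 : ℕ) : ℝ) := by positivity
  rw [Real.log_one, Real.log_mul (by positivity) (by positivity), Real.log_mul (by positivity) (by norm_num), Real.log_pow,
    Real.log_pow] at hlog
  have hl1 : Real.log (1 - ε) ≤ -ε := by
    have := Real.log_le_sub_one_of_pos h1ε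
    linarith
  have hl2 : Real.log ((k + 1 : ℕ) : ℝ) ≤ ℓ := by
    refine Real.log_le_log hke1 ?_
    push_cast
    linarith
  have hl3 : Real.log 6 < 2 := by
    have h1 : Real.log 6 < Real.log (Real.exp 2) := by
      refine Real.log_lt_log (by norm_num) ?_
      have : Real.exp 2 = Real.exp 1 * Real.exp 1 := by rw [← Real.exp_add]; norm_num
      rw [this]
      have := Real.exp_one_gt_d9
      nlinarith
    rwa [Real.log_exp] at h1
  have hl4 : (N : ℝ) * Real.log ((k + 1 : ℕ) : ℝ) ≤ N * ℓ := mul_le_mul_of_nonneg_left hl2 (Nat.cast_nonneg _)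
  have hkl : θ * L ≤ 2 * (k * ℓ) := by
    rw [div_le_iff₀ (by positivity)] at hk2
    linarith
  have hl5 : N * ℓ ≤ k * ε / 2 := by
    have h1 : (N * ℓ) * ℓ ≤ (k * ε / 2) * ℓ := by
      have : θ / 4 * ε * L ≤ ε * (2 * (k * ℓ)) / 4 := by
        have := mul_le_mul_of_nonneg_left hkl hε.le
        linarith
      nlinarith
    exact le_of_mul_le_mul_right h1 (by linarith)
  have hl6 : (4 : ℝ) ≤ k * ε := by
    have : 2 * 1 ≤ (N : ℝ) * ℓ := mul_le_mul hNr hLL (by norm_num) (by positivity)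
    linarith
  have hl7 : ((2 * k : ℕ) : ℝ) * Real.log (1 - ε) ≤ -(2 * (k * ε)) := by
    push_cast
    have := mul_le_mul_of_nonneg_left hl1 (show (0:ℝ) ≤ 2 * k by positivity)
    linarith
  linarith


/-- Kronecker's theorem at the points of such a set -/
theorem kro_gen (W : ℝ → Finset ℂ) (hS : ∃ κ : ℝ, 0 < κ ∧ ∀ᶠ T : ℝ in atTop, ∀ (N : ℕ) (ε : ℝ), 0 < ε → ε < 1 →
  N * Real.log (Real.log T) ^ 2 ≤ κ * ε * Real.log T → ∀ (b : ℕ → ℂ) (χ : ℕ → ℂ), χ 1 = 1 → (∀ m n, χ (m * n) = χ m * χ n) →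
    (∀ n, ‖χ n‖ ≤ 1) → ∃ s ∈ W T, (1 - ε) * ‖∑ n ∈ Finset.Icc 1 N, b n * χ n / (Real.sqrt n : ℂ)‖ ≤ ‖dp N b s.im‖)
    (ε : ℝ) (hε : 0 < ε) (hε1 : ε ≤ 1) : ∃ κ : ℝ, 0 < κ ∧ ∀ᶠ T : ℝ in atTop, ∀ P : ℕ,
  P * Real.log (Real.log T) ≤ κ * Real.sqrt (Real.log T) → ∀ z : ℕ → ℂ, (∀ p, ‖z p‖ = 1) →
    ∃ s ∈ W T, ∀ p : ℕ, p.Prime → p ≤ P → ‖(p : ℂ) ^ (s.im * I) - z p‖ ≤ ε := by
  classical
  obtain ⟨κ0, hκ0, hev⟩ := hS
  refine ⟨Real.sqrt (κ0 * ε ^ 2 / 16), by positivity, ?_⟩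
  have hLL : ∀ᶠ T : ℝ in atTop, 1 ≤ Real.log (Real.log T) :=
    (Real.tendsto_log_atTop.comp Real.tendsto_log_atTop).eventually_ge_atTop 1
  have hL : ∀ᶠ T : ℝ in atTop, 1 ≤ Real.log T := Real.tendsto_log_atTop.eventually_ge_atTop 1
  filter_upwards [hev, hLL, hL] with T hT hT1 hT2 P hP z hz
  rcases Nat.eq_zero_or_pos P with rfl | hP0
  · obtain ⟨s, hs, -⟩ := hT 0 (1 / 2) (by norm_num) (by norm_num)
      (by rw [Nat.cast_zero, zero_mul]; positivity) (fun _ => 0)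
      (chi z) (chi_one z) (chi_mul z) (chi_norm hz)
    exact ⟨s, hs, fun p hp hp0 => absurd (Nat.le_zero.1 hp0) hp.ne_zero⟩
  · let S : Finset ℕ := (Finset.Icc 1 P).filter fun n => n = 1 ∨ n.Prime
    have h1S : 1 ∈ S := Finset.mem_filter.2 ⟨Finset.mem_Icc.2 ⟨le_rfl, hP0⟩, Or.inl rfl⟩
    have hScard : (1:ℝ) ≤ S.card := by
      exact_mod_cast Finset.card_pos.2 ⟨1, h1S⟩
    have hScard2 : (S.card : ℝ) ≤ P := by
      have : S.card ≤ P := by
        calc S.card ≤ (Finset.Icc 1 P).card := Finset.card_filter_le _ _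
          _ = P := by simp
      exact_mod_cast this
    set δ : ℝ := ε ^ 2 / (8 * S.card) with hδ
    have hδ0 : 0 < δ := by positivity
    have hδS : δ * S.card = ε ^ 2 / 8 := by rw [hδ]; field_simp
    have hδ1 : δ < 1 := by
      have : δ ≤ δ * S.card := le_mul_of_one_le_right hδ0.le hScard
      rw [hδS] at this
      nlinarith
    -- the size condition
    have hcond : (P : ℝ) * Real.log (Real.log T) ^ 2 ≤ κ0 * δ * Real.log T := by
      have h2 : ((P : ℝ) * Real.log (Real.log T)) ^ 2 ≤ κ0 * ε ^ 2 / 16 * Real.log T := by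
        have h3 := pow_le_pow_left₀ (by positivity) hP 2
        rw [mul_pow (Real.sqrt _), Real.sq_sqrt (by positivity), Real.sq_sqrt (by positivity)] at h3
        exact h3
      have h4 : κ0 * δ * Real.log T = κ0 * ε ^ 2 * Real.log T / (8 * S.card) := by
        rw [hδ]; ring
      rw [h4, le_div_iff₀ (by positivity)]
      have h5 : (P : ℝ) * Real.log (Real.log T) ^ 2 * (8 * S.card) ≤
          (P : ℝ) * Real.log (Real.log T) ^ 2 * (8 * P) :=
        mul_le_mul_of_nonneg_left (by linarith) (by positivity)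
      have h6 : 0 ≤ κ0 * ε ^ 2 * Real.log T := by positivity
      nlinarith
    obtain ⟨s, hs, hsw⟩ := hT P δ hδ0 hδ1 hcond (bb z) (chi z) (chi_one z) (chi_mul z)
      (chi_norm hz)
    refine ⟨s, hs, fun p hp hpP => ?_⟩
    -- the two sums
    have hsum1 : ∑ n ∈ Finset.Icc 1 P, bb z n * chi z n / (Real.sqrt n : ℂ) = (S.card : ℂ) := by
      rw [Finset.card_eq_sum_ones, Nat.cast_sum, Finset.sum_filter]
      refine Finset.sum_congr rfl fun n hn => ?_
      by_cases h1 : n = 1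
      · subst h1
        simp [bb, chi_one]
      · by_cases h2 : n.Prime
        · rw [if_pos (Or.inr h2), chi_prime z h2, bb, if_neg h1, if_pos h2]
          have h3 : (Real.sqrt n : ℂ) ≠ 0 := by
            have : 0 < (n:ℝ) := by exact_mod_cast h2.pos
            exact_mod_cast (Real.sqrt_pos.2 this).ne'
          have h4 : z n * conj (z n) = 1 := by
            rw [Complex.mul_conj, Complex.normSq_eq_norm_sq, hz]; simp
          rw [mul_assoc, h4, mul_one, div_self h3]; simp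
        · rw [if_neg (by tauto), bb, if_neg h1, if_neg h2]; simp
    have hsum2 : dp P (bb z) s.im = ∑ n ∈ S, uu z s.im n := by
      unfold dp
      rw [Finset.sum_filter]
      refine Finset.sum_congr rfl fun n hn => ?_
      by_cases h12 : n = 1 ∨ n.Prime
      · rw [if_pos h12, bb_term z h12]
      · rw [if_neg h12]
        push Not at h12
        rw [bb, if_neg h12.1, if_neg h12.2, zero_mul]
    rw [hsum1, hsum2, Complex.norm_natCast] at hsw
    have hun : ∀ n ∈ S, ‖uu z s.im n‖ = 1 := by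
      intro n hn
      simp only [S, Finset.mem_filter, Finset.mem_Icc] at hn
      unfold uu
      split_ifs with h
      · simp
      · rw [norm_mul, hz, norm_pI' (by omega), one_mul]
    obtain ⟨ω, hω⟩ := aligned S (uu z s.im) hun hsw
    have hpS : p ∈ S := by
      simp only [S, Finset.mem_filter, Finset.mem_Icc]
      exact ⟨⟨hp.one_lt.le, hpP⟩, Or.inr hp⟩
    have hhalf : ∀ n ∈ S, ‖uu z s.im n - ω‖ ≤ ε / 2 := by
      intro n hn
      have h1 := hω n hn
      rw [hδS] at h1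
      apply le_of_sq_le_sq _ (by positivity)
      nlinarith
    have hu1 : uu z s.im 1 = 1 := by simp [uu]
    have hup : uu z s.im p = z p * (p : ℂ) ^ (-(s.im * I)) := by
      unfold uu; rw [if_neg hp.ne_one]
    have h1 := hhalf 1 h1S
    have h2 := hhalf p hpS
    rw [hu1] at h1
    rw [hup] at h2
    have h3 : ‖1 - z p * (p : ℂ) ^ (-(s.im * I))‖ ≤ ε := by
      calc ‖1 - z p * (p : ℂ) ^ (-(s.im * I))‖ =
          ‖(1 - ω) - (z p * (p : ℂ) ^ (-(s.im * I)) - ω)‖ := by congr 1; ring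
        _ ≤ ‖1 - ω‖ + ‖z p * (p : ℂ) ^ (-(s.im * I)) - ω‖ := norm_sub_le _ _
        _ ≤ ε / 2 + ε / 2 := add_le_add h1 h2
        _ = ε := by ring
    have h0 : (p : ℂ) ≠ 0 := by exact_mod_cast hp.ne_zero
    have h4 : (p : ℂ) ^ (s.im * I) - z p = (p : ℂ) ^ (s.im * I) *
        (1 - z p * (p : ℂ) ^ (-(s.im * I))) := by
      have h5 : (p : ℂ) ^ (s.im * I) * (p : ℂ) ^ (-(s.im * I)) = 1 := by
        rw [← Complex.cpow_add _ _ h0]; simp
      calc (p : ℂ) ^ (s.im * I) - z p = (p : ℂ) ^ (s.im * I) -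
          z p * ((p : ℂ) ^ (s.im * I) * (p : ℂ) ^ (-(s.im * I))) := by rw [h5, mul_one]
        _ = _ := by ring
    rw [h4, norm_mul, norm_pI hp.pos, one_mul]
    exact h3


end

end Pool.Agent.Q97.UM
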