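import Pool.Agent.Q97.UM.Wa

set_option autoImplicit false

/-! Project UM2: the inequality `S_DET` integrated against a continuous weight. -/

namespace Pool.Agent.Q97.UM

open Filter Topology MeasureTheory Complex
open scoped ComplexConjugate

/-- Fubini for the pair sum -/
lemma swap_pair {δ H C : ℝ} {K : ℕ} {w : ℝ → ℝ} (h : OmW δ H C K w) (hδ : 0 < δ) {R V : ℝ → ℝ} (hR : Continuous R)
    (hV : Continuous V) (T a x y : ℝ) :
    ∫ t in x..y, (2 * ∫ α in (0 : ℝ)..1, R α * ‖Zt w T (a * α) t‖ ^ 2) * V t =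
      2 * ∫ α in (0 : ℝ)..1, R α * ∫ t in x..y, ‖Zt w T (a * α) t‖ ^ 2 * V t := by
  have hc := Zt_cont h hδ T a
  have hF : Continuous (fun p : ℝ × ℝ => R p.1 * (‖Zt w T (a * p.1) p.2‖ ^ 2 * V p.2)) :=
    (hR.comp continuous_fst).mul ((hc.norm.pow 2).mul (hV.comp continuous_snd))
  have e1 : ∀ t : ℝ, (2 * ∫ α in (0 : ℝ)..1, R α * ‖Zt w T (a * α) t‖ ^ 2) * V t =
      2 * ∫ α in (0 : ℝ)..1, R α * (‖Zt w T (a * α) t‖ ^ 2 * V t) := by
    intro t
    rw [mul_assoc, ← intervalIntegral.integral_mul_const]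
    congr 1
    refine intervalIntegral.integral_congr fun α _ => ?_
    ring
  rw [intervalIntegral.integral_congr (fun t _ => e1 t), intervalIntegral.integral_const_mul]
  congr 1
  rw [intervalIntegral_intervalIntegral_swap (F := fun t α => R α * (‖Zt w T (a * α) t‖ ^ 2 * V t))]
  · refine intervalIntegral.integral_congr fun α _ => ?_
    exact intervalIntegral.integral_const_mul _ _
  · have h2 : Continuous (Function.uncurry fun (t α : ℝ) => R α * (‖Zt w T (a * α) t‖ ^ 2 * V t)) :=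
      hF.comp (continuous_snd.prodMk continuous_fst)
    exact (h2.continuousOn.integrableOn_compact (isCompact_uIcc.prod isCompact_uIcc)).mono_set
      (Set.prod_mono Set.uIoc_subset_uIcc Set.uIoc_subset_uIcc)

/-- the integrated inequality -/
lemma core_int {δ H C : ℝ} {K : ℕ} {w : ℝ → ℝ} (h : OmW δ H C K w) (hδ : 0 < δ) (hH : 1 ≤ H) {R V : ℝ → ℝ}
    (hR : Continuous R) (hV : Continuous V) (hV0 : ∀ t, 0 ≤ V t) {T lam x y : ℝ} (hxy : x ≤ y)
    (hdet : ∀ t : ℝ, x ≤ t → t ≤ y →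
      2 * Nw T (H / Real.log T) t - Nsw T (H / Real.log T) t ≤
        2 * (∫ α in (0 : ℝ)..1, R α * ‖Zt w T (lam * Real.log T * α) t‖ ^ 2) + 100 * C ^ 2 * ErrS δ H K T t ∧
      3 * Nw T (H / Real.log T) t - 2 * Ndw T (H / Real.log T) t ≤
        2 * (∫ α in (0 : ℝ)..1, R α * ‖Zt w T (lam * Real.log T * α) t‖ ^ 2) + 100 * C ^ 2 * ErrS δ H K T t ∧
      |Nw T (H / Real.log T) t - (Zt w T 0 t).re| ≤ 100 * C ^ 2 * ErrS δ H K T t) :
    2 * (∫ t in x..y, Nw T (H / Real.log T) t * V t) - ∫ t in x..y, Nsw T (H / Real.log T) t * V t ≤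
        2 * (∫ α in (0 : ℝ)..1, R α * ∫ t in x..y, ‖Zt w T (lam * Real.log T * α) t‖ ^ 2 * V t) +
          100 * C ^ 2 * ∫ t in x..y, ErrS δ H K T t * V t ∧
    3 * (∫ t in x..y, Nw T (H / Real.log T) t * V t) - 2 * ∫ t in x..y, Ndw T (H / Real.log T) t * V t ≤
        2 * (∫ α in (0 : ℝ)..1, R α * ∫ t in x..y, ‖Zt w T (lam * Real.log T * α) t‖ ^ 2 * V t) +
          100 * C ^ 2 * ∫ t in x..y, ErrS δ H K T t * V t ∧
    |(∫ t in x..y, Nw T (H / Real.log T) t * V t) - ∫ t in x..y, (Zt w T 0 t).re * V t| ≤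
      100 * C ^ 2 * ∫ t in x..y, ErrS δ H K T t * V t := by
  set r := H / Real.log T with hr
  obtain ⟨mN, B1, bN⟩ := Nw_meas T r
  obtain ⟨mS, B2, bS⟩ := Nsw_meas T r
  obtain ⟨mD, B3, bD⟩ := Ndw_meas T r
  obtain ⟨mE, ⟨B4, bE⟩, eE⟩ := ErrS_meas (δ := δ) hH K T
  have iN := ii_mul mN bN hV x y
  have iS := ii_mul mS bS hV x y
  have iD := ii_mul mD bD hV x y
  have iE := ii_mul mE bE hV x y
  have hZ0 : Continuous (fun t : ℝ => Zt w T 0 t) := by
    have h1 := (Zt_cont h hδ T 0).comp (continuous_const.prodMk continuous_id : Continuous fun t : ℝ => ((0 : ℝ), t))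
    have e : (fun t : ℝ => Zt w T 0 t) = (fun p : ℝ × ℝ => Zt w T (0 * p.1) p.2) ∘ (fun t : ℝ => ((0 : ℝ), t)) := by
      funext t
      simp
    rw [e]
    exact h1
  have iZ : IntervalIntegrable (fun t => (Zt w T 0 t).re * V t) volume x y :=
    ((Complex.continuous_re.comp hZ0).mul hV).intervalIntegrable _ _
  have iP : IntervalIntegrable (fun t => (2 * ∫ α in (0 : ℝ)..1, R α * ‖Zt w T (lam * Real.log T * α) t‖ ^ 2) * V t) volume x y := by
    refine Continuous.intervalIntegrable ?_ _ _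
    refine Continuous.mul (continuous_const.mul ?_) hV
    refine intervalIntegral.continuous_parametric_intervalIntegral_of_continuous' ?_ _ _
    have hc := Zt_cont h hδ T (lam * Real.log T)
    exact (hR.comp continuous_snd).mul (((hc.comp (continuous_snd.prodMk continuous_fst)).norm).pow 2)
  have hsw := swap_pair h hδ hR hV T (lam * Real.log T) x y
  have gen : ∀ (f : ℝ → ℝ), IntervalIntegrable f volume x y →
      (∀ t, x ≤ t → t ≤ y → f t ≤ ((2 * ∫ α in (0 : ℝ)..1, R α * ‖Zt w T (lam * Real.log T * α) t‖ ^ 2) +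
        100 * C ^ 2 * ErrS δ H K T t) * V t) →
      ∫ t in x..y, f t ≤ 2 * (∫ α in (0 : ℝ)..1, R α * ∫ t in x..y, ‖Zt w T (lam * Real.log T * α) t‖ ^ 2 * V t) +
          100 * C ^ 2 * ∫ t in x..y, ErrS δ H K T t * V t := by
    intro f hf hle
    have h1 : ∫ t in x..y, f t ≤ ∫ t in x..y, ((2 * ∫ α in (0 : ℝ)..1, R α * ‖Zt w T (lam * Real.log T * α) t‖ ^ 2) * V t +
        100 * C ^ 2 * (ErrS δ H K T t * V t)) := by
      refine intervalIntegral.integral_mono_on hxy hf (iP.add (iE.const_mul _)) fun t ht => ?_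
      have := hle t ht.1 ht.2
      linarith
    rw [intervalIntegral.integral_add iP (iE.const_mul _), intervalIntegral.integral_const_mul, hsw] at h1
    exact h1
  refine ⟨?_, ?_, ?_⟩
  · have h1 := gen (fun t => 2 * (Nw T r t * V t) - Nsw T r t * V t) ((iN.const_mul 2).sub iS) (fun t h1 h2 => by
      have h3 := mul_le_mul_of_nonneg_right (hdet t h1 h2).1 (hV0 t)
      linarith)
    rw [intervalIntegral.integral_sub (iN.const_mul 2) iS, intervalIntegral.integral_const_mul] at h1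
    exact h1
  · have h1 := gen (fun t => 3 * (Nw T r t * V t) - 2 * (Ndw T r t * V t)) ((iN.const_mul 3).sub (iD.const_mul 2))
      (fun t h1 h2 => by
      have h3 := mul_le_mul_of_nonneg_right (hdet t h1 h2).2.1 (hV0 t)
      linarith)
    rw [intervalIntegral.integral_sub (iN.const_mul 3) (iD.const_mul 2), intervalIntegral.integral_const_mul,
      intervalIntegral.integral_const_mul] at h1
    exact h1
  · rw [← intervalIntegral.integral_sub iN iZ]
    refine (intervalIntegral.abs_integral_le_integral_abs hxy).trans ?_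
    rw [← intervalIntegral.integral_const_mul]
    refine intervalIntegral.integral_mono_on hxy ((iN.sub iZ).abs) (iE.const_mul _) fun t ht => ?_
    have h3 := mul_le_mul_of_nonneg_right (hdet t ht.1 ht.2).2.2 (hV0 t)
    rw [← sub_mul, abs_mul, abs_of_nonneg (hV0 t)]
    linarith

end Pool.Agent.Q97.UM
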