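import Pool.Agent.Q97.UM.Lh
import Pool.Agent.Q97.UM.Stm21
import Pool.Agent.Q224.UM.ABU

set_option autoImplicit false

/-! Project UM15: moments of general prime sums at the zeros. -/

namespace Pool.Agent.Q97.UM

open Filter Topology MeasureTheory Complex ProbabilityTheory

noncomputable section

theorem gpow_int (k : ℕ) (y : ℝ) : Integrable (fun x : ℝ => (y * x) ^ k) (gaussianReal 0 1) := by
  have : (fun x : ℝ => (y * x) ^ k) = fun x => y ^ k * x ^ k := by funext x; rw [mul_pow]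
  rw [this]
  exact (Pool.Agent.Q224.UM.integrable_pow_gauss k).const_mul _

theorem gpoly_int (q : Polynomial ℝ) (y : ℝ) : Integrable (fun x : ℝ => q.eval (y * x)) (gaussianReal 0 1) := by
  induction q using Polynomial.induction_on' with
  | add p q hp hq =>
    simp only [Polynomial.eval_add]
    exact hp.add hq
  | monomial n a =>
    simp only [Polynomial.eval_monomial]
    exact (gpow_int n y).const_mul _

theorem gpoly_cont (q : Polynomial ℝ) : Continuous fun y : ℝ => ∫ x, q.eval (y * x) ∂(gaussianReal 0 1) := by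
  induction q using Polynomial.induction_on' with
  | add p q hp hq =>
    have : (fun y : ℝ => ∫ x, (p + q).eval (y * x) ∂(gaussianReal 0 1)) =
        fun y => (∫ x, p.eval (y * x) ∂(gaussianReal 0 1)) + ∫ x, q.eval (y * x) ∂(gaussianReal 0 1) := by
      funext y
      simp only [Polynomial.eval_add]
      rw [integral_add (gpoly_int p y) (gpoly_int q y)]
    rw [this]
    exact hp.add hq
  | monomial n a =>
    have : (fun y : ℝ => ∫ x, (Polynomial.monomial n a).eval (y * x) ∂(gaussianReal 0 1)) =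
        fun y => a * (y ^ n * ∫ x, x ^ n ∂(gaussianReal 0 1)) := by
      funext y
      simp only [Polynomial.eval_monomial, mul_pow]
      rw [integral_const_mul, integral_const_mul]
    rw [this]
    fun_prop

/-- moments over all the zeros -/
theorem lawa_a (hS : S_SAMP) (hW : S_WIDA) (q : Polynomial ℝ) (A : ℝ) (hA : 0 ≤ A) (ε : ℝ) (hε : 0 < ε) :
    ∃ δ₁ : ℝ, 0 < δ₁ ∧ ∀ δ : ℝ, 0 < δ → δ ≤ δ₁ → ∀ᶠ T : ℝ in atTop, ∀ α : ℕ → ℂ, (∀ n, ‖α n‖ ≤ A) →
    |(∑ s ∈ H370.Zf riemannZeta T (2 * T), (mz s : ℝ) * q.eval (RNa α ⌊T ^ δ⌋₊ s.im)) -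
      (∫ x, q.eval (Real.sqrt (va α ⌊T ^ δ⌋₊) * x) ∂(gaussianReal 0 1)) * AT T| ≤ ε * AT T := by
  obtain ⟨C, hC, hW⟩ := hW q A hA
  obtain ⟨θ, hθ, hθ1, hS⟩ := hS (ε / (16 * (C + 1))) (by positivity)
  refine ⟨θ / (q.natDegree + 1), by positivity, fun δ hδ hδ1 => ?_⟩
  have hX : Tendsto (fun T : ℝ => ⌊T ^ δ⌋₊) atTop atTop := tendsto_nat_floor_atTop.comp (tendsto_rpow_atTop hδ)
  have hW2 := hX.eventually (hW (ε / 2) (by positivity))
  filter_upwards [hS, hW2, eventually_ge_atTop 3] with T hS hW hT α hα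
  have hN := floor_pow_le (T := T) (by linarith) q.natDegree hδ hδ1
  obtain ⟨J, a, b, h1, h2, h3⟩ := hW (⌊T ^ δ⌋₊ ^ q.natDegree) le_rfl α hα
  set X := ⌊T ^ δ⌋₊ with hXd
  set N := X ^ q.natDegree with hNd
  have hL0 : 0 < Real.log T := Real.log_pos (by linarith)
  have hpi := Real.pi_pos
  have hpi4 := Real.pi_le_four
  have hA0 := AT_pos hT
  have hAd : AT T = Real.log T / (2 * Real.pi) * T := rfl
  set L := Real.log T with hL
  set B := AT T with hB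
  have e1 : (∑ s ∈ H370.Zf riemannZeta T (2 * T), (mz s : ℝ) * q.eval (RNa α X s.im)) - B * MW N a b =
      ∑ i, a i * ((∑ s ∈ H370.Zf riemannZeta T (2 * T), (mz s : ℝ) * ‖dp N (b i) s.im‖ ^ 2) -
        L / (2 * Real.pi) * (T * N2 N (b i))) := by
    have h4 : ∀ s ∈ H370.Zf riemannZeta T (2 * T), (mz s : ℝ) * q.eval (RNa α X s.im) =
        ∑ i, a i * ((mz s : ℝ) * ‖dp N (b i) s.im‖ ^ 2) := by
      intro s _
      rw [← h1, WT, Finset.mul_sum]
      exact Finset.sum_congr rfl fun i _ => by ring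
    rw [Finset.sum_congr rfl h4, Finset.sum_comm, MW, Finset.mul_sum, ← Finset.sum_sub_distrib]
    refine Finset.sum_congr rfl fun i _ => ?_
    rw [mul_sub, Finset.mul_sum, hAd]
    ring
  have e2 : |(∑ s ∈ H370.Zf riemannZeta T (2 * T), (mz s : ℝ) * q.eval (RNa α X s.im)) - B * MW N a b| ≤
      ε / (16 * (C + 1)) * L * (T * VW N a b) := by
    rw [e1]
    refine (Finset.abs_sum_le_sum_abs _ _).trans ?_
    rw [VW, Finset.mul_sum, Finset.mul_sum]
    refine Finset.sum_le_sum fun i _ => ?_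
    rw [abs_mul]
    have h5 := (hS N hN (b i)).2.2
    calc |a i| * |_| ≤ |a i| * (ε / (16 * (C + 1)) * L * (T * N2 N (b i))) := by gcongr
      _ = _ := by ring
  have e3 : ε / (16 * (C + 1)) * L * (T * VW N a b) ≤ ε / 2 * B := by
    have h5 : ε / (16 * (C + 1)) * C ≤ ε / 16 := by
      rw [div_mul_eq_mul_div, div_le_div_iff₀ (by positivity) (by norm_num)]
      nlinarith
    have h6 : ε / 16 ≤ ε / 2 * (1 / (2 * Real.pi)) := by
      rw [mul_one_div, le_div_iff₀ (by positivity)]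
      nlinarith
    calc ε / (16 * (C + 1)) * L * (T * VW N a b) ≤ ε / (16 * (C + 1)) * L * (T * C) := by gcongr
      _ = (ε / (16 * (C + 1)) * C) * (L * T) := by ring
      _ ≤ (ε / 2 * (1 / (2 * Real.pi))) * (L * T) := by
          apply mul_le_mul_of_nonneg_right (h5.trans h6) (by positivity)
      _ = ε / 2 * B := by rw [hAd]; ring
  have e4 : |B * MW N a b - (∫ x, q.eval (Real.sqrt (va α X) * x) ∂(gaussianReal 0 1)) * B| ≤ ε / 2 * B := by
    have : B * MW N a b - (∫ x, q.eval (Real.sqrt (va α X) * x) ∂(gaussianReal 0 1)) * B =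
        B * (MW N a b - ∫ x, q.eval (Real.sqrt (va α X) * x) ∂(gaussianReal 0 1)) := by ring
    rw [this, abs_mul, abs_of_pos hA0, mul_comm]
    exact mul_le_mul_of_nonneg_right h3 hA0.le
  rw [abs_le] at *
  constructor <;> linarith [e2.1, e2.2, e4.1, e4.2]

/-- lower bounds relative to nonnegative signed combinations, over the sets `G d T` -/
def SG (κ : ℝ) (G : ℝ → ℝ → Finset ℂ) : Prop := ∀ ε : ℝ, 0 < ε → ∃ d θ : ℝ, 0 < d ∧ d ≤ 1 ∧ 0 < θ ∧ ∀ᶠ T : ℝ in atTop, ∀ N : ℕ,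
  (N : ℝ) ≤ T ^ θ → ∀ (J : ℕ) (a : Fin J → ℝ) (b : Fin J → ℕ → ℂ), (∀ t : ℝ, 0 ≤ WT N a b t) →
    Real.log T / (2 * Real.pi) * (T * (κ * MW N a b - ε * VW N a b)) ≤ ∑ s ∈ G d T, WT N a b s.im

theorem sg_iso (hS : S_SAMW) : SG (2 - H370.cMTinv) ZI := by
  intro ε hε
  obtain ⟨d, θ, h1, h2, h3, _, h4⟩ := hS ε hε
  exact ⟨d, θ, h1, h2, h3, h4⟩

theorem sg_dist (hS : S_SAMD) : SG ((3 - H370.cMTinv) / 2) ZL := by
  intro ε hε
  obtain ⟨θ, h3, _, h4⟩ := hS ε hε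
  exact ⟨1, θ, one_pos, le_rfl, h3, h4⟩

/-- the normalised general prime sum -/
def xA (α : ℝ → ℕ → ℂ) (v δ T : ℝ) (s : ℂ) : ℝ := RNa (α T) ⌊T ^ δ⌋₊ s.im / Real.sqrt v

theorem xp_a {κ : ℝ} {G : ℝ → ℝ → Finset ℂ} (hκ0 : 0 ≤ κ) (hS : SG κ G) (hW : S_WIDA) (α : ℝ → ℕ → ℂ) (A : ℝ) (hA : 0 ≤ A)
    (hα : ∀ T n, ‖α T n‖ ≤ A) (v : ℝ) (hv0 : 0 < v)
    (hv : ∀ δ : ℝ, 0 < δ → δ ≤ 1 → Tendsto (fun T : ℝ => va (α T) ⌊T ^ δ⌋₊) atTop (𝓝 v)) : XP κ G (xA α v) := by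
  intro p ε hε
  have hsv : 0 < Real.sqrt v := Real.sqrt_pos.2 hv0
  obtain ⟨q, hq⟩ : ∃ q : Polynomial ℝ, q = (p.comp (Polynomial.C (1 / Real.sqrt v) * Polynomial.X)) ^ 2 := ⟨_, rfl⟩
  have hqe : ∀ t : ℝ, q.eval t = p.eval (t / Real.sqrt v) ^ 2 := by
    intro t
    rw [hq, Polynomial.eval_pow, Polynomial.eval_comp]
    simp only [Polynomial.eval_mul, Polynomial.eval_C, Polynomial.eval_X]
    congr 2
    ring
  obtain ⟨C, hC, hW⟩ := hW q A hA
  obtain ⟨d, θ, hd0, hd1, hθ, hS⟩ := hS (ε / (4 * (C + 1))) (by positivity)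
  refine ⟨d, min (θ / (q.natDegree + 1)) 1, hd0, hd1, by positivity, fun δ hδ hδ1' => ?_⟩
  have hδ1 := hδ1'.trans (min_le_left _ _)
  have hδ2 := hδ1'.trans (min_le_right _ _)
  have hX : Tendsto (fun T : ℝ => ⌊T ^ δ⌋₊) atTop atTop := tendsto_nat_floor_atTop.comp (tendsto_rpow_atTop hδ)
  obtain ⟨e, he⟩ : ∃ e, e = ε / (4 * (κ + 1)) := ⟨_, rfl⟩
  have he0 : 0 < e := by rw [he]; positivity
  have hκe : κ * e ≤ ε / 4 := by
    rw [he, mul_div_assoc', div_le_div_iff₀ (by positivity) (by norm_num)]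
    nlinarith
  have hW2 := hX.eventually (hW e he0)
  have hcont : Tendsto (fun T : ℝ => ∫ x, q.eval (Real.sqrt (va (α T) ⌊T ^ δ⌋₊) * x) ∂(gaussianReal 0 1)) atTop
      (𝓝 (∫ x, q.eval (Real.sqrt v * x) ∂(gaussianReal 0 1))) :=
    ((gpoly_cont q).tendsto (Real.sqrt v)).comp ((Real.continuous_sqrt.tendsto v).comp (hv δ hδ hδ2))
  have hlim : ∫ x, q.eval (Real.sqrt v * x) ∂(gaussianReal 0 1) = ∫ x, p.eval x ^ 2 ∂(gaussianReal 0 1) := by
    congr 1
    funext x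
    rw [hqe, mul_div_cancel_left₀ _ hsv.ne']
  rw [hlim] at hcont
  have hclose := (Metric.tendsto_nhds.1 hcont) e he0
  filter_upwards [hS, hW2, eventually_ge_atTop 3, hclose] with T hS hW hT hclose
  have hN := floor_pow_le (T := T) (by linarith) q.natDegree hδ hδ1
  obtain ⟨J, a, b, h1, h2, h3⟩ := hW (⌊T ^ δ⌋₊ ^ q.natDegree) le_rfl (α T) (hα T)
  set X := ⌊T ^ δ⌋₊ with hXd
  set N := X ^ q.natDegree with hNd
  have hA0 := AT_pos hT
  have h4 := hS N hN J a b (fun t => by rw [h1, hqe]; positivity)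
  have h5 : ∑ s ∈ G d T, WT N a b s.im = ∑ s ∈ G d T, p.eval (xA α v δ T s) ^ 2 :=
    Finset.sum_congr rfl fun s _ => by rw [h1, hqe]; rfl
  rw [← h5]
  refine le_trans ?_ h4
  have h6 : Real.log T / (2 * Real.pi) * (T * (κ * MW N a b - ε / (4 * (C + 1)) * VW N a b)) =
      (κ * MW N a b - ε / (4 * (C + 1)) * VW N a b) * AT T := by unfold AT; ring
  rw [h6]
  apply mul_le_mul_of_nonneg_right _ hA0.le
  have h7 : ε / (4 * (C + 1)) * VW N a b ≤ ε / 4 := by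
    calc ε / (4 * (C + 1)) * VW N a b ≤ ε / (4 * (C + 1)) * C := by gcongr
      _ ≤ ε / 4 := by
        rw [div_mul_eq_mul_div, div_le_div_iff₀ (by positivity) (by norm_num)]
        nlinarith
  rw [Real.dist_eq] at hclose
  rw [abs_le] at h3
  have hclose2 := abs_lt.1 hclose
  set Gm := ∫ x, p.eval x ^ 2 ∂(gaussianReal 0 1) with hG
  set Gq := ∫ x, q.eval (Real.sqrt (va (α T) X) * x) ∂(gaussianReal 0 1) with hGq
  have h8 : κ * (Gm - 2 * e) ≤ κ * MW N a b := by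
    apply mul_le_mul_of_nonneg_left _ hκ0
    linarith [h3.1, hclose2.1]
  nlinarith

theorem xm_a (hS : S_SAMP) (hW : S_WIDA) (α : ℝ → ℕ → ℂ) (A : ℝ) (hA : 0 ≤ A)
    (hα : ∀ T n, ‖α T n‖ ≤ A) (v : ℝ) (hv0 : 0 < v)
    (hv : ∀ δ : ℝ, 0 < δ → δ ≤ 1 → Tendsto (fun T : ℝ => va (α T) ⌊T ^ δ⌋₊) atTop (𝓝 v)) : XM (xA α v) := by
  have hsv : 0 < Real.sqrt v := Real.sqrt_pos.2 hv0
  have single : ∀ (k : ℕ) (ε : ℝ), 0 < ε → ∃ δ₁ : ℝ, 0 < δ₁ ∧ ∀ δ : ℝ, 0 < δ → δ ≤ δ₁ → ∀ᶠ T : ℝ in atTop,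
      |(∑ s ∈ H370.Zf riemannZeta T (2 * T), (mz s : ℝ) * xA α v δ T s ^ k) -
        (∫ x, x ^ k ∂(gaussianReal 0 1)) * AT T| ≤ ε * AT T := by
    intro k ε hε
    obtain ⟨q, hq⟩ : ∃ q : Polynomial ℝ, q = (Polynomial.C (1 / Real.sqrt v) * Polynomial.X) ^ k := ⟨_, rfl⟩
    have hqe : ∀ t : ℝ, q.eval t = (t / Real.sqrt v) ^ k := by
      intro t
      rw [hq, Polynomial.eval_pow]
      simp only [Polynomial.eval_mul, Polynomial.eval_C, Polynomial.eval_X]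
      congr 1
      ring
    obtain ⟨δ₁, h1, h2⟩ := lawa_a hS hW q A hA (ε / 2) (by positivity)
    refine ⟨min δ₁ 1, by positivity, fun δ hδ hδ1' => ?_⟩
    have hδ1 := hδ1'.trans (min_le_left _ _)
    have hδ2 := hδ1'.trans (min_le_right _ _)
    have hcont : Tendsto (fun T : ℝ => ∫ x, q.eval (Real.sqrt (va (α T) ⌊T ^ δ⌋₊) * x) ∂(gaussianReal 0 1)) atTop
        (𝓝 (∫ x, q.eval (Real.sqrt v * x) ∂(gaussianReal 0 1))) :=
      ((gpoly_cont q).tendsto (Real.sqrt v)).comp ((Real.continuous_sqrt.tendsto v).comp (hv δ hδ hδ2))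
    have hlim : ∫ x, q.eval (Real.sqrt v * x) ∂(gaussianReal 0 1) = ∫ x, x ^ k ∂(gaussianReal 0 1) := by
      congr 1
      funext x
      rw [hqe, mul_div_cancel_left₀ _ hsv.ne']
    rw [hlim] at hcont
    have hclose := (Metric.tendsto_nhds.1 hcont) (ε / 2) (by positivity)
    filter_upwards [h2 δ hδ hδ1, hclose, eventually_ge_atTop 3] with T h2 hclose hT
    have h3 := h2 (α T) (hα T)
    have hA0 := AT_pos hT
    rw [Real.dist_eq] at hclose
    have e1 : ∑ s ∈ H370.Zf riemannZeta T (2 * T), (mz s : ℝ) * q.eval (RNa (α T) ⌊T ^ δ⌋₊ s.im) =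
        ∑ s ∈ H370.Zf riemannZeta T (2 * T), (mz s : ℝ) * xA α v δ T s ^ k :=
      Finset.sum_congr rfl fun s _ => by rw [hqe]; rfl
    rw [e1] at h3
    set Gq := ∫ x, q.eval (Real.sqrt (va (α T) ⌊T ^ δ⌋₊) * x) ∂(gaussianReal 0 1) with hGq
    set Gm := ∫ x, x ^ k ∂(gaussianReal 0 1) with hG
    have e2 : |Gq * AT T - Gm * AT T| ≤ ε / 2 * AT T := by
      rw [← sub_mul, abs_mul, abs_of_pos hA0]
      exact mul_le_mul_of_nonneg_right hclose.le hA0.le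
    rw [abs_le] at *
    constructor <;> linarith [h3.1, h3.2, e2.1, e2.2]
  intro K
  induction K with
  | zero =>
    intro ε hε
    obtain ⟨δ₁, h1, h2⟩ := single 0 ε hε
    refine ⟨δ₁, h1, fun δ hδ hδ1 => ?_⟩
    filter_upwards [h2 δ hδ hδ1] with T h k hk
    have : k = 0 := by omega
    subst this
    exact h
  | succ K ih =>
    intro ε hε
    obtain ⟨δ₁, h1, h2⟩ := single (K + 1) ε hε
    obtain ⟨δ₂, h3, h4⟩ := ih ε hε
    refine ⟨min δ₁ δ₂, by positivity, fun δ hδ hδ1 => ?_⟩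
    filter_upwards [h2 δ hδ (hδ1.trans (min_le_left _ _)), h4 δ hδ (hδ1.trans (min_le_right _ _))] with T h h' k hk
    rcases Nat.lt_or_ge K k with h5 | h5
    · have : k = K + 1 := by omega
      subst this
      exact h
    · exact h' k h5

end

end Pool.Agent.Q97.UM
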