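import Pool.Agent.Q97.UM.Wf1
import Pool.Agent.Erdos456.Mertens

set_option autoImplicit false

/-! Project UM15: the field at mesoscopic distances from the zeros. -/

namespace Pool.Agent.Q97.UM

open Filter Topology MeasureTheory Complex ProbabilityTheory

noncomputable section

/-- the coefficients `∑ u_i n^{-i h_i}` -/
def alf {m : ℕ} (h : Fin m → ℝ → ℝ) (u : Fin m → ℝ) (T : ℝ) (n : ℕ) : ℂ := ∑ i, (u i : ℂ) * (n : ℂ) ^ (-((h i T : ℂ) * I))

theorem npow_le (n : ℕ) (y : ℝ) : ‖(n : ℂ) ^ (-((y : ℂ) * I))‖ ≤ 1 := by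
  rcases Nat.eq_zero_or_pos n with h | h
  · subst h
    by_cases hy : -((y : ℂ) * I) = 0
    · rw [hy, Complex.cpow_zero]; simp
    · rw [Nat.cast_zero, Complex.zero_cpow hy]; simp
  · rw [Complex.norm_natCast_cpow_of_pos h]
    simp

theorem al_le {m : ℕ} (h : Fin m → ℝ → ℝ) (u : Fin m → ℝ) (T : ℝ) (n : ℕ) : ‖alf h u T n‖ ≤ ∑ i, |u i| := by
  unfold alf
  refine (norm_sum_le _ _).trans (Finset.sum_le_sum fun i _ => ?_)
  rw [norm_mul, Complex.norm_real, Real.norm_eq_abs]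
  have := npow_le n (h i T)
  have h2 := abs_nonneg (u i)
  nlinarith

theorem dp_al {m : ℕ} (h : Fin m → ℝ → ℝ) (u : Fin m → ℝ) (T : ℝ) (X : ℕ) (t : ℝ) :
    ∑ i, (u i : ℂ) * dp X (pc X) (t + h i T) = dp X (pca (alf h u T) X) t := by
  classical
  unfold dp
  simp_rw [Finset.mul_sum]
  rw [Finset.sum_comm]
  refine Finset.sum_congr rfl fun n hn => ?_
  have hn1 := (Finset.mem_Icc.1 hn).1
  have hn0 : (n : ℂ) ≠ 0 := by
    have : n ≠ 0 := by omega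
    exact_mod_cast this
  unfold pca pc alf
  by_cases hp : n.Prime ∧ n ≤ X
  · rw [if_pos hp, if_pos hp, Finset.sum_mul]
    refine Finset.sum_congr rfl fun i _ => ?_
    have e1 : -(1 / 2 + ((t + h i T : ℝ) : ℂ) * I) = -(1 / 2 + (t : ℂ) * I) + -((h i T : ℂ) * I) := by
      push_cast; ring
    rw [e1, Complex.cpow_add _ _ hn0]
    ring
  · rw [if_neg hp, if_neg hp]
    simp

/-- the deviations -/
def DF {m : ℕ} (h : Fin m → ℝ → ℝ) (u : Fin m → ℝ) (δ T : ℝ) (s : ℂ) : ℝ :=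
  ∑ i, u i * (LM T (s.im + h i T) - (dp ⌊T ^ δ⌋₊ (pc ⌊T ^ δ⌋₊) (s.im + h i T)).re)

/-- the linear combination of the values of the field -/
def yF {m : ℕ} (h : Fin m → ℝ → ℝ) (u : Fin m → ℝ) (v T : ℝ) (s : ℂ) : ℝ :=
  (∑ i, u i * (LM T (s.im + h i T) / Real.sqrt (Real.log (Real.log T) / 2))) / Real.sqrt v

theorem DF_bound {m : ℕ} (hC : S_CLS) (h : Fin m → ℝ → ℝ) (u : Fin m → ℝ) (hh : ∀ i, ∀ᶠ T : ℝ in atTop, |h i T| ≤ 1) :
    ∃ δ₂ : ℝ, 0 < δ₂ ∧ ∀ δ : ℝ, 0 < δ → δ ≤ δ₂ → ∃ C : ℝ, 0 ≤ C ∧ ∀ᶠ T : ℝ in atTop,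
      ∑ s ∈ H370.Zf riemannZeta T (2 * T), (mz s : ℝ) * DF h u δ T s ^ 2 ≤ C * (Real.log T * T) := by
  obtain ⟨δ₂, hδ₂, hC⟩ := hC
  refine ⟨δ₂, hδ₂, fun δ hδ hδ2 => ?_⟩
  obtain ⟨C, hC0, hC⟩ := hC δ hδ hδ2
  refine ⟨(∑ i, u i ^ 2) * (m * C), by positivity, ?_⟩
  filter_upwards [hC, eventually_all.2 hh] with T hC hh
  have h1 : ∀ s : ℂ, DF h u δ T s ^ 2 ≤ (∑ i, u i ^ 2) *
      ∑ i, (LM T (s.im + h i T) - (dp ⌊T ^ δ⌋₊ (pc ⌊T ^ δ⌋₊) (s.im + h i T)).re) ^ 2 := fun s =>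
    Finset.sum_mul_sq_le_sq_mul_sq _ _ _
  calc ∑ s ∈ H370.Zf riemannZeta T (2 * T), (mz s : ℝ) * DF h u δ T s ^ 2 ≤
        ∑ s ∈ H370.Zf riemannZeta T (2 * T), (mz s : ℝ) * ((∑ i, u i ^ 2) *
          ∑ i, (LM T (s.im + h i T) - (dp ⌊T ^ δ⌋₊ (pc ⌊T ^ δ⌋₊) (s.im + h i T)).re) ^ 2) := by
        refine Finset.sum_le_sum fun s _ => ?_
        exact mul_le_mul_of_nonneg_left (h1 s) (Nat.cast_nonneg _)
    _ = (∑ i, u i ^ 2) * ∑ i, ∑ s ∈ H370.Zf riemannZeta T (2 * T), (mz s : ℝ) *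
          (LM T (s.im + h i T) - (dp ⌊T ^ δ⌋₊ (pc ⌊T ^ δ⌋₊) (s.im + h i T)).re) ^ 2 := by
        rw [Finset.sum_comm, Finset.mul_sum]
        refine Finset.sum_congr rfl fun s _ => ?_
        rw [← Finset.mul_sum]
        ring
    _ ≤ (∑ i, u i ^ 2) * ∑ _i : Fin m, C * (Real.log T * T) := by
        apply mul_le_mul_of_nonneg_left _ (by positivity)
        exact Finset.sum_le_sum fun i _ => hC (h i T) (hh i)
    _ = (∑ i, u i ^ 2) * (m * C) * (Real.log T * T) := by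
        rw [Finset.sum_const, Finset.card_univ, Fintype.card_fin, nsmul_eq_mul]
        ring

/-- the identity behind the comparison -/
theorem yF_eq {m : ℕ} (h : Fin m → ℝ → ℝ) (u : Fin m → ℝ) {v δ T : ℝ} (s : ℂ)
    (h1 : 0 < Real.sqrt (Real.log (Real.log T) / 2)) (h2 : 0 < Real.sqrt (Real.log (Real.log ⌊T ^ δ⌋₊) / 2)) :
    yF h u v T s - xA (alf h u) v δ T s * (Real.sqrt (Real.log (Real.log ⌊T ^ δ⌋₊) / 2) / Real.sqrt (Real.log (Real.log T) / 2)) =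
      DF h u δ T s / Real.sqrt (Real.log (Real.log T) / 2) / Real.sqrt v := by
  unfold yF xA RNa DF
  rw [← dp_al]
  have e1 : (∑ i, (u i : ℂ) * dp ⌊T ^ δ⌋₊ (pc ⌊T ^ δ⌋₊) (s.im + h i T)).re =
      ∑ i, u i * (dp ⌊T ^ δ⌋₊ (pc ⌊T ^ δ⌋₊) (s.im + h i T)).re := by
    rw [Complex.re_sum]
    exact Finset.sum_congr rfl fun i _ => Complex.re_ofReal_mul _ _
  rw [e1]
  set sT := Real.sqrt (Real.log (Real.log T) / 2)
  set sX := Real.sqrt (Real.log (Real.log ⌊T ^ δ⌋₊) / 2)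
  have e2 : ∑ i, u i * (LM T (s.im + h i T) / sT) = (∑ i, u i * LM T (s.im + h i T)) / sT := by
    rw [Finset.sum_div]
    exact Finset.sum_congr rfl fun i _ => by ring
  have e3 : ∑ i, u i * (LM T (s.im + h i T) - (dp ⌊T ^ δ⌋₊ (pc ⌊T ^ δ⌋₊) (s.im + h i T)).re) =
      (∑ i, u i * LM T (s.im + h i T)) - ∑ i, u i * (dp ⌊T ^ δ⌋₊ (pc ⌊T ^ δ⌋₊) (s.im + h i T)).re := by
    rw [← Finset.sum_sub_distrib]
    exact Finset.sum_congr rfl fun i _ => by ring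
  rw [e2, e3]
  rcases eq_or_ne (Real.sqrt v) 0 with hv | hv
  · rw [hv]; simp
  · field_simp

theorem xc_F {m : ℕ} (hC : S_CLS) (h : Fin m → ℝ → ℝ) (u : Fin m → ℝ) (hh : ∀ i, ∀ᶠ T : ℝ in atTop, |h i T| ≤ 1) (v : ℝ) (hv : 0 < v)
    (hM : XM (xA (alf h u) v)) : XC (xA (alf h u) v) (yF h u v) := by
  have hsv : 0 < Real.sqrt v := Real.sqrt_pos.2 hv
  refine xc_gen hM (DF h u) (1 / Real.sqrt v) (by positivity) (fun δ hδ hδ1 => ?_) (DF_bound hC h u hh)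
  filter_upwards [ratio_one δ hδ hδ1 (1 / 2) (by norm_num) (by norm_num)] with T ⟨hs1, hs2, hs3, hs4⟩ s hs
  rw [yF_eq h u s hs1 hs2, abs_div, abs_div, abs_of_pos hs1, abs_of_pos hsv]
  apply le_of_eq
  field_simp

/-- the variance -/
theorem al_sq {m : ℕ} (h : Fin m → ℝ → ℝ) (u : Fin m → ℝ) (T : ℝ) {n : ℕ} (hn : 1 ≤ n) :
    ‖alf h u T n‖ ^ 2 = ∑ i, ∑ j, u i * u j * Real.cos ((h i T - h j T) * Real.log n) := by
  have hn0 : (n : ℂ) ≠ 0 := by
    have : n ≠ 0 := by omega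
    exact_mod_cast this
  have hcp : ∀ i, (n : ℂ) ^ (-((h i T : ℂ) * I)) = ((Real.cos (h i T * Real.log n) : ℝ) : ℂ) - ((Real.sin (h i T * Real.log n) : ℝ) : ℂ) * I := by
    intro i
    rw [Complex.cpow_def_of_ne_zero hn0, ← Complex.natCast_log, show ((Real.log n : ℝ) : ℂ) * -((h i T : ℂ) * I) =
      ((-(h i T * Real.log n) : ℝ) : ℂ) * I by push_cast; ring, Complex.exp_mul_I, ← Complex.ofReal_cos, ← Complex.ofReal_sin,
      Real.cos_neg, Real.sin_neg]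
    push_cast
    ring
  have e1 : alf h u T n = ((∑ i, u i * Real.cos (h i T * Real.log n) : ℝ) : ℂ) - ((∑ i, u i * Real.sin (h i T * Real.log n) : ℝ) : ℂ) * I := by
    unfold alf
    push_cast
    rw [Finset.sum_mul, ← Finset.sum_sub_distrib]
    refine Finset.sum_congr rfl fun i _ => ?_
    rw [hcp i]
    push_cast
    ring
  have e2 : ∀ x y : ℝ, ‖(x : ℂ) - (y : ℂ) * I‖ ^ 2 = x ^ 2 + y ^ 2 := by
    intro x y
    rw [← Complex.normSq_eq_norm_sq, Complex.normSq_apply]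
    simp
    ring
  rw [e1, e2, sq, sq, Finset.sum_mul_sum, Finset.sum_mul_sum, ← Finset.sum_add_distrib]
  refine Finset.sum_congr rfl fun i _ => ?_
  rw [← Finset.sum_add_distrib]
  refine Finset.sum_congr rfl fun j _ => ?_
  rw [sub_mul, Real.cos_sub]
  ring

open Classical in
theorem N2_al {m : ℕ} (h : Fin m → ℝ → ℝ) (u : Fin m → ℝ) (T : ℝ) (X : ℕ) :
    N2 X (pca (alf h u T) X) = ∑ i, ∑ j, u i * u j *
      ∑ p ∈ (Finset.Icc 1 X).filter Nat.Prime, Real.cos ((h i T - h j T) * Real.log p) / p := by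
  have e1 : N2 X (pca (alf h u T) X) = ∑ p ∈ (Finset.Icc 1 X).filter Nat.Prime, ‖alf h u T p‖ ^ 2 / p := by
    unfold N2
    rw [Finset.sum_filter]
    refine Finset.sum_congr rfl fun n hn => ?_
    have hn2 := (Finset.mem_Icc.1 hn).2
    unfold pca
    by_cases hp : n.Prime
    · rw [if_pos ⟨hp, hn2⟩, if_pos hp]
    · rw [if_neg (fun h => hp h.1), if_neg hp]
      simp
  rw [e1]
  have e2 : ∀ p ∈ (Finset.Icc 1 X).filter Nat.Prime, ‖alf h u T p‖ ^ 2 / p =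
      ∑ i, ∑ j, u i * u j * (Real.cos ((h i T - h j T) * Real.log p) / p) := by
    intro p hp
    rw [al_sq h u T (Finset.mem_Icc.1 (Finset.mem_filter.1 hp).1).1, Finset.sum_div]
    refine Finset.sum_congr rfl fun i _ => ?_
    rw [Finset.sum_div]
    exact Finset.sum_congr rfl fun j _ => by ring
  rw [Finset.sum_congr rfl e2, Finset.sum_comm]
  refine Finset.sum_congr rfl fun i _ => ?_
  rw [Finset.sum_comm]
  refine Finset.sum_congr rfl fun j _ => ?_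
  rw [Finset.mul_sum]

/-- the quadratic form of the covariances -/
def vv {m : ℕ} (σ : Fin m → Fin m → ℝ) (u : Fin m → ℝ) : ℝ := ∑ i, ∑ j, u i * u j * σ i j

/-- mesoscopic separation: `|h_i - h_j|` has the order `(log T)^(-σ_ij)` -/
def Meso {m : ℕ} (h : Fin m → ℝ → ℝ) (σ : Fin m → Fin m → ℝ) : Prop := (∀ i, σ i i = 1) ∧ ∀ i j, i ≠ j → 0 < σ i j ∧ σ i j < 1 ∧
  ∃ c : ℝ, 0 < c ∧ Tendsto (fun T : ℝ => |h i T - h j T| * Real.log T ^ σ i j) atTop (𝓝 c)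

theorem loglog_ratio (δ : ℝ) (hδ : 0 < δ) (hδ1 : δ ≤ 1) :
    Tendsto (fun T : ℝ => Real.log (Real.log T) / Real.log (Real.log ⌊T ^ δ⌋₊)) atTop (𝓝 1) := by
  have hll : Tendsto (fun T : ℝ => Real.log (Real.log T)) atTop atTop :=
    Real.tendsto_log_atTop.comp Real.tendsto_log_atTop
  have hX : Tendsto (fun T : ℝ => Real.log (Real.log ⌊T ^ δ⌋₊)) atTop atTop := by
    refine tendsto_atTop_mono' atTop ?_ (tendsto_atTop_add_const_right atTop (Real.log (δ / 2)) hll)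
    filter_upwards [loglog_floor δ hδ hδ1] with T h
    exact h.1
  have h1 : Tendsto (fun T : ℝ => 1 + -Real.log (δ / 2) / Real.log (Real.log ⌊T ^ δ⌋₊)) atTop (𝓝 (1 + 0)) :=
    tendsto_const_nhds.add (tendsto_const_nhds.div_atTop hX)
  rw [add_zero] at h1
  refine tendsto_of_tendsto_of_tendsto_of_le_of_le' tendsto_const_nhds h1 ?_ ?_
  · filter_upwards [loglog_floor δ hδ hδ1, hX.eventually_gt_atTop 0] with T h h0
    rw [le_div_iff₀ h0]
    linarith [h.2]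
  · filter_upwards [loglog_floor δ hδ hδ1, hX.eventually_gt_atTop 0] with T h h0
    have e1 : 1 + -Real.log (δ / 2) / Real.log (Real.log ⌊T ^ δ⌋₊) = (Real.log (Real.log ⌊T ^ δ⌋₊) + -Real.log (δ / 2)) /
        Real.log (Real.log ⌊T ^ δ⌋₊) := by
      field_simp
    rw [e1]
    gcongr
    linarith [h.1]

theorem va_tendsto {m : ℕ} (hV : S_COV) {h : Fin m → ℝ → ℝ} {σ : Fin m → Fin m → ℝ} (hm : Meso h σ) (u : Fin m → ℝ) (δ : ℝ) (hδ : 0 < δ)
    (hδ1 : δ ≤ 1) : Tendsto (fun T : ℝ => va (alf h u T) ⌊T ^ δ⌋₊) atTop (𝓝 (vv σ u)) := by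
  classical
  have hll : Tendsto (fun T : ℝ => Real.log (Real.log T)) atTop atTop :=
    Real.tendsto_log_atTop.comp Real.tendsto_log_atTop
  have hpair : ∀ i j, Tendsto (fun T : ℝ => (∑ p ∈ (Finset.Icc 1 ⌊T ^ δ⌋₊).filter Nat.Prime,
      Real.cos ((h i T - h j T) * Real.log p) / p) / Real.log (Real.log ⌊T ^ δ⌋₊)) atTop (𝓝 (σ i j)) := by
    intro i j
    rcases eq_or_ne i j with hij | hij
    · subst hij
      rw [hm.1 i]
      simp only [sub_self, zero_mul, Real.cos_zero]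
      obtain ⟨C, hC⟩ := Pool.Agent.Erdos456.Mert.mertens_inv
      have hX : Tendsto (fun T : ℝ => ⌊T ^ δ⌋₊) atTop atTop := tendsto_nat_floor_atTop.comp (tendsto_rpow_atTop hδ)
      have hXl : Tendsto (fun T : ℝ => Real.log (Real.log ⌊T ^ δ⌋₊)) atTop atTop := by
        refine tendsto_atTop_mono' atTop ?_ (tendsto_atTop_add_const_right atTop (Real.log (δ / 2)) hll)
        filter_upwards [loglog_floor δ hδ hδ1] with T h
        exact h.1
      have hz : Tendsto (fun T : ℝ => C / Real.log (Real.log ⌊T ^ δ⌋₊)) atTop (𝓝 0) := tendsto_const_nhds.div_atTop hXl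
      rw [tendsto_iff_norm_sub_tendsto_zero]
      refine squeeze_zero' (Eventually.of_forall fun T => norm_nonneg _) ?_ hz
      filter_upwards [hX.eventually_ge_atTop 3, hXl.eventually_gt_atTop 0] with T h3 h0
      have h4 := hC ⌊T ^ δ⌋₊ h3
      rw [Real.norm_eq_abs]
      have e1 : (∑ p ∈ (Finset.Icc 1 ⌊T ^ δ⌋₊).filter Nat.Prime, (1 : ℝ) / p) / Real.log (Real.log ⌊T ^ δ⌋₊) - 1 =
          ((∑ p ∈ (Finset.Icc 1 ⌊T ^ δ⌋₊).filter Nat.Prime, (1 : ℝ) / p) - Real.log (Real.log ⌊T ^ δ⌋₊)) /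
            Real.log (Real.log ⌊T ^ δ⌋₊) := by
        field_simp
      rw [e1, abs_div, abs_of_pos h0]
      gcongr
    · obtain ⟨h1, h2, c, hc, h3⟩ := hm.2 i j hij
      have h4 := hV (σ i j) c (fun T => h i T - h j T) h1 h2 hc h3 δ hδ
      have h5 := h4.mul (loglog_ratio δ hδ hδ1)
      rw [mul_one] at h5
      refine h5.congr' ?_
      filter_upwards [hll.eventually_gt_atTop 0] with T h0
      field_simp
  have hsum : Tendsto (fun T : ℝ => ∑ i, ∑ j, u i * u j * ((∑ p ∈ (Finset.Icc 1 ⌊T ^ δ⌋₊).filter Nat.Prime,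
      Real.cos ((h i T - h j T) * Real.log p) / p) / Real.log (Real.log ⌊T ^ δ⌋₊))) atTop (𝓝 (vv σ u)) := by
    unfold vv
    refine tendsto_finsetSum _ fun i _ => tendsto_finsetSum _ fun j _ => ?_
    exact (hpair i j).const_mul _
  refine hsum.congr fun T => ?_
  unfold va
  rw [N2_al, Finset.sum_div]
  refine Finset.sum_congr rfl fun i _ => ?_
  rw [Finset.sum_div]
  refine Finset.sum_congr rfl fun j _ => ?_
  ring

end

end Pool.Agent.Q97.UM
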