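import Pool.Agent.Q97.UM.Wf2
import Mathlib.MeasureTheory.Measure.LevyConvergence
import Mathlib.Probability.Distributions.Gaussian.Multivariate

set_option autoImplicit false

/-! Project UM15: characteristic functions and the joint law. -/

namespace Pool.Agent.Q97.UM

open Filter Topology MeasureTheory Complex ProbabilityTheory

noncomputable section

/-- moments without normalisation -/
theorem xmu_a (hS : S_SAMP) (hW : S_WIDA) (α : ℝ → ℕ → ℂ) (A : ℝ) (hA : 0 ≤ A)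
    (hα : ∀ T n, ‖α T n‖ ≤ A) (v : ℝ)
    (hv : ∀ δ : ℝ, 0 < δ → δ ≤ 1 → Tendsto (fun T : ℝ => va (α T) ⌊T ^ δ⌋₊) atTop (𝓝 v)) :
    ∀ (K : ℕ) (ε : ℝ), 0 < ε → ∃ δ₁ : ℝ, 0 < δ₁ ∧ ∀ δ : ℝ, 0 < δ → δ ≤ δ₁ → ∀ᶠ T : ℝ in atTop, ∀ k : ℕ, k ≤ K →
      |(∑ s ∈ H370.Zf riemannZeta T (2 * T), (mz s : ℝ) * RNa (α T) ⌊T ^ δ⌋₊ s.im ^ k) -
        (∫ x, (Real.sqrt v * x) ^ k ∂(gaussianReal 0 1)) * AT T| ≤ ε * AT T := by
  have single : ∀ (k : ℕ) (ε : ℝ), 0 < ε → ∃ δ₁ : ℝ, 0 < δ₁ ∧ ∀ δ : ℝ, 0 < δ → δ ≤ δ₁ → ∀ᶠ T : ℝ in atTop,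
      |(∑ s ∈ H370.Zf riemannZeta T (2 * T), (mz s : ℝ) * RNa (α T) ⌊T ^ δ⌋₊ s.im ^ k) -
        (∫ x, (Real.sqrt v * x) ^ k ∂(gaussianReal 0 1)) * AT T| ≤ ε * AT T := by
    intro k ε hε
    obtain ⟨q, hq⟩ : ∃ q : Polynomial ℝ, q = Polynomial.X ^ k := ⟨_, rfl⟩
    have hqe : ∀ t : ℝ, q.eval t = t ^ k := by
      intro t
      rw [hq, Polynomial.eval_pow, Polynomial.eval_X]
    obtain ⟨δ₁, h1, h2⟩ := lawa_a hS hW q A hA (ε / 2) (by positivity)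
    refine ⟨min δ₁ 1, by positivity, fun δ hδ hδ1' => ?_⟩
    have hδ1 := hδ1'.trans (min_le_left _ _)
    have hδ2 := hδ1'.trans (min_le_right _ _)
    have hcont : Tendsto (fun T : ℝ => ∫ x, q.eval (Real.sqrt (va (α T) ⌊T ^ δ⌋₊) * x) ∂(gaussianReal 0 1)) atTop
        (𝓝 (∫ x, q.eval (Real.sqrt v * x) ∂(gaussianReal 0 1))) :=
      ((gpoly_cont q).tendsto (Real.sqrt v)).comp ((Real.continuous_sqrt.tendsto v).comp (hv δ hδ hδ2))
    have hlim : ∫ x, q.eval (Real.sqrt v * x) ∂(gaussianReal 0 1) = ∫ x, (Real.sqrt v * x) ^ k ∂(gaussianReal 0 1) := by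
      congr 1
      funext x
      rw [hqe]
    rw [hlim] at hcont
    have hclose := (Metric.tendsto_nhds.1 hcont) (ε / 2) (by positivity)
    filter_upwards [h2 δ hδ hδ1, hclose, eventually_ge_atTop 3] with T h2 hclose hT
    have h3 := h2 (α T) (hα T)
    have hA0 := AT_pos hT
    rw [Real.dist_eq] at hclose
    have e1 : ∑ s ∈ H370.Zf riemannZeta T (2 * T), (mz s : ℝ) * q.eval (RNa (α T) ⌊T ^ δ⌋₊ s.im) =
        ∑ s ∈ H370.Zf riemannZeta T (2 * T), (mz s : ℝ) * RNa (α T) ⌊T ^ δ⌋₊ s.im ^ k :=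
      Finset.sum_congr rfl fun s _ => by rw [hqe]
    rw [e1] at h3
    set Gq := ∫ x, q.eval (Real.sqrt (va (α T) ⌊T ^ δ⌋₊) * x) ∂(gaussianReal 0 1) with hGq
    set Gm := ∫ x, (Real.sqrt v * x) ^ k ∂(gaussianReal 0 1) with hG
    have e2 : |Gq * AT T - Gm * AT T| ≤ ε / 2 * AT T := by
      rw [← sub_mul, abs_mul, abs_of_pos hA0]
      exact mul_le_mul_of_nonneg_right hclose.le hA0.le
    rw [abs_le] at *
    constructor <;> linarith [h3.1, h3.2, e2.1, e2.2]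
  intro K
  induction K with
  | zero =>
    intro ε hε
    obtain ⟨δ₁, h1, h2⟩ := single 0 ε hε
    refine ⟨δ₁, h1, fun δ hδ hδ1 => ?_⟩
    filter_upwards [h2 δ hδ hδ1] with T h k hk
    have : k = 0 := by omega
    subst this
    exact h
  | succ K ih =>
    intro ε hε
    obtain ⟨δ₁, h1, h2⟩ := single (K + 1) ε hε
    obtain ⟨δ₂, h3, h4⟩ := ih ε hε
    refine ⟨min δ₁ δ₂, by positivity, fun δ hδ hδ1 => ?_⟩
    filter_upwards [h2 δ hδ (hδ1.trans (min_le_left _ _)), h4 δ hδ (hδ1.trans (min_le_right _ _))] with T h h' k hk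
    rcases Nat.lt_or_ge K k with h5 | h5
    · have : k = K + 1 := by omega
      subst this
      exact h
    · exact h' k h5

theorem pm_integral_c (F : Finset ℂ) (w x : ℂ → ℝ) (hw : ∀ s ∈ F, 0 ≤ w s) (f : ℝ → ℂ) :
    ∫ y, f y ∂(pm F w x) = ∑ s ∈ F, (w s : ℂ) * f (x s) := by
  unfold pm
  rw [integral_finsetSum_measure fun s _ => (integrable_dirac (by simp)).smul_measure ENNReal.ofReal_ne_top]
  refine Finset.sum_congr rfl fun s hs => ?_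
  rw [integral_smul_measure, integral_dirac, ENNReal.toReal_ofReal (hw s hs), Complex.real_smul]

/-- the characteristic function of the prime sums -/
theorem cf_a (hS : S_SAMP) (hW : S_WIDA) (α : ℝ → ℕ → ℂ) (A : ℝ) (hA : 0 ≤ A)
    (hα : ∀ T n, ‖α T n‖ ≤ A) (v : ℝ) (hv0 : 0 ≤ v)
    (hv : ∀ δ : ℝ, 0 < δ → δ ≤ 1 → Tendsto (fun T : ℝ => va (α T) ⌊T ^ δ⌋₊) atTop (𝓝 v)) (ε : ℝ) (hε : 0 < ε) :
    ∃ δ₁ : ℝ, 0 < δ₁ ∧ ∀ δ : ℝ, 0 < δ → δ ≤ δ₁ → ∀ᶠ T : ℝ in atTop,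
      ‖(∑ s ∈ H370.Zf riemannZeta T (2 * T), (mz s : ℂ) * cexp ((RNa (α T) ⌊T ^ δ⌋₊ s.im : ℂ) * I)) -
        (Real.exp (-v / 2) : ℂ) * AT T‖ ≤ ε * AT T := by
  obtain ⟨C, hC, hgm⟩ := Pool.Agent.Q224.UM.gauss_moment (Real.sqrt v)
  obtain ⟨n, hn⟩ : ∃ n : ℕ, 2 * (C / 4 ^ n) ≤ ε / 2 := by
    have h1 : Tendsto (fun n : ℕ => 2 * (C / 4 ^ n)) atTop (𝓝 (2 * 0)) :=
      (Tendsto.div_atTop tendsto_const_nhds (tendsto_pow_atTop_atTop_of_one_lt (by norm_num))).const_mul 2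
    rw [mul_zero] at h1
    exact ((h1.eventually (ge_mem_nhds (show (0 : ℝ) < ε / 2 by positivity))).exists)
  obtain ⟨e, he⟩ : ∃ e, e = ε / (4 * Real.exp 1) := ⟨_, rfl⟩
  have he0 : 0 < e := by rw [he]; positivity
  obtain ⟨δ₁, h1, h2⟩ := xmu_a hS hW α A hA hα v hv (2 * n) e he0
  refine ⟨δ₁, h1, fun δ hδ hδ1 => ?_⟩
  filter_upwards [h2 δ hδ hδ1, eventually_ge_atTop 3] with T h2 hT
  have hA0 := AT_pos hT
  set B := AT T with hB
  set F := H370.Zf riemannZeta T (2 * T) with hF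
  set x : ℂ → ℝ := fun s => RNa (α T) ⌊T ^ δ⌋₊ s.im with hx
  have hmeas : Measurable (fun y : ℝ => Real.sqrt v * y) := measurable_const_mul _
  have hfin : IsFiniteMeasure ((gaussianReal 0 1).map (fun y : ℝ => Real.sqrt v * y)) := by infer_instance
  have h3 := Pool.Agent.Q224.UM.cf_close (pm F (fun s => (mz s : ℝ) / B) x) ((gaussianReal 0 1).map (fun y : ℝ => Real.sqrt v * y)) n 1 e
    he0.le (fun k _ => pm_int _ _ _ _) (fun k _ => by
      rw [integrable_map_measure (by fun_prop) hmeas.aemeasurable]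
      exact gpow_int k _) (fun k hk => by
      rw [pm_integral _ _ _ (fun s _ => by positivity), integral_map hmeas.aemeasurable (by fun_prop)]
      have h4 := h2 k hk
      have e1 : (∑ s ∈ F, (mz s : ℝ) / B * x s ^ k) - ∫ y, (Real.sqrt v * y) ^ k ∂(gaussianReal 0 1) =
          ((∑ s ∈ F, (mz s : ℝ) * x s ^ k) - (∫ y, (Real.sqrt v * y) ^ k ∂(gaussianReal 0 1)) * B) / B := by
        rw [sub_div, mul_div_cancel_right₀ _ hA0.ne', Finset.sum_div]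
        congr 1
        exact Finset.sum_congr rfl fun s _ => by ring
      rw [e1, abs_div, abs_of_pos hA0, div_le_iff₀ hA0]
      exact h4)
  have e2 : charFun ((gaussianReal 0 1).map (fun y : ℝ => Real.sqrt v * y)) 1 = (Real.exp (-v / 2) : ℂ) := by
    have : (gaussianReal 0 1).map (fun y : ℝ => Real.sqrt v * y) = (gaussianReal 0 1).map (Real.sqrt v * ·) := rfl
    rw [this, charFun_map_mul, charFun_gaussianReal]
    have e3 : ((Real.sqrt v * 1 : ℝ) : ℂ) ^ 2 = (v : ℂ) := by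
      rw [mul_one, ← Complex.ofReal_pow, Real.sq_sqrt hv0]
    rw [e3]
    push_cast
    congr 1
    simp
    ring
  have e3 : charFun (pm F (fun s => (mz s : ℝ) / B) x) 1 = (∑ s ∈ F, (mz s : ℂ) * cexp ((x s : ℂ) * I)) / B := by
    rw [charFun_apply_real, pm_integral_c _ _ _ (fun s _ => by positivity), Finset.sum_div]
    refine Finset.sum_congr rfl fun s _ => ?_
    push_cast
    rw [one_mul]
    ring
  have e4 : ∫ y, y ^ (2 * n) ∂((gaussianReal 0 1).map (fun y : ℝ => Real.sqrt v * y)) =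
      |Real.sqrt v| ^ (2 * n) * ∫ y, y ^ (2 * n) ∂(gaussianReal 0 1) := by
    rw [integral_map hmeas.aemeasurable (by fun_prop), ← integral_const_mul]
    congr 1
    funext y
    rw [mul_pow]
    congr 1
    rw [pow_mul, pow_mul, sq_abs]
  rw [e2, e3, e4] at h3
  have h4 := hgm n
  have h5 : 2 * (|(1 : ℝ)| ^ (2 * n) / ((2 * n).factorial : ℝ) * (|Real.sqrt v| ^ (2 * n) * ∫ y, y ^ (2 * n) ∂(gaussianReal 0 1))) ≤ ε / 2 := by
    refine le_trans ?_ hn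
    have e5 : |(1 : ℝ)| ^ (2 * n) / ((2 * n).factorial : ℝ) * (|Real.sqrt v| ^ (2 * n) * ∫ y, y ^ (2 * n) ∂(gaussianReal 0 1)) =
        |Real.sqrt v| ^ (2 * n) / ((2 * n).factorial : ℝ) * ∫ y, y ^ (2 * n) ∂(gaussianReal 0 1) := by
      rw [abs_one, one_pow]
      ring
    rw [e5]
    linarith
  have h6 : 2 * e * Real.exp |(1 : ℝ)| ≤ ε / 2 := by
    rw [abs_one, he]
    apply le_of_eq
    field_simp
    ring
  have h7 : ‖(∑ s ∈ F, (mz s : ℂ) * cexp ((x s : ℂ) * I)) / B - (Real.exp (-v / 2) : ℂ)‖ ≤ ε := by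
    refine h3.trans ?_
    linarith
  have hBc : (B : ℂ) ≠ 0 := by exact_mod_cast hA0.ne'
  have e6 : (∑ s ∈ F, (mz s : ℂ) * cexp ((x s : ℂ) * I)) - (Real.exp (-v / 2) : ℂ) * B =
      ((∑ s ∈ F, (mz s : ℂ) * cexp ((x s : ℂ) * I)) / B - (Real.exp (-v / 2) : ℂ)) * B := by
    rw [sub_mul, div_mul_cancel₀ _ hBc]
  rw [e6, norm_mul, Complex.norm_real, Real.norm_eq_abs, abs_of_pos hA0]
  exact mul_le_mul_of_nonneg_right h7 hA0.le

open Classical in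
/-- closeness in measure, from a bound of the second moment -/
theorem xc_gen2 {x : ℝ → ℝ → ℂ → ℝ} {y : ℝ → ℂ → ℝ} (Q : ℝ) (hQ0 : 0 < Q)
    (hM : ∃ δ₂ : ℝ, 0 < δ₂ ∧ ∀ δ : ℝ, 0 < δ → δ ≤ δ₂ → ∀ᶠ T : ℝ in atTop,
      ∑ s ∈ H370.Zf riemannZeta T (2 * T), (mz s : ℝ) * x δ T s ^ 2 ≤ Q * AT T) (D : ℝ → ℝ → ℂ → ℝ) (c : ℝ) (hc : 0 < c)
    (hy : ∀ δ : ℝ, 0 < δ → δ ≤ 1 → ∀ᶠ T : ℝ in atTop, ∀ s ∈ H370.Zf riemannZeta T (2 * T),
      |y T s - x δ T s * (Real.sqrt (Real.log (Real.log ⌊T ^ δ⌋₊) / 2) / Real.sqrt (Real.log (Real.log T) / 2))| *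
        Real.sqrt (Real.log (Real.log T) / 2) ≤ c * |D δ T s|)
    (hD : ∃ δ₂ : ℝ, 0 < δ₂ ∧ ∀ δ : ℝ, 0 < δ → δ ≤ δ₂ → ∃ C : ℝ, 0 ≤ C ∧ ∀ᶠ T : ℝ in atTop,
      ∑ s ∈ H370.Zf riemannZeta T (2 * T), (mz s : ℝ) * D δ T s ^ 2 ≤ C * (Real.log T * T)) : XC x y := by
  obtain ⟨δ₃, hδ₃, hD⟩ := hD
  obtain ⟨δ₂, hδ₂, hM⟩ := hM
  refine ⟨min (min δ₂ δ₃) 1, by positivity, fun δ hδ0 hδ η ε hη hε => ?_⟩
  have hδb : δ ≤ δ₂ := hδ.trans ((min_le_left _ _).trans (min_le_left _ _))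
  have hδc : δ ≤ δ₃ := hδ.trans ((min_le_left _ _).trans (min_le_right _ _))
  have hδ1 : δ ≤ 1 := hδ.trans (min_le_right _ _)
  obtain ⟨C, hC0, hC⟩ := hD δ hδ0 hδc
  obtain ⟨R, hR⟩ : ∃ R, R = 1 + 2 * Q / ε := ⟨_, rfl⟩
  have hR0 : 0 < R := by rw [hR]; positivity
  have hR2 : Q / R ^ 2 ≤ ε / 2 := by
    rw [div_le_iff₀ (by positivity)]
    have h1 : 2 * Q / ε ≤ R := by rw [hR]; linarith
    have h2 : 1 ≤ R := by
      rw [hR]
      have : 0 ≤ 2 * Q / ε := by positivity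
      linarith
    rw [div_le_iff₀ hε] at h1
    nlinarith [mul_pos hε hR0]
  obtain ⟨r, hr⟩ : ∃ r, r = 1 - min (η / (2 * R)) (1 / 2) := ⟨_, rfl⟩
  have hr0 : 0 < r := by
    rw [hr]
    have := min_le_right (η / (2 * R)) (1 / 2 : ℝ)
    linarith
  have hr1 : r < 1 := by
    rw [hr]
    have : 0 < min (η / (2 * R)) (1 / 2 : ℝ) := by positivity
    linarith
  have hrR : R * (1 - r) ≤ η / 2 := by
    rw [hr]
    have h1 := min_le_left (η / (2 * R)) (1 / 2 : ℝ)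
    calc R * (1 - (1 - min (η / (2 * R)) (1 / 2))) = R * min (η / (2 * R)) (1 / 2) := by ring
      _ ≤ R * (η / (2 * R)) := by gcongr
      _ = η / 2 := by field_simp
  have hll : Tendsto (fun T : ℝ => Real.log (Real.log T)) atTop atTop :=
    Real.tendsto_log_atTop.comp Real.tendsto_log_atTop
  filter_upwards [hM δ hδ0 hδb, hC, hy δ hδ0 hδ1, ratio_one δ hδ0 hδ1 r hr0 hr1, eventually_ge_atTop (3 : ℝ),
    hll.eventually_ge_atTop (C * c ^ 2 * 32 * Real.pi / (ε * η ^ 2))] with T h2m hC hy ⟨hs1, hs2, hs3, hs4⟩ hT hLL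
  have hL0 : 0 < Real.log T := Real.log_pos (by linarith)
  have hpi := Real.pi_pos
  have hA0 : 0 < AT T := AT_pos hT
  have hAd : AT T = Real.log T / (2 * Real.pi) * T := rfl
  set L := Real.log T with hL
  set A := AT T with hAA
  set sT := Real.sqrt (Real.log L / 2) with hsT
  set sX := Real.sqrt (Real.log (Real.log ⌊T ^ δ⌋₊) / 2) with hsX
  have hLLpos : 0 < Real.log L := by
    have := Real.sqrt_pos.1 hs1
    linarith
  have hsT2 : sT ^ 2 = Real.log L / 2 := Real.sq_sqrt (by linarith)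
  set F := H370.Zf riemannZeta T (2 * T) with hF
  have hw : ∀ s ∈ F, (0 : ℝ) ≤ mz s := fun s _ => Nat.cast_nonneg _
  have h3 := chebw F (fun s => (mz s : ℝ)) (fun s => x δ T s) R (Q * A) hR0 hw h2m
  have h3' : ∑ s ∈ F.filter (fun s => R < |x δ T s|), (mz s : ℝ) ≤ ε / 2 * A := by
    refine h3.trans ?_
    calc Q * A / R ^ 2 = Q / R ^ 2 * A := by ring
      _ ≤ ε / 2 * A := mul_le_mul_of_nonneg_right hR2 hA0.le
  have h4 := chebw F (fun s => (mz s : ℝ)) (fun s => D δ T s) (η / 2 * sT / c) (C * (L * T)) (by positivity) hw hC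
  have h4' : ∑ s ∈ F.filter (fun s => η / 2 * sT / c < |D δ T s|), (mz s : ℝ) ≤ ε / 2 * A := by
    refine h4.trans ?_
    rw [div_le_iff₀ (by positivity), div_pow, mul_pow, hsT2]
    rw [div_le_iff₀ (by positivity)] at hLL
    have e1 : ε / 2 * A * ((η / 2) ^ 2 * (Real.log L / 2) / c ^ 2) = (L * T) / (32 * Real.pi * c ^ 2) * (Real.log L * (ε * η ^ 2)) := by
      rw [hAd]; field_simp; ring
    rw [e1]
    have e2 : C * (L * T) = (L * T) / (32 * Real.pi * c ^ 2) * (C * c ^ 2 * 32 * Real.pi) := by field_simp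
    rw [e2]
    gcongr
  have h5 : F.filter (fun s => η < |y T s - x δ T s|) ⊆ F.filter (fun s => R < |x δ T s|) ∪
      F.filter (fun s => η / 2 * sT / c < |D δ T s|) := by
    intro s hs
    rw [Finset.mem_filter] at hs
    obtain ⟨hs5, hs8⟩ := hs
    by_contra hcon
    rw [Finset.mem_union, Finset.mem_filter, Finset.mem_filter] at hcon
    push Not at hcon
    have g1 := hcon.1 hs5
    have g2 := hcon.2 hs5
    have g3 := hy s hs5
    have e4 : sX / sT ≤ 1 := by rw [div_le_one hs1]; exact hs3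
    have e5 : r ≤ sX / sT := by rw [le_div_iff₀ hs1]; exact hs4
    have g4 : |y T s - x δ T s * (sX / sT)| ≤ η / 2 := by
      rw [le_div_iff₀ hc] at g2
      have : |y T s - x δ T s * (sX / sT)| * sT ≤ η / 2 * sT := by
        calc _ ≤ c * |D δ T s| := g3
          _ = |D δ T s| * c := by ring
          _ ≤ η / 2 * sT := g2
      exact le_of_mul_le_mul_right this hs1
    have g5 : |x δ T s * (sX / sT) - x δ T s| ≤ η / 2 := by
      have : x δ T s * (sX / sT) - x δ T s = x δ T s * (sX / sT - 1) := by ring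
      rw [this, abs_mul]
      have g6 : |sX / sT - 1| ≤ 1 - r := by
        rw [abs_le]; constructor <;> linarith
      exact (mul_le_mul g1 g6 (abs_nonneg _) hR0.le).trans hrR
    have g7 : |y T s - x δ T s| ≤ η := by
      have : y T s - x δ T s = (y T s - x δ T s * (sX / sT)) + (x δ T s * (sX / sT) - x δ T s) := by ring
      rw [this]
      refine (abs_add_le _ _).trans ?_
      linarith
    linarith
  have h6 : ∑ s ∈ F.filter (fun s => η < |y T s - x δ T s|), (mz s : ℝ) ≤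
      ∑ s ∈ F.filter (fun s => R < |x δ T s|), (mz s : ℝ) + ∑ s ∈ F.filter (fun s => η / 2 * sT / c < |D δ T s|), (mz s : ℝ) := by
    refine (Finset.sum_le_sum_of_subset_of_nonneg h5 fun s hs _ => by positivity).trans ?_
    rw [← Finset.sum_union_inter]
    have : 0 ≤ ∑ s ∈ F.filter (fun s => R < |x δ T s|) ∩ F.filter (fun s => η / 2 * sT / c < |D δ T s|), (mz s : ℝ) :=
      Finset.sum_nonneg fun s hs => by positivity
    linarith
  linarith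

theorem xc_F2 {m : ℕ} (hS : S_SAMP) (hW : S_WIDA) (hC : S_CLS) (h : Fin m → ℝ → ℝ) (u : Fin m → ℝ)
    (hh : ∀ i, ∀ᶠ T : ℝ in atTop, |h i T| ≤ 1) (v : ℝ)
    (hv : ∀ δ : ℝ, 0 < δ → δ ≤ 1 → Tendsto (fun T : ℝ => va (alf h u T) ⌊T ^ δ⌋₊) atTop (𝓝 v)) :
    XC (xA (alf h u) 1) (yF h u 1) := by
  obtain ⟨δ₁, h1, h2⟩ := xmu_a hS hW (alf h u) (∑ i, |u i|) (by positivity) (fun T n => al_le h u T n) v hv 2 1 one_pos
  refine xc_gen2 (1 + |∫ x, (Real.sqrt v * x) ^ 2 ∂(gaussianReal 0 1)|) (by positivity) ⟨δ₁, h1, fun δ hδ hδ1 => ?_⟩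
    (DF h u) (1 / Real.sqrt 1) (by simp) (fun δ hδ hδ1 => ?_) (DF_bound hC h u hh)
  · filter_upwards [h2 δ hδ hδ1, eventually_ge_atTop 3] with T h2 hT
    have hA0 := AT_pos hT
    have h3 := (abs_le.1 (h2 2 le_rfl)).2
    have e1 : ∑ s ∈ H370.Zf riemannZeta T (2 * T), (mz s : ℝ) * xA (alf h u) 1 δ T s ^ 2 =
        ∑ s ∈ H370.Zf riemannZeta T (2 * T), (mz s : ℝ) * RNa (alf h u T) ⌊T ^ δ⌋₊ s.im ^ 2 := by
      refine Finset.sum_congr rfl fun s _ => ?_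
      unfold xA
      rw [Real.sqrt_one, div_one]
    rw [e1]
    have h4 : (∫ x, (Real.sqrt v * x) ^ 2 ∂(gaussianReal 0 1)) * AT T ≤ |∫ x, (Real.sqrt v * x) ^ 2 ∂(gaussianReal 0 1)| * AT T :=
      mul_le_mul_of_nonneg_right (le_abs_self _) hA0.le
    linarith
  · filter_upwards [ratio_one δ hδ hδ1 (1 / 2) (by norm_num) (by norm_num)] with T ⟨hs1, hs2, hs3, hs4⟩ s hs
    rw [yF_eq h u s hs1 hs2, abs_div, abs_div, abs_of_pos hs1, Real.sqrt_one, abs_one]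
    apply le_of_eq
    field_simp

/-- the characteristic function of the field -/
theorem cf_F {m : ℕ} (hS : S_SAMP) (hW : S_WIDA) (hC : S_CLS) (h : Fin m → ℝ → ℝ) (u : Fin m → ℝ)
    (hh : ∀ i, ∀ᶠ T : ℝ in atTop, |h i T| ≤ 1) (v : ℝ) (hv0 : 0 ≤ v)
    (hv : ∀ δ : ℝ, 0 < δ → δ ≤ 1 → Tendsto (fun T : ℝ => va (alf h u T) ⌊T ^ δ⌋₊) atTop (𝓝 v)) (ε : ℝ) (hε : 0 < ε) :
    ∀ᶠ T : ℝ in atTop, ‖(∑ s ∈ H370.Zf riemannZeta T (2 * T), (mz s : ℂ) * cexp ((yF h u 1 T s : ℂ) * I)) -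
        (Real.exp (-v / 2) : ℂ) * AT T‖ ≤ ε * AT T := by
  classical
  obtain ⟨δ₁, hδ₁, h1⟩ := cf_a hS hW (alf h u) (∑ i, |u i|) (by positivity) (fun T n => al_le h u T n) v hv0 hv (ε / 4) (by positivity)
  obtain ⟨δ₂, hδ₂, h2⟩ := xc_F2 hS hW hC h u hh v hv
  obtain ⟨δ₃, hδ₃, h3⟩ := xmu_a hS hW (alf h u) (∑ i, |u i|) (by positivity) (fun T n => al_le h u T n) v hv 0 1 one_pos
  obtain ⟨δ, hδ⟩ : ∃ δ, δ = min δ₁ (min δ₂ δ₃) := ⟨_, rfl⟩
  have hδ0 : 0 < δ := by rw [hδ]; positivity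
  have hδa : δ ≤ δ₁ := by rw [hδ]; exact min_le_left _ _
  have hδb : δ ≤ δ₂ := by rw [hδ]; exact (min_le_right _ _).trans (min_le_left _ _)
  have hδc : δ ≤ δ₃ := by rw [hδ]; exact (min_le_right _ _).trans (min_le_right _ _)
  filter_upwards [h1 δ hδ0 hδa, h2 δ hδ0 hδb (ε / 8) (ε / 8) (by positivity) (by positivity), h3 δ hδ0 hδc,
    eventually_ge_atTop (3 : ℝ)] with T h1 h2 h3 hT
  have hA0 := AT_pos hT
  set B := AT T with hB
  set F := H370.Zf riemannZeta T (2 * T) with hF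
  have h4 := (abs_le.1 (h3 0 le_rfl)).2
  simp only [pow_zero, mul_one, integral_const, smul_eq_mul, probReal_univ, one_mul] at h4
  have hN : ∑ s ∈ F, (mz s : ℝ) ≤ 2 * B := by linarith
  have hxA : ∀ s : ℂ, xA (alf h u) 1 δ T s = RNa (alf h u T) ⌊T ^ δ⌋₊ s.im := by
    intro s
    unfold xA
    rw [Real.sqrt_one, div_one]
  have hexp : ∀ a b : ℝ, ‖cexp ((a : ℂ) * I) - cexp ((b : ℂ) * I)‖ ≤ |a - b| := by
    intro a b
    have e1 : cexp ((a : ℂ) * I) - cexp ((b : ℂ) * I) = cexp ((b : ℂ) * I) * (cexp (I * ((a - b : ℝ) : ℂ)) - 1) := by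
      rw [mul_sub, ← Complex.exp_add, mul_one]
      congr 2
      push_cast
      ring
    rw [e1, norm_mul, Complex.norm_exp_ofReal_mul_I, one_mul]
    have := Real.norm_exp_I_mul_ofReal_sub_one_le (x := a - b)
    rwa [Real.norm_eq_abs] at this
  have hexp2 : ∀ a b : ℝ, ‖cexp ((a : ℂ) * I) - cexp ((b : ℂ) * I)‖ ≤ 2 := by
    intro a b
    refine (norm_sub_le _ _).trans ?_
    rw [Complex.norm_exp_ofReal_mul_I, Complex.norm_exp_ofReal_mul_I]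
    norm_num
  have h5 : ‖(∑ s ∈ F, (mz s : ℂ) * cexp ((yF h u 1 T s : ℂ) * I)) -
      ∑ s ∈ F, (mz s : ℂ) * cexp ((RNa (alf h u T) ⌊T ^ δ⌋₊ s.im : ℂ) * I)‖ ≤ ε / 2 * B := by
    rw [← Finset.sum_sub_distrib]
    refine (norm_sum_le _ _).trans ?_
    have h6 : ∀ s ∈ F, ‖(mz s : ℂ) * cexp ((yF h u 1 T s : ℂ) * I) - (mz s : ℂ) * cexp ((RNa (alf h u T) ⌊T ^ δ⌋₊ s.im : ℂ) * I)‖ ≤
        (mz s : ℝ) * (ε / 8) + (if ε / 8 < |yF h u 1 T s - xA (alf h u) 1 δ T s| then 2 * (mz s : ℝ) else 0) := by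
      intro s _
      rw [← mul_sub, norm_mul, Complex.norm_natCast]
      have hm0 : (0 : ℝ) ≤ mz s := Nat.cast_nonneg _
      split_ifs with h7
      · have := hexp2 (yF h u 1 T s) (RNa (alf h u T) ⌊T ^ δ⌋₊ s.im)
        have h8 : (mz s : ℝ) * ‖cexp ((yF h u 1 T s : ℂ) * I) - cexp ((RNa (alf h u T) ⌊T ^ δ⌋₊ s.im : ℂ) * I)‖ ≤ (mz s : ℝ) * 2 := by gcongr
        have h9 : 0 ≤ (mz s : ℝ) * (ε / 8) := by positivity
        linarith
      · have h8 := hexp (yF h u 1 T s) (RNa (alf h u T) ⌊T ^ δ⌋₊ s.im)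
        rw [hxA] at h7
        push Not at h7
        have h9 : (mz s : ℝ) * ‖cexp ((yF h u 1 T s : ℂ) * I) - cexp ((RNa (alf h u T) ⌊T ^ δ⌋₊ s.im : ℂ) * I)‖ ≤ (mz s : ℝ) * (ε / 8) := by
          gcongr
          exact h8.trans h7
        linarith
    refine (Finset.sum_le_sum h6).trans ?_
    rw [Finset.sum_add_distrib, ← Finset.sum_mul, ← Finset.sum_filter, ← Finset.mul_sum]
    have h7 : (∑ s ∈ F, (mz s : ℝ)) * (ε / 8) ≤ 2 * B * (ε / 8) := by gcongr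
    have h8 : 2 * ∑ s ∈ F.filter (fun s => ε / 8 < |yF h u 1 T s - xA (alf h u) 1 δ T s|), (mz s : ℝ) ≤ 2 * (ε / 8 * B) := by
      apply mul_le_mul_of_nonneg_left _ (by norm_num)
      exact h2
    calc _ ≤ 2 * B * (ε / 8) + 2 * (ε / 8 * B) := add_le_add h7 h8
      _ = ε / 2 * B := by ring
  calc _ = ‖((∑ s ∈ F, (mz s : ℂ) * cexp ((yF h u 1 T s : ℂ) * I)) -
        ∑ s ∈ F, (mz s : ℂ) * cexp ((RNa (alf h u T) ⌊T ^ δ⌋₊ s.im : ℂ) * I)) +
        ((∑ s ∈ F, (mz s : ℂ) * cexp ((RNa (alf h u T) ⌊T ^ δ⌋₊ s.im : ℂ) * I)) - (Real.exp (-v / 2) : ℂ) * B)‖ := by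
        congr 1; ring
    _ ≤ ε / 2 * B + ε / 4 * B := (norm_add_le _ _).trans (add_le_add h5 h1)
    _ ≤ ε * B := by
        have : 0 < ε * B := by positivity
        linarith

end

end Pool.Agent.Q97.UM
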