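import Pool.Agent.Q97.UM.Wf3
import Pool.Agent.Q97.UM.Stm12

set_option autoImplicit false

/-! Project UM15: the covariances for all shifts. -/

namespace Pool.Agent.Q97.UM

open Filter Topology MeasureTheory Complex ProbabilityTheory

noncomputable section

/-- zeta near the line `1` -/
theorem zlog : ∃ C : ℝ, 0 ≤ C ∧ ∀ x y : ℝ, 0 < x → x ≤ 1 → |y| ≤ 2 →
    |Real.log ‖riemannZeta (1 + x + y * I)‖ + Real.log (|y| + x)| ≤ C := by
  have hres := riemannZeta_residue_one.norm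
  rw [norm_one] at hres
  have hev : ∀ᶠ s in 𝓝[≠] (1 : ℂ), ‖(s - 1) * riemannZeta s‖ ∈ Set.Icc (1 / 2 : ℝ) 2 := by
    have : Set.Icc (1 / 2 : ℝ) 2 ∈ 𝓝 (1 : ℝ) := Icc_mem_nhds (by norm_num) (by norm_num)
    exact hres.eventually this
  rw [eventually_nhdsWithin_iff, Metric.eventually_nhds_iff] at hev
  obtain ⟨r, hr0, hr⟩ := hev
  set K : Set ℂ := {z : ℂ | z ∈ (Set.Icc 1 2 ×ℂ Set.Icc (-2) 2) ∧ r ≤ ‖z - 1‖} with hK
  have hKc : IsCompact K := by
    have h1 : IsCompact (Set.Icc (1 : ℝ) 2 ×ℂ Set.Icc (-2 : ℝ) 2) := isCompact_Icc.reProdIm isCompact_Icc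
    have h2 : IsClosed {z : ℂ | r ≤ ‖z - 1‖} := isClosed_le continuous_const (by fun_prop)
    exact h1.inter_right h2
  have hne : ∀ z ∈ K, z ≠ 1 := by
    intro z hz h
    have := hz.2
    rw [h, sub_self, norm_zero] at this
    linarith
  have hcont : ContinuousOn (fun z : ℂ => Real.log ‖(z - 1) * riemannZeta z‖) K := by
    refine ContinuousOn.log ?_ ?_
    · refine ContinuousOn.norm (ContinuousOn.mul (by fun_prop) ?_)
      intro z hz
      exact (differentiableAt_riemannZeta (hne z hz)).continuousAt.continuousWithinAt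
    · intro z hz
      rw [norm_ne_zero_iff]
      refine mul_ne_zero (sub_ne_zero.2 (hne z hz)) (riemannZeta_ne_zero_of_one_le_re ?_)
      have := hz.1
      rw [mem_reProdIm] at this
      exact this.1.1
  obtain ⟨C, hC⟩ := hKc.exists_bound_of_continuousOn hcont
  have hl2 : Real.log 2 ≤ 1 := by
    have := Real.log_two_lt_d9
    linarith
  refine ⟨max C 1 + 1, by positivity, fun x y hx hx1 hy => ?_⟩
  set z : ℂ := 1 + x + y * I with hz
  have hzre : z.re = 1 + x := by rw [hz]; simp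
  have hzim : z.im = y := by rw [hz]; simp
  have hz1 : z - 1 = x + y * I := by rw [hz]; ring
  have hz1' : z ≠ 1 := by
    intro h
    have := congrArg Complex.re h
    rw [hzre, Complex.one_re] at this
    linarith
  have hzz : riemannZeta z ≠ 0 := riemannZeta_ne_zero_of_one_le_re (by rw [hzre]; linarith)
  have hB : |Real.log ‖(z - 1) * riemannZeta z‖| ≤ max C 1 := by
    rcases le_or_gt r ‖z - 1‖ with h | h
    · refine le_trans ?_ (le_max_left _ _)
      have := hC z ⟨?_, h⟩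
      · exact this
      · rw [mem_reProdIm, hzre, hzim]
        exact ⟨⟨by linarith, by linarith⟩, abs_le.1 hy⟩
    · refine le_trans ?_ (le_max_right _ _)
      have h1 := hr (show dist z 1 < r by rw [dist_eq_norm]; exact h) hz1'
      have h2 : 0 < ‖(z - 1) * riemannZeta z‖ := by linarith [h1.1]
      rw [abs_le]
      constructor
      · have h3 : Real.log (1 / 2) ≤ Real.log ‖(z - 1) * riemannZeta z‖ := Real.log_le_log (by norm_num) h1.1
        rw [one_div, Real.log_inv] at h3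
        linarith
      · have h3 : Real.log ‖(z - 1) * riemannZeta z‖ ≤ Real.log 2 := Real.log_le_log h2 h1.2
        linarith
  have hn : ‖z - 1‖ = Real.sqrt (x ^ 2 + y ^ 2) := by
    rw [hz1, Complex.norm_add_mul_I]
  have hy0 := abs_nonneg y
  have hs0 : 0 < |y| + x := by linarith
  have hup : ‖z - 1‖ ≤ |y| + x := by
    rw [hn, Real.sqrt_le_left hs0.le]
    nlinarith [sq_abs y]
  have hlo : (|y| + x) / 2 ≤ ‖z - 1‖ := by
    rw [hn]
    apply Real.le_sqrt_of_sq_le
    nlinarith [sq_abs y, sq_nonneg (|y| - x)]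
  have hn0 : 0 < ‖z - 1‖ := by linarith
  have hA : |Real.log (|y| + x) - Real.log ‖z - 1‖| ≤ 1 := by
    have h1 : Real.log ‖z - 1‖ ≤ Real.log (|y| + x) := Real.log_le_log hn0 hup
    have h2 : Real.log ((|y| + x) / 2) ≤ Real.log ‖z - 1‖ := Real.log_le_log (by positivity) hlo
    rw [Real.log_div hs0.ne' two_ne_zero] at h2
    rw [abs_le]
    constructor <;> linarith
  rw [norm_mul, Real.log_mul hn0.ne' (norm_ne_zero_iff.2 hzz)] at hB
  have e1 : Real.log ‖riemannZeta z‖ + Real.log (|y| + x) =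
      (Real.log ‖z - 1‖ + Real.log ‖riemannZeta z‖) + (Real.log (|y| + x) - Real.log ‖z - 1‖) := by ring
  rw [e1]
  exact (abs_add_le _ _).trans (add_le_add hB hA)

/-- the shifts: `|h_i - h_j| + 1/log T` is `(log T)^(-σ_ij + o(1))` -/
def MesoG {m : ℕ} (h : Fin m → ℝ → ℝ) (σ : Fin m → Fin m → ℝ) : Prop := ∀ i j,
  Tendsto (fun T : ℝ => -Real.log (|h i T - h j T| + 1 / Real.log T) / Real.log (Real.log T)) atTop (𝓝 (σ i j))

theorem va_tendstoG {m : ℕ} (hV : S_MZ) {h : Fin m → ℝ → ℝ} (hh : ∀ i, ∀ᶠ T : ℝ in atTop, |h i T| ≤ 1)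
    {σ : Fin m → Fin m → ℝ} (hm : MesoG h σ) (u : Fin m → ℝ) (δ : ℝ) (hδ : 0 < δ)
    (hδ1 : δ ≤ 1) : Tendsto (fun T : ℝ => va (alf h u T) ⌊T ^ δ⌋₊) atTop (𝓝 (vv σ u)) := by
  classical
  have hll : Tendsto (fun T : ℝ => Real.log (Real.log T)) atTop atTop :=
    Real.tendsto_log_atTop.comp Real.tendsto_log_atTop
  obtain ⟨C₁, hC₁0, hC₁⟩ := zlog
  obtain ⟨C₂, hC₂⟩ := hV δ hδ hδ1
  have hpair : ∀ i j, Tendsto (fun T : ℝ => (∑ p ∈ (Finset.Icc 1 ⌊T ^ δ⌋₊).filter Nat.Prime,
      Real.cos ((h i T - h j T) * Real.log p) / p) / Real.log (Real.log ⌊T ^ δ⌋₊)) atTop (𝓝 (σ i j)) := by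
    intro i j
    have h1 : Tendsto (fun T : ℝ => (C₁ + C₂) / Real.log (Real.log T)) atTop (𝓝 0) := hll.const_div_atTop _
    have h2 : Tendsto (fun T : ℝ => (∑ p ∈ (Finset.Icc 1 ⌊T ^ δ⌋₊).filter Nat.Prime,
        Real.cos ((h i T - h j T) * Real.log p) / p) / Real.log (Real.log T) -
        (-Real.log (|h i T - h j T| + 1 / Real.log T) / Real.log (Real.log T))) atTop (𝓝 0) := by
      refine squeeze_zero_norm' ?_ h1
      filter_upwards [hC₂, hh i, hh j, hll.eventually_gt_atTop 0, eventually_ge_atTop (3 : ℝ)] with T hC₂ hi hj hL hT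
      have hT1 : 1 ≤ Real.log T := by
        rw [Real.le_log_iff_exp_le (by linarith)]
        have := Real.exp_one_lt_d9
        linarith
      have g1 := hC₂ (h i T - h j T)
      have g2 := hC₁ (1 / Real.log T) (h i T - h j T) (by positivity) (by rw [div_le_one (by linarith)]; exact hT1)
        (by rw [abs_le] at *; constructor <;> linarith [hi.1, hi.2, hj.1, hj.2])
      rw [Real.norm_eq_abs, ← sub_div, abs_div, abs_of_pos hL]
      gcongr
      have e1 : (1 : ℂ) + ((1 / Real.log T : ℝ) : ℂ) + ((h i T - h j T : ℝ) : ℂ) * I =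
          1 + 1 / Real.log T + ((h i T - h j T : ℝ) : ℂ) * I := by push_cast; ring
      rw [e1] at g2
      rw [abs_le] at g1 g2 ⊢
      constructor <;> linarith [g1.1, g1.2, g2.1, g2.2]
    have h3 := h2.add (hm i j)
    rw [zero_add] at h3
    have h4 : Tendsto (fun T : ℝ => (∑ p ∈ (Finset.Icc 1 ⌊T ^ δ⌋₊).filter Nat.Prime,
        Real.cos ((h i T - h j T) * Real.log p) / p) / Real.log (Real.log T)) atTop (𝓝 (σ i j)) := by
      refine h3.congr fun T => ?_
      ring
    have h5 := h4.mul (loglog_ratio δ hδ hδ1)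
    rw [mul_one] at h5
    refine h5.congr' ?_
    filter_upwards [hll.eventually_gt_atTop 0] with T h0
    field_simp
  have hsum : Tendsto (fun T : ℝ => ∑ i, ∑ j, u i * u j * ((∑ p ∈ (Finset.Icc 1 ⌊T ^ δ⌋₊).filter Nat.Prime,
      Real.cos ((h i T - h j T) * Real.log p) / p) / Real.log (Real.log ⌊T ^ δ⌋₊))) atTop (𝓝 (vv σ u)) := by
    unfold vv
    refine tendsto_finsetSum _ fun i _ => tendsto_finsetSum _ fun j _ => ?_
    exact (hpair i j).const_mul _
  refine hsum.congr fun T => ?_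
  unfold va
  rw [N2_al, Finset.sum_div]
  refine Finset.sum_congr rfl fun i _ => ?_
  rw [Finset.sum_div]
  refine Finset.sum_congr rfl fun j _ => ?_
  ring

theorem N2_nonneg' (N : ℕ) (b : ℕ → ℂ) : 0 ≤ N2 N b := by
  unfold N2
  exact Finset.sum_nonneg fun n _ => by positivity

theorem vv_nonneg {m : ℕ} (hV : S_MZ) {h : Fin m → ℝ → ℝ} (hh : ∀ i, ∀ᶠ T : ℝ in atTop, |h i T| ≤ 1)
    {σ : Fin m → Fin m → ℝ} (hm : MesoG h σ) (u : Fin m → ℝ) : 0 ≤ vv σ u := by
  have hll : Tendsto (fun T : ℝ => Real.log (Real.log ⌊T ^ (1 : ℝ)⌋₊)) atTop atTop := by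
    have hX : Tendsto (fun T : ℝ => ((⌊T ^ (1 : ℝ)⌋₊ : ℕ) : ℝ)) atTop atTop :=
      tendsto_natCast_atTop_atTop.comp (tendsto_nat_floor_atTop.comp (tendsto_rpow_atTop one_pos))
    exact Real.tendsto_log_atTop.comp (Real.tendsto_log_atTop.comp hX)
  refine ge_of_tendsto (va_tendstoG hV hh hm u 1 one_pos le_rfl) ?_
  filter_upwards [hll.eventually_gt_atTop 0] with T hT
  unfold va
  exact div_nonneg (N2_nonneg' _ _) hT.le

theorem meso_symm {m : ℕ} {h : Fin m → ℝ → ℝ} {σ : Fin m → Fin m → ℝ} (hm : MesoG h σ) (i j : Fin m) : σ i j = σ j i := by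
  refine tendsto_nhds_unique (hm i j) ((hm j i).congr fun T => ?_)
  rw [abs_sub_comm]

/-- the covariance matrix -/
theorem sig_posSemidef {m : ℕ} (hV : S_MZ) {h : Fin m → ℝ → ℝ} (hh : ∀ i, ∀ᶠ T : ℝ in atTop, |h i T| ≤ 1)
    {σ : Fin m → Fin m → ℝ} (hm : MesoG h σ) : (Matrix.of σ).PosSemidef := by
  rw [Matrix.posSemidef_iff_dotProduct_mulVec]
  refine ⟨?_, fun x => ?_⟩
  · ext i j
    simp [Matrix.conjTranspose_apply, meso_symm hm j i]
  · have h1 := vv_nonneg hV hh hm x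
    unfold vv at h1
    have e1 : star x ⬝ᵥ (Matrix.of σ).mulVec x = ∑ i, ∑ j, x i * x j * σ i j := by
      unfold dotProduct Matrix.mulVec dotProduct
      refine Finset.sum_congr rfl fun i _ => ?_
      rw [Finset.mul_sum]
      refine Finset.sum_congr rfl fun j _ => ?_
      simp
      ring
    rw [e1]
    exact h1

end

end Pool.Agent.Q97.UM
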