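import Pool.Agent.Q97.UM.Wf4
import Pool.Agent.Q97.UM.Pcx

set_option autoImplicit false

/-! Project UM15: characteristic functions for general weights on the zeros. -/

namespace Pool.Agent.Q97.UM

open Filter Topology MeasureTheory Complex ProbabilityTheory

noncomputable section

/-- Gaussian moments of all prime sums with bounded coefficients, for the weights `w` -/
def GMA (κ : ℝ) (w : ℝ → ℂ → ℝ) : Prop := ∀ (q : Polynomial ℝ) (A : ℝ), 0 ≤ A → ∀ ε : ℝ, 0 < ε →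
  ∃ δ₁ : ℝ, 0 < δ₁ ∧ ∀ δ : ℝ, 0 < δ → δ ≤ δ₁ → ∀ᶠ T : ℝ in atTop, ∀ α : ℕ → ℂ, (∀ n, ‖α n‖ ≤ A) →
    |(∑ s ∈ H370.Zf riemannZeta T (2 * T), w T s * q.eval (RNa α ⌊T ^ δ⌋₊ s.im)) -
      κ * (∫ x, q.eval (Real.sqrt (va α ⌊T ^ δ⌋₊) * x) ∂(gaussianReal 0 1)) * AT T| ≤ ε * AT T

theorem gma_mz (hS : S_SAMP) (hW : S_WIDA) : GMA 1 (fun _ s => (mz s : ℝ)) := by
  intro q A hA ε hε
  obtain ⟨δ₁, h1, h2⟩ := lawa_a hS hW q A hA ε hε
  refine ⟨δ₁, h1, fun δ h3 h4 => ?_⟩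
  filter_upwards [h2 δ h3 h4] with T h5 α hα
  rw [one_mul]
  exact h5 α hα

/-- Gaussian moments for the pair sums -/
theorem gma_pw (hW : S_WIDA) (hRH : RHz) (R : ℝ → ℝ) (D M lam : ℝ) (hR : Tst R D M) (h0 : 0 < lam) (h1 : lam < 1) :
    GMA (kap R lam) (pw R lam) := by
  intro q A₀ hA₀ ε hε
  obtain ⟨C, hC, hW⟩ := hW q A₀ hA₀
  obtain ⟨θ, hθ, hθ1, hS⟩ := SPCF hRH R D M lam (ε / (16 * (C + 1))) hR h0 h1 (by positivity)
  refine ⟨θ / (q.natDegree + 1), by positivity, fun δ hδ hδ1 => ?_⟩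
  have hX : Tendsto (fun T : ℝ => ⌊T ^ δ⌋₊) atTop atTop := tendsto_nat_floor_atTop.comp (tendsto_rpow_atTop hδ)
  set κ := kap R lam with hκ
  have hW2 := hX.eventually (hW (ε / (2 * (|κ| + 1))) (by positivity))
  filter_upwards [hS, hW2, eventually_ge_atTop 3] with T hS hW hT α hα
  have hN := floor_pow_le (T := T) (by linarith) q.natDegree hδ hδ1
  obtain ⟨J, a, b, h1, h2, h3⟩ := hW (⌊T ^ δ⌋₊ ^ q.natDegree) le_rfl α hα
  set X := ⌊T ^ δ⌋₊ with hXd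
  set N := X ^ q.natDegree with hNd
  have hL0 : 0 < Real.log T := Real.log_pos (by linarith)
  have hpi := Real.pi_pos
  have hpi4 := Real.pi_le_four
  have hA : AT T = Real.log T / (2 * Real.pi) * T := rfl
  have hA0 : 0 < AT T := by rw [hA]; positivity
  set L := Real.log T with hL
  set A := AT T with hAA
  set F := H370.Zf riemannZeta T (2 * T) with hF
  have e1 : (∑ s ∈ F, pw R lam T s * q.eval (RNa α X s.im)) - κ * A * MW N a b =
      ∑ i, a i * (PSf R lam T N (b i) - κ * (L / (2 * Real.pi)) * (T * N2 N (b i))) := by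
    have h4 : ∀ s ∈ F, pw R lam T s * q.eval (RNa α X s.im) =
        ∑ i, a i * (pw R lam T s * ‖dp N (b i) s.im‖ ^ 2) := by
      intro s _
      rw [← h1, WT, Finset.mul_sum]
      exact Finset.sum_congr rfl fun i _ => by ring
    rw [Finset.sum_congr rfl h4, Finset.sum_comm, MW, Finset.mul_sum, ← Finset.sum_sub_distrib]
    refine Finset.sum_congr rfl fun i _ => ?_
    rw [mul_sub, PSf_eq, Finset.mul_sum, hA]
    ring
  have e2 : |(∑ s ∈ F, pw R lam T s * q.eval (RNa α X s.im)) - κ * A * MW N a b| ≤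
      ε / (16 * (C + 1)) * L * (T * VW N a b) := by
    rw [e1]
    refine (Finset.abs_sum_le_sum_abs _ _).trans ?_
    rw [VW, Finset.mul_sum, Finset.mul_sum]
    refine Finset.sum_le_sum fun i _ => ?_
    rw [abs_mul]
    have h5 := hS N hN (b i)
    calc |a i| * |_| ≤ |a i| * (ε / (16 * (C + 1)) * L * (T * N2 N (b i))) := by gcongr
      _ = _ := by ring
  have e3 : ε / (16 * (C + 1)) * L * (T * VW N a b) ≤ ε / 2 * A := by
    have h5 : ε / (16 * (C + 1)) * C ≤ ε / 16 := by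
      rw [div_mul_eq_mul_div, div_le_div_iff₀ (by positivity) (by norm_num)]
      nlinarith
    have h6 : ε / 16 ≤ ε / 2 * (1 / (2 * Real.pi)) := by
      rw [mul_one_div, le_div_iff₀ (by positivity)]
      nlinarith
    calc ε / (16 * (C + 1)) * L * (T * VW N a b) ≤ ε / (16 * (C + 1)) * L * (T * C) := by gcongr
      _ = (ε / (16 * (C + 1)) * C) * (L * T) := by ring
      _ ≤ (ε / 2 * (1 / (2 * Real.pi))) * (L * T) := by
          apply mul_le_mul_of_nonneg_right (h5.trans h6) (by positivity)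
      _ = ε / 2 * A := by rw [hA]; ring
  have e4 : |κ * A * MW N a b - κ * (∫ x, q.eval (Real.sqrt (va α X) * x) ∂(gaussianReal 0 1)) * A| ≤ ε / 2 * A := by
    have : κ * A * MW N a b - κ * (∫ x, q.eval (Real.sqrt (va α X) * x) ∂(gaussianReal 0 1)) * A =
        κ * (MW N a b - ∫ x, q.eval (Real.sqrt (va α X) * x) ∂(gaussianReal 0 1)) * A := by ring
    rw [this, abs_mul, abs_mul, abs_of_pos hA0]
    apply mul_le_mul_of_nonneg_right _ hA0.le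
    calc |κ| * |_| ≤ |κ| * (ε / (2 * (|κ| + 1))) := by gcongr
      _ ≤ ε / 2 := by
        rw [mul_div_assoc', div_le_div_iff₀ (by positivity) (by norm_num)]
        nlinarith [abs_nonneg κ]
  rw [abs_le] at *
  constructor <;> linarith [e2.1, e2.2, e4.1, e4.2]

/-- moments without normalisation, for weights -/
theorem xmu_w {κ : ℝ} {w : ℝ → ℂ → ℝ} (hG : GMA κ w) (α : ℝ → ℕ → ℂ) (A : ℝ) (hA : 0 ≤ A)
    (hα : ∀ T n, ‖α T n‖ ≤ A) (v : ℝ)
    (hv : ∀ δ : ℝ, 0 < δ → δ ≤ 1 → Tendsto (fun T : ℝ => va (α T) ⌊T ^ δ⌋₊) atTop (𝓝 v)) :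
    ∀ (K : ℕ) (ε : ℝ), 0 < ε → ∃ δ₁ : ℝ, 0 < δ₁ ∧ ∀ δ : ℝ, 0 < δ → δ ≤ δ₁ → ∀ᶠ T : ℝ in atTop, ∀ k : ℕ, k ≤ K →
      |(∑ s ∈ H370.Zf riemannZeta T (2 * T), w T s * RNa (α T) ⌊T ^ δ⌋₊ s.im ^ k) -
        κ * (∫ x, (Real.sqrt v * x) ^ k ∂(gaussianReal 0 1)) * AT T| ≤ ε * AT T := by
  have single : ∀ (k : ℕ) (ε : ℝ), 0 < ε → ∃ δ₁ : ℝ, 0 < δ₁ ∧ ∀ δ : ℝ, 0 < δ → δ ≤ δ₁ → ∀ᶠ T : ℝ in atTop,
      |(∑ s ∈ H370.Zf riemannZeta T (2 * T), w T s * RNa (α T) ⌊T ^ δ⌋₊ s.im ^ k) -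
        κ * (∫ x, (Real.sqrt v * x) ^ k ∂(gaussianReal 0 1)) * AT T| ≤ ε * AT T := by
    intro k ε hε
    obtain ⟨q, hq⟩ : ∃ q : Polynomial ℝ, q = Polynomial.X ^ k := ⟨_, rfl⟩
    have hqe : ∀ t : ℝ, q.eval t = t ^ k := by
      intro t
      rw [hq, Polynomial.eval_pow, Polynomial.eval_X]
    obtain ⟨δ₁, h1, h2⟩ := hG q A hA (ε / 2) (by positivity)
    refine ⟨min δ₁ 1, by positivity, fun δ hδ hδ1' => ?_⟩
    have hδ1 := hδ1'.trans (min_le_left _ _)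
    have hδ2 := hδ1'.trans (min_le_right _ _)
    have hcont : Tendsto (fun T : ℝ => κ * ∫ x, q.eval (Real.sqrt (va (α T) ⌊T ^ δ⌋₊) * x) ∂(gaussianReal 0 1)) atTop
        (𝓝 (κ * ∫ x, q.eval (Real.sqrt v * x) ∂(gaussianReal 0 1))) :=
      (((gpoly_cont q).tendsto (Real.sqrt v)).comp ((Real.continuous_sqrt.tendsto v).comp (hv δ hδ hδ2))).const_mul κ
    have hlim : ∫ x, q.eval (Real.sqrt v * x) ∂(gaussianReal 0 1) = ∫ x, (Real.sqrt v * x) ^ k ∂(gaussianReal 0 1) := by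
      congr 1
      funext x
      rw [hqe]
    rw [hlim] at hcont
    have hclose := (Metric.tendsto_nhds.1 hcont) (ε / 2) (by positivity)
    filter_upwards [h2 δ hδ hδ1, hclose, eventually_ge_atTop 3] with T h2 hclose hT
    have h3 := h2 (α T) (hα T)
    have hA0 := AT_pos hT
    rw [Real.dist_eq] at hclose
    have e1 : ∑ s ∈ H370.Zf riemannZeta T (2 * T), w T s * q.eval (RNa (α T) ⌊T ^ δ⌋₊ s.im) =
        ∑ s ∈ H370.Zf riemannZeta T (2 * T), w T s * RNa (α T) ⌊T ^ δ⌋₊ s.im ^ k :=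
      Finset.sum_congr rfl fun s _ => by rw [hqe]
    rw [e1] at h3
    set Gq := ∫ x, q.eval (Real.sqrt (va (α T) ⌊T ^ δ⌋₊) * x) ∂(gaussianReal 0 1) with hGq
    set Gm := ∫ x, (Real.sqrt v * x) ^ k ∂(gaussianReal 0 1) with hG
    have e2 : |κ * Gq * AT T - κ * Gm * AT T| ≤ ε / 2 * AT T := by
      rw [← sub_mul, abs_mul, abs_of_pos hA0]
      exact mul_le_mul_of_nonneg_right hclose.le hA0.le
    rw [abs_le] at *
    constructor <;> linarith [h3.1, h3.2, e2.1, e2.2]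
  intro K
  induction K with
  | zero =>
    intro ε hε
    obtain ⟨δ₁, h1, h2⟩ := single 0 ε hε
    refine ⟨δ₁, h1, fun δ hδ hδ1 => ?_⟩
    filter_upwards [h2 δ hδ hδ1] with T h k hk
    have : k = 0 := by omega
    subst this
    exact h
  | succ K ih =>
    intro ε hε
    obtain ⟨δ₁, h1, h2⟩ := single (K + 1) ε hε
    obtain ⟨δ₂, h3, h4⟩ := ih ε hε
    refine ⟨min δ₁ δ₂, by positivity, fun δ hδ hδ1 => ?_⟩
    filter_upwards [h2 δ hδ (hδ1.trans (min_le_left _ _)), h4 δ hδ (hδ1.trans (min_le_right _ _))] with T h h' k hk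
    rcases Nat.lt_or_ge K k with h5 | h5
    · have : k = K + 1 := by omega
      subst this
      exact h
    · exact h' k h5

/-- the characteristic function of the prime sums, for weights -/
theorem cf_w {κ : ℝ} (hκ : 0 < κ) {w : ℝ → ℂ → ℝ} (hG : GMA κ w)
    (hw : ∀ᶠ T : ℝ in atTop, ∀ s ∈ H370.Zf riemannZeta T (2 * T), 0 ≤ w T s) (α : ℝ → ℕ → ℂ) (A : ℝ) (hA : 0 ≤ A)
    (hα : ∀ T n, ‖α T n‖ ≤ A) (v : ℝ) (hv0 : 0 ≤ v)
    (hv : ∀ δ : ℝ, 0 < δ → δ ≤ 1 → Tendsto (fun T : ℝ => va (α T) ⌊T ^ δ⌋₊) atTop (𝓝 v)) (ε : ℝ) (hε : 0 < ε) :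
    ∃ δ₁ : ℝ, 0 < δ₁ ∧ ∀ δ : ℝ, 0 < δ → δ ≤ δ₁ → ∀ᶠ T : ℝ in atTop,
      ‖(∑ s ∈ H370.Zf riemannZeta T (2 * T), (w T s : ℂ) * cexp ((RNa (α T) ⌊T ^ δ⌋₊ s.im : ℂ) * I)) -
        (Real.exp (-v / 2) : ℂ) * ((κ * AT T : ℝ) : ℂ)‖ ≤ ε * (κ * AT T) := by
  obtain ⟨C, hC, hgm⟩ := Pool.Agent.Q224.UM.gauss_moment (Real.sqrt v)
  obtain ⟨n, hn⟩ : ∃ n : ℕ, 2 * (C / 4 ^ n) ≤ ε / 2 := by
    have h1 : Tendsto (fun n : ℕ => 2 * (C / 4 ^ n)) atTop (𝓝 (2 * 0)) :=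
      (Tendsto.div_atTop tendsto_const_nhds (tendsto_pow_atTop_atTop_of_one_lt (by norm_num))).const_mul 2
    rw [mul_zero] at h1
    exact ((h1.eventually (ge_mem_nhds (show (0 : ℝ) < ε / 2 by positivity))).exists)
  obtain ⟨e, he⟩ : ∃ e, e = ε / (4 * Real.exp 1) := ⟨_, rfl⟩
  have he0 : 0 < e := by rw [he]; positivity
  obtain ⟨δ₁, h1, h2⟩ := xmu_w hG α A hA hα v hv (2 * n) (κ * e) (by positivity)
  refine ⟨δ₁, h1, fun δ hδ hδ1 => ?_⟩
  filter_upwards [h2 δ hδ hδ1, hw, eventually_ge_atTop 3] with T h2 hw hT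
  have hA0' := AT_pos hT
  have hA0 : 0 < κ * AT T := by positivity
  set B := κ * AT T with hB
  set F := H370.Zf riemannZeta T (2 * T) with hF
  set x : ℂ → ℝ := fun s => RNa (α T) ⌊T ^ δ⌋₊ s.im with hx
  have hwB : ∀ s ∈ F, 0 ≤ w T s / B := fun s hs => div_nonneg (hw s hs) hA0.le
  have hmeas : Measurable (fun y : ℝ => Real.sqrt v * y) := measurable_const_mul _
  have hfin : IsFiniteMeasure ((gaussianReal 0 1).map (fun y : ℝ => Real.sqrt v * y)) := by infer_instance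
  have h3 := Pool.Agent.Q224.UM.cf_close (pm F (fun s => w T s / B) x) ((gaussianReal 0 1).map (fun y : ℝ => Real.sqrt v * y)) n 1 e
    he0.le (fun k _ => pm_int _ _ _ _) (fun k _ => by
      rw [integrable_map_measure (by fun_prop) hmeas.aemeasurable]
      exact gpow_int k _) (fun k hk => by
      rw [pm_integral _ _ _ hwB, integral_map hmeas.aemeasurable (by fun_prop)]
      have h4 := h2 k hk
      have e1 : (∑ s ∈ F, w T s / B * x s ^ k) - ∫ y, (Real.sqrt v * y) ^ k ∂(gaussianReal 0 1) =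
          ((∑ s ∈ F, w T s * x s ^ k) - κ * (∫ y, (Real.sqrt v * y) ^ k ∂(gaussianReal 0 1)) * AT T) / B := by
        rw [show κ * (∫ y, (Real.sqrt v * y) ^ k ∂(gaussianReal 0 1)) * AT T = (∫ y, (Real.sqrt v * y) ^ k ∂(gaussianReal 0 1)) * B by
          rw [hB]; ring]
        rw [sub_div, mul_div_cancel_right₀ _ hA0.ne', Finset.sum_div]
        congr 1
        exact Finset.sum_congr rfl fun s _ => by ring
      rw [e1, abs_div, abs_of_pos hA0, div_le_iff₀ hA0]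
      exact h4.trans (le_of_eq (by rw [hB]; ring)))
  have e2 : charFun ((gaussianReal 0 1).map (fun y : ℝ => Real.sqrt v * y)) 1 = (Real.exp (-v / 2) : ℂ) := by
    have : (gaussianReal 0 1).map (fun y : ℝ => Real.sqrt v * y) = (gaussianReal 0 1).map (Real.sqrt v * ·) := rfl
    rw [this, charFun_map_mul, charFun_gaussianReal]
    have e3 : ((Real.sqrt v * 1 : ℝ) : ℂ) ^ 2 = (v : ℂ) := by
      rw [mul_one, ← Complex.ofReal_pow, Real.sq_sqrt hv0]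
    rw [e3]
    push_cast
    congr 1
    simp
    ring
  have e3 : charFun (pm F (fun s => w T s / B) x) 1 = (∑ s ∈ F, (w T s : ℂ) * cexp ((x s : ℂ) * I)) / B := by
    rw [charFun_apply_real, pm_integral_c _ _ _ hwB, Finset.sum_div]
    refine Finset.sum_congr rfl fun s _ => ?_
    push_cast
    rw [one_mul]
    ring
  have e4 : ∫ y, y ^ (2 * n) ∂((gaussianReal 0 1).map (fun y : ℝ => Real.sqrt v * y)) =
      |Real.sqrt v| ^ (2 * n) * ∫ y, y ^ (2 * n) ∂(gaussianReal 0 1) := by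
    rw [integral_map hmeas.aemeasurable (by fun_prop), ← integral_const_mul]
    congr 1
    funext y
    rw [mul_pow]
    congr 1
    rw [pow_mul, pow_mul, sq_abs]
  rw [e2, e3, e4] at h3
  have h4 := hgm n
  have h5 : 2 * (|(1 : ℝ)| ^ (2 * n) / ((2 * n).factorial : ℝ) * (|Real.sqrt v| ^ (2 * n) * ∫ y, y ^ (2 * n) ∂(gaussianReal 0 1))) ≤ ε / 2 := by
    refine le_trans ?_ hn
    have e5 : |(1 : ℝ)| ^ (2 * n) / ((2 * n).factorial : ℝ) * (|Real.sqrt v| ^ (2 * n) * ∫ y, y ^ (2 * n) ∂(gaussianReal 0 1)) =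
        |Real.sqrt v| ^ (2 * n) / ((2 * n).factorial : ℝ) * ∫ y, y ^ (2 * n) ∂(gaussianReal 0 1) := by
      rw [abs_one, one_pow]
      ring
    rw [e5]
    linarith
  have h6 : 2 * e * Real.exp |(1 : ℝ)| ≤ ε / 2 := by
    rw [abs_one, he]
    apply le_of_eq
    field_simp
    ring
  have h7 : ‖(∑ s ∈ F, (w T s : ℂ) * cexp ((x s : ℂ) * I)) / B - (Real.exp (-v / 2) : ℂ)‖ ≤ ε := by
    refine h3.trans ?_
    linarith
  have hBc : (B : ℂ) ≠ 0 := by exact_mod_cast hA0.ne'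
  have e6 : (∑ s ∈ F, (w T s : ℂ) * cexp ((x s : ℂ) * I)) - (Real.exp (-v / 2) : ℂ) * B =
      ((∑ s ∈ F, (w T s : ℂ) * cexp ((x s : ℂ) * I)) / B - (Real.exp (-v / 2) : ℂ)) * B := by
    rw [sub_mul, div_mul_cancel₀ _ hBc]
  rw [e6, norm_mul, Complex.norm_real, Real.norm_eq_abs, abs_of_pos hA0]
  exact mul_le_mul_of_nonneg_right h7 hA0.le

open Classical in
/-- `y T` is close to `x δ T` at almost all zeros, for the weights `w` -/
def XCW (w : ℝ → ℂ → ℝ) (x : ℝ → ℝ → ℂ → ℝ) (y : ℝ → ℂ → ℝ) : Prop := ∃ δ₂ : ℝ, 0 < δ₂ ∧ ∀ δ : ℝ, 0 < δ → δ ≤ δ₂ →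
  ∀ η ε : ℝ, 0 < η → 0 < ε → ∀ᶠ T : ℝ in atTop,
    ∑ s ∈ (H370.Zf riemannZeta T (2 * T)).filter (fun s => η < |y T s - x δ T s|), w T s ≤ ε * AT T

/-- the characteristic function of the field, for weights -/
theorem cf_Fw {κ : ℝ} (hκ : 0 < κ) {w : ℝ → ℂ → ℝ} (hG : GMA κ w)
    (hw : ∀ᶠ T : ℝ in atTop, ∀ s ∈ H370.Zf riemannZeta T (2 * T), 0 ≤ w T s) {m : ℕ} (h : Fin m → ℝ → ℝ) (u : Fin m → ℝ)
    (hC : XCW w (xA (alf h u) 1) (yF h u 1)) (v : ℝ) (hv0 : 0 ≤ v)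
    (hv : ∀ δ : ℝ, 0 < δ → δ ≤ 1 → Tendsto (fun T : ℝ => va (alf h u T) ⌊T ^ δ⌋₊) atTop (𝓝 v)) (ε : ℝ) (hε : 0 < ε) :
    ∀ᶠ T : ℝ in atTop, ‖(∑ s ∈ H370.Zf riemannZeta T (2 * T), (w T s : ℂ) * cexp ((yF h u 1 T s : ℂ) * I)) -
        (Real.exp (-v / 2) : ℂ) * ((κ * AT T : ℝ) : ℂ)‖ ≤ ε * (κ * AT T) := by
  classical
  obtain ⟨δ₁, hδ₁, h1⟩ := cf_w hκ hG hw (alf h u) (∑ i, |u i|) (by positivity) (fun T n => al_le h u T n) v hv0 hv (ε / 4) (by positivity)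
  obtain ⟨δ₂, hδ₂, h2⟩ := hC
  obtain ⟨δ₃, hδ₃, h3⟩ := xmu_w hG (alf h u) (∑ i, |u i|) (by positivity) (fun T n => al_le h u T n) v hv 0 κ hκ
  obtain ⟨δ, hδ⟩ : ∃ δ, δ = min δ₁ (min δ₂ δ₃) := ⟨_, rfl⟩
  have hδ0 : 0 < δ := by rw [hδ]; positivity
  have hδa : δ ≤ δ₁ := by rw [hδ]; exact min_le_left _ _
  have hδb : δ ≤ δ₂ := by rw [hδ]; exact (min_le_right _ _).trans (min_le_left _ _)
  have hδc : δ ≤ δ₃ := by rw [hδ]; exact (min_le_right _ _).trans (min_le_right _ _)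
  filter_upwards [h1 δ hδ0 hδa, h2 δ hδ0 hδb (ε / 8) (κ * (ε / 8)) (by positivity) (by positivity), h3 δ hδ0 hδc, hw,
    eventually_ge_atTop (3 : ℝ)] with T h1 h2 h3 hw hT
  have hA0' := AT_pos hT
  have hA0 : 0 < κ * AT T := by positivity
  have h4 := (abs_le.1 (h3 0 le_rfl)).2
  simp only [pow_zero, mul_one, integral_const, smul_eq_mul, probReal_univ] at h4
  set B := κ * AT T with hB
  set F := H370.Zf riemannZeta T (2 * T) with hF
  have hN : ∑ s ∈ F, w T s ≤ 2 * B := by linarith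
  have hxA : ∀ s : ℂ, xA (alf h u) 1 δ T s = RNa (alf h u T) ⌊T ^ δ⌋₊ s.im := by
    intro s
    unfold xA
    rw [Real.sqrt_one, div_one]
  have hexp : ∀ a b : ℝ, ‖cexp ((a : ℂ) * I) - cexp ((b : ℂ) * I)‖ ≤ |a - b| := by
    intro a b
    have e1 : cexp ((a : ℂ) * I) - cexp ((b : ℂ) * I) = cexp ((b : ℂ) * I) * (cexp (I * ((a - b : ℝ) : ℂ)) - 1) := by
      rw [mul_sub, ← Complex.exp_add, mul_one]
      congr 2
      push_cast
      ring
    rw [e1, norm_mul, Complex.norm_exp_ofReal_mul_I, one_mul]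
    have := Real.norm_exp_I_mul_ofReal_sub_one_le (x := a - b)
    rwa [Real.norm_eq_abs] at this
  have hexp2 : ∀ a b : ℝ, ‖cexp ((a : ℂ) * I) - cexp ((b : ℂ) * I)‖ ≤ 2 := by
    intro a b
    refine (norm_sub_le _ _).trans ?_
    rw [Complex.norm_exp_ofReal_mul_I, Complex.norm_exp_ofReal_mul_I]
    norm_num
  have h5 : ‖(∑ s ∈ F, (w T s : ℂ) * cexp ((yF h u 1 T s : ℂ) * I)) -
      ∑ s ∈ F, (w T s : ℂ) * cexp ((RNa (alf h u T) ⌊T ^ δ⌋₊ s.im : ℂ) * I)‖ ≤ ε / 2 * B := by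
    rw [← Finset.sum_sub_distrib]
    refine (norm_sum_le _ _).trans ?_
    have h6 : ∀ s ∈ F, ‖(w T s : ℂ) * cexp ((yF h u 1 T s : ℂ) * I) - (w T s : ℂ) * cexp ((RNa (alf h u T) ⌊T ^ δ⌋₊ s.im : ℂ) * I)‖ ≤
        w T s * (ε / 8) + (if ε / 8 < |yF h u 1 T s - xA (alf h u) 1 δ T s| then 2 * w T s else 0) := by
      intro s hs
      have hm0 : 0 ≤ w T s := hw s hs
      rw [← mul_sub, norm_mul, Complex.norm_real, Real.norm_eq_abs, abs_of_nonneg hm0]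
      split_ifs with h7
      · have := hexp2 (yF h u 1 T s) (RNa (alf h u T) ⌊T ^ δ⌋₊ s.im)
        have h8 : w T s * ‖cexp ((yF h u 1 T s : ℂ) * I) - cexp ((RNa (alf h u T) ⌊T ^ δ⌋₊ s.im : ℂ) * I)‖ ≤ w T s * 2 := by gcongr
        have h9 : 0 ≤ w T s * (ε / 8) := by positivity
        linarith
      · have h8 := hexp (yF h u 1 T s) (RNa (alf h u T) ⌊T ^ δ⌋₊ s.im)
        rw [hxA] at h7
        push Not at h7
        have h9 : w T s * ‖cexp ((yF h u 1 T s : ℂ) * I) - cexp ((RNa (alf h u T) ⌊T ^ δ⌋₊ s.im : ℂ) * I)‖ ≤ w T s * (ε / 8) := by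
          gcongr
          exact h8.trans h7
        linarith
    refine (Finset.sum_le_sum h6).trans ?_
    rw [Finset.sum_add_distrib, ← Finset.sum_mul, ← Finset.sum_filter, ← Finset.mul_sum]
    have h7 : (∑ s ∈ F, w T s) * (ε / 8) ≤ 2 * B * (ε / 8) := by gcongr
    have h8 : 2 * ∑ s ∈ F.filter (fun s => ε / 8 < |yF h u 1 T s - xA (alf h u) 1 δ T s|), w T s ≤ 2 * (ε / 8 * B) := by
      apply mul_le_mul_of_nonneg_left _ (by norm_num)
      refine h2.trans (le_of_eq ?_)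
      rw [hB]; ring
    calc _ ≤ 2 * B * (ε / 8) + 2 * (ε / 8 * B) := add_le_add h7 h8
      _ = ε / 2 * B := by ring
  calc _ = ‖((∑ s ∈ F, (w T s : ℂ) * cexp ((yF h u 1 T s : ℂ) * I)) -
        ∑ s ∈ F, (w T s : ℂ) * cexp ((RNa (alf h u T) ⌊T ^ δ⌋₊ s.im : ℂ) * I)) +
        ((∑ s ∈ F, (w T s : ℂ) * cexp ((RNa (alf h u T) ⌊T ^ δ⌋₊ s.im : ℂ) * I)) - (Real.exp (-v / 2) : ℂ) * B)‖ := by
        congr 1; ring
    _ ≤ ε / 2 * B + ε / 4 * B := (norm_add_le _ _).trans (add_le_add h5 h1)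
    _ ≤ ε * B := by
        have : 0 < ε * B := by positivity
        linarith

end

end Pool.Agent.Q97.UM
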