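import Pool.Agent.Q97.UM.Wf5

set_option autoImplicit false

/-! Project UM15: the joint law, for weights on the zeros. -/

namespace Pool.Agent.Q97.UM

open Filter Topology MeasureTheory Complex ProbabilityTheory

noncomputable section

open Classical in
/-- closeness for weights dominated by `SS` -/
theorem xcw_dom {w : ℝ → ℂ → ℝ} {x : ℝ → ℝ → ℂ → ℝ} {y : ℝ → ℂ → ℝ} (K η C : ℝ) (hK : 0 ≤ K) (hC0 : 0 ≤ C)
    (hSS : ∀ᶠ T : ℝ in atTop, ∑ s ∈ H370.Zf riemannZeta T (2 * T), (mz s : ℝ) * SS η T s.im ^ 2 ≤ C * (Real.log T * T))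
    (hSS0 : ∀ᶠ T : ℝ in atTop, ∀ s ∈ H370.Zf riemannZeta T (2 * T), 0 ≤ SS η T s.im)
    (hw : ∀ᶠ T : ℝ in atTop, ∀ s ∈ H370.Zf riemannZeta T (2 * T), w T s ≤ K * ((mz s : ℝ) * SS η T s.im))
    (hC : XC x y) : XCW w x y := by
  obtain ⟨δ₂, h0, hC⟩ := hC
  refine ⟨δ₂, h0, fun δ hδ hδ2 η' ε hη' hε => ?_⟩
  have hpi := Real.pi_pos
  obtain ⟨M, hM⟩ : ∃ M, M = 4 * Real.pi * K * C / ε + 1 := ⟨_, rfl⟩
  have hM0 : 0 < M := by rw [hM]; positivity
  obtain ⟨e, he⟩ : ∃ e, e = ε / (2 * (K + 1) * M) := ⟨_, rfl⟩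
  have he0 : 0 < e := by rw [he]; positivity
  filter_upwards [hC δ hδ hδ2 η' e hη' he0, hSS, hSS0, hw, eventually_ge_atTop (3 : ℝ)] with T hC hSS hSS0 hw hT
  have hA0 := AT_pos hT
  have hL0 : 0 < Real.log T := Real.log_pos (by linarith)
  have hAd : AT T = Real.log T / (2 * Real.pi) * T := rfl
  set F := H370.Zf riemannZeta T (2 * T) with hF
  set G := F.filter (fun s => η' < |y T s - x δ T s|) with hG
  have hGF : G ⊆ F := Finset.filter_subset _ _
  have h1 : ∑ s ∈ G, w T s ≤ K * (M * ∑ s ∈ G, (mz s : ℝ) + 1 / M * ∑ s ∈ F, (mz s : ℝ) * SS η T s.im ^ 2) := by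
    calc ∑ s ∈ G, w T s ≤ ∑ s ∈ G, K * ((mz s : ℝ) * SS η T s.im) := Finset.sum_le_sum fun s hs => hw s (hGF hs)
      _ ≤ ∑ s ∈ G, K * (M * (mz s : ℝ) + 1 / M * ((mz s : ℝ) * SS η T s.im ^ 2)) := by
          refine Finset.sum_le_sum fun s hs => ?_
          apply mul_le_mul_of_nonneg_left _ hK
          have h2 : SS η T s.im ≤ M + 1 / M * SS η T s.im ^ 2 := by
            have h3 := hSS0 s (hGF hs)
            rw [one_div, inv_mul_eq_div, ← sub_le_iff_le_add', le_div_iff₀ hM0]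
            nlinarith [sq_nonneg (SS η T s.im - M), mul_nonneg hM0.le h3]
          have hm0 : (0 : ℝ) ≤ mz s := Nat.cast_nonneg _
          calc (mz s : ℝ) * SS η T s.im ≤ (mz s : ℝ) * (M + 1 / M * SS η T s.im ^ 2) := by gcongr
            _ = _ := by ring
      _ = K * (M * ∑ s ∈ G, (mz s : ℝ) + 1 / M * ∑ s ∈ G, (mz s : ℝ) * SS η T s.im ^ 2) := by
          rw [← Finset.mul_sum, Finset.sum_add_distrib, ← Finset.mul_sum, ← Finset.mul_sum]
      _ ≤ _ := by
          apply mul_le_mul_of_nonneg_left _ hK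
          gcongr
  refine h1.trans ?_
  have h3 : K * (M * ∑ s ∈ G, (mz s : ℝ)) ≤ ε / 2 * AT T := by
    calc K * (M * ∑ s ∈ G, (mz s : ℝ)) ≤ K * (M * (e * AT T)) := by gcongr
      _ = (K * M * e) * AT T := by ring
      _ ≤ ε / 2 * AT T := by
          apply mul_le_mul_of_nonneg_right _ hA0.le
          rw [he, mul_div_assoc', div_le_div_iff₀ (by positivity) (by norm_num)]
          have : 0 < ε * M := by positivity
          nlinarith
  have h4 : K * (1 / M * ∑ s ∈ F, (mz s : ℝ) * SS η T s.im ^ 2) ≤ ε / 2 * AT T := by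
    calc K * (1 / M * ∑ s ∈ F, (mz s : ℝ) * SS η T s.im ^ 2) ≤ K * (1 / M * (C * (Real.log T * T))) := by gcongr
      _ = (K * C * (2 * Real.pi) / M) * AT T := by rw [hAd]; field_simp
      _ ≤ ε / 2 * AT T := by
          apply mul_le_mul_of_nonneg_right _ hA0.le
          rw [div_le_iff₀ hM0, hM]
          have e1 : ε / 2 * (4 * Real.pi * K * C / ε + 1) = K * C * (2 * Real.pi) + ε / 2 := by
            field_simp
            ring
          rw [e1]
          linarith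
  calc _ = K * (M * ∑ s ∈ G, (mz s : ℝ)) + K * (1 / M * ∑ s ∈ F, (mz s : ℝ) * SS η T s.im ^ 2) := by ring
    _ ≤ ε / 2 * AT T + ε / 2 * AT T := add_le_add h3 h4
    _ = ε * AT T := by ring

/-- the vector of the values of the field -/
def vecF {m : ℕ} (h : Fin m → ℝ → ℝ) (T : ℝ) (s : ℂ) : EuclideanSpace ℝ (Fin m) :=
  WithLp.toLp 2 (fun i => LM T (s.im + h i T) / Real.sqrt (Real.log (Real.log T) / 2))

theorem vecF_inner {m : ℕ} (h : Fin m → ℝ → ℝ) (T : ℝ) (s : ℂ) (u : EuclideanSpace ℝ (Fin m)) :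
    Inner.inner ℝ (vecF h T s) u = yF h (fun i => u i) 1 T s := by
  unfold yF vecF
  rw [Real.sqrt_one, div_one, PiLp.inner_apply]
  refine Finset.sum_congr rfl fun i _ => ?_
  simp

/-- a weighted sum of Dirac measures on a Euclidean space -/
def pmE {m : ℕ} (F : Finset ℂ) (w : ℂ → ℝ) (x : ℂ → EuclideanSpace ℝ (Fin m)) : Measure (EuclideanSpace ℝ (Fin m)) :=
  ∑ s ∈ F, ENNReal.ofReal (w s) • Measure.dirac (x s)

theorem pmE_integral {m : ℕ} {E : Type} [NormedAddCommGroup E] [NormedSpace ℝ E] [CompleteSpace E] (F : Finset ℂ) (w : ℂ → ℝ)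
    (x : ℂ → EuclideanSpace ℝ (Fin m)) (hw : ∀ s ∈ F, 0 ≤ w s) (f : EuclideanSpace ℝ (Fin m) → E) :
    ∫ y, f y ∂(pmE F w x) = ∑ s ∈ F, (w s) • f (x s) := by
  unfold pmE
  rw [integral_finsetSum_measure fun s _ => (integrable_dirac (by simp)).smul_measure ENNReal.ofReal_ne_top]
  refine Finset.sum_congr rfl fun s hs => ?_
  rw [integral_smul_measure, integral_dirac, ENNReal.toReal_ofReal (hw s hs)]

theorem pmE_prob {m : ℕ} (F : Finset ℂ) (w : ℂ → ℝ) (x : ℂ → EuclideanSpace ℝ (Fin m)) (hw : ∀ s ∈ F, 0 ≤ w s)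
    (h1 : ∑ s ∈ F, w s = 1) : IsProbabilityMeasure (pmE F w x) := by
  constructor
  unfold pmE
  rw [Measure.finsetSum_apply]
  have : ∀ s ∈ F, (ENNReal.ofReal (w s) • Measure.dirac (x s)) Set.univ = ENNReal.ofReal (w s) := by
    intro s _
    simp
  rw [Finset.sum_congr rfl this, ← ENNReal.ofReal_sum_of_nonneg hw, h1, ENNReal.ofReal_one]

/-- the joint law -/
theorem joint_w {κ : ℝ} (hκ : 0 < κ) {w : ℝ → ℂ → ℝ} (hG : GMA κ w)
    (hw : ∀ᶠ T : ℝ in atTop, ∀ s ∈ H370.Zf riemannZeta T (2 * T), 0 ≤ w T s) {m : ℕ} (h : Fin m → ℝ → ℝ)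
    (hh : ∀ i, ∀ᶠ T : ℝ in atTop, |h i T| ≤ 1) {σ : Fin m → Fin m → ℝ} (hm : MesoG h σ) (hV : S_MZ)
    (hC : ∀ u : Fin m → ℝ, XCW w (xA (alf h u) 1) (yF h u 1)) (f : BoundedContinuousFunction (EuclideanSpace ℝ (Fin m)) ℝ) :
    Tendsto (fun T : ℝ => (∑ s ∈ H370.Zf riemannZeta T (2 * T), w T s * f (vecF h T s)) / AT T) atTop
      (𝓝 (κ * ∫ y, f y ∂(multivariateGaussian 0 (Matrix.of σ)))) := by
  classical
  have hS := sig_posSemidef hV hh hm
  have hcf : ∀ u : EuclideanSpace ℝ (Fin m), Tendsto (fun T : ℝ => (∑ s ∈ H370.Zf riemannZeta T (2 * T),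
      (w T s : ℂ) * cexp ((Inner.inner ℝ (vecF h T s) u : ℝ) * I)) / ((κ * AT T : ℝ) : ℂ)) atTop
        (𝓝 (Real.exp (-(vv σ (fun i => u i)) / 2) : ℂ)) := by
    intro u
    rw [Metric.tendsto_nhds]
    intro ε hε
    have h1 := cf_Fw hκ hG hw h (fun i => u i) (hC _) (vv σ (fun i => u i)) (vv_nonneg hV hh hm _)
      (fun δ hδ hδ1 => va_tendstoG hV hh hm _ δ hδ hδ1) (ε / 2) (by positivity)
    filter_upwards [h1, eventually_ge_atTop (3 : ℝ)] with T h1 hT
    have hA0' := AT_pos hT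
    have hA0 : 0 < κ * AT T := by positivity
    rw [dist_eq_norm]
    simp_rw [vecF_inner]
    have hBc : ((κ * AT T : ℝ) : ℂ) ≠ 0 := by exact_mod_cast hA0.ne'
    have e1 : (∑ s ∈ H370.Zf riemannZeta T (2 * T), (w T s : ℂ) * cexp ((yF h (fun i => u i) 1 T s : ℂ) * I)) / ((κ * AT T : ℝ) : ℂ) -
        (Real.exp (-(vv σ (fun i => u i)) / 2) : ℂ) =
        ((∑ s ∈ H370.Zf riemannZeta T (2 * T), (w T s : ℂ) * cexp ((yF h (fun i => u i) 1 T s : ℂ) * I)) -
          (Real.exp (-(vv σ (fun i => u i)) / 2) : ℂ) * ((κ * AT T : ℝ) : ℂ)) / ((κ * AT T : ℝ) : ℂ) := by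
      rw [sub_div, mul_div_cancel_right₀ _ hBc]
    rw [e1, norm_div, Complex.norm_real, Real.norm_eq_abs, abs_of_pos hA0, div_lt_iff₀ hA0]
    refine h1.trans_lt ?_
    nlinarith
  -- the total mass
  have hvv0 : vv σ (fun _ => (0 : ℝ)) = 0 := by unfold vv; simp
  have htot : Tendsto (fun T : ℝ => (∑ s ∈ H370.Zf riemannZeta T (2 * T), w T s) / (κ * AT T)) atTop (𝓝 1) := by
    have h1 := (Complex.continuous_re.tendsto _).comp (hcf 0)
    have e0 : vv σ (fun i => (0 : EuclideanSpace ℝ (Fin m)) i) = 0 := hvv0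
    rw [e0] at h1
    simp only [neg_zero, zero_div, Real.exp_zero, Complex.ofReal_one, Complex.one_re] at h1
    refine h1.congr fun T => ?_
    simp only [Function.comp, inner_zero_right, Complex.ofReal_zero, zero_mul, Complex.exp_zero, mul_one]
    rw [← Complex.ofReal_sum, ← Complex.ofReal_div, Complex.ofReal_re]
  refine tendsto_of_seq_tendsto fun t ht => ?_
  -- the probability measures
  set F : ℕ → Finset ℂ := fun n => H370.Zf riemannZeta (t n) (2 * t n) with hF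
  set W : ℕ → ℝ := fun n => ∑ s ∈ F n, w (t n) s with hW
  have htot' : Tendsto (fun n => W n / (κ * AT (t n))) atTop (𝓝 1) := htot.comp ht
  have hAt : ∀ᶠ n in atTop, 0 < AT (t n) := by
    filter_upwards [ht.eventually_ge_atTop 3] with n hn
    exact AT_pos hn
  have hWpos : ∀ᶠ n in atTop, 0 < W n := by
    filter_upwards [htot'.eventually_const_lt (show (0 : ℝ) < 1 by norm_num), hAt] with n h1 h2
    have h3 : 0 < κ * AT (t n) := by positivity
    exact (div_pos_iff_of_pos_right h3).1 h1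
  have hgood : ∀ᶠ n in atTop, (∀ s ∈ F n, 0 ≤ w (t n) s / W n) ∧ ∑ s ∈ F n, w (t n) s / W n = 1 := by
    filter_upwards [hWpos, ht.eventually hw] with n h1 h2
    refine ⟨fun s hs => div_nonneg (h2 s hs) h1.le, ?_⟩
    rw [← Finset.sum_div]
    exact div_self h1.ne'
  set μ : ℕ → ProbabilityMeasure (EuclideanSpace ℝ (Fin m)) := fun n =>
    if hn : IsProbabilityMeasure (pmE (F n) (fun s => w (t n) s / W n) (vecF h (t n))) then
      ⟨pmE (F n) (fun s => w (t n) s / W n) (vecF h (t n)), hn⟩ else ⟨Measure.dirac 0, inferInstance⟩ with hμ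
  have hμn : ∀ᶠ n in atTop, (μ n : Measure (EuclideanSpace ℝ (Fin m))) = pmE (F n) (fun s => w (t n) s / W n) (vecF h (t n)) := by
    filter_upwards [hgood] with n hn
    have h1 := pmE_prob (F n) (fun s => w (t n) s / W n) (vecF h (t n)) hn.1 hn.2
    simp only [hμ, dif_pos h1]
    rfl
  set μ₀ : ProbabilityMeasure (EuclideanSpace ℝ (Fin m)) := ⟨multivariateGaussian 0 (Matrix.of σ), inferInstance⟩ with hμ₀
  have hconv : Tendsto μ atTop (𝓝 μ₀) := by
    rw [ProbabilityMeasure.tendsto_iff_tendsto_charFun]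
    intro u
    have e1 : charFun (μ₀ : Measure (EuclideanSpace ℝ (Fin m))) u = (Real.exp (-(vv σ (fun i => u i)) / 2) : ℂ) := by
      show charFun (multivariateGaussian 0 (Matrix.of σ)) u = _
      rw [charFun_multivariateGaussian hS, inner_zero_right]
      push_cast
      congr 1
      have e2 : u.ofLp ⬝ᵥ (Matrix.of σ).mulVec u.ofLp = vv σ (fun i => u i) := by
        unfold vv dotProduct Matrix.mulVec dotProduct
        refine Finset.sum_congr rfl fun i _ => ?_
        rw [Finset.mul_sum]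
        refine Finset.sum_congr rfl fun j _ => ?_
        simp
        ring
      rw [← e2]
      simp
      ring
    rw [e1]
    have h1 := ((hcf u).comp ht).div ((Complex.continuous_ofReal.tendsto _).comp htot') (by simp)
    rw [Complex.ofReal_one, div_one] at h1
    refine h1.congr' ?_
    filter_upwards [hμn, hgood, hWpos, hAt] with n h2 h3 h4 h5
    rw [h2, charFun_apply, pmE_integral _ _ _ h3.1]
    simp only [Function.comp, Pi.div_apply]
    have h6 : ((κ * AT (t n) : ℝ) : ℂ) ≠ 0 := by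
      have : 0 < κ * AT (t n) := by positivity
      exact_mod_cast this.ne'
    have h7 : ((W n : ℝ) : ℂ) ≠ 0 := by exact_mod_cast h4.ne'
    rw [Complex.ofReal_div, div_div_div_cancel_right₀ h6, Finset.sum_div]
    refine Finset.sum_congr rfl fun s _ => ?_
    rw [Complex.real_smul]
    push_cast
    ring
  have hint := (ProbabilityMeasure.tendsto_iff_forall_integral_tendsto.1 hconv) f
  have h1 := (hint.mul htot').const_mul κ
  rw [mul_one] at h1
  refine h1.congr' ?_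
  filter_upwards [hμn, hgood, hWpos, hAt] with n h2 h3 h4 h5
  rw [h2, pmE_integral _ _ _ h3.1]
  show κ * ((∑ s ∈ F n, (w (t n) s / W n) • f (vecF h (t n) s)) * (W n / (κ * AT (t n)))) = _
  have e1 : ∑ s ∈ F n, (w (t n) s / W n) • f (vecF h (t n) s) = (∑ s ∈ F n, w (t n) s * f (vecF h (t n) s)) / W n := by
    rw [Finset.sum_div]
    refine Finset.sum_congr rfl fun s _ => ?_
    rw [smul_eq_mul]
    ring
  rw [e1]
  show _ = (∑ s ∈ F n, w (t n) s * f (vecF h (t n) s)) / AT (t n)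
  have h6 : κ ≠ 0 := hκ.ne'
  have h7 := h4.ne'
  have h8 := h5.ne'
  field_simp

end

end Pool.Agent.Q97.UM
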