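import Pool.Agent.Q97.UM.Wf6
import Pool.Agent.Q97.UM.Base17

set_option autoImplicit false

/-! Project UM15: the field seen from the zeros, and pair correlation. -/

namespace Pool.Agent.Q97.UM

open Filter Topology MeasureTheory Complex ProbabilityTheory

noncomputable section

/-- second moments of `SS` at the zeros -/
theorem ss_sq : ∃ η C : ℝ, 0 < η ∧ 0 ≤ C ∧ ∀ᶠ T : ℝ in atTop,
    ∑ s ∈ H370.Zf riemannZeta T (2 * T), (mz s : ℝ) * SS η T s.im ^ 2 ≤ C * (Real.log T * T) := by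
  obtain ⟨θ, c, C, hθ, hθ4, hc, hC, hT⟩ := b_TAIL
  obtain ⟨η, hη⟩ : ∃ η, η = c / 64 := ⟨_, rfl⟩
  have hη0 : 0 < η := by rw [hη]; positivity
  obtain ⟨C₁, hC₁, h1⟩ := b_STM θ c C hθ hθ4 hc hC hT 3 η hη0 (by rw [hη]; push_cast; linarith)
  obtain ⟨C₂, hC₂, h2⟩ := b_DSC (θ / 2) η 2 C₁ (by positivity) (by linarith) hη0 hC₁ h1
  refine ⟨η, C₂, hη0, hC₂, ?_⟩
  filter_upwards [h2, eventually_ge_atTop (3 : ℝ)] with T h2 hT
  have h3 := h2 1 (by rw [Nat.cast_one]; exact Real.one_le_rpow (by linarith) (by positivity)) (fun _ => 1)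
  have e1 : ∀ t : ℝ, ‖dp 1 (fun _ => (1 : ℂ)) t‖ = 1 := by
    intro t
    unfold dp
    simp
  have e2 : N2 1 (fun _ => (1 : ℂ)) = 1 := by
    unfold N2
    simp
  simp_rw [e1, e2] at h3
  simp only [one_pow, mul_one] at h3
  refine h3.trans (le_of_eq ?_)
  ring

theorem ss_nonneg (η T t : ℝ) : 0 ≤ SS η T t := by
  unfold SS
  exact Finset.sum_nonneg fun s _ => by positivity

/-- the joint law at all the zeros -/
theorem joint_mz {m : ℕ} (h : Fin m → ℝ → ℝ)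
    (hh : ∀ i, ∀ᶠ T : ℝ in atTop, |h i T| ≤ 1) {σ : Fin m → Fin m → ℝ} (hm : MesoG h σ)
    (f : BoundedContinuousFunction (EuclideanSpace ℝ (Fin m)) ℝ) :
    Tendsto (fun T : ℝ => (∑ s ∈ H370.Zf riemannZeta T (2 * T), (mz s : ℝ) * f (vecF h T s)) / AT T) atTop
      (𝓝 (∫ y, f y ∂(multivariateGaussian 0 (Matrix.of σ)))) := by
  have h1 := joint_w one_pos (gma_mz b_SAMP b_WIDA) (Eventually.of_forall fun T s _ => Nat.cast_nonneg _) h hh hm b_MZ
    (fun u => xc_F2 b_SAMP b_WIDA b_CLS h u hh (vv σ u) (fun δ hδ hδ1 => va_tendstoG b_MZ hh hm u δ hδ hδ1)) f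
  rwa [one_mul] at h1

theorem joint_pw_nonneg (hRH : RHz) {R : ℝ → ℝ} {D M lam : ℝ} (hR : Tst R D M) (h0 : 0 < lam)
    (h1 : lam < 1) (hpos : ∀ x, 0 ≤ fR R x) (hκ : 0 < kap R lam) {m : ℕ} (h : Fin m → ℝ → ℝ)
    (hh : ∀ i, ∀ᶠ T : ℝ in atTop, |h i T| ≤ 1) {σ : Fin m → Fin m → ℝ} (hm : MesoG h σ)
    (f : BoundedContinuousFunction (EuclideanSpace ℝ (Fin m)) ℝ) :
    Tendsto (fun T : ℝ => (∑ s ∈ H370.Zf riemannZeta T (2 * T), pw R lam T s * f (vecF h T s)) / AT T) atTop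
      (𝓝 (kap R lam * ∫ y, f y ∂(multivariateGaussian 0 (Matrix.of σ)))) := by
  have hM : 0 ≤ M := by
    have := (abs_nonneg _).trans (hR.dec 0)
    simpa using this
  obtain ⟨η, C, hη, hC, hSS⟩ := ss_sq
  refine joint_w hκ (gma_pw b_WIDA hRH R D M lam hR h0 h1) (Eventually.of_forall fun T s _ => ?_) h hh hm b_MZ
    (fun u => xcw_dom (2 * M / lam ^ 2) η C (by positivity) hC hSS (Eventually.of_forall fun T s _ => ss_nonneg _ _ _) ?_
      (xc_F2 b_SAMP b_WIDA b_CLS h u hh (vv σ u) (fun δ hδ hδ1 => va_tendstoG b_MZ hh hm u δ hδ hδ1))) f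
  · unfold pw
    exact mul_nonneg (Nat.cast_nonneg _) (Finset.sum_nonneg fun s' _ => mul_nonneg (Nat.cast_nonneg _) (hpos _))
  · filter_upwards [eventually_ge_atTop (16 : ℝ)] with T hT s hs
    exact (le_abs_self _).trans (pw_abs hR h0 h1.le hT η hη.le s)

/-- the joint law for the pair sums -/
theorem joint_pw (hRH : RHz) {R : ℝ → ℝ} {D M lam : ℝ} (hR : Tst R D M) (h0 : 0 < lam)
    (h1 : lam < 1) {m : ℕ} (h : Fin m → ℝ → ℝ)
    (hh : ∀ i, ∀ᶠ T : ℝ in atTop, |h i T| ≤ 1) {σ : Fin m → Fin m → ℝ} (hm : MesoG h σ)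
    (f : BoundedContinuousFunction (EuclideanSpace ℝ (Fin m)) ℝ) :
    Tendsto (fun T : ℝ => (∑ s ∈ H370.Zf riemannZeta T (2 * T), pw R lam T s * f (vecF h T s)) / AT T) atTop
      (𝓝 (kap R lam * ∫ y, f y ∂(multivariateGaussian 0 (Matrix.of σ)))) := by
  have hM : 0 ≤ M := by
    have := (abs_nonneg _).trans (hR.dec 0)
    simpa using this
  have hpi := Real.pi_pos
  obtain ⟨c, hc⟩ : ∃ c, c = M * Real.pi ^ 2 + |kap R lam| + 1 := ⟨_, rfl⟩
  have hc0 : 0 < c := by rw [hc]; positivity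
  have hkg := kap_Rg h0 h1
  have hgpos : ∀ x, 0 ≤ fR Rg x := fun x => by
    have h2 : 0 ≤ 4 / (x ^ 2 + Real.pi ^ 2) := by positivity
    exact h2.trans (fRg_ge x)
  have h1pos : ∀ x, 0 ≤ fR (fun α => R α + c * Rg α) x := by
    intro x
    rw [fR_add hR Tst_Rg]
    have e1 := fRg_ge x
    have e2 := (abs_le.1 (hR.dec x)).1
    have e3 : M / (1 + x ^ 2) ≤ c * (4 / (x ^ 2 + Real.pi ^ 2)) := by
      rw [mul_div_assoc', div_le_div_iff₀ (by positivity) (by positivity)]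
      have e4 : x ^ 2 + Real.pi ^ 2 ≤ Real.pi ^ 2 * (1 + x ^ 2) := by
        have : 1 ≤ Real.pi ^ 2 := by nlinarith [Real.pi_gt_three]
        nlinarith [sq_nonneg x]
      have e5 : M * Real.pi ^ 2 ≤ c * 4 := by
        rw [hc]
        have : 0 ≤ M * Real.pi ^ 2 := by positivity
        have := abs_nonneg (kap R lam)
        linarith
      calc M * (x ^ 2 + Real.pi ^ 2) ≤ M * (Real.pi ^ 2 * (1 + x ^ 2)) := by gcongr
        _ = (M * Real.pi ^ 2) * (1 + x ^ 2) := by ring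
        _ ≤ c * 4 * (1 + x ^ 2) := by gcongr
    have e6 : c * (4 / (x ^ 2 + Real.pi ^ 2)) ≤ c * fR Rg x := by gcongr
    linarith
  have hk1 : kap (fun α => R α + c * Rg α) lam = kap R lam + c * kap Rg lam := kap_add hR Tst_Rg c lam
  have hk1pos : 0 < kap (fun α => R α + c * Rg α) lam := by
    rw [hk1]
    have e1 := neg_abs_le (kap R lam)
    have e2 : c * 2 ≤ c * kap Rg lam := by gcongr
    have e3 : |kap R lam| < c := by
      rw [hc]
      have : 0 ≤ M * Real.pi ^ 2 := by positivity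
      linarith
    linarith
  have H1 := joint_pw_nonneg hRH (Tst_add hR Tst_Rg c hc0.le) h0 h1 h1pos hk1pos h hh hm f
  have H2 := joint_pw_nonneg hRH Tst_Rg h0 h1 hgpos (by linarith) h hh hm f
  have H3 := H1.sub (H2.const_mul c)
  rw [hk1] at H3
  have e0 : (kap R lam + c * kap Rg lam) * (∫ y, f y ∂(multivariateGaussian 0 (Matrix.of σ))) -
      c * (kap Rg lam * ∫ y, f y ∂(multivariateGaussian 0 (Matrix.of σ))) =
      kap R lam * ∫ y, f y ∂(multivariateGaussian 0 (Matrix.of σ)) := by ring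
  rw [e0] at H3
  refine H3.congr fun T => ?_
  have e1 : ∑ s ∈ H370.Zf riemannZeta T (2 * T), pw (fun α => R α + c * Rg α) lam T s * f (vecF h T s) =
      (∑ s ∈ H370.Zf riemannZeta T (2 * T), pw R lam T s * f (vecF h T s)) +
      c * ∑ s ∈ H370.Zf riemannZeta T (2 * T), pw Rg lam T s * f (vecF h T s) := by
    rw [Finset.mul_sum, ← Finset.sum_add_distrib]
    refine Finset.sum_congr rfl fun s _ => ?_
    rw [pw_add hR Tst_Rg c lam T s]
    ring
  rw [e1]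
  ring

open Classical in
/-- one linear combination: the law over all the zeros, and the lower bounds for distinct and for isolated simple critical zeros -/
theorem field_law {m : ℕ} (h : Fin m → ℝ → ℝ) (hh : ∀ i, ∀ᶠ T : ℝ in atTop, |h i T| ≤ 1) {σ : Fin m → Fin m → ℝ} (hm : MesoG h σ)
    (u : Fin m → ℝ) (hv : 0 < vv σ u) (hABS : S_ABS) (hABU : S_ABU) {J : Set ℝ} (hJ : J.OrdConnected) (ε : ℝ) (hε : 0 < ε) :
    (∀ᶠ T : ℝ in atTop, |(∑ s ∈ (H370.Zf riemannZeta T (2 * T)).filter (fun s => yF h u (vv σ u) T s ∈ J), (mz s : ℝ)) -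
      (gaussianReal 0 1).real J * AT T| ≤ ε * AT T) ∧
    (∀ᶠ T : ℝ in atTop, ((3 - H370.cMTinv) / 2 * (gaussianReal 0 1).real J - ε) * AT T ≤
      (((ZL 1 T).filter (fun s => yF h u (vv σ u) T s ∈ J)).card : ℝ)) ∧
    ∃ d : ℝ, 0 < d ∧ d ≤ 1 ∧ ∀ᶠ T : ℝ in atTop, ((2 - H370.cMTinv) * (gaussianReal 0 1).real J - ε) * AT T ≤
      (((ZI d T).filter (fun s => yF h u (vv σ u) T s ∈ J)).card : ℝ) := by
  have hc2 := H370.cMTinv_lt
  have hc1 := H370.cMTinv_gt_one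
  have hva := fun δ hδ hδ1 => va_tendstoG b_MZ hh hm u δ hδ hδ1
  have hXM := xm_a b_SAMP b_WIDA (alf h u) (∑ i, |u i|) (by positivity) (fun T n => al_le h u T n) (vv σ u) hv hva
  have hXC := xc_F b_CLS h u hh (vv σ u) hv hXM
  refine ⟨xa_law hXM hXC hABU hJ ε hε, ?_, ?_⟩
  · obtain ⟨d, hd0, hd1, h⟩ := xl_low (κ := (3 - H370.cMTinv) / 2) (by linarith) (by linarith)
      ZL_sub hXM (xp_a (by linarith) (sg_dist b_SAMD) b_WIDA (alf h u) (∑ i, |u i|) (by positivity) (fun T n => al_le h u T n)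
        (vv σ u) hv hva) (xg_of_xc ZL_sub hXC) hABS hJ ε hε
    exact h
  · exact xl_low (κ := 2 - H370.cMTinv) (by linarith) (by linarith)
      ZI_sub hXM (xp_a (by linarith) (sg_iso b_SAMW) b_WIDA (alf h u) (∑ i, |u i|) (by positivity) (fun T n => al_le h u T n)
        (vv σ u) hv hva) (xg_of_xc ZI_sub hXC) hABS hJ ε hε

end

end Pool.Agent.Q97.UM
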